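import Pool.Agent.Lib.MP_ae5b4e_an_rat.Pencil

/-!
# MP_ae5b4e_an: smoothness of the field of involutions
-/

noncomputable section

namespace Pool.Agent.MP_ae5b4e_an_ND

open Real Set Filter Topology
open Pool.Agent.MP_ae5b4e_an Pool.Agent.MP_ae5b4e_an_rat

variable {U : ℝ → ℝ → ℝ} {κ : ℝ → ℝ}

/-- `κ` is as smooth as the foliation. -/
theorem contDiff_κn (h : LFam U κ) {n : WithTop ℕ∞} (h5 : n ≠ 0)
    (hs : ContDiffOn ℝ n (Uf U) (Ioo 0 1 ×ˢ univ)) : ContDiff ℝ n κ := by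
  have hsA : ∀ {q : ℝ × ℝ}, q.1 ∈ Ioo (0:ℝ) 1 → ContDiffAt ℝ n (Uf U) q := fun {q} hq =>
    hs.contDiffAt (isOpen_dom.mem_nhds ⟨hq, mem_univ _⟩)
  rw [contDiff_iff_contDiffAt]
  intro x
  have hc : (1/2:ℝ) ∈ Ioo (0:ℝ) 1 := ⟨by norm_num, by norm_num⟩
  obtain ⟨θ, rfl⟩ := h.nxt_surj hc x
  set φ : ℝ → ℝ := fun c => nxt U c θ with hφ
  have hφs : ContDiffAt ℝ n φ (1/2) := by
    have h1 : ContDiffAt ℝ n (fun c : ℝ => Uf U (c, θ)) (1/2) :=
      (hsA (q := ((1/2:ℝ), θ)) hc).comp (1/2:ℝ) (contDiffAt_id.prodMk contDiffAt_const)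
    have h2 : φ = fun c => θ + π - 2 * arctan (Uf U (c, θ)) := rfl
    rw [h2]
    exact contDiffAt_const.sub (contDiffAt_const.mul
      ((contDiff_arctan (n := n)).contDiffAt.comp (1/2:ℝ) h1))
  have hφd := h.hasDerivAt_nxt_c hc θ
  have hd0 : -(2 * D1 U (1/2, θ) / (1 + Uf U (1/2, θ) ^ 2)) ≠ 0 := by
    have h1 := h.D1_neg hc θ
    have h2 : 0 < 1 + Uf U (1/2, θ) ^ 2 := by positivity
    have h3 : 2 * D1 U (1/2, θ) / (1 + Uf U (1/2, θ) ^ 2) < 0 :=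
      div_neg_of_neg_of_pos (by linarith) h2
    exact (by linarith : 0 < -(2 * D1 U (1/2, θ) / (1 + Uf U (1/2, θ) ^ 2))).ne'
  set e : ℝ ≃L[ℝ] ℝ := ContinuousLinearEquiv.unitsEquivAut ℝ (Units.mk0 _ hd0) with he
  have hfd : HasFDerivAt φ (e : ℝ →L[ℝ] ℝ) (1/2) := by
    rw [hasFDerivAt_iff_hasDerivAt]
    refine hφd.congr_deriv ?_
    simp [he]
  set g := hφs.localInverse hfd h5 with hg
  have hgs : ContDiffAt ℝ n g (φ (1/2)) := hφs.to_localInverse hfd h5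
  have hga : g (φ (1/2)) = 1/2 := hφs.localInverse_apply_image hfd h5
  have hstrict : HasStrictFDerivAt φ (e : ℝ →L[ℝ] ℝ) (1/2) :=
    hφs.hasStrictFDerivAt' hfd h5
  have hright : ∀ᶠ y in 𝓝 (φ (1/2)), φ (g y) = y := hstrict.eventually_right_inverse
  have hmem : ∀ᶠ y in 𝓝 (φ (1/2)), g y ∈ Ioo (0:ℝ) 1 := by
    have h1 : Tendsto g (𝓝 (φ (1/2))) (𝓝 (1/2)) := by
      have := hgs.continuousAt.tendsto
      rwa [hga] at this
    exact h1.eventually (isOpen_Ioo.mem_nhds hc)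
  have hform : κ =ᶠ[𝓝 (φ (1/2))] fun y => Uf U (g y, y) - Uf U (g y, θ) := by
    filter_upwards [hright, hmem] with y h1 h2
    have h3 := h.feq' h2 θ
    have h4 : nxt U (g y) θ = y := h1
    rw [h4] at h3
    linarith
  refine ContDiffAt.congr_of_eventuallyEq ?_ hform
  have k1 : ContDiffAt ℝ n (fun y => Uf U (g y, y)) (φ (1/2)) := by
    refine ContDiffAt.comp (g := Uf U) (f := fun y => (g y, y)) (φ (1/2)) ?_
      (hgs.prodMk contDiffAt_id)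
    refine hsA ?_
    show g (φ (1/2)) ∈ Ioo (0:ℝ) 1
    rw [hga]; exact hc
  have k2 : ContDiffAt ℝ n (fun y => Uf U (g y, θ)) (φ (1/2)) := by
    refine ContDiffAt.comp (g := Uf U) (f := fun y => (g y, θ)) (φ (1/2)) ?_
      (hgs.prodMk contDiffAt_const)
    refine hsA ?_
    show g (φ (1/2)) ∈ Ioo (0:ℝ) 1
    rw [hga]; exact hc
  exact k1.sub k2

end Pool.Agent.MP_ae5b4e_an_ND
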