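import Pool.Agent.Lib.MP_ae5b4e_an_LAT.NDCrh
import Mathlib

/-!
# MP_ae5b4e_an: the counting theorem

`nd_count`: an algebraic function `κ` all of whose expansions at infinity are `-2 / x + ...` and
whose expansions at the finite places have at most a pole with leading coefficient `a w ^ (-N)`,
where `a` has real part at most `-1` or the place is unramified and `1 + a = 1 / q`, is rational.
-/

namespace Pool.Agent.LAT.RH

open Polynomial

open Pool.Agent.Lib.Puiseux (rot rot_coeff rot_single rot_rot rot_one subst subst_single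
  subst_coeff_of_not_dvd rot_subst)

/-- The extremal case of two averages. -/
theorem count_eq {n : ℕ} (hn : 2 ≤ n) {x d : ℂ → Fin n → ℝ}
    (hdx : ∀ e i, d e i ≤ (1 - 1 / (n : ℝ)) * x e i)
    (hd : ∃ S₀ : Finset ℂ, ∀ S : Finset ℂ, S₀ ⊆ S → 2 * ((n : ℝ) - 1) ≤ ∑ e ∈ S, ∑ i, d e i)
    (hx : ∃ S₀ : Finset ℂ, ∀ S : Finset ℂ, S₀ ⊆ S → ∑ e ∈ S, ∑ i, x e i = 2 * (n : ℝ))
    (e : ℂ) (i : Fin n) : d e i = (1 - 1 / (n : ℝ)) * x e i := by
  classical
  obtain ⟨S₁, h1⟩ := hd
  obtain ⟨S₂, h2⟩ := hx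
  set S := insert e (S₁ ∪ S₂) with hS
  have h3 := h1 S (Finset.subset_union_left.trans (Finset.subset_insert _ _))
  have h4 := h2 S (Finset.subset_union_right.trans (Finset.subset_insert _ _))
  have hn' : (n : ℝ) ≠ 0 := Nat.cast_ne_zero.mpr (by omega)
  have h5 : ∑ e ∈ S, ∑ i, ((1 - 1 / (n : ℝ)) * x e i - d e i) ≤ 0 := by
    simp only [Finset.sum_sub_distrib, ← Finset.mul_sum]
    rw [h4]
    have : (1 - 1 / (n : ℝ)) * (2 * n) = 2 * (n - 1) := by
      field_simp
    rw [this]
    linarith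
  have h6 : ∀ e ∈ S, 0 ≤ ∑ i, ((1 - 1 / (n : ℝ)) * x e i - d e i) := fun e _ =>
    Finset.sum_nonneg fun i _ => by linarith [hdx e i]
  have h7 := (Finset.sum_eq_zero_iff_of_nonneg h6).mp (le_antisymm h5 (Finset.sum_nonneg h6)) e
    (Finset.mem_insert_self _ _)
  have h8 := (Finset.sum_eq_zero_iff_of_nonneg fun i _ => by linarith [hdx e i]).mp h7 i
    (Finset.mem_univ _)
  linarith

theorem zfin_one_subst (e : ℂ) (N : ℕ+) : subst N (zfin e 1) = zfin e (N : ℕ) := by
  rw [zfin, zfin, map_add, HahnSeries.C_apply, subst_single, subst_single]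
  simp

theorem aeval_subst (e : ℂ) (N : ℕ+) :
    (subst N).comp (aeval (zfin e 1) : ℂ[X] →ₐ[ℂ] Lau).toRingHom =
      (aeval (zfin e (N : ℕ)) : ℂ[X] →ₐ[ℂ] Lau).toRingHom := by
  apply Polynomial.ringHom_ext
  · intro a
    change subst N (aeval (zfin e 1) (C a)) = aeval (zfin e (N : ℕ)) (C a)
    rw [aeval_C, aeval_C, algebraMap_Lau, HahnSeries.C_apply, subst_single, mul_zero]
  · change subst N (aeval (zfin e 1) X) = aeval (zfin e (N : ℕ)) X
    rw [aeval_X, aeval_X, zfin_one_subst]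

end Pool.Agent.LAT.RH

namespace Pool.Agent.MP_ae5b4e_an_ND

open Polynomial Pool.Agent.LAT.RH

open Pool.Agent.Lib.Puiseux (rot rot_coeff rot_single rot_rot rot_one subst subst_single
  subst_coeff_of_not_dvd rot_subst puiseux)

/-- The counting theorem. -/
theorem nd_count (m : ℂ[X][X]) (hirr : Irreducible (m.map (algebraMap ℂ[X] (RatFunc ℂ))))
    (hspl : (m.map ((aeval (HahnSeries.single (-1 : ℤ) (1:ℂ)) :
      ℂ[X] →ₐ[ℂ] LaurentSeries ℂ) : ℂ[X] →+* LaurentSeries ℂ)).Splits)
    (hinf : ∀ r : LaurentSeries ℂ, (m.map ((aeval (HahnSeries.single (-1 : ℤ) (1:ℂ)) :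
      ℂ[X] →ₐ[ℂ] LaurentSeries ℂ) : ℂ[X] →+* LaurentSeries ℂ)).eval r = 0 →
      (∀ k ≤ 0, r.coeff k = 0) ∧ r.coeff 1 = -2)
    (hfin : ∀ (e : ℂ) (N : ℕ) (hN : 0 < N) (r : LaurentSeries ℂ),
      (m.map ((aeval (HahnSeries.C e + HahnSeries.single (N : ℤ) (1:ℂ)) :
        ℂ[X] →ₐ[ℂ] LaurentSeries ℂ) : ℂ[X] →+* LaurentSeries ℂ)).eval r = 0 →
      (∀ k < -(N : ℤ), r.coeff k = 0) ∧
      (0 < (1 + r.coeff (-(N : ℤ))).re → r ∈ Set.range (subst ⟨N, hN⟩ : LaurentSeries ℂ →+* _) ∧
        ∃ q : ℕ, 0 < q ∧ 1 + r.coeff (-(N : ℤ)) = 1 / (q : ℂ))) :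
    m.natDegree = 1 := by
  classical
  have hfact : Fact (Irreducible (pF m)) := ⟨hirr⟩
  have hnpos := natDegree_pos (m := m)
  by_contra hne1
  have hn2 : 2 ≤ m.natDegree := by omega
  -- the data
  have hdata : ∀ e : ℂ, ∃ N : ℕ, 0 < N ∧ ∃ p : Pt m, p.z = zfin e N := by
    intro e
    obtain ⟨N, hN⟩ := puiseux (m.map (aeval (zfin e 1) : ℂ[X] →ₐ[ℂ] Lau).toRingHom)
    rw [map_map, aeval_subst] at hN
    obtain ⟨p, hp, _⟩ := exists_pt (inj_zfin N.pos) hN
    exact ⟨N, N.pos, p, hp⟩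
  choose N hN p hp using hdata
  obtain ⟨p', hp', _⟩ := exists_pt (m := m) inj_zinf hspl
  set D : Data m := ⟨N, hN, p, hp, p', hp'⟩ with hD
  -- the roots
  have hr : ∀ e i, (m.map ((aeval (HahnSeries.C e + HahnSeries.single (N e : ℤ) (1:ℂ)) :
        ℂ[X] →ₐ[ℂ] LaurentSeries ℂ) : ℂ[X] →+* LaurentSeries ℂ)).eval ((p e).r i) = 0 := by
    intro e i
    have h := (p e).root i
    rw [hp] at h
    exact h
  have hr' : ∀ i, (m.map ((aeval (HahnSeries.single (-1 : ℤ) (1:ℂ)) :
        ℂ[X] →ₐ[ℂ] LaurentSeries ℂ) : ℂ[X] →+* LaurentSeries ℂ)).eval (p'.r i) = 0 := by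
    intro i
    have h := p'.root i
    rw [hp'] at h
    exact h
  have hperm := fun e => exists_perm (p e) (hN e) (hp e)
  choose π hπN hπ using hperm
  -- the leading coefficients
  set a : ℂ → Fin m.natDegree → ℂ := fun e i => ((p e).r i).coeff (-(N e : ℤ)) with ha
  have hor : ∀ e i, ((a e i).re ≤ -1) ∨ ((a e i).re ≤ 0 ∧
      (p e).r i ∈ Set.range (subst ⟨N e, hN e⟩ : LaurentSeries ℂ →+* _) ∧
      ((a e i).re = 0 → a e i = 0)) := by
    intro e i
    obtain ⟨_, h2⟩ := hfin e (N e) (hN e) _ (hr e i)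
    by_cases h3 : 0 < (1 + a e i).re
    · right
      obtain ⟨h4, q, hq, hq2⟩ := h2 h3
      have h5 : a e i = ((1 / (q : ℝ) - 1 : ℝ) : ℂ) := by
        have : 1 + a e i = 1 / (q : ℂ) := hq2
        push_cast
        linear_combination this
      have hq1 : (1 : ℝ) ≤ q := by exact_mod_cast hq
      refine ⟨?_, h4, ?_⟩
      · rw [h5, Complex.ofReal_re]
        have : 1 / (q : ℝ) ≤ 1 := by
          rw [div_le_one (by linarith)]; exact hq1
        linarith
      · intro h6
        rw [h5, Complex.ofReal_re] at h6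
        rw [h5, h6, Complex.ofReal_zero]
    · left
      rw [Complex.add_re, Complex.one_re] at h3
      linarith
  set x : ℂ → Fin m.natDegree → ℝ := fun e i => -(a e i).re with hx
  set d : ℂ → Fin m.natDegree → ℝ := fun e i => 1 - frac (N e) (π e) i i with hd
  have hnR : (2 : ℝ) ≤ m.natDegree := by exact_mod_cast hn2
  have hn0 : (0 : ℝ) < 1 - 1 / (m.natDegree : ℝ) := by
    have : 1 / (m.natDegree : ℝ) < 1 := by
      rw [div_lt_one (by linarith)]; linarith
    linarith
  have hx0 : ∀ e i, 0 ≤ x e i := by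
    intro e i
    simp only [hx]
    rcases hor e i with h | h
    · linarith
    · linarith [h.1]
  -- moved expansions have a leading coefficient at most `-1`
  have hmoved : ∀ e i, π e i ≠ i → 1 ≤ x e i := by
    intro e i hi
    simp only [hx]
    rcases hor e i with h | h
    · linarith
    · exfalso
      apply hi
      obtain ⟨y, hy⟩ := h.2.1
      apply (p e).rinj
      have h1 := hπ e i (AdjoinRoot.root (pF m))
      rw [Pt.hom_root, Pt.hom_root] at h1
      rw [← h1, ← hy]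
      exact rot_subst (zu (N e)) ⟨N e, hN e⟩ (by rw [PNat.mk_coe]; exact zu_pow (hN e)) y
  have hdle : ∀ e i, d e i ≤ 1 - 1 / (m.natDegree : ℝ) := by
    intro e i
    have := frac_ge hnpos (hN e) (hπN e) i
    simp only [hd]
    linarith
  have hdx : ∀ e i, d e i ≤ (1 - 1 / (m.natDegree : ℝ)) * x e i := by
    intro e i
    by_cases hi : π e i = i
    · have h1 : d e i = 0 := by
        simp only [hd]
        rw [frac_fixed (hN e) hi, sub_self]
      rw [h1]
      exact mul_nonneg hn0.le (hx0 e i)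
    · calc d e i ≤ (1 - 1 / (m.natDegree : ℝ)) * 1 := by rw [mul_one]; exact hdle e i
        _ ≤ _ := mul_le_mul_of_nonneg_left (hmoved e i hi) hn0.le
  have hRH := rh_ineq D hπN hπ
  have hres := sum_res D (fun e i => (hfin e (N e) (hN e) _ (hr e i)).1)
    (fun i => (hinf _ (hr' i)).1) (fun i => (hinf _ (hr' i)).2)
  have hxs : ∃ S₀ : Finset ℂ, ∀ S : Finset ℂ, S₀ ⊆ S →
      ∑ e ∈ S, ∑ i, x e i = 2 * (m.natDegree : ℝ) := by
    obtain ⟨S₀, h⟩ := hres
    refine ⟨S₀, fun S hS => ?_⟩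
    have h1 := congrArg Complex.re (h S hS)
    rw [Complex.re_sum] at h1
    simp only [Complex.re_sum] at h1
    have h2 : (-2 * (m.natDegree : ℂ)).re = -2 * (m.natDegree : ℝ) := by
      have : (-2 * (m.natDegree : ℂ)) = ((-2 * (m.natDegree : ℝ) : ℝ) : ℂ) := by push_cast; rfl
      rw [this, Complex.ofReal_re]
    rw [h2] at h1
    simp only [hx, Finset.sum_neg_distrib]
    have h3 : ∑ e ∈ S, ∑ i, (a e i).re = -2 * (m.natDegree : ℝ) := h1
    linarith
  have heq := count_eq hn2 hdx hRH hxs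
  -- the ramified points
  set E : ℂ → Prop := fun e => ∃ i, π e i ≠ i with hE
  have hEx : ∀ e, E e → ∀ i, x e i = 1 := by
    rintro e ⟨i, hi⟩
    have h1 : x e i = 1 := by
      apply le_antisymm _ (hmoved e i hi)
      have h2 := heq e i
      have h3 := hdle e i
      rw [h2] at h3
      by_contra h4
      push Not at h4
      have := mul_lt_mul_of_pos_left h4 hn0
      linarith
    have h2 := heq e i
    rw [h1, mul_one] at h2
    have h3 : frac (N e) (π e) i i = 1 / m.natDegree := by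
      simp only [hd] at h2
      linarith
    intro j
    have hj : π e j ≠ j := by
      intro hj
      obtain ⟨s, hs⟩ := frac_eq hnpos (hN e) (hπN e) h3 j
      have := fixed_of_pow hs hj
      rw [← this] at hi
      exact hi hj
    apply le_antisymm _ (hmoved e j hj)
    have h2 := heq e j
    have h3 := hdle e j
    rw [h2] at h3
    by_contra h4
    push Not at h4
    have := mul_lt_mul_of_pos_left h4 hn0
    linarith
  have hnEx : ∀ e, ¬ E e → ∀ i, x e i = 0 := by
    intro e he i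
    have hi : π e i = i := by
      by_contra hi
      exact he ⟨i, hi⟩
    have h1 := heq e i
    have h2 : d e i = 0 := by
      simp only [hd]
      rw [frac_fixed (hN e) hi, sub_self]
    rw [h2] at h1
    rcases mul_eq_zero.mp h1.symm with h3 | h3
    · exact absurd h3 hn0.ne'
    · exact h3
  obtain ⟨S₀, hS₀⟩ := hxs
  have hcard : ∀ S : Finset ℂ, S₀ ⊆ S → (S.filter E).card = 2 := by
    intro S hS
    have h1 := hS₀ S hS
    have h2 : ∀ e ∈ S, ∑ i, x e i = if E e then (m.natDegree : ℝ) else 0 := by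
      intro e _
      split_ifs with he
      · rw [Finset.sum_congr rfl fun i _ => hEx e he i]
        simp
      · rw [Finset.sum_congr rfl fun i _ => hnEx e he i]
        simp
    rw [Finset.sum_congr rfl h2, ← Finset.sum_filter, Finset.sum_const, nsmul_eq_mul] at h1
    have h3 : ((S.filter E).card : ℝ) = 2 := mul_right_cancel₀ (by linarith) h1
    exact_mod_cast h3
  obtain ⟨e₁, e₂, he12, hS2⟩ := Finset.card_eq_two.mp (hcard S₀ subset_rfl)
  have hout : ∀ e, e ≠ e₁ → e ≠ e₂ → ¬ E e := by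
    intro e h1 h2 he
    have h3 := hcard (insert e S₀) (Finset.subset_insert _ _)
    have h4 : S₀.filter E ⊆ (insert e S₀).filter E :=
      Finset.filter_subset_filter _ (Finset.subset_insert _ _)
    have h5 := Finset.eq_of_subset_of_card_le h4 (by rw [h3, hcard S₀ subset_rfl])
    have h6 : e ∈ (insert e S₀).filter E :=
      Finset.mem_filter.mpr ⟨Finset.mem_insert_self _ _, he⟩
    rw [← h5, hS2, Finset.mem_insert, Finset.mem_singleton] at h6
    rcases h6 with h6 | h6
    · exact h1 h6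
    · exact h2 h6
  -- all other expansions are regular
  have hreg : ∀ e, ¬ E e → ∀ i, (p e).r i ∈ PS := by
    intro e he i
    rw [mem_PS]
    intro j hj
    have h1 : (a e i).re = 0 := by
      have := hnEx e he i
      simp only [hx] at this
      linarith
    rcases hor e i with h2 | ⟨_, ⟨y, hy⟩, h4⟩
    · linarith
    · rcases lt_trichotomy j (-(N e : ℤ)) with h5 | h5 | h5
      · exact (hfin e (N e) (hN e) _ (hr e i)).1 j h5
      · rw [h5]
        exact h4 h1
      · rw [← hy]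
        apply subst_coeff_of_not_dvd
        rintro ⟨t, ht⟩
        have hNe : (0 : ℤ) < (N e : ℤ) := by exact_mod_cast hN e
        have ht' : j = (N e : ℤ) * t := ht
        have h6 : t < 0 := by
          by_contra h7
          push Not at h7
          have := mul_nonneg hNe.le h7
          omega
        have h7 : -1 < t := by
          by_contra h8
          push Not at h8
          have : (N e : ℤ) * t ≤ (N e : ℤ) * (-1) := mul_le_mul_of_nonneg_left h8 hNe.le
          omega
        omega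
  -- the function
  set Q : ℂ[X] := (X - C e₁) * (X - C e₂) with hQ
  set θ := AdjoinRoot.root (pF m) with hθ
  set g : Lf m := emb m Q * θ + emb m (2 * X) with hg
  have hxeps : ∀ e, aeval (zps e (N e)) (X - C e) = (PowerSeries.X : PowerSeries ℂ) ^ (N e) := by
    intro e
    rw [map_sub, aeval_X, aeval_C, zps]
    change PowerSeries.C e + PowerSeries.X ^ (N e) - PowerSeries.C e = _
    rw [add_sub_cancel_left]
  have hpoleX : ∀ e i, HahnSeries.ofPowerSeries ℤ ℂ (PowerSeries.X ^ (N e)) * (p e).r i ∈ PS := by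
    intro e i
    rw [mem_PS]
    intro t ht
    rw [HahnSeries.ofPowerSeries_X_pow]
    have h2 : t = (t - N e) + (N e : ℤ) := by ring
    rw [h2, HahnSeries.coeff_single_mul_add, one_mul]
    exact (hfin e (N e) (hN e) _ (hr e i)).1 _ (by omega)
  have hgO : g ∈ Oset D := by
    rw [mem_Oset]
    intro e i
    rw [hg, map_add]
    refine Subring.add_mem _ ?_ ((mem_Oset D).mp (emb_mem_Oset D _) e i)
    rw [map_mul, hθ, Pt.hom_root, fin_emb, hQ]
    by_cases h1 : e = e₁
    · subst h1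
      rw [map_mul, map_mul]
      change HahnSeries.ofPowerSeries ℤ ℂ (aeval (zps e (N e)) (X - C e)) *
        HahnSeries.ofPowerSeries ℤ ℂ (aeval (zps e (N e)) (X - C e₂)) * (p e).r i ∈ PS
      rw [hxeps, mul_right_comm]
      exact Subring.mul_mem _ (hpoleX e i) ⟨_, rfl⟩
    · by_cases h2 : e = e₂
      · subst h2
        rw [map_mul, map_mul]
        change HahnSeries.ofPowerSeries ℤ ℂ (aeval (zps e (N e)) (X - C e₁)) *
          HahnSeries.ofPowerSeries ℤ ℂ (aeval (zps e (N e)) (X - C e)) * (p e).r i ∈ PS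
        rw [hxeps, mul_assoc]
        exact Subring.mul_mem _ ⟨_, rfl⟩ (hpoleX e i)
      · exact Subring.mul_mem _ ⟨_, rfl⟩ (hreg e (hout e h1 h2) i)
  have hgd : DegLe D g 0 := by
    intro i j hj
    have hj' : j < 0 := by omega
    rw [hg, map_add, map_mul, inf_emb, inf_emb, hθ, Pt.hom_root]
    change (aeval zinf Q * p'.r i + aeval zinf (2 * X)).coeff j = 0
    obtain ⟨h0, h1⟩ := hinf _ (hr' i)
    have h2 : aeval zinf Q * p'.r i = zinf ^ 2 * p'.r i -
        HahnSeries.C (e₁ + e₂) * (zinf ^ 1 * p'.r i) + HahnSeries.C (e₁ * e₂) * p'.r i := by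
      rw [hQ, map_mul, map_sub, map_sub, aeval_X, aeval_C, aeval_C, algebraMap_Lau,
        algebraMap_Lau, map_add, map_mul]
      ring
    have h3 : aeval zinf (2 * X : ℂ[X]) = HahnSeries.C 2 * (zinf ^ 1 * (1 : Lau)) := by
      have : (2 * X : ℂ[X]) = C 2 * X := by rw [map_ofNat]
      rw [this, map_mul, aeval_X, aeval_C, algebraMap_Lau]
      ring
    rw [h2, h3, HahnSeries.coeff_add, HahnSeries.coeff_add, HahnSeries.coeff_sub,
      HahnSeries.C_apply, HahnSeries.C_apply, HahnSeries.C_apply,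
      HahnSeries.coeff_single_zero_mul, HahnSeries.coeff_single_zero_mul,
      HahnSeries.coeff_single_zero_mul, coeff_zinf_pow_mul, coeff_zinf_pow_mul,
      coeff_zinf_pow_mul, h0 j hj'.le, h0 (j + (1 : ℕ)) (by push_cast; omega),
      HahnSeries.coeff_one]
    rcases eq_or_lt_of_le (show j ≤ -1 by omega) with h4 | h4
    · rw [h4]
      norm_num
      rw [h1]
      norm_num
    · rw [h0 (j + (2 : ℕ)) (by push_cast; omega), if_neg (by push_cast; omega)]
      ring
  obtain ⟨c, hc⟩ := const_of_int D hgO hgd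
  -- the function is rational
  have hQ0 : algebraMap ℂ[X] (RatFunc ℂ) Q ≠ 0 := by
    rw [Ne, map_eq_zero_iff _ (IsFractionRing.injective ℂ[X] (RatFunc ℂ)), hQ]
    exact mul_ne_zero (X_sub_C_ne_zero _) (X_sub_C_ne_zero _)
  have hθrat : θ = algebraMap (RatFunc ℂ) (Lf m)
      ((algebraMap ℂ[X] (RatFunc ℂ) Q)⁻¹ * algebraMap ℂ[X] (RatFunc ℂ) (C c - 2 * X)) := by
    have h1 : emb m Q * θ = emb m (C c - 2 * X) := by
      rw [map_sub, ← hc, hg]
      ring
    have h2 : algebraMap (RatFunc ℂ) (Lf m) ((algebraMap ℂ[X] (RatFunc ℂ) Q)⁻¹) * emb m Q = 1 := by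
      rw [emb, RingHom.comp_apply, ← map_mul, inv_mul_cancel₀ hQ0, map_one]
    calc θ = algebraMap (RatFunc ℂ) (Lf m) ((algebraMap ℂ[X] (RatFunc ℂ) Q)⁻¹) *
          (emb m Q * θ) := by rw [← mul_assoc, h2, one_mul]
      _ = _ := by
          rw [h1]
          exact (map_mul (algebraMap (RatFunc ℂ) (Lf m)) _ _).symm
  set y := (algebraMap ℂ[X] (RatFunc ℂ) Q)⁻¹ * algebraMap ℂ[X] (RatFunc ℂ) (C c - 2 * X)
  have hdvd : pF m ∣ X - C y := by
    rw [← AdjoinRoot.mk_eq_zero, map_sub, AdjoinRoot.mk_X, AdjoinRoot.mk_C, ← hθ, hθrat,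
      AdjoinRoot.algebraMap_eq, sub_self]
  have h1 := natDegree_le_of_dvd hdvd (X_sub_C_ne_zero y)
  rw [natDegree_pF, natDegree_X_sub_C] at h1
  omega

end Pool.Agent.MP_ae5b4e_an_ND
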