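import Pool.Agent.Lib.MP_ae5b4e_an_LAT.NDPlace

/-!
# MP_ae5b4e_an: the algebraic equation in the coordinate `1 / (x - a)`

`exists_mobpoly_inf`: if `m (x, κ x) = 0` then `κ` in the coordinate `y = 1 / (x - a)`, which is
`-(κ (a + 1 / y)) / y ^ 2 - 2 / y`, satisfies an irreducible equation `mt` of the same degree.  If
`a` is regular for `m`, then `mt` splits over the Laurent series in `1 / y` and all its roots have
the form `-2 / y + ...`.
-/

noncomputable section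

open Polynomial Filter Topology

namespace Pool.Agent.MP_ae5b4e_an_ND

namespace Mob

/-- `c ↦ y ^ D c (a + 1 / y)` -/
def cinv (a : ℂ) (D : ℕ) (c : ℂ[X]) : ℂ[X] := reflect D (c.comp (X + C a))

lemma hom_eq_eval₂ {L : Type*} [CommRing L] (ψ : ℂ[X] →+* L) (p : ℂ[X]) :
    ψ p = p.eval₂ (ψ.comp C) (ψ X) := by
  conv_lhs => rw [← eval₂_C_X (p := p)]
  rw [hom_eval₂]

lemma map_cinv {L : Type*} [Field L] (ψ χ : ℂ[X] →+* L) (hC : ∀ c, χ (C c) = ψ (C c))
    (h0 : ψ X ≠ 0) {a : ℂ} (hX : χ X = ψ (C a) + (ψ X)⁻¹) {D : ℕ} {c : ℂ[X]}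
    (hc : c.natDegree ≤ D) : ψ (cinv a D c) = ψ X ^ D * χ c := by
  let _ : Invertible (ψ X)⁻¹ := invertibleOfNonzero (inv_ne_zero h0)
  have hinv : ⅟((ψ X)⁻¹) = ψ X := by
    rw [invOf_eq_inv, inv_inv]
  have hdeg : (c.comp (X + C a)).natDegree ≤ D := by
    rw [natDegree_comp, natDegree_X_add_C, mul_one]
    exact hc
  have h1 := eval₂_reflect_mul_pow (ψ.comp C) (ψ X)⁻¹ D (c.comp (X + C a)) hdeg
  rw [hinv] at h1
  have h2 : ψ (cinv a D c) = eval₂ (ψ.comp C) (ψ X) (reflect D (c.comp (X + C a))) :=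
    hom_eq_eval₂ ψ _
  have hCC : χ.comp C = ψ.comp C := RingHom.ext fun c => hC c
  have h3 : eval₂ (ψ.comp C) (ψ X)⁻¹ (c.comp (X + C a)) = χ c := by
    rw [eval₂_comp, eval₂_add, eval₂_X, eval₂_C, hom_eq_eval₂ χ c, hCC, hX]
    congr 1
    rw [RingHom.comp_apply, add_comm]
  rw [h3] at h1
  rw [h2, ← h1, mul_comm (ψ X ^ D), mul_assoc, ← mul_pow, inv_mul_cancel₀ h0, one_pow, mul_one]

/-- a bound for the degrees of the coefficients -/
def bd (m : ℂ[X][X]) : ℕ := (Finset.range (m.natDegree + 1)).sup fun j => (m.coeff j).natDegree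

lemma natDegree_coeff_le (m : ℂ[X][X]) (j : ℕ) : (m.coeff j).natDegree ≤ bd m := by
  by_cases hj : j ≤ m.natDegree
  · exact Finset.le_sup (f := fun j => (m.coeff j).natDegree)
      (Finset.mem_range.2 (Nat.lt_succ_of_le hj))
  · rw [coeff_eq_zero_of_natDegree_lt (not_le.1 hj), natDegree_zero]
    exact Nat.zero_le _

/-- `y ^ D m (a + 1 / y, T)` -/
def minv (a : ℂ) (m : ℂ[X][X]) : ℂ[X][X] :=
  ∑ j ∈ Finset.range (m.natDegree + 1), monomial j (cinv a (bd m) (m.coeff j))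

lemma map_minv {L : Type*} [Field L] (ψ χ : ℂ[X] →+* L) (hC : ∀ c, χ (C c) = ψ (C c))
    (h0 : ψ X ≠ 0) {a : ℂ} (hX : χ X = ψ (C a) + (ψ X)⁻¹) (m : ℂ[X][X]) :
    (minv a m).map ψ = C (ψ X ^ bd m) * m.map χ := by
  ext j
  rw [coeff_map, minv, finsetSum_coeff, coeff_C_mul, coeff_map]
  simp only [coeff_monomial]
  rw [Finset.sum_ite_eq']
  split_ifs with h
  · exact map_cinv ψ χ hC h0 hX (natDegree_coeff_le m j)
  · rw [Finset.mem_range, not_lt] at h
    rw [coeff_eq_zero_of_natDegree_lt (by omega), map_zero, map_zero, mul_zero]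

/-- `T ↦ - y ^ 2 T - 2 y` -/
def lin : ℂ[X][X] := -(C ((X : ℂ[X]) ^ 2) * X) - C (2 * (X : ℂ[X]))

/-- `y ^ D m (a + 1 / y, - y ^ 2 T - 2 y)` -/
def mt (a : ℂ) (m : ℂ[X][X]) : ℂ[X][X] := (minv a m).comp lin

lemma map_lin {L : Type*} [CommRing L] (ψ : ℂ[X] →+* L) :
    lin.map ψ = C (-(ψ X) ^ 2) * X + C (-(2 * ψ X)) := by
  rw [lin, Polynomial.map_sub, Polynomial.map_neg, Polynomial.map_mul, map_C, map_C, map_X,
    map_pow, map_mul, map_ofNat, C_neg, C_neg]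
  ring

lemma map_mt {L : Type*} [Field L] (ψ χ : ℂ[X] →+* L) (hC : ∀ c, χ (C c) = ψ (C c))
    (h0 : ψ X ≠ 0) {a : ℂ} (hX : χ X = ψ (C a) + (ψ X)⁻¹) (m : ℂ[X][X]) :
    (mt a m).map ψ =
      (C (ψ X ^ bd m) * m.map χ).comp (C (-(ψ X) ^ 2) * X + C (-(2 * ψ X))) := by
  rw [mt, map_comp, map_minv ψ χ hC h0 hX, map_lin]

/-- composition with a linear polynomial as an automorphism -/
def linEquiv {L : Type*} [Field L] (u : L) (hu : u ≠ 0) : L[X] ≃ₐ[L] L[X] :=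
  letI : Invertible (-u ^ 2) := invertibleOfNonzero (neg_ne_zero.2 (pow_ne_zero 2 hu))
  algEquivCMulXAddC (-u ^ 2) (-(2 * u))

lemma linEquiv_apply {L : Type*} [Field L] (u : L) (hu : u ≠ 0) (f : L[X]) :
    linEquiv u hu f = f.comp (C (-u ^ 2) * X + C (-(2 * u))) := by
  rw [linEquiv, algEquivCMulXAddC_apply, comp_eq_aeval]

lemma map_mt' {L : Type*} [Field L] (ψ χ : ℂ[X] →+* L) (hC : ∀ c, χ (C c) = ψ (C c))
    (h0 : ψ X ≠ 0) {a : ℂ} (hX : χ X = ψ (C a) + (ψ X)⁻¹) (m : ℂ[X][X]) :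
    (mt a m).map ψ = linEquiv (ψ X) h0 (C (ψ X ^ bd m) * m.map χ) := by
  rw [linEquiv_apply, map_mt ψ χ hC h0 hX]

lemma eval_map_mt {L : Type*} [Field L] (ψ χ : ℂ[X] →+* L) (hC : ∀ c, χ (C c) = ψ (C c))
    (h0 : ψ X ≠ 0) {a : ℂ} (hX : χ X = ψ (C a) + (ψ X)⁻¹) (m : ℂ[X][X]) (t : L) :
    ((mt a m).map ψ).eval t =
      ψ X ^ bd m * (m.map χ).eval (-(ψ X ^ 2 * t) - 2 * ψ X) := by
  rw [map_mt ψ χ hC h0 hX, eval_comp, eval_mul, eval_C, eval_add, eval_mul, eval_C, eval_C,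
    eval_X]
  congr 2
  ring

/-- the pointwise identity -/
lemma evalEval_mt (a : ℂ) (m : ℂ[X][X]) {y : ℂ} (hy : y ≠ 0) (t : ℂ) :
    evalEval y t (mt a m) = y ^ bd m * evalEval (a + 1 / y) (-(y ^ 2 * t) - 2 * y) m := by
  have h := eval_map_mt (evalRingHom y) (evalRingHom (a + 1 / y)) (fun c => by simp)
    (by simpa using hy) (a := a) (by simp) m t
  rw [evalEval_eq_eval_map, evalEval_eq_eval_map, h]
  simp

/-! ### Irreducibility -/

lemma transc_inv (a : ℂ) :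
    Transcendental ℂ (algebraMap ℂ (RatFunc ℂ) a + (RatFunc.X : RatFunc ℂ)⁻¹) := by
  intro h
  have h1 : IsAlgebraic ℂ (RatFunc.X : RatFunc ℂ)⁻¹ := by
    have := h.sub (isAlgebraic_algebraMap (A := RatFunc ℂ) a)
    rwa [add_sub_cancel_left] at this
  have h2 := h1.inv
  rw [inv_inv] at h2
  exact RatFunc.transcendental_X h2

lemma transc_inv' (a : ℂ) :
    Transcendental ℂ ((RatFunc.X - algebraMap ℂ (RatFunc ℂ) a : RatFunc ℂ)⁻¹) := by
  intro h
  have h1 := h.inv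
  rw [inv_inv] at h1
  have h2 := h1.add (isAlgebraic_algebraMap (A := RatFunc ℂ) a)
  rw [sub_add_cancel] at h2
  exact RatFunc.transcendental_X h2

/-- `x ↦ a + 1 / x` -/
def sig (a : ℂ) : RatFunc ℂ →ₐ[ℂ] RatFunc ℂ :=
  IsFractionRing.liftAlgHom (transcendental_iff_injective.1 (transc_inv a))

/-- `x ↦ 1 / (x - a)` -/
def tau (a : ℂ) : RatFunc ℂ →ₐ[ℂ] RatFunc ℂ :=
  IsFractionRing.liftAlgHom (transcendental_iff_injective.1 (transc_inv' a))

lemma sig_algebraMap (a : ℂ) (p : ℂ[X]) : sig a (algebraMap ℂ[X] (RatFunc ℂ) p) =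
    aeval (algebraMap ℂ (RatFunc ℂ) a + (RatFunc.X : RatFunc ℂ)⁻¹) p := by
  rw [sig, IsFractionRing.liftAlgHom_apply, IsFractionRing.lift_algebraMap]
  rfl

lemma tau_algebraMap (a : ℂ) (p : ℂ[X]) : tau a (algebraMap ℂ[X] (RatFunc ℂ) p) =
    aeval ((RatFunc.X - algebraMap ℂ (RatFunc ℂ) a : RatFunc ℂ)⁻¹) p := by
  rw [tau, IsFractionRing.liftAlgHom_apply, IsFractionRing.lift_algebraMap]
  rfl

lemma sig_X (a : ℂ) : sig a RatFunc.X = algebraMap ℂ (RatFunc ℂ) a + (RatFunc.X : RatFunc ℂ)⁻¹ := by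
  have h := sig_algebraMap a X
  rwa [aeval_X, RatFunc.algebraMap_X] at h

lemma tau_X (a : ℂ) : tau a RatFunc.X = (RatFunc.X - algebraMap ℂ (RatFunc ℂ) a : RatFunc ℂ)⁻¹ := by
  have h := tau_algebraMap a X
  rwa [aeval_X, RatFunc.algebraMap_X] at h

lemma sig_tau (a : ℂ) (f : RatFunc ℂ) : sig a (tau a f) = f := by
  have h : ((sig a : RatFunc ℂ →+* RatFunc ℂ)).comp (tau a : RatFunc ℂ →+* RatFunc ℂ) =
      RingHom.id _ := by
    refine IsFractionRing.ringHom_ext (A := ℂ[X]) fun p => ?_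
    have h1 : sig a (tau a (algebraMap ℂ[X] (RatFunc ℂ) p)) = algebraMap ℂ[X] (RatFunc ℂ) p := by
      rw [tau_algebraMap, ← aeval_algHom_apply, map_inv₀, map_sub, sig_X, AlgHom.commutes,
        add_sub_cancel_left, inv_inv]
      rw [← RatFunc.algebraMap_X, aeval_algebraMap_apply, aeval_X_left_apply]
    exact h1
  exact RingHom.congr_fun h f

lemma sig_bijective (a : ℂ) : Function.Bijective (sig a) :=
  ⟨(sig a).toRingHom.injective, fun f => ⟨tau a f, sig_tau a f⟩⟩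

theorem irreducible_mt {m : ℂ[X][X]} (hirr : Irreducible (m.map (algebraMap ℂ[X] (RatFunc ℂ))))
    (a : ℂ) : Irreducible ((mt a m).map (algebraMap ℂ[X] (RatFunc ℂ))) ∧
      (mt a m).natDegree = m.natDegree := by
  set ψ : ℂ[X] →+* RatFunc ℂ := algebraMap ℂ[X] (RatFunc ℂ) with hψ
  set σ : RatFunc ℂ ≃+* RatFunc ℂ :=
    RingEquiv.ofBijective (sig a : RatFunc ℂ →+* RatFunc ℂ) (sig_bijective a) with hσ
  set χ : ℂ[X] →+* RatFunc ℂ := (σ : RatFunc ℂ →+* RatFunc ℂ).comp ψ with hχ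
  have hψX : ψ X = RatFunc.X := RatFunc.algebraMap_X
  have h0 : ψ X ≠ 0 := by
    rw [hψX]
    exact RatFunc.X_ne_zero
  have hC : ∀ c, χ (C c) = ψ (C c) := by
    intro c
    show sig a (algebraMap ℂ[X] (RatFunc ℂ) (C c)) = algebraMap ℂ[X] (RatFunc ℂ) (C c)
    rw [sig_algebraMap, aeval_C]
    rfl
  have hX : χ X = ψ (C a) + (ψ X)⁻¹ := by
    show sig a (algebraMap ℂ[X] (RatFunc ℂ) X) = _
    rw [sig_algebraMap, aeval_X, hψX]
    rfl
  have hmap := map_mt' ψ χ hC h0 hX m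
  have hmχ : m.map χ = mapEquiv σ (m.map ψ) := by
    rw [hχ, ← Polynomial.map_map]
    rfl
  have hirrχ : Irreducible (m.map χ) := by
    rw [hmχ, MulEquiv.irreducible_iff]
    exact hirr
  have hu : IsUnit (C (ψ X ^ bd m) : (RatFunc ℂ)[X]) :=
    isUnit_C.2 (IsUnit.mk0 _ (pow_ne_zero _ h0))
  constructor
  · rw [hmap, MulEquiv.irreducible_iff, irreducible_isUnit_mul hu]
    exact hirrχ
  · have hinj : Function.Injective ψ := IsFractionRing.injective ℂ[X] (RatFunc ℂ)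
    rw [← natDegree_map_eq_of_injective hinj (mt a m), hmap, linEquiv_apply, natDegree_comp,
      natDegree_C_mul (pow_ne_zero _ h0), hχ,
      natDegree_map_eq_of_injective (σ.injective.comp hinj), natDegree_linear, mul_one]
    exact neg_ne_zero.2 (pow_ne_zero 2 h0)

/-! ### The roots at infinity -/

lemma splits_of_roots {L : Type*} [Field L] {G : L[X]} (hG : G ≠ 0) {R : Finset L}
    (hR : ∀ r ∈ R, G.eval r = 0) (hcard : G.natDegree ≤ R.card) :
    G.Splits ∧ ∀ r, G.eval r = 0 → r ∈ R := by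
  classical
  have hsub : R ⊆ G.roots.toFinset := fun r hr => by
    rw [Multiset.mem_toFinset, mem_roots hG]
    exact hR r hr
  have h1 : R.card ≤ G.roots.toFinset.card := Finset.card_le_card hsub
  have h2 : G.roots.toFinset.card ≤ G.roots.card := Multiset.toFinset_card_le _
  have h3 : G.roots.card ≤ G.natDegree := card_roots' G
  refine ⟨splits_iff_card_roots.2 (by omega), fun r hr => ?_⟩
  have h4 : R = G.roots.toFinset := Finset.eq_of_subset_of_card_le hsub (by omega)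
  rw [h4, Multiset.mem_toFinset, mem_roots hG]
  exact hr

/-- every root of `m (a, ·)` comes from a power series -/
lemma exists_ps {m : ℂ[X][X]} {a : ℂ} (hreg : Reg m a) : ∃ p : ℂ → PowerSeries ℂ,
    ∀ t ∈ rts m a, PowerSeries.constantCoeff (p t) = t ∧
      ((m.map (thetaN a 1)).map psi).eval (p t) = 0 := by
  obtain ⟨B, hB, -⟩ := local_rts hreg
  have h1 : ∀ t ∈ rts m a, ∃ p : PowerSeries ℂ, PowerSeries.constantCoeff p = t ∧
      ((m.map (thetaN a 1)).map psi).eval p = 0 := by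
    intro t ht
    obtain ⟨hBa, hBt, hBm⟩ := hB t ht
    have hadd : Tendsto (fun w : ℂ => a + w) (𝓝 0) (𝓝 a) := by
      have : Continuous fun w : ℂ => a + w := by fun_prop
      exact this.tendsto' 0 a (add_zero a)
    have han : AnalyticAt ℂ (fun w : ℂ => B t (a + w)) 0 := by
      refine AnalyticAt.fun_comp (g := B t) (f := fun w : ℂ => a + w) ?_
        (analyticAt_const.add analyticAt_id)
      show AnalyticAt ℂ (B t) (a + 0)
      rw [add_zero]
      exact hBa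
    obtain ⟨p, hp⟩ := HasPS.exists_of_analyticAt han
    refine ⟨p, ?_, ?_⟩
    · rw [hp.constantCoeff, add_zero, hBt]
    · have h2 := hp.evalEval (m.map (thetaN a 1))
      have h3 : ∀ᶠ w in 𝓝 (0 : ℂ), evalEval w (B t (a + w)) (m.map (thetaN a 1)) = 0 := by
        filter_upwards [hadd.eventually hBm] with w hw
        rw [evalEval_thetaN, pow_one]
        exact hw
      have h4 : HasPS (fun _ => (0 : ℂ)) 0 := by
        simpa using HasPS.polynomial 0
      exact (h2.congr h3).unique h4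
  choose! p hp using h1
  exact ⟨p, hp⟩

/-- the coordinate `y` as a Laurent series in `1 / y` -/
abbrev psiInf : ℂ[X] →+* LaurentSeries ℂ :=
  ((aeval (HahnSeries.single (-1 : ℤ) (1:ℂ)) : ℂ[X] →ₐ[ℂ] LaurentSeries ℂ) :
    ℂ[X] →+* LaurentSeries ℂ)

/-- `a + 1 / y` as a Laurent series in `1 / y` -/
def chiInf (a : ℂ) : ℂ[X] →+* LaurentSeries ℂ := iotaL.comp (thetaN a 1)

lemma psiInf_X : psiInf X = HahnSeries.single (-1 : ℤ) (1:ℂ) := by
  show aeval (HahnSeries.single (-1 : ℤ) (1:ℂ)) (X : ℂ[X]) = _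
  rw [aeval_X]

lemma psiInf_C (c : ℂ) : psiInf (C c) = HahnSeries.C c := by
  show aeval (HahnSeries.single (-1 : ℤ) (1:ℂ)) (C c : ℂ[X]) = _
  rw [aeval_C]
  exact HahnSeries.ofPowerSeries_C c

lemma chiInf_C (a c : ℂ) : chiInf a (C c) = psiInf (C c) := by
  rw [psiInf_C, chiInf, RingHom.comp_apply]
  show iotaL ((C c).comp (C a + X ^ 1)) = _
  rw [C_comp, iotaL_C]

lemma single_ne : (HahnSeries.single (-1 : ℤ) (1:ℂ) : LaurentSeries ℂ) ≠ 0 :=
  HahnSeries.single_ne_zero one_ne_zero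

lemma single_inv : (HahnSeries.single (-1 : ℤ) (1:ℂ) : LaurentSeries ℂ)⁻¹ =
    HahnSeries.single (1 : ℤ) (1:ℂ) := by
  rw [inv_eq_iff_eq_inv, eq_comm, inv_eq_of_mul_eq_one_right]
  rw [HahnSeries.single_mul_single]
  simp

lemma chiInf_X (a : ℂ) : chiInf a X = psiInf (C a) + (psiInf X)⁻¹ := by
  rw [psiInf_C, psiInf_X, single_inv, chiInf, RingHom.comp_apply]
  show iotaL (X.comp (C a + X ^ 1)) = _
  rw [X_comp, map_add, iotaL_C, pow_one, iotaL_X]

/-- the root of `mt` which belongs to the power series `p` -/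
def rInf (p : PowerSeries ℂ) : LaurentSeries ℂ :=
  -(HahnSeries.single (2 : ℤ) (1:ℂ) * HahnSeries.ofPowerSeries ℤ ℂ p) -
    HahnSeries.single (1 : ℤ) (2:ℂ)

lemma rInf_eq (p : PowerSeries ℂ) :
    -((HahnSeries.single (-1 : ℤ) (1:ℂ) : LaurentSeries ℂ) ^ 2 * rInf p) -
      2 * HahnSeries.single (-1 : ℤ) (1:ℂ) = HahnSeries.ofPowerSeries ℤ ℂ p := by
  have e1 : (HahnSeries.single (-1 : ℤ) (1:ℂ) : LaurentSeries ℂ) ^ 2 *
      HahnSeries.single (2 : ℤ) (1:ℂ) = 1 := by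
    rw [pow_two, HahnSeries.single_mul_single, HahnSeries.single_mul_single]
    norm_num
  have e2 : (HahnSeries.single (-1 : ℤ) (1:ℂ) : LaurentSeries ℂ) ^ 2 *
      HahnSeries.single (1 : ℤ) (2:ℂ) = 2 * HahnSeries.single (-1 : ℤ) (1:ℂ) := by
    have e3 : (2 : LaurentSeries ℂ) = HahnSeries.single (0 : ℤ) (2:ℂ) := rfl
    rw [e3, pow_two, HahnSeries.single_mul_single, HahnSeries.single_mul_single,
      HahnSeries.single_mul_single]
    norm_num
  rw [rInf]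
  linear_combination (HahnSeries.ofPowerSeries ℤ ℂ p) * e1 + e2

lemma coe_neg_coeff (p : PowerSeries ℂ) {k : ℤ} (hk : k < 0) :
    (HahnSeries.ofPowerSeries ℤ ℂ p).coeff k = 0 := by
  rw [PowerSeries.coeff_coe, if_pos hk]

lemma rInf_coeff_gen (p : PowerSeries ℂ) (k : ℤ) : (rInf p).coeff k =
    -(HahnSeries.ofPowerSeries ℤ ℂ p).coeff (k - 2) - if k = 1 then 2 else 0 := by
  rw [rInf, HahnSeries.coeff_sub, HahnSeries.coeff_neg, HahnSeries.coeff_single_mul, one_mul,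
    HahnSeries.coeff_single]
  congr

lemma rInf_coeff (p : PowerSeries ℂ) (k : ℤ) (hk : k ≤ 0) : (rInf p).coeff k = 0 := by
  rw [rInf_coeff_gen, coe_neg_coeff p (by omega), if_neg (by omega)]
  simp

lemma rInf_coeff_one (p : PowerSeries ℂ) : (rInf p).coeff 1 = -2 := by
  rw [rInf_coeff_gen, coe_neg_coeff p (by omega), if_pos rfl]
  simp

lemma rInf_coeff_two (p : PowerSeries ℂ) :
    (rInf p).coeff 2 = -PowerSeries.constantCoeff p := by
  rw [rInf_coeff_gen, if_neg (by norm_num), sub_self, sub_zero]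
  have h := LaurentSeries.coeff_coe_powerSeries p 0
  rw [Nat.cast_zero] at h
  rw [h, PowerSeries.coeff_zero_eq_constantCoeff_apply]

theorem inf_roots {m : ℂ[X][X]} (hirr : Irreducible (m.map (algebraMap ℂ[X] (RatFunc ℂ))))
    {a : ℂ} (hreg : Reg m a) : ((mt a m).map psiInf).Splits ∧
      ∀ r : LaurentSeries ℂ, ((mt a m).map psiInf).eval r = 0 →
        (∀ k ≤ 0, r.coeff k = 0) ∧ r.coeff 1 = -2 := by
  classical
  obtain ⟨p, hp⟩ := exists_ps hreg
  have h0 : psiInf X ≠ 0 := by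
    rw [psiInf_X]
    exact single_ne
  have hinj : Set.InjOn (fun t => rInf (p t)) (rts m a) := by
    intro t ht s hs hts
    have h1 := congrArg (fun r : LaurentSeries ℂ => r.coeff 2) hts
    simp only [rInf_coeff_two, neg_inj] at h1
    rwa [(hp t ht).1, (hp s hs).1] at h1
  have hm0 : m ≠ 0 := by
    rintro rfl
    rw [Polynomial.map_zero] at hirr
    exact hirr.ne_zero rfl
  have hχinj : Function.Injective (chiInf a) :=
    iotaL_injective.comp (thetaN_injective a one_pos)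
  have hG : (mt a m).map psiInf ≠ 0 := by
    rw [map_mt' psiInf (chiInf a) (chiInf_C a) h0 (chiInf_X a) m, map_ne_zero_iff _
      (linEquiv _ _).injective]
    refine mul_ne_zero (C_ne_zero.2 (pow_ne_zero _ h0)) ?_
    rwa [Polynomial.map_ne_zero_iff hχinj]
  have hroot : ∀ r ∈ (rts m a).image (fun t => rInf (p t)), ((mt a m).map psiInf).eval r = 0 := by
    intro r hr
    obtain ⟨t, ht, rfl⟩ := Finset.mem_image.1 hr
    rw [eval_map_mt psiInf (chiInf a) (chiInf_C a) h0 (chiInf_X a) m, psiInf_X, rInf_eq]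
    have h2 : (m.map (chiInf a)).eval (HahnSeries.ofPowerSeries ℤ ℂ (p t)) =
        HahnSeries.ofPowerSeries ℤ ℂ (((m.map (thetaN a 1)).map psi).eval (p t)) := by
      rw [← eval_map_apply, Polynomial.map_map, Polynomial.map_map]
      rfl
    rw [h2, (hp t ht).2, map_zero, mul_zero]
  have hcard : ((mt a m).map psiInf).natDegree ≤
      ((rts m a).image (fun t => rInf (p t))).card := by
    rw [Finset.card_image_of_injOn hinj, card_rts hreg]
    exact natDegree_map_le.trans (irreducible_mt hirr a).2.le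
  obtain ⟨h1, h2⟩ := splits_of_roots hG hroot hcard
  refine ⟨h1, fun r hr => ?_⟩
  obtain ⟨t, -, rfl⟩ := Finset.mem_image.1 (h2 r hr)
  exact ⟨fun k hk => rInf_coeff _ k hk, rInf_coeff_one _⟩

end Mob

/-- the hypothesis `hmp` of `nd_main_of` -/
theorem exists_mobpoly_inf (m : ℂ[X][X]) (hirr : Irreducible (m.map (algebraMap ℂ[X] (RatFunc ℂ))))
    (a : ℂ) (hreg : Reg m a) :
    ∃ mt : ℂ[X][X], Irreducible (mt.map (algebraMap ℂ[X] (RatFunc ℂ))) ∧
      mt.natDegree = m.natDegree ∧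
      (∃ M : ℕ, ∀ y t : ℂ, y ≠ 0 →
        evalEval y t mt = y ^ M * evalEval (a + 1 / y) (-(y ^ 2 * t) - 2 * y) m) ∧
      (mt.map ((aeval (HahnSeries.single (-1 : ℤ) (1:ℂ)) :
        ℂ[X] →ₐ[ℂ] LaurentSeries ℂ) : ℂ[X] →+* LaurentSeries ℂ)).Splits ∧
      ∀ r : LaurentSeries ℂ, (mt.map ((aeval (HahnSeries.single (-1 : ℤ) (1:ℂ)) :
        ℂ[X] →ₐ[ℂ] LaurentSeries ℂ) : ℂ[X] →+* LaurentSeries ℂ)).eval r = 0 →
        (∀ k ≤ 0, r.coeff k = 0) ∧ r.coeff 1 = -2 :=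
  ⟨Mob.mt a m, (Mob.irreducible_mt hirr a).1, (Mob.irreducible_mt hirr a).2,
    ⟨Mob.bd m, fun _ t hy => Mob.evalEval_mt a m hy t⟩, (Mob.inf_roots hirr hreg).1,
    (Mob.inf_roots hirr hreg).2⟩

end Pool.Agent.MP_ae5b4e_an_ND
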