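import Pool.Agent.Lib.MP_ae5b4e_an_LAT.NDDefs

/-!
# MP_ae5b4e_an: Moebius invariance of goodness

The coordinate `1 / (x - a)` on the conic: first integrals near the diagonal are carried over.
-/

noncomputable section

open Filter Topology

namespace Pool.Agent.MP_ae5b4e_an_ND

/-- `κ` in the coordinate `1 / (x - a)`. -/
def mobk (a : ℂ) (κ : ℂ → ℂ) (y : ℂ) : ℂ := -(κ (a + 1 / y)) / y ^ 2 - 2 / y

/-- The change of coordinates on pairs `(x, x⁻ - x)`. -/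
def mobPhi (a : ℂ) (p : ℂ × ℂ) : ℂ × ℂ := (a + 1 / p.1, 1 / (p.1 + p.2) - 1 / p.1)

/-- The change of coordinates conjugates the two maps (an identity of rational functions). -/
lemma mobPhi_TT {κ : ℂ → ℂ} {a X Y : ℂ} (hX : X ≠ 0) (hXY : X + Y ≠ 0)
    (h1 : X ^ 2 + κ (a + 1 / X) * Y + 2 * X * Y ≠ 0)
    (h2 : X ^ 2 + X * Y + κ (a + 1 / X) * Y ≠ 0) :
    mobPhi a (TT (mobk a κ) (X, Y)) = TT κ (mobPhi a (X, Y)) := by
  obtain ⟨k, hk⟩ : ∃ k : ℂ, k = κ (a + 1 / X) := ⟨_, rfl⟩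
  rw [← hk] at h1 h2
  obtain ⟨D1, hD1⟩ : ∃ D : ℂ, D = X ^ 2 + k * Y + 2 * X * Y := ⟨_, rfl⟩
  obtain ⟨D2, hD2⟩ : ∃ D : ℂ, D = X ^ 2 + X * Y + k * Y := ⟨_, rfl⟩
  rw [← hD1] at h1
  rw [← hD2] at h2
  have h12 : D1 = D2 + X * Y := by
    rw [hD1, hD2]
    ring
  have e1 : 1 - mobk a κ X * Y = D1 / X ^ 2 := by
    rw [mobk, ← hk, hD1]
    field_simp
    ring
  have e2 : TT (mobk a κ) (X, Y) = (X * D2 / D1, X ^ 2 * Y / D1) := by
    rw [TT_apply, e1]
    refine Prod.ext ?_ ?_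
    · show X - Y / (D1 / X ^ 2) = X * D2 / D1
      rw [div_div_eq_mul_div, eq_div_iff h1, sub_mul, div_mul_cancel₀ _ h1, h12]
      ring
    · show Y / (D1 / X ^ 2) = X ^ 2 * Y / D1
      rw [div_div_eq_mul_div, mul_comm]
  have e3 : mobPhi a (X, Y) = (a + 1 / X, -Y / (X * (X + Y))) := by
    refine Prod.ext rfl ?_
    show 1 / (X + Y) - 1 / X = _
    field_simp
    ring
  have e4 : 1 - k * (-Y / (X * (X + Y))) = D2 / (X * (X + Y)) := by
    rw [hD2]
    field_simp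
    ring
  have e5 : TT κ (mobPhi a (X, Y)) = (a + 1 / X + Y / D2, -Y / D2) := by
    rw [e3, TT_apply, ← hk, e4]
    have e6 : (-Y / (X * (X + Y))) / (D2 / (X * (X + Y))) = -Y / D2 := by
      rw [div_div_div_cancel_right₀ (mul_ne_zero hX hXY)]
    rw [e6]
    refine Prod.ext ?_ rfl
    show a + 1 / X - -Y / D2 = a + 1 / X + Y / D2
    rw [neg_div, sub_neg_eq_add]
  have e7 : 1 / (X * D2 / D1) = 1 / X + Y / D2 := by
    rw [h12]
    have h1' : D2 + X * Y ≠ 0 := by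
      rw [← h12]
      exact h1
    field_simp
  have e8 : X * D2 / D1 + X ^ 2 * Y / D1 = X := by
    rw [← add_div, div_eq_iff h1, h12]
    ring
  rw [e5, e2]
  refine Prod.ext ?_ ?_
  · show a + 1 / (X * D2 / D1) = a + 1 / X + Y / D2
    rw [e7, add_assoc]
  · show 1 / (X * D2 / D1 + X ^ 2 * Y / D1) - 1 / (X * D2 / D1) = -Y / D2
    rw [e8, e7, neg_div]
    ring

/-- Goodness does not depend on the affine coordinate. -/
theorem good_mob {κ : ℂ → ℂ} {x₀ a : ℂ} (h : Good κ x₀) (ha : x₀ ≠ a) :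
    Good (mobk a κ) (1 / (x₀ - a)) := by
  obtain ⟨hk, S, hS, h0, hd, hT⟩ := h
  have hsub : x₀ - a ≠ 0 := sub_ne_zero.2 ha
  obtain ⟨X₀, hX₀⟩ : ∃ X₀ : ℂ, X₀ = 1 / (x₀ - a) := ⟨_, rfl⟩
  rw [← hX₀]
  have hX0 : X₀ ≠ 0 := by
    rw [hX₀]
    exact one_div_ne_zero hsub
  have hx : a + 1 / X₀ = x₀ := by
    rw [hX₀, one_div_one_div]
    ring
  have hc1 : AnalyticAt ℂ (fun y : ℂ => a + 1 / y) X₀ :=
    analyticAt_const.add (analyticAt_const.div analyticAt_id hX0)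
  have hc2 : AnalyticAt ℂ (fun y : ℂ => κ (a + 1 / y)) X₀ :=
    AnalyticAt.fun_comp (by rw [hx]; exact hk) hc1
  have hΦ : AnalyticAt ℂ (mobPhi a) (X₀, 0) := by
    have h1 : AnalyticAt ℂ (fun p : ℂ × ℂ => a + 1 / p.1) (X₀, 0) :=
      analyticAt_const.add (analyticAt_const.div analyticAt_fst hX0)
    have h2 : AnalyticAt ℂ (fun p : ℂ × ℂ => 1 / (p.1 + p.2) - 1 / p.1) (X₀, 0) := by
      refine (analyticAt_const.div (analyticAt_fst.add analyticAt_snd) ?_).sub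
        (analyticAt_const.div analyticAt_fst hX0)
      simpa using hX0
    exact h1.prod h2
  have hΦ0 : mobPhi a (X₀, 0) = (x₀, 0) := by
    refine Prod.ext hx ?_
    show 1 / (X₀ + 0) - 1 / X₀ = 0
    rw [add_zero, sub_self]
  have hΦt : Tendsto (mobPhi a) (𝓝 (X₀, 0)) (𝓝 (x₀, 0)) := by
    have := hΦ.continuousAt
    rw [ContinuousAt, hΦ0] at this
    exact this
  have hκ : AnalyticAt ℂ (mobk a κ) X₀ :=
    (hc2.neg.div (analyticAt_id.pow 2) (pow_ne_zero 2 hX0)).sub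
      (analyticAt_const.div analyticAt_id hX0)
  refine ⟨hκ, fun p => S (mobPhi a p), ?_, ?_, ?_, ?_⟩
  · exact AnalyticAt.fun_comp (by rw [hΦ0]; exact hS) hΦ
  · have h1 : Tendsto (fun y : ℂ => a + 1 / y) (𝓝 X₀) (𝓝 x₀) := by
      have := hc1.continuousAt
      rw [ContinuousAt, hx] at this
      exact this
    filter_upwards [h1.eventually h0] with y hy
    have e : mobPhi a (y, 0) = (a + 1 / y, 0) := by
      refine Prod.ext rfl ?_
      show 1 / (y + 0) - 1 / y = 0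
      rw [add_zero, sub_self]
    rw [e]
    exact hy
  · have e : (fun y : ℂ => S (mobPhi a (X₀, y))) =
        (fun y => S (x₀, y)) ∘ fun y => 1 / (X₀ + y) - 1 / X₀ := by
      funext y
      show S (a + 1 / X₀, 1 / (X₀ + y) - 1 / X₀) = _
      rw [hx]
      rfl
    have h2 : HasDerivAt (fun y : ℂ => 1 / (X₀ + y) - 1 / X₀) (-1 / X₀ ^ 2) 0 := by
      have h3 : HasDerivAt (fun y : ℂ => X₀ + y) 1 0 := (hasDerivAt_id (0:ℂ)).const_add X₀
      have h4 := h3.inv (by simpa using hX0)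
      have h5 := h4.sub_const (1 / X₀)
      rw [add_zero] at h5
      refine h5.congr_of_eventuallyEq (Filter.Eventually.of_forall fun y => ?_)
      show 1 / (X₀ + y) - 1 / X₀ = (X₀ + y)⁻¹ - 1 / X₀
      rw [one_div (X₀ + y)]
    have h6 : DifferentiableAt ℂ (fun y => S (x₀, y)) 0 := by
      have h7 : DifferentiableAt ℂ (fun y : ℂ => ((x₀, y) : ℂ × ℂ)) 0 := by fun_prop
      exact DifferentiableAt.comp (0:ℂ) (g := S) hS.differentiableAt h7
    have h8 : 1 / (X₀ + 0) - 1 / X₀ = 0 := by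
      rw [add_zero, sub_self]
    have h9 := HasDerivAt.comp (0:ℂ) (h₂ := fun y => S (x₀, y)) (by
      rw [h8]
      exact h6.hasDerivAt) h2
    show deriv (fun y : ℂ => S (mobPhi a (X₀, y))) 0 ≠ 0
    rw [e, h9.deriv]
    exact mul_ne_zero hd (div_ne_zero (neg_ne_zero.2 one_ne_zero) (pow_ne_zero 2 hX0))
  · have c1 : ContinuousAt (fun p : ℂ × ℂ => κ (a + 1 / p.1)) (X₀, 0) :=
      ContinuousAt.comp (f := Prod.fst) (g := fun y : ℂ => κ (a + 1 / y)) hc2.continuousAt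
        continuousAt_fst
    have n1 : ∀ᶠ p : ℂ × ℂ in 𝓝 (X₀, 0), p.1 ≠ 0 :=
      continuousAt_fst.eventually_ne hX0
    have n2 : ∀ᶠ p : ℂ × ℂ in 𝓝 (X₀, 0), p.1 + p.2 ≠ 0 :=
      (continuousAt_fst.add continuousAt_snd).eventually_ne (by simpa using hX0)
    have n3 : ∀ᶠ p : ℂ × ℂ in 𝓝 (X₀, 0),
        p.1 ^ 2 + κ (a + 1 / p.1) * p.2 + 2 * p.1 * p.2 ≠ 0 := by
      refine ContinuousAt.eventually_ne (((continuousAt_fst.pow 2).add
        (c1.mul continuousAt_snd)).add ((continuousAt_const.mul continuousAt_fst).mul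
        continuousAt_snd)) ?_
      simpa using hX0
    have n4 : ∀ᶠ p : ℂ × ℂ in 𝓝 (X₀, 0),
        p.1 ^ 2 + p.1 * p.2 + κ (a + 1 / p.1) * p.2 ≠ 0 := by
      refine ContinuousAt.eventually_ne (((continuousAt_fst.pow 2).add
        (continuousAt_fst.mul continuousAt_snd)).add (c1.mul continuousAt_snd)) ?_
      simpa using hX0
    filter_upwards [n1, n2, n3, n4, hΦt.eventually hT] with p h1 h2 h3 h4 h5
    rw [← h5]
    congr 1
    exact mobPhi_TT h1 h2 h3 h4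

end Pool.Agent.MP_ae5b4e_an_ND
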