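import Mathlib

/-!
# Analytic branches of algebraic functions

The implicit function theorem for analytic functions of two variables and regular labels of a
polynomial `m ∈ ℂ[x][t]`.
-/

open Polynomial Filter Topology

namespace Pool.Agent.MP_ae5b4e_an_ND

/-- the analytic implicit function theorem in two variables -/
theorem implicit_analytic {F : ℂ × ℂ → ℂ} {x₀ t₀ c : ℂ} (hF : AnalyticAt ℂ F (x₀, t₀))
    (h0 : F (x₀, t₀) = 0) (hc : c ≠ 0) (ht : HasDerivAt (fun t => F (x₀, t)) c t₀) :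
    ∃ b : ℂ → ℂ, AnalyticAt ℂ b x₀ ∧ b x₀ = t₀ ∧
      ∀ᶠ p in 𝓝 (x₀, t₀), F p = 0 ↔ b p.1 = p.2 := by
  have hcd : ContDiffAt ℂ ⊤ F (x₀, t₀) := hF.contDiffAt
  have hinr : (fderiv ℂ F (x₀, t₀)) ∘L .inr ℂ ℂ ℂ = ContinuousLinearMap.toSpanSingleton ℂ c := by
    have h1 : HasFDerivAt F (fderiv ℂ F (x₀, t₀)) (x₀, t₀) := hF.differentiableAt.hasFDerivAt
    have h2 : HasFDerivAt (fun t : ℂ => ((x₀, t) : ℂ × ℂ)) (.inr ℂ ℂ ℂ) t₀ :=
      hasFDerivAt_prodMk_right x₀ t₀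
    have h3 := h1.comp t₀ h2
    exact h3.unique ht.hasFDerivAt
  have hinv : ((fderiv ℂ F (x₀, t₀)) ∘L .inr ℂ ℂ ℂ).IsInvertible := by
    rw [hinr]
    refine ⟨ContinuousLinearEquiv.unitsEquivAut ℂ (Units.mk0 c hc), ?_⟩
    ext
    simp
  refine ⟨hcd.implicitFunction (by simp) hinv, ?_, ?_, ?_⟩
  · have := hcd.contDiffAt_implicitFunction (by simp) hinv
    exact this.analyticAt
  · exact hcd.implicitFunction_apply_self (by simp) hinv
  · have := hcd.eventually_apply_eq_iff_implicitFunction (by simp) hinv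
    rw [h0] at this
    exact this

theorem evalEval_eq_eval_map (m : ℂ[X][X]) (x t : ℂ) :
    evalEval x t m = (m.map (evalRingHom x)).eval t := by
  rw [← eval₂_evalRingHom, eval_map]

theorem evalEval_eq_sum (m : ℂ[X][X]) (x t : ℂ) :
    evalEval x t m = ∑ i ∈ Finset.range (m.natDegree + 1), (m.coeff i).eval x * t ^ i := by
  rw [evalEval_eq_eval_map, eval_map, eval₂_eq_sum_range]
  rfl

/-- a polynomial function of two variables is analytic -/
theorem analyticAt_evalEval (m : ℂ[X][X]) (p : ℂ × ℂ) :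
    AnalyticAt ℂ (fun q : ℂ × ℂ => evalEval q.1 q.2 m) p := by
  have h : (fun q : ℂ × ℂ => evalEval q.1 q.2 m) = fun q =>
      ∑ i ∈ Finset.range (m.natDegree + 1), (m.coeff i).eval q.1 * q.2 ^ i := by
    funext q
    exact evalEval_eq_sum m q.1 q.2
  rw [h]
  refine Finset.analyticAt_fun_sum _ fun i _ => ?_
  refine AnalyticAt.mul ?_ (analyticAt_snd.pow i)
  have := (analyticAt_fst (𝕜 := ℂ) (p := p)).aeval_polynomial (m.coeff i)
  simpa using this

theorem hasDerivAt_evalEval (m : ℂ[X][X]) (x t : ℂ) :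
    HasDerivAt (fun t => evalEval x t m) (evalEval x t (derivative m)) t := by
  have h := (m.map (evalRingHom x)).hasDerivAt t
  rw [derivative_map, ← evalEval_eq_eval_map] at h
  refine h.congr_of_eventuallyEq ?_
  exact Filter.Eventually.of_forall fun t => evalEval_eq_eval_map m x t

/-- regular labels -/
def Reg (m : ℂ[X][X]) (x : ℂ) : Prop :=
  m.leadingCoeff.eval x ≠ 0 ∧ ∀ t, evalEval x t m = 0 → evalEval x t (derivative m) ≠ 0

/-- the analytic branch through a simple root -/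
theorem branch {m : ℂ[X][X]} {x₀ t₀ : ℂ} (h0 : evalEval x₀ t₀ m = 0)
    (h1 : evalEval x₀ t₀ (derivative m) ≠ 0) :
    ∃ b : ℂ → ℂ, AnalyticAt ℂ b x₀ ∧ b x₀ = t₀ ∧
      ∀ᶠ p : ℂ × ℂ in 𝓝 (x₀, t₀), evalEval p.1 p.2 m = 0 ↔ b p.1 = p.2 :=
  implicit_analytic (F := fun q => evalEval q.1 q.2 m) (analyticAt_evalEval m _) h0 h1
    (hasDerivAt_evalEval m x₀ t₀)

/-- the branch satisfies the equation -/
theorem branch_eq {m : ℂ[X][X]} {x₀ t₀ : ℂ} {b : ℂ → ℂ} (hb : ContinuousAt b x₀) (hb0 : b x₀ = t₀)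
    (h : ∀ᶠ p : ℂ × ℂ in 𝓝 (x₀, t₀), evalEval p.1 p.2 m = 0 ↔ b p.1 = p.2) :
    ∀ᶠ x in 𝓝 x₀, evalEval x (b x) m = 0 := by
  have h1 : Tendsto (fun x => (x, b x)) (𝓝 x₀) (𝓝 (x₀, t₀)) := by
    rw [nhds_prod_eq]
    have : Tendsto b (𝓝 x₀) (𝓝 t₀) := by rw [← hb0]; exact hb
    exact tendsto_id.prodMk this
  filter_upwards [h1.eventually h] with x hx
  exact hx.2 rfl

/-- two continuous branches through the same simple root coincide -/
theorem branch_unique {m : ℂ[X][X]} {x₀ : ℂ} {b b' : ℂ → ℂ} (hb : ContinuousAt b x₀)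
    (hb' : ContinuousAt b' x₀) (h0 : b x₀ = b' x₀)
    (h1 : evalEval x₀ (b x₀) (derivative m) ≠ 0)
    (h : ∀ᶠ x in 𝓝 x₀, evalEval x (b x) m = 0) (h' : ∀ᶠ x in 𝓝 x₀, evalEval x (b' x) m = 0) :
    ∀ᶠ x in 𝓝 x₀, b x = b' x := by
  obtain ⟨c, -, hc0, hc1⟩ := branch (h.self_of_nhds) h1
  have h2 : Tendsto (fun x => (x, b x)) (𝓝 x₀) (𝓝 (x₀, b x₀)) := by
    rw [nhds_prod_eq]; exact tendsto_id.prodMk hb
  have h3 : Tendsto (fun x => (x, b' x)) (𝓝 x₀) (𝓝 (x₀, b x₀)) := by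
    rw [nhds_prod_eq, h0]; exact tendsto_id.prodMk hb'
  filter_upwards [h2.eventually hc1, h3.eventually hc1, h, h'] with x e1 e2 e3 e4
  rw [← e1.1 e3, ← e2.1 e4]

end Pool.Agent.MP_ae5b4e_an_ND
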