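import Mathlib

/-!
# Holomorphic functions of polynomial growth are rational
-/

open Polynomial Filter Topology

namespace Pool.Agent.MP_ae5b4e_an_ND

/-- an entire function of polynomial growth is a polynomial -/
theorem entire_poly {f : ℂ → ℂ} (hf : Differentiable ℂ f) {C : ℝ} {L : ℕ}
    (hC : ∀ z, ‖f z‖ ≤ C * (1 + ‖z‖) ^ L) : ∃ P : ℂ[X], ∀ z, f z = P.eval z := by
  have hC0 : 0 ≤ C := by
    have h := (norm_nonneg _).trans (hC 0)
    simpa using h
  have hder : ∀ n, L < n → iteratedDeriv n f 0 = 0 := by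
    intro n hn
    have hb : ∀ R : ℝ, 1 ≤ R → ‖iteratedDeriv n f 0‖ ≤ n.factorial * C * 2 ^ L / R := by
      intro R hR
      have hR0 : 0 < R := by linarith
      have h1 := Complex.norm_iteratedDeriv_le_of_forall_mem_sphere_norm_le n (c := 0) (R := R)
        (C := C * (2 * R) ^ L) (f := f) hR0 hf.diffContOnCl (fun z hz => by
          have hz' : ‖z‖ = R := by simpa using hz
          refine (hC z).trans ?_
          rw [hz']
          gcongr
          linarith)
      refine h1.trans ?_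
      rw [mul_pow, div_le_div_iff₀ (by positivity) hR0]
      have h2 : R ^ L * R ≤ R ^ n := by
        rw [← pow_succ]
        exact pow_le_pow_right₀ hR hn
      have h3 : (n.factorial : ℝ) * (C * (2 ^ L * R ^ L)) * R =
          (n.factorial * C * 2 ^ L) * (R ^ L * R) := by ring
      rw [h3]
      exact mul_le_mul_of_nonneg_left h2 (by positivity)
    have h4 : Tendsto (fun R : ℝ => n.factorial * C * 2 ^ L / R) atTop (𝓝 0) :=
      tendsto_const_nhds.div_atTop tendsto_id
    have h5 : ‖iteratedDeriv n f 0‖ ≤ 0 := by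
      refine ge_of_tendsto h4 ?_
      filter_upwards [eventually_ge_atTop (1 : ℝ)] with R hR using hb R hR
    exact norm_le_zero_iff.1 h5
  refine ⟨∑ n ∈ Finset.range (L + 1), Polynomial.C ((n.factorial : ℂ)⁻¹ * iteratedDeriv n f 0) * X ^ n,
    fun z => ?_⟩
  have h1 := Complex.taylorSeries_eq_of_entire' (f := f) 0 z hf
  rw [← h1, tsum_eq_sum (s := Finset.range (L + 1))]
  · rw [eval_finsetSum]
    refine Finset.sum_congr rfl fun n _ => ?_
    simp
  · intro n hn
    rw [Finset.mem_range, not_lt] at hn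
    rw [hder n (by omega)]
    simp

/-- a holomorphic function on the complement of a finite set with a polynomial bound becomes a
polynomial after multiplication with a fixed polynomial -/
theorem rational_of_bound {f : ℂ → ℂ} (E : Finset ℂ) (hf : ∀ z ∉ E, DifferentiableAt ℂ f z)
    {C : ℝ} {L : ℕ} (hC : ∀ z ∉ E, ‖f z‖ ≤ C * (1 + ‖z‖) ^ L) :
    ∃ P : ℂ[X], ∀ z, (∏ e ∈ E, (z - e) ^ 2) * f z = P.eval z := by
  set g : ℂ → ℂ := fun z => (∏ e ∈ E, (z - e) ^ 2) * f z with hg
  have hC0 : 0 ≤ |C| := abs_nonneg C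
  have hC' : ∀ z ∉ E, ‖f z‖ ≤ |C| * (1 + ‖z‖) ^ L := fun z hz =>
    (hC z hz).trans (by gcongr; exact le_abs_self C)
  have hz : ∀ e ∈ E, g e = 0 := by
    intro e he
    simp only [hg]
    rw [Finset.prod_eq_zero he (by simp), zero_mul]
  have hgd : Differentiable ℂ g := by
    intro z
    by_cases hzE : z ∈ E
    · -- near `z` the function is `O (w - z) ^ 2`
      have hb : ∃ M : ℝ, ∀ᶠ w in 𝓝 z, ‖g w‖ ≤ M * ‖w - z‖ ^ 2 := by
        have hcont : ContinuousAt (fun w : ℂ =>
            ‖∏ e ∈ E.erase z, (w - e) ^ 2‖ * (|C| * (1 + ‖w‖) ^ L)) z := by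
          fun_prop
        obtain ⟨M, hM⟩ : ∃ M : ℝ, ∀ᶠ w in 𝓝 z,
            ‖∏ e ∈ E.erase z, (w - e) ^ 2‖ * (|C| * (1 + ‖w‖) ^ L) ≤ M := by
          refine ⟨‖∏ e ∈ E.erase z, (z - e) ^ 2‖ * (|C| * (1 + ‖z‖) ^ L) + 1, ?_⟩
          have := hcont.tendsto.eventually (eventually_le_nhds
            (show _ < ‖∏ e ∈ E.erase z, (z - e) ^ 2‖ * (|C| * (1 + ‖z‖) ^ L) + 1 by linarith))
          exact this
        refine ⟨M, ?_⟩
        filter_upwards [hM] with w hw
        by_cases hwE : w ∈ E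
        · rw [hz w hwE, norm_zero]
          have : 0 ≤ M := le_trans (by positivity) hw
          positivity
        · simp only [hg]
          rw [← Finset.mul_prod_erase E _ hzE, norm_mul, norm_mul, norm_pow]
          have h1 := hC' w hwE
          calc ‖w - z‖ ^ 2 * ‖∏ e ∈ E.erase z, (w - e) ^ 2‖ * ‖f w‖
              ≤ ‖w - z‖ ^ 2 * ‖∏ e ∈ E.erase z, (w - e) ^ 2‖ * (|C| * (1 + ‖w‖) ^ L) := by
                gcongr
            _ = (‖∏ e ∈ E.erase z, (w - e) ^ 2‖ * (|C| * (1 + ‖w‖) ^ L)) * ‖w - z‖ ^ 2 := by ring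
            _ ≤ M * ‖w - z‖ ^ 2 := by gcongr
      obtain ⟨M, hM⟩ := hb
      have hd : HasDerivAt g 0 z := by
        rw [hasDerivAt_iff_isLittleO, hz z hzE]
        simp only [sub_zero, smul_zero]
        have h2 : (fun w => g w) =O[𝓝 z] fun w => (w - z) ^ 2 := by
          refine Asymptotics.IsBigO.of_bound M ?_
          filter_upwards [hM] with w hw
          simpa using hw
        refine h2.trans_isLittleO ?_
        have h3 : Tendsto (fun w : ℂ => w - z) (𝓝 z) (𝓝 0) := by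
          have : Tendsto (fun w : ℂ => w - z) (𝓝 z) (𝓝 (z - z)) :=
            (continuous_id.sub continuous_const).tendsto z
          simpa using this
        have h4 : (fun x : ℂ => x ^ 2) =o[𝓝 0] fun x => x := by
          simpa using Asymptotics.isLittleO_pow_id (𝕜 := ℂ) one_lt_two
        exact h4.comp_tendsto h3
      exact hd.differentiableAt
    · exact DifferentiableAt.mul (by fun_prop) (hf z hzE)
  refine entire_poly (C := (∏ e ∈ E, (1 + ‖e‖) ^ 2) * |C|) (L := 2 * E.card + L) hgd fun z => ?_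
  by_cases hzE : z ∈ E
  · have h0 : (∏ e ∈ E, (z - e) ^ 2) * f z = 0 := hz z hzE
    rw [h0, norm_zero]
    positivity
  rw [norm_mul, norm_prod]
  have h1 : ∏ e ∈ E, ‖(z - e) ^ 2‖ ≤ ∏ e ∈ E, ((1 + ‖e‖) ^ 2 * (1 + ‖z‖) ^ 2) := by
    refine Finset.prod_le_prod (fun _ _ => norm_nonneg _) fun e _ => ?_
    rw [norm_pow, ← mul_pow]
    gcongr
    have := norm_sub_le z e
    nlinarith [norm_nonneg z, norm_nonneg e, mul_nonneg (norm_nonneg z) (norm_nonneg e)]
  rw [Finset.prod_mul_distrib, Finset.prod_const, ← pow_mul] at h1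
  calc (∏ e ∈ E, ‖(z - e) ^ 2‖) * ‖f z‖
      ≤ ((∏ e ∈ E, (1 + ‖e‖) ^ 2) * (1 + ‖z‖) ^ (2 * E.card)) * (|C| * (1 + ‖z‖) ^ L) := by
        gcongr
        exact hC' z hzE
    _ = (∏ e ∈ E, (1 + ‖e‖) ^ 2) * |C| * (1 + ‖z‖) ^ (2 * E.card + L) := by
        rw [pow_add]; ring

end Pool.Agent.MP_ae5b4e_an_ND
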