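import Mathlib
import Pool.Agent.Lib.MP_ae5b4e_an_LAT.NDImplicit
import Pool.Agent.Lib.MP_ae5b4e_an_LAT.NDRat

/-!
# A locally constant property of the branches of an irreducible algebraic function

If a property of the regular points of an irreducible plane curve `m(x, t) = 0` is locally constant
along the analytic branches and holds at one point, then it holds at all regular points.
-/

open Polynomial Filter Topology

namespace Pool.Agent.MP_ae5b4e_an_ND

/-! ### Clearing denominators -/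

theorem clear_coprime {p q : ℂ[X][X]} (h : IsCoprime (p.map (algebraMap ℂ[X] (RatFunc ℂ)))
    (q.map (algebraMap ℂ[X] (RatFunc ℂ)))) :
    ∃ d : ℂ[X], d ≠ 0 ∧ ∃ A B : ℂ[X][X], A * p + B * q = C d := by
  obtain ⟨a, b, hab⟩ := h
  obtain ⟨da, hdam, hda⟩ := IsLocalization.integerNormalization_spec (nonZeroDivisors ℂ[X]) a
  obtain ⟨db, hdbm, hdb⟩ := IsLocalization.integerNormalization_spec (nonZeroDivisors ℂ[X]) b
  set A0 := IsLocalization.integerNormalization (nonZeroDivisors ℂ[X]) a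
  set B0 := IsLocalization.integerNormalization (nonZeroDivisors ℂ[X]) b
  have hinj : Function.Injective (algebraMap ℂ[X] (RatFunc ℂ)) :=
    IsFractionRing.injective ℂ[X] (RatFunc ℂ)
  refine ⟨da * db, mul_ne_zero (nonZeroDivisors.ne_zero hdam)
    (nonZeroDivisors.ne_zero hdbm), C db * A0, C da * B0, ?_⟩
  apply Polynomial.map_injective _ hinj
  rw [Polynomial.map_add, Polynomial.map_mul, Polynomial.map_mul, Polynomial.map_mul,
    Polynomial.map_mul, hda, hdb, map_C, map_C, map_C, map_mul, C_mul]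
  rw [Algebra.smul_def, Algebra.smul_def]
  have e1 : (algebraMap ℂ[X] (RatFunc ℂ)[X]) da =
      C (algebraMap ℂ[X] (RatFunc ℂ) da) := rfl
  have e2 : (algebraMap ℂ[X] (RatFunc ℂ)[X]) db =
      C (algebraMap ℂ[X] (RatFunc ℂ) db) := rfl
  rw [e1, e2]
  linear_combination (C (algebraMap ℂ[X] (RatFunc ℂ) da) * C (algebraMap ℂ[X] (RatFunc ℂ) db)) * hab

theorem clear_dvd {m g : ℂ[X][X]} (h : m.map (algebraMap ℂ[X] (RatFunc ℂ)) ∣
    g.map (algebraMap ℂ[X] (RatFunc ℂ))) :
    ∃ d : ℂ[X], d ≠ 0 ∧ ∃ H : ℂ[X][X], C d * g = H * m := by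
  obtain ⟨b, hb⟩ := h
  obtain ⟨db, hdbm, hdb⟩ := IsLocalization.integerNormalization_spec (nonZeroDivisors ℂ[X]) b
  set B0 := IsLocalization.integerNormalization (nonZeroDivisors ℂ[X]) b
  have hinj : Function.Injective (algebraMap ℂ[X] (RatFunc ℂ)) :=
    IsFractionRing.injective ℂ[X] (RatFunc ℂ)
  refine ⟨db, nonZeroDivisors.ne_zero hdbm, B0, ?_⟩
  apply Polynomial.map_injective _ hinj
  rw [Polynomial.map_mul, Polynomial.map_mul, map_C, hdb, hb, Algebra.smul_def]
  have e2 : (algebraMap ℂ[X] (RatFunc ℂ)[X]) db =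
      C (algebraMap ℂ[X] (RatFunc ℂ) db) := rfl
  rw [e2]
  ring

theorem clear_separable {m : ℂ[X][X]} (hirr : Irreducible (m.map (algebraMap ℂ[X] (RatFunc ℂ)))) :
    ∃ d : ℂ[X], d ≠ 0 ∧ ∃ A B : ℂ[X][X], A * m + B * derivative m = C d := by
  apply clear_coprime
  rw [← derivative_map]
  exact hirr.separable

theorem reg_finite {m : ℂ[X][X]} (hirr : Irreducible (m.map (algebraMap ℂ[X] (RatFunc ℂ)))) :
    {x : ℂ | ¬ Reg m x}.Finite := by
  obtain ⟨d, hd, A, B, hAB⟩ := clear_separable hirr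
  have hm0 : m ≠ 0 := by
    rintro rfl
    rw [Polynomial.map_zero] at hirr
    exact hirr.ne_zero rfl
  have hl : m.leadingCoeff ≠ 0 := leadingCoeff_ne_zero.2 hm0
  refine ((d.roots.toFinset ∪ m.leadingCoeff.roots.toFinset).finite_toSet).subset ?_
  intro x hx
  simp only [Finset.coe_union, Set.mem_union, Finset.mem_coe, Multiset.mem_toFinset]
  by_contra hcon
  push Not at hcon
  obtain ⟨h1, h2⟩ := hcon
  rw [mem_roots hd, IsRoot.def] at h1
  rw [mem_roots hl, IsRoot.def] at h2
  refine hx ⟨h2, fun t ht hd' => h1 ?_⟩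
  have h3 := congrArg (evalEval x t) hAB
  rw [evalEval_add, evalEval_mul, evalEval_mul, ht, hd', evalEval_C] at h3
  simpa using h3.symm

/-! ### The roots near a regular label -/

/-- the roots of `m (x, ·)` -/
noncomputable def rts (m : ℂ[X][X]) (x : ℂ) : Finset ℂ := (m.map (evalRingHom x)).roots.toFinset

theorem map_ne_zero_of_lc {m : ℂ[X][X]} {x : ℂ} (h : m.leadingCoeff.eval x ≠ 0) :
    m.map (evalRingHom x) ≠ 0 := by
  intro h0
  have h1 := congrArg (fun p => p.coeff m.natDegree) h0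
  simp only [coeff_map, coeff_zero, coeff_natDegree] at h1
  exact h h1

theorem mem_rts {m : ℂ[X][X]} {x t : ℂ} (h : m.leadingCoeff.eval x ≠ 0) :
    t ∈ rts m x ↔ evalEval x t m = 0 := by
  rw [rts, Multiset.mem_toFinset, mem_roots (map_ne_zero_of_lc h), IsRoot.def,
    evalEval_eq_eval_map]

theorem card_rts_le {m : ℂ[X][X]} {x : ℂ} : (rts m x).card ≤ m.natDegree :=
  (Multiset.toFinset_card_le _).trans ((card_roots' _).trans natDegree_map_le)

theorem card_rts {m : ℂ[X][X]} {x : ℂ} (h : Reg m x) : (rts m x).card = m.natDegree := by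
  have hnd : (m.map (evalRingHom x)).natDegree = m.natDegree :=
    natDegree_map_of_leadingCoeff_ne_zero _ h.1
  have hne := map_ne_zero_of_lc h.1
  rw [rts, Multiset.toFinset_card_of_nodup, ← hnd]
  · exact splits_iff_card_roots.1 (IsAlgClosed.splits _)
  · rw [Multiset.nodup_iff_count_le_one]
    intro t
    rw [count_roots]
    by_contra hcon
    push Not at hcon
    have h1 := (one_lt_rootMultiplicity_iff_isRoot hne).1 hcon
    rw [IsRoot.def, ← evalEval_eq_eval_map, IsRoot.def, derivative_map,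
      ← evalEval_eq_eval_map] at h1
    exact h.2 t h1.1 h1.2

/-- near a regular label the roots are given by analytic branches -/
theorem local_rts {m : ℂ[X][X]} {x₀ : ℂ} (h : Reg m x₀) :
    ∃ B : ℂ → ℂ → ℂ, (∀ t ∈ rts m x₀, AnalyticAt ℂ (B t) x₀ ∧ B t x₀ = t ∧
      ∀ᶠ x in 𝓝 x₀, evalEval x (B t x) m = 0) ∧
      ∀ᶠ x in 𝓝 x₀, Set.InjOn (fun t => B t x) (rts m x₀) ∧
        rts m x = (rts m x₀).image fun t => B t x := by
  classical
  have h1 : ∀ t ∈ rts m x₀, ∃ b : ℂ → ℂ, AnalyticAt ℂ b x₀ ∧ b x₀ = t ∧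
      ∀ᶠ x in 𝓝 x₀, evalEval x (b x) m = 0 := by
    intro t ht
    rw [mem_rts h.1] at ht
    obtain ⟨b, hb1, hb2, hb3⟩ := branch ht (h.2 t ht)
    exact ⟨b, hb1, hb2, branch_eq hb1.continuousAt hb2 hb3⟩
  choose! B hB using h1
  refine ⟨B, hB, ?_⟩
  have h2 : ∀ᶠ x in 𝓝 x₀, ∀ t ∈ rts m x₀, evalEval x (B t x) m = 0 := by
    rw [Filter.eventually_all_finset]
    intro t ht
    exact (hB t ht).2.2
  have h3 : ∀ᶠ x in 𝓝 x₀, ∀ t ∈ rts m x₀, ∀ t' ∈ rts m x₀, t ≠ t' → B t x ≠ B t' x := by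
    rw [Filter.eventually_all_finset]
    intro t ht
    rw [Filter.eventually_all_finset]
    intro t' ht'
    by_cases hne : t = t'
    · exact Filter.Eventually.of_forall fun x hx => absurd hne hx
    · have e1 : Tendsto (fun x => B t x - B t' x) (𝓝 x₀) (𝓝 (t - t')) := by
        have h5 := (hB t ht).1.continuousAt.sub (hB t' ht').1.continuousAt
        have h6 : Tendsto (fun x => B t x - B t' x) (𝓝 x₀) (𝓝 (B t x₀ - B t' x₀)) := h5
        rw [(hB t ht).2.1, (hB t' ht').2.1] at h6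
        exact h6
      filter_upwards [e1.eventually_ne (sub_ne_zero.2 hne)] with x hx _
      exact sub_ne_zero.1 hx
  have h4 : ∀ᶠ x in 𝓝 x₀, m.leadingCoeff.eval x ≠ 0 :=
    m.leadingCoeff.continuous.continuousAt.eventually_ne h.1
  filter_upwards [h2, h3, h4] with x e2 e3 e4
  have hinj : Set.InjOn (fun t => B t x) (rts m x₀) := by
    intro t ht t' ht' htt
    by_contra hne
    exact e3 t ht t' ht' hne htt
  refine ⟨hinj, ?_⟩
  symm
  apply Finset.eq_of_subset_of_card_le
  · intro s hs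
    rw [Finset.mem_image] at hs
    obtain ⟨t, ht, rfl⟩ := hs
    exact (mem_rts e4).2 (e2 t ht)
  · rw [Finset.card_image_of_injOn hinj, card_rts h]
    exact card_rts_le

/-! ### The polynomial of the good roots -/

/-- the monic polynomial with simple roots in the good roots -/
noncomputable def gpoly (m : ℂ[X][X]) (Good : ℂ → ℂ → Prop) (x : ℂ) : ℂ[X] :=
  by
  classical
  exact ∏ t ∈ (rts m x).filter (Good x), (X - C t)

theorem eval_gpoly_eq_zero {m : ℂ[X][X]} {Good : ℂ → ℂ → Prop} {x t : ℂ} :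
    (gpoly m Good x).eval t = 0 ↔ t ∈ rts m x ∧ Good x t := by
  classical
  rw [gpoly, eval_prod, Finset.prod_eq_zero_iff]
  constructor
  · rintro ⟨s, hs, h⟩
    rw [Finset.mem_filter] at hs
    have : t = s := by simpa [sub_eq_zero] using h
    rw [this]
    exact hs
  · intro h
    exact ⟨t, by rw [Finset.mem_filter]; exact h, by simp⟩

theorem natDegree_gpoly_le {m : ℂ[X][X]} {Good : ℂ → ℂ → Prop} {x : ℂ} :
    (gpoly m Good x).natDegree ≤ m.natDegree := by
  classical
  rw [gpoly]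
  refine (natDegree_prod_le _ _).trans ?_
  simp only [natDegree_X_sub_C, Finset.sum_const, smul_eq_mul, mul_one]
  exact (Finset.card_filter_le _ _).trans card_rts_le

/-- coefficients of a product of linear factors depend analytically on the roots -/
theorem analyticAt_coeff_prod {ι : Type*} (S : Finset ι) (B : ι → ℂ → ℂ) {x₀ : ℂ}
    (hB : ∀ i ∈ S, AnalyticAt ℂ (B i) x₀) (k : ℕ) :
    AnalyticAt ℂ (fun x => (∏ i ∈ S, (X - C (B i x))).coeff k) x₀ := by
  classical
  induction S using Finset.induction_on generalizing k with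
  | empty =>
    simp only [Finset.prod_empty]
    exact analyticAt_const
  | insert i S hi ih =>
    have hS : ∀ j ∈ S, AnalyticAt ℂ (B j) x₀ := fun j hj => hB j (Finset.mem_insert_of_mem hj)
    simp only [Finset.prod_insert hi, sub_mul, coeff_sub, coeff_C_mul]
    refine AnalyticAt.sub ?_ ((hB i (Finset.mem_insert_self i S)).mul (ih hS k))
    cases k with
    | zero => simp only [coeff_X_mul_zero]; exact analyticAt_const
    | succ k => simp only [coeff_X_mul]; exact ih hS k

/-- coefficients of a product of linear factors -/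
theorem norm_coeff_prod_le {ι : Type*} (S : Finset ι) (b : ι → ℂ) (k : ℕ) :
    ‖(∏ i ∈ S, (X - C (b i))).coeff k‖ ≤ ∏ i ∈ S, (1 + ‖b i‖) := by
  classical
  induction S using Finset.induction_on generalizing k with
  | empty =>
    simp only [Finset.prod_empty, coeff_one]
    split_ifs <;> simp
  | insert i S hi ih =>
    simp only [Finset.prod_insert hi, sub_mul, coeff_sub, coeff_C_mul]
    refine (norm_sub_le _ _).trans ?_
    rw [add_mul, one_mul, norm_mul]
    refine add_le_add ?_ (mul_le_mul_of_nonneg_left (ih k) (norm_nonneg _))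
    cases k with
    | zero =>
      simp only [coeff_X_mul_zero, norm_zero]
      positivity
    | succ k => simp only [coeff_X_mul]; exact ih k

/-- bound for the roots -/
theorem norm_root_le {m : ℂ[X][X]} {x t : ℂ} (h : evalEval x t m = 0) :
    ‖m.leadingCoeff.eval x‖ * ‖t‖ ≤ ∑ i ∈ Finset.range (m.natDegree + 1), ‖(m.coeff i).eval x‖ := by
  rcases Nat.eq_zero_or_pos m.natDegree with hn | hn
  · have h0 : m.leadingCoeff.eval x = 0 := by
      rw [evalEval_eq_sum, hn] at h
      simpa [leadingCoeff, hn] using h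
    rw [h0, norm_zero, zero_mul]
    positivity
  rcases le_or_gt ‖t‖ 1 with h1 | h1
  · calc ‖m.leadingCoeff.eval x‖ * ‖t‖ ≤ ‖m.leadingCoeff.eval x‖ * 1 := by gcongr
      _ = ‖(m.coeff m.natDegree).eval x‖ := by rw [mul_one]; rfl
      _ ≤ _ := Finset.single_le_sum (f := fun i => ‖(m.coeff i).eval x‖)
          (fun _ _ => norm_nonneg _) (Finset.mem_range.2 (Nat.lt_succ_self _))
  · rw [evalEval_eq_sum, Finset.sum_range_succ] at h
    have h2 : (m.coeff m.natDegree).eval x * t ^ m.natDegree =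
        -∑ i ∈ Finset.range m.natDegree, (m.coeff i).eval x * t ^ i := by
      linear_combination h
    have h3 : ‖m.leadingCoeff.eval x‖ * ‖t‖ ^ m.natDegree ≤
        (∑ i ∈ Finset.range m.natDegree, ‖(m.coeff i).eval x‖) * ‖t‖ ^ (m.natDegree - 1) := by
      calc ‖m.leadingCoeff.eval x‖ * ‖t‖ ^ m.natDegree
          = ‖(m.coeff m.natDegree).eval x * t ^ m.natDegree‖ := by rw [norm_mul, norm_pow]; rfl
        _ = ‖∑ i ∈ Finset.range m.natDegree, (m.coeff i).eval x * t ^ i‖ := by rw [h2, norm_neg]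
        _ ≤ ∑ i ∈ Finset.range m.natDegree, ‖(m.coeff i).eval x * t ^ i‖ := norm_sum_le _ _
        _ ≤ ∑ i ∈ Finset.range m.natDegree, ‖(m.coeff i).eval x‖ * ‖t‖ ^ (m.natDegree - 1) := by
          refine Finset.sum_le_sum fun i hi => ?_
          rw [norm_mul, norm_pow]
          have := Finset.mem_range.1 hi
          gcongr
          · exact h1.le
          · omega
        _ = _ := by rw [Finset.sum_mul]
    have h4 : ‖t‖ ^ m.natDegree = ‖t‖ * ‖t‖ ^ (m.natDegree - 1) := by
      rw [← pow_succ']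
      congr 1
      omega
    have h5 : 0 < ‖t‖ ^ (m.natDegree - 1) := by positivity
    rw [h4, ← mul_assoc] at h3
    have h6 := le_of_mul_le_mul_right h3 h5
    rw [Finset.sum_range_succ]
    linarith [norm_nonneg ((m.coeff m.natDegree).eval x)]

/-- bound for the coefficients of the polynomial of the good roots -/
theorem norm_coeff_gpoly_le {m : ℂ[X][X]} {Good : ℂ → ℂ → Prop} {x : ℂ}
    (hx : m.leadingCoeff.eval x ≠ 0) (k : ℕ) :
    ‖m.leadingCoeff.eval x ^ m.natDegree * (gpoly m Good x).coeff k‖ ≤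
      (2 * ∑ i ∈ Finset.range (m.natDegree + 1), ‖(m.coeff i).eval x‖) ^ m.natDegree := by
  classical
  set a := ‖m.leadingCoeff.eval x‖ with ha
  set M := ∑ i ∈ Finset.range (m.natDegree + 1), ‖(m.coeff i).eval x‖ with hM
  set F := (rts m x).filter (Good x) with hF
  have haM : a ≤ M := Finset.single_le_sum (f := fun i => ‖(m.coeff i).eval x‖)
    (fun _ _ => norm_nonneg _) (Finset.mem_range.2 (Nat.lt_succ_self m.natDegree))
  have ha0 : 0 ≤ a := norm_nonneg _
  have hM0 : 0 ≤ M := ha0.trans haM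
  have hcard : F.card ≤ m.natDegree := (Finset.card_filter_le _ _).trans card_rts_le
  have h1 : ‖(gpoly m Good x).coeff k‖ ≤ ∏ t ∈ F, (1 + ‖t‖) := norm_coeff_prod_le F id k
  have h2 : a ^ F.card * ∏ t ∈ F, (1 + ‖t‖) ≤ (2 * M) ^ F.card := by
    rw [← Finset.prod_const, ← Finset.prod_mul_distrib, ← Finset.prod_const]
    refine Finset.prod_le_prod (fun t _ => by positivity) fun t ht => ?_
    have ht' : t ∈ rts m x := (Finset.mem_filter.1 ht).1
    have := norm_root_le ((mem_rts hx).1 ht')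
    rw [mul_add, mul_one]
    linarith
  have h3 : a ^ (m.natDegree - F.card) ≤ (2 * M) ^ (m.natDegree - F.card) := by
    gcongr
    linarith
  rw [norm_mul, norm_pow]
  calc a ^ m.natDegree * ‖(gpoly m Good x).coeff k‖
      ≤ a ^ m.natDegree * ∏ t ∈ F, (1 + ‖t‖) := by gcongr
    _ = a ^ (m.natDegree - F.card) * (a ^ F.card * ∏ t ∈ F, (1 + ‖t‖)) := by
        rw [← mul_assoc, ← pow_add, Nat.sub_add_cancel hcard]
    _ ≤ (2 * M) ^ (m.natDegree - F.card) * (2 * M) ^ F.card := by gcongr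
    _ = (2 * M) ^ m.natDegree := by rw [← pow_add, Nat.sub_add_cancel hcard]

theorem poly_bound (P : ℂ[X]) : ∃ C : ℝ, 0 ≤ C ∧ ∀ x, ‖P.eval x‖ ≤ C * (1 + ‖x‖) ^ P.natDegree := by
  refine ⟨∑ i ∈ Finset.range (P.natDegree + 1), ‖P.coeff i‖, by positivity, fun x => ?_⟩
  rw [eval_eq_sum_range, Finset.sum_mul]
  refine (norm_sum_le _ _).trans (Finset.sum_le_sum fun i hi => ?_)
  rw [norm_mul, norm_pow]
  have hi' : i ≤ P.natDegree := by have := Finset.mem_range.1 hi; omega
  gcongr
  calc ‖x‖ ^ i ≤ (1 + ‖x‖) ^ i := by gcongr; linarith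
    _ ≤ (1 + ‖x‖) ^ P.natDegree := pow_le_pow_right₀ (by linarith [norm_nonneg x]) hi'

theorem sum_bound (m : ℂ[X][X]) : ∃ (C : ℝ) (L : ℕ), 0 ≤ C ∧ ∀ x : ℂ,
    ∑ i ∈ Finset.range (m.natDegree + 1), ‖(m.coeff i).eval x‖ ≤ C * (1 + ‖x‖) ^ L := by
  choose C hC0 hC using poly_bound
  refine ⟨∑ i ∈ Finset.range (m.natDegree + 1), C (m.coeff i),
    ∑ i ∈ Finset.range (m.natDegree + 1), (m.coeff i).natDegree,
    Finset.sum_nonneg fun i _ => hC0 _, fun x => ?_⟩
  rw [Finset.sum_mul]
  refine Finset.sum_le_sum fun i hi => (hC (m.coeff i) x).trans ?_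
  refine mul_le_mul_of_nonneg_left ?_ (hC0 _)
  exact pow_le_pow_right₀ (by linarith [norm_nonneg x])
    (Finset.single_le_sum (f := fun i => (m.coeff i).natDegree) (fun _ _ => Nat.zero_le _) hi)

/-- **All branches are good.** -/
theorem all_good {m : ℂ[X][X]} (hirr : Irreducible (m.map (algebraMap ℂ[X] (RatFunc ℂ))))
    (Good : ℂ → ℂ → Prop)
    (hloc : ∀ x₀, Reg m x₀ → ∀ b : ℂ → ℂ, AnalyticAt ℂ b x₀ →
      (∀ᶠ x in 𝓝 x₀, evalEval x (b x) m = 0) →
      ∀ᶠ x in 𝓝 x₀, (Good x (b x) ↔ Good x₀ (b x₀)))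
    {x₁ t₁ : ℂ} (hx₁ : Reg m x₁) (ht₁ : evalEval x₁ t₁ m = 0) (hg₁ : Good x₁ t₁)
    {x t : ℂ} (hx : Reg m x) (ht : evalEval x t m = 0) : Good x t := by
  classical
  set n := m.natDegree with hn
  set E : Finset ℂ := (reg_finite hirr).toFinset with hE
  have hmemE : ∀ z, z ∉ E ↔ Reg m z := by
    intro z
    rw [hE, Set.Finite.mem_toFinset, Set.mem_ofPred_eq, not_not]
  -- local structure
  have hlocal : ∀ z, Reg m z → ∀ k, AnalyticAt ℂ (fun x => (gpoly m Good x).coeff k) z := by
    intro z hz k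
    obtain ⟨B, hB, hB'⟩ := local_rts hz
    have hgood : ∀ᶠ x in 𝓝 z, ∀ t ∈ rts m z, (Good x (B t x) ↔ Good z t) := by
      rw [Filter.eventually_all_finset]
      intro t ht
      have := hloc z hz (B t) (hB t ht).1 (hB t ht).2.2
      rw [(hB t ht).2.1] at this
      exact this
    have han := analyticAt_coeff_prod ((rts m z).filter (Good z)) B (x₀ := z)
      (fun t ht => (hB t (Finset.mem_filter.1 ht).1).1) k
    refine han.congr ?_
    filter_upwards [hB', hgood] with x hx1 hx2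
    have e1 : (rts m x).filter (Good x) =
        ((rts m z).filter (Good z)).image fun t => B t x := by
      rw [hx1.2, Finset.filter_image]
      congr 1
      refine Finset.filter_congr fun t ht => ?_
      exact hx2 t ht
    rw [gpoly, e1, Finset.prod_image]
    intro t ht t' ht' htt
    exact hx1.1 (Finset.mem_filter.1 ht).1 (Finset.mem_filter.1 ht').1 htt
  -- the coefficients are rational
  obtain ⟨C0, L, hC0, hCL⟩ := sum_bound m
  have hrat : ∀ k, ∃ P : ℂ[X], ∀ z, (∏ e ∈ E, (z - e) ^ 2) *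
      (m.leadingCoeff.eval z ^ n * (gpoly m Good z).coeff k) = P.eval z := by
    intro k
    refine rational_of_bound E (f := fun z => m.leadingCoeff.eval z ^ n * (gpoly m Good z).coeff k)
      (C := (2 * C0) ^ n) (L := L * n) (fun z hz => ?_) fun z hz => ?_
    · refine DifferentiableAt.mul ?_ (hlocal z ((hmemE z).1 hz) k).differentiableAt
      exact (m.leadingCoeff.differentiable.pow n).differentiableAt
    · refine (norm_coeff_gpoly_le ((hmemE z).1 hz).1 k).trans ?_
      rw [pow_mul, ← mul_pow, ← hn, mul_assoc]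
      gcongr
      exact hCL z
  choose P hP using hrat
  set G : ℂ[X][X] := ∑ k ∈ Finset.range (n + 1), C (P k) * X ^ k with hG
  set D : ℂ → ℂ := fun z => (∏ e ∈ E, (z - e) ^ 2) * m.leadingCoeff.eval z ^ n with hD
  have hGev : ∀ z s, evalEval z s G = D z * (gpoly m Good z).eval s := by
    intro z s
    rw [hG, evalEval_finsetSum, eval_eq_sum_range' (n := n + 1)
      (Nat.lt_succ_of_le natDegree_gpoly_le), Finset.mul_sum]
    refine Finset.sum_congr rfl fun k _ => ?_
    rw [evalEval_mul, evalEval_C, evalEval_pow, evalEval_X, ← hP k z]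
    simp only [hD]
    ring
  have hDne : ∀ z, Reg m z → D z ≠ 0 := by
    intro z hz
    refine mul_ne_zero (Finset.prod_ne_zero_iff.2 fun e he => ?_) (pow_ne_zero _ hz.1)
    refine pow_ne_zero _ (sub_ne_zero.2 ?_)
    rintro rfl
    exact (hmemE z).2 hz he
  have hdvd : m.map (algebraMap ℂ[X] (RatFunc ℂ)) ∣ G.map (algebraMap ℂ[X] (RatFunc ℂ)) := by
    by_contra hcon
    obtain ⟨d, hd, A, B, hAB⟩ := clear_coprime (hirr.coprime_iff_not_dvd.2 hcon)
    obtain ⟨b, hb1, hb2, hb3⟩ := branch ht₁ (hx₁.2 t₁ ht₁)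
    have hb4 := branch_eq hb1.continuousAt hb2 hb3
    have hb5 := hloc x₁ hx₁ b hb1 hb4
    have hb6 : ∀ᶠ x in 𝓝 x₁, m.leadingCoeff.eval x ≠ 0 :=
      m.leadingCoeff.continuous.continuousAt.eventually_ne hx₁.1
    have hb7 : ∀ᶠ x in 𝓝 x₁, d.eval x = 0 := by
      filter_upwards [hb4, hb5, hb6] with x e1 e2 e3
      have e4 : Good x (b x) := e2.2 (by rw [hb2]; exact hg₁)
      have e5 : (gpoly m Good x).eval (b x) = 0 :=
        eval_gpoly_eq_zero.2 ⟨(mem_rts e3).2 e1, e4⟩
      have e6 := congrArg (evalEval x (b x)) hAB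
      rw [evalEval_add, evalEval_mul, evalEval_mul, e1, hGev, e5, evalEval_C] at e6
      simpa using e6.symm
    refine hd (eq_zero_of_infinite_isRoot d ?_)
    exact infinite_of_mem_nhds x₁ hb7
  obtain ⟨d, hd, H, hH⟩ := clear_dvd hdvd
  have hgen : ∀ z s, Reg m z → d.eval z ≠ 0 → evalEval z s m = 0 → Good z s := by
    intro z s hz hdz hs
    have e1 := congrArg (evalEval z s) hH
    rw [evalEval_mul, evalEval_mul, evalEval_C, hs, mul_zero, hGev] at e1
    have e2 : (gpoly m Good z).eval s = 0 := by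
      rcases mul_eq_zero.1 e1 with h | h
      · exact absurd h hdz
      · rcases mul_eq_zero.1 h with h | h
        · exact absurd h (hDne z hz)
        · exact h
    exact (eval_gpoly_eq_zero.1 e2).2
  obtain ⟨b, hb1, hb2, hb3⟩ := branch ht (hx.2 t ht)
  have hb4 := branch_eq hb1.continuousAt hb2 hb3
  have hb5 := hloc x hx b hb1 hb4
  have hb6 : ∀ᶠ z in 𝓝 x, Reg m z := by
    have h1 : (↑E : Set ℂ)ᶜ ∈ 𝓝 x :=
      (E.finite_toSet.isClosed.isOpen_compl).mem_nhds (by
        simp only [Set.mem_compl_iff, Finset.mem_coe]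
        exact (hmemE x).2 hx)
    filter_upwards [h1] with z hz
    exact (hmemE z).1 (by simpa using hz)
  have hb7 : ∀ᶠ z in 𝓝[≠] x, d.eval z ≠ 0 := by
    have h1 : ((↑d.roots.toFinset : Set ℂ) \ {x})ᶜ ∈ 𝓝 x :=
      (((d.roots.toFinset.finite_toSet).subset Set.sdiff_subset).isClosed.isOpen_compl).mem_nhds
        (by simp)
    filter_upwards [nhdsWithin_le_nhds h1, self_mem_nhdsWithin] with z hz hz' h0
    apply hz
    refine ⟨?_, hz'⟩
    simp only [Finset.mem_coe, Multiset.mem_toFinset]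
    exact (mem_roots hd).2 h0
  have hb8 : ∀ᶠ z in 𝓝[≠] x, Good x t := by
    filter_upwards [nhdsWithin_le_nhds hb4, nhdsWithin_le_nhds hb5, nhdsWithin_le_nhds hb6, hb7]
      with z e1 e2 e3 e4
    have := e2.1 (hgen z (b z) e3 e4 e1)
    rwa [hb2] at this
  exact hb8.exists.choose_spec

end Pool.Agent.MP_ae5b4e_an_ND
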