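import Mathlib
import Pool.Agent.Lib.MP_ae5b4e_an_LAT.NDImplicit

/-!
# Formal power series solutions of algebraic equations converge
-/

open Polynomial Filter Topology

namespace Pool.Agent.MP_ae5b4e_an_ND

/-- `f` is given near `0` by the power series `p` -/
def HasPS (f : ℂ → ℂ) (p : PowerSeries ℂ) : Prop :=
  ∀ᶠ w in 𝓝 (0 : ℂ), HasSum (fun n : ℕ => PowerSeries.coeff n p * w ^ n) (f w)

namespace HasPS

theorem iff_fps {f : ℂ → ℂ} {p : PowerSeries ℂ} : HasPS f p ↔
    HasFPowerSeriesAt f (FormalMultilinearSeries.ofScalars ℂ fun n => PowerSeries.coeff n p) 0 := by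
  rw [hasFPowerSeriesAt_iff, HasPS]
  simp only [FormalMultilinearSeries.coeff_ofScalars, zero_add, smul_eq_mul]
  simp only [mul_comm]

theorem analyticAt {f : ℂ → ℂ} {p : PowerSeries ℂ} (h : HasPS f p) : AnalyticAt ℂ f 0 :=
  ⟨_, iff_fps.1 h⟩

theorem unique {f : ℂ → ℂ} {p q : PowerSeries ℂ} (h : HasPS f p) (h' : HasPS f q) : p = q := by
  have h1 := (iff_fps.1 h).eq_formalMultilinearSeries (iff_fps.1 h')
  ext n
  have h2 := congrArg (fun P => P.coeff n) h1
  simpa using h2

theorem exists_of_analyticAt {f : ℂ → ℂ} (h : AnalyticAt ℂ f 0) : ∃ p, HasPS f p := by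
  obtain ⟨P, hP⟩ := h
  refine ⟨PowerSeries.mk fun n => P.coeff n, ?_⟩
  rw [hasFPowerSeriesAt_iff] at hP
  unfold HasPS
  simpa only [PowerSeries.coeff_mk, zero_add, smul_eq_mul, mul_comm] using hP

theorem congr {f g : ℂ → ℂ} {p : PowerSeries ℂ} (h : HasPS f p) (hfg : ∀ᶠ w in 𝓝 0, f w = g w) :
    HasPS g p := by
  unfold HasPS at h ⊢
  filter_upwards [h, hfg] with w h1 h2
  rwa [← h2]

theorem add {f g : ℂ → ℂ} {p q : PowerSeries ℂ} (hf : HasPS f p) (hg : HasPS g q) :
    HasPS (fun w => f w + g w) (p + q) := by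
  unfold HasPS at *
  filter_upwards [hf, hg] with w h1 h2
  simpa only [map_add, add_mul] using h1.add h2

theorem mul {f g : ℂ → ℂ} {p q : PowerSeries ℂ} (hf : HasPS f p) (hg : HasPS g q) :
    HasPS (fun w => f w * g w) (p * q) := by
  unfold HasPS at *
  filter_upwards [hf, hg] with w h1 h2
  have s1 := h1.summable.norm
  have s2 := h2.summable.norm
  have h3 := tsum_mul_tsum_eq_tsum_sum_antidiagonal_of_summable_norm s1 s2
  have h4 := (summable_norm_sum_mul_antidiagonal_of_summable_norm s1 s2).of_norm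
  rw [h1.tsum_eq, h2.tsum_eq] at h3
  rw [h3]
  have h5 : (fun n : ℕ => PowerSeries.coeff n (p * q) * w ^ n) = fun n =>
      ∑ kl ∈ Finset.HasAntidiagonal.antidiagonal n, PowerSeries.coeff kl.1 p * w ^ kl.1 *
        (PowerSeries.coeff kl.2 q * w ^ kl.2) := by
    funext n
    rw [PowerSeries.coeff_mul, Finset.sum_mul]
    refine Finset.sum_congr rfl fun kl hkl => ?_
    rw [← Finset.HasAntidiagonal.mem_antidiagonal.1 hkl, pow_add]
    ring
  rw [h5]
  exact h4.hasSum

theorem polynomial (P : ℂ[X]) : HasPS (fun w => P.eval w) (P : PowerSeries ℂ) := by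
  unfold HasPS
  refine Filter.Eventually.of_forall fun w => ?_
  show HasSum _ (P.eval w)
  rw [eval_eq_sum_range]
  have h : HasSum (fun n : ℕ => PowerSeries.coeff n (P : PowerSeries ℂ) * w ^ n)
      (∑ n ∈ Finset.range (P.natDegree + 1), PowerSeries.coeff n (P : PowerSeries ℂ) * w ^ n) :=
    hasSum_sum_of_ne_finset_zero fun n hn => by
      rw [Finset.mem_range, not_lt] at hn
      rw [Polynomial.coeff_coe, coeff_eq_zero_of_natDegree_lt (by omega), zero_mul]
  simpa only [Polynomial.coeff_coe] using h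

theorem one : HasPS (fun _ => 1) 1 := by
  simpa using polynomial 1

theorem pow {f : ℂ → ℂ} {p : PowerSeries ℂ} (hf : HasPS f p) (n : ℕ) :
    HasPS (fun w => f w ^ n) (p ^ n) := by
  induction n with
  | zero => simpa using one
  | succ n ih => simpa only [pow_succ] using ih.mul hf

theorem sum {ι : Type*} (s : Finset ι) {f : ι → ℂ → ℂ} {p : ι → PowerSeries ℂ}
    (h : ∀ i ∈ s, HasPS (f i) (p i)) : HasPS (fun w => ∑ i ∈ s, f i w) (∑ i ∈ s, p i) := by
  classical
  induction s using Finset.induction_on with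
  | empty => simpa using polynomial 0
  | insert i s hi ih =>
    simp only [Finset.sum_insert hi]
    exact (h i (Finset.mem_insert_self i s)).add (ih fun j hj => h j (Finset.mem_insert_of_mem hj))

theorem evalEval {f : ℂ → ℂ} {p : PowerSeries ℂ} (hf : HasPS f p) (Q : ℂ[X][X]) :
    HasPS (fun w => Polynomial.evalEval w (f w) Q)
      ((Q.map (Polynomial.coeToPowerSeries.ringHom (R := ℂ))).eval p) := by
  have h1 : (fun w => Polynomial.evalEval w (f w) Q) = fun w =>
      ∑ i ∈ Finset.range (Q.natDegree + 1), (Q.coeff i).eval w * f w ^ i :=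
    funext fun w => evalEval_eq_sum Q w (f w)
  have h2 : (Q.map (Polynomial.coeToPowerSeries.ringHom (R := ℂ))).eval p =
      ∑ i ∈ Finset.range (Q.natDegree + 1), (Q.coeff i : PowerSeries ℂ) * p ^ i := by
    rw [eval_map, eval₂_eq_sum_range]
    rfl
  rw [h1, h2]
  exact sum _ fun i _ => (polynomial (Q.coeff i)).mul (hf.pow i)

theorem eq_zero {f : ℂ → ℂ} (h : HasPS f 0) : ∀ᶠ w in 𝓝 0, f w = 0 := by
  unfold HasPS at h
  filter_upwards [h] with w hw
  simp only [map_zero, zero_mul] at hw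
  exact hw.unique hasSum_zero

theorem constantCoeff {f : ℂ → ℂ} {p : PowerSeries ℂ} (h : HasPS f p) :
    PowerSeries.constantCoeff p = f 0 := by
  have h1 : HasSum (fun n : ℕ => PowerSeries.coeff n p * (0 : ℂ) ^ n) (f 0) := h.self_of_nhds
  have h2 : HasSum (fun n : ℕ => PowerSeries.coeff n p * (0 : ℂ) ^ n)
      (PowerSeries.coeff 0 p * (0 : ℂ) ^ 0) := hasSum_single 0 fun n hn => by simp [hn]
  have h3 := h1.unique h2
  simpa using h3.symm

end HasPS

end Pool.Agent.MP_ae5b4e_an_ND
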