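import Mathlib
import Pool.Agent.Lib.MP_ae5b4e_an_LAT.NDSeries
import Pool.Agent.Lib.MP_ae5b4e_an_LAT.NDGood

/-!
# Formal places of an algebraic function are analytic
-/

open Polynomial Filter Topology

namespace Pool.Agent.MP_ae5b4e_an_ND

/-- polynomials as power series -/
noncomputable abbrev psi : ℂ[X] →+* PowerSeries ℂ := Polynomial.coeToPowerSeries.ringHom (R := ℂ)

theorem psi_apply (P : ℂ[X]) : psi P = (P : PowerSeries ℂ) := rfl

theorem X_pow_dvd_psi {P : ℂ[X]} {M : ℕ} : (PowerSeries.X : PowerSeries ℂ) ^ M ∣ psi P ↔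
    (X : ℂ[X]) ^ M ∣ P := by
  rw [PowerSeries.X_pow_dvd_iff, X_pow_dvd_iff]
  simp only [psi_apply, Polynomial.coeff_coe]

/-- A formal power series which is a simple root of a polynomial with polynomial coefficients
converges. -/
theorem ps_root (Q : ℂ[X][X]) (r : PowerSeries ℂ) (hr : (Q.map psi).eval r = 0)
    (hr' : ((derivative Q).map psi).eval r ≠ 0) : ∃ f : ℂ → ℂ, HasPS f r := by
  classical
  set R' := ((derivative Q).map psi).eval r with hR'
  -- the order of the derivative
  obtain ⟨M, hM1, hM2⟩ : ∃ M : ℕ, (∀ i < M, PowerSeries.coeff i R' = 0) ∧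
      PowerSeries.coeff M R' ≠ 0 := by
    have hex : ∃ M, PowerSeries.coeff M R' ≠ 0 := by
      by_contra hcon
      push Not at hcon
      exact hr' (PowerSeries.ext fun n => by simpa using hcon n)
    exact ⟨Nat.find hex, fun i hi => by
      have := Nat.find_min hex hi
      simpa using this, Nat.find_spec hex⟩
  have hMdvd : (PowerSeries.X : PowerSeries ℂ) ^ M ∣ R' := PowerSeries.X_pow_dvd_iff.2 hM1
  -- truncation
  set p : ℂ[X] := r.trunc (M + 1) with hp
  obtain ⟨s', hs'⟩ : (PowerSeries.X : PowerSeries ℂ) ^ (M + 1) ∣ r - psi p := by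
    rw [PowerSeries.X_pow_dvd_iff]
    intro i hi
    rw [map_sub, psi_apply, Polynomial.coeff_coe, hp, PowerSeries.coeff_trunc, if_pos hi, sub_self]
  set s : PowerSeries ℂ := PowerSeries.X * s' with hs
  have hrs : r = psi p + PowerSeries.X ^ M * s := by
    rw [hs, ← mul_assoc, ← pow_succ, ← hs']
    ring
  have hXs : (PowerSeries.X : PowerSeries ℂ) ∣ s := ⟨s', rfl⟩
  have hs0 : PowerSeries.constantCoeff s = 0 := PowerSeries.X_dvd_iff.1 hXs
  -- the derivative at the truncation
  have hd1 : (PowerSeries.X : PowerSeries ℂ) ^ (M + 1) ∣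
      ((derivative Q).map psi).eval (psi p) - R' := by
    have h1 := sub_dvd_eval_sub (psi p) r ((derivative Q).map psi)
    refine dvd_trans ?_ h1
    exact ⟨-s', by rw [mul_neg, ← hs']; ring⟩
  have hev : ((derivative Q).map psi).eval (psi p) = psi ((derivative Q).eval p) := by
    rw [eval_map, eval₂_at_apply]
  rw [hev] at hd1
  have hd2 : (PowerSeries.X : PowerSeries ℂ) ^ M ∣ psi ((derivative Q).eval p) := by
    have h1 : (PowerSeries.X : PowerSeries ℂ) ^ M ∣ psi ((derivative Q).eval p) - R' :=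
      (pow_dvd_pow _ (Nat.le_succ M)).trans hd1
    have h2 := dvd_add h1 hMdvd
    rwa [sub_add_cancel] at h2
  have hd3 : ((derivative Q).eval p).coeff M ≠ 0 := by
    have h1 := PowerSeries.X_pow_dvd_iff.1 hd1 M (Nat.lt_succ_self M)
    rw [map_sub, sub_eq_zero, psi_apply, Polynomial.coeff_coe] at h1
    rw [h1]
    exact hM2
  -- the value at the truncation
  have hv : (PowerSeries.X : PowerSeries ℂ) ^ (2 * M + 1) ∣ psi (Q.eval p) := by
    obtain ⟨k, hk⟩ := (Q.map psi).binomExpansion (psi p) (PowerSeries.X ^ M * s)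
    rw [← hrs, hr, derivative_map, hev] at hk
    have h1 : (Q.map psi).eval (psi p) = psi (Q.eval p) := by rw [eval_map, eval₂_at_apply]
    rw [h1] at hk
    obtain ⟨u, hu⟩ := hd2
    refine ⟨-(u * s' + k * PowerSeries.X * s' ^ 2), ?_⟩
    rw [hu, hs] at hk
    linear_combination -hk
  -- the blown up polynomial
  set Q1 : ℂ[X][X] := taylor p Q with hQ1
  set Qt : ℂ[X][X] := Q1.comp (C (X ^ M) * X) with hQt
  have hQtc : ∀ j, Qt.coeff j = Q1.coeff j * (X ^ M) ^ j := fun j => by
    rw [hQt, comp_C_mul_X_coeff]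
  have hdvd : C ((X : ℂ[X]) ^ (2 * M)) ∣ Qt := by
    rw [C_dvd_iff_dvd_coeff]
    intro j
    rw [hQtc]
    rcases j with _ | _ | j
    · rw [pow_zero, mul_one, hQ1, taylor_coeff_zero]
      exact (pow_dvd_pow _ (Nat.le_succ _)).trans (X_pow_dvd_psi.1 hv)
    · rw [zero_add, pow_one, hQ1, taylor_coeff_one, two_mul, pow_add]
      exact mul_dvd_mul (X_pow_dvd_psi.1 hd2) dvd_rfl
    · refine Dvd.dvd.mul_left ?_ _
      rw [← pow_mul]
      exact pow_dvd_pow _ (by nlinarith)
  obtain ⟨F, hF⟩ := hdvd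
  have hFc : ∀ j, X ^ (2 * M) * F.coeff j = Q1.coeff j * (X ^ M) ^ j := fun j => by
    rw [← hQtc, hF, coeff_C_mul]
  have hXne : (X : ℂ[X]) ^ (2 * M) ≠ 0 := pow_ne_zero _ X_ne_zero
  have hXne' : (X : ℂ[X]) ^ M ≠ 0 := pow_ne_zero _ X_ne_zero
  have hF0 : (F.coeff 0).eval 0 = 0 := by
    have h1 := hFc 0
    rw [pow_zero, mul_one, hQ1, taylor_coeff_zero] at h1
    obtain ⟨u, hu⟩ := X_pow_dvd_psi.1 hv
    rw [hu, pow_succ, mul_assoc] at h1
    have h2 := mul_left_cancel₀ hXne h1
    rw [h2]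
    simp
  have hF1 : (F.coeff 1).eval 0 ≠ 0 := by
    have h1 := hFc 1
    rw [pow_one, hQ1, taylor_coeff_one, two_mul, pow_add, mul_comm (eval p (derivative Q)),
      mul_assoc] at h1
    have h2 := mul_left_cancel₀ hXne' h1
    have h3 := congrArg (fun P => P.coeff M) h2
    simp only [coeff_X_pow_mul', le_refl, if_true, Nat.sub_self] at h3
    rw [← coeff_zero_eq_eval_zero, h3]
    exact hd3
  -- the analytic root
  have he0 : evalEval 0 0 F = 0 := by
    rw [evalEval, C_0, ← coeff_zero_eq_eval_zero F]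
    exact hF0
  have he1 : evalEval 0 0 (derivative F) ≠ 0 := by
    rw [evalEval, C_0, ← coeff_zero_eq_eval_zero (derivative F), coeff_derivative]
    simpa using hF1
  obtain ⟨b, hb1, hb2, hb3⟩ := branch he0 he1
  have hb4 := branch_eq hb1.continuousAt hb2 hb3
  obtain ⟨σ, hσ⟩ := HasPS.exists_of_analyticAt hb1
  have hσ0 : PowerSeries.constantCoeff σ = 0 := by rw [hσ.constantCoeff, hb2]
  have hσF : (F.map psi).eval σ = 0 := by
    have h1 := hσ.evalEval F
    have h2 : HasPS (fun w => evalEval w (b w) F) 0 := by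
      unfold HasPS
      filter_upwards [hb4] with w hw
      rw [hw]
      simp
    exact h1.unique h2
  have hsF : (F.map psi).eval s = 0 := by
    have h1 : (Qt.map psi).eval s = 0 := by
      have h2 : (Qt.map psi).eval s = (Q.map psi).eval r := by
        rw [hQt, hQ1, taylor_apply, Polynomial.map_comp, Polynomial.map_comp, eval_comp, eval_comp]
        simp only [Polynomial.map_mul, map_C, map_X, eval_mul, eval_C, eval_X, Polynomial.map_add,
          eval_add]
        rw [hrs]
        congr 1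
        rw [add_comm]
        congr 2
        rw [map_pow]
        congr 1
        exact Polynomial.coe_X
      rw [h2, hr]
    rw [hF, Polynomial.map_mul, eval_mul, map_C, eval_C] at h1
    rcases mul_eq_zero.1 h1 with h | h
    · exfalso
      rw [map_pow] at h
      have h3 := eq_zero_of_pow_eq_zero h
      have h4 : psi X = (PowerSeries.X : PowerSeries ℂ) := Polynomial.coe_X
      rw [h4] at h3
      exact PowerSeries.X_ne_zero h3
    · exact h
  -- uniqueness of the small root
  have hsσ : s = σ := by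
    obtain ⟨k, hk⟩ := (F.map psi).binomExpansion σ (s - σ)
    rw [add_sub_cancel, hsF, hσF, zero_add, derivative_map] at hk
    have h1 : (((derivative F).map psi).eval σ + k * (s - σ)) * (s - σ) = 0 := by
      linear_combination -hk
    rcases mul_eq_zero.1 h1 with h | h
    · exfalso
      have h2 := congrArg (PowerSeries.constantCoeff (R := ℂ)) h
      rw [map_add, map_mul, map_sub, hs0, hσ0, sub_self, mul_zero, add_zero, map_zero] at h2
      have h3 : PowerSeries.constantCoeff (((derivative F).map psi).eval σ) =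
          evalEval 0 0 (derivative F) := by
        have h4 := (hσ.evalEval (derivative F)).constantCoeff
        rw [h4, hb2]
      rw [h3] at h2
      exact he1 h2
    · exact sub_eq_zero.1 h
  refine ⟨fun w => p.eval w + (X ^ M : ℂ[X]).eval w * b w, ?_⟩
  have h1 := (HasPS.polynomial p).add ((HasPS.polynomial (X ^ M)).mul hσ)
  have h2 : (p : PowerSeries ℂ) + ((X ^ M : ℂ[X]) : PowerSeries ℂ) * σ = r := by
    rw [hrs, hsσ]
    congr 2
    simp
  rwa [h2] at h1

/-- polynomials as Laurent series -/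
noncomputable abbrev iotaL : ℂ[X] →+* LaurentSeries ℂ := (HahnSeries.ofPowerSeries ℤ ℂ).comp psi

theorem iotaL_X : iotaL X = HahnSeries.single 1 1 := by
  rw [RingHom.comp_apply, psi_apply, Polynomial.coe_X, HahnSeries.ofPowerSeries_X]

theorem iotaL_C (c : ℂ) : iotaL (C c) = HahnSeries.C c := by
  rw [RingHom.comp_apply, psi_apply, Polynomial.coe_C, HahnSeries.ofPowerSeries_C]

theorem iotaL_injective : Function.Injective iotaL :=
  HahnSeries.ofPowerSeries_injective.comp (Polynomial.coe_injective ℂ)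

/-- the substitution `x = e + w ^ N` -/
noncomputable abbrev thetaN (e : ℂ) (N : ℕ) : ℂ[X] →+* ℂ[X] := compRingHom (C e + X ^ N)

theorem thetaN_injective (e : ℂ) {N : ℕ} (hN : 0 < N) : Function.Injective (thetaN e N) := by
  intro P Q h
  have h1 : (P - Q).comp (C e + X ^ N) = 0 := by
    have : (thetaN e N) (P - Q) = 0 := by rw [map_sub, h, sub_self]
    exact this
  rcases comp_eq_zero_iff.1 h1 with h2 | h2
  · exact sub_eq_zero.1 h2
  · exfalso
    have h3 := congrArg (fun P => P.coeff N) h2.2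
    simp only [coeff_add, coeff_C, coeff_X_pow, if_true, if_neg hN.ne'] at h3
    simp at h3

theorem evalEval_thetaN (m : ℂ[X][X]) (e : ℂ) (N : ℕ) (w t : ℂ) :
    evalEval w t (m.map (thetaN e N)) = evalEval (e + w ^ N) t m := by
  rw [evalEval_eq_eval_map, evalEval_eq_eval_map, Polynomial.map_map]
  congr 2
  ext
  · simp
  · simp

/-- scaling of the roots -/
theorem scale_comp (q : ℂ[X][X]) (a : ℂ[X]) :
    (q.scaleRoots a).comp (C a * X) = C (a ^ q.natDegree) * q := by
  ext1 i
  rw [comp_C_mul_X_coeff, coeff_scaleRoots, coeff_C_mul]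
  rcases le_or_gt i q.natDegree with h | h
  · rw [mul_assoc, ← pow_add, Nat.sub_add_cancel h, mul_comm]
  · rw [coeff_eq_zero_of_natDegree_lt h]
    ring

theorem eval₂_scale {S : Type*} [CommRing S] (f : ℂ[X] →+* S) (q : ℂ[X][X]) (a : ℂ[X]) (r : S) :
    (q.scaleRoots a).eval₂ f (f a * r) = f a ^ q.natDegree * q.eval₂ f r := by
  have h := congrArg (fun P => P.eval₂ f r) (scale_comp q a)
  rw [eval₂_comp, eval₂_mul, eval₂_C, eval₂_X, eval₂_mul, eval₂_C, map_pow] at h
  exact h

theorem eval₂_scale_derivative {S : Type*} [CommRing S] (f : ℂ[X] →+* S) (q : ℂ[X][X]) (a : ℂ[X])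
    (r : S) : (derivative (q.scaleRoots a)).eval₂ f (f a * r) * f a =
      f a ^ q.natDegree * (derivative q).eval₂ f r := by
  have h := congrArg (fun P => (derivative P).eval₂ f r) (scale_comp q a)
  rw [derivative_comp, derivative_C_mul, derivative_C_mul, derivative_X, mul_one, eval₂_mul,
    eval₂_comp, eval₂_mul, eval₂_C, eval₂_X, eval₂_mul, eval₂_C, map_pow, mul_comm] at h
  exact h

/-- **A formal place is an analytic place.** -/
theorem exists_place {m : ℂ[X][X]} (hirr : Irreducible (m.map (algebraMap ℂ[X] (RatFunc ℂ))))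
    (e : ℂ) {N : ℕ} (hN : 0 < N) (φ : ℂ[X] →+* LaurentSeries ℂ)
    (hφC : ∀ c, φ (C c) = HahnSeries.C c)
    (hφX : φ X = HahnSeries.C e + HahnSeries.single (N : ℤ) 1)
    (r : LaurentSeries ℂ) (hr : (m.map φ).eval r = 0) :
    ∃ δ > 0, ∃ K : ℕ, ∃ h : ℂ → ℂ, DifferentiableOn ℂ h (Metric.ball 0 δ) ∧
      (∀ w, ‖w‖ < δ → HasSum (fun n : ℕ => r.coeff ((n : ℤ) - K) * w ^ n) (h w)) ∧
      (∀ j : ℤ, j < -K → r.coeff j = 0) ∧
      ∀ w, 0 < ‖w‖ → ‖w‖ < δ → Reg m (e + w ^ N) ∧ evalEval (e + w ^ N) (h w / w ^ K) m = 0 := by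
  classical
  have hφ : φ = iotaL.comp (thetaN e N) := by
    apply Polynomial.ringHom_ext
    · intro c
      rw [hφC, RingHom.comp_apply, coe_compRingHom_apply, C_comp, iotaL_C]
    · rw [hφX, RingHom.comp_apply, coe_compRingHom_apply, X_comp, map_add, map_pow, iotaL_C, iotaL_X,
        HahnSeries.single_pow, one_pow]
      simp
  -- the order of the pole
  obtain ⟨K, hK⟩ : ∃ K : ℕ, ∀ j : ℤ, j < -K → r.coeff j = 0 := by
    refine ⟨(-r.order).toNat, fun j hj => HahnSeries.coeff_eq_zero_of_lt_order ?_⟩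
    have := Int.self_le_toNat (-r.order)
    omega
  set ρ : PowerSeries ℂ := PowerSeries.mk fun n => r.coeff ((n : ℤ) - K) with hρ
  have hρr : HahnSeries.ofPowerSeries ℤ ℂ ρ = iotaL X ^ K * r := by
    rw [iotaL_X, HahnSeries.single_pow, one_pow]
    have hK1 : K • (1 : ℤ) = (K : ℤ) := by simp
    rw [hK1]
    ext j
    have h1 : (HahnSeries.single (K : ℤ) (1 : ℂ) * r).coeff j = r.coeff (j - K) := by
      have := HahnSeries.coeff_single_mul_add (Γ := ℤ) (r := (1 : ℂ)) (x := r) (a := j - K)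
        (b := (K : ℤ))
      rw [sub_add_cancel, one_mul] at this
      exact this
    rw [h1]
    rcases lt_or_ge j 0 with hj | hj
    · rw [hK _ (by omega), HahnSeries.ofPowerSeries_apply]
      refine HahnSeries.embDomain_of_notMem_range ?_
      rintro ⟨i, hi⟩
      have : (i : ℤ) = j := hi
      omega
    · obtain ⟨n, rfl⟩ := Int.eq_ofNat_of_zero_le hj
      rw [HahnSeries.ofPowerSeries_apply_coeff, PowerSeries.coeff_mk]
  set q : ℂ[X][X] := m.map (thetaN e N) with hq
  set Q : ℂ[X][X] := q.scaleRoots (X ^ K) with hQ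
  have hqr : q.eval₂ iotaL r = 0 := by
    rw [hq, eval₂_map, ← hφ, ← eval_map]
    exact hr
  -- the equation for the power series
  have hroot : (Q.map psi).eval ρ = 0 := by
    apply HahnSeries.ofPowerSeries_injective (Γ := ℤ)
    rw [map_zero, eval_map, hom_eval₂, hρr]
    show Q.eval₂ iotaL _ = 0
    rw [hQ, ← map_pow, eval₂_scale, hqr, mul_zero]
  have hsimple : ((derivative Q).map psi).eval ρ ≠ 0 := by
    intro h0
    have h1 := congrArg (HahnSeries.ofPowerSeries ℤ ℂ) h0
    rw [map_zero, eval_map, hom_eval₂, hρr] at h1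
    have h2 := eval₂_scale_derivative iotaL q (X ^ K) r
    rw [map_pow] at h2
    have h3 : (derivative Q).eval₂ iotaL (iotaL X ^ K * r) = 0 := h1
    rw [← hQ, h3, zero_mul] at h2
    have hXne : iotaL X ≠ 0 := by
      rw [iotaL_X]
      exact HahnSeries.single_ne_zero one_ne_zero
    have h4 : (derivative q).eval₂ iotaL r = 0 := by
      rcases mul_eq_zero.1 h2.symm with h | h
      · exact absurd h (pow_ne_zero _ (pow_ne_zero _ hXne))
      · exact h
    obtain ⟨d, hd, A, B, hAB⟩ := clear_separable hirr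
    have h5 := congrArg (fun P => (P.map (thetaN e N)).eval₂ iotaL r) hAB
    simp only [Polynomial.map_add, Polynomial.map_mul, ← derivative_map, eval₂_add, eval₂_mul,
      map_C, eval₂_C] at h5
    rw [← hq, hqr, h4, mul_zero, mul_zero, zero_add] at h5
    have h6 : thetaN e N d = 0 := by
      apply iotaL_injective
      rw [map_zero]
      exact h5.symm
    exact hd (thetaN_injective e hN (by rw [h6, map_zero]))
  obtain ⟨h, hh⟩ := ps_root Q ρ hroot hsimple
  have hzero : ∀ᶠ w in 𝓝 (0 : ℂ), evalEval w (h w) Q = 0 := by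
    have h1 := hh.evalEval Q
    rw [hroot] at h1
    exact h1.eq_zero
  have hsum : ∀ᶠ w in 𝓝 (0 : ℂ), HasSum (fun n : ℕ => r.coeff ((n : ℤ) - K) * w ^ n) (h w) := by
    have h1 : HasPS h ρ := hh
    unfold HasPS at h1
    simpa only [hρ, PowerSeries.coeff_mk] using h1
  have han := hh.analyticAt.eventually_analyticAt
  have hreg : ∀ᶠ w in 𝓝 (0 : ℂ), w ≠ 0 → Reg m (e + w ^ N) := by
    have h1 : ({x : ℂ | ¬ Reg m x} \ {e})ᶜ ∈ 𝓝 e :=
      (((reg_finite hirr).subset Set.sdiff_subset).isClosed.isOpen_compl).mem_nhds (by simp)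
    have h2 : Tendsto (fun w : ℂ => e + w ^ N) (𝓝 0) (𝓝 e) := by
      have h3 : Continuous fun w : ℂ => e + w ^ N := by fun_prop
      have h4 := h3.tendsto 0
      rwa [zero_pow hN.ne', add_zero] at h4
    filter_upwards [h2 h1] with w hw hw0
    by_contra hcon
    apply hw
    refine ⟨hcon, ?_⟩
    rw [Set.mem_singleton_iff]
    intro h5
    have : w ^ N = 0 := by linear_combination h5
    exact hw0 (eq_zero_of_pow_eq_zero this)
  obtain ⟨δ, hδ, hball⟩ := Metric.eventually_nhds_iff_ball.1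
    (hzero.and (hsum.and (han.and hreg)))
  have hball' : ∀ w : ℂ, ‖w‖ < δ → w ∈ Metric.ball (0 : ℂ) δ := fun w hw => by simpa using hw
  refine ⟨δ, hδ, K, h, fun w hw => (hball w hw).2.2.1.differentiableAt.differentiableWithinAt,
    fun w hw => (hball w (hball' w hw)).2.1, hK, fun w hw0 hw => ?_⟩
  have hw0' : w ≠ 0 := norm_pos_iff.1 hw0
  refine ⟨(hball w (hball' w hw)).2.2.2 hw0', ?_⟩
  have h1 := (hball w (hball' w hw)).1
  rw [evalEval_eq_eval_map, eval_map] at h1
  have h2 := eval₂_scale (evalRingHom w) q (X ^ K) (h w / w ^ K)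
  rw [map_pow] at h2
  have h3 : evalRingHom w X ^ K * (h w / w ^ K) = h w := by
    rw [coe_evalRingHom, eval_X]
    field_simp
  rw [h3, ← hQ, h1] at h2
  rw [coe_evalRingHom, eval_X] at h2
  have h4 : q.eval₂ (evalRingHom w) (h w / w ^ K) = 0 := by
    rcases mul_eq_zero.1 h2.symm with h5 | h5
    · exact absurd h5 (pow_ne_zero _ (pow_ne_zero _ hw0'))
    · exact h5
  rw [← evalEval_thetaN, evalEval_eq_eval_map, eval_map]
  exact h4

end Pool.Agent.MP_ae5b4e_an_ND
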