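import Pool.Agent.Lib.MP_ae5b4e_an_LAT.NDSlope

/-!
# The local problem ND: data at a place (problem `MP_ae5b4e_an`)

At a place `x = e + w ^ N` the function `κ` is a function of `w`; the derivation `d/dx` is
`vN N * d/dw`.
-/

namespace Pool.Agent.MP_ae5b4e_an_ND

open Filter Topology

/-- `d/dx = vN N * d/dw` for `x = e + w ^ N`. -/
noncomputable def vN (N : ℕ) (w : ℂ) : ℂ := 1 / (N * w ^ (N - 1))

/-- The slope `dy/dx` of the level curves, as the sum of its series. -/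
noncomputable def slopeFun (v κ : ℂ → ℂ) (w y : ℂ) : ℂ := ∑' n, slope v κ n w * y ^ n

/-- Every point `0 < ‖w‖ < δ` of the punctured disc is good, in the coordinate `x = e + w ^ N`. -/
structure PlaceOK (e : ℂ) (N : ℕ) (κ : ℂ → ℂ) (δ : ℝ) : Prop where
  N_pos : 0 < N
  δ_pos : 0 < δ
  good : ∀ w₁ : ℂ, w₁ ≠ 0 → ‖w₁‖ < δ → ∃ κ₁ : ℂ → ℂ, Good κ₁ (e + w₁ ^ N) ∧
    ∀ᶠ w in 𝓝 w₁, κ w = κ₁ (e + w ^ N)

/-- `κ = h / w ^ P` with `N ≤ P`, and the coefficients `slope n = b n / w ^ (P n)` with `b n`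
holomorphic on the disc and bounded by `C ^ n`. -/
structure PlaceSeries (N : ℕ) (κ : ℂ → ℂ) (δ : ℝ) (P : ℕ) (h : ℂ → ℂ) (b : ℕ → ℂ → ℂ) (C : ℝ) :
    Prop where
  N_pos : 0 < N
  δ_pos : 0 < δ
  C_pos : 0 < C
  NP : N ≤ P
  h_diff : DifferentiableOn ℂ h (Metric.ball 0 δ)
  h_eq : ∀ w, w ≠ 0 → ‖w‖ < δ → κ w = h w / w ^ P
  b_diff : ∀ n, DifferentiableOn ℂ (b n) (Metric.ball 0 δ)
  b_eq : ∀ n w, w ≠ 0 → ‖w‖ < δ → slope (vN N) κ n w = b n w / w ^ (P * n)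
  b_zero : ∀ w, b 0 w = 0
  b_one : ∀ w, ‖w‖ < δ → b 1 w = - h w
  b_bound : ∀ n w, ‖w‖ < δ → ‖b n w‖ ≤ C ^ n

/-- The sum of the series in `η = y / w ^ P`. -/
noncomputable def bsum (b : ℕ → ℂ → ℂ) (w η : ℂ) : ℂ := ∑' n, b n w * η ^ n

/-- The factor `w' / w` for `x' = x - y'`, `y' = y / (1 - κ y)`, `y = w ^ P η`. -/
noncomputable def thF (N P : ℕ) (h : ℂ → ℂ) (w η : ℂ) : ℂ :=
  (1 - w ^ (P - N) * η / (1 - h w * η)) ^ (1 / (N : ℂ))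

/-- The auxiliary quantity `(q + κ' y²) / (1 - κ y)²`. -/
noncomputable def WF (N P : ℕ) (h : ℂ → ℂ) (b : ℕ → ℂ → ℂ) (w η : ℂ) : ℂ :=
  (bsum b w η + w ^ (P - N) * (w * deriv h w - P * h w) / N * η ^ 2) / (1 - h w * η) ^ 2

/-- The invariance of the leaves under the map, at a place. -/
def FIat (N P : ℕ) (h : ℂ → ℂ) (b : ℕ → ℂ → ℂ) (w η : ℂ) : Prop :=
  bsum b (w * thF N P h w η) (η / ((1 - h w * η) * thF N P h w η ^ P)) * (1 - WF N P h b w η)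
    = WF N P h b w η

end Pool.Agent.MP_ae5b4e_an_ND
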