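import Pool.Agent.Lib.MP_ae5b4e_an_LAT.NDTaylor
import Pool.Agent.Lib.MP_ae5b4e_an_LAT.NDPl

/-!
# From the analytic first integral to the slope coefficients (problem `MP_ae5b4e_an`)
-/

namespace Pool.Agent.MP_ae5b4e_an_ND

open Filter Topology

/-- The local inverse `R (ξ, S (ξ, y)) = y`. -/
theorem exists_R {S : ℂ × ℂ → ℂ} {x₀ : ℂ} (hS : AnalyticAt ℂ S (x₀, 0)) (h0 : S (x₀, 0) = 0)
    (hd : deriv (fun y => S (x₀, y)) 0 ≠ 0) :
    ∃ R : ℂ × ℂ → ℂ, AnalyticAt ℂ R (x₀, 0) ∧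
      ∀ᶠ p in 𝓝 ((x₀, 0) : ℂ × ℂ), R (p.1, S p) = p.2 := by
  set F : (ℂ × ℂ) × ℂ → ℂ := fun z => S (z.1.1, z.2) - z.1.2 with hF
  have hmap : AnalyticAt ℂ (fun z : (ℂ × ℂ) × ℂ => ((z.1.1, z.2) : ℂ × ℂ)) ((x₀, 0), 0) :=
    (analyticAt_fst.comp_of_eq analyticAt_fst rfl).prod analyticAt_snd
  have hsnd : AnalyticAt ℂ (fun z : (ℂ × ℂ) × ℂ => z.1.2) ((x₀, 0), 0) :=
    analyticAt_snd.comp_of_eq analyticAt_fst rfl
  have hFa : AnalyticAt ℂ F ((x₀, 0), 0) := (hS.comp_of_eq hmap rfl).sub hsnd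
  have hcd : ContDiffAt ℂ ⊤ F ((x₀, 0), 0) := hFa.contDiffAt
  have hF0 : F ((x₀, 0), 0) = 0 := by simp [hF, h0]
  have ht : HasDerivAt (fun t => F ((x₀, 0), t)) (deriv (fun y => S (x₀, y)) 0) 0 := by
    have h1 : DifferentiableAt ℂ (fun y => S (x₀, y)) 0 := (slice_analytic hS).differentiableAt
    have h2 := h1.hasDerivAt.sub_const (0 : ℂ)
    exact h2
  have hinr : (fderiv ℂ F ((x₀, 0), 0)) ∘L .inr ℂ (ℂ × ℂ) ℂ
      = ContinuousLinearMap.toSpanSingleton ℂ (deriv (fun y => S (x₀, y)) 0) := by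
    have h1 : HasFDerivAt F (fderiv ℂ F ((x₀, 0), 0)) ((x₀, 0), 0) :=
      hFa.differentiableAt.hasFDerivAt
    have h2 : HasFDerivAt (fun t : ℂ => (((x₀, 0), t) : (ℂ × ℂ) × ℂ)) (.inr ℂ (ℂ × ℂ) ℂ) 0 :=
      hasFDerivAt_prodMk_right (x₀, 0) 0
    have h3 := h1.comp (0 : ℂ) h2
    exact h3.unique ht.hasFDerivAt
  have hinv : ((fderiv ℂ F ((x₀, 0), 0)) ∘L .inr ℂ (ℂ × ℂ) ℂ).IsInvertible := by
    rw [hinr]
    refine ⟨ContinuousLinearEquiv.unitsEquivAut ℂ (Units.mk0 _ hd), ?_⟩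
    ext
    simp
  refine ⟨hcd.implicitFunction (by simp) hinv, ?_, ?_⟩
  · have := hcd.contDiffAt_implicitFunction (by simp) hinv
    exact this.analyticAt
  · have h1 := hcd.eventually_apply_eq_iff_implicitFunction (by simp) hinv
    rw [hF0] at h1
    have hc : Tendsto (fun p : ℂ × ℂ => (((p.1, S p), p.2) : (ℂ × ℂ) × ℂ)) (𝓝 (x₀, 0))
        (𝓝 ((x₀, 0), 0)) := by
      have h2 : ContinuousAt (fun p : ℂ × ℂ => (((p.1, S p), p.2) : (ℂ × ℂ) × ℂ)) (x₀, 0) :=
        (continuousAt_fst.prodMk hS.continuousAt).prodMk continuousAt_snd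
      have h3 := h2.tendsto
      simp only [h0] at h3
      exact h3
    filter_upwards [hc.eventually h1] with p hp
    have : F ((p.1, S p), p.2) = 0 := by simp [hF]
    exact (hp.1 this)

theorem tendsto_TT {κ : ℂ → ℂ} {x₀ : ℂ} (ha : ContinuousAt κ x₀) :
    ContinuousAt (fun p : ℂ × ℂ => 1 - κ p.1 * p.2) (x₀, 0) ∧
      Tendsto (TT κ) (𝓝 ((x₀, 0) : ℂ × ℂ)) (𝓝 (x₀, 0)) := by
  have hdenc : ContinuousAt (fun p : ℂ × ℂ => 1 - κ p.1 * p.2) (x₀, 0) := by
    have h1 : ContinuousAt (fun p : ℂ × ℂ => κ p.1) (x₀, 0) :=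
      ContinuousAt.comp (f := fun p : ℂ × ℂ => p.1) (g := κ) (x := ((x₀, 0) : ℂ × ℂ))
        ha continuousAt_fst
    exact continuousAt_const.sub (h1.mul continuousAt_snd)
  refine ⟨hdenc, ?_⟩
  have h1 : ContinuousAt (TT κ) (x₀, 0) := by
    have h2 : ContinuousAt (fun p : ℂ × ℂ => p.2 / (1 - κ p.1 * p.2)) (x₀, 0) :=
      continuousAt_snd.div hdenc (by simp)
    exact (continuousAt_fst.sub h2).prodMk h2
  have h2 := h1.tendsto
  have h3 : TT κ (x₀, 0) = (x₀, 0) := by simp [TT]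
  rwa [h3] at h2

/-- From `Good` to the data on a ball, together with the invariance of the leaves. -/
theorem exists_brData {κ : ℂ → ℂ} {x₀ : ℂ} (h : Good κ x₀) :
    ∃ S R : ℂ × ℂ → ℂ, ∃ ρ, BrData κ x₀ S R ρ ∧
      ∀ᶠ p in 𝓝 ((x₀, 0) : ℂ × ℂ), qS S (TT κ p) * (1 - (qS S p + deriv κ p.1 * p.2 ^ 2) /
        (1 - κ p.1 * p.2) ^ 2) = (qS S p + deriv κ p.1 * p.2 ^ 2) / (1 - κ p.1 * p.2) ^ 2 := by
  obtain ⟨ha, S, hS, h0, hd, hT⟩ := h
  have h00 : S (x₀, 0) = 0 := h0.self_of_nhds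
  obtain ⟨R, hR, hRS⟩ := exists_R hS h00 hd
  have hfst : Tendsto (fun p : ℂ × ℂ => p.1) (𝓝 ((x₀, 0) : ℂ × ℂ)) (𝓝 x₀) :=
    continuous_fst.tendsto' _ _ rfl
  have hsnd : Tendsto (fun p : ℂ × ℂ => p.2) (𝓝 ((x₀, 0) : ℂ × ℂ)) (𝓝 0) :=
    continuous_snd.tendsto' _ _ rfl
  have e1 := hfst.eventually ha.eventually_analyticAt
  have e2 := hS.eventually_analyticAt
  have e3 := hfst.eventually h0
  have hDy0 : Dy S (x₀, 0) ≠ 0 := by
    rw [Dy_eq_deriv hS.differentiableAt]; exact hd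
  have e4 : ∀ᶠ p in 𝓝 ((x₀, 0) : ℂ × ℂ), Dy S p ≠ 0 :=
    (Dy_analyticAt hS).continuousAt.eventually_ne hDy0
  obtain ⟨hdenc, hTTc⟩ := tendsto_TT ha.continuousAt
  have e5 : ∀ᶠ p in 𝓝 ((x₀, 0) : ℂ × ℂ), 1 - κ p.1 * p.2 ≠ 0 :=
    hdenc.eventually_ne (by simp)
  have hSc : Tendsto (fun p : ℂ × ℂ => ((p.1, S p) : ℂ × ℂ)) (𝓝 (x₀, 0)) (𝓝 (x₀, 0)) := by
    have h2 : ContinuousAt (fun p : ℂ × ℂ => ((p.1, S p) : ℂ × ℂ)) (x₀, 0) :=
      continuousAt_fst.prodMk hS.continuousAt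
    have h3 := h2.tendsto
    simp only [h00] at h3
    exact h3
  have e7 := hSc.eventually hR.eventually_analyticAt
  have e9 := hTTc.eventually hRS
  obtain ⟨ρ, hρ, hU⟩ := Metric.eventually_nhds_iff_ball.1
    (e1.and (e2.and (e3.and (e4.and (e5.and (hT.and (e7.and (hRS.and e9))))))))
  refine ⟨S, R, ρ, ⟨hρ, ?_, ?_, ?_, ?_, ?_, ?_, ?_, ?_⟩, ?_⟩
  · intro x hx
    have hm : ((x, 0) : ℂ × ℂ) ∈ Metric.ball ((x₀, 0) : ℂ × ℂ) ρ := by
      rw [← ball_prod_same]
      exact ⟨by rw [Metric.mem_ball, dist_eq_norm]; exact hx, Metric.mem_ball_self hρ⟩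
    exact (hU _ hm).1
  · exact fun p hp => (hU p hp).2.1
  · intro x hx
    have hm : ((x, 0) : ℂ × ℂ) ∈ Metric.ball ((x₀, 0) : ℂ × ℂ) ρ := by
      rw [← ball_prod_same]
      exact ⟨by rw [Metric.mem_ball, dist_eq_norm]; exact hx, Metric.mem_ball_self hρ⟩
    exact (hU _ hm).2.2.1
  · exact fun p hp => (hU p hp).2.2.2.1
  · exact fun p hp => (hU p hp).2.2.2.2.1
  · exact fun p hp => (hU p hp).2.2.2.2.2.2.1
  · exact fun p hp => (hU p hp).2.2.2.2.2.2.2.1
  · intro p hp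
    have h1 := (hU p hp).2.2.2.2.2.2.2.2
    have h2 := (hU p hp).2.2.2.2.2.1
    rw [h2] at h1
    exact h1
  -- the invariance of the leaves
  have e10 := hTTc.eventually (e2.and e4)
  filter_upwards [e1, e2, e4, e5, hT.eventually_nhds, e10] with p p1 p2 p4 p5 p6 p7
  obtain ⟨x, y⟩ := p
  simp only at p1 p5 ⊢
  -- derivative along the direction `(1, q)`
  set q := qS S (x, y) with hq
  set W := (q + deriv κ x * y ^ 2) / (1 - κ x * y) ^ 2 with hW
  have c1 : HasDerivAt (fun t : ℂ => ((x + t, y + q * t) : ℂ × ℂ)) (1, q) 0 := by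
    have h1 : HasDerivAt (fun t : ℂ => x + t) 1 0 := by
      simpa using (hasDerivAt_id (0 : ℂ)).const_add x
    have h2 : HasDerivAt (fun t : ℂ => y + q * t) q 0 := by
      simpa using ((hasDerivAt_id (0 : ℂ)).const_mul q).const_add y
    exact h1.prodMk h2
  have c1c : Tendsto (fun t : ℂ => ((x + t, y + q * t) : ℂ × ℂ)) (𝓝 0) (𝓝 (x, y)) := by
    have := c1.continuousAt.tendsto
    simpa using this
  have hlin : ∀ (T : ℂ × ℂ → ℂ) (p : ℂ × ℂ) (u w : ℂ),
      fderiv ℂ T p (u, w) = u * Dx T p + w * Dy T p := by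
    intro T p u w
    have : ((u, w) : ℂ × ℂ) = u • (1, 0) + w • (0, 1) := by simp
    rw [this, map_add, map_smul, map_smul]
    rfl
  -- the right hand side
  have d1 : HasDerivAt (fun t : ℂ => S (x + t, y + q * t)) 0 0 := by
    have h1 : HasFDerivAt S (fderiv ℂ S (x, y)) ((fun t : ℂ => ((x + t, y + q * t) : ℂ × ℂ)) 0) := by
      simp only [add_zero, mul_zero]
      exact p2.differentiableAt.hasFDerivAt
    have h2 := h1.comp_hasDerivAt (0 : ℂ) c1
    rw [hlin] at h2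
    refine h2.congr_deriv ?_
    rw [hq]
    unfold qS
    field_simp
    ring
  -- the coordinate `y'`
  have c2 : HasDerivAt (fun t : ℂ => (y + q * t) / (1 - κ (x + t) * (y + q * t))) W 0 := by
    have h1 : HasDerivAt (fun t : ℂ => x + t) 1 0 := by
      simpa using (hasDerivAt_id (0 : ℂ)).const_add x
    have h2 : HasDerivAt (fun t : ℂ => y + q * t) q 0 := by
      simpa using ((hasDerivAt_id (0 : ℂ)).const_mul q).const_add y
    have h3 : HasDerivAt (fun t : ℂ => κ (x + t)) (deriv κ x) 0 := by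
      have h4 : HasDerivAt κ (deriv κ x) (x + 0) := by
        rw [add_zero]; exact p1.differentiableAt.hasDerivAt
      have h6 := h4.comp (0 : ℂ) h1
      rw [mul_one] at h6
      exact h6
    have h5 := h2.div ((h3.mul h2).const_sub 1) (by simpa using p5)
    refine h5.congr_deriv ?_
    simp only [add_zero, mul_zero, Pi.mul_apply]
    rw [hW]
    congr 1
    ring
  have c3 : HasDerivAt (fun t : ℂ => TT κ (x + t, y + q * t)) (1 - W, W) 0 := by
    have h1 : HasDerivAt (fun t : ℂ => x + t) 1 0 := by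
      simpa using (hasDerivAt_id (0 : ℂ)).const_add x
    exact (h1.sub c2).prodMk c2
  have d2 : HasDerivAt (fun t : ℂ => S (TT κ (x + t, y + q * t)))
      ((1 - W) * Dx S (TT κ (x, y)) + W * Dy S (TT κ (x, y))) 0 := by
    have h1 : HasFDerivAt S (fderiv ℂ S (TT κ (x, y)))
        ((fun t : ℂ => TT κ (x + t, y + q * t)) 0) := by
      simp only [add_zero, mul_zero]
      exact p7.1.differentiableAt.hasFDerivAt
    have h2 := h1.comp_hasDerivAt (0 : ℂ) c3
    rw [hlin] at h2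
    exact h2
  have d3 : (fun t : ℂ => S (TT κ (x + t, y + q * t))) =ᶠ[𝓝 0] fun t => S (x + t, y + q * t) :=
    c1c.eventually p6
  have d4 := (d2.congr_of_eventuallyEq d3.symm).unique d1
  have d5 : Dy S (TT κ (x, y)) ≠ 0 := p7.2
  have d6 : qS S (TT κ (x, y)) = -Dx S (TT κ (x, y)) / Dy S (TT κ (x, y)) := rfl
  rw [d6]
  field_simp
  linear_combination (-1 : ℂ) * d4

/-- **BRIDGE.** The Taylor coefficients of the slope of the level curves of the first integral are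
the universal differential polynomials `slope`; bounds and the invariance of the leaves. -/
theorem good_slope {κ : ℂ → ℂ} {x₀ : ℂ} (h : Good κ x₀) :
    ∃ r > 0, ∃ C > 0, C * r < 1 ∧ DifferentiableOn ℂ κ (Metric.ball x₀ r) ∧
      (∀ n, DifferentiableOn ℂ (slope (fun _ => 1) κ n) (Metric.ball x₀ r)) ∧
      (∀ n, ∀ x, ‖x - x₀‖ < r → ‖slope (fun _ => 1) κ n x‖ ≤ C ^ n) ∧
      ∃ ρ > 0, ∀ x y, ‖x - x₀‖ < ρ → ‖y‖ < ρ →
        (1 - κ x * y ≠ 0 ∧ ‖x - y / (1 - κ x * y) - x₀‖ < r ∧ ‖y / (1 - κ x * y)‖ < r) ∧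
        slopeFun (fun _ => 1) κ (x - y / (1 - κ x * y)) (y / (1 - κ x * y)) *
          (1 - (slopeFun (fun _ => 1) κ x y + deriv κ x * y ^ 2) / (1 - κ x * y) ^ 2)
        = (slopeFun (fun _ => 1) κ x y + deriv κ x * y ^ 2) / (1 - κ x * y) ^ 2 := by
  have hκc : ContinuousAt κ x₀ := h.1.continuousAt
  obtain ⟨S, R, ρ, hB, hFI⟩ := exists_brData h
  have hρ := hB.ρ_pos
  have hball : IsOpen (Metric.ball ((x₀, 0) : ℂ × ℂ) ρ) := Metric.isOpen_ball
  have hqa := hB.qS_analytic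
  -- a bound for the slope
  obtain ⟨M, hM1, hM⟩ : ∃ M : ℝ, 1 ≤ M ∧
      ∀ p ∈ Metric.closedBall ((x₀, 0) : ℂ × ℂ) (ρ / 2), ‖qS S p‖ ≤ M := by
    have hc : ContinuousOn (qS S) (Metric.closedBall ((x₀, 0) : ℂ × ℂ) (ρ / 2)) := fun p hp =>
      (hqa p (Metric.closedBall_subset_ball (by linarith) hp)).continuousAt.continuousWithinAt
    obtain ⟨M, hM⟩ := (isCompact_closedBall _ _).exists_bound_of_continuousOn hc
    exact ⟨max M 1, le_max_right _ _, fun p hp => (hM p hp).trans (le_max_left _ _)⟩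
  have hslice : ∀ x : ℂ, ‖x - x₀‖ < ρ → DifferentiableOn ℂ (fun y => qS S (x, y))
      (Metric.ball 0 ρ) := by
    intro x hx y hy
    have : AnalyticAt ℂ (qS S) (x, y) := hqa _ (by
      rw [← ball_prod_same]
      exact ⟨by rw [Metric.mem_ball, dist_eq_norm]; exact hx, hy⟩)
    exact (slice_analytic this).differentiableAt.differentiableWithinAt
  set C : ℝ := 2 * M / ρ with hC
  have hCpos : 0 < C := by positivity
  have hco : ∀ n, ∀ x : ℂ, ‖x - x₀‖ < ρ / 2 → ‖co (qS S) n x‖ ≤ C ^ n := by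
    intro n x hx
    rcases Nat.eq_zero_or_pos n with rfl | hn
    · have : co (qS S) 0 x = 0 := by
        unfold co
        rw [cf_zero]
        exact hB.qS_zero (by linarith)
      rw [this]
      simp
    have hcl : DiffContOnCl ℂ (fun y => qS S (x, y)) (Metric.ball 0 (ρ / 2)) := by
      apply DifferentiableOn.diffContOnCl
      rw [closure_ball (0 : ℂ) (by positivity)]
      exact (hslice x (by linarith)).mono (Metric.closedBall_subset_ball (by linarith))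
    have h1 := Complex.norm_iteratedDeriv_le_of_forall_mem_sphere_norm_le n
      (show 0 < ρ / 2 by positivity) hcl (C := M) (by
        intro y hy
        apply hM
        rw [← closedBall_prod_same]
        exact ⟨by rw [Metric.mem_closedBall, dist_eq_norm]; exact hx.le,
          Metric.sphere_subset_closedBall hy⟩)
    have hf : (0 : ℝ) < n.factorial := by exact_mod_cast n.factorial_pos
    unfold co cf
    rw [norm_div, Complex.norm_natCast, div_le_iff₀ hf]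
    refine h1.trans ?_
    have h2 : M ≤ M ^ n := le_self_pow₀ hM1 (by omega)
    have h3 : M / (ρ / 2) ^ n ≤ C ^ n := by
      have : C ^ n = M ^ n / (ρ / 2) ^ n := by
        rw [← div_pow, hC]
        congr 1
        field_simp
      rw [this]
      gcongr
    calc (n.factorial : ℝ) * M / (ρ / 2) ^ n = n.factorial * (M / (ρ / 2) ^ n) := by ring
      _ ≤ n.factorial * C ^ n := by gcongr
      _ = C ^ n * n.factorial := by ring
  -- the radius
  obtain ⟨r, hr, hrρ, hCr⟩ : ∃ r > 0, r ≤ ρ / 2 ∧ C * r < 1 := by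
    refine ⟨min (ρ / 2) (1 / (2 * C)), by positivity, min_le_left _ _, ?_⟩
    calc C * min (ρ / 2) (1 / (2 * C)) ≤ C * (1 / (2 * C)) := by
          gcongr
          exact min_le_right _ _
      _ = 1 / 2 := by field_simp
      _ < 1 := by norm_num
  have hsum : ∀ x y : ℂ, ‖x - x₀‖ < r → ‖y‖ < r → slopeFun (fun _ => 1) κ x y = qS S (x, y) := by
    intro x y hx hy
    have hz : y ∈ Metric.ball (0 : ℂ) ρ := by
      rw [Metric.mem_ball, dist_eq_norm, sub_zero]
      linarith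
    have h1 := Complex.taylorSeries_eq_on_ball' hz (hslice x (by linarith))
    rw [← h1]
    unfold slopeFun
    apply tsum_congr
    intro n
    rw [← hB.co_eq_slope n (by linarith), sub_zero]
    unfold co cf
    ring
  refine ⟨r, hr, C, hCpos, hCr, ?_, ?_, ?_, ?_⟩
  · intro x hx
    rw [Metric.mem_ball, dist_eq_norm] at hx
    exact (hB.hκ x (by linarith)).differentiableAt.differentiableWithinAt
  · intro n
    have h1 : DifferentiableOn ℂ (co (qS S) n) (Metric.ball x₀ r) := by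
      refine (co_differentiableOn hball hqa n).mono ?_
      intro x hx
      rw [Metric.mem_ball, dist_eq_norm] at hx
      exact hB.mem (by linarith)
    refine h1.congr ?_
    intro x hx
    rw [Metric.mem_ball, dist_eq_norm] at hx
    exact (hB.co_eq_slope n (by linarith)).symm
  · intro n x hx
    rw [← hB.co_eq_slope n (by linarith)]
    exact hco n x (by linarith)
  · obtain ⟨hdenc, hTTc⟩ := tendsto_TT hκc
    have e5 : ∀ᶠ p in 𝓝 ((x₀, 0) : ℂ × ℂ), 1 - κ p.1 * p.2 ≠ 0 := hdenc.eventually_ne (by simp)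
    have e6 := hTTc.eventually (Metric.ball_mem_nhds ((x₀, 0) : ℂ × ℂ) hr)
    have e7 := Metric.ball_mem_nhds ((x₀, 0) : ℂ × ℂ) hr
    obtain ⟨ρ', hρ', hU⟩ := Metric.eventually_nhds_iff_ball.1 (hFI.and (e5.and (e6.and e7)))
    refine ⟨ρ', hρ', ?_⟩
    intro x y hx hy
    have hm : ((x, y) : ℂ × ℂ) ∈ Metric.ball ((x₀, 0) : ℂ × ℂ) ρ' := by
      rw [← ball_prod_same]
      exact ⟨by rw [Metric.mem_ball, dist_eq_norm]; exact hx,
        by rw [Metric.mem_ball, dist_eq_norm, sub_zero]; exact hy⟩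
    obtain ⟨u1, u2, u3, u4⟩ := hU _ hm
    have u3' : TT κ (x, y) ∈ Metric.ball ((x₀, 0) : ℂ × ℂ) r := u3
    rw [TT_apply, ← ball_prod_same] at u3'
    have u4' : ((x, y) : ℂ × ℂ) ∈ Metric.ball ((x₀, 0) : ℂ × ℂ) r := u4
    rw [← ball_prod_same] at u4'
    have v1 : ‖x - y / (1 - κ x * y) - x₀‖ < r := by
      have := u3'.1
      rwa [Metric.mem_ball, dist_eq_norm] at this
    have v2 : ‖y / (1 - κ x * y)‖ < r := by
      have := u3'.2
      rwa [Metric.mem_ball, dist_eq_norm, sub_zero] at this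
    have v3 : ‖x - x₀‖ < r := by
      have := u4'.1
      rwa [Metric.mem_ball, dist_eq_norm] at this
    have v4 : ‖y‖ < r := by
      have := u4'.2
      rwa [Metric.mem_ball, dist_eq_norm, sub_zero] at this
    refine ⟨⟨u2, v1, v2⟩, ?_⟩
    rw [hsum _ _ v1 v2, hsum _ _ v3 v4]
    exact u1

end Pool.Agent.MP_ae5b4e_an_ND
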