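import Pool.Agent.Lib.MP_ae5b4e_an_LAT.NDPl

/-!
# The local problem ND: change of coordinate at a place (problem `MP_ae5b4e_an`)

The slope coefficients computed in the coordinate `w` with the derivation `vN N * d/dw` are the
slope coefficients in the coordinate `x = e + w ^ N`.
-/

namespace Pool.Agent.MP_ae5b4e_an_ND

open Filter Topology

namespace NDCoord

/-- differentiability on a ball is a filtration -/
theorem filt_diff (c : ℂ) (r : ℝ) :
    Filt (fun _ => 1) (fun _ f => DifferentiableOn ℂ f (Metric.ball c r)) where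
  zero := fun _ => differentiableOn_const _
  one := differentiableOn_const _
  add := fun _ _ _ hf hg => hf.add hg
  smul := fun _ c _ hf => hf.const_mul c
  mul := fun _ _ _ _ hf hg => hf.mul hg
  der := fun _ f hf => by
    have : (fun x => 1 * deriv f x) = deriv f := by funext x; ring
    rw [this]
    exact hf.deriv Metric.isOpen_ball

theorem cc_diff {κ₁ : ℂ → ℂ} {c : ℂ} {r : ℝ} (ha : DifferentiableOn ℂ κ₁ (Metric.ball c r))
    (m i : ℕ) : DifferentiableOn ℂ (cc (fun _ => 1) (slope (fun _ => 1) κ₁) m i)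
      (Metric.ball c r) := by
  have h := (filt_diff c r).cc_mem' (slope (fun _ => 1) κ₁) m i
    (fun b _ _ => slope_mem (filt_diff c r) ha b)
  rcases Nat.eq_zero_or_pos i with h0 | h0
  · subst h0
    exact h.1 rfl
  · obtain ⟨j, rfl⟩ : ∃ j, i = j + 1 := ⟨i - 1, by omega⟩
    exact h.2 j rfl

end NDCoord

/-- COORD: the slope coefficients in the coordinate of a place. -/
theorem slope_coord {N : ℕ} (hN : 0 < N) (e : ℂ) {κ κ₁ : ℂ → ℂ} {w₁ : ℂ} (hw : w₁ ≠ 0)
    {r : ℝ} (hr : 0 < r) (ha : DifferentiableOn ℂ κ₁ (Metric.ball (e + w₁ ^ N) r))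
    (heq : ∀ᶠ w in 𝓝 w₁, κ w = κ₁ (e + w ^ N)) :
    ∃ ρ > 0, ∀ w, ‖w - w₁‖ < ρ → w ≠ 0 ∧ ‖e + w ^ N - (e + w₁ ^ N)‖ < r ∧
      (∀ n, slope (vN N) κ n w = slope (fun _ => 1) κ₁ n (e + w ^ N)) ∧
      deriv κ w = N * w ^ (N - 1) * deriv κ₁ (e + w ^ N) := by
  have h1 : ∀ᶠ w in 𝓝 w₁, w ≠ 0 := isOpen_ne.mem_nhds hw
  have h2 : ∀ᶠ w in 𝓝 w₁, ‖e + w ^ N - (e + w₁ ^ N)‖ < r := by
    have hc : Continuous (fun w : ℂ => ‖e + w ^ N - (e + w₁ ^ N)‖) := by fun_prop
    have : (fun w : ℂ => ‖e + w ^ N - (e + w₁ ^ N)‖) w₁ < r := by simpa using hr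
    exact hc.continuousAt.eventually_lt continuousAt_const this
  obtain ⟨ρ, hρ, hall⟩ := Metric.eventually_nhds_iff.mp (h1.and (h2.and heq))
  have hU : ∀ w, ‖w - w₁‖ < ρ → w ≠ 0 ∧ ‖e + w ^ N - (e + w₁ ^ N)‖ < r ∧
      κ w = κ₁ (e + w ^ N) := by
    intro w hw
    exact hall (by rwa [dist_eq_norm])
  have hnb : ∀ w, ‖w - w₁‖ < ρ → ∀ᶠ z in 𝓝 w, ‖z - w₁‖ < ρ := by
    intro w hw
    have hc : Continuous (fun z : ℂ => ‖z - w₁‖) := by fun_prop
    exact hc.continuousAt.eventually_lt continuousAt_const hw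
  have hφ : ∀ w, HasDerivAt (fun w : ℂ => e + w ^ N) (N * w ^ (N - 1)) w := by
    intro w
    simpa using (hasDerivAt_pow N w).const_add e
  -- derivative of a function that agrees with a composition
  have hder : ∀ (F G : ℂ → ℂ), DifferentiableOn ℂ G (Metric.ball (e + w₁ ^ N) r) →
      (∀ w, ‖w - w₁‖ < ρ → F w = G (e + w ^ N)) → ∀ w, ‖w - w₁‖ < ρ →
      deriv F w = deriv G (e + w ^ N) * (N * w ^ (N - 1)) := by
    intro F G hG hFG w hw
    have hev : F =ᶠ[𝓝 w] fun z => G (e + z ^ N) := by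
      filter_upwards [hnb w hw] with z hz
      exact hFG z hz
    rw [hev.deriv_eq]
    have hGd : DifferentiableAt ℂ G (e + w ^ N) := by
      apply hG.differentiableAt
      apply Metric.isOpen_ball.mem_nhds
      rw [Metric.mem_ball, dist_eq_norm]
      exact (hU w hw).2.1
    exact (hGd.hasDerivAt.comp w (hφ w)).deriv
  have hv : ∀ w, w ≠ 0 → vN N w * (N * w ^ (N - 1)) = 1 := by
    intro w hw0
    unfold vN
    have hNc : (N : ℂ) ≠ 0 := by exact_mod_cast hN.ne'
    have : (N : ℂ) * w ^ (N - 1) ≠ 0 := mul_ne_zero hNc (pow_ne_zero _ hw0)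
    field_simp
  have hcc : ∀ (n : ℕ), (∀ b, b ≤ n → 1 ≤ b → ∀ w, ‖w - w₁‖ < ρ →
      slope (vN N) κ b w = slope (fun _ => 1) κ₁ b (e + w ^ N)) →
      ∀ m i, i ≤ n → ∀ w, ‖w - w₁‖ < ρ → cc (vN N) (slope (vN N) κ) m i w =
        cc (fun _ => 1) (slope (fun _ => 1) κ₁) m i (e + w ^ N) := by
    intro n hq m
    induction m with
    | zero => intro i _ w _; rfl
    | succ m ih =>
      intro i hi w hw
      rw [cc_succ, cc_succ]
      show vN N w * deriv (cc (vN N) (slope (vN N) κ) m i) w + _ = 1 * deriv _ (e + w ^ N) + _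
      rw [hder _ _ (NDCoord.cc_diff ha m i) (fun z hz => ih i hi z hz) w hw]
      congr 1
      · have := hv w (hU w hw).1
        calc vN N w * (deriv (cc (fun _ => 1) (slope (fun _ => 1) κ₁) m i) (e + w ^ N) *
              (N * w ^ (N - 1)))
            = (vN N w * (N * w ^ (N - 1))) *
              deriv (cc (fun _ => 1) (slope (fun _ => 1) κ₁) m i) (e + w ^ N) := by ring
          _ = _ := by rw [this]
      · apply Finset.sum_congr rfl
        intro a ha'
        rw [Finset.mem_range] at ha'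
        rw [ih (a + 1) (by omega) w hw, hq (i - a) (by omega) (by omega) w hw]
  have hsl : ∀ n, ∀ w, ‖w - w₁‖ < ρ →
      slope (vN N) κ n w = slope (fun _ => 1) κ₁ n (e + w ^ N) := by
    intro n
    induction n using Nat.strong_induction_on with
    | _ n ih =>
      intro w hw
      rcases Nat.eq_zero_or_pos n with rfl | hn
      · rfl
      · rw [slope_rec _ _ n hn, slope_rec _ _ n hn]
        unfold slopeRec
        rw [(hU w hw).2.2]
        congr 1
        · congr 1
          apply Finset.sum_congr rfl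
          intro j hj
          rw [Finset.mem_Ico] at hj
          rw [ih (n - j) (by omega) w hw]
        · apply Finset.sum_congr rfl
          intro m hm
          rw [Finset.mem_Icc] at hm
          congr 1
          apply Finset.sum_congr rfl
          intro j hj
          rw [Finset.mem_range] at hj
          rw [hcc (n - 1) (fun b hb _ => ih b (by omega)) m (n + 1 - m - j) (by omega) w hw]
  refine ⟨ρ, hρ, fun w hw => ⟨(hU w hw).1, (hU w hw).2.1, fun n => hsl n w hw, ?_⟩⟩
  rw [hder κ κ₁ ha (fun z hz => (hU z hz).2.2) w hw]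
  ring

end Pool.Agent.MP_ae5b4e_an_ND
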