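import Pool.Agent.Lib.MP_ae5b4e_an_LAT.NDBound0
import Pool.Agent.Lib.MP_ae5b4e_an_LAT.NDBridge
import Pool.Agent.Lib.MP_ae5b4e_an_LAT.NDCoord

/-!
# The local problem ND: uniform bounds at a place (problem `MP_ae5b4e_an`)
-/

namespace Pool.Agent.MP_ae5b4e_an_ND

open Filter Topology

/-- Uniform bounds at a place (maximum principle). -/
theorem place_series {e : ℂ} {N P : ℕ} {κ h : ℂ → ℂ} {δ : ℝ} (hp : PlaceOK e N κ δ) (hNP : N ≤ P)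
    (hh : DifferentiableOn ℂ h (Metric.ball 0 δ))
    (hκ : ∀ w, w ≠ 0 → ‖w‖ < δ → κ w = h w / w ^ P)
    {b : ℕ → ℂ → ℂ} (hb0 : ∀ w, b 0 w = 0) (hb1 : ∀ w, ‖w‖ < δ → b 1 w = - h w)
    (hbd : ∀ n, DifferentiableOn ℂ (b n) (Metric.ball 0 δ))
    (hbe : ∀ n w, w ≠ 0 → ‖w‖ < δ → slope (vN N) κ n w = b n w / w ^ (P * n)) :
    ∃ δ' > 0, δ' < δ ∧ ∃ C, PlaceSeries N κ δ' P h b C := by
  refine place_series_of hp hNP hh hκ hb0 hb1 hbd hbe ?_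
  intro w₁ hw₁ hwn
  obtain ⟨κ₁, hgood, heq⟩ := hp.good w₁ hw₁ hwn
  obtain ⟨r, hr, C, _, _, hd, _, hbnd, _⟩ := good_slope hgood
  obtain ⟨ρ, hρ, hco⟩ := slope_coord hp.N_pos e hw₁ hr hd heq
  refine ⟨ρ, hρ, C, ?_⟩
  intro n w hw
  obtain ⟨_, h2, h3, _⟩ := hco w hw
  rw [h3 n]
  exact hbnd n _ h2

end Pool.Agent.MP_ae5b4e_an_ND
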