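import Pool.Agent.Lib.MP_ae5b4e_an_LAT.NDPl

/-!
# The local problem ND: invariance of the leaves on the polydisc (problem `MP_ae5b4e_an`)
-/

namespace Pool.Agent.MP_ae5b4e_an_ND

open Filter Topology

/-- The `N`-th power of the factor `θ`. -/
theorem thF_pow {N : ℕ} (hN : 0 < N) (P : ℕ) (h : ℂ → ℂ) (w η : ℂ) :
    thF N P h w η ^ N = 1 - w ^ (P - N) * η / (1 - h w * η) := by
  unfold thF
  rw [one_div]
  exact Complex.cpow_nat_inv_pow _ hN.ne'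

theorem thF_zero (N P : ℕ) (h : ℂ → ℂ) (w : ℂ) : thF N P h w 0 = 1 := by
  unfold thF
  simp

/-- Estimates on the polydisc. -/
theorem thF_bounds {N P : ℕ} {h : ℂ → ℂ} {C ρ : ℝ} (hN : 0 < N) (hC : 0 < C)
    (h8 : ρ ≤ 1 / 8) (hρC : ρ * (8 * C * 2 ^ P) ≤ 1) {w η : ℂ}
    (hw : ‖w‖ < ρ) (hη : ‖η‖ < ρ) (hh : ‖h w‖ ≤ C) :
    1 / 2 ≤ ‖1 - h w * η‖ ∧ (1 - w ^ (P - N) * η / (1 - h w * η)) ∈ Complex.slitPlane ∧
      1 / 2 ≤ ‖thF N P h w η‖ ∧ ‖thF N P h w η‖ ≤ 2 ∧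
      ‖η / ((1 - h w * η) * thF N P h w η ^ P)‖ ≤ 1 / (2 * C) := by
  have hρ0 : 0 < ρ := (norm_nonneg w).trans_lt hw
  have h2P : (1:ℝ) ≤ 2 ^ P := one_le_pow₀ (by norm_num)
  have hρC1 : ρ * (8 * C) ≤ 1 := by
    have : ρ * (8 * C) * 1 ≤ ρ * (8 * C) * 2 ^ P :=
      mul_le_mul_of_nonneg_left h2P (by positivity)
    nlinarith
  have e1 : ‖h w * η‖ ≤ 1 / 8 := by
    rw [norm_mul]
    have : ‖h w‖ * ‖η‖ ≤ C * ρ := mul_le_mul hh hη.le (norm_nonneg _) hC.le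
    nlinarith
  have e2 : 1 / 2 ≤ ‖1 - h w * η‖ := by
    have := norm_sub_norm_le (1:ℂ) (h w * η)
    rw [norm_one] at this
    linarith
  have e2' : 0 < ‖1 - h w * η‖ := by linarith
  have e3 : ‖w ^ (P - N) * η / (1 - h w * η)‖ ≤ 1 / 4 := by
    rw [norm_div, norm_mul, norm_pow, div_le_iff₀ e2']
    have h1 : ‖w‖ ^ (P - N) ≤ 1 := pow_le_one₀ (norm_nonneg _) (by linarith)
    have h2 : ‖w‖ ^ (P - N) * ‖η‖ ≤ 1 * (1 / 8) :=
      mul_le_mul h1 (by linarith) (norm_nonneg _) (by norm_num)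
    linarith
  have e4 : (1 - w ^ (P - N) * η / (1 - h w * η)) ∈ Complex.slitPlane := by
    left
    have := (Complex.abs_re_le_norm (w ^ (P - N) * η / (1 - h w * η))).trans e3
    rw [Complex.sub_re, Complex.one_re]
    have := (abs_le.mp this).2
    linarith
  have hz1 : 3 / 4 ≤ ‖1 - w ^ (P - N) * η / (1 - h w * η)‖ := by
    have := norm_sub_norm_le (1:ℂ) (w ^ (P - N) * η / (1 - h w * η))
    rw [norm_one] at this
    linarith
  have hz2 : ‖1 - w ^ (P - N) * η / (1 - h w * η)‖ ≤ 5 / 4 := by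
    have := norm_sub_le (1:ℂ) (w ^ (P - N) * η / (1 - h w * η))
    rw [norm_one] at this
    linarith
  have hpow : ‖thF N P h w η‖ ^ N = ‖1 - w ^ (P - N) * η / (1 - h w * η)‖ := by
    rw [← norm_pow, thF_pow hN]
  have e5 : 1 / 2 ≤ ‖thF N P h w η‖ := by
    by_contra hlt
    rw [not_le] at hlt
    have h1 : ‖thF N P h w η‖ ^ N ≤ ‖thF N P h w η‖ :=
      pow_le_of_le_one (norm_nonneg _) (by linarith) hN.ne'
    linarith
  have e6 : ‖thF N P h w η‖ ≤ 2 := by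
    by_contra hlt
    rw [not_le] at hlt
    have h1 : ‖thF N P h w η‖ ≤ ‖thF N P h w η‖ ^ N := le_self_pow₀ (by linarith) hN.ne'
    linarith
  refine ⟨e2, e4, e5, e6, ?_⟩
  rw [norm_div, norm_mul, norm_pow]
  have h3 : (1 / 2 : ℝ) ^ P ≤ ‖thF N P h w η‖ ^ P := pow_le_pow_left₀ (by norm_num) e5 P
  have h4 : (0:ℝ) < (1 / 2) ^ P := by positivity
  have h5 : 1 / 2 * (1 / 2 : ℝ) ^ P ≤ ‖1 - h w * η‖ * ‖thF N P h w η‖ ^ P :=
    mul_le_mul e2 h3 h4.le (norm_nonneg _)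
  have h6 : 0 < ‖1 - h w * η‖ * ‖thF N P h w η‖ ^ P := lt_of_lt_of_le (by positivity) h5
  rw [div_le_iff₀ h6]
  have h7 : ρ ≤ 1 / (2 * C) * (1 / 2 * (1 / 2 : ℝ) ^ P) := by
    have h8 : ((1:ℝ) / 2) ^ P = 1 / 2 ^ P := by rw [div_pow, one_pow]
    rw [h8]
    have h9 : 1 / (2 * C) * (1 / 2 * (1 / 2 ^ P)) = 2 / (8 * C * 2 ^ P) := by
      field_simp; norm_num
    rw [h9, le_div_iff₀ (by positivity)]
    linarith
  calc ‖η‖ ≤ ρ := hη.le
    _ ≤ _ := h7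
    _ ≤ _ := mul_le_mul_of_nonneg_left h5 (by positivity)

/-- Local form of the invariance: `η` close to `0`, at a fixed `w₁ ≠ 0`. -/
theorem FI_local {e : ℂ} {N P : ℕ} {κ h : ℂ → ℂ} {δ C : ℝ} {b : ℕ → ℂ → ℂ}
    (hs : PlaceSeries N κ δ P h b C) {w₁ : ℂ} (hw₁ : w₁ ≠ 0) (hwδ : ‖w₁‖ < δ) {κ₁ : ℂ → ℂ}
    (hk : κ w₁ = κ₁ (e + w₁ ^ N))
    (hdk : deriv κ w₁ = N * w₁ ^ (N - 1) * deriv κ₁ (e + w₁ ^ N))
    (hsl : ∀ᶠ w in 𝓝 w₁, ∀ n, slope (vN N) κ n w = slope (fun _ => 1) κ₁ n (e + w ^ N))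
    (hgs : ∀ᶠ y in 𝓝 (0:ℂ), 1 - κ₁ (e + w₁ ^ N) * y ≠ 0 ∧
      slopeFun (fun _ => 1) κ₁ (e + w₁ ^ N - y / (1 - κ₁ (e + w₁ ^ N) * y))
          (y / (1 - κ₁ (e + w₁ ^ N) * y)) *
          (1 - (slopeFun (fun _ => 1) κ₁ (e + w₁ ^ N) y + deriv κ₁ (e + w₁ ^ N) * y ^ 2) /
            (1 - κ₁ (e + w₁ ^ N) * y) ^ 2)
        = (slopeFun (fun _ => 1) κ₁ (e + w₁ ^ N) y + deriv κ₁ (e + w₁ ^ N) * y ^ 2) /
            (1 - κ₁ (e + w₁ ^ N) * y) ^ 2) :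
    ∀ᶠ η in 𝓝 (0:ℂ), FIat N P h b w₁ η := by
  have hN := hs.N_pos
  have hNP := hs.NP
  -- `θ → 1` as `η → 0`
  have hθ : ContinuousAt (fun η => thF N P h w₁ η) 0 := by
    unfold thF
    have h1 : ContinuousAt (fun η : ℂ => 1 - w₁ ^ (P - N) * η / (1 - h w₁ * η)) 0 := by
      apply ContinuousAt.sub continuousAt_const
      apply ContinuousAt.div (by fun_prop) (by fun_prop)
      simp
    apply ContinuousAt.cpow h1 continuousAt_const
    left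
    simp
  have hθ0 : Tendsto (fun η => w₁ * thF N P h w₁ η) (𝓝 0) (𝓝 w₁) := by
    have h1 : ContinuousAt (fun η => w₁ * thF N P h w₁ η) 0 := continuousAt_const.mul hθ
    have h2 : w₁ * thF N P h w₁ 0 = w₁ := by rw [thF_zero, mul_one]
    have h3 := h1.tendsto
    simp only [h2] at h3
    exact h3
  have hsl' := hθ0.eventually hsl
  have hne : ∀ᶠ η in 𝓝 (0:ℂ), w₁ * thF N P h w₁ η ≠ 0 :=
    hθ0.eventually (isOpen_ne.mem_nhds hw₁)
  have hlt : ∀ᶠ η in 𝓝 (0:ℂ), ‖w₁ * thF N P h w₁ η‖ < δ :=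
    hθ0.eventually ((isOpen_lt continuous_norm continuous_const).mem_nhds hwδ)
  have hy0 : Tendsto (fun η : ℂ => w₁ ^ P * η) (𝓝 0) (𝓝 0) := by
    have : Continuous (fun η : ℂ => w₁ ^ P * η) := by fun_prop
    exact this.tendsto' _ _ (by simp)
  have hgs' := hy0.eventually hgs
  have hsl1 : ∀ n, slope (vN N) κ n w₁ = slope (fun _ => 1) κ₁ n (e + w₁ ^ N) :=
    hsl.self_of_nhds
  have hwP : w₁ ^ P ≠ 0 := pow_ne_zero _ hw₁
  have hwN : w₁ ^ N ≠ 0 := pow_ne_zero _ hw₁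
  have hkh : κ₁ (e + w₁ ^ N) * w₁ ^ P = h w₁ := by
    rw [← hk, hs.h_eq w₁ hw₁ hwδ]
    field_simp
  -- the derivative of `κ`
  have hder : deriv κ w₁ = (w₁ * deriv h w₁ - P * h w₁) / w₁ ^ (P + 1) := by
    have h1 : κ =ᶠ[𝓝 w₁] fun w => h w / w ^ P := by
      have h2 : ∀ᶠ w in 𝓝 w₁, w ≠ 0 := isOpen_ne.mem_nhds hw₁
      have h3 : ∀ᶠ w in 𝓝 w₁, ‖w‖ < δ :=
        (isOpen_lt continuous_norm continuous_const).mem_nhds hwδ
      filter_upwards [h2, h3] with w h2 h3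
      exact hs.h_eq w h2 h3
    rw [h1.deriv_eq]
    have hhd : DifferentiableAt ℂ h w₁ :=
      hs.h_diff.differentiableAt (Metric.isOpen_ball.mem_nhds (by simpa using hwδ))
    have h4 := hhd.hasDerivAt.div (hasDerivAt_pow P w₁) hwP
    have h5 : deriv (fun w => h w / w ^ P) w₁ =
        (deriv h w₁ * w₁ ^ P - h w₁ * (P * w₁ ^ (P - 1))) / (w₁ ^ P) ^ 2 := h4.deriv
    rw [h5]
    rcases Nat.eq_zero_or_pos P with hP0 | hP0
    · omega
    · obtain ⟨Q, rfl⟩ : ∃ Q, P = Q + 1 := ⟨P - 1, by omega⟩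
      have : Q + 1 - 1 = Q := by omega
      rw [this]
      field_simp
      ring
  have hk1 : deriv κ₁ (e + w₁ ^ N) * (w₁ ^ P) ^ 2 =
      w₁ ^ (P - N) * (w₁ * deriv h w₁ - P * h w₁) / N := by
    have hNC : (N : ℂ) ≠ 0 := by exact_mod_cast hN.ne'
    have h6 : deriv κ₁ (e + w₁ ^ N) = deriv κ w₁ / (N * w₁ ^ (N - 1)) := by
      rw [hdk]
      have : w₁ ^ (N - 1) ≠ 0 := pow_ne_zero _ hw₁
      field_simp
    rw [h6, hder]
    obtain ⟨M, rfl⟩ : ∃ M, N = M + 1 := ⟨N - 1, by omega⟩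
    obtain ⟨Q, rfl⟩ : ∃ Q, P = M + 1 + Q := ⟨P - (M + 1), by omega⟩
    have h7 : M + 1 - 1 = M := by omega
    have h8 : M + 1 + Q - (M + 1) = Q := by omega
    rw [h7, h8]
    have : w₁ ^ M ≠ 0 := pow_ne_zero _ hw₁
    have : w₁ ^ (M + 1 + Q + 1) ≠ 0 := pow_ne_zero _ hw₁
    field_simp
    ring
  filter_upwards [hsl', hne, hlt, hgs'] with η h1 h2 h3 h4
  obtain ⟨h4a, h4b⟩ := h4
  have e1 : κ₁ (e + w₁ ^ N) * (w₁ ^ P * η) = h w₁ * η := by rw [← mul_assoc, hkh]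
  rw [e1] at h4a h4b
  set θ := thF N P h w₁ η with hθdef
  have hθ0' : θ ≠ 0 := fun h0 => h2 (by rw [h0, mul_zero])
  have hθN : θ ^ N = 1 - w₁ ^ (P - N) * η / (1 - h w₁ * η) := thF_pow hN P h w₁ η
  have hx' : e + w₁ ^ N - w₁ ^ P * η / (1 - h w₁ * η) = e + (w₁ * θ) ^ N := by
    rw [mul_pow, hθN]
    have : w₁ ^ P = w₁ ^ N * w₁ ^ (P - N) := by rw [← pow_add]; congr 1; omega
    rw [this]
    ring
  have hq' : slopeFun (fun _ => 1) κ₁ (e + w₁ ^ N - w₁ ^ P * η / (1 - h w₁ * η))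
      (w₁ ^ P * η / (1 - h w₁ * η)) =
      bsum b (w₁ * θ) (η / ((1 - h w₁ * η) * θ ^ P)) := by
    rw [hx']
    unfold slopeFun bsum
    apply tsum_congr
    intro n
    rw [← h1 n, hs.b_eq n _ h2 h3]
    have hθP : θ ^ P ≠ 0 := pow_ne_zero _ hθ0'
    rw [div_mul_eq_mul_div, mul_div_assoc]
    congr 1
    rw [pow_mul, ← div_pow]
    congr 1
    rw [mul_pow]
    field_simp
  have hq : slopeFun (fun _ => 1) κ₁ (e + w₁ ^ N) (w₁ ^ P * η) = bsum b w₁ η := by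
    unfold slopeFun bsum
    apply tsum_congr
    intro n
    rw [← hsl1 n, hs.b_eq n _ hw₁ hwδ, div_mul_eq_mul_div, mul_div_assoc]
    congr 1
    rw [pow_mul, ← div_pow]
    congr 1
    field_simp
  have hW : (slopeFun (fun _ => 1) κ₁ (e + w₁ ^ N) (w₁ ^ P * η) +
      deriv κ₁ (e + w₁ ^ N) * (w₁ ^ P * η) ^ 2) / (1 - h w₁ * η) ^ 2 = WF N P h b w₁ η := by
    unfold WF
    rw [hq, mul_pow, ← mul_assoc, hk1]
  rw [hq', hW] at h4b
  exact h4b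

/-- The sum `bsum` composed with holomorphic functions. -/
theorem bsum_comp_diff {N P : ℕ} {κ h : ℂ → ℂ} {δ C : ℝ} {b : ℕ → ℂ → ℂ}
    (hs : PlaceSeries N κ δ P h b C) {s : Set ℂ} (hso : IsOpen s) {F G : ℂ → ℂ}
    (hF : DifferentiableOn ℂ F s) (hG : DifferentiableOn ℂ G s) (hFδ : ∀ t ∈ s, ‖F t‖ < δ)
    (hGC : ∀ t ∈ s, ‖G t‖ ≤ 1 / (2 * C)) :
    DifferentiableOn ℂ (fun t => bsum b (F t) (G t)) s := by
  unfold bsum
  refine Complex.differentiableOn_tsum_of_summable_norm (u := fun n : ℕ => (1 / 2 : ℝ) ^ n)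
    summable_geometric_two (fun n => ?_) hso (fun n t ht => ?_)
  · have h1 : DifferentiableOn ℂ (fun t => b n (F t)) s :=
      (hs.b_diff n).comp hF (fun t ht => by simpa using hFδ t ht)
    exact h1.mul (hG.pow n)
  · rw [norm_mul, norm_pow]
    have hC := hs.C_pos
    have h1 := hs.b_bound n (F t) (hFδ t ht)
    have h2 : ‖G t‖ ^ n ≤ (1 / (2 * C)) ^ n := pow_le_pow_left₀ (norm_nonneg _) (hGC t ht) n
    calc ‖b n (F t)‖ * ‖G t‖ ^ n ≤ C ^ n * (1 / (2 * C)) ^ n :=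
          mul_le_mul h1 h2 (by positivity) (by positivity)
      _ = (1 / 2 : ℝ) ^ n := by
          rw [← mul_pow]; congr 1; field_simp

/-- Differentiability of the difference of the two sides of the invariance. -/
theorem FI_diff {N P : ℕ} {κ h : ℂ → ℂ} {δ C ρ : ℝ} {b : ℕ → ℂ → ℂ}
    (hs : PlaceSeries N κ δ P h b C) (h8 : ρ ≤ 1 / 8) (hδ : 4 * ρ ≤ δ)
    (hρC : ρ * (8 * C * 2 ^ P) ≤ 1) {s : Set ℂ} (hso : IsOpen s) {Wt Et : ℂ → ℂ}
    (hW : DifferentiableOn ℂ Wt s) (hE : DifferentiableOn ℂ Et s)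
    (hWρ : ∀ t ∈ s, ‖Wt t‖ < ρ) (hEρ : ∀ t ∈ s, ‖Et t‖ < ρ) :
    DifferentiableOn ℂ (fun t =>
      bsum b (Wt t * thF N P h (Wt t) (Et t))
        (Et t / ((1 - h (Wt t) * Et t) * thF N P h (Wt t) (Et t) ^ P)) *
          (1 - WF N P h b (Wt t) (Et t)) - WF N P h b (Wt t) (Et t)) s := by
  have hC := hs.C_pos
  have hN := hs.N_pos
  have hρδ : ∀ t ∈ s, ‖Wt t‖ < δ := fun t ht => by
    have := hWρ t ht
    have h0 := norm_nonneg (Wt t)
    linarith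
  have hhC : ∀ t ∈ s, ‖h (Wt t)‖ ≤ C := fun t ht => by
    have h1 := hs.b_bound 1 (Wt t) (hρδ t ht)
    rw [hs.b_one _ (hρδ t ht), norm_neg, pow_one] at h1
    exact h1
  have hbd := fun t ht => thF_bounds hN hC h8 hρC (hWρ t ht) (hEρ t ht) (hhC t ht) (P := P)
  have hhW : DifferentiableOn ℂ (fun t => h (Wt t)) s :=
    hs.h_diff.comp hW (fun t ht => by simpa using hρδ t ht)
  have hh'W : DifferentiableOn ℂ (fun t => deriv h (Wt t)) s :=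
    (hs.h_diff.deriv Metric.isOpen_ball).comp hW (fun t ht => by simpa using hρδ t ht)
  have hden : DifferentiableOn ℂ (fun t => 1 - h (Wt t) * Et t) s :=
    (differentiableOn_const _).sub (hhW.mul hE)
  have hden0 : ∀ t ∈ s, 1 - h (Wt t) * Et t ≠ 0 := fun t ht h0 => by
    have := (hbd t ht).1
    rw [h0, norm_zero] at this
    norm_num at this
  have hbase : DifferentiableOn ℂ
      (fun t => 1 - Wt t ^ (P - N) * Et t / (1 - h (Wt t) * Et t)) s :=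
    (differentiableOn_const _).sub (((hW.pow _).mul hE).div hden hden0)
  have hth : DifferentiableOn ℂ (fun t => thF N P h (Wt t) (Et t)) s := by
    unfold thF
    exact hbase.cpow (differentiableOn_const _) (fun t ht => (hbd t ht).2.1)
  have hth0 : ∀ t ∈ s, thF N P h (Wt t) (Et t) ≠ 0 := fun t ht h0 => by
    have := (hbd t ht).2.2.1
    rw [h0, norm_zero] at this
    norm_num at this
  have hWF : DifferentiableOn ℂ (fun t => WF N P h b (Wt t) (Et t)) s := by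
    unfold WF
    apply DifferentiableOn.div
    · apply DifferentiableOn.add
      · refine bsum_comp_diff hs hso hW hE hρδ (fun t ht => ?_)
        have h1 := hEρ t ht
        rw [le_div_iff₀ (by positivity)]
        have h2P : (1:ℝ) ≤ 2 ^ P := one_le_pow₀ (by norm_num)
        have h3 : ρ * (8 * C) * 1 ≤ ρ * (8 * C) * 2 ^ P := by
          have hρ0 : 0 < ρ := (norm_nonneg _).trans_lt h1
          exact mul_le_mul_of_nonneg_left h2P (by positivity)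
        have h4 : ‖Et t‖ * (2 * C) ≤ ρ * (2 * C) :=
          mul_le_mul_of_nonneg_right h1.le (by positivity)
        nlinarith
      · exact ((((hW.pow _).mul ((hW.mul hh'W).sub ((differentiableOn_const _).mul hhW))).div_const
          _).mul (hE.pow 2))
    · exact hden.pow 2
    · exact fun t ht => pow_ne_zero _ (hden0 t ht)
  apply DifferentiableOn.sub
  · apply DifferentiableOn.mul
    · refine bsum_comp_diff hs hso (hW.mul hth)
        (hE.div (hden.mul (hth.pow P)) fun t ht =>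
          mul_ne_zero (hden0 t ht) (pow_ne_zero _ (hth0 t ht))) (fun t ht => ?_) (fun t ht => ?_)
      · show ‖Wt t * thF N P h (Wt t) (Et t)‖ < δ
        rw [norm_mul]
        have h1 := hWρ t ht
        have h2 := (hbd t ht).2.2.2.1
        have h0 := norm_nonneg (Wt t)
        have h3 : ‖Wt t‖ * ‖thF N P h (Wt t) (Et t)‖ ≤ ‖Wt t‖ * 2 :=
          mul_le_mul_of_nonneg_left h2 h0
        linarith
      · exact (hbd t ht).2.2.2.2
    · exact (differentiableOn_const _).sub hWF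
  · exact hWF

/-- From the local statement to the polydisc. -/
theorem FI_polydisc {N P : ℕ} {κ h : ℂ → ℂ} {δ C : ℝ} {b : ℕ → ℂ → ℂ}
    (hs : PlaceSeries N κ δ P h b C)
    (hloc : ∀ w, w ≠ 0 → ‖w‖ < δ → ∀ᶠ η in 𝓝 (0:ℂ), FIat N P h b w η) :
    ∃ ρ > 0, ∀ w η, ‖w‖ < ρ → ‖η‖ < ρ → FIat N P h b w η := by
  have hC := hs.C_pos
  have hδ := hs.δ_pos
  obtain ⟨ρ, hρ0, h8, h4, hρC⟩ : ∃ ρ : ℝ, 0 < ρ ∧ ρ ≤ 1 / 8 ∧ 4 * ρ ≤ δ ∧
      ρ * (8 * C * 2 ^ P) ≤ 1 := by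
    refine ⟨min (min (1 / 8) (δ / 4)) (1 / (8 * C * 2 ^ P)), by positivity,
      (min_le_left _ _).trans (min_le_left _ _), ?_, ?_⟩
    · have := (min_le_left (min (1 / 8) (δ / 4)) (1 / (8 * C * 2 ^ P))).trans
        (min_le_right (1 / 8) (δ / 4))
      linarith
    · have := min_le_right (min (1 / 8) (δ / 4)) (1 / (8 * C * 2 ^ P))
      rwa [le_div_iff₀ (by positivity)] at this
  have hne : ∀ w η, w ≠ 0 → ‖w‖ < ρ → ‖η‖ < ρ → FIat N P h b w η := by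
    intro w η hw hwρ hηρ
    have hwδ : ‖w‖ < δ := by
      have := norm_nonneg w
      linarith
    have hd := FI_diff hs h8 h4 hρC (Metric.isOpen_ball (x := (0:ℂ)) (ε := ρ)) (Wt := fun _ => w)
      (Et := fun t => t) (differentiableOn_const _) differentiableOn_id (fun _ _ => hwρ)
      (fun t ht => by simpa using ht)
    have ha := hd.analyticOnNhd Metric.isOpen_ball
    have h0 : (0:ℂ) ∈ Metric.ball (0:ℂ) ρ := Metric.mem_ball_self hρ0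
    have hev : (fun t => bsum b (w * thF N P h w t)
        (t / ((1 - h w * t) * thF N P h w t ^ P)) * (1 - WF N P h b w t) - WF N P h b w t)
        =ᶠ[𝓝 0] 0 := by
      filter_upwards [hloc w hw hwδ] with t ht
      unfold FIat at ht
      show _ - _ = (0:ℂ)
      rw [ht, sub_self]
    have hz := ha.eqOn_zero_of_preconnected_of_eventuallyEq_zero
      (convex_ball (0:ℂ) ρ).isPreconnected h0 hev
    have := hz (show η ∈ Metric.ball (0:ℂ) ρ by simpa using hηρ)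
    unfold FIat
    exact sub_eq_zero.mp this
  refine ⟨ρ, hρ0, fun w η hwρ hηρ => ?_⟩
  rcases ne_or_eq w 0 with hw | hw
  · exact hne w η hw hwρ hηρ
  · subst hw
    have hd := FI_diff hs h8 h4 hρC (Metric.isOpen_ball (x := (0:ℂ)) (ε := ρ)) (Wt := fun t => t)
      (Et := fun _ => η) differentiableOn_id (differentiableOn_const _)
      (fun t ht => by simpa using ht) (fun _ _ => hηρ)
    have hc := (hd.differentiableAt (Metric.ball_mem_nhds (0:ℂ) hρ0)).continuousAt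
    have h1 : Tendsto (fun t => bsum b (t * thF N P h t η)
        (η / ((1 - h t * η) * thF N P h t η ^ P)) * (1 - WF N P h b t η) - WF N P h b t η)
        (𝓝[≠] 0) (𝓝 _) := hc.tendsto.mono_left nhdsWithin_le_nhds
    have h2 : Tendsto (fun t => bsum b (t * thF N P h t η)
        (η / ((1 - h t * η) * thF N P h t η ^ P)) * (1 - WF N P h b t η) - WF N P h b t η)
        (𝓝[≠] 0) (𝓝 0) := by
      apply Tendsto.congr' _ tendsto_const_nhds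
      have h3 : ∀ᶠ t in 𝓝[≠] (0:ℂ), t ≠ 0 := self_mem_nhdsWithin
      have h4 : ∀ᶠ t in 𝓝[≠] (0:ℂ), t ∈ Metric.ball (0:ℂ) ρ :=
        mem_nhdsWithin_of_mem_nhds (Metric.ball_mem_nhds (0:ℂ) hρ0)
      filter_upwards [h3, h4] with t h3 h4
      have := hne t η h3 (by simpa using h4) hηρ
      unfold FIat at this
      rw [this, sub_self]
    have h3 := tendsto_nhds_unique h1 h2
    unfold FIat
    exact sub_eq_zero.mp h3

/-- Invariance of the leaves on the polydisc, from the two statements `good_slope` and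
`slope_coord` (taken as hypotheses here). -/
theorem place_FI_of
    (hgs : ∀ (κ₁ : ℂ → ℂ) (x₀ : ℂ), Good κ₁ x₀ →
      ∃ r > 0, ∃ C > 0, C * r < 1 ∧ DifferentiableOn ℂ κ₁ (Metric.ball x₀ r) ∧
      (∀ n, DifferentiableOn ℂ (slope (fun _ => 1) κ₁ n) (Metric.ball x₀ r)) ∧
      (∀ n, ∀ x, ‖x - x₀‖ < r → ‖slope (fun _ => 1) κ₁ n x‖ ≤ C ^ n) ∧
      ∃ ρ > 0, ∀ x y, ‖x - x₀‖ < ρ → ‖y‖ < ρ →
        (1 - κ₁ x * y ≠ 0 ∧ ‖x - y / (1 - κ₁ x * y) - x₀‖ < r ∧ ‖y / (1 - κ₁ x * y)‖ < r) ∧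
        slopeFun (fun _ => 1) κ₁ (x - y / (1 - κ₁ x * y)) (y / (1 - κ₁ x * y)) *
          (1 - (slopeFun (fun _ => 1) κ₁ x y + deriv κ₁ x * y ^ 2) / (1 - κ₁ x * y) ^ 2)
        = (slopeFun (fun _ => 1) κ₁ x y + deriv κ₁ x * y ^ 2) / (1 - κ₁ x * y) ^ 2)
    (hsc : ∀ {N : ℕ}, 0 < N → ∀ (e : ℂ) {κ κ₁ : ℂ → ℂ} {w₁ : ℂ}, w₁ ≠ 0 → ∀ {r : ℝ}, 0 < r →
      DifferentiableOn ℂ κ₁ (Metric.ball (e + w₁ ^ N) r) →
      (∀ᶠ w in 𝓝 w₁, κ w = κ₁ (e + w ^ N)) →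
      ∃ ρ > 0, ∀ w, ‖w - w₁‖ < ρ → w ≠ 0 ∧ ‖e + w ^ N - (e + w₁ ^ N)‖ < r ∧
        (∀ n, slope (vN N) κ n w = slope (fun _ => 1) κ₁ n (e + w ^ N)) ∧
        deriv κ w = N * w ^ (N - 1) * deriv κ₁ (e + w ^ N))
    {e : ℂ} {N P : ℕ} {κ h : ℂ → ℂ} {δ C : ℝ} {b : ℕ → ℂ → ℂ}
    (hp : PlaceOK e N κ δ) (hs : PlaceSeries N κ δ P h b C) :
    ∃ ρ > 0, ∀ w η, ‖w‖ < ρ → ‖η‖ < ρ → FIat N P h b w η := by
  refine FI_polydisc hs (fun w₁ hw₁ hwδ => ?_)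
  obtain ⟨κ₁, hgood, heq⟩ := hp.good w₁ hw₁ hwδ
  obtain ⟨r, hr, _, _, _, hd, _, _, ρ₁, hρ₁, hid⟩ := hgs κ₁ (e + w₁ ^ N) hgood
  obtain ⟨ρ₂, hρ₂, hco⟩ := hsc hp.N_pos e hw₁ hr hd heq
  refine FI_local (e := e) hs hw₁ hwδ (κ₁ := κ₁) heq.self_of_nhds
    ((hco w₁ (by simpa using hρ₂)).2.2.2) ?_ ?_
  · filter_upwards [Metric.ball_mem_nhds w₁ hρ₂] with w hw
    exact (hco w (by rwa [mem_ball_iff_norm] at hw)).2.2.1
  · filter_upwards [Metric.ball_mem_nhds (0:ℂ) hρ₁] with y hy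
    have := hid (e + w₁ ^ N) y (by simpa using hρ₁) (by simpa using hy)
    exact ⟨this.1.1, this.2⟩

end Pool.Agent.MP_ae5b4e_an_ND
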