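import Pool.Agent.Lib.MP_ae5b4e_an_LAT.NDRes

/-!
# No irregular place (problem `MP_ae5b4e_an`)
-/

namespace Pool.Agent.MP_ae5b4e_an_ND

open Filter Topology

/-- The invariance at `w = 0`, `P > N`. -/
theorem FI_zero_irr {N P : ℕ} (hNP : N < P) {h : ℂ → ℂ} {b : ℕ → ℂ → ℂ} {η : ℂ}
    (hFI : FIat N P h b 0 η) :
    bsum b 0 (η / (1 - h 0 * η)) * (1 - bsum b 0 η / (1 - h 0 * η) ^ 2)
      = bsum b 0 η / (1 - h 0 * η) ^ 2 := by
  have hz : (0 : ℂ) ^ (P - N) = 0 := zero_pow (by omega)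
  have h1 : thF N P h 0 η = 1 := by
    unfold thF
    rw [hz]
    simp
  have h3 : WF N P h b 0 η = bsum b 0 η / (1 - h 0 * η) ^ 2 := by
    unfold WF
    rw [hz]
    simp
  unfold FIat at hFI
  rw [h1, h3, zero_mul, one_pow, mul_one] at hFI
  exact hFI

/-- IRR: no place with `κ ~ A w^(-P)`, `P > N` -/
theorem place_irr {N P : ℕ} {κ h : ℂ → ℂ} {δ C ρ : ℝ} {b : ℕ → ℂ → ℂ}
    (hs : PlaceSeries N κ δ P h b C) (hNP : N < P) (hρ : 0 < ρ)
    (hFI : ∀ w η, ‖w‖ < ρ → ‖η‖ < ρ → FIat N P h b w η) (hc : h 0 ≠ 0) :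
    ∃ R > 0, ∃ H : ℂ → ℂ, DifferentiableOn ℂ H {Y | R < ‖Y‖} ∧
      Tendsto H (cocompact ℂ) (𝓝 0) ∧
      ∀ Y, R + 2 < ‖Y‖ → H (Y - 1) - H Y = 1 / (Y - 1) ^ 2 := by
  have hC := hs.C_pos
  have hδ := hs.δ_pos
  set k := h 0 with hkdef
  have hkn : 0 < ‖k‖ := norm_pos_iff.2 hc
  set R : ℝ := 2 * C / ‖k‖ + 1 / (ρ * ‖k‖) + 4 * C ^ 2 / ‖k‖ ^ 2 + 1 with hR
  have hRpos : 0 < R := by positivity
  have hR1 : 2 * C / ‖k‖ ≤ R := by
    have : 0 ≤ 1 / (ρ * ‖k‖) + 4 * C ^ 2 / ‖k‖ ^ 2 + 1 := by positivity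
    linarith
  have hR2 : 1 / (ρ * ‖k‖) ≤ R := by
    have : 0 ≤ 2 * C / ‖k‖ + 4 * C ^ 2 / ‖k‖ ^ 2 + 1 := by positivity
    linarith
  have hR3 : 4 * C ^ 2 / ‖k‖ ^ 2 ≤ R := by
    have : 0 ≤ 2 * C / ‖k‖ + 1 / (ρ * ‖k‖) + 1 := by positivity
    linarith
  have hR4 : 1 ≤ R := by
    have : 0 ≤ 2 * C / ‖k‖ + 1 / (ρ * ‖k‖) + 4 * C ^ 2 / ‖k‖ ^ 2 := by positivity
    linarith
  set G : ℂ → ℂ := fun v => v ^ 2 * bsum b 0 (1 / (k * v)) with hG
  have hv0 : ∀ v : ℂ, R < ‖v‖ → v ≠ 0 := by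
    intro v hv h0
    rw [h0, norm_zero] at hv
    linarith
  have hvC : ∀ v : ℂ, R < ‖v‖ → ‖1 / (k * v)‖ ≤ 1 / (2 * C) := by
    intro v hv
    rw [norm_div, norm_one, norm_mul]
    apply one_div_le_one_div_of_le (by positivity)
    have h1 : 2 * C / ‖k‖ ≤ ‖v‖ := by linarith
    rw [div_le_iff₀ hkn] at h1
    linarith
  have hGb : ∀ v : ℂ, R < ‖v‖ → ‖G v + v‖ ≤ 2 * C ^ 2 / ‖k‖ ^ 2 := by
    intro v hv
    have hv' := hv0 v hv
    have h1 := bsum_zero_bound hs (hvC v hv)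
    have e : G v + v = v ^ 2 * (bsum b 0 (1 / (k * v)) + h 0 * (1 / (k * v))) := by
      simp only [hG, ← hkdef]
      field_simp
    rw [e, norm_mul, norm_pow]
    have hvn : 0 < ‖v‖ := norm_pos_iff.2 hv'
    calc ‖v‖ ^ 2 * ‖bsum b 0 (1 / (k * v)) + h 0 * (1 / (k * v))‖
        ≤ ‖v‖ ^ 2 * (2 * C ^ 2 * ‖1 / (k * v)‖ ^ 2) := by gcongr
      _ = 2 * C ^ 2 / ‖k‖ ^ 2 := by
          rw [norm_div, norm_one, norm_mul]
          field_simp
  have hGlow : ∀ v : ℂ, R < ‖v‖ → ‖v‖ / 2 ≤ ‖G v‖ := by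
    intro v hv
    have h1 := hGb v hv
    have h2 : ‖v‖ - ‖G v‖ ≤ ‖G v + v‖ := by
      have := norm_sub_norm_le v (-G v)
      rw [norm_neg, sub_neg_eq_add, add_comm v] at this
      exact this
    have h3 : 4 * C ^ 2 / ‖k‖ ^ 2 ≤ ‖v‖ := by linarith
    have h4 : 2 * C ^ 2 / ‖k‖ ^ 2 = 4 * C ^ 2 / ‖k‖ ^ 2 / 2 := by ring
    linarith
  have hG0 : ∀ v : ℂ, R < ‖v‖ → G v ≠ 0 := by
    intro v hv h0
    have h1 := hGlow v hv
    rw [h0, norm_zero] at h1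
    linarith
  have hopen : IsOpen {Y : ℂ | R < ‖Y‖} := isOpen_lt (by fun_prop) (by fun_prop)
  have hGd : DifferentiableOn ℂ G {Y : ℂ | R < ‖Y‖} := by
    have hF : DifferentiableOn ℂ (fun v : ℂ => 1 / (k * v)) {Y : ℂ | R < ‖Y‖} := by
      intro v hv
      exact ((differentiableAt_const _).div (differentiableAt_id.const_mul k)
        (mul_ne_zero hc (hv0 v hv))).differentiableWithinAt
    have h1 : DifferentiableOn ℂ (fun v : ℂ => bsum b 0 (1 / (k * v))) {Y : ℂ | R < ‖Y‖} :=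
      bsum_comp_diff hs hopen (F := fun _ => 0) (differentiableOn_const _) hF
        (fun t _ => by rw [norm_zero]; exact hδ) (fun t ht => hvC t ht)
    exact (differentiableOn_id.pow 2).mul h1
  refine ⟨R, hRpos, fun v => -(1 / G v), ?_, ?_, ?_⟩
  · exact ((differentiableOn_const _).div hGd (fun v hv => hG0 v hv)).neg
  · rw [tendsto_zero_iff_norm_tendsto_zero]
    have hinf : Tendsto (fun Y : ℂ => ‖Y‖) (cocompact ℂ) atTop := tendsto_norm_cocompact_atTop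
    have h1 : Tendsto (fun Y : ℂ => 2 * ‖Y‖⁻¹) (cocompact ℂ) (𝓝 (2 * 0)) :=
      (tendsto_inv_atTop_zero.comp hinf).const_mul _
    rw [mul_zero] at h1
    refine squeeze_zero' (Eventually.of_forall fun _ => norm_nonneg _) ?_ h1
    filter_upwards [hinf.eventually_gt_atTop R] with v hv
    have h2 := hGlow v hv
    have h3 : 0 < ‖v‖ := by linarith
    rw [norm_neg, norm_div, norm_one, one_div]
    calc ‖G v‖⁻¹ ≤ (‖v‖ / 2)⁻¹ := by
          apply inv_anti₀ (by positivity) h2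
      _ = 2 * ‖v‖⁻¹ := by field_simp
  · intro v hv
    show -(1 / G (v - 1)) - -(1 / G v) = 1 / (v - 1) ^ 2
    have hv1 : R < ‖v‖ := by linarith
    have hvne := hv0 v hv1
    have hvp : R + 1 < ‖v - 1‖ := by
      have := norm_sub_norm_le v 1
      rw [norm_one] at this
      linarith
    have hvp1 : R < ‖v - 1‖ := by linarith
    have hvp0 := hv0 _ hvp1
    have hη : ‖1 / (k * v)‖ < ρ := by
      rw [norm_div, norm_one, norm_mul, div_lt_iff₀ (by positivity)]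
      have h1 : 1 / (ρ * ‖k‖) < ‖v‖ := by linarith
      rw [div_lt_iff₀ (by positivity)] at h1
      linarith
    have h1 := FI_zero_irr hNP (hFI 0 (1 / (k * v)) (by rw [norm_zero]; exact hρ) hη)
    rw [← hkdef] at h1
    have e0 : 1 - k * (1 / (k * v)) = (v - 1) / v := by field_simp
    have e1 : (1 / (k * v)) / ((v - 1) / v) = 1 / (k * (v - 1)) := by field_simp
    rw [e0, e1] at h1
    have q1 : bsum b 0 (1 / (k * v)) = G v / v ^ 2 := by
      simp only [hG]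
      field_simp
    have q2 : bsum b 0 (1 / (k * (v - 1))) = G (v - 1) / (v - 1) ^ 2 := by
      simp only [hG]
      field_simp
    rw [q1, q2] at h1
    have m1 := hG0 _ hv1
    have m2 := hG0 _ hvp1
    generalize G (v - 1) = G' at h1 m2 ⊢
    generalize G v = G₀ at h1 m1 ⊢
    have key : G' * ((v - 1) ^ 2 - G₀) = G₀ * (v - 1) ^ 2 := by
      field_simp at h1
      linear_combination h1
    field_simp
    linear_combination key

end Pool.Agent.MP_ae5b4e_an_ND
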