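import Pool.Agent.Lib.MP_ae5b4e_an_LAT.NDPl

/-!
# The local problem ND: weights at a place (problem `MP_ae5b4e_an`)
-/

namespace Pool.Agent.MP_ae5b4e_an_ND

open Filter Topology

namespace MemP

/-- the om-part of the weight condition -/
def Rot (N P : ℕ) (h : ℂ → ℂ) (δ : ℝ) (φ : ℂ → ℂ) : Prop :=
  ∀ (om : ℂ) (l : ℕ), om ^ N = 1 → om ^ P = 1 →
    (∃ g, DifferentiableOn ℂ g (Metric.ball 0 δ) ∧
      ∀ w, ‖w‖ < δ → h (om * w) - h w = w ^ l * g w) →
    ∃ g, DifferentiableOn ℂ g (Metric.ball 0 δ) ∧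
      ∀ w, ‖w‖ < δ → φ (om * w) - φ w = w ^ l * g w

/-- the weight classes at a place -/
def W (N P : ℕ) (h : ℂ → ℂ) (δ : ℝ) (n : ℕ) (f : ℂ → ℂ) : Prop :=
  ∃ φ : ℂ → ℂ, DifferentiableOn ℂ φ (Metric.ball 0 δ) ∧
    (∀ w, w ≠ 0 → ‖w‖ < δ → f w = φ w / w ^ (P * n)) ∧ Rot N P h δ φ

theorem norm_om {N : ℕ} (hN : 0 < N) {om : ℂ} (hom : om ^ N = 1) : ‖om‖ = 1 := by
  have h1 : ‖om‖ ^ N = 1 := by rw [← norm_pow, hom, norm_one]
  exact (pow_eq_one_iff_of_nonneg (norm_nonneg _) hN.ne').mp h1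

theorem norm_mul_lt {N : ℕ} (hN : 0 < N) {om : ℂ} (hom : om ^ N = 1) {δ : ℝ} {w : ℂ}
    (hw : ‖w‖ < δ) : ‖om * w‖ < δ := by
  rw [norm_mul, norm_om hN hom, one_mul]; exact hw

theorem diff_rot {N : ℕ} (hN : 0 < N) {om : ℂ} (hom : om ^ N = 1) {δ : ℝ} {φ : ℂ → ℂ}
    (hφ : DifferentiableOn ℂ φ (Metric.ball 0 δ)) :
    DifferentiableOn ℂ (fun w => φ (om * w)) (Metric.ball 0 δ) := by
  apply hφ.comp (f := fun w => om * w) ((differentiable_id.const_mul om).differentiableOn)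
  intro w hw
  rw [Metric.mem_ball, dist_zero_right] at hw ⊢
  exact norm_mul_lt hN hom hw

theorem diffAt {δ : ℝ} {φ : ℂ → ℂ} (hφ : DifferentiableOn ℂ φ (Metric.ball 0 δ)) {w : ℂ}
    (hw : ‖w‖ < δ) : DifferentiableAt ℂ φ w :=
  hφ.differentiableAt (Metric.isOpen_ball.mem_nhds (by rwa [Metric.mem_ball, dist_zero_right]))

theorem diff_deriv {δ : ℝ} {φ : ℂ → ℂ} (hφ : DifferentiableOn ℂ φ (Metric.ball 0 δ)) :
    DifferentiableOn ℂ (deriv φ) (Metric.ball 0 δ) :=
  hφ.deriv Metric.isOpen_ball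

theorem rot_der {N P : ℕ} (hN : 0 < N) (hNP : N ≤ P) {h : ℂ → ℂ} {δ : ℝ} (n : ℕ) {φ : ℂ → ℂ}
    (hφ : DifferentiableOn ℂ φ (Metric.ball 0 δ)) (hr : Rot N P h δ φ) :
    Rot N P h δ (fun w => w ^ (P - N) * (w * deriv φ w - (P * n : ℕ) * φ w) / N) := by
  intro om l hom homP hg0
  obtain ⟨g, hg, hg1⟩ := hr om l hom homP hg0
  have hPN : om ^ (P - N) = 1 := by
    have h1 : om ^ N * om ^ (P - N) = 1 := by rw [← pow_add, Nat.add_sub_cancel' hNP, homP]
    rwa [hom, one_mul] at h1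
  refine ⟨fun w => w ^ (P - N) * ((l : ℂ) * g w + w * deriv g w - (P * n : ℕ) * g w) / N, ?_, ?_⟩
  · apply DifferentiableOn.div_const
    apply DifferentiableOn.mul (differentiable_pow _).differentiableOn
    apply DifferentiableOn.sub
    · exact (hg.const_mul _).add (differentiableOn_id.mul (diff_deriv hg))
    · exact hg.const_mul _
  · intro w hw
    have hw' := norm_mul_lt hN hom hw
    -- differentiate the relation
    have e1 : deriv (fun u => φ (om * u) - φ u) w = deriv (fun u => u ^ l * g u) w := by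
      apply Filter.EventuallyEq.deriv_eq
      have hm : Metric.ball (0 : ℂ) δ ∈ 𝓝 w :=
        Metric.isOpen_ball.mem_nhds (by rwa [Metric.mem_ball, dist_zero_right])
      filter_upwards [hm] with u hu
      exact hg1 u (by rwa [Metric.mem_ball, dist_zero_right] at hu)
    have d1 : HasDerivAt (fun u => φ (om * u)) (deriv φ (om * w) * om) w := by
      have h1 : HasDerivAt (fun u : ℂ => om * u) om w := by
        simpa using (hasDerivAt_id w).const_mul om
      exact (diffAt hφ hw').hasDerivAt.comp w h1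
    have d2 : HasDerivAt φ (deriv φ w) w := (diffAt hφ hw).hasDerivAt
    have d3 : HasDerivAt (fun u : ℂ => u ^ l * g u)
        ((l : ℂ) * w ^ (l - 1) * g w + w ^ l * deriv g w) w :=
      (hasDerivAt_pow l w).mul (diffAt hg hw).hasDerivAt
    have d12 : HasDerivAt (fun u => φ (om * u) - φ u) (deriv φ (om * w) * om - deriv φ w) w :=
      d1.sub d2
    rw [d12.deriv, d3.deriv] at e1
    have e2 : w * (deriv φ (om * w) * om - deriv φ w) = w ^ l * ((l : ℂ) * g w + w * deriv g w) := by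
      rw [e1]
      rcases Nat.eq_zero_or_pos l with rfl | hl
      · simp
      · obtain ⟨k, rfl⟩ : ∃ k, l = k + 1 := ⟨l - 1, by omega⟩
        rw [Nat.add_sub_cancel]; ring
    have e3 := hg1 w hw
    have e4 : (om * w) ^ (P - N) = w ^ (P - N) := by rw [mul_pow, hPN, one_mul]
    simp only [e4]
    have e5 : φ (om * w) = φ w + w ^ l * g w := by rw [← e3]; ring
    have e6 : om * w * deriv φ (om * w) = w * deriv φ w + w ^ l * ((l : ℂ) * g w + w * deriv g w) := by
      rw [← e2]; ring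
    rw [e6, e5]
    ring

theorem filt {N P : ℕ} (hN : 0 < N) (hNP : N ≤ P) (h : ℂ → ℂ) (δ : ℝ) :
    Filt (vN N) (W N P h δ) where
  zero n := by
    refine ⟨fun _ => 0, differentiableOn_const 0, fun w _ _ => by simp, ?_⟩
    intro om l _ _ _
    exact ⟨fun _ => 0, differentiableOn_const 0, fun w _ => by simp⟩
  one := by
    refine ⟨fun _ => 1, differentiableOn_const 1, fun w _ _ => by simp, ?_⟩
    intro om l _ _ _
    exact ⟨fun _ => 0, differentiableOn_const 0, fun w _ => by simp⟩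
  add n f g hf hg := by
    obtain ⟨φ, a1, a2, a3⟩ := hf
    obtain ⟨ψ, b1, b2, b3⟩ := hg
    refine ⟨fun w => φ w + ψ w, a1.add b1, fun w w0 w1 => ?_, ?_⟩
    · show f w + g w = (φ w + ψ w) / w ^ (P * n)
      rw [a2 w w0 w1, b2 w w0 w1, add_div]
    · intro om l hom homP hg0
      obtain ⟨g1, c1, c2⟩ := a3 om l hom homP hg0
      obtain ⟨g2, d1, d2⟩ := b3 om l hom homP hg0
      refine ⟨fun w => g1 w + g2 w, c1.add d1, fun w hw => ?_⟩
      have := c2 w hw
      have := d2 w hw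
      linear_combination c2 w hw + d2 w hw
  smul n c f hf := by
    obtain ⟨φ, a1, a2, a3⟩ := hf
    refine ⟨fun w => c * φ w, a1.const_mul c, fun w w0 w1 => ?_, ?_⟩
    · show c * f w = c * φ w / w ^ (P * n)
      rw [a2 w w0 w1, mul_div_assoc]
    · intro om l hom homP hg0
      obtain ⟨g1, c1, c2⟩ := a3 om l hom homP hg0
      refine ⟨fun w => c * g1 w, c1.const_mul c, fun w hw => ?_⟩
      linear_combination c * c2 w hw
  mul m n f g hf hg := by
    obtain ⟨φ, a1, a2, a3⟩ := hf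
    obtain ⟨ψ, b1, b2, b3⟩ := hg
    refine ⟨fun w => φ w * ψ w, a1.mul b1, fun w w0 w1 => ?_, ?_⟩
    · show f w * g w = φ w * ψ w / w ^ (P * (m + n))
      rw [a2 w w0 w1, b2 w w0 w1, Nat.mul_add, pow_add, div_mul_div_comm]
    · intro om l hom homP hg0
      obtain ⟨g1, c1, c2⟩ := a3 om l hom homP hg0
      obtain ⟨g2, d1, d2⟩ := b3 om l hom homP hg0
      refine ⟨fun w => φ (om * w) * g2 w + g1 w * ψ w,
        ((diff_rot hN hom a1).mul d1).add (c1.mul b1), fun w hw => ?_⟩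
      linear_combination φ (om * w) * d2 w hw + ψ w * c2 w hw
  der n f hf := by
    obtain ⟨φ, a1, a2, a3⟩ := hf
    refine ⟨fun w => w ^ (P - N) * (w * deriv φ w - (P * n : ℕ) * φ w) / N, ?_, ?_,
      rot_der hN hNP n a1 a3⟩
    · apply DifferentiableOn.div_const
      apply DifferentiableOn.mul (differentiable_pow _).differentiableOn
      exact (differentiableOn_id.mul (diff_deriv a1)).sub (a1.const_mul _)
    · intro w w0 w1
      have e1 : deriv f w = deriv (fun u => φ u / u ^ (P * n)) w := by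
        apply Filter.EventuallyEq.deriv_eq
        have hm : Metric.ball (0 : ℂ) δ ∈ 𝓝 w :=
          Metric.isOpen_ball.mem_nhds (by rwa [Metric.mem_ball, dist_zero_right])
        have hm' : {u : ℂ | u ≠ 0} ∈ 𝓝 w := isOpen_ne.mem_nhds w0
        filter_upwards [hm, hm'] with u hu hu'
        exact a2 u hu' (by rwa [Metric.mem_ball, dist_zero_right] at hu)
      have d1 : HasDerivAt (fun u => φ u / u ^ (P * n))
          ((deriv φ w * w ^ (P * n) - φ w * (((P * n : ℕ) : ℂ) * w ^ (P * n - 1))) /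
            (w ^ (P * n)) ^ 2) w :=
        (diffAt a1 w1).hasDerivAt.div (hasDerivAt_pow _ w) (pow_ne_zero _ w0)
      show vN N w * deriv f w =
        w ^ (P - N) * (w * deriv φ w - ((P * n : ℕ) : ℂ) * φ w) / N / w ^ (P * (n + 1))
      rw [e1, d1.deriv, vN]
      have hNc : (N : ℂ) ≠ 0 := by exact_mod_cast hN.ne'
      have e2 : w * (((P * n : ℕ) : ℂ) * w ^ (P * n - 1)) = ((P * n : ℕ) : ℂ) * w ^ (P * n) := by
        rcases Nat.eq_zero_or_pos (P * n) with h0 | h0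
        · rw [h0]; simp
        · obtain ⟨k, hk⟩ : ∃ k, P * n = k + 1 := ⟨P * n - 1, by omega⟩
          rw [hk, Nat.add_sub_cancel]; ring
      have e3 : w ^ (P * (n + 1)) = w ^ (P * n) * (w ^ (P - N) * (w * w ^ (N - 1))) := by
        have h1 : w * w ^ (N - 1) = w ^ N := by
          obtain ⟨k, rfl⟩ : ∃ k, N = k + 1 := ⟨N - 1, by omega⟩
          rw [Nat.add_sub_cancel]; ring
        rw [h1, ← pow_add, Nat.sub_add_cancel hNP, ← pow_add]
        congr 1
      rw [e3]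
      have hp1 : w ^ (P * n) ≠ 0 := pow_ne_zero _ w0
      have hp2 : w ^ (P - N) ≠ 0 := pow_ne_zero _ w0
      have hp3 : w ^ (N - 1) ≠ 0 := pow_ne_zero _ w0
      have e4 : (deriv φ w * w ^ (P * n) - φ w * (((P * n : ℕ) : ℂ) * w ^ (P * n - 1))) * w =
          w ^ (P * n) * (w * deriv φ w - ((P * n : ℕ) : ℂ) * φ w) := by
        linear_combination -φ w * e2
      rw [one_div, inv_mul_eq_div, div_div, div_div, div_eq_div_iff]
      · linear_combination (w ^ (P * n) * w ^ (P - N) * w ^ (N - 1) * N) * e4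
      · exact mul_ne_zero (pow_ne_zero _ hp1) (mul_ne_zero hNc hp3)
      · exact mul_ne_zero hNc (mul_ne_zero hp1 (mul_ne_zero hp2 (mul_ne_zero w0 hp3)))

theorem slope_one (v κ : ℂ → ℂ) : slope v κ 1 = fun x => -κ x := by
  rw [slope_rec v κ 1 le_rfl]
  funext x
  unfold slopeRec
  simp

end MemP

/-- MEMP: weights at a place -/
theorem slope_place {N P : ℕ} (hN : 0 < N) (hNP : N ≤ P) {κ h : ℂ → ℂ} {δ : ℝ} (hδ : 0 < δ)
    (hh : DifferentiableOn ℂ h (Metric.ball 0 δ))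
    (hκ : ∀ w, w ≠ 0 → ‖w‖ < δ → κ w = h w / w ^ P) :
    ∃ b : ℕ → ℂ → ℂ, (∀ w, b 0 w = 0) ∧ (∀ w, ‖w‖ < δ → b 1 w = - h w) ∧
      (∀ n, DifferentiableOn ℂ (b n) (Metric.ball 0 δ)) ∧
      (∀ n w, w ≠ 0 → ‖w‖ < δ → slope (vN N) κ n w = b n w / w ^ (P * n)) ∧
      (∀ (om : ℂ) (l : ℕ), om ^ N = 1 → om ^ P = 1 →
        (∃ g, DifferentiableOn ℂ g (Metric.ball 0 δ) ∧
          ∀ w, ‖w‖ < δ → h (om * w) - h w = w ^ l * g w) →
        ∀ n, ∃ g, DifferentiableOn ℂ g (Metric.ball 0 δ) ∧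
          ∀ w, ‖w‖ < δ → b n (om * w) - b n w = w ^ l * g w) := by
  have hW1 : MemP.W N P h δ 1 κ := by
    refine ⟨h, hh, fun w w0 w1 => by rw [mul_one]; exact hκ w w0 w1, ?_⟩
    intro om l _ _ hg
    exact hg
  have hW : ∀ n, ∃ φ : ℂ → ℂ, ((n = 0 → φ = fun _ => 0) ∧ (n = 1 → φ = fun w => - h w)) ∧
      DifferentiableOn ℂ φ (Metric.ball 0 δ) ∧
      (∀ w, w ≠ 0 → ‖w‖ < δ → slope (vN N) κ n w = φ w / w ^ (P * n)) ∧ MemP.Rot N P h δ φ := by
    intro n
    rcases Nat.eq_zero_or_pos n with rfl | hn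
    · refine ⟨fun _ => 0, ⟨fun _ => rfl, fun h => by omega⟩, differentiableOn_const 0,
        fun w _ _ => by rw [slope_zero]; simp, ?_⟩
      intro om l _ _ _
      exact ⟨fun _ => 0, differentiableOn_const 0, fun w _ => by simp⟩
    · rcases Nat.eq_or_lt_of_le (Nat.succ_le_of_lt hn) with h1 | h1
      · have hn1 : n = 1 := by omega
        subst hn1
        refine ⟨fun w => - h w, ⟨fun h => by omega, fun _ => rfl⟩, hh.neg, fun w w0 w1 => ?_, ?_⟩
        · rw [MemP.slope_one, mul_one]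
          show -κ w = _
          rw [hκ w w0 w1, neg_div]
        · intro om l _ _ hg
          obtain ⟨g, g1, g2⟩ := hg
          refine ⟨fun w => - g w, g1.neg, fun w hw => ?_⟩
          linear_combination -g2 w hw
      · obtain ⟨φ, a1, a2, a3⟩ := slope_mem (MemP.filt hN hNP h δ) hW1 n
        exact ⟨φ, ⟨fun h => by omega, fun h => by omega⟩, a1, a2, a3⟩
  choose b hb using hW
  refine ⟨b, fun w => ?_, fun w _ => ?_, fun n => (hb n).2.1, fun n => (hb n).2.2.1, ?_⟩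
  · rw [(hb 0).1.1 rfl]
  · rw [(hb 1).1.2 rfl]
  · intro om l hom homP hg n
    exact (hb n).2.2.2 om l hom homP hg

end Pool.Agent.MP_ae5b4e_an_ND
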