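import Pool.Agent.Lib.MP_ae5b4e_an_LAT.NDPl
import Pool.Agent.Lib.SCV.Osgood

/-!
# Strict differentiability of power series with holomorphic coefficients (LAT, route ND)
-/

namespace Pool.Agent.MP_ae5b4e_an_ND

open Filter Topology Metric Set

/-- A power series in `η` whose coefficients are holomorphic in `w` and geometrically bounded is
strictly differentiable in both variables. -/
theorem strict_series {c : ℕ → ℂ → ℂ} {δ A C : ℝ} (hδ : 0 < δ) (hC : 0 < C)
    (hc : ∀ n, DifferentiableOn ℂ (c n) (Metric.ball 0 δ))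
    (hb : ∀ n w, ‖w‖ < δ → ‖c n w‖ ≤ A * C ^ n) :
    ∀ w η : ℂ, ‖w‖ < δ / 2 → ‖η‖ < 1 / (2 * C) → ∃ D : ℂ × ℂ →L[ℂ] ℂ,
      HasStrictFDerivAt (fun p : ℂ × ℂ => ∑' n, c n p.1 * p.2 ^ n) D (w, η) := by
  intro w η hw hη
  have hA : 0 ≤ A := by
    have h1 := hb 0 0 (by simpa using hδ)
    rw [pow_zero, mul_one] at h1
    exact (norm_nonneg _).trans h1
  set U : Set (ℂ × ℂ) := ball 0 (δ / 2) ×ˢ ball 0 (1 / (2 * C)) with hUdef
  have hU : IsOpen U := isOpen_ball.prod isOpen_ball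
  have hsum : Summable (fun n : ℕ => A * (1 / 2 : ℝ) ^ n) :=
    (summable_geometric_of_lt_one (by norm_num) (by norm_num)).mul_left A
  have hterm : ∀ n : ℕ, ∀ x y : ℂ, ‖x‖ < δ / 2 → ‖y‖ < 1 / (2 * C) →
      ‖c n x * y ^ n‖ ≤ A * (1 / 2 : ℝ) ^ n := by
    intro n x y hx hy
    rw [norm_mul, norm_pow]
    have h1 : ‖c n x‖ ≤ A * C ^ n := hb n x (by linarith)
    have h2 : ‖y‖ ^ n ≤ (1 / (2 * C)) ^ n := pow_le_pow_left₀ (norm_nonneg _) hy.le n
    calc ‖c n x‖ * ‖y‖ ^ n ≤ (A * C ^ n) * (1 / (2 * C)) ^ n := by gcongr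
      _ = A * (1 / 2 : ℝ) ^ n := by
        rw [mul_assoc, ← mul_pow]
        congr 2
        field_simp
  have hcd : ∀ n, DifferentiableOn ℂ (c n) (ball 0 (δ / 2)) := fun n =>
    (hc n).mono (ball_subset_ball (by linarith))
  have hcont : ContinuousOn (fun p : ℂ × ℂ => ∑' n, c n p.1 * p.2 ^ n) U := by
    refine continuousOn_tsum (fun n => ?_) hsum (fun n p hp => ?_)
    · refine ContinuousOn.mul ?_ (by fun_prop)
      exact (hcd n).continuousOn.comp (by fun_prop) (fun p hp => hp.1)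
    · exact hterm n p.1 p.2 (by simpa using hp.1) (by simpa using hp.2)
  have han : AnalyticOnNhd ℂ (fun p : ℂ × ℂ => ∑' n, c n p.1 * p.2 ^ n) U := by
    refine Pool.Agent.SCV.osgood U hU _ hcont ?_ ?_
    · intro p hp
      have h1 : DifferentiableOn ℂ (fun x : ℂ => ∑' n, c n x * p.2 ^ n) (ball 0 (δ / 2)) := by
        refine Complex.differentiableOn_tsum_of_summable_norm hsum
          (fun n => (hcd n).mul_const _) isOpen_ball (fun n x hx => ?_)
        exact hterm n x p.2 (by simpa using hx) (by simpa using hp.2)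
      exact h1.differentiableAt (isOpen_ball.mem_nhds hp.1)
    · intro p hp
      have h1 : DifferentiableOn ℂ (fun y : ℂ => ∑' n, c n p.1 * y ^ n) (ball 0 (1 / (2 * C))) := by
        refine Complex.differentiableOn_tsum_of_summable_norm hsum
          (fun n => ?_) isOpen_ball (fun n y hy => ?_)
        · exact (differentiable_id.pow n).differentiableOn.const_mul _
        · exact hterm n p.1 y (by simpa using hp.1) (by simpa using hy)
      exact h1.differentiableAt (isOpen_ball.mem_nhds hp.2)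
  have hmem : (w, η) ∈ U := ⟨by simpa using hw, by simpa using hη⟩
  exact ⟨_, (han (w, η) hmem).hasStrictFDerivAt⟩

/-- Bound for the quotient of a difference of geometrically bounded coefficients by `w ^ l`. -/
theorem g_bound {b g : ℕ → ℂ → ℂ} {om : ℂ} (hom : ‖om‖ = 1) {l : ℕ} {δ C : ℝ} (hδ : 0 < δ)
    (hC : 0 < C) (hb : ∀ n w, ‖w‖ < δ → ‖b n w‖ ≤ C ^ n)
    (hg : ∀ n, DifferentiableOn ℂ (g n) (Metric.ball 0 δ))
    (hgb : ∀ n w, ‖w‖ < δ → b n (om * w) - b n w = w ^ l * g n w) :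
    ∃ A : ℝ, ∀ n w, ‖w‖ < δ / 2 → ‖g n w‖ ≤ A * C ^ n := by
  refine ⟨2 / (δ / 2) ^ l, fun n w hw => ?_⟩
  have hr : 0 < δ / 2 := by linarith
  have hsub : closedBall (0 : ℂ) (δ / 2) ⊆ ball 0 δ := closedBall_subset_ball (by linarith)
  have hd : DiffContOnCl ℂ (g n) (ball 0 (δ / 2)) := by
    refine ((hg n).mono ?_).diffContOnCl
    rw [closure_ball _ hr.ne']
    exact hsub
  refine Complex.norm_le_of_forall_mem_frontier_norm_le isBounded_ball hd (fun z hz => ?_)
    (subset_closure (by simpa using hw))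
  rw [frontier_ball _ hr.ne', mem_sphere_zero_iff_norm] at hz
  have hzδ : ‖z‖ < δ := by linarith
  have h1 := hgb n z hzδ
  have h2 : ‖om * z‖ < δ := by rw [norm_mul, hom, one_mul]; exact hzδ
  have h3 : ‖z ^ l * g n z‖ ≤ 2 * C ^ n := by
    rw [← h1]
    have h4 := norm_sub_le (b n (om * z)) (b n z)
    have h5 := hb n _ h2
    have h6 := hb n _ hzδ
    linarith
  rw [norm_mul, norm_pow, hz] at h3
  have hp : 0 < (δ / 2) ^ l := pow_pos hr l
  rw [div_mul_eq_mul_div, le_div_iff₀ hp]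
  linarith

end Pool.Agent.MP_ae5b4e_an_ND
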