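import Pool.Agent.Lib.MP_ae5b4e_an_LAT.NDPl
import Pool.Agent.Lib.MP_ae5b4e_an_LAT.NDStrict

/-!
# The local problem ND: the first order in `w ^ l` at a ramified place (module RAM)

In the coordinate `Y = 1 / η` and with `M (w, Y) = Y - Y ^ 2 * bsum b w (1 / Y)` the invariance of
the leaves reads `1 / M (w', Y') = 1 / (M (w, Y) - w h' / N) + 1 / (Y' (Y' + 1))` with
`Y' = Y - 1 - h w` and `w' = w (Y' / (Y' + 1)) ^ (1 / N)`.  The difference of this identity at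
`om * w` and at `w`, divided by `w ^ l`, tends to the equation for `G` as `w → 0`.
-/

namespace Pool.Agent.MP_ae5b4e_an_ND
open Filter Topology

namespace Ram

/-- The argument of the root in `thF`, for `η = 1 / Y`. -/
lemma arg_eq {Y hh : ℂ} (hY : Y ≠ 0) (h2 : Y - 1 - hh + 1 ≠ 0) :
    1 - 1 / Y / (1 - hh * (1 / Y)) = (Y - 1 - hh) / (Y - 1 - hh + 1) := by
  have h3 : Y - hh ≠ 0 := by
    intro h; apply h2; linear_combination h
  have h4 : 1 - hh * (1 / Y) = (Y - hh) / Y := by field_simp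
  rw [h4]
  have h5 : Y - 1 - hh + 1 = Y - hh := by ring
  rw [h5]
  field_simp
  ring

lemma thF_eq {N : ℕ} {h : ℂ → ℂ} {w Y : ℂ} (hY : Y ≠ 0) (h2 : Y - 1 - h w + 1 ≠ 0) :
    thF N N h w (1 / Y) = ((Y - 1 - h w) / (Y - 1 - h w + 1)) ^ (1 / (N : ℂ)) := by
  unfold thF
  rw [Nat.sub_self, pow_zero, one_mul, arg_eq hY h2]

/-- The invariance in terms of `M = Y - Y ^ 2 * bsum`. -/
lemma fi_alg {N : ℕ} (hN : 0 < N) {h : ℂ → ℂ} {b : ℕ → ℂ → ℂ} {w Y : ℂ} (hY : Y ≠ 0)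
    (h1 : Y - 1 - h w ≠ 0) (h2 : Y - 1 - h w + 1 ≠ 0)
    (hFI : FIat N N h b w (1 / Y)) :
    ((Y - 1 - h w) - (Y - 1 - h w) ^ 2 *
        bsum b (w * ((Y - 1 - h w) / (Y - 1 - h w + 1)) ^ (1 / (N : ℂ))) (1 / (Y - 1 - h w))) *
      ((Y - 1 - h w) * (Y - 1 - h w + 1) +
        (Y - Y ^ 2 * bsum b w (1 / Y) - w * deriv h w / N))
    = (Y - 1 - h w) * (Y - 1 - h w + 1) *
        (Y - Y ^ 2 * bsum b w (1 / Y) - w * deriv h w / N) := by
  unfold FIat at hFI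
  rw [thF_eq hY h2] at hFI
  unfold WF at hFI
  have hN' : (N : ℂ) ≠ 0 := by exact_mod_cast hN.ne'
  have hth : (((Y - 1 - h w) / (Y - 1 - h w + 1)) ^ (1 / (N : ℂ))) ^ N
      = (Y - 1 - h w) / (Y - 1 - h w + 1) := by
    rw [one_div]
    exact Complex.cpow_nat_inv_pow _ hN.ne'
  rw [hth] at hFI
  set Y' := Y - 1 - h w with hY'
  have e1 : h w = Y - 1 - Y' := by rw [hY']; ring
  have e2 : 1 - h w * (1 / Y) = (Y' + 1) / Y := by
    rw [e1]; field_simp; ring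
  have e3 : 1 / Y / ((1 - h w * (1 / Y)) * (Y' / (Y' + 1))) = 1 / Y' := by
    rw [e2]; field_simp
  rw [e3, e2] at hFI
  set q' := bsum b (w * (Y' / (Y' + 1)) ^ (1 / (N : ℂ))) (1 / Y') with hq'
  set q := bsum b w (1 / Y) with hq
  set k := w * deriv h w / N with hk
  have e4 : (q + w ^ (N - N) * (w * deriv h w - N * h w) / N * (1 / Y) ^ 2) / ((Y' + 1) / Y) ^ 2
      = (Y' + 1 - (Y - Y ^ 2 * q - k)) / (Y' + 1) ^ 2 := by
    rw [Nat.sub_self, pow_zero, one_mul, sub_div, ← hk, mul_div_cancel_left₀ (h w) hN']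
    rw [e1]
    field_simp
    ring
  rw [e4] at hFI
  have e5 : q' * (Y' * (Y' + 1) + (Y - Y ^ 2 * q - k)) = Y' + 1 - (Y - Y ^ 2 * q - k) := by
    have h6 : (Y' + 1) ^ 2 ≠ 0 := pow_ne_zero _ h2
    field_simp at hFI
    linear_combination hFI
  linear_combination (-Y' ^ 2) * e5

lemma recip {M E m : ℂ} (hE : E ≠ 0) (hm : m ≠ 0) (h : M * (E + m) = E * m) :
    M ≠ 0 ∧ 1 / M = 1 / m + 1 / E := by
  have hM : M ≠ 0 := by
    rintro rfl
    rw [zero_mul] at h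
    exact mul_ne_zero hE hm h.symm
  refine ⟨hM, ?_⟩
  field_simp
  linear_combination -h

lemma strict_quot {E : Type*} [NormedAddCommGroup E] [NormedSpace ℂ E] {f : E → ℂ}
    {D : E →L[ℂ] ℂ} {x : E} (hf : HasStrictFDerivAt f D x) {u v : ℂ → E} {s : ℂ → ℂ}
    {L : Filter ℂ} (hu : Tendsto u L (𝓝 x)) (hv : Tendsto v L (𝓝 x))
    (hs : ∀ᶠ w in L, s w ≠ 0) {d : E}
    (hd : Tendsto (fun w => (s w)⁻¹ • (u w - v w)) L (𝓝 d)) :
    Tendsto (fun w => (f (u w) - f (v w)) / s w) L (𝓝 (D d)) := by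
  have h1 := hf.isLittleO.comp_tendsto (hu.prodMk_nhds hv)
  have h2 : (fun w => u w - v w) =O[L] s := by
    have h3 : (fun w => (s w)⁻¹ • (u w - v w)) =O[L] (fun _ => (1 : ℂ)) := hd.isBigO_one ℂ
    have h4 := (Asymptotics.isBigO_refl s L).smul h3
    refine (h4.congr' ?_ ?_)
    · filter_upwards [hs] with w hw
      rw [smul_smul, mul_inv_cancel₀ hw, one_smul]
    · filter_upwards with w
      simp
  have h5 := (h1.trans_isBigO h2).tendsto_div_nhds_zero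
  have h6 : Tendsto (fun w => D ((s w)⁻¹ • (u w - v w))) L (𝓝 (D d)) :=
    (D.continuous.tendsto d).comp hd
  have h7 := h5.add h6
  rw [zero_add] at h7
  refine h7.congr' ?_
  filter_upwards [hs] with w hw
  simp only [Function.comp_apply, map_smul, smul_eq_mul]
  field_simp
  ring

lemma bsum_sub {b g : ℕ → ℂ → ℂ} {C : ℝ} {om w η : ℂ} {l : ℕ} {δ : ℝ}
    (hb : ∀ n w, ‖w‖ < δ → ‖b n w‖ ≤ C ^ n)
    (hgb : ∀ n w, ‖w‖ < δ → b n (om * w) - b n w = w ^ l * g n w)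
    (hw : ‖w‖ < δ) (hw' : ‖om * w‖ < δ) (hC : 0 < C) (hη : C * ‖η‖ < 1) :
    bsum b (om * w) η - bsum b w η = w ^ l * ∑' n, g n w * η ^ n := by
  have hs : ∀ w, ‖w‖ < δ → Summable (fun n => b n w * η ^ n) := by
    intro w hw
    refine Summable.of_norm_bounded (g := fun n => (C * ‖η‖) ^ n)
      (summable_geometric_of_lt_one (by positivity) hη) ?_
    intro n
    rw [norm_mul, norm_pow, mul_pow]
    gcongr
    exact hb n w hw
  unfold bsum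
  rw [← (hs _ hw').tsum_sub (hs _ hw), ← tsum_mul_left]
  congr 1
  funext n
  rw [← sub_mul, hgb n w hw]
  ring

/-- `M (w, Y) = Y - Y ^ 2 * bsum b w (1 / Y)`. -/
noncomputable def MM (b : ℕ → ℂ → ℂ) (p : ℂ × ℂ) : ℂ := p.2 - p.2 ^ 2 * bsum b p.1 (1 / p.2)

lemma MM_strict {b : ℕ → ℂ → ℂ} {Z : ℂ} (hZ : Z ≠ 0) {D : ℂ × ℂ →L[ℂ] ℂ}
    (hf : HasStrictFDerivAt (fun p : ℂ × ℂ => bsum b p.1 p.2) D (0, 1 / Z)) :
    ∃ D' : ℂ × ℂ →L[ℂ] ℂ, HasStrictFDerivAt (MM b) D' (0, Z) := by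
  have h1 : AnalyticAt ℂ (fun p : ℂ × ℂ => (p.1, 1 / p.2)) (0, Z) := by
    refine AnalyticAt.prod analyticAt_fst ?_
    exact AnalyticAt.div analyticAt_const analyticAt_snd hZ
  have h2 := h1.hasStrictFDerivAt
  have h3 : HasStrictFDerivAt (fun p : ℂ × ℂ => bsum b p.1 (1 / p.2)) _ (0, Z) :=
    HasStrictFDerivAt.comp (g := fun p : ℂ × ℂ => bsum b p.1 p.2) (0, Z) hf h2
  exact ⟨_, hasStrictFDerivAt_snd.sub ((hasStrictFDerivAt_snd.pow 2).mul h3)⟩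

lemma slit {Z : ℂ} (hZ : 2 < ‖Z‖) : Z / (Z + 1) ∈ Complex.slitPlane ∧ Z + 1 ≠ 0 ∧ Z ≠ 0 := by
  have h1 : 1 < ‖Z + 1‖ := by
    have := norm_sub_le (Z + 1) 1
    rw [add_sub_cancel_right, norm_one] at this
    linarith
  have h2 : Z + 1 ≠ 0 := by
    intro h; rw [h, norm_zero] at h1; linarith
  have h3 : Z ≠ 0 := by
    rintro rfl; rw [norm_zero] at hZ; linarith
  refine ⟨?_, h2, h3⟩
  have h4 : Z / (Z + 1) = 1 + (-(1 / (Z + 1))) := by field_simp; ring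
  rw [h4]
  apply Complex.mem_slitPlane_of_norm_lt_one
  rw [norm_neg, norm_div, norm_one, div_lt_one (by linarith)]
  exact h1

lemma T_analytic {N : ℕ} {Z : ℂ} (hZ : 2 < ‖Z‖) :
    AnalyticAt ℂ (fun V : ℂ => (V / (V + 1)) ^ (1 / (N : ℂ))) Z := by
  obtain ⟨h1, h2, h3⟩ := slit hZ
  refine AnalyticAt.cpow ?_ analyticAt_const h1
  exact AnalyticAt.div analyticAt_id (analyticAt_id.add analyticAt_const) h2

/-- The equation at a fixed `Y` and all small `w`. -/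
lemma step_one {N : ℕ} (hN : 0 < N) {h : ℂ → ℂ} {b : ℕ → ℂ → ℂ} {δ ρ : ℝ} (hδ : 0 < δ)
    (hρ : 0 < ρ) (hh : DifferentiableOn ℂ h (Metric.ball 0 δ))
    (hFI : ∀ w η, ‖w‖ < ρ → ‖η‖ < ρ → FIat N N h b w η) {Y Z : ℂ} (hZ : Z = Y - 1 - h 0)
    (hZ2 : 2 < ‖Z‖) (hY0 : Y ≠ 0) (hYρ : ‖1 / Y‖ < ρ)
    (hbc : ContinuousAt (fun w : ℂ => bsum b w (1 / Y)) 0)
    (hm0 : MM b (0, Y) ≠ 0) :
    Tendsto (fun w => MM b (w, Y) - w * deriv h w / N) (𝓝 0) (𝓝 (MM b (0, Y))) ∧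
    ∀ᶠ w in 𝓝 (0 : ℂ), Y - 1 - h w ≠ 0 ∧ Y - 1 - h w + 1 ≠ 0 ∧
      MM b (w * ((Y - 1 - h w) / (Y - 1 - h w + 1)) ^ (1 / (N : ℂ)), Y - 1 - h w) ≠ 0 ∧
      MM b (w, Y) - w * deriv h w / N ≠ 0 ∧
      1 / MM b (w * ((Y - 1 - h w) / (Y - 1 - h w + 1)) ^ (1 / (N : ℂ)), Y - 1 - h w)
        = 1 / (MM b (w, Y) - w * deriv h w / N)
          + 1 / ((Y - 1 - h w) * (Y - 1 - h w + 1)) := by
  obtain ⟨h1, h2, h3⟩ := slit hZ2
  have hha : AnalyticAt ℂ h 0 := hh.analyticAt (Metric.ball_mem_nhds 0 hδ)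
  have hd : ContinuousAt (deriv h) 0 := hha.deriv.continuousAt
  have hV : Tendsto (fun w => Y - 1 - h w) (𝓝 0) (𝓝 Z) := by
    rw [hZ]
    exact (tendsto_const_nhds.sub hha.continuousAt.tendsto)
  have hm : Tendsto (fun w => MM b (w, Y) - w * deriv h w / N) (𝓝 0) (𝓝 (MM b (0, Y))) := by
    have e1 : MM b (0, Y) = (Y - Y ^ 2 * bsum b 0 (1 / Y)) - 0 * deriv h 0 / N := by
      unfold MM; simp
    rw [e1]
    refine Tendsto.sub ?_ ?_
    · exact tendsto_const_nhds.sub (tendsto_const_nhds.mul hbc.tendsto)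
    · exact (tendsto_id.mul hd.tendsto).div_const _
  refine ⟨hm, ?_⟩
  have e2 : ∀ᶠ w : ℂ in 𝓝 0, ‖w‖ < ρ := by
    filter_upwards [Metric.ball_mem_nhds (0 : ℂ) hρ] with w hw
    simpa using hw
  filter_upwards [e2, hm.eventually_ne hm0, hV.eventually_ne h3,
    (hV.add_const 1).eventually_ne h2] with w hw1 hw2 hw3 hw4
  have h5 := fi_alg hN hY0 hw3 hw4 (hFI w (1 / Y) hw1 hYρ)
  obtain ⟨h6, h7⟩ := recip (mul_ne_zero hw3 hw4) hw2 h5
  exact ⟨hw3, hw4, h6, hw2, h7⟩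

/-- the difference of the images, divided by `w ^ l` -/
lemma lim_F {b g : ℕ → ℂ → ℂ} {h g₀ T : ℂ → ℂ} {om Y Z : ℂ} {l : ℕ} {δ C : ℝ} (hδ : 0 < δ)
    (hC : 0 < C)
    (hh : ContinuousAt h 0) (hgc : ContinuousAt g₀ 0)
    (hgh : ∀ w, ‖w‖ < δ → h (om * w) - h w = w ^ l * g₀ w)
    (hb : ∀ n w, ‖w‖ < δ → ‖b n w‖ ≤ C ^ n)
    (hgb : ∀ n w, ‖w‖ < δ → b n (om * w) - b n w = w ^ l * g n w)
    (hZ : Z = Y - 1 - h 0) (hZ0 : Z ≠ 0) (hZC : C * ‖1 / Z‖ < 1)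
    (hT : AnalyticAt ℂ T Z) {D : ℂ × ℂ →L[ℂ] ℂ} (hD : HasStrictFDerivAt (MM b) D (0, Z))
    (hgs : ContinuousAt (fun p : ℂ × ℂ => ∑' n, g n p.1 * p.2 ^ n) (0, 1 / Z)) :
    Tendsto (fun w => (MM b (w * T (Y - 1 - h w), Y - 1 - h w)
        - MM b (om * w * T (Y - 1 - h (om * w)), Y - 1 - h (om * w))) / w ^ l) (𝓝[≠] 0)
      (𝓝 (Z ^ 2 * T Z ^ l * (∑' n, g n 0 * (1 / Z) ^ n) + D (0, g₀ 0))) := by
  have hV : Tendsto (fun w => Y - 1 - h w) (𝓝 0) (𝓝 Z) := by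
    rw [hZ]
    exact (tendsto_const_nhds.sub hh.tendsto)
  have homw : Tendsto (fun w => om * w) (𝓝 0) (𝓝 0) := by
    have : Continuous (fun w : ℂ => om * w) := by fun_prop
    exact this.tendsto' _ _ (mul_zero _)
  have hV1 : Tendsto (fun w => Y - 1 - h (om * w)) (𝓝 0) (𝓝 Z) := hV.comp homw
  have hTV : Tendsto (fun w => T (Y - 1 - h w)) (𝓝 0) (𝓝 (T Z)) := hT.continuousAt.tendsto.comp hV
  have hTV1 : Tendsto (fun w => T (Y - 1 - h (om * w))) (𝓝 0) (𝓝 (T Z)) :=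
    hT.continuousAt.tendsto.comp hV1
  have ha0 : Tendsto (fun w => w * T (Y - 1 - h w)) (𝓝 0) (𝓝 0) := by
    simpa using tendsto_id.mul hTV
  have hoa0 : Tendsto (fun w => om * (w * T (Y - 1 - h w))) (𝓝 0) (𝓝 0) := homw.comp ha0
  have ha1 : Tendsto (fun w => om * w * T (Y - 1 - h (om * w))) (𝓝 0) (𝓝 0) := by
    simpa using homw.mul hTV1
  have hle : 𝓝[≠] (0 : ℂ) ≤ 𝓝 0 := nhdsWithin_le_nhds
  have hw0 : ∀ᶠ w : ℂ in 𝓝[≠] 0, w ≠ 0 := self_mem_nhdsWithin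
  have hwl : ∀ᶠ w : ℂ in 𝓝[≠] 0, w ^ l ≠ 0 := by
    filter_upwards [hw0] with w hw using pow_ne_zero _ hw
  have hball : ∀ᶠ w : ℂ in 𝓝 0, ‖w‖ < δ := by
    filter_upwards [Metric.ball_mem_nhds (0 : ℂ) hδ] with w hw
    simpa using hw
  -- the shift of `V`
  have hVd : Tendsto (fun w => (w ^ l)⁻¹ • ((Y - 1 - h w) - (Y - 1 - h (om * w)))) (𝓝[≠] 0)
      (𝓝 (g₀ 0)) := by
    refine (hgc.tendsto.mono_left hle).congr' ?_
    filter_upwards [hwl, hle hball] with w hw hw1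
    have := hgh w hw1
    rw [smul_eq_mul]
    field_simp
    linear_combination -this
  -- the shift of `T`
  have hTd := strict_quot hT.hasStrictDerivAt.hasStrictFDerivAt (hV.mono_left hle)
    (hV1.mono_left hle) hwl hVd
  -- first term
  have t1 : Tendsto (fun w => (MM b (w * T (Y - 1 - h w), Y - 1 - h w)
      - MM b (om * (w * T (Y - 1 - h w)), Y - 1 - h w)) / w ^ l) (𝓝[≠] 0)
      (𝓝 (Z ^ 2 * T Z ^ l * (∑' n, g n 0 * (1 / Z) ^ n))) := by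
    have e1 : Tendsto (fun w => (w * T (Y - 1 - h w), 1 / (Y - 1 - h w))) (𝓝 0)
        (𝓝 ((0 : ℂ), 1 / Z)) := ha0.prodMk_nhds (tendsto_const_nhds.div hV hZ0)
    have e2 : Tendsto (fun w => (Y - 1 - h w) ^ 2 * T (Y - 1 - h w) ^ l *
        (∑' n, g n (w * T (Y - 1 - h w)) * (1 / (Y - 1 - h w)) ^ n)) (𝓝 0)
        (𝓝 (Z ^ 2 * T Z ^ l * (∑' n, g n 0 * (1 / Z) ^ n))) :=
      ((hV.pow 2).mul (hTV.pow l)).mul (hgs.tendsto.comp e1)
    refine (e2.mono_left hle).congr' ?_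
    have e3 : ∀ᶠ w in 𝓝 (0 : ℂ), C * ‖1 / (Y - 1 - h w)‖ < 1 := by
      have : Tendsto (fun w => C * ‖1 / (Y - 1 - h w)‖) (𝓝 0) (𝓝 (C * ‖1 / Z‖)) :=
        ((tendsto_const_nhds.div hV hZ0).norm).const_mul C
      exact this.eventually_lt_const hZC
    filter_upwards [hwl, hle (ha0.eventually hball), hle (hoa0.eventually hball), hle e3]
      with w h1 h2 h3 h4
    have h5 := bsum_sub hb hgb h2 h3 hC h4
    simp only [MM]
    rw [eq_div_iff h1]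
    linear_combination (-(Y - 1 - h w) ^ 2) * h5
  -- second term
  have t2 : Tendsto (fun w => (MM b (om * (w * T (Y - 1 - h w)), Y - 1 - h w)
      - MM b (om * w * T (Y - 1 - h (om * w)), Y - 1 - h (om * w))) / w ^ l) (𝓝[≠] 0)
      (𝓝 (D (0, g₀ 0))) := by
    refine strict_quot hD ((hoa0.prodMk_nhds hV).mono_left hle)
      ((ha1.prodMk_nhds hV1).mono_left hle) hwl ?_
    have e1 : Tendsto (fun w : ℂ => om * w * ((T (Y - 1 - h w) - T (Y - 1 - h (om * w))) / w ^ l))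
        (𝓝[≠] 0) (𝓝 0) := by
      have := (homw.mono_left hle).mul hTd
      rwa [zero_mul] at this
    refine (e1.prodMk_nhds hVd).congr' ?_
    filter_upwards [hwl] with w hw
    ext
    · simp only [Prod.smul_fst, Prod.fst_sub, smul_eq_mul]
      field_simp
    · simp
  refine (t1.add t2).congr' ?_
  filter_upwards with w
  ring

lemma deriv_gh {h g₀ : ℂ → ℂ} {om : ℂ} {l : ℕ} {δ : ℝ} (hl : 0 < l) (hom : ‖om‖ = 1)
    (hh : DifferentiableOn ℂ h (Metric.ball 0 δ)) (hg₀ : DifferentiableOn ℂ g₀ (Metric.ball 0 δ))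
    (hgh : ∀ w, ‖w‖ < δ → h (om * w) - h w = w ^ l * g₀ w) {w : ℂ} (hw : ‖w‖ < δ) :
    om * w * deriv h (om * w) - w * deriv h w = w ^ l * (l * g₀ w + w * deriv g₀ w) := by
  have hmem : w ∈ Metric.ball (0 : ℂ) δ := by simpa using hw
  have hmem' : om * w ∈ Metric.ball (0 : ℂ) δ := by
    simpa [norm_mul, hom] using hw
  have d1 : HasDerivAt h (deriv h w) w :=
    (hh.differentiableAt (Metric.isOpen_ball.mem_nhds hmem)).hasDerivAt
  have d2 : HasDerivAt h (deriv h (om * w)) (om * w) :=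
    (hh.differentiableAt (Metric.isOpen_ball.mem_nhds hmem')).hasDerivAt
  have d3 : HasDerivAt g₀ (deriv g₀ w) w :=
    (hg₀.differentiableAt (Metric.isOpen_ball.mem_nhds hmem)).hasDerivAt
  have d4 : HasDerivAt (fun w => h (om * w) - h w) (deriv h (om * w) * (om * 1) - deriv h w) w :=
    (d2.comp w ((hasDerivAt_id w).const_mul om)).sub d1
  have d5 : HasDerivAt (fun w => w ^ l * g₀ w) (l * w ^ (l - 1) * g₀ w + w ^ l * deriv g₀ w) w :=
    (hasDerivAt_pow l w).mul d3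
  have d6 : HasDerivAt (fun w => h (om * w) - h w)
      (l * w ^ (l - 1) * g₀ w + w ^ l * deriv g₀ w) w := by
    refine d5.congr_of_eventuallyEq ?_
    filter_upwards [Metric.isOpen_ball.mem_nhds hmem] with z hz
    exact hgh z (by simpa using hz)
  have d7 := d4.unique d6
  obtain ⟨k, rfl⟩ : ∃ k, l = k + 1 := ⟨l - 1, by omega⟩
  rw [Nat.add_sub_cancel] at d7
  linear_combination w * d7

lemma lim_m {b g : ℕ → ℂ → ℂ} {h g₀ : ℂ → ℂ} {om Y : ℂ} {N l : ℕ} {δ C : ℝ} (hδ : 0 < δ)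
    (hC : 0 < C) (hom : ‖om‖ = 1) (hl : 0 < l)
    (hh : DifferentiableOn ℂ h (Metric.ball 0 δ)) (hg₀ : DifferentiableOn ℂ g₀ (Metric.ball 0 δ))
    (hgh : ∀ w, ‖w‖ < δ → h (om * w) - h w = w ^ l * g₀ w)
    (hb : ∀ n w, ‖w‖ < δ → ‖b n w‖ ≤ C ^ n)
    (hgb : ∀ n w, ‖w‖ < δ → b n (om * w) - b n w = w ^ l * g n w)
    (hYC : C * ‖1 / Y‖ < 1)
    (hgs : ContinuousAt (fun p : ℂ × ℂ => ∑' n, g n p.1 * p.2 ^ n) (0, 1 / Y)) :
    Tendsto (fun w => ((MM b (w, Y) - w * deriv h w / N)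
        - (MM b (om * w, Y) - om * w * deriv h (om * w) / N)) / w ^ l) (𝓝[≠] 0)
      (𝓝 (Y ^ 2 * (∑' n, g n 0 * (1 / Y) ^ n) + l * g₀ 0 / N)) := by
  have hle : 𝓝[≠] (0 : ℂ) ≤ 𝓝 0 := nhdsWithin_le_nhds
  have hw0 : ∀ᶠ w : ℂ in 𝓝[≠] 0, w ≠ 0 := self_mem_nhdsWithin
  have hwl : ∀ᶠ w : ℂ in 𝓝[≠] 0, w ^ l ≠ 0 := by
    filter_upwards [hw0] with w hw using pow_ne_zero _ hw
  have hball : ∀ᶠ w : ℂ in 𝓝 0, ‖w‖ < δ := by
    filter_upwards [Metric.ball_mem_nhds (0 : ℂ) hδ] with w hw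
    simpa using hw
  have hga : AnalyticAt ℂ g₀ 0 := hg₀.analyticAt (Metric.ball_mem_nhds 0 hδ)
  have e1 : Tendsto (fun w : ℂ => (w, 1 / Y)) (𝓝 0) (𝓝 ((0 : ℂ), 1 / Y)) :=
    tendsto_id.prodMk_nhds tendsto_const_nhds
  have e2 : Tendsto (fun w => Y ^ 2 * (∑' n, g n w * (1 / Y) ^ n)
      + (l * g₀ w + w * deriv g₀ w) / N) (𝓝 0)
      (𝓝 (Y ^ 2 * (∑' n, g n 0 * (1 / Y) ^ n) + (l * g₀ 0 + 0 * deriv g₀ 0) / N)) := by
    refine Tendsto.add (tendsto_const_nhds.mul (hgs.tendsto.comp e1)) (Tendsto.div_const ?_ _)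
    exact (tendsto_const_nhds.mul hga.continuousAt.tendsto).add
      (tendsto_id.mul hga.deriv.continuousAt.tendsto)
  rw [zero_mul, add_zero] at e2
  refine (e2.mono_left hle).congr' ?_
  filter_upwards [hwl, hle hball] with w h1 h2
  have h3 : ‖om * w‖ < δ := by rw [norm_mul, hom, one_mul]; exact h2
  have h5 := bsum_sub hb hgb h2 h3 hC hYC
  have h6 := deriv_gh hl hom hh hg₀ hgh h2
  simp only [MM]
  rw [eq_div_iff h1]
  linear_combination (-Y ^ 2) * h5 - (1 / (N : ℂ)) * h6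

lemma alg_last {F F1 m m1 e e1 s : ℂ} (hF : F ≠ 0) (hF1 : F1 ≠ 0) (hm : m ≠ 0) (hm1 : m1 ≠ 0)
    (hs : s ≠ 0) (h : 1 / F = 1 / m + e) (h1 : 1 / F1 = 1 / m1 + e1) :
    (F - F1) / s * (1 / (F * F1)) = (m - m1) / s * (1 / (m * m1)) + (e1 - e) / s := by
  have a1 : (F - F1) / s * (1 / (F * F1)) = (1 / F1 - 1 / F) / s := by field_simp
  have a2 : (m - m1) / s * (1 / (m * m1)) = (1 / m1 - 1 / m) / s := by field_simp
  rw [a1, a2, h, h1]
  ring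

/-- The first order term at a fixed `Y`. -/
lemma core {b g : ℕ → ℂ → ℂ} {h g₀ : ℂ → ℂ} {om Y Z : ℂ} {N l : ℕ} {δ C ρ : ℝ} (hN : 0 < N)
    (hδ : 0 < δ) (hρ : 0 < ρ)
    (hC : 0 < C) (hom : ‖om‖ = 1) (hl : 0 < l)
    (hh : DifferentiableOn ℂ h (Metric.ball 0 δ)) (hg₀ : DifferentiableOn ℂ g₀ (Metric.ball 0 δ))
    (hgh : ∀ w, ‖w‖ < δ → h (om * w) - h w = w ^ l * g₀ w)
    (hb : ∀ n w, ‖w‖ < δ → ‖b n w‖ ≤ C ^ n)
    (hgb : ∀ n w, ‖w‖ < δ → b n (om * w) - b n w = w ^ l * g n w)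
    (hFI : ∀ w η, ‖w‖ < ρ → ‖η‖ < ρ → FIat N N h b w η)
    (hZ : Z = Y - 1 - h 0) (hZ2 : 2 < ‖Z‖) (hZC : C * ‖1 / Z‖ < 1)
    (hY0 : Y ≠ 0) (hYρ : ‖1 / Y‖ < ρ) (hYC : C * ‖1 / Y‖ < 1)
    {D : ℂ × ℂ →L[ℂ] ℂ} (hD : HasStrictFDerivAt (MM b) D (0, Z))
    (hbc : ContinuousAt (fun w : ℂ => bsum b w (1 / Y)) 0)
    (hgsZ : ContinuousAt (fun p : ℂ × ℂ => ∑' n, g n p.1 * p.2 ^ n) (0, 1 / Z))
    (hgsY : ContinuousAt (fun p : ℂ × ℂ => ∑' n, g n p.1 * p.2 ^ n) (0, 1 / Y))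
    (hm0 : MM b (0, Y) ≠ 0) (hF0 : MM b (0, Z) ≠ 0)
    {e' : ℂ} (he : HasStrictDerivAt (fun V : ℂ => 1 / (V * (V + 1))) e' Z) :
    1 / MM b (0, Z) = 1 / MM b (0, Y) + 1 / (Z * (Z + 1)) ∧
    (Z ^ 2 * ((Z / (Z + 1)) ^ (1 / (N : ℂ))) ^ l * (∑' n, g n 0 * (1 / Z) ^ n) + D (0, g₀ 0))
        * (1 / (MM b (0, Z) * MM b (0, Z)))
      = (Y ^ 2 * (∑' n, g n 0 * (1 / Y) ^ n) + l * g₀ 0 / N) * (1 / (MM b (0, Y) * MM b (0, Y)))
        - g₀ 0 * e' := by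
  obtain ⟨h1, h2, h3⟩ := slit hZ2
  have hha : ContinuousAt h 0 := (hh.analyticAt (Metric.ball_mem_nhds 0 hδ)).continuousAt
  have hga : ContinuousAt g₀ 0 := (hg₀.analyticAt (Metric.ball_mem_nhds 0 hδ)).continuousAt
  obtain ⟨hm, hev⟩ := step_one hN hδ hρ hh hFI hZ hZ2 hY0 hYρ hbc hm0
  constructor
  · have := hev.self_of_nhds.2.2.2.2
    rw [← hZ] at this
    simpa using this
  have hV : Tendsto (fun w => Y - 1 - h w) (𝓝 0) (𝓝 Z) := by
    rw [hZ]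
    exact (tendsto_const_nhds.sub hha.tendsto)
  have homw : Tendsto (fun w => om * w) (𝓝 0) (𝓝 0) := by
    have : Continuous (fun w : ℂ => om * w) := by fun_prop
    exact this.tendsto' _ _ (mul_zero _)
  have hV1 : Tendsto (fun w => Y - 1 - h (om * w)) (𝓝 0) (𝓝 Z) := hV.comp homw
  have hT := T_analytic (N := N) hZ2
  have hF : Tendsto (fun w => MM b (w * ((Y - 1 - h w) / (Y - 1 - h w + 1)) ^ (1 / (N : ℂ)),
      Y - 1 - h w)) (𝓝 0) (𝓝 (MM b (0, Z))) := by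
    have hTV : Tendsto (fun w => ((Y - 1 - h w) / (Y - 1 - h w + 1)) ^ (1 / (N : ℂ))) (𝓝 0)
      (𝓝 _) := hT.continuousAt.tendsto.comp hV
    have ha0 : Tendsto (fun w => w * ((Y - 1 - h w) / (Y - 1 - h w + 1)) ^ (1 / (N : ℂ))) (𝓝 0)
        (𝓝 0) := by
      have := tendsto_id.mul hTV
      simp only [id_eq, zero_mul] at this
      exact this
    exact hD.continuousAt.tendsto.comp (ha0.prodMk_nhds hV)
  have hle : 𝓝[≠] (0 : ℂ) ≤ 𝓝 0 := nhdsWithin_le_nhds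
  have hw0 : ∀ᶠ w : ℂ in 𝓝[≠] 0, w ≠ 0 := self_mem_nhdsWithin
  have hwl : ∀ᶠ w : ℂ in 𝓝[≠] 0, w ^ l ≠ 0 := by
    filter_upwards [hw0] with w hw using pow_ne_zero _ hw
  have hball : ∀ᶠ w : ℂ in 𝓝 0, ‖w‖ < δ := by
    filter_upwards [Metric.ball_mem_nhds (0 : ℂ) hδ] with w hw
    simpa using hw
  have t1 := lim_F (T := fun V : ℂ => (V / (V + 1)) ^ (1 / (N : ℂ))) hδ hC hha hga hgh hb hgb hZ
    h3 hZC hT hD hgsZ
  have t2 := lim_m (N := N) hδ hC hom hl hh hg₀ hgh hb hgb hYC hgsY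
  -- the last term
  have hVd : Tendsto (fun w => (w ^ l)⁻¹ • ((Y - 1 - h (om * w)) - (Y - 1 - h w))) (𝓝[≠] 0)
      (𝓝 (-g₀ 0)) := by
    refine ((hga.tendsto.mono_left hle).neg).congr' ?_
    filter_upwards [hwl, hle hball] with w hw hw1
    have := hgh w hw1
    rw [smul_eq_mul]
    field_simp
    linear_combination this
  have t3 := strict_quot he.hasStrictFDerivAt (hV1.mono_left hle) (hV.mono_left hle) hwl hVd
  have hF' : Tendsto (fun w => 1 / (MM b (w * ((Y - 1 - h w) / (Y - 1 - h w + 1)) ^ (1 / (N : ℂ)),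
      Y - 1 - h w) * MM b (om * w * ((Y - 1 - h (om * w)) / (Y - 1 - h (om * w) + 1))
        ^ (1 / (N : ℂ)), Y - 1 - h (om * w)))) (𝓝[≠] 0) (𝓝 (1 / (MM b (0, Z) * MM b (0, Z)))) :=
    (tendsto_const_nhds.div (hF.mul (hF.comp homw)) (mul_ne_zero hF0 hF0)).mono_left hle
  have hm' : Tendsto (fun w => 1 / ((MM b (w, Y) - w * deriv h w / N) *
      (MM b (om * w, Y) - om * w * deriv h (om * w) / N))) (𝓝[≠] 0)
      (𝓝 (1 / (MM b (0, Y) * MM b (0, Y)))) :=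
    (tendsto_const_nhds.div (hm.mul (hm.comp homw)) (mul_ne_zero hm0 hm0)).mono_left hle
  have L1 := t1.mul hF'
  have L2 := (t2.mul hm').add t3
  have L3 := L1.congr' (show _ =ᶠ[𝓝[≠] (0 : ℂ)] _ from by
    filter_upwards [hwl, hle hev, hle (homw.eventually hev)] with w h4 h5 h6
    exact alg_last h5.2.2.1 h6.2.2.1 h5.2.2.2.1 h6.2.2.2.1 h4 h5.2.2.2.2 h6.2.2.2.2)
  have h7 := tendsto_nhds_unique L3 L2
  rw [h7, ContinuousLinearMap.toSpanSingleton_apply, smul_eq_mul]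
  ring

lemma lim_series {c : ℕ → ℂ} {A C : ℝ} (hC : 0 < C) (hc : ∀ n, ‖c n‖ ≤ A * C ^ n)
    (h0 : c 0 = 0) :
    Tendsto (fun Y => Y * ∑' n, c n * (1 / Y) ^ n) (cocompact ℂ) (𝓝 (c 1)) := by
  have hA : 0 ≤ A := by
    have := (norm_nonneg _).trans (hc 0)
    simpa using this
  rw [tendsto_iff_norm_sub_tendsto_zero]
  have hnorm : Tendsto (fun Y : ℂ => ‖Y‖) (cocompact ℂ) atTop := tendsto_norm_cocompact_atTop
  have hlim : Tendsto (fun Y : ℂ => 2 * A * C ^ 2 / ‖Y‖) (cocompact ℂ) (𝓝 0) :=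
    tendsto_const_nhds.div_atTop hnorm
  refine squeeze_zero_norm' ?_ hlim
  filter_upwards [hnorm.eventually_gt_atTop (2 * C), hnorm.eventually_gt_atTop 0] with Y h1 h2
  rw [norm_norm]
  have hY : Y ≠ 0 := norm_pos_iff.1 h2
  set x : ℝ := C * ‖1 / Y‖ with hx
  have hx0 : 0 ≤ x := by positivity
  have hx1 : x < 1 / 2 := by
    rw [hx, norm_div, norm_one, mul_one_div, div_lt_iff₀ h2]
    linarith
  have hb : ∀ n, ‖c n * (1 / Y) ^ n‖ ≤ A * x ^ n := by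
    intro n
    rw [norm_mul, norm_pow, hx, mul_pow, ← mul_assoc]
    gcongr
    exact hc n
  have hsum : Summable (fun n => c n * (1 / Y) ^ n) :=
    Summable.of_norm_bounded ((summable_geometric_of_lt_one hx0 (by linarith)).mul_left A) hb
  have h3 := hsum.sum_add_tsum_nat_add 2
  rw [Finset.sum_range_succ, Finset.sum_range_one, h0, zero_mul, zero_add, pow_one] at h3
  have h4 : ‖∑' i, c (i + 2) * (1 / Y) ^ (i + 2)‖ ≤ A * x ^ 2 * (1 - x)⁻¹ := by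
    refine tsum_of_norm_bounded ((hasSum_geometric_of_lt_one hx0 (by linarith)).mul_left _) ?_
    intro i
    refine (hb (i + 2)).trans (le_of_eq ?_)
    ring
  have h5 : Y * ∑' n, c n * (1 / Y) ^ n - c 1 = Y * ∑' i, c (i + 2) * (1 / Y) ^ (i + 2) := by
    rw [← h3]
    field_simp
    ring
  rw [h5, norm_mul]
  have h6 : (1 - x)⁻¹ ≤ 2 := by
    rw [inv_le_comm₀ (by linarith) (by norm_num)]
    linarith
  calc ‖Y‖ * ‖∑' i, c (i + 2) * (1 / Y) ^ (i + 2)‖ ≤ ‖Y‖ * (A * x ^ 2 * 2) := by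
        gcongr
        exact h4.trans (by gcongr)
    _ = 2 * A * C ^ 2 / ‖Y‖ := by
        rw [hx, norm_div, norm_one]
        field_simp

end Ram

/-- RAM: first order in `w ^ l` of the invariance at `om * w` minus at `w` (`N = P`). -/
theorem place_ram {N : ℕ} {κ h : ℂ → ℂ} {δ C ρ : ℝ} {b : ℕ → ℂ → ℂ}
    (hs : PlaceSeries N κ δ N h b C) (hρ : 0 < ρ)
    (hFI : ∀ w η, ‖w‖ < ρ → ‖η‖ < ρ → FIat N N h b w η) (hc : h 0 ≠ -1)
    {om : ℂ} (hom : om ^ N = 1) {l : ℕ} (hl : 0 < l) {g : ℕ → ℂ → ℂ} {g₀ : ℂ → ℂ}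
    (hg₀ : DifferentiableOn ℂ g₀ (Metric.ball 0 δ)) (hg0 : g₀ 0 ≠ 0)
    (hgh : ∀ w, ‖w‖ < δ → h (om * w) - h w = w ^ l * g₀ w)
    (hg : ∀ n, DifferentiableOn ℂ (g n) (Metric.ball 0 δ))
    (hgb : ∀ n w, ‖w‖ < δ → b n (om * w) - b n w = w ^ l * g n w)
    {H : ℂ → ℂ} {R : ℝ} (hR : 0 < R) (hHd : DifferentiableOn ℂ H {Y | R < ‖Y‖})
    (hH0 : Tendsto H (cocompact ℂ) (𝓝 0))
    (hH : ∀ Y, R < ‖Y‖ → H Y * (Y - Y ^ 2 * bsum b 0 (1 / Y)) = 1) :
    ∃ R' > 0, ∃ G : ℂ → ℂ, DifferentiableOn ℂ G {Y | R' < ‖Y‖} ∧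
      Tendsto G (cocompact ℂ) (𝓝 0) ∧
      ∀ Y, R' + ‖1 + h 0‖ + 1 < ‖Y‖ →
        ((Y - (1 + h 0)) / (Y - (1 + h 0) + 1)) ^ ((l : ℂ) / N) * G (Y - (1 + h 0)) - G Y
          = (l : ℂ) / N * H Y ^ 2 + deriv H Y := by
  have hN := hs.N_pos
  have hδ := hs.δ_pos
  have hC := hs.C_pos
  have hom1 : ‖om‖ = 1 := Complex.norm_eq_one_of_pow_eq_one hom hN.ne'
  obtain ⟨A, hA⟩ := g_bound hom1 hδ hC hs.b_bound hg hgb
  have hδ2 : 0 < δ / 2 := by positivity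
  have hsub : Metric.ball (0 : ℂ) (δ / 2) ⊆ Metric.ball 0 δ :=
    Metric.ball_subset_ball (by linarith)
  have hbs : ∀ η : ℂ, ‖η‖ < 1 / (2 * C) → ∃ D : ℂ × ℂ →L[ℂ] ℂ,
      HasStrictFDerivAt (fun p : ℂ × ℂ => bsum b p.1 p.2) D (0, η) := by
    intro η hη
    exact strict_series (A := 1) hδ hC hs.b_diff (by simpa using hs.b_bound) 0 η
      (by simpa using hδ2) hη
  have hgs : ∀ η : ℂ, ‖η‖ < 1 / (2 * C) → ∃ D : ℂ × ℂ →L[ℂ] ℂ,
      HasStrictFDerivAt (fun p : ℂ × ℂ => ∑' n, g n p.1 * p.2 ^ n) D (0, η) := by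
    intro η hη
    exact strict_series (A := A) hδ2 hC (fun n => (hg n).mono hsub) hA 0 η
      (by simpa using hδ2) hη
  -- the series at `w = 0`
  have hcomp : ∀ (f : ℂ × ℂ → ℂ) (D : ℂ × ℂ →L[ℂ] ℂ) (η : ℂ), HasStrictFDerivAt f D (0, η) →
      HasDerivAt (fun η => f (0, η)) (D (0, 1)) η := by
    intro f D η hf
    exact hf.hasFDerivAt.comp_hasDerivAt η ((hasDerivAt_const η (0 : ℂ)).prodMk (hasDerivAt_id η))
  set gs : ℂ → ℂ := fun η => ∑' n, g n 0 * η ^ n with hgsdef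
  have hgsd : ∀ η : ℂ, ‖η‖ < 1 / (2 * C) → DifferentiableAt ℂ gs η := by
    intro η hη
    obtain ⟨D, hD⟩ := hgs η hη
    exact (hcomp _ D η hD).differentiableAt
  set R' : ℝ := R + 2 * C + 1 / ρ + 2 with hR'
  have hR'0 : 0 < R' := by positivity
  have hρ' : 0 < 1 / ρ := by positivity
  -- consequences of `R' < ‖Y‖`
  have hbig : ∀ Y : ℂ, R' < ‖Y‖ → Y ≠ 0 ∧ R < ‖Y‖ ∧ 2 < ‖Y‖ ∧ ‖1 / Y‖ < 1 / (2 * C) ∧
      ‖1 / Y‖ < ρ ∧ C * ‖1 / Y‖ < 1 := by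
    intro Y hY
    have h0 : 0 < ‖Y‖ := hR'0.trans hY
    have h1 : ‖1 / Y‖ < 1 / (2 * C) := by
      rw [norm_div, norm_one]
      exact one_div_lt_one_div_of_lt (by positivity) (by rw [hR'] at hY; linarith)
    refine ⟨norm_pos_iff.1 h0, by rw [hR'] at hY; linarith, by rw [hR'] at hY; linarith, h1, ?_, ?_⟩
    · rw [norm_div, norm_one, one_div_lt h0 hρ]
      rw [hR'] at hY; linarith
    · have : C * ‖1 / Y‖ < C * (1 / (2 * C)) := mul_lt_mul_of_pos_left h1 hC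
      have h3 : C * (1 / (2 * C)) = 1 / 2 := by field_simp
      linarith
  refine ⟨R', hR'0, fun Y => Y ^ 2 * gs (1 / Y) * H Y ^ 2 / g₀ 0, ?_, ?_, ?_⟩
  · -- differentiability
    intro Y hY
    obtain ⟨h1, h2, h3, h4, h5, h6⟩ := hbig Y hY
    have d1 : DifferentiableAt ℂ H Y :=
      hHd.differentiableAt ((isOpen_lt continuous_const continuous_norm).mem_nhds h2)
    have d2 : DifferentiableAt ℂ (fun Y : ℂ => gs (1 / Y)) Y := by
      have : DifferentiableAt ℂ (fun Y : ℂ => 1 / Y) Y :=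
        (differentiableAt_const _).div differentiableAt_id h1
      exact (hgsd (1 / Y) h4).comp Y this
    exact ((((differentiableAt_id.pow 2).mul d2).mul (d1.pow 2)).div_const _).differentiableWithinAt
  · -- decay
    have hg00 : g 0 0 = 0 := by
      have hz : ∀ w, w ≠ 0 → ‖w‖ < δ → g 0 w = 0 := by
        intro w hw hwδ
        have := hgb 0 w hwδ
        rw [hs.b_zero, hs.b_zero, sub_zero] at this
        rcases mul_eq_zero.1 this.symm with h | h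
        · exact absurd h (pow_ne_zero _ hw)
        · exact h
      have hcont : ContinuousAt (g 0) 0 :=
        ((hg 0).differentiableAt (Metric.ball_mem_nhds 0 hδ)).continuousAt
      have t1 : Tendsto (g 0) (𝓝[≠] 0) (𝓝 (g 0 0)) := hcont.tendsto.mono_left nhdsWithin_le_nhds
      have t2 : Tendsto (g 0) (𝓝[≠] 0) (𝓝 0) := by
        refine tendsto_const_nhds.congr' ?_
        filter_upwards [self_mem_nhdsWithin, nhdsWithin_le_nhds (Metric.ball_mem_nhds (0 : ℂ) hδ)]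
          with w h1 h2
        exact (hz w h1 (by simpa using h2)).symm
      exact tendsto_nhds_unique t1 t2
    have l1 : Tendsto (fun Y : ℂ => Y * gs (1 / Y)) (cocompact ℂ) (𝓝 (g 1 0)) :=
      Ram.lim_series (c := fun n => g n 0) hC (fun n => hA n 0 (by simpa using hδ2)) hg00
    have l2 : Tendsto (fun Y : ℂ => Y * bsum b 0 (1 / Y)) (cocompact ℂ) (𝓝 (b 1 0)) :=
      Ram.lim_series (c := fun n => b n 0) (A := 1) hC
        (fun n => by simpa using hs.b_bound n 0 (by simpa using hδ)) (hs.b_zero 0)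
    have hb1 : b 1 0 = - h 0 := hs.b_one 0 (by simpa using hδ)
    have hne : (1 : ℂ) - b 1 0 ≠ 0 := by
      rw [hb1]
      intro h; apply hc; linear_combination h
    have l3 : Tendsto (fun Y : ℂ => Y * H Y) (cocompact ℂ) (𝓝 (1 / (1 - b 1 0))) := by
      have l4 : Tendsto (fun Y : ℂ => 1 / (1 - Y * bsum b 0 (1 / Y))) (cocompact ℂ)
          (𝓝 (1 / (1 - b 1 0))) := tendsto_const_nhds.div (tendsto_const_nhds.sub l2) hne
      refine l4.congr' ?_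
      filter_upwards [tendsto_norm_cocompact_atTop.eventually_gt_atTop R'] with Y hY
      obtain ⟨h1, h2, h3, h4, h5, h6⟩ := hbig Y hY
      have e1 := hH Y h2
      have e2 : Y * H Y * (1 - Y * bsum b 0 (1 / Y)) = 1 := by linear_combination e1
      have e3 : 1 - Y * bsum b 0 (1 / Y) ≠ 0 := by
        intro h; rw [h, mul_zero] at e2; exact zero_ne_one e2
      rw [eq_comm, eq_div_iff e3]
      exact e2
    have l5 := ((l1.mul l3).mul hH0).div_const (g₀ 0)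
    rw [mul_zero, zero_div] at l5
    refine l5.congr' ?_
    filter_upwards with Y
    ring
  · -- the equation
    have key : ∀ Y : ℂ, R' + ‖1 + h 0‖ + 1 < ‖Y‖ → ∃ D : ℂ × ℂ →L[ℂ] ℂ, ∃ e' : ℂ,
        HasStrictFDerivAt (Ram.MM b) D (0, Y - 1 - h 0) ∧
        HasStrictDerivAt (fun V : ℂ => 1 / (V * (V + 1))) e' (Y - 1 - h 0) ∧
        R < ‖Y‖ ∧ R < ‖Y - 1 - h 0‖ ∧
        1 / Ram.MM b (0, Y - 1 - h 0) = 1 / Ram.MM b (0, Y)
          + 1 / ((Y - 1 - h 0) * (Y - 1 - h 0 + 1)) ∧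
        ((Y - 1 - h 0) ^ 2 * (((Y - 1 - h 0) / (Y - 1 - h 0 + 1)) ^ (1 / (N : ℂ))) ^ l *
            gs (1 / (Y - 1 - h 0)) + D (0, g₀ 0))
            * (1 / (Ram.MM b (0, Y - 1 - h 0) * Ram.MM b (0, Y - 1 - h 0)))
          = (Y ^ 2 * gs (1 / Y) + l * g₀ 0 / N)
              * (1 / (Ram.MM b (0, Y) * Ram.MM b (0, Y))) - g₀ 0 * e' := by
      intro Y hY
      have hY1 : R' < ‖Y‖ := by
        have := norm_nonneg (1 + h 0)
        linarith
      have hZ1 : R' < ‖Y - 1 - h 0‖ := by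
        have h1 : ‖Y‖ ≤ ‖Y - 1 - h 0‖ + ‖1 + h 0‖ := by
          calc ‖Y‖ = ‖(Y - 1 - h 0) + (1 + h 0)‖ := by congr 1; ring
            _ ≤ _ := norm_add_le _ _
        linarith
      obtain ⟨a1, a2, a3, a4, a5, a6⟩ := hbig Y hY1
      obtain ⟨z1, z2, z3, z4, z5, z6⟩ := hbig _ hZ1
      obtain ⟨D0, hD0⟩ := hbs _ z4
      obtain ⟨D, hD⟩ := Ram.MM_strict z1 hD0
      obtain ⟨s1, s2, s3⟩ := Ram.slit z3
      have he : AnalyticAt ℂ (fun V : ℂ => 1 / (V * (V + 1))) (Y - 1 - h 0) :=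
        AnalyticAt.div analyticAt_const (analyticAt_id.mul (analyticAt_id.add analyticAt_const))
          (mul_ne_zero s3 s2)
      have hm0 : Ram.MM b (0, Y) ≠ 0 := by
        intro h0
        have := hH Y a2
        unfold Ram.MM at h0
        rw [h0, mul_zero] at this
        exact zero_ne_one this
      have hF0 : Ram.MM b (0, Y - 1 - h 0) ≠ 0 := by
        intro h0
        have := hH _ z2
        unfold Ram.MM at h0
        rw [h0, mul_zero] at this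
        exact zero_ne_one this
      obtain ⟨Db, hDb⟩ := hbs _ a4
      obtain ⟨Dg, hDg⟩ := hgs _ a4
      obtain ⟨Dg', hDg'⟩ := hgs _ z4
      have hbc : ContinuousAt (fun w : ℂ => bsum b w (1 / Y)) 0 := by
        have e1 : ContinuousAt (fun w : ℂ => (w, 1 / Y)) 0 :=
          continuousAt_id.prodMk continuousAt_const
        exact ContinuousAt.comp (g := fun p : ℂ × ℂ => bsum b p.1 p.2) (x := (0 : ℂ))
          hDb.continuousAt e1
      obtain ⟨c1, c2⟩ := Ram.core hN hδ hρ hC hom1 hl hs.h_diff hg₀ hgh hs.b_bound hgb hFI rfl z3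
        z6 a1 a5 a6 hD hbc hDg'.continuousAt hDg.continuousAt hm0 hF0 he.hasStrictDerivAt
      exact ⟨D, _, hD, he.hasStrictDerivAt, a2, z2, c1, c2⟩
    have hHM : ∀ Y : ℂ, R < ‖Y‖ → H Y = 1 / Ram.MM b (0, Y) := by
      intro Y hY
      have h1 := hH Y hY
      have h2 : Ram.MM b (0, Y) ≠ 0 := by
        intro h0
        unfold Ram.MM at h0
        rw [h0, mul_zero] at h1
        exact zero_ne_one h1
      rw [eq_div_iff h2]
      exact h1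
    intro Y hY
    obtain ⟨D, e', hD, he, hYR, hZR, -, k2⟩ := key Y hY
    have hZe : Y - (1 + h 0) = Y - 1 - h 0 := by ring
    rw [hZe]
    set Z := Y - 1 - h 0 with hZ
    have hoR : IsOpen {Y : ℂ | R < ‖Y‖} := isOpen_lt continuous_const continuous_norm
    have dY : HasDerivAt H (deriv H Y) Y := (hHd.differentiableAt (hoR.mem_nhds hYR)).hasDerivAt
    have dZ : HasDerivAt H (deriv H Z) Z := (hHd.differentiableAt (hoR.mem_nhds hZR)).hasDerivAt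
    -- derivative of `H * M = 1`
    have r1 : deriv H Z * Ram.MM b (0, Z) + H Z * D (0, 1) = 0 := by
      have d1 := dZ.mul (hcomp _ D Z hD)
      have d2 : HasDerivAt (fun V => H V * Ram.MM b (0, V)) 0 Z := by
        refine (hasDerivAt_const Z (1 : ℂ)).congr_of_eventuallyEq ?_
        filter_upwards [hoR.mem_nhds hZR] with V hV
        exact hH V hV
      exact d1.unique d2
    -- derivative of the equation for `H`
    have r2 : deriv H Z = deriv H Y + e' := by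
      have d1 : HasDerivAt (fun V => H (V - 1 - h 0)) (deriv H Z * 1) Y :=
        HasDerivAt.comp Y (h₂ := H) (by exact dZ) (((hasDerivAt_id Y).sub_const 1).sub_const (h 0))
      have d2 : HasDerivAt (fun V => 1 / ((V - 1 - h 0) * (V - 1 - h 0 + 1))) (e' * 1) Y :=
        HasDerivAt.comp Y (h₂ := fun V : ℂ => 1 / (V * (V + 1))) (by exact he.hasDerivAt)
          (((hasDerivAt_id Y).sub_const 1).sub_const (h 0))
      have d3 := dY.add d2
      have d4 : HasDerivAt (fun V => H (V - 1 - h 0)) (deriv H Y + e' * 1) Y := by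
        refine d3.congr_of_eventuallyEq ?_
        have hoY : IsOpen {Y : ℂ | R' + ‖1 + h 0‖ + 1 < ‖Y‖} :=
          isOpen_lt continuous_const continuous_norm
        filter_upwards [hoY.mem_nhds hY] with V hV
        obtain ⟨-, -, -, -, v1, v2, v3, -⟩ := key V hV
        rw [hHM _ v2, v3]
        simp only [Pi.add_apply]
        rw [hHM _ v1]
      have := d1.unique d4
      linear_combination this
    have hT : (Z / (Z + 1)) ^ ((l : ℂ) / N) = ((Z / (Z + 1)) ^ (1 / (N : ℂ))) ^ l := by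
      rw [← Complex.cpow_nat_mul]
      congr 1
      ring
    have hDl : D (0, g₀ 0) = g₀ 0 * D (0, 1) := by
      have : ((0 : ℂ), g₀ 0) = g₀ 0 • ((0 : ℂ), (1 : ℂ)) := by simp
      rw [this, map_smul, smul_eq_mul]
    have hHZ : 1 / (Ram.MM b (0, Z) * Ram.MM b (0, Z)) = H Z ^ 2 := by
      rw [hHM Z hZR]; ring
    have hHY : 1 / (Ram.MM b (0, Y) * Ram.MM b (0, Y)) = H Y ^ 2 := by
      rw [hHM Y hYR]; ring
    have r3 : deriv H Z = - H Z ^ 2 * D (0, 1) := by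
      have h1 : H Z * Ram.MM b (0, Z) = 1 := hH Z hZR
      linear_combination H Z * r1 - deriv H Z * h1
    rw [hT]
    rw [hHZ, hHY, hDl] at k2
    have hgi : g₀ 0 * (g₀ 0)⁻¹ = 1 := mul_inv_cancel₀ hg0
    simp only [div_eq_mul_inv] at k2 ⊢
    linear_combination (g₀ 0)⁻¹ * k2 + (l * (N : ℂ)⁻¹ * H Y ^ 2 + deriv H Y) * hgi
      - (g₀ 0)⁻¹ * g₀ 0 * (r3 - r2)

end Pool.Agent.MP_ae5b4e_an_ND
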