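import Pool.Agent.Lib.MP_ae5b4e_an_LAT.NDFip

/-!
# The leading order at a regular singular place (problem `MP_ae5b4e_an`)
-/

namespace Pool.Agent.MP_ae5b4e_an_ND

open Filter Topology

/-- `q = bsum b 0` has the expansion `- c η + O(η²)`. -/
theorem bsum_zero_bound {N P : ℕ} {κ h : ℂ → ℂ} {δ C : ℝ} {b : ℕ → ℂ → ℂ}
    (hs : PlaceSeries N κ δ P h b C) {η : ℂ} (hη : ‖η‖ ≤ 1 / (2 * C)) :
    ‖bsum b 0 η + h 0 * η‖ ≤ 2 * C ^ 2 * ‖η‖ ^ 2 := by
  have hC := hs.C_pos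
  have hδ := hs.δ_pos
  have hw : ‖(0 : ℂ)‖ < δ := by rw [norm_zero]; exact hδ
  have hr : C * ‖η‖ ≤ 1 / 2 := by
    calc C * ‖η‖ ≤ C * (1 / (2 * C)) := by gcongr
      _ = 1 / 2 := by field_simp
  have hr0 : 0 ≤ C * ‖η‖ := by positivity
  have hbd : ∀ n, ‖b n 0 * η ^ n‖ ≤ (C * ‖η‖) ^ n := by
    intro n
    rw [norm_mul, norm_pow, mul_pow]
    gcongr
    exact hs.b_bound n 0 hw
  have hsum : Summable (fun n => b n 0 * η ^ n) :=
    Summable.of_norm_bounded (summable_geometric_of_lt_one hr0 (by linarith)) hbd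
  have h1 := (hasSum_nat_add_iff' 2).2 hsum.hasSum
  have h2 : ∑ i ∈ Finset.range 2, b i 0 * η ^ i = - (h 0 * η) := by
    rw [Finset.sum_range_succ, Finset.sum_range_succ, Finset.sum_range_zero, hs.b_zero,
      hs.b_one 0 hw]
    ring
  have e : bsum b 0 η + h 0 * η = ∑' n, b (n + 2) 0 * η ^ (n + 2) := by
    rw [h1.tsum_eq, h2]
    unfold bsum
    ring
  rw [e]
  have hg : HasSum (fun n : ℕ => (C * ‖η‖) ^ (n + 2)) ((C * ‖η‖) ^ 2 * (1 - C * ‖η‖)⁻¹) := by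
    have h5 := (hasSum_geometric_of_lt_one hr0 (by linarith)).mul_left ((C * ‖η‖) ^ 2)
    have e5 : (fun n : ℕ => (C * ‖η‖) ^ (n + 2)) = fun i => (C * ‖η‖) ^ 2 * (C * ‖η‖) ^ i := by
      funext m
      rw [pow_add]
      ring
    rw [e5]
    exact h5
  have h6 := tsum_of_norm_bounded hg (fun m => hbd (m + 2))
  refine h6.trans ?_
  have h7 : (1 - C * ‖η‖)⁻¹ ≤ 2 := by
    rw [inv_le_comm₀ (by linarith) (by norm_num)]
    linarith
  calc (C * ‖η‖) ^ 2 * (1 - C * ‖η‖)⁻¹ ≤ (C * ‖η‖) ^ 2 * 2 := by gcongr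
    _ = 2 * C ^ 2 * ‖η‖ ^ 2 := by ring

/-- The invariance at `w = 0`, `P = N`. -/
theorem FI_zero {N : ℕ} (hN : 0 < N) {h : ℂ → ℂ} {b : ℕ → ℂ → ℂ} {η : ℂ}
    (hd : 1 - h 0 * η ≠ 0) (hFI : FIat N N h b 0 η) :
    bsum b 0 (η / (1 - (1 + h 0) * η)) * (1 - (bsum b 0 η - h 0 * η ^ 2) / (1 - h 0 * η) ^ 2)
      = (bsum b 0 η - h 0 * η ^ 2) / (1 - h 0 * η) ^ 2 := by
  have hN' : (N : ℂ) ≠ 0 := by exact_mod_cast hN.ne'
  have h1 : thF N N h 0 η ^ N = 1 - η / (1 - h 0 * η) := by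
    rw [thF_pow hN]
    simp
  have h2 : (1 - h 0 * η) * thF N N h 0 η ^ N = 1 - (1 + h 0) * η := by
    rw [h1]
    field_simp
    ring
  have h3 : WF N N h b 0 η = (bsum b 0 η - h 0 * η ^ 2) / (1 - h 0 * η) ^ 2 := by
    unfold WF
    simp only [Nat.sub_self, pow_zero, zero_mul, zero_sub, one_mul]
    congr 1
    field_simp
    ring
  unfold FIat at hFI
  rw [h2, h3, zero_mul] at hFI
  exact hFI

/-- EXTR0: regular singular place, leading order (N = P) -/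
theorem place_res {N : ℕ} {κ h : ℂ → ℂ} {δ C ρ : ℝ} {b : ℕ → ℂ → ℂ}
    (hs : PlaceSeries N κ δ N h b C) (hρ : 0 < ρ)
    (hFI : ∀ w η, ‖w‖ < ρ → ‖η‖ < ρ → FIat N N h b w η) (hc : h 0 ≠ -1) :
    ∃ R > 0, ∃ H : ℂ → ℂ, DifferentiableOn ℂ H {Y | R < ‖Y‖} ∧
      Tendsto H (cocompact ℂ) (𝓝 0) ∧
      (∀ Y, R < ‖Y‖ → H Y * (Y - Y ^ 2 * bsum b 0 (1 / Y)) = 1) ∧
      ∀ Y, R + ‖1 + h 0‖ + 1 < ‖Y‖ →
        H (Y - (1 + h 0)) - H Y = 1 / ((Y - (1 + h 0)) * (Y - (1 + h 0) + 1)) := by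
  have hC := hs.C_pos
  have hδ := hs.δ_pos
  set c := h 0 with hcdef
  have hc1 : 1 + c ≠ 0 := by
    intro h0
    apply hc
    linear_combination h0
  have hcn : 0 < ‖1 + c‖ := norm_pos_iff.2 hc1
  set R : ℝ := 2 * C + 1 / ρ + 4 * C ^ 2 / ‖1 + c‖ + 1 with hR
  have hRpos : 0 < R := by positivity
  have hR1 : 2 * C ≤ R := by
    have : 0 ≤ 1 / ρ + 4 * C ^ 2 / ‖1 + c‖ + 1 := by positivity
    linarith
  have hR2 : 1 / ρ ≤ R := by
    have : 0 ≤ 2 * C + 4 * C ^ 2 / ‖1 + c‖ + 1 := by positivity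
    linarith
  have hR3 : 4 * C ^ 2 / ‖1 + c‖ ≤ R := by
    have : 0 ≤ 2 * C + 1 / ρ + 1 := by positivity
    linarith
  have hR4 : 1 ≤ R := by
    have : 0 ≤ 2 * C + 1 / ρ + 4 * C ^ 2 / ‖1 + c‖ := by positivity
    linarith
  set M : ℂ → ℂ := fun Y => Y - Y ^ 2 * bsum b 0 (1 / Y) with hM
  have hY0 : ∀ Y : ℂ, R < ‖Y‖ → Y ≠ 0 := by
    intro Y hY h0
    rw [h0, norm_zero] at hY
    linarith
  have hYC : ∀ Y : ℂ, R < ‖Y‖ → ‖1 / Y‖ ≤ 1 / (2 * C) := by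
    intro Y hY
    rw [norm_div, norm_one]
    apply one_div_le_one_div_of_le (by positivity)
    linarith
  have hMb : ∀ Y : ℂ, R < ‖Y‖ → ‖M Y - (1 + c) * Y‖ ≤ 2 * C ^ 2 := by
    intro Y hY
    have hY' := hY0 Y hY
    have h1 := bsum_zero_bound hs (hYC Y hY)
    have e : M Y - (1 + c) * Y = -(Y ^ 2 * (bsum b 0 (1 / Y) + h 0 * (1 / Y))) := by
      simp only [hM, hcdef]
      field_simp
      ring
    rw [e, norm_neg, norm_mul, norm_pow]
    have hYn : 0 < ‖Y‖ := norm_pos_iff.2 hY'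
    calc ‖Y‖ ^ 2 * ‖bsum b 0 (1 / Y) + h 0 * (1 / Y)‖
        ≤ ‖Y‖ ^ 2 * (2 * C ^ 2 * ‖1 / Y‖ ^ 2) := by gcongr
      _ = 2 * C ^ 2 := by
          rw [norm_div, norm_one]
          field_simp
  have hMlow : ∀ Y : ℂ, R < ‖Y‖ → ‖1 + c‖ * ‖Y‖ / 2 ≤ ‖M Y‖ := by
    intro Y hY
    have h1 := hMb Y hY
    have h2 : ‖(1 + c) * Y‖ - ‖M Y‖ ≤ ‖M Y - (1 + c) * Y‖ := by
      rw [norm_sub_rev (M Y)]
      exact norm_sub_norm_le _ _
    rw [norm_mul] at h2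
    have h3 : 4 * C ^ 2 ≤ ‖1 + c‖ * ‖Y‖ := by
      have : 4 * C ^ 2 / ‖1 + c‖ ≤ ‖Y‖ := by linarith
      rw [div_le_iff₀ hcn] at this
      linarith
    linarith
  have hM0 : ∀ Y : ℂ, R < ‖Y‖ → M Y ≠ 0 := by
    intro Y hY h0
    have h1 := hMlow Y hY
    rw [h0, norm_zero] at h1
    have h2 : 0 < ‖Y‖ := by linarith
    have h3 : 0 < ‖1 + c‖ * ‖Y‖ / 2 := by positivity
    linarith
  have hopen : IsOpen {Y : ℂ | R < ‖Y‖} := isOpen_lt (by fun_prop) (by fun_prop)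
  have hMd : DifferentiableOn ℂ M {Y : ℂ | R < ‖Y‖} := by
    have hG : DifferentiableOn ℂ (fun Y : ℂ => 1 / Y) {Y : ℂ | R < ‖Y‖} := by
      intro Y hY
      exact ((differentiableAt_const _).div differentiableAt_id (hY0 Y hY)).differentiableWithinAt
    have h1 : DifferentiableOn ℂ (fun Y : ℂ => bsum b 0 (1 / Y)) {Y : ℂ | R < ‖Y‖} :=
      bsum_comp_diff hs hopen (F := fun _ => 0) (differentiableOn_const _) hG
        (fun t _ => by rw [norm_zero]; exact hδ) (fun t ht => hYC t ht)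
    exact differentiableOn_id.sub ((differentiableOn_id.pow 2).mul h1)
  refine ⟨R, hRpos, fun Y => 1 / M Y, ?_, ?_, ?_, ?_⟩
  · exact (differentiableOn_const _).div hMd (fun Y hY => hM0 Y hY)
  · -- decay
    rw [tendsto_zero_iff_norm_tendsto_zero]
    have hinf : Tendsto (fun Y : ℂ => ‖Y‖) (cocompact ℂ) atTop := tendsto_norm_cocompact_atTop
    have h1 : Tendsto (fun Y : ℂ => 2 / ‖1 + c‖ * ‖Y‖⁻¹) (cocompact ℂ) (𝓝 (2 / ‖1 + c‖ * 0)) :=
      (tendsto_inv_atTop_zero.comp hinf).const_mul _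
    rw [mul_zero] at h1
    refine squeeze_zero' (Eventually.of_forall fun _ => norm_nonneg _) ?_ h1
    filter_upwards [hinf.eventually_gt_atTop R] with Y hY
    have h2 := hMlow Y hY
    have h3 : 0 < ‖Y‖ := by linarith
    rw [norm_div, norm_one, one_div]
    calc ‖M Y‖⁻¹ ≤ (‖1 + c‖ * ‖Y‖ / 2)⁻¹ := by
          apply inv_anti₀ (by positivity) h2
      _ = 2 / ‖1 + c‖ * ‖Y‖⁻¹ := by field_simp
  · intro Y hY
    exact one_div_mul_cancel (hM0 Y hY)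
  · intro Y hY
    show 1 / M (Y - (1 + c)) - 1 / M Y = 1 / ((Y - (1 + c)) * (Y - (1 + c) + 1))
    have hY1 : R < ‖Y‖ := by linarith
    have hYne := hY0 Y hY1
    have hYp : R + 1 < ‖Y - (1 + c)‖ := by
      have := norm_sub_norm_le Y (1 + c)
      linarith
    have hYp1 : R < ‖Y - (1 + c)‖ := by linarith
    have hYp0 := hY0 _ hYp1
    have hYp2 : Y - (1 + c) + 1 ≠ 0 := by
      intro h0
      have h1 : Y - (1 + c) = -1 := by linear_combination h0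
      rw [h1, norm_neg, norm_one] at hYp
      linarith
    have hη : ‖1 / Y‖ < ρ := by
      rw [norm_div, norm_one, div_lt_iff₀ (by linarith)]
      have h1 : 1 / ρ < ‖Y‖ := by linarith
      rw [div_lt_iff₀ hρ] at h1
      linarith
    have hden : 1 - h 0 * (1 / Y) ≠ 0 := by
      intro h0
      apply hYp2
      have : Y - c = 0 := by
        rw [← hcdef] at h0
        field_simp at h0
        linear_combination h0
      linear_combination this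
    have h1 := FI_zero hs.N_pos hden (hFI 0 (1 / Y) (by rw [norm_zero]; exact hρ) hη)
    rw [← hcdef] at h1 hden
    have e1 : (1 / Y) / (1 - (1 + c) * (1 / Y)) = 1 / (Y - (1 + c)) := by
      have : 1 - (1 + c) * (1 / Y) = (Y - (1 + c)) / Y := by field_simp
      rw [this]
      field_simp
    rw [e1] at h1
    have q1 : bsum b 0 (1 / Y) = (Y - M Y) / Y ^ 2 := by
      simp only [hM]
      field_simp
      ring
    have q2 : bsum b 0 (1 / (Y - (1 + c))) = (Y - (1 + c) - M (Y - (1 + c))) / (Y - (1 + c)) ^ 2 := by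
      simp only [hM]
      field_simp
      ring
    rw [q1, q2] at h1
    have m1 := hM0 _ hY1
    have m2 := hM0 _ hYp1
    have hYc : Y - c ≠ 0 := by
      intro h0; apply hYp2; linear_combination h0
    generalize M (Y - (1 + c)) = M' at h1 m2 ⊢
    generalize M Y = M₀ at h1 m1 ⊢
    obtain ⟨Z, hZ⟩ : ∃ Z, Z = Y - (1 + c) := ⟨_, rfl⟩
    rw [← hZ] at h1 hYp0 hYp2 ⊢
    have hYZ : Y = Z + 1 + c := by rw [hZ]; ring
    have e2 : ((Y - M₀) / Y ^ 2 - c * (1 / Y) ^ 2) / (1 - c * (1 / Y)) ^ 2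
        = (Z + 1 - M₀) / (Z + 1) ^ 2 := by
      have : 1 - c * (1 / Y) = (Z + 1) / Y := by
        rw [eq_div_iff hYne]
        field_simp
        rw [hYZ]; ring
      rw [this]
      field_simp
      rw [hYZ]; ring
    rw [e2] at h1
    have key : M₀ * (Z * (Z + 1)) = M' * (Z * (Z + 1) + M₀) := by
      field_simp at h1
      have h9 : (Z + 1) ^ 2 ≠ 0 := pow_ne_zero _ hYp2
      linear_combination h1
    field_simp
    linear_combination key

end Pool.Agent.MP_ae5b4e_an_ND
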