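import Mathlib

/-!
# Shift equations near infinity (LAT, route ND)

One variable end statements of the local step at a place: `nd_shift_res` (the exponent at a regular
singular place is `1/m - 1`), `nd_shift_irr` (no irregular place), `nd_shift_ram` (no ramification).
-/

namespace Pool.Agent.MP_ae5b4e_an_ND.Shift

open Complex Filter Topology

/-- Separation of a non integral power: if `(t i) ^ s A(t i) = B(t i)` for small `t > 0`, with `A`, `B`
analytic at `0` and `s` real, not an integer, then `A` vanishes near `0`. -/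
theorem pow_sep {s : ℝ} (hs : ∀ n : ℤ, s ≠ n) {A B : ℂ → ℂ} (hA : AnalyticAt ℂ A 0)
    (hB : AnalyticAt ℂ B 0)
    (h : ∀ᶠ t : ℝ in 𝓝[>] 0, ((t : ℂ) * I) ^ (s : ℂ) * A ((t : ℂ) * I) = B ((t : ℂ) * I)) :
    ∀ᶠ z in 𝓝 (0 : ℂ), A z = 0 := by
  by_contra hne
  -- the map t ↦ t i
  have hcont : Tendsto (fun t : ℝ => (t : ℂ) * I) (𝓝[>] 0) (𝓝 (0 : ℂ)) := by
    have : Continuous (fun t : ℝ => (t : ℂ) * I) := by fun_prop
    have h1 := this.tendsto 0
    simp only [ofReal_zero, zero_mul] at h1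
    exact h1.mono_left nhdsWithin_le_nhds
  have hpos : ∀ᶠ t : ℝ in 𝓝[>] 0, 0 < t := eventually_mem_nhdsWithin
  obtain ⟨a, A1, hA1, hA10, hAe⟩ := (hA.exists_eventuallyEq_pow_smul_nonzero_iff).2 hne
  have hnorm : ∀ t : ℝ, 0 < t → ‖((t : ℂ) * I) ^ (s : ℂ)‖ = t ^ s := by
    intro t ht
    have h0 : (t : ℂ) * I ≠ 0 := by
      simp [ht.ne', I_ne_zero]
    rw [norm_cpow_of_ne_zero h0]
    simp [abs_of_pos ht]
  have hnt : ∀ t : ℝ, 0 < t → ‖(t : ℂ) * I‖ = t := by
    intro t ht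
    simp [abs_of_pos ht]
  have hA1t : Tendsto (fun t : ℝ => ‖A1 ((t : ℂ) * I)‖) (𝓝[>] 0) (𝓝 ‖A1 0‖) :=
    (hA1.continuousAt.tendsto.comp hcont).norm
  have hA1ne : ∀ᶠ t : ℝ in 𝓝[>] 0, ‖A1 ((t : ℂ) * I)‖ ≠ 0 := by
    refine hA1t.eventually_ne ?_
    simpa using hA10
  have hAe' : ∀ᶠ t : ℝ in 𝓝[>] 0, A ((t : ℂ) * I) = ((t : ℂ) * I) ^ a * A1 ((t : ℂ) * I) := by
    filter_upwards [hcont.eventually hAe] with t ht
    simpa using ht
  by_cases hB0 : ∀ᶠ z in 𝓝 (0 : ℂ), B z = 0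
  · have hB0' : ∀ᶠ t : ℝ in 𝓝[>] 0, B ((t : ℂ) * I) = 0 := hcont.eventually hB0
    have hF : ∀ᶠ t : ℝ in 𝓝[>] (0 : ℝ), False := by
      filter_upwards [h, hpos, hA1ne, hAe', hB0'] with t h1 h2 h3 h4 h5
      rw [h5, h4] at h1
      have h6 := congrArg norm h1
      rw [norm_mul, norm_mul, norm_pow, hnorm t h2, hnt t h2, norm_zero] at h6
      have h7 : (0 : ℝ) < t ^ s := Real.rpow_pos_of_pos h2 s
      have h8 : (0 : ℝ) < t ^ a := pow_pos h2 a
      rcases mul_eq_zero.1 h6 with h9 | h9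
      · exact h7.ne' h9
      · rcases mul_eq_zero.1 h9 with h10 | h10
        · exact h8.ne' h10
        · exact h3 h10
    exact (hF.exists).elim (fun _ h => h)
  · obtain ⟨b, B1, hB1, hB10, hBe⟩ := (hB.exists_eventuallyEq_pow_smul_nonzero_iff).2 hB0
    have hBe' : ∀ᶠ t : ℝ in 𝓝[>] 0, B ((t : ℂ) * I) = ((t : ℂ) * I) ^ b * B1 ((t : ℂ) * I) := by
      filter_upwards [hcont.eventually hBe] with t ht
      simpa using ht
    have hB1t : Tendsto (fun t : ℝ => ‖B1 ((t : ℂ) * I)‖) (𝓝[>] 0) (𝓝 ‖B1 0‖) :=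
      (hB1.continuousAt.tendsto.comp hcont).norm
    have hq : Tendsto (fun t : ℝ => ‖B1 ((t : ℂ) * I)‖ / ‖A1 ((t : ℂ) * I)‖) (𝓝[>] 0)
        (𝓝 (‖B1 0‖ / ‖A1 0‖)) := hB1t.div hA1t (by simpa using hA10)
    have hL : 0 < ‖B1 0‖ / ‖A1 0‖ := by
      have h1 : 0 < ‖B1 0‖ := by simpa using hB10
      have h2 : 0 < ‖A1 0‖ := by simpa using hA10
      positivity
    have heq : ∀ᶠ t : ℝ in 𝓝[>] 0, ‖B1 ((t : ℂ) * I)‖ / ‖A1 ((t : ℂ) * I)‖
        = t ^ (s + a - b) := by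
      filter_upwards [h, hpos, hA1ne, hAe', hBe'] with t h1 h2 h3 h4 h5
      rw [h5, h4] at h1
      have h6 := congrArg norm h1
      rw [norm_mul, norm_mul, norm_mul, norm_pow, norm_pow, hnorm t h2, hnt t h2] at h6
      have h8 : (0 : ℝ) < t ^ b := pow_pos h2 b
      rw [Real.rpow_sub h2, Real.rpow_add h2, Real.rpow_natCast, Real.rpow_natCast]
      field_simp
      linarith
    have hq2 : Tendsto (fun t : ℝ => t ^ (s + a - b)) (𝓝[>] 0) (𝓝 (‖B1 0‖ / ‖A1 0‖)) :=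
      hq.congr' heq
    have hne0 : s + a - b ≠ 0 := by
      intro h0
      apply hs ((b : ℤ) - a)
      push_cast
      linarith
    rcases lt_or_gt_of_ne hne0 with hlt | hgt
    · -- tends to infinity
      have h1 : Tendsto (fun t : ℝ => t ^ (s + a - b)) (𝓝[>] 0) atTop :=
        tendsto_rpow_neg_nhdsGT_zero hlt
      exact not_tendsto_nhds_of_tendsto_atTop h1 _ hq2
    · have h1 : Tendsto (fun t : ℝ => t ^ (s + a - b)) (𝓝[>] 0) (𝓝 0) := by
        have h2 : ContinuousAt (fun t : ℝ => t ^ (s + a - b)) 0 :=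
          Real.continuousAt_rpow_const 0 (s + a - b) (Or.inr hgt.le)
        have h3 := h2.tendsto
        rw [Real.zero_rpow hne0] at h3
        exact h3.mono_left nhdsWithin_le_nhds
      exact hL.ne (tendsto_nhds_unique h1 hq2)

/-- One factor: for a real `c ≠ 0` the principal power `(Z + c) ^ s` on the upper half plane is the
restriction of a function analytic and nonzero at `0`. -/
theorem fac {c : ℝ} (hc : c ≠ 0) (s : ℂ) :
    ∃ q : ℂ → ℂ, AnalyticAt ℂ q 0 ∧ q 0 ≠ 0 ∧ ∀ Z : ℂ, 0 < Z.im → (Z + c) ^ s = q Z := by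
  rcases lt_or_gt_of_ne hc with hlt | hgt
  · refine ⟨fun Z => exp (s * (log (-(Z + c)) + Real.pi * I)), ?_, exp_ne_zero _, ?_⟩
    · have h1 : AnalyticAt ℂ (fun Z : ℂ => -(Z + c)) 0 := by fun_prop
      have h2 : AnalyticAt ℂ (fun Z : ℂ => log (-(Z + c))) 0 := by
        apply h1.clog
        rw [mem_slitPlane_iff]
        left
        simp
        exact hlt
      have h3 : AnalyticAt ℂ (fun Z : ℂ => s * (log (-(Z + c)) + Real.pi * I)) 0 :=
        analyticAt_const.mul (h2.add analyticAt_const)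
      exact h3.cexp
    · intro Z hZ
      have him : 0 < (Z + c).im := by simpa using hZ
      have h0 : Z + c ≠ 0 := by
        intro h
        rw [h] at him
        simp at him
      have hlog : log (Z + c) = log (-(Z + c)) + Real.pi * I := by
        rw [log, log, norm_neg, arg_neg_eq_arg_sub_pi_of_im_pos him]
        push_cast
        ring
      rw [cpow_def_of_ne_zero h0, hlog]
      ring_nf
  · refine ⟨fun Z => (Z + c) ^ s, ?_, ?_, fun Z _ => rfl⟩
    · have h1 : AnalyticAt ℂ (fun Z : ℂ => Z + c) 0 := by fun_prop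
      apply h1.cpow analyticAt_const
      rw [mem_slitPlane_iff]
      left
      simpa using hgt
    · simp only [zero_add]
      rw [Ne, cpow_eq_zero_iff]
      push Not
      intro h
      exact absurd (by exact_mod_cast h) hgt.ne'

/-- The multivalued product `∏ (Y + i/n) ^ s`. -/
noncomputable def ww (n : ℕ) (s : ℝ) (Y : ℂ) : ℂ :=
  ∏ i ∈ Finset.range n, (Y + (i : ℂ) / n) ^ (s : ℂ)

noncomputable def hs1 (n : ℕ) (Y : ℂ) : ℂ := ∑ i ∈ Finset.range n, 1 / (Y + (i : ℂ) / n)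

noncomputable def hs2 (n : ℕ) (Y : ℂ) : ℂ := ∑ i ∈ Finset.range n, 1 / (Y + (i : ℂ) / n) ^ 2

noncomputable def EE (n : ℕ) (s : ℝ) (Y : ℂ) : ℂ := s * hs1 n Y ^ 2 - hs2 n Y

theorem prod_reg {n : ℕ} (hn : 0 < n) (s : ℝ) (j : ℤ) (S : Finset ℕ)
    (hS : ∀ i ∈ S, j + (i : ℤ) ≠ 0) :
    ∃ q : ℂ → ℂ, AnalyticAt ℂ q 0 ∧ q 0 ≠ 0 ∧
      ∀ Z : ℂ, 0 < Z.im → ∏ i ∈ S, (Z + (j : ℂ) / n + (i : ℂ) / n) ^ (s : ℂ) = q Z := by
  classical
  induction S using Finset.induction_on with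
  | empty => exact ⟨fun _ => 1, analyticAt_const, one_ne_zero, fun Z _ => by simp⟩
  | insert a S ha ih =>
    obtain ⟨q, hq, hq0, hqe⟩ := ih (fun i hi => hS i (Finset.mem_insert_of_mem hi))
    have hn' : (n : ℝ) ≠ 0 := by positivity
    have hc : ((j + (a : ℤ) : ℤ) : ℝ) / n ≠ 0 := by
      apply div_ne_zero _ hn'
      exact_mod_cast hS a (Finset.mem_insert_self a S)
    obtain ⟨p, hp, hp0, hpe⟩ := fac hc (s : ℂ)
    refine ⟨fun Z => p Z * q Z, hp.mul hq, mul_ne_zero hp0 hq0, ?_⟩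
    intro Z hZ
    have e : Z + (j : ℂ) / n + (a : ℂ) / n = Z + (((j + (a : ℤ) : ℤ) : ℝ) / n : ℝ) := by
      push_cast
      ring
    rw [Finset.prod_insert ha, hqe Z hZ, e, hpe Z hZ]

theorem ww_reg {n : ℕ} (hn : 0 < n) (s : ℝ) (j : ℤ) (hj : ∀ i < n, j + (i : ℤ) ≠ 0) :
    ∃ q : ℂ → ℂ, AnalyticAt ℂ q 0 ∧ ∀ Z : ℂ, 0 < Z.im → ww n s (Z + (j : ℂ) / n) = q Z := by
  obtain ⟨q, hq, -, hqe⟩ := prod_reg hn s j (Finset.range n)
    (fun i hi => hj i (Finset.mem_range.1 hi))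
  exact ⟨q, hq, hqe⟩

theorem an_inv {n : ℕ} (hn : 0 < n) (j : ℤ) (i : ℕ) (h : j + (i : ℤ) ≠ 0) :
    AnalyticAt ℂ (fun Z : ℂ => 1 / (Z + (j : ℂ) / n + (i : ℂ) / n)) 0 := by
  have h1 : AnalyticAt ℂ (fun Z : ℂ => Z + (j : ℂ) / n + (i : ℂ) / n) 0 := by fun_prop
  refine analyticAt_const.div h1 ?_
  have hn' : (n : ℂ) ≠ 0 := by exact_mod_cast hn.ne'
  intro h0
  apply h
  have h2 : ((j + (i : ℤ) : ℤ) : ℂ) / n = 0 := by
    push_cast
    rw [add_div]
    simpa using h0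
  rcases div_eq_zero_iff.1 h2 with h3 | h3
  · exact_mod_cast h3
  · exact absurd h3 hn'

theorem sum1_reg {n : ℕ} (hn : 0 < n) (j : ℤ) (S : Finset ℕ) (hS : ∀ i ∈ S, j + (i : ℤ) ≠ 0) :
    AnalyticAt ℂ (fun Z : ℂ => ∑ i ∈ S, 1 / (Z + (j : ℂ) / n + (i : ℂ) / n)) 0 :=
  Finset.analyticAt_fun_sum _ (fun i hi => an_inv hn j i (hS i hi))

theorem sum2_reg {n : ℕ} (hn : 0 < n) (j : ℤ) (S : Finset ℕ) (hS : ∀ i ∈ S, j + (i : ℤ) ≠ 0) :
    AnalyticAt ℂ (fun Z : ℂ => ∑ i ∈ S, 1 / (Z + (j : ℂ) / n + (i : ℂ) / n) ^ 2) 0 := by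
  have : (fun Z : ℂ => ∑ i ∈ S, 1 / (Z + (j : ℂ) / n + (i : ℂ) / n) ^ 2)
      = fun Z : ℂ => ∑ i ∈ S, (1 / (Z + (j : ℂ) / n + (i : ℂ) / n)) ^ 2 := by
    funext Z
    refine Finset.sum_congr rfl (fun i _ => ?_)
    rw [div_pow, one_pow]
  rw [this]
  exact Finset.analyticAt_fun_sum _ (fun i hi => (an_inv hn j i (hS i hi)).pow 2)

/-- The forcing term. -/
noncomputable def FF (n : ℕ) (s : ℝ) (Y : ℂ) : ℂ := ww n s Y * EE n s Y

theorem FF_reg {n : ℕ} (hn : 0 < n) (s : ℝ) (j : ℤ) (hj : ∀ i < n, j + (i : ℤ) ≠ 0) :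
    ∃ q : ℂ → ℂ, AnalyticAt ℂ q 0 ∧ ∀ Z : ℂ, 0 < Z.im → FF n s (Z + (j : ℂ) / n) = q Z := by
  obtain ⟨q, hq, hqe⟩ := ww_reg hn s j hj
  have h1 := sum1_reg hn j (Finset.range n) (fun i hi => hj i (Finset.mem_range.1 hi))
  have h2 := sum2_reg hn j (Finset.range n) (fun i hi => hj i (Finset.mem_range.1 hi))
  refine ⟨fun Z => q Z * (s * (∑ i ∈ Finset.range n, 1 / (Z + (j : ℂ) / n + (i : ℂ) / n)) ^ 2
    - ∑ i ∈ Finset.range n, 1 / (Z + (j : ℂ) / n + (i : ℂ) / n) ^ 2), ?_, ?_⟩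
  · exact hq.mul ((analyticAt_const.mul (h1.pow 2)).sub h2)
  · intro Z hZ
    simp only [FF, EE, hs1, hs2]
    rw [hqe Z hZ]

theorem FF_sing {n : ℕ} (hn : 0 < n) {s : ℝ} (hs1' : s ≠ 1) (a : ℕ) (ha : a < n) :
    ∃ q : ℂ → ℂ, AnalyticAt ℂ q 0 ∧ q 0 ≠ 0 ∧ ∀ Z : ℂ, 0 < Z.im →
      FF n s (Z + ((-(a : ℤ) : ℤ) : ℂ) / n) = Z ^ ((s - 2 : ℝ) : ℂ) * q Z := by
  classical
  set j : ℤ := -(a : ℤ) with hjdef
  set S := (Finset.range n).erase a with hSdef
  have hmem : a ∈ Finset.range n := Finset.mem_range.2 ha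
  have hS : ∀ i ∈ S, j + (i : ℤ) ≠ 0 := by
    intro i hi h
    have h1 : i ≠ a := (Finset.mem_erase.1 hi).1
    apply h1
    omega
  obtain ⟨Q, hQ, hQ0, hQe⟩ := prod_reg hn s j S hS
  have h1 := sum1_reg hn j S hS
  have h2 := sum2_reg hn j S hS
  have hcan : ∀ Z : ℂ, Z + (j : ℂ) / n + (a : ℂ) / n = Z := by
    intro Z
    rw [hjdef]
    push_cast
    ring
  refine ⟨fun Z => Q Z * (s * (1 + Z * ∑ i ∈ S, 1 / (Z + (j : ℂ) / n + (i : ℂ) / n)) ^ 2 - 1
    - Z ^ 2 * ∑ i ∈ S, 1 / (Z + (j : ℂ) / n + (i : ℂ) / n) ^ 2), ?_, ?_, ?_⟩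
  · exact hQ.mul (((analyticAt_const.mul ((analyticAt_const.add (analyticAt_id.mul h1)).pow 2)).sub
      analyticAt_const).sub ((analyticAt_id.pow 2).mul h2))
  · simp only [zero_mul, add_zero, one_pow, mul_one, ne_eq, OfNat.ofNat_ne_zero, not_false_eq_true,
      zero_pow, sub_zero]
    refine mul_ne_zero hQ0 ?_
    rw [sub_ne_zero]
    exact_mod_cast hs1'
  · intro Z hZ
    have hZ0 : Z ≠ 0 := by
      intro h
      rw [h] at hZ
      simp at hZ
    have e1 : ww n s (Z + (j : ℂ) / n) = Z ^ (s : ℂ) * Q Z := by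
      rw [ww, ← Finset.mul_prod_erase _ _ hmem, hcan, hQe Z hZ]
    have e2 : hs1 n (Z + (j : ℂ) / n)
        = 1 / Z + ∑ i ∈ S, 1 / (Z + (j : ℂ) / n + (i : ℂ) / n) := by
      rw [hs1, ← Finset.add_sum_erase _ _ hmem, hcan]
    have e3 : hs2 n (Z + (j : ℂ) / n)
        = 1 / Z ^ 2 + ∑ i ∈ S, 1 / (Z + (j : ℂ) / n + (i : ℂ) / n) ^ 2 := by
      rw [hs2, ← Finset.add_sum_erase _ _ hmem, hcan]
    have e4 : Z ^ (s : ℂ) = Z ^ ((s - 2 : ℝ) : ℂ) * Z ^ 2 := by
      rw [← cpow_ofNat, ← cpow_add _ _ hZ0]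
      congr 1
      push_cast
      ring
    simp only [FF, EE]
    rw [e1, e2, e3, e4]
    field_simp
    ring

/-- Uniform description of the forcing term near every point `j/n`. -/
theorem FF_split {n : ℕ} (hn : 0 < n) {s : ℝ} (hs1' : s ≠ 1) (j : ℤ) :
    ∃ qs qr : ℂ → ℂ, AnalyticAt ℂ qs 0 ∧ AnalyticAt ℂ qr 0 ∧
      (∀ Z : ℂ, 0 < Z.im → FF n s (Z + (j : ℂ) / n) = Z ^ ((s - 2 : ℝ) : ℂ) * qs Z + qr Z) ∧
      ((-(n : ℤ) < j ∧ j ≤ 0) → qs 0 ≠ 0 ∧ qr = 0) ∧ (¬ (-(n : ℤ) < j ∧ j ≤ 0) → qs = 0) := by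
  by_cases hj : -(n : ℤ) < j ∧ j ≤ 0
  · obtain ⟨a, ha⟩ : ∃ a : ℕ, j = -(a : ℤ) := ⟨j.natAbs, by omega⟩
    have ha' : a < n := by omega
    obtain ⟨q, hq, hq0, hqe⟩ := FF_sing hn hs1' a ha'
    refine ⟨q, 0, hq, analyticAt_const, ?_, fun _ => ⟨hq0, rfl⟩, fun h => absurd hj h⟩
    intro Z hZ
    rw [ha, hqe Z hZ]
    simp
  · obtain ⟨q, hq, hqe⟩ := FF_reg hn s j (by intro i hi h; apply hj; omega)
    refine ⟨0, q, analyticAt_const, hq, ?_, fun h => absurd h hj, fun _ => rfl⟩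
    intro Z hZ
    rw [hqe Z hZ]
    simp

theorem ww_an (n : ℕ) (s : ℝ) (c : ℝ) :
    AnalyticOnNhd ℂ (fun Y : ℂ => ww n s (Y + c)) {Y : ℂ | 0 < Y.im} := by
  intro Y hY
  simp only [ww]
  refine Finset.analyticAt_fun_prod _ (fun i _ => ?_)
  have h1 : AnalyticAt ℂ (fun Z : ℂ => Z + c + (i : ℂ) / n) Y := by fun_prop
  refine h1.cpow analyticAt_const ?_
  rw [mem_slitPlane_iff]
  right
  have e : ((i : ℂ) / n) = (((i : ℝ) / n : ℝ) : ℂ) := by push_cast; ring
  rw [e]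
  simp only [add_im, ofReal_im, add_zero]
  exact (ne_of_gt hY)

theorem FF_an (n : ℕ) (s : ℝ) (c : ℝ) :
    AnalyticOnNhd ℂ (fun Y : ℂ => FF n s (Y + c)) {Y : ℂ | 0 < Y.im} := by
  intro Y hY
  have h0 : ∀ i : ℕ, Y + c + (i : ℂ) / n ≠ 0 := by
    intro i h
    have e : ((i : ℂ) / n) = (((i : ℝ) / n : ℝ) : ℂ) := by push_cast; ring
    rw [e] at h
    have := congrArg Complex.im h
    simp only [add_im, ofReal_im, add_zero, zero_im] at this
    exact absurd this (ne_of_gt hY)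
  have h1 : ∀ i : ℕ, AnalyticAt ℂ (fun Z : ℂ => 1 / (Z + c + (i : ℂ) / n)) Y := by
    intro i
    have h1 : AnalyticAt ℂ (fun Z : ℂ => Z + c + (i : ℂ) / n) Y := by fun_prop
    exact analyticAt_const.div h1 (h0 i)
  have h2 : AnalyticAt ℂ (fun Z : ℂ => hs1 n (Z + c)) Y :=
    Finset.analyticAt_fun_sum _ (fun i _ => h1 i)
  have h3 : AnalyticAt ℂ (fun Z : ℂ => hs2 n (Z + c)) Y := by
    have : (fun Z : ℂ => hs2 n (Z + c))
        = fun Z : ℂ => ∑ i ∈ Finset.range n, (1 / (Z + c + (i : ℂ) / n)) ^ 2 := by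
      funext Z
      refine Finset.sum_congr rfl (fun i _ => ?_)
      rw [div_pow, one_pow]
    rw [this]
    exact Finset.analyticAt_fun_sum _ (fun i _ => (h1 i).pow 2)
  exact (ww_an n s c Y hY).mul ((analyticAt_const.mul (h2.pow 2)).sub h3)

theorem isPreconnected_upper : IsPreconnected {Y : ℂ | 0 < Y.im} :=
  (convex_halfSpace_im_gt 0).isPreconnected

/-- Core statement. -/
theorem core {n : ℕ} (hn : 0 < n) {s : ℝ} (hs : ∀ k : ℤ, s ≠ k) (C : ℝ) (g : ℂ → ℂ)
    (hg : AnalyticOnNhd ℂ g {Y : ℂ | C < ‖Y‖})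
    (heq : ∀ Y : ℂ, C < Y.im → ww n s Y * g Y - ww n s (Y + 1 / (n : ℂ)) * g (Y + 1 / (n : ℂ))
      = FF n s (Y + 1 / (n : ℂ))) : False := by
  have hs1' : s ≠ 1 := by simpa using hs 1
  have hn' : (0 : ℝ) < n := by exact_mod_cast hn
  have hnC : (n : ℂ) ≠ 0 := by exact_mod_cast hn.ne'
  -- choose J
  obtain ⟨K, hK⟩ : ∃ K : ℕ, |C| + 2 < K := exists_nat_gt _
  set J : ℕ := n * K with hJdef
  have hJn : (J : ℝ) / n = K := by
    rw [hJdef]
    push_cast
    field_simp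
  have hJnC : (J : ℂ) / n = K := by
    rw [hJdef]
    push_cast
    field_simp
  have hK0 : 0 < K := by
    rcases Nat.eq_zero_or_pos K with h | h
    · rw [h] at hK
      have := abs_nonneg C
      simp at hK
      linarith
    · exact h
  have hnJ : n ≤ J := Nat.le_mul_of_pos_right n hK0
  choose qs qr hqs hqr hsplit hsing hreg using fun j : ℤ => FF_split hn hs1' j
  -- telescoping
  have tele : ∀ k : ℕ, ∀ Y : ℂ, C < Y.im →
      ww n s Y * g Y - ww n s (Y + (k : ℂ) / n) * g (Y + (k : ℂ) / n)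
        = ∑ j ∈ Finset.range k, FF n s (Y + ((j : ℂ) + 1) / n) := by
    intro k
    induction k with
    | zero => intro Y _; simp
    | succ k ih =>
      intro Y hY
      rw [Finset.sum_range_succ, ← ih Y hY]
      have h1 : C < (Y + (k : ℂ) / n).im := by
        have e : ((k : ℂ) / n) = (((k : ℝ) / n : ℝ) : ℂ) := by push_cast; ring
        rw [e]
        simpa using hY
      have h2 := heq (Y + (k : ℂ) / n) h1
      have e1 : Y + (k : ℂ) / n + 1 / (n : ℂ) = Y + ((k : ℂ) + 1) / n := by ring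
      rw [e1] at h2
      rw [← h2]
      push_cast
      ring
  -- the half strip
  set S : Set ℂ := {Y : ℂ | 0 < Y.im ∧ (-1 < Y.re ∧ Y.re < 1)} with hSdef
  have hSconv : Convex ℝ S :=
    (convex_halfSpace_im_gt 0).inter ((convex_halfSpace_re_gt (-1)).inter (convex_halfSpace_re_lt 1))
  have hSpre : IsPreconnected S := hSconv.isPreconnected
  have hSup : S ⊆ {Y : ℂ | 0 < Y.im} := fun Y hY => hY.1
  -- the index set
  set R : Finset ℤ := Finset.Ioc (-(J : ℤ)) J with hRdef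
  have hsumR : ∀ Y : ℂ, ∑ j ∈ Finset.range (2 * J), FF n s (Y - (K : ℂ) + ((j : ℂ) + 1) / n)
      = ∑ j ∈ R, FF n s (Y + (j : ℂ) / n) := by
    intro Y
    refine Finset.sum_bij' (fun (j : ℕ) _ => (j : ℤ) + 1 - J) (fun (j : ℤ) _ => (j + J - 1).toNat)
      ?_ ?_ ?_ ?_ ?_
    · intro j hj
      have := Finset.mem_range.1 hj
      rw [hRdef, Finset.mem_Ioc]
      omega
    · intro j hj
      rw [hRdef, Finset.mem_Ioc] at hj
      rw [Finset.mem_range]
      omega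
    · intro j hj
      simp
    · intro j hj
      rw [hRdef, Finset.mem_Ioc] at hj
      have : ((j + J - 1).toNat : ℤ) = j + J - 1 := Int.toNat_of_nonneg (by omega)
      rw [this]
      ring
    · intro j hj
      congr 1
      push_cast
      rw [← hJnC]
      ring
  -- G is analytic where needed
  have hgan : ∀ c : ℝ, |C| + 2 < |c| → ∀ Y : ℂ, (-1 < Y.re ∧ Y.re < 1) →
      AnalyticAt ℂ (fun Z : ℂ => g (Z + c)) Y := by
    intro c hc Y hY
    have h1 : AnalyticAt ℂ g (Y + c) := by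
      apply hg
      change C < ‖Y + c‖
      have h2 : |(Y + c).re| ≤ ‖Y + c‖ := abs_re_le_norm _
      have h3 : |c| - 1 ≤ |(Y + c).re| := by
        simp only [add_re, ofReal_re]
        have h4 : |c| ≤ |Y.re + c| + |Y.re| := by
          have := abs_sub (Y.re + c) Y.re
          simpa using this
        have h5 : |Y.re| ≤ 1 := abs_le.2 ⟨hY.1.le, hY.2.le⟩
        linarith
      have h6 := le_abs_self C
      linarith
    have h2 : AnalyticAt ℂ (fun Z : ℂ => Z + c) Y := by fun_prop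
    exact AnalyticAt.fun_comp (g := g) (f := fun Z : ℂ => Z + c) (x := Y) h1 h2
  have hKabs : |C| + 2 < |(K : ℝ)| := by
    rw [abs_of_nonneg (show (0 : ℝ) ≤ (K : ℝ) from Nat.cast_nonneg K)]
    exact hK
  have hKabs' : |C| + 2 < |(-(K : ℝ))| := by
    rw [abs_neg]
    exact hKabs
  -- identity on the half strip
  have hid : ∀ Y ∈ S, ww n s (Y + (-(K : ℝ) : ℝ)) * g (Y + (-(K : ℝ) : ℝ))
      - ww n s (Y + (K : ℝ)) * g (Y + (K : ℝ)) = ∑ j ∈ R, FF n s (Y + (j : ℂ) / n) := by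
    have hL : AnalyticOnNhd ℂ (fun Y : ℂ => ww n s (Y + (-(K : ℝ) : ℝ)) * g (Y + (-(K : ℝ) : ℝ))
        - ww n s (Y + (K : ℝ)) * g (Y + (K : ℝ))) S := by
      intro Y hY
      exact ((ww_an n s _ Y (hSup hY)).mul (hgan _ hKabs' Y hY.2)).sub
        ((ww_an n s _ Y (hSup hY)).mul (hgan _ hKabs Y hY.2))
    have hRr : AnalyticOnNhd ℂ (fun Y : ℂ => ∑ j ∈ R, FF n s (Y + (j : ℂ) / n)) S := by
      intro Y hY
      refine Finset.analyticAt_fun_sum _ (fun j _ => ?_)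
      have := FF_an n s ((j : ℝ) / n) Y (hSup hY)
      refine this.congr (Filter.Eventually.of_forall (fun Z => ?_))
      simp
    have hz₀ : ((|C| + 1 : ℝ) : ℂ) * I ∈ S := by
      refine ⟨?_, ?_, ?_⟩
      · simp
        positivity
      · simp
      · simp
    refine fun Y hY => hL.eqOn_of_preconnected_of_eventuallyEq hRr hSpre hz₀ ?_ hY
    have hopen : IsOpen {Y : ℂ | C < Y.im} := isOpen_lt continuous_const continuous_im
    have hmem : ((|C| + 1 : ℝ) : ℂ) * I ∈ {Y : ℂ | C < Y.im} := by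
      simp
      have := le_abs_self C
      linarith
    filter_upwards [hopen.mem_nhds hmem] with Y hY
    have h1 : C < (Y - (K : ℂ)).im := by simpa using hY
    have h2 := tele (2 * J) (Y - (K : ℂ)) h1
    rw [hsumR] at h2
    have e1 : Y - (K : ℂ) + ((2 * J : ℕ) : ℂ) / n = Y + ((K : ℝ) : ℂ) := by
      push_cast
      rw [mul_div_assoc, hJnC]
      push_cast
      ring
    have e2 : Y - (K : ℂ) = Y + ((-(K : ℝ) : ℝ) : ℂ) := by
      push_cast
      ring
    rw [e1, e2] at h2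
    exact h2
  -- near zero
  obtain ⟨p1, hp1, hp1e⟩ := ww_reg hn s (-(J : ℤ)) (by intro i hi h; omega)
  obtain ⟨p2, hp2, hp2e⟩ := ww_reg hn s (J : ℤ) (by intro i hi h; omega)
  have h0mem : (-1 < (0 : ℂ).re ∧ (0 : ℂ).re < 1) := by simp
  have htail : ∀ᶠ t : ℝ in 𝓝[>] 0, 0 < t ∧ ((t : ℂ) * I) ∈ S := by
    filter_upwards [eventually_mem_nhdsWithin] with t ht
    refine ⟨ht, ?_, ?_, ?_⟩
    · simpa using ht
    · simp
    · simp
  have hA0 : ∀ᶠ z in 𝓝 (0 : ℂ), ∑ j ∈ R, qs j z = 0 := by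
    refine pow_sep (s := s - 2) (fun k h => hs (k + 2) (by push_cast; linarith))
      (B := fun z => p1 z * g (z + (-(K : ℝ) : ℝ)) - p2 z * g (z + (K : ℝ)) - ∑ j ∈ R, qr j z)
      (Finset.analyticAt_fun_sum _ (fun j _ => hqs j)) ?_ ?_
    · exact ((hp1.mul (hgan _ hKabs' 0 h0mem)).sub (hp2.mul (hgan _ hKabs 0 h0mem))).sub
        (Finset.analyticAt_fun_sum _ (fun j _ => hqr j))
    · filter_upwards [htail] with t ht
      have h1 := hid _ ht.2
      have h2 := hp1e _ ht.2.1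
      have h3 := hp2e _ ht.2.1
      have e1 : ((-(J : ℤ) : ℤ) : ℂ) / n = ((-(K : ℝ) : ℝ) : ℂ) := by
        push_cast
        rw [neg_div, hJnC]
      have e2 : (((J : ℤ) : ℤ) : ℂ) / n = ((K : ℝ) : ℂ) := by
        push_cast
        rw [hJnC]
      rw [e1] at h2
      rw [e2] at h3
      rw [h2, h3] at h1
      rw [h1, Finset.mul_sum, ← Finset.sum_sub_distrib]
      refine Finset.sum_congr rfl (fun j _ => ?_)
      rw [hsplit j _ ht.2.1]
      ring
  -- the singular indices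
  set T : Finset ℤ := Finset.Ioc (-(n : ℤ)) 0 with hTdef
  have hTR : T ⊆ R := by
    intro j hj
    rw [hTdef, Finset.mem_Ioc] at hj
    rw [hRdef, Finset.mem_Ioc]
    omega
  have hA1 : ∀ᶠ z in 𝓝 (0 : ℂ), ∑ j ∈ T, qs j z = 0 := by
    filter_upwards [hA0] with z hz
    rw [← hz]
    refine Finset.sum_subset hTR (fun j _ hj => ?_)
    rw [hTdef, Finset.mem_Ioc] at hj
    rw [hreg j hj]
    rfl
  -- U vanishes on the upper half plane
  have hUan : AnalyticOnNhd ℂ (fun Y : ℂ => ∑ j ∈ T, FF n s (Y + (j : ℂ) / n))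
      {Y : ℂ | 0 < Y.im} := by
    intro Y hY
    refine Finset.analyticAt_fun_sum _ (fun j _ => ?_)
    have := FF_an n s ((j : ℝ) / n) Y hY
    refine this.congr (Filter.Eventually.of_forall (fun Z => ?_))
    simp
  have hU0 : ∀ Y : ℂ, 0 < Y.im → ∑ j ∈ T, FF n s (Y + (j : ℂ) / n) = 0 := by
    have hev : ∀ᶠ z in 𝓝 (0 : ℂ), 0 < z.im → ∑ j ∈ T, FF n s (z + (j : ℂ) / n) = 0 := by
      filter_upwards [hA1] with z hz him
      have : ∑ j ∈ T, FF n s (z + (j : ℂ) / n) = z ^ ((s - 2 : ℝ) : ℂ) * ∑ j ∈ T, qs j z := by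
        rw [Finset.mul_sum]
        refine Finset.sum_congr rfl (fun j hj => ?_)
        rw [hTdef, Finset.mem_Ioc] at hj
        rw [hsplit j z him, (hsing j hj).2]
        simp
      rw [this, hz, mul_zero]
    -- a point of the upper half plane near zero
    obtain ⟨ε, hε, hball⟩ := Metric.eventually_nhds_iff_ball.1 hev
    set z₀ : ℂ := ((ε / 2 : ℝ) : ℂ) * I with hz₀def
    have hz₀im : 0 < z₀.im := by
      rw [hz₀def]
      simp
      linarith
    have hz₀ball : z₀ ∈ Metric.ball (0 : ℂ) ε := by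
      rw [mem_ball_zero_iff, hz₀def]
      simp only [norm_mul, norm_I, mul_one, norm_real, Real.norm_eq_abs]
      rw [abs_of_pos (by linarith)]
      linarith
    have hopen : IsOpen {Y : ℂ | 0 < Y.im} := isOpen_lt continuous_const continuous_im
    intro Y hY
    have hzero : AnalyticOnNhd ℂ (fun _ : ℂ => (0 : ℂ)) {Y : ℂ | 0 < Y.im} :=
      fun _ _ => analyticAt_const
    refine hUan.eqOn_of_preconnected_of_eventuallyEq hzero isPreconnected_upper
      (z₀ := z₀) hz₀im ?_ hY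
    filter_upwards [hopen.mem_nhds (show z₀ ∈ {Y : ℂ | 0 < Y.im} from hz₀im),
      Metric.isOpen_ball.mem_nhds hz₀ball] with z hz1 hz2
    exact hball z hz2 hz1
  -- look near -(n-1)/n
  have hn1 : (0 : ℤ) < n := by exact_mod_cast hn
  have hlast : ∀ᶠ z in 𝓝 (0 : ℂ), qs (-(n : ℤ) + 1) z = 0 := by
    refine pow_sep (s := s - 2) (fun k h => hs (k + 2) (by push_cast; linarith))
      (B := fun z => - ∑ j ∈ T.erase 0, qr (j - (n - 1)) z) (hqs _) ?_ ?_
    · exact (Finset.analyticAt_fun_sum _ (fun j _ => hqr _)).neg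
    · filter_upwards [htail] with t ht
      have him : 0 < (((t : ℂ) * I) + ((-(n : ℤ) + 1 : ℤ) : ℂ) / n).im := by
        have e : (((-(n : ℤ) + 1 : ℤ) : ℂ) / n) = (((-(n : ℝ) + 1) / n : ℝ) : ℂ) := by
          push_cast
          ring
        rw [e]
        have := ht.2.1
        simpa using this
      have h1 := hU0 _ him
      have h0T : (0 : ℤ) ∈ T := by
        rw [hTdef, Finset.mem_Ioc]
        omega
      rw [← Finset.add_sum_erase _ _ h0T] at h1
      have e0 : (t : ℂ) * I + ((-(n : ℤ) + 1 : ℤ) : ℂ) / n + ((0 : ℤ) : ℂ) / n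
          = (t : ℂ) * I + ((-(n : ℤ) + 1 : ℤ) : ℂ) / n := by simp
      rw [e0, hsplit _ _ ht.2.1, (hsing (-(n : ℤ) + 1) (by omega)).2] at h1
      have h2 : ∑ j ∈ T.erase 0, FF n s ((t : ℂ) * I + ((-(n : ℤ) + 1 : ℤ) : ℂ) / n + (j : ℂ) / n)
          = ∑ j ∈ T.erase 0, qr (j - (n - 1)) ((t : ℂ) * I) := by
        refine Finset.sum_congr rfl (fun j hj => ?_)
        have hj1 := Finset.mem_erase.1 hj
        have hj2 := hj1.2
        rw [hTdef, Finset.mem_Ioc] at hj2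
        have hj3 : j ≠ 0 := hj1.1
        have e : (t : ℂ) * I + ((-(n : ℤ) + 1 : ℤ) : ℂ) / n + (j : ℂ) / n
            = (t : ℂ) * I + ((j - (n - 1) : ℤ) : ℂ) / n := by
          push_cast
          ring
        rw [e, hsplit _ _ ht.2.1, hreg (j - (n - 1)) (by omega)]
        simp
      rw [h2] at h1
      simp only [Pi.zero_apply, add_zero] at h1
      linear_combination h1
  have hne := (hsing (-(n : ℤ) + 1) (by omega)).1
  exact hne hlast.self_of_nhds

/-- Irregular case: no decaying (even: no) function analytic near infinity solves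
`H (v - 1) - H v = 1 / (v - 1) ^ 2`. -/
theorem shift_irr (H : ℂ → ℂ) (C : ℝ) (hH : AnalyticOnNhd ℂ H {Y : ℂ | C < ‖Y‖})
    (hfe : ∀ v : ℂ, C < ‖v‖ → C < ‖v - 1‖ → H (v - 1) - H v = 1 / (v - 1) ^ 2) : False := by
  obtain ⟨K, hK⟩ : ∃ K : ℕ, |C| + 2 < K := exists_nat_gt _
  have him : ∀ v : ℂ, C < v.im → C < ‖v‖ := fun v hv =>
    hv.trans_le ((le_abs_self _).trans (abs_im_le_norm v))
  have tele : ∀ k : ℕ, ∀ v : ℂ, C < v.im →
      H v - H (v + k) = ∑ j ∈ Finset.range k, 1 / (v + (j : ℂ)) ^ 2 := by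
    intro k
    induction k with
    | zero => intro v _; simp
    | succ k ih =>
      intro v hv
      rw [Finset.sum_range_succ, ← ih v hv]
      have h1 : C < (v + k + 1).im := by simpa using hv
      have h2 : C < (v + k + 1 - 1).im := by simpa using hv
      have h3 := hfe (v + k + 1) (him _ h1) (him _ h2)
      rw [add_sub_cancel_right] at h3
      rw [← h3]
      push_cast
      ring_nf
  set S : Set ℂ := {Y : ℂ | 0 < Y.im ∧ (-1 < Y.re ∧ Y.re < 1)} with hSdef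
  have hSconv : Convex ℝ S :=
    (convex_halfSpace_im_gt 0).inter ((convex_halfSpace_re_gt (-1)).inter (convex_halfSpace_re_lt 1))
  have hSpre : IsPreconnected S := hSconv.isPreconnected
  have hgan : ∀ c : ℝ, |C| + 2 < |c| → ∀ Y : ℂ, (-1 < Y.re ∧ Y.re < 1) →
      AnalyticAt ℂ (fun Z : ℂ => H (Z + c)) Y := by
    intro c hc Y hY
    have h1 : AnalyticAt ℂ H (Y + c) := by
      apply hH
      change C < ‖Y + c‖
      have h2 : |(Y + c).re| ≤ ‖Y + c‖ := abs_re_le_norm _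
      have h3 : |c| - 1 ≤ |(Y + c).re| := by
        simp only [add_re, ofReal_re]
        have h4 : |c| ≤ |Y.re + c| + |Y.re| := by
          have := abs_sub (Y.re + c) Y.re
          simpa using this
        have h5 : |Y.re| ≤ 1 := abs_le.2 ⟨hY.1.le, hY.2.le⟩
        linarith
      have h6 := le_abs_self C
      linarith
    have h2 : AnalyticAt ℂ (fun Z : ℂ => Z + c) Y := by fun_prop
    exact AnalyticAt.fun_comp (g := H) (f := fun Z : ℂ => Z + c) (x := Y) h1 h2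
  have hKabs : |C| + 2 < |(K : ℝ)| := by
    rw [abs_of_nonneg (show (0 : ℝ) ≤ (K : ℝ) from Nat.cast_nonneg K)]
    exact hK
  have hKabs' : |C| + 2 < |(-(K : ℝ))| := by
    rw [abs_neg]
    exact hKabs
  have hid : ∀ v ∈ S, H (v + (-(K : ℝ) : ℝ)) - H (v + (K : ℝ))
      = ∑ j ∈ Finset.range (2 * K), 1 / (v + (-(K : ℝ) : ℝ) + (j : ℂ)) ^ 2 := by
    have hL : AnalyticOnNhd ℂ (fun v : ℂ => H (v + (-(K : ℝ) : ℝ)) - H (v + (K : ℝ))) S := by
      intro Y hY
      exact (hgan _ hKabs' Y hY.2).sub (hgan _ hKabs Y hY.2)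
    have hRr : AnalyticOnNhd ℂ
        (fun v : ℂ => ∑ j ∈ Finset.range (2 * K), 1 / (v + (-(K : ℝ) : ℝ) + (j : ℂ)) ^ 2) S := by
      intro Y hY
      refine Finset.analyticAt_fun_sum _ (fun j _ => ?_)
      have h1 : AnalyticAt ℂ (fun v : ℂ => (v + (-(K : ℝ) : ℝ) + (j : ℂ)) ^ 2) Y := by fun_prop
      refine analyticAt_const.div h1 (pow_ne_zero 2 ?_)
      intro h
      have := congrArg Complex.im h
      simp at this
      exact absurd this (ne_of_gt hY.1)
    have hz₀ : ((|C| + 1 : ℝ) : ℂ) * I ∈ S := by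
      refine ⟨?_, ?_, ?_⟩
      · simp
        positivity
      · simp
      · simp
    refine fun Y hY => hL.eqOn_of_preconnected_of_eventuallyEq hRr hSpre hz₀ ?_ hY
    have hopen : IsOpen {Y : ℂ | C < Y.im} := isOpen_lt continuous_const continuous_im
    have hmem : ((|C| + 1 : ℝ) : ℂ) * I ∈ {Y : ℂ | C < Y.im} := by
      simp
      have := le_abs_self C
      linarith
    filter_upwards [hopen.mem_nhds hmem] with Y hY
    have h1 : C < (Y + ((-(K : ℝ) : ℝ) : ℂ)).im := by simpa using hY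
    have h2 := tele (2 * K) _ h1
    have e1 : Y + ((-(K : ℝ) : ℝ) : ℂ) + ((2 * K : ℕ) : ℂ) = Y + ((K : ℝ) : ℂ) := by
      push_cast
      ring
    rw [e1] at h2
    exact h2
  have hK0 : 0 < K := by
    rcases Nat.eq_zero_or_pos K with h | h
    · rw [h] at hK
      have := abs_nonneg C
      simp at hK
      linarith
    · exact h
  have hmemK : K ∈ Finset.range (2 * K) := Finset.mem_range.2 (by omega)
  set B : ℂ → ℂ := fun v => H (v + (-(K : ℝ) : ℝ)) - H (v + (K : ℝ))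
    - ∑ j ∈ (Finset.range (2 * K)).erase K, 1 / (v + (-(K : ℝ) : ℝ) + (j : ℂ)) ^ 2 with hBdef
  have h0mem : (-1 < (0 : ℂ).re ∧ (0 : ℂ).re < 1) := by simp
  have hB : AnalyticAt ℂ B 0 := by
    refine ((hgan _ hKabs' 0 h0mem).sub (hgan _ hKabs 0 h0mem)).sub
      (Finset.analyticAt_fun_sum _ (fun j hj => ?_))
    have h1 : AnalyticAt ℂ (fun v : ℂ => (v + (-(K : ℝ) : ℝ) + (j : ℂ)) ^ 2) 0 := by fun_prop
    refine analyticAt_const.div h1 (pow_ne_zero 2 ?_)
    have hjK : j ≠ K := (Finset.mem_erase.1 hj).1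
    intro h
    apply hjK
    push_cast at h
    have : (j : ℂ) = K := by linear_combination h
    exact_mod_cast this
  have hcont : Tendsto (fun t : ℝ => (t : ℂ) * I) (𝓝[>] 0) (𝓝 (0 : ℂ)) := by
    have : Continuous (fun t : ℝ => (t : ℂ) * I) := by fun_prop
    have h1 := this.tendsto 0
    simp only [ofReal_zero, zero_mul] at h1
    exact h1.mono_left nhdsWithin_le_nhds
  have hlim : Tendsto (fun t : ℝ => ((t : ℂ) * I) ^ 2 * B ((t : ℂ) * I)) (𝓝[>] 0) (𝓝 (0 ^ 2 * B 0)) :=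
    (hcont.pow 2).mul (hB.continuousAt.tendsto.comp hcont)
  have hone : ∀ᶠ t : ℝ in 𝓝[>] 0, ((t : ℂ) * I) ^ 2 * B ((t : ℂ) * I) = 1 := by
    filter_upwards [eventually_mem_nhdsWithin] with t ht
    have ht' : (0 : ℝ) < t := ht
    have hS' : ((t : ℂ) * I) ∈ S := ⟨by simpa using ht', by simp, by simp⟩
    have h1 := hid _ hS'
    rw [← Finset.add_sum_erase _ _ hmemK] at h1
    have h2 : (t : ℂ) * I ≠ 0 := by
      simp [ht'.ne', I_ne_zero]
    have h3 : B ((t : ℂ) * I) = 1 / ((t : ℂ) * I) ^ 2 := by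
      rw [hBdef]
      simp only
      rw [h1]
      have e : (t : ℂ) * I + ((-(K : ℝ) : ℝ) : ℂ) + (K : ℂ) = (t : ℂ) * I := by
        push_cast
        ring
      rw [e]
      ring
    rw [h3, mul_one_div_cancel (pow_ne_zero 2 h2)]
  have h4 : Tendsto (fun t : ℝ => ((t : ℂ) * I) ^ 2 * B ((t : ℂ) * I)) (𝓝[>] 0) (𝓝 1) :=
    tendsto_const_nhds.congr' (hone.mono (fun t ht => ht.symm))
  have h5 := tendsto_nhds_unique hlim h4
  simp at h5

/-- Regular case: a decaying solution of `H (Y - ν) - H Y = 1/((Y - ν) (Y - ν + 1))` near infinity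
forces `1/ν` to be a nonzero integer. -/
theorem shift_res {ν : ℂ} (hν : ν ≠ 0) (H : ℂ → ℂ) (C : ℝ)
    (hlim : Tendsto H (Bornology.cobounded ℂ) (𝓝 0))
    (hfe : ∀ Y : ℂ, C < ‖Y‖ → C < ‖Y - ν‖ → H (Y - ν) - H Y = 1 / ((Y - ν) * (Y - ν + 1))) :
    ∃ m : ℤ, m ≠ 0 ∧ ν * m = 1 := by
  set b : ℂ := 1 / ν with hbdef
  have hb : b ≠ 0 := one_div_ne_zero hν
  have hνb : ν * b = 1 := by rw [hbdef]; field_simp
  set T : ℝ := |C| / ‖ν‖ + ‖b‖ + 1 with hTdef
  have hνn : 0 < ‖ν‖ := norm_pos_iff.2 hν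
  have hT0 : 0 < T := by positivity
  set t : ℂ := (T : ℂ) * I with htdef
  have htim : t.im = T := by simp [htdef]
  have hbim : 0 < (t + b).im := by
    rw [add_im, htim]
    have h1 : -‖b‖ ≤ b.im := by
      have := abs_im_le_norm b
      exact (abs_le.1 this).1
    have h2 : 0 ≤ |C| / ‖ν‖ := by positivity
    linarith
  have hCn : ∀ r : ℝ, C < ‖ν * (t + r)‖ := by
    intro r
    rw [norm_mul]
    have h1 : T ≤ ‖t + r‖ := by
      have h2 := abs_im_le_norm (t + r)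
      have h3 : (t + r).im = T := by simp [htim]
      rw [h3, abs_of_pos hT0] at h2
      exact h2
    have h4 : ‖ν‖ * T ≤ ‖ν‖ * ‖t + r‖ := mul_le_mul_of_nonneg_left h1 hνn.le
    have h5 : |C| < ‖ν‖ * T := by
      rw [hTdef]
      have : ‖ν‖ * (|C| / ‖ν‖ + ‖b‖ + 1) = |C| + ‖ν‖ * (‖b‖ + 1) := by
        field_simp
        ring
      rw [this]
      have : 0 < ‖ν‖ * (‖b‖ + 1) := by positivity
      linarith
    have h6 := le_abs_self C
    linarith
  have htne : ∀ r : ℝ, t + r ≠ 0 := by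
    intro r h
    have := congrArg Complex.im h
    simp [htim] at this
    exact hT0.ne' this
  have htbne : ∀ r : ℝ, t + b + r ≠ 0 := by
    intro r h
    have := congrArg Complex.im h
    rw [add_im (t + b), ofReal_im, add_zero, zero_im] at this
    exact hbim.ne' this
  -- one step
  have step : ∀ r : ℝ, H (ν * (t + r)) - H (ν * (t + r + 1))
      = b * (1 / (t + r) - 1 / (t + b + r)) := by
    intro r
    have h1 : C < ‖ν * (t + r + 1)‖ := by
      have := hCn (r + 1)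
      push_cast at this
      rwa [← add_assoc] at this
    have e1 : ν * (t + r + 1) - ν = ν * (t + r) := by ring
    have h2 := hfe (ν * (t + r + 1)) h1 (by rw [e1]; exact hCn r)
    rw [e1] at h2
    rw [h2]
    have n1 := htne r
    have n2 := htbne r
    have n3 : ν * (t + r) + 1 = ν * (t + b + r) := by
      linear_combination -hνb
    rw [n3]
    have hb' : b = 1 / ν := hbdef
    rw [div_sub_div _ _ n1 n2, hb']
    rw [hb'] at n2
    field_simp
    ring
  have hsum : ∀ N : ℕ, b * (1 / t - 1 / (t + b) + ∑ n ∈ Finset.range N, (cotTerm t n - cotTerm (t + b) n))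
      = H (ν * (t - N)) - H (ν * (t + N + 1)) := by
    intro N
    induction N with
    | zero =>
      have := step 0
      simp only [ofReal_zero, add_zero] at this
      simp only [Finset.range_zero, Finset.sum_empty, add_zero, Nat.cast_zero, sub_zero]
      rw [← this]
    | succ N ih =>
      have s1 := step (-((N : ℝ) + 1))
      have s2 := step ((N : ℝ) + 1)
      rw [Finset.sum_range_succ, ← add_assoc, mul_add, ih]
      push_cast at s1 s2 ⊢
      have e1 : t + -((N : ℂ) + 1) + 1 = t - N := by ring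
      have e2 : t + -((N : ℂ) + 1) = t - (N + 1) := by ring
      have e3 : t + b + -((N : ℂ) + 1) = t + b - (N + 1) := by ring
      rw [e1, e2, e3] at s1
      have e4 : t + (N : ℂ) + 1 = t + ((N : ℂ) + 1) := by ring
      rw [e4]
      simp only [cotTerm]
      linear_combination -s1 - s2
  -- the limit
  have hmemT : t ∈ Complex.integerComplement := by
    rw [Complex.mem_integerComplement_iff]
    rintro ⟨k, hk⟩
    have := congrArg Complex.im hk
    rw [htim] at this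
    simp at this
    exact hT0.ne this
  have hmemTb : t + b ∈ Complex.integerComplement := by
    rw [Complex.mem_integerComplement_iff]
    rintro ⟨k, hk⟩
    have := congrArg Complex.im hk
    simp only [intCast_im] at this
    exact hbim.ne this
  have l1 := tendsto_logDeriv_euler_cot_sub hmemT
  have l2 := tendsto_logDeriv_euler_cot_sub hmemTb
  have l3 : Tendsto (fun N : ℕ => b * (1 / t - 1 / (t + b)
      + ∑ n ∈ Finset.range N, (cotTerm t n - cotTerm (t + b) n))) atTop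
      (𝓝 (b * (1 / t - 1 / (t + b) + ((Real.pi * cot (Real.pi * t) - 1 / t)
        - (Real.pi * cot (Real.pi * (t + b)) - 1 / (t + b)))))) := by
    refine Tendsto.const_mul b (Tendsto.const_add _ ?_)
    simp_rw [Finset.sum_sub_distrib]
    exact l1.sub l2
  have hco : ∀ c : ℂ, ∀ d : ℂ, d ≠ 0 → Tendsto (fun N : ℕ => c + d * (N : ℂ)) atTop
      (Bornology.cobounded ℂ) := by
    intro c d hd
    rw [← tendsto_norm_atTop_iff_cobounded]
    have h1 : Tendsto (fun N : ℕ => ‖d‖ * (N : ℝ) - ‖c‖) atTop atTop :=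
      tendsto_atTop_add_const_right _ _
        (Tendsto.const_mul_atTop (norm_pos_iff.2 hd) tendsto_natCast_atTop_atTop)
    refine tendsto_atTop_mono (fun N => ?_) h1
    have h2 : ‖d * (N : ℂ)‖ ≤ ‖c + d * (N : ℂ)‖ + ‖c‖ := by
      have := norm_sub_le (c + d * (N : ℂ)) c
      simpa using this
    rw [norm_mul, Complex.norm_natCast] at h2
    linarith
  have l4 : Tendsto (fun N : ℕ => H (ν * (t - N)) - H (ν * (t + N + 1))) atTop (𝓝 (0 - 0)) := by
    refine Tendsto.sub (hlim.comp ?_) (hlim.comp ?_)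
    · refine (hco (ν * t) (-ν) (neg_ne_zero.2 hν)).congr (fun N => ?_)
      ring
    · refine (hco (ν * (t + 1)) ν hν).congr (fun N => ?_)
      ring
  have l5 : b * (1 / t - 1 / (t + b) + ((Real.pi * cot (Real.pi * t) - 1 / t)
        - (Real.pi * cot (Real.pi * (t + b)) - 1 / (t + b)))) = 0 := by
    have h1 := tendsto_nhds_unique l3 (l4.congr (fun N => (hsum N).symm))
    rw [h1, sub_zero]
  have hpi : (Real.pi : ℂ) ≠ 0 := by exact_mod_cast Real.pi_ne_zero
  have l6 : cot (Real.pi * t) = cot (Real.pi * (t + b)) := by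
    rcases mul_eq_zero.1 l5 with h | h
    · exact absurd h hb
    · have h2 : (Real.pi : ℂ) * (cot (Real.pi * t) - cot (Real.pi * (t + b))) = 0 := by
        linear_combination h
      rcases mul_eq_zero.1 h2 with h3 | h3
      · exact absurd h3 hpi
      · exact sub_eq_zero.1 h3
  rw [Complex.cot_pi_eq_exp_ratio, Complex.cot_pi_eq_exp_ratio] at l6
  set q : ℂ := Complex.exp (2 * Real.pi * I * t) with hqdef
  set q' : ℂ := Complex.exp (2 * Real.pi * I * (t + b)) with hq'def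
  have hlt : ∀ z : ℂ, 0 < z.im → Complex.exp (2 * Real.pi * I * z) ≠ 1 := by
    intro z hz h
    have h1 : ‖Complex.exp (2 * Real.pi * I * z)‖ < 1 := by
      rw [norm_exp, Real.exp_lt_one_iff]
      have : (2 * (Real.pi : ℂ) * I * z).re = -(2 * Real.pi * z.im) := by
        simp
      rw [this]
      have := Real.pi_pos
      have : 0 < 2 * Real.pi * z.im := by positivity
      linarith
    rw [h] at h1
    simp at h1
  have hq1 : 1 - q ≠ 0 := sub_ne_zero.2 (hlt t (by rw [htim]; exact hT0)).symm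
  have hq1' : 1 - q' ≠ 0 := sub_ne_zero.2 (hlt (t + b) hbim).symm
  have hqq : q = q' := by
    rw [div_eq_div_iff (mul_ne_zero I_ne_zero hq1) (mul_ne_zero I_ne_zero hq1')] at l6
    have h2 : (2 * I) * (q - q') = 0 := by linear_combination l6
    rcases mul_eq_zero.1 h2 with h3 | h3
    · exact absurd h3 (mul_ne_zero two_ne_zero I_ne_zero)
    · exact sub_eq_zero.1 h3
  have hexp : Complex.exp (2 * Real.pi * I * b) = 1 := by
    have h1 : q' = q * Complex.exp (2 * Real.pi * I * b) := by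
      rw [hq'def, hqdef, ← Complex.exp_add]
      congr 1
      ring
    rw [← hqq] at h1
    have hq0 : q ≠ 0 := Complex.exp_ne_zero _
    have h2 : q * (Complex.exp (2 * Real.pi * I * b) - 1) = 0 := by linear_combination -h1
    rcases mul_eq_zero.1 h2 with h3 | h3
    · exact absurd h3 hq0
    · exact sub_eq_zero.1 h3
  rw [Complex.exp_eq_one_iff] at hexp
  obtain ⟨m, hm⟩ := hexp
  have hbm : b = m := by
    have h1 : (2 * (Real.pi : ℂ) * I) * (b - m) = 0 := by linear_combination hm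
    rcases mul_eq_zero.1 h1 with h3 | h3
    · exact absurd h3 (by simp [I_ne_zero])
    · exact sub_eq_zero.1 h3
  refine ⟨m, ?_, ?_⟩
  · rintro rfl
    apply hb
    rw [hbm]
    simp
  · rw [← hbm]
    exact hνb

/-- A function periodic near infinity and tending to `0` vanishes near infinity. -/
theorem period_zero (D : ℂ → ℂ) {r : ℝ} (hr : 0 < r) (C : ℝ)
    (hlim : Tendsto D (Bornology.cobounded ℂ) (𝓝 0))
    (hper : ∀ Y : ℂ, C < ‖Y‖ → C < ‖Y - r‖ → D (Y - r) = D Y) :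
    ∀ Y : ℂ, C < ‖Y‖ → D Y = 0 := by
  have hco : ∀ c : ℂ, ∀ d : ℂ, d ≠ 0 → Tendsto (fun N : ℕ => c + d * (N : ℂ)) atTop
      (Bornology.cobounded ℂ) := by
    intro c d hd
    rw [← tendsto_norm_atTop_iff_cobounded]
    have h1 : Tendsto (fun N : ℕ => ‖d‖ * (N : ℝ) - ‖c‖) atTop atTop :=
      tendsto_atTop_add_const_right _ _
        (Tendsto.const_mul_atTop (norm_pos_iff.2 hd) tendsto_natCast_atTop_atTop)
    refine tendsto_atTop_mono (fun N => ?_) h1
    have h2 : ‖d * (N : ℂ)‖ ≤ ‖c + d * (N : ℂ)‖ + ‖c‖ := by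
      have := norm_sub_le (c + d * (N : ℂ)) c
      simpa using this
    rw [norm_mul, Complex.norm_natCast] at h2
    linarith
  have hrC : (r : ℂ) ≠ 0 := by exact_mod_cast hr.ne'
  intro Y hY
  rcases le_total Y.re 0 with hre | hre
  · have hn : ∀ k : ℕ, C < ‖Y + (-r : ℂ) * (k : ℂ)‖ := by
      intro k
      refine hY.trans_le ?_
      have h1 : Complex.normSq Y ≤ Complex.normSq (Y + (-r : ℂ) * (k : ℂ)) := by
        rw [normSq_apply, normSq_apply]
        have e1 : (Y + (-r : ℂ) * (k : ℂ)).re = Y.re - r * k := by simp; ring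
        have e2 : (Y + (-r : ℂ) * (k : ℂ)).im = Y.im := by simp
        rw [e1, e2]
        have h3 : 0 ≤ r * k := by positivity
        nlinarith
      rw [← sq_le_sq₀ (norm_nonneg _) (norm_nonneg _), ← normSq_eq_norm_sq, ← normSq_eq_norm_sq]
      exact h1
    have hD : ∀ k : ℕ, D (Y + (-r : ℂ) * (k : ℂ)) = D Y := by
      intro k
      induction k with
      | zero => simp
      | succ k ih =>
        rw [← ih, ← hper _ (hn k) ?_]
        · congr 1
          push_cast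
          ring
        · have := hn (k + 1)
          push_cast at this
          rw [show Y + (-r : ℂ) * (k : ℂ) - r = Y + (-r : ℂ) * ((k : ℂ) + 1) by ring]
          exact this
    have h1 : Tendsto (fun N : ℕ => D (Y + (-r : ℂ) * (N : ℂ))) atTop (𝓝 0) :=
      hlim.comp (hco Y (-r) (neg_ne_zero.2 hrC))
    simp_rw [hD] at h1
    exact tendsto_nhds_unique tendsto_const_nhds h1
  · have hn : ∀ k : ℕ, C < ‖Y + (r : ℂ) * (k : ℂ)‖ := by
      intro k
      refine hY.trans_le ?_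
      have h1 : Complex.normSq Y ≤ Complex.normSq (Y + (r : ℂ) * (k : ℂ)) := by
        rw [normSq_apply, normSq_apply]
        have e1 : (Y + (r : ℂ) * (k : ℂ)).re = Y.re + r * k := by simp
        have e2 : (Y + (r : ℂ) * (k : ℂ)).im = Y.im := by simp
        rw [e1, e2]
        have h3 : 0 ≤ r * k := by positivity
        nlinarith
      rw [← sq_le_sq₀ (norm_nonneg _) (norm_nonneg _), ← normSq_eq_norm_sq, ← normSq_eq_norm_sq]
      exact h1
    have hD : ∀ k : ℕ, D (Y + (r : ℂ) * (k : ℂ)) = D Y := by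
      intro k
      induction k with
      | zero => simp
      | succ k ih =>
        rw [← ih]
        have h2 := hper (Y + (r : ℂ) * ((k + 1 : ℕ) : ℂ)) (hn (k + 1)) ?_
        · rw [← h2]
          congr 1
          push_cast
          ring
        · have := hn k
          rw [show Y + (r : ℂ) * ((k + 1 : ℕ) : ℂ) - r = Y + (r : ℂ) * (k : ℂ) by push_cast; ring]
          exact this
    have h1 : Tendsto (fun N : ℕ => D (Y + (r : ℂ) * (N : ℂ))) atTop (𝓝 0) :=
      hlim.comp (hco Y r hrC)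
    simp_rw [hD] at h1
    exact tendsto_nhds_unique tendsto_const_nhds h1

theorem frac_le_one {n i : ℕ} (hi : i < n) : ‖((i : ℂ) / n)‖ ≤ 1 := by
  rw [norm_div, Complex.norm_natCast, Complex.norm_natCast]
  have h1 : (0 : ℝ) < n := by
    have : 0 < n := by omega
    exact_mod_cast this
  rw [div_le_one h1]
  exact_mod_cast hi.le

theorem ne_of_large {n i : ℕ} (hi : i < n) {Y : ℂ} (hY : 1 < ‖Y‖) : Y + (i : ℂ) / n ≠ 0 := by
  intro h
  have h1 : Y = -((i : ℂ) / n) := eq_neg_of_add_eq_zero_left h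
  rw [h1, norm_neg] at hY
  exact absurd (frac_le_one hi) (not_le.2 hY)

theorem hs1_hasDerivAt (n : ℕ) {Y : ℂ} (hY : 1 < ‖Y‖) : HasDerivAt (hs1 n) (-hs2 n Y) Y := by
  have h1 : ∀ i ∈ Finset.range n, HasDerivAt (fun Y : ℂ => 1 / (Y + (i : ℂ) / n))
      (-(1 / (Y + (i : ℂ) / n) ^ 2)) Y := by
    intro i hi
    have h0 := ne_of_large (Finset.mem_range.1 hi) hY
    have h2 : HasDerivAt (fun Y : ℂ => Y + (i : ℂ) / n) 1 Y := (hasDerivAt_id Y).add_const _
    have h3 := h2.fun_inv h0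
    simp only [one_div]
    refine h3.congr_deriv ?_
    rw [neg_div, one_div]
  have h2 := HasDerivAt.fun_sum h1
  rw [Finset.sum_neg_distrib] at h2
  exact h2

theorem hs1_tendsto (n : ℕ) : Tendsto (hs1 n) (Bornology.cobounded ℂ) (𝓝 0) := by
  have h : Tendsto (fun Y : ℂ => ∑ i ∈ Finset.range n, 1 / (Y + (i : ℂ) / n))
      (Bornology.cobounded ℂ) (𝓝 (∑ i ∈ Finset.range n, (0 : ℂ))) := by
    refine tendsto_finsetSum _ (fun i _ => ?_)
    have h1 : Tendsto (fun Y : ℂ => Y + (i : ℂ) / n) (Bornology.cobounded ℂ)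
        (Bornology.cobounded ℂ) := by
      rw [← tendsto_norm_atTop_iff_cobounded]
      have h2 : Tendsto (fun Y : ℂ => ‖Y‖ - ‖(i : ℂ) / n‖) (Bornology.cobounded ℂ) atTop :=
        tendsto_atTop_add_const_right _ _ tendsto_norm_cobounded_atTop
      refine tendsto_atTop_mono (fun Y => ?_) h2
      have := norm_sub_le (Y + (i : ℂ) / n) ((i : ℂ) / n)
      rw [add_sub_cancel_right] at this
      linarith
    simp only [one_div]
    exact tendsto_inv₀_cobounded.comp h1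
  rw [Finset.sum_const_zero] at h
  exact h

theorem hs1_step {n : ℕ} (hn : 0 < n) (Y : ℂ) :
    hs1 n Y - hs1 n (Y + 1 / (n : ℂ)) = 1 / Y - 1 / (Y + 1) := by
  have hnC : (n : ℂ) ≠ 0 := by exact_mod_cast hn.ne'
  have h1 := Finset.sum_range_sub' (fun i : ℕ => 1 / (Y + (i : ℂ) / n)) n
  simp only [Nat.cast_zero, zero_div, add_zero, div_self hnC] at h1
  rw [← h1, hs1, hs1, ← Finset.sum_sub_distrib]
  refine Finset.sum_congr rfl (fun i _ => ?_)
  have e : Y + 1 / (n : ℂ) + (i : ℂ) / n = Y + ((i + 1 : ℕ) : ℂ) / n := by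
    push_cast
    ring
  rw [e]

theorem ww_step {n : ℕ} (hn : 0 < n) (s : ℝ) (Y : ℂ) :
    ww n s (Y + 1 / (n : ℂ)) * Y ^ (s : ℂ) = ww n s Y * (Y + 1) ^ (s : ℂ) := by
  have hnC : (n : ℂ) ≠ 0 := by exact_mod_cast hn.ne'
  have h1 : ww n s (Y + 1 / (n : ℂ))
      = ∏ i ∈ Finset.range n, (Y + ((i + 1 : ℕ) : ℂ) / n) ^ (s : ℂ) := by
    rw [ww]
    refine Finset.prod_congr rfl (fun i _ => ?_)
    congr 1
    push_cast
    ring
  have h2 := Finset.prod_range_succ (fun i : ℕ => (Y + (i : ℂ) / n) ^ (s : ℂ)) n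
  have h3 := Finset.prod_range_succ' (fun i : ℕ => (Y + (i : ℂ) / n) ^ (s : ℂ)) n
  rw [h2] at h3
  simp only [Nat.cast_zero, zero_div, add_zero, div_self hnC] at h3
  rw [h1, ← h3, ww]

theorem cpow_ratio (s : ℂ) {Y : ℂ} (hY : 0 < Y.im) :
    (Y / (Y + 1)) ^ s * (Y + 1) ^ s = Y ^ s := by
  have hY0 : Y ≠ 0 := by
    intro h
    rw [h] at hY
    simp at hY
  have hY1im : 0 < (Y + 1).im := by simpa using hY
  have hY1 : Y + 1 ≠ 0 := by
    intro h
    rw [h] at hY1im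
    simp at hY1im
  have a1 : 0 < arg Y ∧ arg Y < Real.pi := by
    refine ⟨?_, ?_⟩
    · have h1 : 0 ≤ arg Y := arg_nonneg_iff.2 hY.le
      rcases h1.eq_or_lt with h | h
      · exfalso
        have := arg_eq_zero_iff.1 h.symm
        linarith [this.2]
      · exact h
    · refine lt_of_le_of_ne (arg_le_pi Y) ?_
      intro h
      have := arg_eq_pi_iff.1 h
      linarith [this.2]
  have a2 : 0 < arg (Y + 1) ∧ arg (Y + 1) < Real.pi := by
    refine ⟨?_, ?_⟩
    · have h1 : 0 ≤ arg (Y + 1) := arg_nonneg_iff.2 hY1im.le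
      rcases h1.eq_or_lt with h | h
      · exfalso
        have := arg_eq_zero_iff.1 h.symm
        linarith [this.2]
      · exact h
    · refine lt_of_le_of_ne (arg_le_pi _) ?_
      intro h
      have := arg_eq_pi_iff.1 h
      linarith [this.2]
  have hinv : log ((Y + 1)⁻¹) = -log (Y + 1) := log_inv _ a2.2.ne
  have harginv : arg ((Y + 1)⁻¹) = -arg (Y + 1) := by
    rw [arg_inv, if_neg a2.2.ne]
  have hmul : log (Y * (Y + 1)⁻¹) = log Y + log ((Y + 1)⁻¹) := by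
    rw [log_mul_eq_add_log_iff hY0 (inv_ne_zero hY1), harginv]
    constructor
    · linarith [a1.1, a2.2]
    · linarith [a1.2, a2.1]
  rw [div_eq_mul_inv, cpow_def_of_ne_zero (mul_ne_zero hY0 (inv_ne_zero hY1)),
    cpow_def_of_ne_zero hY1, cpow_def_of_ne_zero hY0, ← Complex.exp_add, hmul, hinv]
  congr 1
  ring

theorem EE_an (n : ℕ) (s : ℝ) : AnalyticOnNhd ℂ (EE n s) {Y : ℂ | 1 < ‖Y‖} := by
  intro Y hY
  have h1 : ∀ i ∈ Finset.range n, AnalyticAt ℂ (fun Z : ℂ => 1 / (Z + (i : ℂ) / n)) Y := by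
    intro i hi
    have h1 : AnalyticAt ℂ (fun Z : ℂ => Z + (i : ℂ) / n) Y := by fun_prop
    exact analyticAt_const.div h1 (ne_of_large (Finset.mem_range.1 hi) hY)
  have h2 : AnalyticAt ℂ (hs1 n) Y := Finset.analyticAt_fun_sum _ h1
  have h3 : AnalyticAt ℂ (hs2 n) Y := by
    have : hs2 n = fun Z : ℂ => ∑ i ∈ Finset.range n, (1 / (Z + (i : ℂ) / n)) ^ 2 := by
      funext Z
      refine Finset.sum_congr rfl (fun i _ => ?_)
      rw [div_pow, one_pow]
    rw [this]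
    exact Finset.analyticAt_fun_sum _ (fun i hi => (h1 i hi).pow 2)
  exact (analyticAt_const.mul (h2.pow 2)).sub h3

/-- Ramified case. -/
theorem shift_ram {m : ℤ} {ν : ℂ} (hν : ν * m = 1) {σ : ℝ} (hσ : ∀ k : ℤ, σ ≠ k)
    (H0 g : ℂ → ℂ) (C : ℝ) (hlim : Tendsto H0 (Bornology.cobounded ℂ) (𝓝 0))
    (hfe : ∀ Y : ℂ, C < ‖Y‖ → C < ‖Y - ν‖ →
      H0 (Y - ν) - H0 Y = 1 / ((Y - ν) * (Y - ν + 1)))
    (hg : AnalyticOnNhd ℂ g {Y : ℂ | C < ‖Y‖})
    (hge : ∀ Y : ℂ, C < ‖Y‖ → C < ‖Y - ν‖ →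
      ((Y - ν) / (Y - ν + 1)) ^ (σ : ℂ) * g (Y - ν) - g Y = σ * H0 Y ^ 2 + deriv H0 Y) :
    False := by
  have hm : m ≠ 0 := by
    rintro rfl
    simp at hν
  set C1 : ℝ := |C| + 2 with hC1def
  have hC1 : ∀ Y : ℂ, C1 < ‖Y‖ → C < ‖Y‖ ∧ 1 < ‖Y‖ := by
    intro Y hY
    have := le_abs_self C
    have := abs_nonneg C
    exact ⟨by linarith, by linarith⟩
  have hopen : ∀ c : ℝ, IsOpen {Y : ℂ | c < ‖Y‖} := fun c =>
    isOpen_lt continuous_const continuous_norm
  have him : ∀ c : ℝ, ∀ Y : ℂ, c < Y.im → c < ‖Y‖ := fun c Y hY =>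
    hY.trans_le ((le_abs_self _).trans (abs_im_le_norm Y))
  obtain ⟨n, hn⟩ : ∃ n : ℕ, m = n ∨ m = -(n : ℤ) := ⟨m.natAbs, Int.natAbs_eq m⟩
  have hn0 : 0 < n := by
    rcases Nat.eq_zero_or_pos n with h | h
    · rw [h] at hn
      simp at hn
      exact absurd hn hm
    · exact h
  have hnC : (n : ℂ) ≠ 0 := by exact_mod_cast hn0.ne'
  have hnR : (0 : ℝ) < 1 / (n : ℝ) := by
    have : (0 : ℝ) < n := by exact_mod_cast hn0
    positivity
  have hnR1 : 1 / (n : ℝ) ≤ 1 := by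
    rw [div_le_one (by exact_mod_cast hn0)]
    exact_mod_cast hn0
  have hcastr : ((1 / (n : ℝ) : ℝ) : ℂ) = 1 / (n : ℂ) := by push_cast; ring
  have hnorm1 : ‖(1 / (n : ℂ))‖ ≤ 1 := by
    rw [← hcastr, Complex.norm_real, Real.norm_eq_abs, abs_of_pos hnR]
    exact hnR1
  have nz : ∀ Y : ℂ, 1 < ‖Y‖ → Y ≠ 0 ∧ Y + 1 ≠ 0 := by
    intro Y hY
    constructor
    · rintro rfl
      simp at hY
      linarith
    · intro h
      have h1 : Y = -1 := eq_neg_of_add_eq_zero_left h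
      rw [h1] at hY
      simp at hY
  rcases hn with hn | hn
  · -- positive case
    have hνn : ν = 1 / (n : ℂ) := by
      rw [hn] at hν
      push_cast at hν
      exact eq_one_div_of_mul_eq_one_left hν
    subst hνn
    have hH0 : ∀ Y : ℂ, C1 < ‖Y‖ → H0 Y - hs1 n Y = 0 := by
      refine period_zero (fun Y => H0 Y - hs1 n Y) hnR C1 ?_ ?_
      · simpa using hlim.sub (hs1_tendsto n)
      · intro Y h1 h2
        rw [hcastr] at h2 ⊢
        have h3 := hfe Y (hC1 _ h1).1 (hC1 _ h2).1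
        have h4 := hs1_step hn0 (Y - 1 / (n : ℂ))
        rw [sub_add_cancel] at h4
        obtain ⟨z1, z2⟩ := nz _ (hC1 _ h2).2
        have h5 : 1 / (Y - 1 / (n : ℂ)) - 1 / (Y - 1 / (n : ℂ) + 1)
            = 1 / ((Y - 1 / (n : ℂ)) * (Y - 1 / (n : ℂ) + 1)) := by
          rw [div_sub_div _ _ z1 z2]
          congr 1
          ring
        linear_combination h3 - h4 - h5
    have hH0' : ∀ Y : ℂ, C1 < ‖Y‖ → H0 Y = hs1 n Y := fun Y hY => sub_eq_zero.1 (hH0 Y hY)
    have hder : ∀ Y : ℂ, C1 < ‖Y‖ → deriv H0 Y = -hs2 n Y := by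
      intro Y hY
      have h1 : H0 =ᶠ[𝓝 Y] hs1 n := by
        filter_upwards [(hopen C1).mem_nhds hY] with Z hZ
        exact hH0' Z hZ
      rw [h1.deriv_eq]
      exact (hs1_hasDerivAt n (hC1 _ hY).2).deriv
    refine core hn0 hσ C1 g (fun Y hY => hg Y (hC1 Y hY).1) ?_
    intro Y hY
    have h1 : C1 < ‖Y‖ := him _ _ hY
    have h2 : C1 < ‖Y + 1 / (n : ℂ)‖ := by
      apply him
      rw [← hcastr]
      simpa using hY
    have h3 := hge (Y + 1 / (n : ℂ)) (hC1 _ h2).1 (by rw [add_sub_cancel_right]; exact (hC1 _ h1).1)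
    rw [add_sub_cancel_right, hH0' _ h2, hder _ h2] at h3
    have hYim : 0 < Y.im := by
      have : 0 < C1 := by positivity
      linarith
    have hY1im : 0 < (Y + 1).im := by simpa using hYim
    have h4 := cpow_ratio (σ : ℂ) hYim
    have h5 := ww_step hn0 σ Y
    have hY1 : (Y + 1) ^ (σ : ℂ) ≠ 0 := by
      rw [Ne, cpow_eq_zero_iff]
      rintro ⟨h, -⟩
      rw [h] at hY1im
      simp at hY1im
    have h6 : ww n σ (Y + 1 / (n : ℂ)) * (Y / (Y + 1)) ^ (σ : ℂ) = ww n σ Y := by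
      apply mul_right_cancel₀ hY1
      rw [mul_assoc, h4, h5]
    have h7 : FF n σ (Y + 1 / (n : ℂ)) = ww n σ (Y + 1 / (n : ℂ))
        * (σ * hs1 n (Y + 1 / (n : ℂ)) ^ 2 - hs2 n (Y + 1 / (n : ℂ))) := rfl
    rw [h7]
    linear_combination ww n σ (Y + 1 / (n : ℂ)) * h3 - g Y * h6
  · -- negative case
    have hνn : ν = -(1 / (n : ℂ)) := by
      rw [hn] at hν
      push_cast at hν
      have h1 : (-ν) * (n : ℂ) = 1 := by linear_combination hν
      have h2 : -ν = 1 / (n : ℂ) := eq_one_div_of_mul_eq_one_left h1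
      rw [← h2, neg_neg]
    subst hνn
    have hsh : ∀ Y : ℂ, C1 + 2 < ‖Y‖ → C1 + 1 < ‖Y + 1 / (n : ℂ)‖ ∧ C1 + 1 < ‖Y - 1 / (n : ℂ)‖ := by
      intro Y hY
      constructor
      · have := norm_sub_le (Y + 1 / (n : ℂ)) (1 / (n : ℂ))
        rw [add_sub_cancel_right] at this
        linarith
      · have := norm_add_le (Y - 1 / (n : ℂ)) (1 / (n : ℂ))
        rw [sub_add_cancel] at this
        linarith
    have htsh : Tendsto (fun Y : ℂ => Y + 1 / (n : ℂ)) (Bornology.cobounded ℂ)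
        (Bornology.cobounded ℂ) := by
      rw [← tendsto_norm_atTop_iff_cobounded]
      have h2 : Tendsto (fun Y : ℂ => ‖Y‖ - 1) (Bornology.cobounded ℂ) atTop :=
        tendsto_atTop_add_const_right _ _ tendsto_norm_cobounded_atTop
      refine tendsto_atTop_mono (fun Y => ?_) h2
      have := norm_sub_le (Y + 1 / (n : ℂ)) (1 / (n : ℂ))
      rw [add_sub_cancel_right] at this
      linarith
    have hH0 : ∀ Y : ℂ, C1 + 2 < ‖Y‖ → H0 Y + hs1 n (Y + 1 / (n : ℂ)) = 0 := by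
      refine period_zero (fun Y => H0 Y + hs1 n (Y + 1 / (n : ℂ))) hnR (C1 + 2) ?_ ?_
      · simpa using hlim.add ((hs1_tendsto n).comp htsh)
      · intro Y h1 h2
        rw [hcastr] at h2 ⊢
        have h1' : C1 < ‖Y‖ := by linarith
        have h2' : C1 < ‖Y - 1 / (n : ℂ)‖ := by linarith
        have e : Y - 1 / (n : ℂ) - -(1 / (n : ℂ)) = Y := by ring
        have h3 := hfe (Y - 1 / (n : ℂ)) (hC1 _ h2').1 (by rw [e]; exact (hC1 _ h1').1)
        rw [e] at h3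
        have h4 := hs1_step hn0 Y
        obtain ⟨z1, z2⟩ := nz _ (hC1 _ h1').2
        have h5 : 1 / Y - 1 / (Y + 1) = 1 / (Y * (Y + 1)) := by
          rw [div_sub_div _ _ z1 z2]
          congr 1
          ring
        simp only [sub_add_cancel]
        linear_combination -h3 + h4 + h5
    have hH0' : ∀ Y : ℂ, C1 + 2 < ‖Y‖ → H0 Y = -hs1 n (Y + 1 / (n : ℂ)) := fun Y hY =>
      eq_neg_of_add_eq_zero_left (hH0 Y hY)
    have hder : ∀ Y : ℂ, C1 + 2 < ‖Y‖ → deriv H0 Y = hs2 n (Y + 1 / (n : ℂ)) := by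
      intro Y hY
      have h1 : H0 =ᶠ[𝓝 Y] fun Z => -hs1 n (Z + 1 / (n : ℂ)) := by
        filter_upwards [(hopen (C1 + 2)).mem_nhds hY] with Z hZ
        exact hH0' Z hZ
      rw [h1.deriv_eq]
      have hZ : 1 < ‖Y + 1 / (n : ℂ)‖ := (hC1 _ (by linarith [(hsh Y hY).1])).2
      have h2 : HasDerivAt (fun Z : ℂ => Z + 1 / (n : ℂ)) 1 Y := (hasDerivAt_id Y).add_const _
      have h3 := (hs1_hasDerivAt n hZ).comp Y h2
      have h4 := h3.neg.deriv
      rw [mul_one, neg_neg] at h4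
      exact h4
    set s : ℝ := -σ with hsdef
    have hs' : ∀ k : ℤ, s ≠ k := by
      intro k h
      apply hσ (-k)
      push_cast
      rw [← h, hsdef, neg_neg]
    refine core hn0 hs' (C1 + 4) (fun Z => g (Z - 1 / (n : ℂ)) - EE n s Z) ?_ ?_
    · intro Z hZ
      have hZ' : C1 + 4 < ‖Z‖ := hZ
      have h1 : C < ‖Z - 1 / (n : ℂ)‖ := by
        have := (hsh Z (by linarith)).2
        exact (hC1 _ (by linarith)).1
      have h2 : AnalyticAt ℂ (fun Z : ℂ => Z - 1 / (n : ℂ)) Z := by fun_prop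
      have h3 : AnalyticAt ℂ (fun Z : ℂ => g (Z - 1 / (n : ℂ))) Z :=
        AnalyticAt.fun_comp (g := g) (f := fun Z : ℂ => Z - 1 / (n : ℂ)) (x := Z) (hg _ h1) h2
      exact h3.sub (EE_an n s Z (hC1 _ (by linarith)).2)
    · intro Z hZ
      have hZn : C1 + 4 < ‖Z‖ := him _ _ hZ
      have hY : C1 + 2 < ‖Z - 1 / (n : ℂ)‖ := by
        have := norm_add_le (Z - 1 / (n : ℂ)) (1 / (n : ℂ))
        rw [sub_add_cancel] at this
        linarith
      have e : Z - 1 / (n : ℂ) - -(1 / (n : ℂ)) = Z := by ring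
      have h3 := hge (Z - 1 / (n : ℂ)) (hC1 _ (by linarith)).1
        (by rw [e]; exact (hC1 _ (by linarith)).1)
      rw [e, hH0' _ hY, hder _ hY, sub_add_cancel] at h3
      have hZim : 0 < Z.im := by
        have : 0 < C1 := by positivity
        linarith
      have hZ1im : 0 < (Z + 1).im := by simpa using hZim
      have h4 := cpow_ratio (s : ℂ) hZim
      have h5 := ww_step hn0 s Z
      have hZ0 : Z ≠ 0 := (nz _ (hC1 _ (by linarith)).2).1
      have hZ1 : Z + 1 ≠ 0 := (nz _ (hC1 _ (by linarith)).2).2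
      have hZp : Z ^ (s : ℂ) ≠ 0 := by
        rw [Ne, cpow_eq_zero_iff]
        exact fun h => hZ0 h.1
      have hZ1p : (Z + 1) ^ (s : ℂ) ≠ 0 := by
        rw [Ne, cpow_eq_zero_iff]
        exact fun h => hZ1 h.1
      -- ww (Z + 1/n) = ww Z * (Z/(Z+1)) ^ σ
      have h6 : ww n s Z * (Z / (Z + 1)) ^ (σ : ℂ) = ww n s (Z + 1 / (n : ℂ)) := by
        have hR : Z / (Z + 1) ≠ 0 := div_ne_zero hZ0 hZ1
        have h7 : (Z / (Z + 1)) ^ (s : ℂ) * (Z / (Z + 1)) ^ (σ : ℂ) = 1 := by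
          rw [← cpow_add _ _ hR, hsdef]
          push_cast
          rw [neg_add_cancel, cpow_zero]
        have h8 : (Z / (Z + 1)) ^ (s : ℂ) ≠ 0 := by
          rw [Ne, cpow_eq_zero_iff]
          exact fun h => hR h.1
        apply mul_right_cancel₀ h8
        apply mul_right_cancel₀ hZ1p
        calc ww n s Z * (Z / (Z + 1)) ^ (σ : ℂ) * (Z / (Z + 1)) ^ (s : ℂ) * (Z + 1) ^ (s : ℂ)
            = ww n s Z * (Z + 1) ^ (s : ℂ)
              * ((Z / (Z + 1)) ^ (s : ℂ) * (Z / (Z + 1)) ^ (σ : ℂ)) := by ring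
          _ = ww n s Z * (Z + 1) ^ (s : ℂ) := by rw [h7, mul_one]
          _ = ww n s (Z + 1 / (n : ℂ)) * Z ^ (s : ℂ) := h5.symm
          _ = ww n s (Z + 1 / (n : ℂ)) * (Z / (Z + 1)) ^ (s : ℂ) * (Z + 1) ^ (s : ℂ) := by
              rw [mul_assoc, h4]
      simp only [FF]
      have e2 : Z + 1 / (n : ℂ) - 1 / (n : ℂ) = Z := by ring
      rw [e2]
      have h9 : EE n s Z = -(σ * (-hs1 n Z) ^ 2 + hs2 n Z) := by
        rw [EE, hsdef]
        push_cast
        ring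
      rw [h9, ← h3]
      linear_combination (g Z) * h6

/-- Form used at a place, regular case. -/
theorem nd_shift_res {ν : ℂ} (hν : ν ≠ 0) {R : ℝ} {H : ℂ → ℂ}
    (hH : Tendsto H (cocompact ℂ) (𝓝 0))
    (hfe : ∀ Y : ℂ, R + ‖ν‖ + 1 < ‖Y‖ → H (Y - ν) - H Y = 1 / ((Y - ν) * (Y - ν + 1))) :
    ∃ m : ℤ, ν * m = 1 := by
  rw [← Metric.cobounded_eq_cocompact] at hH
  obtain ⟨m, -, hm⟩ := shift_res hν H (R + ‖ν‖ + 1) hH (fun Y h1 _ => hfe Y h1)
  exact ⟨m, hm⟩

/-- Form used at a place, irregular case. -/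
theorem nd_shift_irr {R : ℝ} {H : ℂ → ℂ} (hd : DifferentiableOn ℂ H {Y : ℂ | R < ‖Y‖})
    (hfe : ∀ Y : ℂ, R + 2 < ‖Y‖ → H (Y - 1) - H Y = 1 / (Y - 1) ^ 2) : False := by
  have hopen : IsOpen {Y : ℂ | R < ‖Y‖} := isOpen_lt continuous_const continuous_norm
  refine shift_irr H (R + 2) (fun Y hY => ?_) (fun Y h1 _ => hfe Y h1)
  have hY' : R + 2 < ‖Y‖ := hY
  exact hd.analyticAt (hopen.mem_nhds (show R < ‖Y‖ by linarith))

/-- Form used at a place, ramified case. -/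
theorem nd_shift_ram {m : ℤ} {ν : ℂ} (hν : ν * m = 1) {N l : ℕ} (hN : 0 < N) (hl : ¬ N ∣ l)
    {R R' : ℝ} {H G : ℂ → ℂ} (hH : Tendsto H (cocompact ℂ) (𝓝 0))
    (hfe : ∀ Y : ℂ, R + ‖ν‖ + 1 < ‖Y‖ → H (Y - ν) - H Y = 1 / ((Y - ν) * (Y - ν + 1)))
    (hGd : DifferentiableOn ℂ G {Y : ℂ | R' < ‖Y‖})
    (hG : ∀ Y : ℂ, R' + ‖ν‖ + 1 < ‖Y‖ →
      ((Y - ν) / (Y - ν + 1)) ^ ((l : ℂ) / N) * G (Y - ν) - G Y
        = (l : ℂ) / N * H Y ^ 2 + deriv H Y) : False := by
  rw [← Metric.cobounded_eq_cocompact] at hH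
  have hNR : (N : ℝ) ≠ 0 := by
    have : (0 : ℝ) < N := by exact_mod_cast hN
    exact this.ne'
  have hσ : ∀ k : ℤ, ((l : ℝ) / N) ≠ k := by
    intro k h
    apply hl
    have h1 : (l : ℝ) = k * N := by
      rw [div_eq_iff hNR] at h
      exact h
    have h2 : (l : ℤ) = k * N := by exact_mod_cast h1
    exact Int.natCast_dvd_natCast.1 ⟨k, by rw [h2]; ring⟩
  have hcast : (((l : ℝ) / N : ℝ) : ℂ) = (l : ℂ) / N := by push_cast; ring
  set C : ℝ := max (R + ‖ν‖ + 1) (R' + ‖ν‖ + 1) with hCdef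
  have hopen : IsOpen {Y : ℂ | R' < ‖Y‖} := isOpen_lt continuous_const continuous_norm
  refine shift_ram hν hσ H G C hH (fun Y h1 _ => hfe Y ((le_max_left _ _).trans_lt h1)) ?_ ?_
  · intro Y hY
    have hY' : R' + ‖ν‖ + 1 < ‖Y‖ := (le_max_right _ _).trans_lt hY
    have h0 := norm_nonneg ν
    exact hGd.analyticAt (hopen.mem_nhds (show R' < ‖Y‖ by linarith))
  · intro Y h1 _
    rw [hcast]
    exact hG Y ((le_max_right _ _).trans_lt h1)

end Pool.Agent.MP_ae5b4e_an_ND.Shift
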