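import Pool.Agent.Lib.MP_ae5b4e_an_LAT.NDBridge
import Pool.Agent.Lib.MP_ae5b4e_an_LAT.NDCoord
import Pool.Agent.Lib.MP_ae5b4e_an_LAT.NDMemP
import Pool.Agent.Lib.MP_ae5b4e_an_LAT.NDBound
import Pool.Agent.Lib.MP_ae5b4e_an_LAT.NDFip
import Pool.Agent.Lib.MP_ae5b4e_an_LAT.NDRes
import Pool.Agent.Lib.MP_ae5b4e_an_LAT.NDIrr
import Pool.Agent.Lib.MP_ae5b4e_an_LAT.NDRam
import Pool.Agent.Lib.MP_ae5b4e_an_LAT.NDShift

/-!
# The local theorem at a place (problem `MP_ae5b4e_an`)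

`nd_place`: if every point of a punctured disc `0 < ‖w‖ < δ` is good in the coordinate
`x = e + w ^ N` and `κ` is meromorphic at `w = 0`, then `w ^ N κ` has a limit `c`, and either
`c = -1`, or `1 + c = 1 / m` for an integer `m` and `κ` is invariant under the rotations
`w ↦ om w`, `om ^ N = 1`.
-/

namespace Pool.Agent.MP_ae5b4e_an_ND

open Filter Topology

/-- Invariance of the leaves on the polydisc. -/
theorem place_FI {e : ℂ} {N P : ℕ} {κ h : ℂ → ℂ} {δ C : ℝ} {b : ℕ → ℂ → ℂ}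
    (hp : PlaceOK e N κ δ) (hs : PlaceSeries N κ δ P h b C) :
    ∃ ρ > 0, ∀ w η, ‖w‖ < ρ → ‖η‖ < ρ → FIat N P h b w η :=
  place_FI_of (fun _ _ hg => good_slope hg)
    (fun {_} hN e {_ _ _} hw {_} hr ha heq => slope_coord hN e hw hr ha heq) hp hs

/-- Reduction of the order of the pole. -/
theorem place_norm {N : ℕ} {κ : ℂ → ℂ} {δ : ℝ} (hδ : 0 < δ) (K : ℕ) :
    ∀ h : ℂ → ℂ, DifferentiableOn ℂ h (Metric.ball 0 δ) →
      (∀ w, w ≠ 0 → ‖w‖ < δ → κ w = h w / w ^ K) →
      ∃ (P : ℕ) (h' : ℂ → ℂ), N ≤ P ∧ DifferentiableOn ℂ h' (Metric.ball 0 δ) ∧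
        (∀ w, w ≠ 0 → ‖w‖ < δ → κ w = h' w / w ^ P) ∧ (P = N ∨ (N < P ∧ h' 0 ≠ 0)) := by
  induction K with
  | zero =>
    intro h hh hκ
    refine ⟨N, fun w => h w * w ^ N, le_rfl, hh.mul (by fun_prop), ?_, Or.inl rfl⟩
    intro w hw hwδ
    rw [hκ w hw hwδ, mul_div_assoc, div_self (pow_ne_zero N hw), pow_zero, div_one, mul_one]
  | succ K ih =>
    intro h hh hκ
    by_cases hKN : K + 1 ≤ N
    · refine ⟨N, fun w => h w * w ^ (N - (K + 1)), le_rfl, hh.mul (by fun_prop), ?_, Or.inl rfl⟩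
      intro w hw hwδ
      rw [hκ w hw hwδ]
      have e1 : w ^ N = w ^ (K + 1) * w ^ (N - (K + 1)) := by
        rw [← pow_add]
        congr 1
        omega
      rw [e1]
      have h1 : w ^ (K + 1) ≠ 0 := pow_ne_zero _ hw
      have h2 : w ^ (N - (K + 1)) ≠ 0 := pow_ne_zero _ hw
      field_simp
    · by_cases h0 : h 0 = 0
      · have hmem : Metric.ball (0 : ℂ) δ ∈ 𝓝 (0 : ℂ) := Metric.ball_mem_nhds 0 hδ
        refine ih (dslope h 0) ((Complex.differentiableOn_dslope hmem).2 hh) ?_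
        intro w hw hwδ
        have h1 : h w = w * dslope h 0 w := by
          have := sub_smul_dslope h 0 w
          rw [sub_zero, smul_eq_mul, h0, sub_zero] at this
          exact this.symm
        rw [hκ w hw hwδ, h1, pow_succ']
        have h2 : w ^ K ≠ 0 := pow_ne_zero _ hw
        field_simp
      · exact ⟨K + 1, h, by omega, hh, hκ, Or.inr ⟨by omega, h0⟩⟩

/-- Factorisation of a function, not identically zero near `0`, on a ball. -/
theorem ball_factor {f : ℂ → ℂ} {δ : ℝ} (hδ : 0 < δ) (hf : DifferentiableOn ℂ f (Metric.ball 0 δ))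
    (hne : ¬ ∀ᶠ w in 𝓝 (0 : ℂ), f w = 0) :
    ∃ (l : ℕ) (g : ℂ → ℂ), DifferentiableOn ℂ g (Metric.ball 0 δ) ∧ g 0 ≠ 0 ∧
      ∀ w, ‖w‖ < δ → f w = w ^ l * g w := by
  have han : AnalyticAt ℂ f 0 := hf.analyticAt (Metric.ball_mem_nhds 0 hδ)
  obtain ⟨l, g, hg, hg0, hfe⟩ := (han.exists_eventuallyEq_pow_smul_nonzero_iff).2 hne
  have hfe' : ∀ᶠ w in 𝓝 (0 : ℂ), f w = w ^ l * g w := by
    filter_upwards [hfe] with w hw
    simpa using hw
  classical
  refine ⟨l, fun w => if w = 0 then g 0 else f w / w ^ l, ?_, by simpa using hg0, ?_⟩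
  · intro w hw
    by_cases hw0 : w = 0
    · subst hw0
      have h1 : (fun w => if w = 0 then g 0 else f w / w ^ l) =ᶠ[𝓝 (0 : ℂ)] g := by
        filter_upwards [hfe'] with w hw
        split_ifs with h
        · rw [h]
        · rw [hw]
          have : w ^ l ≠ 0 := pow_ne_zero _ h
          field_simp
      exact (hg.differentiableAt.congr_of_eventuallyEq h1).differentiableWithinAt
    · have h1 : (fun w => if w = 0 then g 0 else f w / w ^ l) =ᶠ[𝓝 w] fun w => f w / w ^ l := by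
        filter_upwards [isOpen_ne.mem_nhds hw0] with z hz
        exact if_neg hz
      have h2 : DifferentiableAt ℂ (fun w => f w / w ^ l) w :=
        (hf.differentiableAt (Metric.isOpen_ball.mem_nhds hw)).div (by fun_prop)
          (pow_ne_zero _ hw0)
      exact (h2.congr_of_eventuallyEq h1).differentiableWithinAt
  · intro w _
    by_cases hw0 : w = 0
    · subst hw0
      simp only [if_true]
      exact hfe'.self_of_nhds
    · simp only [hw0, if_false]
      have : w ^ l ≠ 0 := pow_ne_zero _ hw0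
      field_simp

/-- If `h (om w) - h w` has order `l` at `0` and `om ^ N = 1`, then `N` does not divide `l`. -/
theorem order_not_dvd {h g : ℂ → ℂ} {δ : ℝ} {N l : ℕ} (hδ : 0 < δ) (hN : 0 < N) {om : ℂ}
    (hom : om ^ N = 1) (hg : DifferentiableOn ℂ g (Metric.ball 0 δ)) (hg0 : g 0 ≠ 0)
    (he : ∀ w, ‖w‖ < δ → h (om * w) - h w = w ^ l * g w) : ¬ N ∣ l := by
  rintro ⟨k, rfl⟩
  have homl : om ^ (N * k) = 1 := by rw [pow_mul, hom, one_pow]
  have hnorm : ‖om‖ = 1 := MemP.norm_om hN hom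
  have hsum : ∀ w, w ≠ 0 → ‖w‖ < δ → ∑ i ∈ Finset.range N, g (om ^ i * w) = 0 := by
    intro w hw hwδ
    have h1 : ∀ i ∈ Finset.range N, w ^ (N * k) * g (om ^ i * w)
        = h (om ^ (i + 1) * w) - h (om ^ i * w) := by
      intro i _
      have h2 : ‖om ^ i * w‖ < δ := by
        rw [norm_mul, norm_pow, hnorm, one_pow, one_mul]
        exact hwδ
      have h3 := he (om ^ i * w) h2
      rw [← mul_assoc, ← pow_succ'] at h3
      have h4 : (om ^ i) ^ (N * k) = 1 := by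
        rw [← pow_mul, mul_comm i, pow_mul om, homl, one_pow]
      rw [h3, mul_pow, h4, one_mul]
    have h2 : w ^ (N * k) * ∑ i ∈ Finset.range N, g (om ^ i * w) = 0 := by
      rw [Finset.mul_sum, Finset.sum_congr rfl h1,
        Finset.sum_range_sub (fun i => h (om ^ i * w)) N, hom]
      simp
    rcases mul_eq_zero.1 h2 with h3 | h3
    · exact absurd h3 (pow_ne_zero _ hw)
    · exact h3
  have hcont : ContinuousAt g 0 :=
    (hg.differentiableAt (Metric.ball_mem_nhds 0 hδ)).continuousAt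
  have hlim : Tendsto (fun w => ∑ i ∈ Finset.range N, g (om ^ i * w)) (𝓝[≠] (0 : ℂ))
      (𝓝 (∑ i ∈ Finset.range N, g 0)) := by
    refine tendsto_finsetSum _ (fun i _ => ?_)
    have h1 : Tendsto (fun w : ℂ => om ^ i * w) (𝓝[≠] (0 : ℂ)) (𝓝 0) := by
      have h2 : Continuous (fun w : ℂ => om ^ i * w) := by fun_prop
      have h3 := h2.tendsto 0
      rw [mul_zero] at h3
      exact h3.mono_left nhdsWithin_le_nhds
    exact hcont.tendsto.comp h1
  have hzero : ∀ᶠ w in 𝓝[≠] (0 : ℂ), ∑ i ∈ Finset.range N, g (om ^ i * w) = 0 := by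
    have h1 : ∀ᶠ w in 𝓝[≠] (0 : ℂ), w ∈ Metric.ball (0 : ℂ) δ :=
      mem_nhdsWithin_of_mem_nhds (Metric.ball_mem_nhds 0 hδ)
    filter_upwards [h1, self_mem_nhdsWithin] with w h2 h3
    exact hsum w h3 (by simpa using h2)
  have h4 : Tendsto (fun w => ∑ i ∈ Finset.range N, g (om ^ i * w)) (𝓝[≠] (0 : ℂ)) (𝓝 0) :=
    tendsto_const_nhds.congr' (hzero.mono (fun w hw => hw.symm))
  have h5 := tendsto_nhds_unique hlim h4
  rw [Finset.sum_const, Finset.card_range, nsmul_eq_mul] at h5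
  rcases mul_eq_zero.1 h5 with h6 | h6
  · exact hN.ne' (by exact_mod_cast h6)
  · exact hg0 h6

/-- **The local theorem at a place.** -/
theorem nd_place {e : ℂ} {N : ℕ} {κ : ℂ → ℂ} {δ : ℝ} (hp : PlaceOK e N κ δ)
    {K : ℕ} {h : ℂ → ℂ} (hh : DifferentiableOn ℂ h (Metric.ball 0 δ))
    (hκ : ∀ w, w ≠ 0 → ‖w‖ < δ → κ w = h w / w ^ K) :
    ∃ c : ℂ, Tendsto (fun w => w ^ N * κ w) (𝓝[≠] 0) (𝓝 c) ∧
      (c = -1 ∨ ((∃ m : ℤ, (1 + c) * m = 1) ∧
        ∀ om : ℂ, om ^ N = 1 → ∀ᶠ w in 𝓝[≠] 0, κ (om * w) = κ w)) := by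
  have hN := hp.N_pos
  have hδ := hp.δ_pos
  obtain ⟨P, h', hNP, hh', hκ', hor⟩ := place_norm (N := N) hδ K h hh hκ
  obtain ⟨b, hb0, hb1, hbd, hbe, hbom⟩ := slope_place hN hNP hδ hh' hκ'
  obtain ⟨δ', hδ', hδδ, C, hs⟩ := place_series hp hNP hh' hκ' hb0 hb1 hbd hbe
  have hp' : PlaceOK e N κ δ' := ⟨hN, hδ', fun w₁ h1 h2 => hp.good w₁ h1 (h2.trans hδδ)⟩
  obtain ⟨ρ, hρ, hFI⟩ := place_FI hp' hs
  rcases hor with rfl | ⟨hlt, hne⟩
  · -- P = N
    have hcont : ContinuousAt h' 0 :=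
      (hh'.differentiableAt (Metric.ball_mem_nhds 0 hδ)).continuousAt
    refine ⟨h' 0, ?_, ?_⟩
    · have h1 : Tendsto h' (𝓝[≠] (0 : ℂ)) (𝓝 (h' 0)) := hcont.tendsto.mono_left nhdsWithin_le_nhds
      refine h1.congr' ?_
      have h2 : ∀ᶠ w in 𝓝[≠] (0 : ℂ), w ∈ Metric.ball (0 : ℂ) δ :=
        mem_nhdsWithin_of_mem_nhds (Metric.ball_mem_nhds 0 hδ)
      filter_upwards [h2, self_mem_nhdsWithin] with w h3 h4
      have h5 : w ^ P ≠ 0 := pow_ne_zero _ h4
      rw [hκ' w h4 (by simpa using h3)]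
      field_simp
    · by_cases hc : h' 0 = -1
      · exact Or.inl hc
      · right
        obtain ⟨R, hR, H, hHd, hHlim, hHeq, hHfe⟩ := place_res hs hρ hFI hc
        have hν : 1 + h' 0 ≠ 0 := fun h0 => hc (by linear_combination h0)
        obtain ⟨m, hm⟩ := Shift.nd_shift_res hν hHlim hHfe
        refine ⟨⟨m, hm⟩, ?_⟩
        intro om hom
        by_contra hnot
        have hnorm : ‖om‖ = 1 := MemP.norm_om hN hom
        -- the difference
        have hfd : DifferentiableOn ℂ (fun w => h' (om * w) - h' w) (Metric.ball 0 δ) := by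
          refine DifferentiableOn.sub ?_ hh'
          refine hh'.comp (by fun_prop) ?_
          intro w hw
          rw [mem_ball_zero_iff] at hw ⊢
          rw [norm_mul, hnorm, one_mul]
          exact hw
        have hne : ¬ ∀ᶠ w in 𝓝 (0 : ℂ), h' (om * w) - h' w = 0 := by
          intro h0
          apply hnot
          have h1 : ∀ᶠ w in 𝓝[≠] (0 : ℂ), w ∈ Metric.ball (0 : ℂ) δ :=
            mem_nhdsWithin_of_mem_nhds (Metric.ball_mem_nhds 0 hδ)
          filter_upwards [h1, self_mem_nhdsWithin, h0.filter_mono nhdsWithin_le_nhds]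
            with w h2 h3 h4
          have h3' : w ≠ 0 := h3
          have hom0 : om ≠ 0 := by
            intro h5
            rw [h5, norm_zero] at hnorm
            exact zero_ne_one hnorm
          have h2' : ‖w‖ < δ := by simpa using h2
          have h6 : ‖om * w‖ < δ := by
            rw [norm_mul, hnorm, one_mul]
            exact h2'
          rw [hκ' (om * w) (mul_ne_zero hom0 h3') h6, hκ' w h3' h2', mul_pow, hom, one_mul,
            sub_eq_zero.1 h4]
        obtain ⟨l, g₀, hg₀d, hg₀0, hg₀e⟩ := ball_factor hδ hfd hne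
        have hndvd : ¬ P ∣ l := order_not_dvd hδ hN hom hg₀d hg₀0 hg₀e
        have hl : 0 < l := by
          rcases Nat.eq_zero_or_pos l with h0 | h0
          · exact absurd (h0 ▸ dvd_zero P) hndvd
          · exact h0
        choose g hgd hge using hbom om l hom hom ⟨g₀, hg₀d, hg₀e⟩
        have hsub : Metric.ball (0 : ℂ) δ' ⊆ Metric.ball 0 δ := Metric.ball_subset_ball hδδ.le
        obtain ⟨R', hR', G, hGd, hGlim, hGe⟩ := place_ram hs hρ hFI hc hom hl
          (hg₀d.mono hsub) hg₀0 (fun w hw => hg₀e w (hw.trans hδδ))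
          (fun n => (hgd n).mono hsub) (fun n w hw => hge n w (hw.trans hδδ))
          hR hHd hHlim hHeq
        exact Shift.nd_shift_ram hm hN hndvd hHlim hHfe hGd hGe
  · exfalso
    obtain ⟨R, hR, H, hHd, -, hHfe⟩ := place_irr hs hlt hρ hFI hne
    exact Shift.nd_shift_irr hHd hHfe

end Pool.Agent.MP_ae5b4e_an_ND
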