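import Mathlib

/-!
# MP_ae5b4e_an: first integrals near the diagonal (definitions)

In an affine coordinate `x` of the conic the tangent lines through the vertices of a billiard
polygon satisfy `1 / (x⁺ - x) - 1 / (x - x⁻) = κ x`.  With `y = x⁻ - x` the map of consecutive
pairs is `(x, y) ↦ (x - y', y')`, `y' = y / (1 - κ x * y)`.  `Good κ x₀` says that it has an
analytic first integral near the point `(x₀, 0)` of the diagonal `y = 0`.
-/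

noncomputable section

namespace Pool.Agent.MP_ae5b4e_an_ND

open Filter Topology

/-- The map of consecutive pairs `(x, x⁻ - x)`. -/
def TT (κ : ℂ → ℂ) (p : ℂ × ℂ) : ℂ × ℂ :=
  (p.1 - p.2 / (1 - κ p.1 * p.2), p.2 / (1 - κ p.1 * p.2))

/-- The inverse of `TT κ` near the diagonal. -/
def TI (κ : ℂ → ℂ) (p : ℂ × ℂ) : ℂ × ℂ :=
  (p.1 + p.2, p.2 / (1 + κ (p.1 + p.2) * p.2))

/-- `κ` is analytic at `x₀` and the map `TT κ` has an analytic first integral near `(x₀, 0)` which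
vanishes on `y = 0` and has a nonzero `y`-derivative. -/
def Good (κ : ℂ → ℂ) (x₀ : ℂ) : Prop :=
  AnalyticAt ℂ κ x₀ ∧ ∃ S : ℂ × ℂ → ℂ, AnalyticAt ℂ S (x₀, 0) ∧
    (∀ᶠ x in 𝓝 x₀, S (x, 0) = 0) ∧ deriv (fun y => S (x₀, y)) 0 ≠ 0 ∧
    ∀ᶠ p in 𝓝 ((x₀, 0) : ℂ × ℂ), S (TT κ p) = S p

lemma TT_apply (κ : ℂ → ℂ) (x y : ℂ) :
    TT κ (x, y) = (x - y / (1 - κ x * y), y / (1 - κ x * y)) := rfl

/-- `Good` depends only on the germ of `κ`. -/
lemma Good.congr {κ κ' : ℂ → ℂ} {x₀ : ℂ} (h : Good κ x₀) (hk : κ =ᶠ[𝓝 x₀] κ') : Good κ' x₀ := by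
  obtain ⟨ha, S, hS, h0, hd, hT⟩ := h
  refine ⟨ha.congr hk, S, hS, h0, hd, ?_⟩
  have h1 : ∀ᶠ p in 𝓝 ((x₀, 0) : ℂ × ℂ), κ p.1 = κ' p.1 := by
    have : Tendsto (fun p : ℂ × ℂ => p.1) (𝓝 ((x₀, 0) : ℂ × ℂ)) (𝓝 x₀) :=
      continuous_fst.tendsto' _ _ rfl
    exact this.eventually hk
  filter_upwards [hT, h1] with p hp h1
  rw [← hp]
  unfold TT
  rw [h1]

lemma good_congr {κ κ' : ℂ → ℂ} {x₀ : ℂ} (hk : κ =ᶠ[𝓝 x₀] κ') : Good κ x₀ ↔ Good κ' x₀ :=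
  ⟨fun h => h.congr hk, fun h => h.congr hk.symm⟩

/-- `Good` is an open condition. -/
lemma Good.eventually {κ : ℂ → ℂ} {x₀ : ℂ} (h : Good κ x₀) : ∀ᶠ x in 𝓝 x₀, Good κ x := by
  obtain ⟨ha, S, hS, h0, hd, hT⟩ := h
  have hcont : Tendsto (fun x : ℂ => ((x, 0) : ℂ × ℂ)) (𝓝 x₀) (𝓝 ((x₀, 0) : ℂ × ℂ)) := by
    have : Continuous (fun x : ℂ => ((x, 0) : ℂ × ℂ)) := by fun_prop
    exact this.tendsto x₀
  have hSa := hcont.eventually hS.eventually_analyticAt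
  have hTe := hcont.eventually hT.eventually_nhds
  -- the `y`-derivative is continuous
  have hder : ∀ᶠ x in 𝓝 x₀, deriv (fun y => S (x, y)) 0 ≠ 0 := by
    have hF : ContinuousAt (fun q : ℂ × ℂ => fderiv ℂ S q (0, 1)) (x₀, 0) := by
      have h1 : ContinuousAt (fderiv ℂ S) (x₀, 0) := hS.fderiv.continuousAt
      exact h1.clm_apply continuousAt_const
    have heq : ∀ x, DifferentiableAt ℂ S (x, 0) →
        deriv (fun y => S (x, y)) 0 = fderiv ℂ S (x, 0) (0, 1) := by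
      intro x hx
      have h2 : HasDerivAt (fun y : ℂ => ((x, y) : ℂ × ℂ)) (0, 1) 0 :=
        (hasDerivAt_const (0:ℂ) x).prodMk (hasDerivAt_id (0:ℂ))
      exact (hx.hasFDerivAt.comp_hasDerivAt (0:ℂ) h2).deriv
    have h3 : fderiv ℂ S (x₀, 0) (0, 1) ≠ 0 := by
      rw [← heq x₀ hS.differentiableAt]
      exact hd
    have h4 : ∀ᶠ x in 𝓝 x₀, fderiv ℂ S (x, 0) (0, 1) ≠ 0 :=
      hcont.eventually (hF.eventually_ne h3)
    filter_upwards [h4, hSa] with x hx hxa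
    rw [heq x hxa.differentiableAt]
    exact hx
  filter_upwards [ha.eventually_analyticAt, hSa, h0.eventually_nhds, hder, hTe] with x h1 h2 h3 h4 h5
  exact ⟨h1, S, h2, h3, h4, h5⟩

end Pool.Agent.MP_ae5b4e_an_ND
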