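import Mathlib
import Pool.Agent.Lib.MP_ae5b4e_an_LAT.NDDefs
import Pool.Agent.Lib.MP_ae5b4e_an_LAT.NDPl
import Pool.Agent.Lib.MP_ae5b4e_an_LAT.NDPlace

/-!
# All branches and all places of an algebraic kick are good

The propagation of the first integral along discs (`Propag`) is used as a hypothesis here.
-/

open Polynomial Filter Topology

namespace Pool.Agent.MP_ae5b4e_an_ND

/-- propagation of the first integral on discs -/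
def Propag : Prop := ∀ (κ : ℂ → ℂ) (c : ℂ) (R : ℝ), AnalyticOnNhd ℂ κ (Metric.ball c R) →
  ∀ x₁ ∈ Metric.ball c R, Good κ x₁ → ∀ x ∈ Metric.ball c R, Good κ x

/-- the branch through `(x, t)` is good -/
def GoodPt (m : ℂ[X][X]) (x t : ℂ) : Prop :=
  ∃ κ : ℂ → ℂ, Good κ x ∧ κ x = t ∧ ∀ᶠ z in 𝓝 x, evalEval z (κ z) m = 0

theorem Reg.eventually {m : ℂ[X][X]} (hirr : Irreducible (m.map (algebraMap ℂ[X] (RatFunc ℂ))))
    {x : ℂ} (hx : Reg m x) : ∀ᶠ z in 𝓝 x, Reg m z := by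
  have h1 : {x : ℂ | ¬ Reg m x}ᶜ ∈ 𝓝 x :=
    ((reg_finite hirr).isClosed.isOpen_compl).mem_nhds (by simpa using hx)
  filter_upwards [h1] with z hz
  simpa using hz

theorem goodPt_iff {m : ℂ[X][X]} {x : ℂ} (hx : Reg m x) {b : ℂ → ℂ} (hb : AnalyticAt ℂ b x)
    (hb' : ∀ᶠ z in 𝓝 x, evalEval z (b z) m = 0) : GoodPt m x (b x) ↔ Good b x := by
  constructor
  · rintro ⟨κ, hκ, h0, hκ'⟩
    refine hκ.congr ?_
    exact branch_unique hκ.1.continuousAt hb.continuousAt h0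
      (hx.2 _ hκ'.self_of_nhds) hκ' hb'
  · intro h
    exact ⟨b, h, rfl, hb'⟩

theorem goodPt_loc {m : ℂ[X][X]} (hirr : Irreducible (m.map (algebraMap ℂ[X] (RatFunc ℂ))))
    (hP : Propag) {x₀ : ℂ} (hx₀ : Reg m x₀) {b : ℂ → ℂ} (hb : AnalyticAt ℂ b x₀)
    (hb' : ∀ᶠ x in 𝓝 x₀, evalEval x (b x) m = 0) :
    ∀ᶠ x in 𝓝 x₀, (GoodPt m x (b x) ↔ GoodPt m x₀ (b x₀)) := by
  obtain ⟨ε, hε, hball⟩ := Metric.eventually_nhds_iff_ball.1
    (hb.eventually_analyticAt.and (hb'.eventually_nhds.and (hx₀.eventually hirr)))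
  have han : AnalyticOnNhd ℂ b (Metric.ball x₀ ε) := fun x hx => (hball x hx).1
  filter_upwards [Metric.ball_mem_nhds x₀ hε] with x hx
  rw [goodPt_iff (hball x hx).2.2 (hball x hx).1 (hball x hx).2.1, goodPt_iff hx₀ hb hb']
  exact ⟨fun h => hP b x₀ ε han x hx h x₀ (Metric.mem_ball_self hε),
    fun h => hP b x₀ ε han x₀ (Metric.mem_ball_self hε) h x hx⟩

/-- **All branches at all regular labels are good.** -/
theorem nd_allgood {m : ℂ[X][X]} (hirr : Irreducible (m.map (algebraMap ℂ[X] (RatFunc ℂ))))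
    (hP : Propag) {κ : ℂ → ℂ} {x₀ : ℂ} (hκ : Good κ x₀)
    (hκ' : ∀ᶠ x in 𝓝 x₀, evalEval x (κ x) m = 0)
    {κ₁ : ℂ → ℂ} {x₁ : ℂ} (hx₁ : Reg m x₁) (hκ₁ : AnalyticAt ℂ κ₁ x₁)
    (hκ₁' : ∀ᶠ x in 𝓝 x₁, evalEval x (κ₁ x) m = 0) : Good κ₁ x₁ := by
  -- a regular label near `x₀`
  have h1 : ∀ᶠ z in 𝓝[≠] x₀, Reg m z := by
    have h2 : ({x : ℂ | ¬ Reg m x} \ {x₀})ᶜ ∈ 𝓝 x₀ :=
      (((reg_finite hirr).subset Set.sdiff_subset).isClosed.isOpen_compl).mem_nhds (by simp)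
    filter_upwards [nhdsWithin_le_nhds h2, self_mem_nhdsWithin] with z hz hz'
    by_contra hcon
    exact hz ⟨hcon, hz'⟩
  have h2 : ∀ᶠ z in 𝓝[≠] x₀, Good κ z := nhdsWithin_le_nhds hκ.eventually
  have h3 : ∀ᶠ z in 𝓝[≠] x₀, ∀ᶠ x in 𝓝 z, evalEval x (κ x) m = 0 :=
    nhdsWithin_le_nhds hκ'.eventually_nhds
  obtain ⟨z, hz1, hz2, hz3⟩ := (h1.and (h2.and h3)).exists
  rw [← goodPt_iff hx₁ hκ₁ hκ₁']
  exact all_good hirr (GoodPt m) (fun y hy b hb hb' => goodPt_loc hirr hP hy hb hb')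
    hz1 hz3.self_of_nhds ⟨κ, hz2, rfl, hz3⟩ hx₁ hκ₁'.self_of_nhds

/-- **All places are good.**  The data of a formal root of `m` at `x = e + w ^ N`, as analytic
data all of whose points outside `w = 0` are good. -/
theorem nd_place_data {m : ℂ[X][X]} (hirr : Irreducible (m.map (algebraMap ℂ[X] (RatFunc ℂ))))
    (hP : Propag) {κ₀ : ℂ → ℂ} {x₀ : ℂ} (hκ : Good κ₀ x₀)
    (hκ' : ∀ᶠ x in 𝓝 x₀, evalEval x (κ₀ x) m = 0)
    (e : ℂ) {N : ℕ} (hN : 0 < N) (φ : ℂ[X] →+* LaurentSeries ℂ)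
    (hφC : ∀ c, φ (C c) = HahnSeries.C c)
    (hφX : φ X = HahnSeries.C e + HahnSeries.single (N : ℤ) 1)
    (r : LaurentSeries ℂ) (hr : (m.map φ).eval r = 0) :
    ∃ δ > 0, ∃ (K : ℕ) (κ h : ℂ → ℂ), PlaceOK e N κ δ ∧
      DifferentiableOn ℂ h (Metric.ball 0 δ) ∧ (∀ w, w ≠ 0 → ‖w‖ < δ → κ w = h w / w ^ K) ∧
      (∀ w, ‖w‖ < δ → HasSum (fun n : ℕ => r.coeff ((n : ℤ) - K) * w ^ n) (h w)) ∧
      ∀ j : ℤ, j < -K → r.coeff j = 0 := by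
  obtain ⟨δ, hδ, K, h, hh, hsum, hK, hroot⟩ := exists_place hirr e hN φ hφC hφX r hr
  refine ⟨δ, hδ, K, fun w => h w / w ^ K, h, ⟨hN, hδ, fun w₁ hw₁ hw₁δ => ?_⟩, hh,
    fun w _ _ => rfl, hsum, hK⟩
  obtain ⟨hreg, h0⟩ := hroot w₁ (norm_pos_iff.2 hw₁) hw₁δ
  obtain ⟨b, hb1, hb2, hb3⟩ := branch h0 (hreg.2 _ h0)
  have hb4 := branch_eq hb1.continuousAt hb2 hb3
  refine ⟨b, nd_allgood hirr hP hκ hκ' hreg hb1 hb4, ?_⟩
  -- `h w / w ^ K` is a continuous root near `w₁`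
  have hw₁b : w₁ ∈ Metric.ball (0 : ℂ) δ := by simpa using hw₁δ
  have hcont : ContinuousAt (fun w => h w / w ^ K) w₁ := by
    have h1 : ContinuousAt h w₁ :=
      ((hh w₁ hw₁b).differentiableAt (Metric.isOpen_ball.mem_nhds hw₁b)).continuousAt
    exact h1.div (by fun_prop) (pow_ne_zero _ hw₁)
  have htend : Tendsto (fun w : ℂ => (e + w ^ N, h w / w ^ K)) (𝓝 w₁)
      (𝓝 (e + w₁ ^ N, h w₁ / w₁ ^ K)) := by
    rw [nhds_prod_eq]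
    refine Tendsto.prodMk ?_ hcont
    have : Continuous fun w : ℂ => e + w ^ N := by fun_prop
    exact this.tendsto w₁
  have hball : ∀ᶠ w in 𝓝 w₁, w ∈ Metric.ball (0 : ℂ) δ := Metric.isOpen_ball.mem_nhds hw₁b
  have hne : ∀ᶠ w in 𝓝 w₁, w ≠ 0 := eventually_ne_nhds hw₁
  filter_upwards [htend.eventually hb3, hball, hne] with w e1 e2 e3
  have e4 := (hroot w (norm_pos_iff.2 e3) (by simpa using e2)).2
  exact (e1.1 e4).symm

end Pool.Agent.MP_ae5b4e_an_ND
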