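import Mathlib
import Pool.Agent.Lib.SCV.Hartogs

/-!
# Theorem ND, part (P), first half: the billiard map near the diagonal

`TG g A (x, y) = (x - g y', y')`, `y' = y / (1 - A x * y)`; orbits near `y = 0`.
-/

open Complex Metric Set Filter Topology

namespace Pool.Agent.MP_ae5b4e_an_ND

/-- the map -/
noncomputable def TG (g A : ℂ → ℂ) (p : ℂ × ℂ) : ℂ × ℂ :=
  (p.1 - g (p.2 / (1 - A p.1 * p.2)), p.2 / (1 - A p.1 * p.2))

/-- the inverse map -/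
noncomputable def TIg (g A : ℂ → ℂ) (p : ℂ × ℂ) : ℂ × ℂ :=
  (p.1 + g p.2, p.2 / (1 + A (p.1 + g p.2) * p.2))

theorem TG_TI (g A : ℂ → ℂ) (q : ℂ × ℂ) (h : 1 + A (q.1 + g q.2) * q.2 ≠ 0) :
    TG g A (TIg g A q) = q := by
  have h1 : (1 - A (q.1 + g q.2) * (q.2 / (1 + A (q.1 + g q.2) * q.2))) =
      1 / (1 + A (q.1 + g q.2) * q.2) := by
    field_simp
    ring
  have h2 : q.2 / (1 + A (q.1 + g q.2) * q.2) /
      (1 - A (q.1 + g q.2) * (q.2 / (1 + A (q.1 + g q.2) * q.2))) = q.2 := by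
    rw [h1, div_div_div_cancel_right₀ h, div_one]
  unfold TG TIg
  simp only [h2, add_sub_cancel_right]

theorem analyticAt_TG {g A : ℂ → ℂ} {p : ℂ × ℂ} (hA : AnalyticAt ℂ A p.1)
    (h : 1 - A p.1 * p.2 ≠ 0) (hg : AnalyticAt ℂ g (p.2 / (1 - A p.1 * p.2))) :
    AnalyticAt ℂ (TG g A) p := by
  have h1 : AnalyticAt ℂ (fun p : ℂ × ℂ => A p.1) p :=
    AnalyticAt.fun_comp (g := A) (f := fun p : ℂ × ℂ => p.1) hA analyticAt_fst
  have h2 : AnalyticAt ℂ (fun p : ℂ × ℂ => p.2 / (1 - A p.1 * p.2)) p :=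
    analyticAt_snd.div (analyticAt_const.sub (h1.mul analyticAt_snd)) h
  have h3 : AnalyticAt ℂ (fun p : ℂ × ℂ => g (p.2 / (1 - A p.1 * p.2))) p :=
    AnalyticAt.fun_comp (g := g) (f := fun p : ℂ × ℂ => p.2 / (1 - A p.1 * p.2)) hg h2
  exact (analyticAt_fst.sub h3).prod h2

theorem analyticAt_TI {g A : ℂ → ℂ} {p : ℂ × ℂ} (hg : AnalyticAt ℂ g p.2)
    (hA : AnalyticAt ℂ A (p.1 + g p.2)) (h : 1 + A (p.1 + g p.2) * p.2 ≠ 0) :
    AnalyticAt ℂ (TIg g A) p := by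
  have h1 : AnalyticAt ℂ (fun p : ℂ × ℂ => g p.2) p :=
    AnalyticAt.fun_comp (g := g) (f := fun p : ℂ × ℂ => p.2) hg analyticAt_snd
  have h2 : AnalyticAt ℂ (fun p : ℂ × ℂ => p.1 + g p.2) p := analyticAt_fst.add h1
  have h3 : AnalyticAt ℂ (fun p : ℂ × ℂ => A (p.1 + g p.2)) p :=
    AnalyticAt.fun_comp (g := A) (f := fun p : ℂ × ℂ => p.1 + g p.2) hA h2
  exact h2.prod (analyticAt_snd.div (analyticAt_const.add (h3.mul analyticAt_snd)) h)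

/-- Standing bounds for `g` near `0` and `A` on `ball 0 R1`. -/
structure Bd (g A : ℂ → ℂ) (R1 M rg : ℝ) : Prop where
  hM : 1 ≤ M
  hR : 0 < R1
  hrg : 0 < rg
  hA : AnalyticOnNhd ℂ A (ball 0 R1)
  hAM : ∀ x ∈ ball (0 : ℂ) R1, ‖A x‖ ≤ M
  hg : AnalyticOnNhd ℂ g (ball 0 rg)
  hgM : ∀ y ∈ ball (0 : ℂ) rg, ‖g y - y‖ ≤ M * ‖y‖ ^ 2

/-- the kick: `y' = y / (1 + u)` with `‖u‖` small -/
theorem kick {y u : ℂ} {a : ℝ} (hu : ‖u‖ ≤ a) (ha : a ≤ 1 / 30) :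
    1 + u ≠ 0 ∧ ‖y / (1 + u)‖ ≤ 21 / 20 * ‖y‖ ∧ ‖y / (1 + u) - y‖ ≤ 21 / 20 * ‖y‖ * ‖u‖ := by
  have h1 : 29 / 30 ≤ ‖1 + u‖ := by
    have h := norm_sub_norm_le (1 : ℂ) (-u)
    rw [norm_neg, norm_one, sub_neg_eq_add] at h
    linarith
  have hne : 1 + u ≠ 0 := by
    intro h
    rw [h, norm_zero] at h1
    linarith
  have h2 : ‖y / (1 + u)‖ ≤ 21 / 20 * ‖y‖ := by
    rw [norm_div, div_le_iff₀ (by linarith)]
    nlinarith [norm_nonneg y]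
  refine ⟨hne, h2, ?_⟩
  have h3 : y / (1 + u) - y = - (y / (1 + u)) * u := by
    field_simp
    ring
  rw [h3, norm_mul, norm_neg]
  exact mul_le_mul_of_nonneg_right h2 (norm_nonneg u)

variable {g A : ℂ → ℂ} {R1 M rg : ℝ}

/-- forward orbits near the diagonal -/
theorem fwd (hB : Bd g A R1 M rg) (p : ℂ × ℂ) (k : ℕ) (h1 : (k : ℝ) * M * ‖p.2‖ ≤ 1 / 100)
    (h2 : M * ‖p.2‖ ≤ 1 / 100) (h3 : 2 * ‖p.2‖ < rg) (h4 : ‖p.1‖ + 2 * (k : ℝ) * ‖p.2‖ < R1) :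
    ‖((TG g A)^[k] p).2 - p.2‖ ≤ 2 * (k : ℝ) * M * ‖p.2‖ ^ 2 ∧
    ‖((TG g A)^[k] p).1 - (p.1 - k * p.2)‖ ≤ 4 * (k : ℝ) ^ 2 * M * ‖p.2‖ ^ 2 ∧
    AnalyticAt ℂ ((TG g A)^[k]) p := by
  induction k with
  | zero => simp [analyticAt_id]
  | succ k ih =>
    have hM := hB.hM
    have hy := norm_nonneg p.2
    have hk : (0 : ℝ) ≤ k := Nat.cast_nonneg k
    push_cast at h1 h4
    have hMy : 0 ≤ M * ‖p.2‖ := by positivity
    have h1' : (k : ℝ) * M * ‖p.2‖ ≤ 1 / 100 := by nlinarith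
    have h4' : ‖p.1‖ + 2 * (k : ℝ) * ‖p.2‖ < R1 := by nlinarith
    obtain ⟨i1, i2, i3⟩ := ih h1' h4'
    set q := (TG g A)^[k] p with hq
    have hq2 : ‖q.2‖ ≤ 51 / 50 * ‖p.2‖ := by
      have h5 : ‖q.2‖ ≤ ‖q.2 - p.2‖ + ‖p.2‖ := by
        have := norm_add_le (q.2 - p.2) p.2
        simpa using this
      nlinarith
    have hq1 : ‖q.1‖ < R1 := by
      have h5 : ‖q.1‖ ≤ ‖q.1 - (p.1 - k * p.2)‖ + (‖p.1‖ + k * ‖p.2‖) := by
        have e1 := norm_add_le (q.1 - (p.1 - k * p.2)) (p.1 - k * p.2)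
        have e2 := norm_sub_le p.1 ((k : ℂ) * p.2)
        rw [norm_mul, Complex.norm_natCast] at e2
        simp only [sub_add_cancel] at e1
        linarith
      nlinarith [mul_nonneg hk hy]
    have hAq : ‖A q.1‖ ≤ M := hB.hAM q.1 (by simpa using hq1)
    have hu : ‖-(A q.1 * q.2)‖ ≤ M * (51 / 50 * ‖p.2‖) := by
      rw [norm_neg, norm_mul]
      exact mul_le_mul hAq hq2 (norm_nonneg _) (by linarith)
    obtain ⟨k1, k2, k3⟩ := kick (y := q.2) hu (by nlinarith)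
    have he : (1 : ℂ) + -(A q.1 * q.2) = 1 - A q.1 * q.2 := by ring
    rw [he] at k1 k2 k3
    set y' := q.2 / (1 - A q.1 * q.2) with hy'
    have hiter : (TG g A)^[k + 1] p = (q.1 - g y', y') := by
      rw [Function.iterate_succ_apply']
      rfl
    have hy'b : ‖y'‖ ≤ 11 / 10 * ‖p.2‖ := by linarith
    have hy'rg : y' ∈ ball (0 : ℂ) rg := by
      rw [mem_ball_zero_iff]
      linarith
    have hgy := hB.hgM y' hy'rg
    have hd : ‖y' - q.2‖ ≤ 6 / 5 * (M * ‖p.2‖ ^ 2) := by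
      have e1 : 21 / 20 * ‖q.2‖ * ‖-(A q.1 * q.2)‖ ≤
          21 / 20 * (51 / 50 * ‖p.2‖) * (M * (51 / 50 * ‖p.2‖)) :=
        mul_le_mul (by linarith) hu (norm_nonneg _) (by positivity)
      have hpos : 0 ≤ M * ‖p.2‖ ^ 2 := by positivity
      nlinarith
    have hpos : 0 ≤ M * ‖p.2‖ ^ 2 := by positivity
    have hd2 : ‖y' - p.2‖ ≤ 2 * ((k : ℝ) + 1) * M * ‖p.2‖ ^ 2 := by
      have e1 := norm_add_le (y' - q.2) (q.2 - p.2)
      simp only [sub_add_sub_cancel] at e1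
      nlinarith
    rw [hiter]
    push_cast
    refine ⟨hd2, ?_, ?_⟩
    · have e0 : q.1 - g y' - (p.1 - ((k : ℂ) + 1) * p.2) =
          (q.1 - (p.1 - k * p.2)) - ((g y' - y') + (y' - p.2)) := by ring
      rw [e0]
      have e1 := norm_sub_le (q.1 - (p.1 - k * p.2)) ((g y' - y') + (y' - p.2))
      have e2 := norm_add_le (g y' - y') (y' - p.2)
      have e3 : M * ‖y'‖ ^ 2 ≤ 2 * (M * ‖p.2‖ ^ 2) := by
        have : ‖y'‖ ^ 2 ≤ (11 / 10 * ‖p.2‖) ^ 2 := by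
          apply pow_le_pow_left₀ (norm_nonneg _) hy'b
        nlinarith
      nlinarith
    · have h5 : AnalyticAt ℂ (TG g A) q := by
        apply analyticAt_TG (hB.hA q.1 (by simpa using hq1)) k1
        exact hB.hg _ hy'rg
      have h6 : (TG g A)^[k + 1] = (TG g A) ∘ ((TG g A)^[k]) := Function.iterate_succ' _ _
      rw [h6]
      exact AnalyticAt.comp (g := TG g A) (f := (TG g A)^[k]) h5 i3

/-- backward orbits near the diagonal -/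
theorem bwd (hB : Bd g A R1 M rg) (p : ℂ × ℂ) (k : ℕ) (h1 : (k : ℝ) * M * ‖p.2‖ ≤ 1 / 100)
    (h2 : M * ‖p.2‖ ≤ 1 / 100) (h3 : 2 * ‖p.2‖ < rg) (h4 : ‖p.1‖ + 2 * (k : ℝ) * ‖p.2‖ < R1) :
    ‖((TIg g A)^[k] p).2 - p.2‖ ≤ 2 * (k : ℝ) * M * ‖p.2‖ ^ 2 ∧
    ‖((TIg g A)^[k] p).1 - (p.1 + k * p.2)‖ ≤ 4 * (k : ℝ) ^ 2 * M * ‖p.2‖ ^ 2 ∧
    AnalyticAt ℂ ((TIg g A)^[k]) p ∧
    ∀ j < k, TG g A ((TIg g A)^[j + 1] p) = (TIg g A)^[j] p := by
  induction k with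
  | zero => simp [analyticAt_id]
  | succ k ih =>
    have hM := hB.hM
    have hy := norm_nonneg p.2
    have hk : (0 : ℝ) ≤ k := Nat.cast_nonneg k
    push_cast at h1 h4
    have hMy : 0 ≤ M * ‖p.2‖ := by positivity
    have h1' : (k : ℝ) * M * ‖p.2‖ ≤ 1 / 100 := by nlinarith
    have h4' : ‖p.1‖ + 2 * (k : ℝ) * ‖p.2‖ < R1 := by nlinarith
    obtain ⟨i1, i2, i3, i4⟩ := ih h1' h4'
    set q := (TIg g A)^[k] p with hq
    have hpos : 0 ≤ M * ‖p.2‖ ^ 2 := by positivity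
    have hq2 : ‖q.2‖ ≤ 51 / 50 * ‖p.2‖ := by
      have h5 : ‖q.2‖ ≤ ‖q.2 - p.2‖ + ‖p.2‖ := by
        have := norm_add_le (q.2 - p.2) p.2
        simpa using this
      nlinarith
    have hq2rg : q.2 ∈ ball (0 : ℂ) rg := by
      rw [mem_ball_zero_iff]
      linarith
    have hgy := hB.hgM q.2 hq2rg
    set x' := q.1 + g q.2 with hx'
    have hx1 : ‖x' - (p.1 + ((k : ℂ) + 1) * p.2)‖ ≤ 4 * ((k : ℝ) + 1) ^ 2 * M * ‖p.2‖ ^ 2 := by
      have e0 : x' - (p.1 + ((k : ℂ) + 1) * p.2) =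
          (q.1 - (p.1 + k * p.2)) + ((g q.2 - q.2) + (q.2 - p.2)) := by
        rw [hx']
        ring
      rw [e0]
      have e1 := norm_add_le (q.1 - (p.1 + k * p.2)) ((g q.2 - q.2) + (q.2 - p.2))
      have e2 := norm_add_le (g q.2 - q.2) (q.2 - p.2)
      have e3 : M * ‖q.2‖ ^ 2 ≤ 2 * (M * ‖p.2‖ ^ 2) := by
        have : ‖q.2‖ ^ 2 ≤ (51 / 50 * ‖p.2‖) ^ 2 := by
          apply pow_le_pow_left₀ (norm_nonneg _) hq2
        nlinarith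
      nlinarith
    have hx2 : ‖x'‖ < R1 := by
      have h5 : ‖x'‖ ≤ ‖x' - (p.1 + ((k : ℂ) + 1) * p.2)‖ + (‖p.1‖ + ((k : ℝ) + 1) * ‖p.2‖) := by
        have e1 := norm_add_le (x' - (p.1 + ((k : ℂ) + 1) * p.2)) (p.1 + ((k : ℂ) + 1) * p.2)
        have e2 := norm_add_le p.1 (((k : ℂ) + 1) * p.2)
        have e3 : ‖((k : ℂ) + 1) * p.2‖ = ((k : ℝ) + 1) * ‖p.2‖ := by
          rw [norm_mul]
          congr 1
          have : ((k : ℂ) + 1) = ((k + 1 : ℕ) : ℂ) := by push_cast; ring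
          rw [this, Complex.norm_natCast]
          push_cast
          ring
        rw [e3] at e2
        simp only [sub_add_cancel] at e1
        linarith
      have h6 : 4 * ((k : ℝ) + 1) ^ 2 * M * ‖p.2‖ ^ 2 ≤ ((k : ℝ) + 1) * ‖p.2‖ := by
        have h7 : 0 ≤ ((k : ℝ) + 1) * ‖p.2‖ := by positivity
        nlinarith
      linarith
    have hAq : ‖A x'‖ ≤ M := hB.hAM x' (by simpa using hx2)
    have hu : ‖A x' * q.2‖ ≤ M * (51 / 50 * ‖p.2‖) := by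
      rw [norm_mul]
      exact mul_le_mul hAq hq2 (norm_nonneg _) (by linarith)
    obtain ⟨k1, k2, k3⟩ := kick (y := q.2) hu (by nlinarith)
    set y' := q.2 / (1 + A x' * q.2) with hy'
    have hiter : (TIg g A)^[k + 1] p = (x', y') := by
      rw [Function.iterate_succ_apply']
      rfl
    have hd : ‖y' - q.2‖ ≤ 6 / 5 * (M * ‖p.2‖ ^ 2) := by
      have e1 : 21 / 20 * ‖q.2‖ * ‖A x' * q.2‖ ≤
          21 / 20 * (51 / 50 * ‖p.2‖) * (M * (51 / 50 * ‖p.2‖)) :=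
        mul_le_mul (by linarith) hu (norm_nonneg _) (by positivity)
      nlinarith
    have hd2 : ‖y' - p.2‖ ≤ 2 * ((k : ℝ) + 1) * M * ‖p.2‖ ^ 2 := by
      have e1 := norm_add_le (y' - q.2) (q.2 - p.2)
      simp only [sub_add_sub_cancel] at e1
      nlinarith
    refine ⟨?_, ?_, ?_, ?_⟩
    · rw [hiter]
      push_cast
      exact hd2
    · rw [hiter]
      push_cast
      exact hx1
    · have h5 : AnalyticAt ℂ (TIg g A) q :=
        analyticAt_TI (hB.hg _ hq2rg) (hB.hA _ (by simpa using hx2)) k1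
      have h6 : (TIg g A)^[k + 1] = (TIg g A) ∘ ((TIg g A)^[k]) := Function.iterate_succ' _ _
      rw [h6]
      exact AnalyticAt.comp (g := TIg g A) (f := (TIg g A)^[k]) h5 i3
    · intro j hj
      rcases Nat.lt_succ_iff_lt_or_eq.1 hj with h | h
      · exact i4 j h
      · rw [h, Function.iterate_succ_apply', ← hq]
        exact TG_TI g A q k1

/-- the iterates of `TG`, of integer order -/
noncomputable def TZ (g A : ℂ → ℂ) (k : ℤ) (p : ℂ × ℂ) : ℂ × ℂ :=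
  if 0 ≤ k then (TG g A)^[k.toNat] p else (TIg g A)^[(-k).toNat] p

theorem TZ_zero (g A : ℂ → ℂ) (p : ℂ × ℂ) : TZ g A 0 p = p := by simp [TZ]

theorem TZ_bound (hB : Bd g A R1 M rg) (p : ℂ × ℂ) (k : ℤ) (h1 : |(k : ℝ)| * M * ‖p.2‖ ≤ 1 / 100)
    (h2 : M * ‖p.2‖ ≤ 1 / 100) (h3 : 2 * ‖p.2‖ < rg) (h4 : ‖p.1‖ + 2 * |(k : ℝ)| * ‖p.2‖ < R1) :
    ‖(TZ g A k p).2 - p.2‖ ≤ 2 * |(k : ℝ)| * M * ‖p.2‖ ^ 2 ∧
    ‖(TZ g A k p).1 - (p.1 - k * p.2)‖ ≤ 4 * |(k : ℝ)| ^ 2 * M * ‖p.2‖ ^ 2 ∧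
    AnalyticAt ℂ (TZ g A k) p := by
  by_cases hk : 0 ≤ k
  · have hc : ((k.toNat : ℕ) : ℝ) = |(k : ℝ)| := by
      rw [abs_of_nonneg (by exact_mod_cast hk)]
      exact_mod_cast Int.toNat_of_nonneg hk
    have hc2 : ((k.toNat : ℕ) : ℂ) = (k : ℂ) := by
      exact_mod_cast Int.toNat_of_nonneg hk
    have hf : TZ g A k = (TG g A)^[k.toNat] := by
      funext q
      simp [TZ, hk]
    obtain ⟨a1, a2, a3⟩ := fwd hB p k.toNat (by rw [hc]; exact h1) h2 h3 (by rw [hc]; exact h4)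
    rw [hc] at a1 a2
    rw [hc2] at a2
    rw [hf]
    exact ⟨a1, a2, a3⟩
  · have hk' : 0 ≤ -k := by omega
    have hkr : (k : ℝ) ≤ 0 := by
      exact_mod_cast (by omega : k ≤ 0)
    have hc : (((-k).toNat : ℕ) : ℝ) = |(k : ℝ)| := by
      rw [abs_of_nonpos hkr]
      exact_mod_cast Int.toNat_of_nonneg hk'
    have hc2 : (((-k).toNat : ℕ) : ℂ) = -(k : ℂ) := by
      exact_mod_cast Int.toNat_of_nonneg hk'
    have hf : TZ g A k = (TIg g A)^[(-k).toNat] := by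
      funext q
      simp [TZ, hk]
    obtain ⟨a1, a2, a3, -⟩ := bwd hB p (-k).toNat (by rw [hc]; exact h1) h2 h3
      (by rw [hc]; exact h4)
    rw [hc] at a1 a2
    rw [hc2] at a2
    rw [hf]
    refine ⟨a1, ?_, a3⟩
    have e : p.1 + -(k : ℂ) * p.2 = p.1 - k * p.2 := by ring
    rw [e] at a2
    exact a2

theorem TG_TZ (hB : Bd g A R1 M rg) (p : ℂ × ℂ) (k : ℤ) (h1 : |(k : ℝ)| * M * ‖p.2‖ ≤ 1 / 100)
    (h2 : M * ‖p.2‖ ≤ 1 / 100) (h3 : 2 * ‖p.2‖ < rg) (h4 : ‖p.1‖ + 2 * |(k : ℝ)| * ‖p.2‖ < R1) :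
    TG g A (TZ g A k p) = TZ g A (k + 1) p := by
  by_cases hk : 0 ≤ k
  · have hk' : 0 ≤ k + 1 := by omega
    have e : (k + 1).toNat = k.toNat + 1 := by omega
    simp only [TZ, hk, hk', if_true, e, Function.iterate_succ_apply']
  · have hk' : 0 ≤ -k := by omega
    have hkr : (k : ℝ) ≤ 0 := by
      exact_mod_cast (by omega : k ≤ 0)
    have hc : (((-k).toNat : ℕ) : ℝ) = |(k : ℝ)| := by
      rw [abs_of_nonpos hkr]
      exact_mod_cast Int.toNat_of_nonneg hk'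
    obtain ⟨-, -, -, a4⟩ := bwd hB p (-k).toNat (by rw [hc]; exact h1) h2 h3
      (by rw [hc]; exact h4)
    have e : (-k).toNat = (-(k + 1)).toNat + 1 := by omega
    have h5 := a4 (-(k + 1)).toNat (by omega)
    rw [← e] at h5
    have h6 : TZ g A k p = (TIg g A)^[(-k).toNat] p := by simp [TZ, hk]
    rw [h6, h5]
    by_cases hk1 : 0 ≤ k + 1
    · have hk2 : k + 1 = 0 := by omega
      simp [TZ, hk2]
    · simp only [TZ, hk1, if_false]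

end Pool.Agent.MP_ae5b4e_an_ND
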