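import Mathlib
import Pool.Agent.Lib.MP_ae5b4e_an_LAT.NDPa

/-!
# Theorem ND, part (P), second half: one step of the continuation

If `S o TG = S` near `{(x, 0) : |x| < s}` then `S` extends to a neighbourhood of
`{(x, 0) : |x| < s (1 + B / 4)}`, with `B` depending only on the bounds for `A` and `g`.
-/

open Complex Metric Set Filter Topology

namespace Pool.Agent.MP_ae5b4e_an_ND

/-- identity theorem along a preconnected set: equality of germs propagates -/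
theorem ev_eq_of_preconnected {f h : ℂ × ℂ → ℂ} {V : Set (ℂ × ℂ)} (hV : IsPreconnected V)
    (hf : ∀ p ∈ V, AnalyticAt ℂ f p) (hh : ∀ p ∈ V, AnalyticAt ℂ h p) {p0 : ℂ × ℂ} (hp0 : p0 ∈ V)
    (he : f =ᶠ[𝓝 p0] h) : ∀ p ∈ V, f =ᶠ[𝓝 p] h := by
  have hsub : V ⊆ {p | f =ᶠ[𝓝 p] h} := by
    apply hV.subset_of_closure_inter_subset
    · rw [isOpen_iff_mem_nhds]
      intro p hp
      exact eventually_eventually_nhds.2 hp
    · exact ⟨p0, hp0, he⟩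
    · rintro p ⟨hpc, hpV⟩
      obtain ⟨ε, hε, hb⟩ := Metric.eventually_nhds_iff_ball.1
        ((hf p hpV).eventually_analyticAt.and (hh p hpV).eventually_analyticAt)
      obtain ⟨q, hq, hqd⟩ := Metric.mem_closure_iff.1 hpc ε hε
      have hqb : q ∈ ball p ε := by rw [mem_ball, dist_comm]; exact hqd
      have hE : EqOn f h (ball p ε) :=
        AnalyticOnNhd.eqOn_of_preconnected_of_eventuallyEq (fun z hz => (hb z hz).1)
          (fun z hz => (hb z hz).2) (convex_ball p ε).isPreconnected hqb hq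
      exact hE.eventuallyEq_of_mem (ball_mem_nhds p hε)
  exact hsub

/-- `S` is analytic near `(x, 0)` and invariant under `TG` there, for all `x` of `ball 0 s` -/
def EE (g A : ℂ → ℂ) (S : ℂ × ℂ → ℂ) (s : ℝ) : Prop :=
  ∀ x ∈ ball (0 : ℂ) s, AnalyticAt ℂ S (x, 0) ∧ ∀ᶠ p in 𝓝 (x, (0 : ℂ)), S (TG g A p) = S p

theorem isPreconnected_axis (s : ℝ) :
    IsPreconnected ((fun x : ℂ => (x, (0 : ℂ))) '' ball (0 : ℂ) s) :=
  (convex_ball (0 : ℂ) s).isPreconnected.image _ (by fun_prop)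

theorem near_K {g A : ℂ → ℂ} {S : ℂ × ℂ → ℂ} {s s' : ℝ} (hs : s' < s) (hE : EE g A S s) :
    ∃ r0 > 0, ∀ x y : ℂ, ‖x‖ ≤ s' → ‖y‖ < r0 →
      AnalyticAt ℂ S (x, y) ∧ S (TG g A (x, y)) = S (x, y) := by
  set V : Set (ℂ × ℂ) := {p | AnalyticAt ℂ S p} ∩ {p | ∀ᶠ q in 𝓝 p, S (TG g A q) = S q} with hV
  have hVo : IsOpen V := by
    apply IsOpen.inter (isOpen_analyticAt ℂ S)
    rw [isOpen_iff_mem_nhds]
    intro p hp
    exact eventually_eventually_nhds.2 hp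
  have hsub : closedBall (0 : ℂ) s' ×ˢ ({0} : Set ℂ) ⊆ V := by
    rintro ⟨x, y⟩ ⟨hx, hy⟩
    have hy' : y = 0 := hy
    rw [hy']
    have hx' : x ∈ ball (0 : ℂ) s := by
      rw [mem_closedBall_zero_iff] at hx
      rw [mem_ball_zero_iff]
      exact lt_of_le_of_lt hx hs
    exact hE x hx'
  obtain ⟨u, v, hu, hv, hsu, hsv, huv⟩ :=
    generalized_tube_lemma (isCompact_closedBall (0 : ℂ) s') isCompact_singleton hVo hsub
  obtain ⟨r0, hr0, hr0v⟩ := Metric.isOpen_iff.1 hv 0 (hsv rfl)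
  refine ⟨r0, hr0, fun x y hx hy => ?_⟩
  have h1 : (x, y) ∈ V := huv ⟨hsu (by rwa [mem_closedBall_zero_iff]),
    hr0v (by rwa [mem_ball_zero_iff])⟩
  exact ⟨h1.1, h1.2.self_of_nhds⟩

/-- the key inequality -/
theorem key_ineq {B : ℝ} (hB0 : 0 < B) (hB1 : B ≤ 1 / 1000) (z : ℂ) (hz : ‖z‖ ≤ 2) :
    ‖1 + (B : ℂ) * z ^ 2‖ * ‖1 - 8 * (B : ℂ) * (z.re : ℂ) * z‖ ≤ 1 - 9 / 10 * B * ‖z‖ ^ 2 := by
  set σ := z.re with hσ
  set τ := z.im with hτ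
  have hn : ‖z‖ ^ 2 = σ ^ 2 + τ ^ 2 := by
    rw [Complex.sq_norm, Complex.normSq_apply]
    ring
  have hn4 : σ ^ 2 + τ ^ 2 ≤ 4 := by
    rw [← hn]
    nlinarith [norm_nonneg z]
  have ha : ‖1 + (B : ℂ) * z ^ 2‖ ^ 2 =
      1 + 2 * B * (σ ^ 2 - τ ^ 2) + B ^ 2 * (σ ^ 2 + τ ^ 2) ^ 2 := by
    rw [Complex.sq_norm, Complex.normSq_apply]
    simp only [pow_two, Complex.add_re, Complex.add_im, Complex.mul_re, Complex.mul_im,
      Complex.one_re, Complex.one_im, Complex.ofReal_re, Complex.ofReal_im, ← hσ, ← hτ]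
    ring
  have hb : ‖1 - 8 * (B : ℂ) * (σ : ℂ) * z‖ ^ 2 =
      1 - 16 * B * σ ^ 2 + 64 * B ^ 2 * σ ^ 2 * (σ ^ 2 + τ ^ 2) := by
    have h8 : (1 : ℂ) - 8 * (B : ℂ) * (σ : ℂ) * z = 1 - ((8 * B * σ : ℝ) : ℂ) * z := by
      push_cast
      ring
    rw [h8, Complex.sq_norm, Complex.normSq_apply]
    simp only [Complex.sub_re, Complex.sub_im, Complex.mul_re, Complex.mul_im,
      Complex.one_re, Complex.one_im, Complex.ofReal_re, Complex.ofReal_im, ← hσ, ← hτ]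
    ring
  have hσ0 : 0 ≤ σ ^ 2 := sq_nonneg _
  have hτ0 : 0 ≤ τ ^ 2 := sq_nonneg _
  set a := σ ^ 2 with hadef
  set b := τ ^ 2 with hbdef
  have ha2 : ‖1 + (B : ℂ) * z ^ 2‖ ^ 2 ≤ 1 + 2 * B * (a - b) + 4 * B ^ 2 * (a + b) := by
    rw [ha]
    have : B ^ 2 * (a + b) ^ 2 ≤ 4 * B ^ 2 * (a + b) := by
      have h1 : (a + b) ^ 2 ≤ 4 * (a + b) := by
        rw [pow_two]
        exact mul_le_mul_of_nonneg_right hn4 (by positivity)
      have h2 := mul_le_mul_of_nonneg_left h1 (sq_nonneg B)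
      linarith
    linarith
  have hb2 : ‖1 - 8 * (B : ℂ) * (σ : ℂ) * z‖ ^ 2 ≤ 1 - 157 / 10 * B * a := by
    rw [hb]
    have h1 : 64 * B ^ 2 * a * (a + b) ≤ 256 * B ^ 2 * a := by
      have : 0 ≤ B ^ 2 * a := by positivity
      have h2 := mul_le_mul_of_nonneg_left hn4 this
      linarith
    have h2 : 256 * B ^ 2 * a ≤ 3 / 10 * (B * a) := by
      have : 0 ≤ B * a := by positivity
      have h2 := mul_le_mul_of_nonneg_right hB1 this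
      have h3 : B * (B * a) = B ^ 2 * a := by ring
      rw [h3] at h2
      linarith
    linarith
  have hBab : B * (a + b) ≤ 1 / 1000 * 4 :=
    mul_le_mul hB1 hn4 (by positivity) (by norm_num)
  have hRHS : 0 ≤ 1 - 9 / 10 * B * (a + b) := by linarith
  have hBa : 0 ≤ B * a := by positivity
  have hBb : 0 ≤ B * b := by positivity
  have hprod : (‖1 + (B : ℂ) * z ^ 2‖ * ‖1 - 8 * (B : ℂ) * (σ : ℂ) * z‖) ^ 2 ≤
      (1 - 9 / 10 * B * (a + b)) ^ 2 := by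
    rw [mul_pow]
    have hBab' : B * (a + b) = B * a + B * b := by ring
    have h157 : 0 ≤ 1 - 157 / 10 * B * a := by linarith
    have hpos : 0 ≤ 1 + 2 * B * (a - b) + 4 * B ^ 2 * (a + b) := le_trans (sq_nonneg _) ha2
    have h1 : ‖1 + (B : ℂ) * z ^ 2‖ ^ 2 * ‖1 - 8 * (B : ℂ) * (σ : ℂ) * z‖ ^ 2 ≤
        (1 + 2 * B * (a - b) + 4 * B ^ 2 * (a + b)) * (1 - 157 / 10 * B * a) :=
      mul_le_mul ha2 hb2 (sq_nonneg _) hpos
    refine h1.trans ?_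
    have hBb4 : B * b ≤ 1 / 250 := by linarith
    have hB2ab : 4 * B ^ 2 * (a + b) ≤ 1 / 250 * (B * a + B * b) := by
      have h3 : 4 * B * (B * a + B * b) ≤ 1 / 250 * (B * a + B * b) :=
        mul_le_mul_of_nonneg_right (by linarith) (by linarith)
      calc 4 * B ^ 2 * (a + b) = 4 * B * (B * a + B * b) := by ring
        _ ≤ _ := h3
    have hB2ab0 : 0 ≤ 4 * B ^ 2 * (a + b) := by positivity
    have e1 : (1 + 2 * B * (a - b) + 4 * B ^ 2 * (a + b)) * (1 - 157 / 10 * B * a) =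
        1 - 137 / 10 * (B * a) - 2 * (B * b) + 4 * B ^ 2 * (a + b) - 157 / 5 * (B * a) ^ 2 +
          157 / 5 * ((B * a) * (B * b)) - 157 / 10 * ((B * a) * (4 * B ^ 2 * (a + b))) := by ring
    have e2 : (B * a) * (B * b) ≤ (B * a) * (1 / 250) := mul_le_mul_of_nonneg_left hBb4 hBa
    have e3 : 0 ≤ (B * a) ^ 2 := sq_nonneg _
    have e4 : 0 ≤ (B * a) * (4 * B ^ 2 * (a + b)) := mul_nonneg hBa hB2ab0
    have e5 : (1 - 9 / 10 * B * (a + b)) ^ 2 =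
        1 - 9 / 5 * (B * a) - 9 / 5 * (B * b) + (9 / 10 * B * (a + b)) ^ 2 := by ring
    have e6 : 0 ≤ (9 / 10 * B * (a + b)) ^ 2 := sq_nonneg _
    rw [e1, e5]
    linarith
  rw [hn]
  have h0 : 0 ≤ ‖1 + (B : ℂ) * z ^ 2‖ * ‖1 - 8 * (B : ℂ) * (σ : ℂ) * z‖ := by positivity
  exact (pow_le_pow_iff_left₀ h0 hRHS two_ne_zero).1 hprod

/-- the new coordinates -/
noncomputable def XX (B r : ℝ) (q : ℂ × ℂ) : ℂ := q.1 * (1 + (B : ℂ) * (q.2 / r) ^ 2)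

/-- Positions after `k` steps, `k` close to `8 B Re eta / r ^ 2`. -/
theorem position {g A : ℂ → ℂ} {R1 M rg : ℝ} (hB : Bd g A R1 M rg) {B r s r0 : ℝ}
    (hB0 : 0 < B) (hB1 : B ≤ 1 / 1000) (hB2 : B * M * R1 ≤ 1 / 100000) (hs : 0 < s)
    (hsR : s * (1 + 100 * B) ≤ R1) (hr : 0 < r) (hrB : r ≤ B / 1000) (hr1 : 4 * R1 * r < rg)
    (hr2 : 4 * R1 * r < r0) (q : ℂ × ℂ) (h1 : ‖q.1‖ < s * (1 + B)) (h2 : ‖q.2‖ < 2 * r) (k : ℤ)
    (hk : |8 * B * q.2.re / r ^ 2 - k| ≤ 1) :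
    (|(k : ℝ)| * M * ‖XX B r q * q.2‖ ≤ 1 / 100 ∧ M * ‖XX B r q * q.2‖ ≤ 1 / 100 ∧
      2 * ‖XX B r q * q.2‖ < rg ∧ ‖XX B r q‖ + 2 * |(k : ℝ)| * ‖XX B r q * q.2‖ < R1) ∧
    ‖(TZ g A k (XX B r q, XX B r q * q.2)).1‖ ≤
      ‖q.1‖ * (1 - 4 / 5 * B * (‖q.2‖ / r) ^ 2 + B / 100) ∧
    ‖(TZ g A k (XX B r q, XX B r q * q.2)).2‖ < r0 := by
  obtain ⟨ξ, η⟩ := q
  simp only at h1 h2 hk ⊢
  have hM := hB.hM
  have hR := hB.hR
  set ζ : ℂ := η / r with hζ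
  have hrC : (r : ℂ) ≠ 0 := by exact_mod_cast hr.ne'
  have hηζ : η = r * ζ := by
    rw [hζ]
    field_simp
  have hζn : ‖ζ‖ = ‖η‖ / r := by
    rw [hζ, norm_div, Complex.norm_real, Real.norm_eq_abs, abs_of_pos hr]
  have hηn : ‖η‖ = r * ‖ζ‖ := by
    rw [hζn]
    field_simp
  have hζ2 : ‖ζ‖ ≤ 2 := by
    rw [hζn, div_le_iff₀ hr]
    linarith
  have hζ0 := norm_nonneg ζ
  have hre : η.re = r * ζ.re := by
    rw [hηζ, Complex.re_ofReal_mul]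
  have hk' : |8 * B * ζ.re / r - k| ≤ 1 := by
    have : 8 * B * η.re / r ^ 2 = 8 * B * ζ.re / r := by
      rw [hre]
      field_simp
    rwa [this] at hk
  have hreζ : |ζ.re| ≤ ‖ζ‖ := Complex.abs_re_le_norm ζ
  -- bound of `|k| ‖η‖`
  have hkη : |(k : ℝ)| * ‖η‖ ≤ 8 * B * ‖ζ‖ ^ 2 + 2 * r := by
    have e1 : |(k : ℝ)| ≤ 8 * B * |ζ.re| / r + 1 := by
      have e2 := abs_sub_abs_le_abs_sub (k : ℝ) (8 * B * ζ.re / r)
      rw [abs_sub_comm] at e2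
      have e3 : |8 * B * ζ.re / r| = 8 * B * |ζ.re| / r := by
        rw [abs_div, abs_mul, abs_of_pos hr, abs_of_pos (by positivity : (0 : ℝ) < 8 * B)]
      rw [e3] at e2
      linarith
    calc |(k : ℝ)| * ‖η‖ ≤ (8 * B * |ζ.re| / r + 1) * ‖η‖ :=
          mul_le_mul_of_nonneg_right e1 (norm_nonneg _)
      _ = 8 * B * |ζ.re| * ‖ζ‖ + ‖η‖ := by
          rw [hηn]
          field_simp
      _ ≤ 8 * B * ‖ζ‖ ^ 2 + 2 * r := by
          have : 8 * B * |ζ.re| * ‖ζ‖ ≤ 8 * B * ‖ζ‖ * ‖ζ‖ := by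
            apply mul_le_mul_of_nonneg_right _ hζ0
            apply mul_le_mul_of_nonneg_left hreζ (by positivity)
          have h5 : 8 * B * ‖ζ‖ * ‖ζ‖ = 8 * B * ‖ζ‖ ^ 2 := by ring
          linarith
  have hζsq : ‖ζ‖ ^ 2 ≤ 4 := by
    have h5 := pow_le_pow_left₀ hζ0 hζ2 2
    linarith
  have hkη2 : |(k : ℝ)| * ‖η‖ ≤ 33 * B := by
    have h5 : 8 * B * ‖ζ‖ ^ 2 ≤ 8 * B * 4 := mul_le_mul_of_nonneg_left hζsq (by positivity)
    linarith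
  have hkη0 : 0 ≤ |(k : ℝ)| * ‖η‖ := by positivity
  set X := XX B r (ξ, η) with hX
  have hXe : X = ξ * (1 + (B : ℂ) * ζ ^ 2) := rfl
  have h1B : ‖(1 : ℂ) + (B : ℂ) * ζ ^ 2‖ ≤ 1 + 4 * B := by
    have e := norm_add_le (1 : ℂ) ((B : ℂ) * ζ ^ 2)
    rw [norm_mul, norm_pow, Complex.norm_real, Real.norm_eq_abs, abs_of_pos hB0, norm_one] at e
    have h5 : B * ‖ζ‖ ^ 2 ≤ B * 4 := mul_le_mul_of_nonneg_left hζsq hB0.le
    linarith
  have hXn : ‖X‖ = ‖ξ‖ * ‖(1 : ℂ) + (B : ℂ) * ζ ^ 2‖ := by rw [hXe, norm_mul]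
  have hXn2 : ‖X‖ ≤ ‖ξ‖ * (1 + 4 * B) := by
    rw [hXn]
    exact mul_le_mul_of_nonneg_left h1B (norm_nonneg _)
  have hXs : ‖X‖ ≤ s * (1 + 6 * B) := by
    have e0 : ‖ξ‖ * (1 + 4 * B) ≤ s * (1 + B) * (1 + 4 * B) :=
      mul_le_mul_of_nonneg_right h1.le (by positivity)
    have hBB : B * B ≤ 1 / 1000 * B := mul_le_mul_of_nonneg_right hB1 hB0.le
    have e1 : (1 + B) * (1 + 4 * B) ≤ 1 + 6 * B := by linarith
    have e2 : s * ((1 + B) * (1 + 4 * B)) ≤ s * (1 + 6 * B) := mul_le_mul_of_nonneg_left e1 hs.le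
    rw [← mul_assoc] at e2
    linarith
  have hXR : ‖X‖ ≤ R1 := by
    have e : s * (1 + 6 * B) ≤ s * (1 + 100 * B) :=
      mul_le_mul_of_nonneg_left (by linarith) hs.le
    linarith
  have hX0 := norm_nonneg X
  have hYn : ‖X * η‖ = ‖X‖ * ‖η‖ := norm_mul _ _
  have hkY : |(k : ℝ)| * ‖X * η‖ = ‖X‖ * (|(k : ℝ)| * ‖η‖) := by rw [hYn]; ring
  have hc1 : |(k : ℝ)| * M * ‖X * η‖ ≤ 1 / 100 := by
    have e : |(k : ℝ)| * M * ‖X * η‖ = M * ‖X‖ * (|(k : ℝ)| * ‖η‖) := by rw [hYn]; ring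
    rw [e]
    calc M * ‖X‖ * (|(k : ℝ)| * ‖η‖) ≤ M * R1 * (33 * B) := by
          apply mul_le_mul _ hkη2 hkη0 (by positivity)
          exact mul_le_mul_of_nonneg_left hXR (by linarith)
      _ = 33 * (B * M * R1) := by ring
      _ ≤ 1 / 100 := by linarith
  have hMR : 0 < M * R1 := by positivity
  have hMRr : M * R1 * r ≤ 1 / 100000000 := by
    have e : M * R1 * r ≤ M * R1 * (B / 1000) := mul_le_mul_of_nonneg_left hrB hMR.le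
    have e2 : M * R1 * (B / 1000) = (B * M * R1) / 1000 := by ring
    linarith
  have hc2 : M * ‖X * η‖ ≤ 1 / 100 := by
    rw [hYn]
    have e : M * (‖X‖ * ‖η‖) ≤ M * (R1 * (2 * r)) := by
      apply mul_le_mul_of_nonneg_left _ (by linarith)
      exact mul_le_mul hXR h2.le (norm_nonneg _) hR.le
    have e2 : M * (R1 * (2 * r)) = 2 * (M * R1 * r) := by ring
    linarith
  have hYb : ‖X * η‖ ≤ R1 * (2 * r) := by
    rw [hYn]
    exact mul_le_mul hXR h2.le (norm_nonneg _) hR.le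
  have hc3 : 2 * ‖X * η‖ < rg := by linarith
  have hc4 : ‖X‖ + 2 * |(k : ℝ)| * ‖X * η‖ < R1 := by
    have e : 2 * |(k : ℝ)| * ‖X * η‖ = 2 * (‖X‖ * (|(k : ℝ)| * ‖η‖)) := by
      rw [← hkY]
      ring
    rw [e]
    have e2 : ‖X‖ * (|(k : ℝ)| * ‖η‖) ≤ ‖X‖ * (33 * B) := mul_le_mul_of_nonneg_left hkη2 hX0
    have e3 : ‖X‖ * (1 + 66 * B) ≤ s * (1 + 6 * B) * (1 + 66 * B) :=
      mul_le_mul_of_nonneg_right hXs (by positivity)
    have hBB : B * B ≤ 1 / 1000 * B := mul_le_mul_of_nonneg_right hB1 hB0.le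
    have e5 : (1 + 6 * B) * (1 + 66 * B) < 1 + 100 * B := by linarith
    have e4 : s * ((1 + 6 * B) * (1 + 66 * B)) < s * (1 + 100 * B) :=
      mul_lt_mul_of_pos_left e5 hs
    rw [← mul_assoc] at e4
    linarith
  obtain ⟨t1, t2, -⟩ := TZ_bound hB (X, X * η) k hc1 hc2 hc3 hc4
  simp only at t1 t2
  refine ⟨⟨hc1, hc2, hc3, hc4⟩, ?_, ?_⟩
  · -- position
    have e1 : ‖(TZ g A k (X, X * η)).1‖ ≤ ‖X - k * (X * η)‖ + 4 * |(k : ℝ)| ^ 2 * M * ‖X * η‖ ^ 2 := by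
      have := norm_add_le ((TZ g A k (X, X * η)).1 - (X - k * (X * η))) (X - k * (X * η))
      simp only [sub_add_cancel] at this
      linarith
    have e2 : X - k * (X * η) = X * (1 - k * η) := by ring
    have e3 : ‖(1 : ℂ) - k * η‖ ≤ ‖1 - 8 * (B : ℂ) * (ζ.re : ℂ) * ζ‖ + 2 * r := by
      have d1 : (1 : ℂ) - k * η = (1 - 8 * (B : ℂ) * (ζ.re : ℂ) * ζ) +
          ((8 * B * ζ.re / r - k : ℝ) : ℂ) * η := by
        push_cast
        rw [hηζ]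
        field_simp
        ring
      rw [d1]
      have d2 := norm_add_le (1 - 8 * (B : ℂ) * (ζ.re : ℂ) * ζ)
        (((8 * B * ζ.re / r - k : ℝ) : ℂ) * η)
      have d3 : ‖((8 * B * ζ.re / r - k : ℝ) : ℂ) * η‖ ≤ 1 * ‖η‖ := by
        rw [norm_mul, Complex.norm_real, Real.norm_eq_abs]
        exact mul_le_mul_of_nonneg_right hk' (norm_nonneg _)
      linarith
    have e4 : ‖X - k * (X * η)‖ ≤ ‖ξ‖ * (1 - 9 / 10 * B * ‖ζ‖ ^ 2 + 3 * r) := by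
      rw [e2, norm_mul, hXn, mul_assoc]
      apply mul_le_mul_of_nonneg_left _ (norm_nonneg _)
      have d1 := key_ineq hB0 hB1 ζ hζ2
      have d2 : ‖(1 : ℂ) + (B : ℂ) * ζ ^ 2‖ * ‖(1 : ℂ) - k * η‖ ≤
          ‖(1 : ℂ) + (B : ℂ) * ζ ^ 2‖ * (‖1 - 8 * (B : ℂ) * (ζ.re : ℂ) * ζ‖ + 2 * r) :=
        mul_le_mul_of_nonneg_left e3 (norm_nonneg _)
      have d3 : ‖(1 : ℂ) + (B : ℂ) * ζ ^ 2‖ * (2 * r) ≤ (1 + 4 * B) * (2 * r) :=
        mul_le_mul_of_nonneg_right h1B (by positivity)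
      have hBr : B * r ≤ 1 / 1000 * r := mul_le_mul_of_nonneg_right hB1 hr.le
      linarith
    have e5 : 4 * |(k : ℝ)| ^ 2 * M * ‖X * η‖ ^ 2 ≤ ‖ξ‖ * (1 / 20 * B * ‖ζ‖ ^ 2 + r) := by
      have d1 : 4 * |(k : ℝ)| ^ 2 * M * ‖X * η‖ ^ 2 =
          4 * M * (‖X‖ * ‖X‖) * (|(k : ℝ)| * ‖η‖) ^ 2 := by
        rw [hYn]
        ring
      have d2 : ‖X‖ * ‖X‖ ≤ (‖ξ‖ * (1 + 4 * B)) * R1 :=
        mul_le_mul hXn2 hXR hX0 (by positivity)
      have d3 : (|(k : ℝ)| * ‖η‖) ^ 2 ≤ 512 * B ^ 2 * ‖ζ‖ ^ 2 + 8 * r ^ 2 := by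
        have c1 : (|(k : ℝ)| * ‖η‖) ^ 2 ≤ (8 * B * ‖ζ‖ ^ 2 + 2 * r) ^ 2 :=
          pow_le_pow_left₀ hkη0 hkη 2
        have c2 : (8 * B * ‖ζ‖ ^ 2 + 2 * r) ^ 2 ≤ 2 * (8 * B * ‖ζ‖ ^ 2) ^ 2 + 2 * (2 * r) ^ 2 := by
          linarith [sq_nonneg (8 * B * ‖ζ‖ ^ 2 - 2 * r)]
        have c3 : (8 * B * ‖ζ‖ ^ 2) ^ 2 ≤ 256 * B ^ 2 * ‖ζ‖ ^ 2 := by
          have : (‖ζ‖ ^ 2) ^ 2 ≤ 4 * ‖ζ‖ ^ 2 := by
            rw [pow_two (‖ζ‖ ^ 2)]
            exact mul_le_mul_of_nonneg_right hζsq (sq_nonneg _)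
          have hBB : 0 ≤ B ^ 2 := sq_nonneg B
          calc (8 * B * ‖ζ‖ ^ 2) ^ 2 = 64 * B ^ 2 * (‖ζ‖ ^ 2) ^ 2 := by ring
            _ ≤ 64 * B ^ 2 * (4 * ‖ζ‖ ^ 2) := mul_le_mul_of_nonneg_left this (by positivity)
            _ = _ := by ring
        have c4 : 2 * (2 * r) ^ 2 = 8 * r ^ 2 := by ring
        linarith
      rw [d1]
      calc 4 * M * (‖X‖ * ‖X‖) * (|(k : ℝ)| * ‖η‖) ^ 2
          ≤ 4 * M * ((‖ξ‖ * (1 + 4 * B)) * R1) * (512 * B ^ 2 * ‖ζ‖ ^ 2 + 8 * r ^ 2) := by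
            apply mul_le_mul _ d3 (sq_nonneg _) (by positivity)
            exact mul_le_mul_of_nonneg_left d2 (by positivity)
        _ = ‖ξ‖ * ((1 + 4 * B) * (2048 * (B * M * R1) * (B * ‖ζ‖ ^ 2) +
            32 * (M * R1 * r) * r)) := by ring
        _ ≤ ‖ξ‖ * (1 / 20 * B * ‖ζ‖ ^ 2 + r) := by
            apply mul_le_mul_of_nonneg_left _ (norm_nonneg _)
            have c0 : 0 ≤ B * ‖ζ‖ ^ 2 := by positivity
            have c1 : 2048 * (B * M * R1) * (B * ‖ζ‖ ^ 2) ≤ 1 / 40 * (B * ‖ζ‖ ^ 2) := by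
              apply mul_le_mul_of_nonneg_right _ c0
              linarith
            have c2 : 32 * (M * R1 * r) * r ≤ 1 / 2 * r := by
              apply mul_le_mul_of_nonneg_right _ hr.le
              linarith
            have c3 : 0 ≤ 2048 * (B * M * R1) * (B * ‖ζ‖ ^ 2) + 32 * (M * R1 * r) * r := by
              positivity
            have c4 : (1 + 4 * B) * (2048 * (B * M * R1) * (B * ‖ζ‖ ^ 2) +
                32 * (M * R1 * r) * r) ≤ 2 * (2048 * (B * M * R1) * (B * ‖ζ‖ ^ 2) +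
                32 * (M * R1 * r) * r) := by
              apply mul_le_mul_of_nonneg_right _ c3
              linarith
            linarith
    rw [← hζn]
    calc ‖(TZ g A k (X, X * η)).1‖ ≤ _ := e1
      _ ≤ ‖ξ‖ * (1 - 9 / 10 * B * ‖ζ‖ ^ 2 + 3 * r) + ‖ξ‖ * (1 / 20 * B * ‖ζ‖ ^ 2 + r) :=
          add_le_add e4 e5
      _ = ‖ξ‖ * (1 - 17 / 20 * B * ‖ζ‖ ^ 2 + 4 * r) := by ring
      _ ≤ ‖ξ‖ * (1 - 4 / 5 * B * ‖ζ‖ ^ 2 + B / 100) := by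
          apply mul_le_mul_of_nonneg_left _ (norm_nonneg _)
          have : 0 ≤ B * ‖ζ‖ ^ 2 := by positivity
          linarith
  · have e1 : ‖(TZ g A k (X, X * η)).2‖ ≤ ‖X * η‖ + 2 * |(k : ℝ)| * M * ‖X * η‖ ^ 2 := by
      have := norm_add_le ((TZ g A k (X, X * η)).2 - X * η) (X * η)
      simp only [sub_add_cancel] at this
      linarith
    have e2 : 2 * |(k : ℝ)| * M * ‖X * η‖ ^ 2 ≤ 1 / 50 * ‖X * η‖ := by
      have : 2 * |(k : ℝ)| * M * ‖X * η‖ ^ 2 = 2 * (|(k : ℝ)| * M * ‖X * η‖) * ‖X * η‖ := by ring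
      rw [this]
      apply mul_le_mul_of_nonneg_right _ (norm_nonneg _)
      linarith
    linarith [norm_nonneg (X * η)]

end Pool.Agent.MP_ae5b4e_an_ND
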