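import Mathlib
import Pool.Agent.Lib.MP_ae5b4e_an_LAT.NDPb

/-!
# Theorem ND, part (P), third part: one step of the continuation, and `P_disc`
-/

open Complex Metric Set Filter Topology

namespace Pool.Agent.MP_ae5b4e_an_ND

variable {g A : ℂ → ℂ} {R1 M rg : ℝ}

/-- the function in the new coordinates -/
noncomputable def fext (g A : ℂ → ℂ) (S : ℂ × ℂ → ℂ) (B r : ℝ) (q : ℂ × ℂ) : ℂ :=
  S (TZ g A (round (8 * B * q.2.re / r ^ 2)) (XX B r q, XX B r q * q.2))

theorem Bd.g_zero (hB : Bd g A R1 M rg) : g 0 = 0 := by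
  have h := hB.hgM 0 (mem_ball_self hB.hrg)
  simpa using h

theorem TG_zero (hg : g 0 = 0) (x : ℂ) : TG g A (x, 0) = (x, 0) := by
  simp [TG, hg]

theorem analyticAt_TG_axis (hg : AnalyticAt ℂ g 0) {x : ℂ} (hA : AnalyticAt ℂ A x) :
    AnalyticAt ℂ (TG g A) (x, 0) := by
  apply analyticAt_TG hA (by simp)
  simpa using hg

theorem continuous_XX (B r : ℝ) : Continuous (XX B r) := by
  unfold XX
  fun_prop

theorem analyticAt_XX (B r : ℝ) (q : ℂ × ℂ) : AnalyticAt ℂ (XX B r) q := by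
  have h : AnalyticAt ℂ (fun q : ℂ × ℂ => q.1 * (1 + (B : ℂ) * (q.2 * (r : ℂ)⁻¹) ^ 2)) q :=
    analyticAt_fst.mul (analyticAt_const.add (analyticAt_const.mul
      ((analyticAt_snd.mul analyticAt_const).pow 2)))
  exact h

/-- invariance of the germs along the axis -/
theorem inv_axis {S : ℂ × ℂ → ℂ} (hg : AnalyticAt ℂ g 0) (hg0 : g 0 = 0) {W : Set ℂ}
    (hW : IsPreconnected W) (hA : ∀ x ∈ W, AnalyticAt ℂ A x)
    (hS : ∀ x ∈ W, AnalyticAt ℂ S (x, 0)) {x0 : ℂ} (hx0 : x0 ∈ W)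
    (h0 : ∀ᶠ p in 𝓝 (x0, (0 : ℂ)), S (TG g A p) = S p) :
    ∀ x ∈ W, ∀ᶠ p in 𝓝 (x, (0 : ℂ)), S (TG g A p) = S p := by
  intro x hx
  have hV : IsPreconnected ((fun x : ℂ => (x, (0 : ℂ))) '' W) :=
    hW.image _ (by fun_prop)
  apply ev_eq_of_preconnected hV (f := fun p => S (TG g A p)) (h := S) _ _
    (p0 := (x0, 0)) ⟨x0, hx0, rfl⟩ h0 (x, 0) ⟨x, hx, rfl⟩
  · rintro _ ⟨z, hz, rfl⟩
    apply AnalyticAt.fun_comp (g := S) (f := TG g A)
    · rw [TG_zero hg0]
      exact hS z hz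
    · exact analyticAt_TG_axis hg (hA z hz)
  · rintro _ ⟨z, hz, rfl⟩
    exact hS z hz

/-- One step of the continuation. -/
theorem step (hB : Bd g A R1 M rg) {B s : ℝ} (hB0 : 0 < B) (hB1 : B ≤ 1 / 1000)
    (hB2 : B * M * R1 ≤ 1 / 100000) (hs : 0 < s) (hsR : s * (1 + 100 * B) ≤ R1)
    {S : ℂ × ℂ → ℂ} (hE : EE g A S s) :
    ∃ S' : ℂ × ℂ → ℂ, EE g A S' (s * (1 + B / 4)) ∧ S' =ᶠ[𝓝 ((0 : ℂ), (0 : ℂ))] S := by
  have hR := hB.hR
  have hrg := hB.hrg
  set s' : ℝ := s * (1 - B / 8) with hs'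
  have hs's : s' < s := by nlinarith
  have hs'0 : 0 < s' := mul_pos hs (by linarith)
  obtain ⟨r0, hr0, hK⟩ := near_K hs's hE
  obtain ⟨r, hr, hrB, hr1, hr2⟩ : ∃ r > 0, r ≤ B / 1000 ∧ 4 * R1 * r < rg ∧ 4 * R1 * r < r0 := by
    refine ⟨min (B / 1000) (min (rg / (8 * R1)) (r0 / (8 * R1))), by positivity,
      min_le_left _ _, ?_, ?_⟩
    · have h1 : min (B / 1000) (min (rg / (8 * R1)) (r0 / (8 * R1))) ≤ rg / (8 * R1) :=
        (min_le_right _ _).trans (min_le_left _ _)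
      have h2 := mul_le_mul_of_nonneg_left h1 (by positivity : 0 ≤ 4 * R1)
      have h3 : 4 * R1 * (rg / (8 * R1)) = rg / 2 := by
        field_simp
        ring
      linarith
    · have h1 : min (B / 1000) (min (rg / (8 * R1)) (r0 / (8 * R1))) ≤ r0 / (8 * R1) :=
        (min_le_right _ _).trans (min_le_right _ _)
      have h2 := mul_le_mul_of_nonneg_left h1 (by positivity : 0 ≤ 4 * R1)
      have h3 : 4 * R1 * (r0 / (8 * R1)) = r0 / 2 := by
        field_simp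
        ring
      linarith
  -- the domain
  set U : Set (ℂ × ℂ) := {q | ‖q.2‖ < 2 * r ∧ ‖q.1‖ < s * (1 + B) ∧
    ‖q.1‖ * (1 - 4 / 5 * B * (‖q.2‖ / r) ^ 2 + B / 100) < s'} with hU
  have hUo : IsOpen U := by
    have c1 : IsOpen {q : ℂ × ℂ | ‖q.2‖ < 2 * r} := isOpen_lt (by fun_prop) continuous_const
    have c2 : IsOpen {q : ℂ × ℂ | ‖q.1‖ < s * (1 + B)} := isOpen_lt (by fun_prop) continuous_const
    have c3 : IsOpen {q : ℂ × ℂ | ‖q.1‖ * (1 - 4 / 5 * B * (‖q.2‖ / r) ^ 2 + B / 100) < s'} :=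
      isOpen_lt (by fun_prop) continuous_const
    exact c1.inter (c2.inter c3)
  have hpos : ∀ q ∈ U, ∀ k : ℤ, |8 * B * q.2.re / r ^ 2 - k| ≤ 1 →
      (|(k : ℝ)| * M * ‖XX B r q * q.2‖ ≤ 1 / 100 ∧ M * ‖XX B r q * q.2‖ ≤ 1 / 100 ∧
      2 * ‖XX B r q * q.2‖ < rg ∧ ‖XX B r q‖ + 2 * |(k : ℝ)| * ‖XX B r q * q.2‖ < R1) ∧
      ‖(TZ g A k (XX B r q, XX B r q * q.2)).1‖ ≤ s' ∧
      ‖(TZ g A k (XX B r q, XX B r q * q.2)).2‖ < r0 := by
    intro q hq k hk
    obtain ⟨h1, h2, h3⟩ := position hB hB0 hB1 hB2 hs hsR hr hrB hr1 hr2 q hq.2.1 hq.1 k hk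
    exact ⟨h1, h2.trans hq.2.2.le, h3⟩
  have hjump : ∀ q ∈ U, ∀ k : ℤ, |8 * B * q.2.re / r ^ 2 - k| ≤ 1 →
      S (TZ g A (k + 1) (XX B r q, XX B r q * q.2)) =
        S (TZ g A k (XX B r q, XX B r q * q.2)) := by
    intro q hq k hk
    obtain ⟨⟨h1, h2, h3, h4⟩, h5, h6⟩ := hpos q hq k hk
    rw [← TG_TZ hB (XX B r q, XX B r q * q.2) k h1 h2 h3 h4]
    exact (hK _ _ h5 h6).2
  have hround : ∀ q ∈ U, ∀ k : ℤ, |8 * B * q.2.re / r ^ 2 - k| < 1 →
      fext g A S B r q = S (TZ g A k (XX B r q, XX B r q * q.2)) := by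
    intro q hq k hk
    unfold fext
    set u := 8 * B * q.2.re / r ^ 2 with hu
    have h1 := abs_sub_round u
    have h2 : |(k : ℝ) - round u| < 2 := by
      have := abs_sub_abs_le_abs_sub (0 : ℝ) 0
      calc |(k : ℝ) - round u| = |(u - round u) - (u - k)| := by ring_nf
        _ ≤ |u - round u| + |u - k| := abs_sub _ _
        _ < 2 := by linarith
    have h3 : |k - round u| < 2 := by exact_mod_cast h2
    rw [abs_lt] at h3
    rcases (by omega : round u = k ∨ round u = k + 1 ∨ round u + 1 = k) with h | h | h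
    · rw [h]
    · rw [h]
      exact hjump q hq k hk.le
    · have h4 := hjump q hq (round u) (by linarith)
      rw [h] at h4
      exact h4.symm
  have hfA : AnalyticOnNhd ℂ (fext g A S B r) U := by
    intro q hq
    set k := round (8 * B * q.2.re / r ^ 2) with hk
    have hk1 : |8 * B * q.2.re / r ^ 2 - k| ≤ 1 / 2 := abs_sub_round _
    obtain ⟨⟨h1, h2, h3, h4⟩, h5, h6⟩ := hpos q hq k (by linarith)
    have hT := (TZ_bound hB (XX B r q, XX B r q * q.2) k h1 h2 h3 h4).2.2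
    have hin : AnalyticAt ℂ (fun q : ℂ × ℂ => (XX B r q, XX B r q * q.2)) q :=
      (analyticAt_XX B r q).prod ((analyticAt_XX B r q).mul analyticAt_snd)
    have hc1 : AnalyticAt ℂ (fun q : ℂ × ℂ => TZ g A k (XX B r q, XX B r q * q.2)) q :=
      AnalyticAt.fun_comp (g := TZ g A k) (f := fun q : ℂ × ℂ => (XX B r q, XX B r q * q.2)) hT hin
    have hc2 : AnalyticAt ℂ (fun q : ℂ × ℂ => S (TZ g A k (XX B r q, XX B r q * q.2))) q :=
      AnalyticAt.fun_comp (g := S) (f := fun q : ℂ × ℂ => TZ g A k (XX B r q, XX B r q * q.2))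
        (hK _ _ h5 h6).1 hc1
    apply hc2.congr
    have hcont : Continuous (fun q : ℂ × ℂ => |8 * B * q.2.re / r ^ 2 - k|) := by fun_prop
    have hlt : ∀ᶠ q' in 𝓝 q, |8 * B * q'.2.re / r ^ 2 - k| < 1 :=
      (hcont.tendsto q).eventually_lt_const (by linarith)
    filter_upwards [hlt, hUo.mem_nhds hq] with q' h7 h8
    exact (hround q' h8 k h7).symm
  -- the Hartogs figure
  set s2 : ℝ := s' * (1 + B / 2) with hs2
  have hs2s : s * (1 + B / 4) ≤ s2 := by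
    have : 1 + B / 4 ≤ (1 - B / 8) * (1 + B / 2) := by nlinarith
    calc s * (1 + B / 4) ≤ s * ((1 - B / 8) * (1 + B / 2)) :=
          mul_le_mul_of_nonneg_left this hs.le
      _ = s2 := by rw [hs2, hs']; ring
  have hs2B : s2 ≤ s * (1 + B) := by
    have : s' * (1 + B / 2) ≤ s * (1 + B / 2) := mul_le_mul_of_nonneg_right hs's.le (by linarith)
    have h2 : s * (1 + B / 2) ≤ s * (1 + B) := mul_le_mul_of_nonneg_left (by linarith) hs.le
    linarith
  have hs20 : 0 < s2 := mul_pos hs'0 (by linarith)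
  obtain ⟨G, hGA, hG0, -⟩ := SCV.hartogs_figure U hUo (fext g A S B r) hfA (ball 0 s2) isOpen_ball
    (convex_ball _ _).isPreconnected 0 r hr (by
      rintro ⟨ξ, η⟩ ⟨hξ, hη⟩
      have h1 : ‖ξ‖ < s2 := by simpa using hξ
      have h2 : ‖η‖ = r := by simpa using hη
      refine ⟨?_, ?_, ?_⟩
      · simp only [h2]
        linarith
      · simp only
        linarith
      · simp only [h2, div_self hr.ne', one_pow, mul_one]
        have h3 : 0 < 1 - 4 / 5 * B + B / 100 := by linarith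
        have h4 : ‖ξ‖ * (1 - 4 / 5 * B + B / 100) < s2 * (1 - 4 / 5 * B + B / 100) :=
          mul_lt_mul_of_pos_right h1 h3
        have h5 : (1 + B / 2) * (1 - 4 / 5 * B + B / 100) ≤ 1 := by nlinarith
        have h6 : s' * ((1 + B / 2) * (1 - 4 / 5 * B + B / 100)) ≤ s' * 1 :=
          mul_le_mul_of_nonneg_left h5 hs'0.le
        rw [hs2] at h4
        linarith)
    0 (mem_ball_self hs20) (by
      intro w hw
      have h2 : ‖w‖ ≤ r := by simpa using hw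
      refine ⟨?_, ?_, ?_⟩
      · simp only
        linarith
      · simp only [norm_zero]
        positivity
      · simp only [norm_zero, zero_mul]
        exact hs'0)
  -- `G` and `S o XX` near the axis
  have hG1 : ∀ x ∈ ball (0 : ℂ) s, G =ᶠ[𝓝 (x, (0 : ℂ))] fun q => S (XX B r q, XX B r q * q.2) := by
    intro x hx
    apply ev_eq_of_preconnected (isPreconnected_axis s) _ _ (p0 := ((0 : ℂ), (0 : ℂ)))
      ⟨0, mem_ball_self hs, rfl⟩ _ (x, 0) ⟨x, hx, rfl⟩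
    · rintro _ ⟨z, hz, rfl⟩
      apply hGA
      refine ⟨?_, mem_ball_self hr⟩
      rw [mem_ball_zero_iff] at hz ⊢
      have : s ≤ s2 := by
        have h : s * 1 ≤ s * (1 + B / 4) := mul_le_mul_of_nonneg_left (by linarith) hs.le
        linarith
      simp only
      linarith
    · rintro _ ⟨z, hz, rfl⟩
      apply AnalyticAt.fun_comp (g := S) (f := fun q : ℂ × ℂ => (XX B r q, XX B r q * q.2))
      · have : (XX B r (z, 0), XX B r (z, 0) * ((z, (0 : ℂ)) : ℂ × ℂ).2) = (z, (0 : ℂ)) := by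
          simp [XX]
        rw [this]
        exact (hE z hz).1
      · exact (analyticAt_XX B r _).prod ((analyticAt_XX B r _).mul analyticAt_snd)
    · -- near the origin
      have h1 : ∀ᶠ q : ℂ × ℂ in 𝓝 ((0 : ℂ), (0 : ℂ)), ∀ w ∈ ball (0 : ℂ) r,
          (q.1, w) ∈ U ∧ G (q.1, w) = fext g A S B r (q.1, w) :=
        (continuous_fst.tendsto ((0 : ℂ), (0 : ℂ))).eventually hG0
      have h2 : ∀ᶠ q : ℂ × ℂ in 𝓝 ((0 : ℂ), (0 : ℂ)), q.2 ∈ ball (0 : ℂ) r :=
        continuous_snd.continuousAt.eventually (ball_mem_nhds _ hr)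
      have h3 : ∀ᶠ q : ℂ × ℂ in 𝓝 ((0 : ℂ), (0 : ℂ)), |8 * B * q.2.re / r ^ 2 - (0 : ℤ)| < 1 := by
        have hcont : Continuous (fun q : ℂ × ℂ => |8 * B * q.2.re / r ^ 2 - (0 : ℤ)|) := by
          fun_prop
        apply (hcont.tendsto ((0 : ℂ), (0 : ℂ))).eventually_lt_const
        simp
      filter_upwards [h1, h2, h3] with q hq1 hq2 hq3
      obtain ⟨hqU, hqG⟩ := hq1 q.2 hq2
      rw [hqG, hround q hqU 0 hq3, TZ_zero]
  -- the inverse coordinates
  set J : ℂ × ℂ → ℂ × ℂ := fun p => (p.1 / (1 + (B : ℂ) * (p.2 / p.1 / r) ^ 2), p.2 / p.1) with hJ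
  have hJA : ∀ x : ℂ, x ≠ 0 → AnalyticAt ℂ J (x, 0) := by
    intro x hx
    have h1 : AnalyticAt ℂ (fun p : ℂ × ℂ => p.2 / p.1) (x, 0) :=
      analyticAt_snd.div analyticAt_fst hx
    have h2 : AnalyticAt ℂ (fun p : ℂ × ℂ => (1 : ℂ) + (B : ℂ) * (p.2 / p.1 / r) ^ 2) (x, 0) := by
      apply analyticAt_const.add
      apply analyticAt_const.mul
      apply AnalyticAt.pow
      have : AnalyticAt ℂ (fun p : ℂ × ℂ => p.2 / p.1 * (r : ℂ)⁻¹) (x, 0) :=
        h1.mul analyticAt_const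
      simpa only [div_eq_mul_inv] using this
    exact (analyticAt_fst.div h2 (by simp)).prod h1
  have hJ0 : ∀ x : ℂ, J (x, 0) = (x, 0) := by
    intro x
    simp [hJ]
  have hGJ : ∀ x : ℂ, x ≠ 0 → ‖x‖ < s → (fun p => G (J p)) =ᶠ[𝓝 (x, (0 : ℂ))] S := by
    intro x hx hxs
    have h1 : Tendsto J (𝓝 (x, 0)) (𝓝 (x, 0)) := by
      have := (hJA x hx).continuousAt.tendsto
      rwa [hJ0] at this
    have h2 := h1.eventually (hG1 x (by simpa using hxs))
    have h3 : ∀ᶠ p : ℂ × ℂ in 𝓝 (x, (0 : ℂ)), p.1 ≠ 0 :=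
      (continuous_fst.tendsto (x, (0 : ℂ))).eventually_ne hx
    have h4 : ∀ᶠ p : ℂ × ℂ in 𝓝 (x, (0 : ℂ)), 1 + (B : ℂ) * (p.2 / p.1 / r) ^ 2 ≠ 0 := by
      have hc : ContinuousAt (fun p : ℂ × ℂ => 1 + (B : ℂ) * (p.2 / p.1 / r) ^ 2) (x, 0) := by
        have := (analyticAt_snd (𝕜 := ℂ) (E := ℂ) (F := ℂ) (p := (x, (0 : ℂ)))).div
          analyticAt_fst hx
        have h5 := this.continuousAt
        fun_prop (disch := assumption)
      exact hc.tendsto.eventually_ne (by simp)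
    filter_upwards [h2, h3, h4] with p hp2 hp3 hp4
    rw [hp2]
    have e1 : XX B r (J p) = p.1 := by
      simp only [XX, hJ]
      rw [div_mul_cancel₀ _ hp4]
    have e2 : XX B r (J p) * (J p).2 = p.2 := by
      rw [e1]
      simp only [hJ]
      rw [mul_div_cancel₀ _ hp3]
    rw [e2, e1]
  -- the extension
  classical
  set S' : ℂ × ℂ → ℂ := fun p => if ‖p.1‖ < s / 2 then S p else G (J p) with hS'
  have hlow : ∀ x : ℂ, ‖x‖ < s / 2 → S' =ᶠ[𝓝 (x, (0 : ℂ))] S := by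
    intro x hx
    have h1 : ∀ᶠ p : ℂ × ℂ in 𝓝 (x, (0 : ℂ)), ‖p.1‖ < s / 2 :=
      ((continuous_fst.norm).tendsto (x, (0 : ℂ))).eventually_lt_const hx
    filter_upwards [h1] with p hp
    simp only [hS', if_pos hp]
  have hhigh : ∀ x : ℂ, s / 2 ≤ ‖x‖ → S' =ᶠ[𝓝 (x, (0 : ℂ))] fun p => G (J p) := by
    intro x hx
    rcases lt_or_eq_of_le hx with h | h
    · have h1 : ∀ᶠ p : ℂ × ℂ in 𝓝 (x, (0 : ℂ)), s / 2 < ‖p.1‖ :=
        ((continuous_fst.norm).tendsto (x, (0 : ℂ))).eventually_const_lt h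
      filter_upwards [h1] with p hp
      simp only [hS', if_neg (not_lt.2 hp.le)]
    · have hx0 : x ≠ 0 := by
        rw [← norm_pos_iff, ← h]
        linarith
      filter_upwards [hGJ x hx0 (by linarith)] with p hp
      simp only [hS']
      split_ifs
      · exact hp.symm
      · rfl
  have hS'A : ∀ x ∈ ball (0 : ℂ) (s * (1 + B / 4)), AnalyticAt ℂ S' (x, 0) := by
    intro x hx
    rw [mem_ball_zero_iff] at hx
    by_cases h : ‖x‖ < s / 2
    · have hxs : x ∈ ball (0 : ℂ) s := by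
        rw [mem_ball_zero_iff]
        linarith
      exact (hE x hxs).1.congr (hlow x h).symm
    · push Not at h
      have hx0 : x ≠ 0 := by
        rw [← norm_pos_iff]
        linarith
      have h1 : AnalyticAt ℂ (fun p => G (J p)) (x, 0) := by
        apply AnalyticAt.fun_comp (g := G) (f := J) _ (hJA x hx0)
        rw [hJ0]
        apply hGA
        refine ⟨?_, mem_ball_self hr⟩
        rw [mem_ball_zero_iff]
        simp only
        linarith
      exact h1.congr (hhigh x h).symm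
  have hS'0 : S' =ᶠ[𝓝 ((0 : ℂ), (0 : ℂ))] S := hlow 0 (by rw [norm_zero]; linarith)
  refine ⟨S', ?_, hS'0⟩
  have hgA : AnalyticAt ℂ g 0 := hB.hg 0 (mem_ball_self hB.hrg)
  have hinv0 : ∀ᶠ p in 𝓝 ((0 : ℂ), (0 : ℂ)), S' (TG g A p) = S' p := by
    have h1 : Tendsto (TG g A) (𝓝 ((0 : ℂ), (0 : ℂ))) (𝓝 ((0 : ℂ), (0 : ℂ))) := by
      have := (analyticAt_TG_axis (A := A) hgA (hB.hA 0 (mem_ball_self hB.hR))).continuousAt.tendsto
      rwa [TG_zero hB.g_zero] at this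
    filter_upwards [h1.eventually hS'0, hS'0, (hE 0 (mem_ball_self hs)).2] with p h2 h3 h4
    rw [h2, h3, h4]
  have hlt : s * (1 + B / 4) ≤ R1 := by
    have : s * (1 + B / 4) ≤ s * (1 + 100 * B) := mul_le_mul_of_nonneg_left (by linarith) hs.le
    linarith
  have hinv := inv_axis hgA hB.g_zero (W := ball (0 : ℂ) (s * (1 + B / 4)))
    (convex_ball _ _).isPreconnected
    (fun x hx => hB.hA x (ball_subset_ball hlt hx)) hS'A (x0 := 0)
    (mem_ball_self (by positivity)) hinv0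
  exact fun x hx => ⟨hS'A x hx, hinv x hx⟩

end Pool.Agent.MP_ae5b4e_an_ND
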