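import Mathlib
import Pool.Agent.Lib.MP_ae5b4e_an_LAT.NDPc

/-!
# Theorem ND, part (P): continuation of the first integral

`P_disc`: a first integral of `TG g A`, analytic near `(x0, 0)`, extends to a neighbourhood of
`ball x0 R x {0}` if `A` is analytic on `ball x0 R`.
-/

open Complex Metric Set Filter Topology

namespace Pool.Agent.MP_ae5b4e_an_ND

/-- Coherent germs along the axis come from one function. -/
theorem glue_germs (W : Set ℂ) (G : ℂ → ℂ × ℂ → ℂ)
    (hA : ∀ x ∈ W, AnalyticAt ℂ (G x) (x, 0))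
    (hc : ∀ x ∈ W, ∀ᶠ x' in 𝓝 x, x' ∈ W → G x =ᶠ[𝓝 (x', (0 : ℂ))] G x') :
    ∃ S : ℂ × ℂ → ℂ, ∀ x ∈ W, S =ᶠ[𝓝 (x, (0 : ℂ))] G x := by
  classical
  have h1 : ∀ x : ℂ, ∃ ε : ℝ, 0 < ε ∧ (x ∈ W → (∀ p ∈ ball (x, (0 : ℂ)) ε, AnalyticAt ℂ (G x) p) ∧
      ∀ x' ∈ ball x ε, x' ∈ W → G x =ᶠ[𝓝 (x', (0 : ℂ))] G x') := by
    intro x
    by_cases hx : x ∈ W
    · obtain ⟨ε1, hε1, hb1⟩ := Metric.eventually_nhds_iff_ball.1 (hA x hx).eventually_analyticAt
      obtain ⟨ε2, hε2, hb2⟩ := Metric.eventually_nhds_iff_ball.1 (hc x hx)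
      refine ⟨min ε1 ε2, lt_min hε1 hε2, fun _ => ⟨fun p hp => hb1 p ?_, fun x' hx' => hb2 x' ?_⟩⟩
      · exact ball_subset_ball (min_le_left _ _) hp
      · exact ball_subset_ball (min_le_right _ _) hx'
    · exact ⟨1, one_pos, fun h => absurd h hx⟩
  choose ε hε hb using h1
  let S : ℂ × ℂ → ℂ := fun p =>
    if h : ∃ z ∈ W, p ∈ ball (z, (0 : ℂ)) (ε z / 3) then G h.choose p else 0
  refine ⟨S, fun x hx => ?_⟩
  have hεx := hε x
  filter_upwards [ball_mem_nhds (x, (0 : ℂ)) (by positivity : 0 < ε x / 3)] with p hp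
  have hex : ∃ z ∈ W, p ∈ ball (z, (0 : ℂ)) (ε z / 3) := ⟨x, hx, hp⟩
  have hS : S p = G hex.choose p := by simp only [S, dif_pos hex]
  rw [hS]
  obtain ⟨hzW, hpz⟩ := hex.choose_spec
  set z := hex.choose with hz
  have hεz := hε z
  have hpx : p ∈ ball (x, (0 : ℂ)) (ε x) := ball_subset_ball (by linarith) hp
  have hpz' : p ∈ ball (z, (0 : ℂ)) (ε z) := ball_subset_ball (by linarith) hpz
  have hdist : dist x z < (ε x + ε z) / 3 := by
    have e1 : dist (x, (0 : ℂ)) (z, (0 : ℂ)) = dist x z := by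
      rw [Prod.dist_eq]
      simp
    have e2 := dist_triangle_left (x, (0 : ℂ)) (z, (0 : ℂ)) p
    rw [mem_ball] at hp hpz
    rw [← e1]
    linarith
  have hconv : IsPreconnected (ball (x, (0 : ℂ)) (ε x) ∩ ball (z, (0 : ℂ)) (ε z)) :=
    ((convex_ball _ _).inter (convex_ball _ _)).isPreconnected
  have hdpair : ∀ a b : ℂ, dist (a, (0 : ℂ)) (b, (0 : ℂ)) = dist a b := by
    intro a b
    rw [Prod.dist_eq]
    simp
  rcases le_total (ε x) (ε z) with h | h
  · have hxz : x ∈ ball z (ε z) := by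
      rw [mem_ball]
      linarith
    have he := (hb z hzW).2 x hxz hx
    have hmem : (x, (0 : ℂ)) ∈ ball (x, (0 : ℂ)) (ε x) ∩ ball (z, (0 : ℂ)) (ε z) := by
      refine ⟨mem_ball_self hεx, ?_⟩
      rw [mem_ball, hdpair]
      exact hxz
    exact AnalyticOnNhd.eqOn_of_preconnected_of_eventuallyEq
      (fun q hq => (hb z hzW).1 q hq.2) (fun q hq => (hb x hx).1 q hq.1) hconv hmem he ⟨hpx, hpz'⟩
  · have hzx : z ∈ ball x (ε x) := by
      rw [mem_ball, dist_comm]
      linarith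
    have he := (hb x hx).2 z hzx hzW
    have hmem : (z, (0 : ℂ)) ∈ ball (x, (0 : ℂ)) (ε x) ∩ ball (z, (0 : ℂ)) (ε z) := by
      refine ⟨?_, mem_ball_self hεz⟩
      rw [mem_ball, hdpair]
      exact hzx
    exact AnalyticOnNhd.eqOn_of_preconnected_of_eventuallyEq
      (fun q hq => (hb z hzW).1 q hq.2) (fun q hq => (hb x hx).1 q hq.1) hconv hmem he.symm
      ⟨hpx, hpz'⟩

/-- quadratic bound for `g y - y` -/
theorem g_boundP {g : ℂ → ℂ} (hg : AnalyticAt ℂ g 0) (hg0 : g 0 = 0) (hg1 : deriv g 0 = 1) :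
    ∃ M > 0, ∃ rg > 0, AnalyticOnNhd ℂ g (ball 0 rg) ∧
      ∀ y ∈ ball (0 : ℂ) rg, ‖g y - y‖ ≤ M * ‖y‖ ^ 2 := by
  obtain ⟨p, hp⟩ := hg
  have h1 := hp.isBigO_sub_partialSum_pow 2
  have h2 : ∀ y : ℂ, g (0 + y) - p.partialSum 2 y = g y - y := by
    intro y
    have e0 : p 0 (fun _ => y) = g 0 := hp.coeff_zero _
    have e1 : p 1 (fun _ => y) = y := by
      have h3 := hp.hasDerivAt.deriv
      rw [hg1] at h3
      have h4 : p 1 (fun _ => y) = y * p 1 (fun _ => 1) := by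
        simp
      rw [h4, ← h3, mul_one]
    rw [FormalMultilinearSeries.partialSum, Finset.sum_range_succ, Finset.sum_range_one, e0, e1,
      hg0, zero_add]
  simp only [h2] at h1
  obtain ⟨M, hM, hb⟩ := h1.exists_pos
  have hA : AnalyticAt ℂ g 0 := ⟨p, hp⟩
  obtain ⟨rg, hrg, hball⟩ := Metric.eventually_nhds_iff_ball.1
    (hb.bound.and hA.eventually_analyticAt)
  refine ⟨M, hM, rg, hrg, fun y hy => (hball y hy).2, fun y hy => ?_⟩
  have := (hball y hy).1
  simpa using this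

/-- continuation up to any smaller disc, centre `0` -/
theorem P_disc_aux {g A : ℂ → ℂ} {R R' : ℝ} (hg : AnalyticAt ℂ g 0) (hg0 : g 0 = 0)
    (hg1 : deriv g 0 = 1) (hA : AnalyticOnNhd ℂ A (ball 0 R)) (hR' : 0 < R') (hRR : R' < R)
    {S : ℂ × ℂ → ℂ} (hS : AnalyticAt ℂ S (0, 0))
    (hT : ∀ᶠ p in 𝓝 ((0 : ℂ), (0 : ℂ)), S (TG g A p) = S p) :
    ∃ S' : ℂ × ℂ → ℂ, EE g A S' R' ∧ S' =ᶠ[𝓝 ((0 : ℂ), (0 : ℂ))] S := by
  set R1 : ℝ := (R' + R) / 2 with hR1
  have hR1R : R1 < R := by rw [hR1]; linarith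
  have hR'1 : R' < R1 := by rw [hR1]; linarith
  have hR10 : 0 < R1 := by linarith
  obtain ⟨M2, hM2, rg, hrg, hgA, hgM⟩ := g_boundP hg hg0 hg1
  obtain ⟨M1, hM1⟩ := (isCompact_closedBall (0 : ℂ) R1).exists_bound_of_continuousOn
    (hA.continuousOn.mono (closedBall_subset_ball hR1R))
  set M : ℝ := max 1 (max M1 M2) with hM
  have hMM1 : M1 ≤ M := (le_max_left _ _).trans (le_max_right _ _)
  have hMM2 : M2 ≤ M := (le_max_right _ _).trans (le_max_right _ _)
  have hM11 : 1 ≤ M := le_max_left _ _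
  have hB : Bd g A R1 M rg :=
    { hM := hM11
      hR := hR10
      hrg := hrg
      hA := hA.mono (ball_subset_ball hR1R.le)
      hAM := fun x hx => (hM1 x (ball_subset_closedBall hx)).trans hMM1
      hg := hgA
      hgM := fun y hy => (hgM y hy).trans (mul_le_mul_of_nonneg_right hMM2 (sq_nonneg _)) }
  -- the constant `B`
  obtain ⟨B, hB0, hB1, hB2, hB3⟩ : ∃ B > 0, B ≤ 1 / 1000 ∧ B * M * R1 ≤ 1 / 100000 ∧
      R' * (1 + 100 * B) ≤ R1 := by
    have hMpos : 0 < M := by linarith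
    refine ⟨min (1 / 1000) (min (1 / 100000 / (M * R1)) ((R1 - R') / (100 * R'))), ?_,
      min_le_left _ _, ?_, ?_⟩
    · have : 0 < R1 - R' := by linarith
      positivity
    · have h1 : min (1 / 1000) (min (1 / 100000 / (M * R1)) ((R1 - R') / (100 * R'))) ≤
          1 / 100000 / (M * R1) := (min_le_right _ _).trans (min_le_left _ _)
      have h2 := mul_le_mul_of_nonneg_right h1 (by positivity : 0 ≤ M * R1)
      rw [div_mul_cancel₀ _ (by positivity)] at h2
      linarith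
    · have h1 : min (1 / 1000) (min (1 / 100000 / (M * R1)) ((R1 - R') / (100 * R'))) ≤
          (R1 - R') / (100 * R') := (min_le_right _ _).trans (min_le_right _ _)
      have h2 := mul_le_mul_of_nonneg_right h1 (by positivity : 0 ≤ 100 * R')
      rw [div_mul_cancel₀ _ (by positivity)] at h2
      linarith
  -- start
  obtain ⟨s0, hs0, hE0⟩ : ∃ s0 > 0, EE g A S s0 := by
    obtain ⟨ε, hε, hb⟩ := Metric.eventually_nhds_iff_ball.1
      (hS.eventually_analyticAt.and (eventually_eventually_nhds.2 hT))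
    refine ⟨ε, hε, fun x hx => ?_⟩
    apply hb
    have hx' : ‖x‖ < ε := by simpa using hx
    rw [mem_ball, Prod.dist_eq]
    simpa using hx'
  have hiter : ∀ n : ℕ, ∃ S' : ℂ × ℂ → ℂ, EE g A S' (min R' (s0 * (1 + B / 4) ^ n)) ∧
      S' =ᶠ[𝓝 ((0 : ℂ), (0 : ℂ))] S := by
    intro n
    induction n with
    | zero =>
      refine ⟨S, fun x hx => hE0 x ?_, EventuallyEq.rfl⟩
      rw [pow_zero, mul_one] at hx
      exact ball_subset_ball (min_le_right _ _) hx
    | succ n ih =>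
      obtain ⟨Sn, hn1, hn2⟩ := ih
      set s := min R' (s0 * (1 + B / 4) ^ n) with hsdef
      have hs : 0 < s := lt_min hR' (by positivity)
      have hsR' : s ≤ R' := min_le_left _ _
      obtain ⟨S', h1, h2⟩ := step hB hB0 hB1 hB2 hs (by
        have : s * (1 + 100 * B) ≤ R' * (1 + 100 * B) :=
          mul_le_mul_of_nonneg_right hsR' (by positivity)
        linarith) hn1
      refine ⟨S', fun x hx => h1 x ?_, h2.trans hn2⟩
      apply ball_subset_ball _ hx
      rcases min_choice R' (s0 * (1 + B / 4) ^ n) with h | h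
      · rw [hsdef, h]
        refine (min_le_left _ _).trans ?_
        nlinarith
      · rw [hsdef, h]
        refine (min_le_right _ _).trans (le_of_eq ?_)
        rw [pow_succ]
        ring
  obtain ⟨n, hn⟩ : ∃ n : ℕ, R' / s0 < (1 + B / 4) ^ n :=
    pow_unbounded_of_one_lt _ (by linarith)
  obtain ⟨S', h1, h2⟩ := hiter n
  have hmin : min R' (s0 * (1 + B / 4) ^ n) = R' := by
    apply min_eq_left
    rw [div_lt_iff₀ hs0] at hn
    linarith
  rw [hmin] at h1
  exact ⟨S', h1, h2⟩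

/-- translation of the centre -/
theorem TG_translate (g A : ℂ → ℂ) (x0 : ℂ) (p : ℂ × ℂ) :
    (x0 + (TG g (fun z => A (x0 + z)) p).1, (TG g (fun z => A (x0 + z)) p).2) =
      TG g A (x0 + p.1, p.2) := by
  unfold TG
  simp only
  congr 1
  ring

/-- **Uniqueness**: two continuations over a connected set which agree near one point of the axis
agree near every point of the axis. -/
theorem P_unique {S S' : ℂ × ℂ → ℂ} {W : Set ℂ} (hW : IsPreconnected W)
    (hS : ∀ x ∈ W, AnalyticAt ℂ S (x, 0)) (hS' : ∀ x ∈ W, AnalyticAt ℂ S' (x, 0)) {x1 : ℂ}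
    (hx1 : x1 ∈ W) (h : S =ᶠ[𝓝 (x1, (0 : ℂ))] S') : ∀ x ∈ W, S =ᶠ[𝓝 (x, (0 : ℂ))] S' := by
  intro x hx
  apply ev_eq_of_preconnected (hW.image (fun x : ℂ => (x, (0 : ℂ))) (by fun_prop)) _ _
    (p0 := (x1, 0)) ⟨x1, hx1, rfl⟩ h (x, 0) ⟨x, hx, rfl⟩
  · rintro _ ⟨z, hz, rfl⟩
    exact hS z hz
  · rintro _ ⟨z, hz, rfl⟩
    exact hS' z hz

/-- **Part (P)**, centre `0`. -/
theorem P_disc_zero {g A : ℂ → ℂ} {R : ℝ} (hg : AnalyticAt ℂ g 0) (hg0 : g 0 = 0)
    (hg1 : deriv g 0 = 1) (hA : AnalyticOnNhd ℂ A (ball 0 R))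
    {S : ℂ × ℂ → ℂ} (hS : AnalyticAt ℂ S (0, 0))
    (hT : ∀ᶠ p in 𝓝 ((0 : ℂ), (0 : ℂ)), S (TG g A p) = S p) :
    ∃ S' : ℂ × ℂ → ℂ, EE g A S' R ∧ S' =ᶠ[𝓝 ((0 : ℂ), (0 : ℂ))] S := by
  classical
  rcases le_or_gt R 0 with hR | hR
  · exact ⟨S, fun x hx => absurd (by simpa using hx : ‖x‖ < R)
      (not_lt.2 (hR.trans (norm_nonneg _))), EventuallyEq.rfl⟩
  have h1 : ∀ x : ℂ, ∃ S' : ℂ × ℂ → ℂ, ‖x‖ < R →
      EE g A S' ((‖x‖ + R) / 2) ∧ S' =ᶠ[𝓝 ((0 : ℂ), (0 : ℂ))] S := by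
    intro x
    by_cases hx : ‖x‖ < R
    · obtain ⟨S', h2, h3⟩ := P_disc_aux (R' := (‖x‖ + R) / 2) hg hg0 hg1 hA
        (by positivity) (by linarith) hS hT
      exact ⟨S', fun _ => ⟨h2, h3⟩⟩
    · exact ⟨S, fun h => absurd h hx⟩
  choose G hG using h1
  obtain ⟨S', hS'⟩ := glue_germs (ball 0 R) G
    (by
      intro x hx
      have hxR : ‖x‖ < R := by simpa using hx
      apply ((hG x hxR).1 x _).1
      rw [mem_ball_zero_iff]
      linarith)
    (by
      intro x hx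
      have hxR : ‖x‖ < R := by simpa using hx
      have h2 : ∀ᶠ x' in 𝓝 x, ‖x'‖ < (‖x‖ + R) / 2 :=
        (continuous_norm.tendsto x).eventually_lt_const (by linarith)
      filter_upwards [h2] with x' hx' hx'W
      have hx'R : ‖x'‖ < R := by simpa using hx'W
      set m := min ((‖x‖ + R) / 2) ((‖x'‖ + R) / 2) with hm
      have hm0 : 0 < m := lt_min (by positivity) (by positivity)
      apply P_unique (W := ball (0 : ℂ) m) (convex_ball _ _).isPreconnected _ _ (x1 := 0)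
        (mem_ball_self hm0) _ x' _
      · intro z hz
        exact ((hG x hxR).1 z (ball_subset_ball (min_le_left _ _) hz)).1
      · intro z hz
        exact ((hG x' hx'R).1 z (ball_subset_ball (min_le_right _ _) hz)).1
      · exact (hG x hxR).2.trans (hG x' hx'R).2.symm
      · rw [mem_ball_zero_iff]
        exact lt_min hx' (by linarith))
  refine ⟨S', fun x hx => ?_, ?_⟩
  · have hxR : ‖x‖ < R := by simpa using hx
    have h2 := (hG x hxR).1 x (by
      rw [mem_ball_zero_iff]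
      linarith)
    refine ⟨h2.1.congr (hS' x hx).symm, ?_⟩
    have hT2 : Tendsto (TG g A) (𝓝 (x, (0 : ℂ))) (𝓝 (x, (0 : ℂ))) := by
      have := (analyticAt_TG_axis (A := A) hg (hA x hx)).continuousAt.tendsto
      rwa [TG_zero hg0] at this
    filter_upwards [hS' x hx, hT2.eventually (hS' x hx), h2.2] with p e1 e2 e3
    rw [e1, e2, e3]
  · have h0 : (0 : ℂ) ∈ ball (0 : ℂ) R := mem_ball_self hR
    exact (hS' 0 h0).trans (hG 0 (by simpa using hR)).2

/-- **Part (P) of theorem ND.**  `A` is analytic on `ball x0 R`, `S` is analytic near `(x0, 0)` and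
invariant under `TG g A` there.  Then `S` extends to a neighbourhood of `ball x0 R x {0}`, and the
extension is invariant. -/
theorem P_disc {g A : ℂ → ℂ} {x0 : ℂ} {R : ℝ} (hg : AnalyticAt ℂ g 0) (hg0 : g 0 = 0)
    (hg1 : deriv g 0 = 1) (hA : AnalyticOnNhd ℂ A (ball x0 R))
    {S : ℂ × ℂ → ℂ} (hS : AnalyticAt ℂ S (x0, 0))
    (hT : ∀ᶠ p in 𝓝 (x0, (0 : ℂ)), S (TG g A p) = S p) :
    ∃ S' : ℂ × ℂ → ℂ, (∀ x ∈ ball x0 R, AnalyticAt ℂ S' (x, 0) ∧
      ∀ᶠ p in 𝓝 (x, (0 : ℂ)), S' (TG g A p) = S' p) ∧ S' =ᶠ[𝓝 (x0, (0 : ℂ))] S := by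
  have hcont : ∀ z : ℂ, Tendsto (fun p : ℂ × ℂ => (x0 + p.1, p.2)) (𝓝 (z, 0))
      (𝓝 (x0 + z, (0 : ℂ))) := by
    intro z
    have : Continuous (fun p : ℂ × ℂ => (x0 + p.1, p.2)) := by fun_prop
    exact this.tendsto (z, 0)
  have hcont' : ∀ x : ℂ, Tendsto (fun p : ℂ × ℂ => (p.1 - x0, p.2)) (𝓝 (x, 0))
      (𝓝 (x - x0, (0 : ℂ))) := by
    intro x
    have : Continuous (fun p : ℂ × ℂ => (p.1 - x0, p.2)) := by fun_prop
    exact this.tendsto (x, 0)
  obtain ⟨S1, h1, h2⟩ := P_disc_zero (R := R) (A := fun z => A (x0 + z))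
    (S := fun p => S (x0 + p.1, p.2)) hg hg0 hg1
    (by
      intro z hz
      apply AnalyticAt.fun_comp (g := A) (f := fun z => x0 + z)
      · apply hA
        rw [mem_ball_zero_iff] at hz
        rw [mem_ball, dist_eq_norm, add_sub_cancel_left]
        exact hz
      · fun_prop)
    (by
      apply AnalyticAt.fun_comp (g := S) (f := fun p : ℂ × ℂ => (x0 + p.1, p.2))
      · simpa using hS
      · exact (analyticAt_const.add analyticAt_fst).prod analyticAt_snd)
    (by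
      have h3 := hcont 0
      rw [add_zero] at h3
      filter_upwards [h3.eventually hT] with p hp
      have e := TG_translate g A x0 p
      rw [e, hp])
  refine ⟨fun p => S1 (p.1 - x0, p.2), fun x hx => ?_, ?_⟩
  · have hx' : x - x0 ∈ ball (0 : ℂ) R := by
      rw [mem_ball_zero_iff, ← dist_eq_norm]
      exact hx
    obtain ⟨h3, h4⟩ := h1 (x - x0) hx'
    refine ⟨?_, ?_⟩
    · apply AnalyticAt.fun_comp (g := S1) (f := fun p : ℂ × ℂ => (p.1 - x0, p.2)) h3
      exact (analyticAt_fst.sub analyticAt_const).prod analyticAt_snd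
    · filter_upwards [(hcont' x).eventually h4] with p hp
      rw [← hp]
      have e := TG_translate g A x0 (p.1 - x0, p.2)
      simp only [add_sub_cancel] at e
      have e1 : (TG g A p).1 - x0 = (TG g (fun z => A (x0 + z)) (p.1 - x0, p.2)).1 := by
        have := congrArg Prod.fst e
        simp only at this
        rw [← this]
        ring
      have e2 : (TG g A p).2 = (TG g (fun z => A (x0 + z)) (p.1 - x0, p.2)).2 := by
        have := congrArg Prod.snd e
        simp only at this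
        rw [← this]
      rw [e1, e2]
  · have h3 := hcont' x0
    rw [sub_self] at h3
    filter_upwards [h3.eventually h2] with p hp
    rw [hp]
    simp

end Pool.Agent.MP_ae5b4e_an_ND
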