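import Mathlib
import Pool.Agent.Lib.SCV.Osgood
import Pool.Agent.Lib.MP_ae5b4e_an_LAT.NDP
import Pool.Agent.Lib.MP_ae5b4e_an_LAT.NDAll

/-!
# Propagation of good first integrals on discs
-/

open Metric Filter Topology

namespace Pool.Agent.MP_ae5b4e_an_ND

theorem TG_id (κ : ℂ → ℂ) (p : ℂ × ℂ) : TG id κ p = TT κ p := rfl

/-- division by `y` of an analytic function vanishing on the axis -/
theorem exists_div_y {S : ℂ × ℂ → ℂ} {x₀ : ℂ} (hS : AnalyticAt ℂ S (x₀, 0))
    (h0 : ∀ᶠ x in 𝓝 x₀, S (x, 0) = 0) :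
    ∃ G : ℂ × ℂ → ℂ, AnalyticAt ℂ G (x₀, 0) ∧
      (∀ᶠ p in 𝓝 ((x₀, 0) : ℂ × ℂ), S p = p.2 * G p) ∧
      ∀ᶠ x in 𝓝 x₀, G (x, 0) = deriv (fun y => S (x, y)) 0 := by
  obtain ⟨ε1, hε1, hb1⟩ := Metric.eventually_nhds_iff_ball.1 hS.eventually_analyticAt
  obtain ⟨ε2, hε2, hb2⟩ := Metric.eventually_nhds_iff_ball.1 h0
  set r := min ε1 ε2 / 2 with hr
  have hr0 : 0 < r := by positivity
  have hr1 : r < ε1 := by
    have := min_le_left ε1 ε2
    rw [hr]; linarith
  have hr2 : r < ε2 := by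
    have := min_le_right ε1 ε2
    rw [hr]; linarith
  have hmem : ∀ x ∈ ball x₀ r, ∀ y ∈ closedBall (0 : ℂ) r, AnalyticAt ℂ S (x, y) := by
    intro x hx y hy
    apply hb1
    rw [mem_ball, Prod.dist_eq, max_lt_iff]
    rw [mem_ball] at hx
    rw [mem_closedBall] at hy
    exact ⟨hx.trans hr1, hy.trans_lt hr1⟩
  have hdiff : ∀ x ∈ ball x₀ r, DifferentiableOn ℂ (fun y => S (x, y)) (closedBall 0 r) := by
    intro x hx y hy
    have h1 := (hmem x hx y hy).differentiableAt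
    have h2 : DifferentiableAt ℂ (fun y : ℂ => (x, y)) y := by fun_prop
    exact (DifferentiableAt.comp y (g := S) (f := fun y : ℂ => (x, y)) h1 h2).differentiableWithinAt
  have hA := Pool.Agent.SCV.analyticOnNhd_cauchy 0 r hr0.le (ball x₀ r) isOpen_ball
    (fun p => S p / p.2)
    (by
      intro p hp
      have h1 : ContinuousAt S (p.1, p.2) :=
        (hmem p.1 hp.1 p.2 (sphere_subset_closedBall hp.2)).continuousAt
      have h2 : p.2 ≠ 0 := by
        intro h
        have := hp.2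
        rw [h, mem_sphere, dist_self] at this
        linarith
      exact (h1.div (by fun_prop) h2).continuousWithinAt)
    (by
      intro ζ hζ x hx
      have h1 := (hmem x hx ζ (sphere_subset_closedBall hζ)).differentiableAt
      have h2 : DifferentiableAt ℂ (fun x : ℂ => (x, ζ)) x := by fun_prop
      have h3 := DifferentiableAt.comp x (g := S) (f := fun x : ℂ => (x, ζ)) h1 h2
      exact (h3.div_const ζ).differentiableWithinAt)
  set G : ℂ × ℂ → ℂ := fun p => (2 * Real.pi * Complex.I : ℂ)⁻¹ •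
    ∮ ζ in C(0, r), (ζ - p.2)⁻¹ • (fun p : ℂ × ℂ => S p / p.2) (p.1, ζ) with hG
  have hGval : ∀ x ∈ ball x₀ r, ∀ w ∈ ball (0 : ℂ) r,
      G (x, w) = dslope (fun y => S (x, y)) 0 w := by
    intro x hx w hw
    have hx0 : S (x, 0) = 0 := hb2 x (ball_subset_ball hr2.le hx)
    have hds : DifferentiableOn ℂ (dslope (fun y => S (x, y)) 0) (closedBall 0 r) :=
      (Complex.differentiableOn_dslope (closedBall_mem_nhds 0 hr0)).2 (hdiff x hx)
    have h1 := hds.circleIntegral_sub_inv_smul hw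
    have h2 : (∮ ζ in C(0, r), (ζ - w)⁻¹ • (S (x, ζ) / ζ)) =
        ∮ ζ in C(0, r), (ζ - w)⁻¹ • dslope (fun y => S (x, y)) 0 ζ := by
      apply circleIntegral.integral_congr hr0.le
      intro ζ hζ
      have hζ0 : ζ ≠ 0 := by
        intro h
        rw [h, mem_sphere, dist_self] at hζ
        linarith
      simp only
      rw [dslope_of_ne _ hζ0, slope_def_field, hx0, sub_zero, sub_zero]
    simp only [hG]
    rw [h2, h1, smul_smul, inv_mul_cancel₀ Complex.two_pi_I_ne_zero, one_smul]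
  refine ⟨G, hA (x₀, 0) ⟨mem_ball_self hr0, mem_ball_self hr0⟩, ?_, ?_⟩
  · have hop : (ball x₀ r ×ˢ ball (0 : ℂ) r) ∈ 𝓝 ((x₀, 0) : ℂ × ℂ) :=
      prod_mem_nhds (ball_mem_nhds _ hr0) (ball_mem_nhds _ hr0)
    filter_upwards [hop] with p hp
    have h1 := hGval p.1 hp.1 p.2 hp.2
    have hx0 : S (p.1, 0) = 0 := hb2 p.1 (ball_subset_ball hr2.le hp.1)
    have h2 : G p = dslope (fun y => S (p.1, y)) 0 p.2 := h1
    rw [h2]
    by_cases h : p.2 = 0
    · rw [h, zero_mul]
      have h3 : p = (p.1, 0) := Prod.ext rfl h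
      rw [h3]
      exact hx0
    · rw [dslope_of_ne _ h, slope_def_field, hx0, sub_zero, sub_zero, mul_div_cancel₀ _ h]
  · filter_upwards [ball_mem_nhds x₀ hr0] with x hx
    rw [hGval x hx 0 (mem_ball_self hr0), dslope_same]

/-- the `y`-derivative on the axis of an invariant function solves `f' = κ f` -/
theorem deriv_axis {κ : ℂ → ℂ} {S : ℂ × ℂ → ℂ} {x₀ : ℂ}
    (hS : AnalyticAt ℂ S (x₀, 0)) (h0 : ∀ᶠ x in 𝓝 x₀, S (x, 0) = 0)
    (hT : ∀ᶠ p in 𝓝 ((x₀, 0) : ℂ × ℂ), S (TT κ p) = S p) :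
    HasDerivAt (fun x => deriv (fun y => S (x, y)) 0) (κ x₀ * deriv (fun y => S (x₀, y)) 0) x₀ := by
  obtain ⟨G, hG, hGS, hG0⟩ := exists_div_y hS h0
  set k := κ x₀ with hk
  have hGd : HasFDerivAt G (fderiv ℂ G (x₀, 0)) (x₀, 0) := hG.differentiableAt.hasFDerivAt
  set D := fderiv ℂ G (x₀, 0) with hD
  -- the curve `y ↦ T (x₀, y)`
  have hY : HasDerivAt (fun y : ℂ => y / (1 - k * y)) 1 0 := by
    have h1 : HasDerivAt (fun y : ℂ => 1 - k * y) (-k) 0 := by
      have := ((hasDerivAt_id (0 : ℂ)).const_mul k).const_sub 1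
      simpa using this
    have h2 := (hasDerivAt_id' (0 : ℂ)).fun_div h1 (by simp)
    refine h2.congr_deriv ?_
    simp
  have hcurve : HasDerivAt (fun y : ℂ => ((x₀ - y / (1 - k * y), y / (1 - k * y)) : ℂ × ℂ))
      (-1, 1) 0 := (hY.const_sub x₀).prodMk hY
  have hc0 : (fun y : ℂ => ((x₀ - y / (1 - k * y), y / (1 - k * y)) : ℂ × ℂ)) 0 = (x₀, 0) := by
    simp
  have hφ : HasDerivAt (fun y : ℂ => G (x₀ - y / (1 - k * y), y / (1 - k * y))) (D (-1, 1)) 0 := by
    have h1 : HasFDerivAt G D ((fun y : ℂ =>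
        ((x₀ - y / (1 - k * y), y / (1 - k * y)) : ℂ × ℂ)) 0) := by rw [hc0]; exact hGd
    exact h1.comp_hasDerivAt (0 : ℂ) hcurve
  have hline : HasDerivAt (fun y : ℂ => ((x₀, y) : ℂ × ℂ)) (0, 1) 0 :=
    (hasDerivAt_const (0 : ℂ) x₀).prodMk (hasDerivAt_id (0 : ℂ))
  have hψ0 : HasDerivAt (fun y : ℂ => G (x₀, y)) (D (0, 1)) 0 := by
    have h1 : HasFDerivAt G D ((fun y : ℂ => ((x₀, y) : ℂ × ℂ)) 0) := hGd
    exact h1.comp_hasDerivAt (0 : ℂ) hline
  have hψ : HasDerivAt (fun y : ℂ => (1 - k * y) * G (x₀, y)) (-k * G (x₀, 0) + D (0, 1)) 0 := by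
    have h1 : HasDerivAt (fun y : ℂ => 1 - k * y) (-k) 0 := by
      have := ((hasDerivAt_id (0 : ℂ)).const_mul k).const_sub 1
      simpa using this
    have h2 := h1.fun_mul hψ0
    refine h2.congr_deriv ?_
    simp
  -- the two functions agree
  have hev : ∀ᶠ y in 𝓝 (0 : ℂ), G (x₀ - y / (1 - k * y), y / (1 - k * y)) =
      (1 - k * y) * G (x₀, y) := by
    have e1 : Tendsto (fun y : ℂ => ((x₀, y) : ℂ × ℂ)) (𝓝 0) (𝓝 (x₀, 0)) := by
      have : Continuous (fun y : ℂ => ((x₀, y) : ℂ × ℂ)) := by fun_prop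
      exact this.tendsto 0
    have e2 : Tendsto (fun y : ℂ => ((x₀ - y / (1 - k * y), y / (1 - k * y)) : ℂ × ℂ)) (𝓝 0)
        (𝓝 (x₀, 0)) := by
      have := hcurve.continuousAt.tendsto
      have e0 : ((x₀ - 0 / (1 - k * 0), 0 / (1 - k * 0)) : ℂ × ℂ) = (x₀, 0) := by simp
      rwa [e0] at this
    have e3 : ∀ᶠ y in 𝓝 (0 : ℂ), 1 - k * y ≠ 0 := by
      have : Continuous fun y : ℂ => 1 - k * y := by fun_prop
      exact this.continuousAt.eventually_ne (by simp)
    filter_upwards [e1.eventually hT, e1.eventually hGS, e2.eventually hGS, e3] with y h1 h2 h3 h4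
    by_cases hy : y = 0
    · rw [hy]
      simp
    · have h5 : S (TT κ (x₀, y)) = S (x₀ - y / (1 - k * y), y / (1 - k * y)) := by
        rw [TT_apply]
      rw [h5, h2, h3, div_mul_eq_mul_div, div_eq_iff h4] at h1
      exact mul_left_cancel₀ hy (by linear_combination h1)
  have h1 : D (-1, 1) = -k * G (x₀, 0) + D (0, 1) :=
    (hφ.congr_of_eventuallyEq (hev.mono fun y hy => hy.symm)).unique hψ
  have h2 : D (1, 0) = k * G (x₀, 0) := by
    have h3 : ((-1 : ℂ), (1 : ℂ)) = (0, 1) - (1, 0) := by simp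
    rw [h3, map_sub] at h1
    linear_combination -h1
  have hx : HasDerivAt (fun x : ℂ => ((x, 0) : ℂ × ℂ)) (1, 0) x₀ :=
    (hasDerivAt_id x₀).prodMk (hasDerivAt_const x₀ (0 : ℂ))
  have h4 : HasDerivAt (fun x : ℂ => G (x, 0)) (D (1, 0)) x₀ := by
    have h5 : HasFDerivAt G D ((fun x : ℂ => ((x, 0) : ℂ × ℂ)) x₀) := hGd
    exact h5.comp_hasDerivAt x₀ hx
  rw [h2, hG0.self_of_nhds] at h4
  exact h4.congr_of_eventuallyEq (hG0.mono fun x hx => hx.symm)

/-- a solution of `f' = κ f` on a disc without zero at one point has no zero -/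
theorem ne_zero_of_ode {κ f : ℂ → ℂ} {c : ℂ} {R : ℝ} (hκ : ContinuousOn κ (ball c R))
    (hf : ∀ x ∈ ball c R, HasDerivAt f (κ x * f x) x) {x₁ : ℂ} (hx₁ : x₁ ∈ ball c R)
    (h1 : f x₁ ≠ 0) {x : ℂ} (hx : x ∈ ball c R) : f x ≠ 0 := by
  intro h0
  apply h1
  set v := x₁ - x with hv
  set γ : ℝ → ℂ := fun t => x + t * v with hγ
  have hγmem : ∀ t ∈ Set.Icc (0 : ℝ) 1, γ t ∈ ball c R := by
    intro t ht
    have := (convex_ball c R) hx hx₁ (by linarith [ht.2] : 0 ≤ 1 - t) ht.1 (by ring)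
    have e : γ t = (1 - t) • x + t • x₁ := by
      simp only [hγ, hv, Complex.real_smul]
      push_cast
      ring
    rw [e]
    exact this
  have hγd : ∀ t, HasDerivAt γ v t := by
    intro t
    have h2 : HasDerivAt (fun t : ℝ => (t : ℂ)) 1 t := Complex.ofRealCLM.hasDerivAt
    have h3 : HasDerivAt (fun t : ℝ => x + (t : ℂ) * v) (1 * v) t := (h2.mul_const v).const_add x
    rw [one_mul] at h3
    exact h3
  have hγc : Continuous γ := by fun_prop
  have hd : ∀ t ∈ Set.Icc (0 : ℝ) 1, HasDerivAt (fun t => f (γ t)) (v * κ (γ t) * f (γ t)) t := by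
    intro t ht
    have := (hf (γ t) (hγmem t ht)).scomp t (hγd t)
    have e : v * κ (γ t) * f (γ t) = v • (κ (γ t) * f (γ t)) := by rw [smul_eq_mul]; ring
    rw [e]
    exact this
  obtain ⟨K, hK⟩ := (isCompact_Icc (a := (0 : ℝ)) (b := 1)).exists_bound_of_continuousOn
    (f := fun t => v * κ (γ t))
    (continuousOn_const.mul (hκ.comp hγc.continuousOn fun t ht => hγmem t ht))
  have hg := norm_le_gronwallBound_of_norm_deriv_right_le (f := fun t => f (γ t))
    (f' := fun t => v * κ (γ t) * f (γ t)) (δ := 0) (K := K) (ε := 0) (a := 0) (b := 1)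
    (fun t ht => (hd t ht).continuousAt.continuousWithinAt)
    (fun t ht => (hd t (Set.Ico_subset_Icc_self ht)).hasDerivWithinAt)
    (by simp [hγ, h0])
    (fun t ht => by
      rw [norm_mul, add_zero]
      exact mul_le_mul_of_nonneg_right (hK t (Set.Ico_subset_Icc_self ht)) (norm_nonneg _))
    1 (by simp)
  have e1 : γ 1 = x₁ := by simp [hγ, hv]
  rw [e1] at hg
  simp only [sub_zero] at hg
  rw [gronwallBound_ε0_δ0] at hg
  exact norm_le_zero_iff.1 hg

/-- **Propagation of good first integrals on discs.** -/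
theorem propag : Propag := by
  -- centred version
  have hcent : ∀ (κ : ℂ → ℂ) (c : ℂ) (R : ℝ), AnalyticOnNhd ℂ κ (ball c R) → Good κ c →
      ∀ x ∈ ball c R, Good κ x := by
    intro κ c R hκ hc x hx
    obtain ⟨-, S, hS, hS0, hSd, hST⟩ := hc
    have hR : 0 < R := dist_nonneg.trans_lt (mem_ball.1 hx)
    obtain ⟨S', h1, h2⟩ := P_disc (g := id) (A := κ) analyticAt_id rfl (by simp) hκ hS
      (by simpa only [TG_id] using hST)
    simp only [TG_id] at h1
    have hcb : c ∈ ball c R := mem_ball_self hR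
    -- `S' (x, 0) = 0`
    have hax : ∀ z ∈ ball c R, AnalyticAt ℂ (fun x : ℂ => S' (x, 0)) z := by
      intro z hz
      exact AnalyticAt.fun_comp (g := S') (f := fun x : ℂ => ((x, 0) : ℂ × ℂ)) (h1 z hz).1
        (analyticAt_id.prod analyticAt_const)
    have h0 : Set.EqOn (fun x : ℂ => S' (x, 0)) 0 (ball c R) := by
      apply AnalyticOnNhd.eqOn_zero_of_preconnected_of_eventuallyEq_zero
        (fun z hz => hax z hz) (convex_ball c R).isPreconnected hcb
      have e1 : Tendsto (fun x : ℂ => ((x, 0) : ℂ × ℂ)) (𝓝 c) (𝓝 (c, 0)) := by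
        have : Continuous (fun x : ℂ => ((x, 0) : ℂ × ℂ)) := by fun_prop
        exact this.tendsto c
      filter_upwards [e1.eventually h2, hS0] with z e2 e3
      rw [e2, e3]
      rfl
    have h0' : ∀ z ∈ ball c R, ∀ᶠ x in 𝓝 z, S' (x, 0) = 0 := by
      intro z hz
      filter_upwards [isOpen_ball.mem_nhds hz] with x hx
      exact h0 hx
    have hder : ∀ z ∈ ball c R, HasDerivAt (fun x => deriv (fun y => S' (x, y)) 0)
        (κ z * deriv (fun y => S' (z, y)) 0) z :=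
      fun z hz => deriv_axis (h1 z hz).1 (h0' z hz) (h1 z hz).2
    have hdc : deriv (fun y => S' (c, y)) 0 ≠ 0 := by
      have e1 : Tendsto (fun y : ℂ => ((c, y) : ℂ × ℂ)) (𝓝 0) (𝓝 (c, 0)) := by
        have : Continuous (fun y : ℂ => ((c, y) : ℂ × ℂ)) := by fun_prop
        exact this.tendsto 0
      have e2 : (fun y => S' (c, y)) =ᶠ[𝓝 0] fun y => S (c, y) := e1.eventually h2
      rw [e2.deriv_eq]
      exact hSd
    exact ⟨hκ x hx, S', (h1 x hx).1, h0' x hx,
      ne_zero_of_ode hκ.continuousOn hder hcb hdc hx, (h1 x hx).2⟩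
  intro κ c R hκ x₁ hx₁ hg₁
  have hsub : ball c R ⊆ {x | Good κ x} := by
    apply (convex_ball c R).isPreconnected.subset_of_closure_inter_subset
    · rw [isOpen_iff_mem_nhds]
      intro x hx
      exact Good.eventually hx
    · exact ⟨x₁, hx₁, hg₁⟩
    · rintro x ⟨hxc, hxb⟩
      obtain ⟨ε, hε, hball⟩ := Metric.isOpen_iff.1 isOpen_ball x hxb
      obtain ⟨y, hy, hyx⟩ := Metric.mem_closure_iff.1 hxc (ε / 2) (by positivity)
      refine hcent κ y (ε / 2) (fun z hz => hκ z (hball ?_)) hy x (mem_ball.2 hyx)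
      rw [mem_ball] at hz ⊢
      have := dist_triangle z y x
      rw [dist_comm y x] at this
      linarith
  exact fun x hx => hsub hx

end Pool.Agent.MP_ae5b4e_an_ND
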