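import Pool.Agent.Lib.MP_ae5b4e_an_LAT.NDMainOf
import Pool.Agent.Lib.MP_ae5b4e_an_LAT.NDPropag
import Pool.Agent.Lib.MP_ae5b4e_an_LAT.NDPlace
import Pool.Agent.Lib.MP_ae5b4e_an_LAT.NDC
import Pool.Agent.Lib.MP_ae5b4e_an_LAT.NDMob
import Pool.Agent.Lib.MP_ae5b4e_an_LAT.NDMobG
import Pool.Agent.Lib.MP_ae5b4e_an_LAT.NDPlaceThm

/-!
# MP_ae5b4e_an: the local theorem

`nd_main`: let `κ` be an analytic germ which satisfies a polynomial equation and assume that the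
map `TT κ` has an analytic first integral near one point of the diagonal.  Then `κ` is a rational
function.
-/

noncomputable section

open Polynomial Filter Topology

namespace Pool.Agent.MP_ae5b4e_an_ND

/-- Every root in Laurent series comes from a place. -/
lemma exists_place' {m : ℂ[X][X]} (hirr : Irreducible (m.map (algebraMap ℂ[X] (RatFunc ℂ))))
    (e : ℂ) {N : ℕ} (hN : 0 < N) {r : LaurentSeries ℂ}
    (hr : (m.map ((aeval (HahnSeries.C e + HahnSeries.single (N : ℤ) (1:ℂ)) :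
        ℂ[X] →ₐ[ℂ] LaurentSeries ℂ) : ℂ[X] →+* LaurentSeries ℂ)).eval r = 0) :
    ∃ δ > 0, ∃ (K : ℕ) (h : ℂ → ℂ), DifferentiableOn ℂ h (Metric.ball 0 δ) ∧
      (∀ w : ℂ, ‖w‖ < δ → HasSum (fun n : ℕ => r.coeff ((n : ℤ) - K) * w ^ n) (h w)) ∧
      (∀ j < -(K : ℤ), r.coeff j = 0) ∧
      ∀ w, w ≠ 0 → ‖w‖ < δ → Reg m (e + w ^ N) ∧ evalEval (e + w ^ N) (h w / w ^ K) m = 0 := by
  obtain ⟨δ, hδ, K, h, h1, h2, h3, h4⟩ := exists_place hirr e hN
    ((aeval (HahnSeries.C e + HahnSeries.single (N : ℤ) (1:ℂ)) :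
        ℂ[X] →ₐ[ℂ] LaurentSeries ℂ) : ℂ[X] →+* LaurentSeries ℂ)
    (fun c => by
      rw [RingHom.coe_coe, aeval_C]
      exact Pool.Agent.LAT.RH.algebraMap_Lau c)
    (by rw [RingHom.coe_coe, aeval_X]) r hr
  exact ⟨δ, hδ, K, h, h1, h2, h3, fun w hw hwδ => h4 w (norm_pos_iff.2 hw) hwδ⟩

/-- An algebraic `κ` whose map of consecutive pairs has an analytic first integral near one point
of the diagonal is rational. -/
theorem nd_main {κ : ℂ → ℂ} {x₀ : ℂ} (hgood : Good κ x₀) {G : ℂ[X][X]} (hG : G ≠ 0)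
    (hrel : ∀ᶠ x in 𝓝 x₀, evalEval x (κ x) G = 0) :
    ∃ A B : ℂ[X], B ≠ 0 ∧ ∀ᶠ x in 𝓝 x₀, κ x * B.eval x = A.eval x :=
  nd_main_of propag (fun hp _ _ hh hκ => nd_place hp hh hκ)
    (fun hirr e _ hN _ hr => exists_place' hirr e hN hr)
    (fun h ha => good_mob h ha) exists_mobpoly_inf nd_count hgood hG hrel

end Pool.Agent.MP_ae5b4e_an_ND
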