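import Pool.Agent.Lib.MP_ae5b4e_an_LAT.NDShiftData

/-!
# MP_ae5b4e_an: the two last steps when the data are only smooth
-/

noncomputable section

open Filter Topology Real Polynomial
open scoped ContDiff

namespace Pool.Agent.MP_ae5b4e_an_ND

/-- A smooth function that vanishes on an open set is flat at the points of its closure. -/
lemma flat_isLittleO {g : ℝ → ℝ} (hg : ContDiff ℝ ∞ g) {x₁ : ℝ}
    (hz : x₁ ∈ closure {x | ∀ᶠ y in 𝓝 x, g y = 0}) (n : ℕ) :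
    g =o[𝓝 x₁] fun x => (x - x₁) ^ n := by
  have h1 : ∀ k : ℕ, iteratedDeriv k g x₁ = 0 := by
    intro k
    have hc : Continuous (iteratedDeriv k g) :=
      hg.continuous_iteratedDeriv k (by exact_mod_cast le_top)
    have hcl : IsClosed {x | iteratedDeriv k g x = 0} := isClosed_eq hc continuous_const
    refine hcl.closure_subset_iff.2 ?_ hz
    intro x hx
    have h2 : g =ᶠ[𝓝 x] fun _ => (0:ℝ) := hx
    change iteratedDeriv k g x = 0
    rw [h2.iteratedDeriv_eq k, iteratedDeriv_const]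
    split_ifs <;> rfl
  have h2 := taylor_isLittleO_univ (f := g) (x₀ := x₁) (n := n)
    (hg.of_le (by exact_mod_cast le_top))
  have h3 : ∀ x, taylorWithinEval g n Set.univ x₁ x = 0 := by
    intro x
    rw [taylor_within_apply]
    refine Finset.sum_eq_zero fun k _ => ?_
    rw [iteratedDerivWithin_univ, h1, smul_zero]
  simpa [h3] using h2

lemma evalEval_eq_sum_real (x y : ℝ) (Q : ℝ[X][X]) :
    evalEval x y Q = ∑ j ∈ Finset.range (Q.natDegree + 1), (Q.coeff j).eval x * y ^ j := by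
  rw [← eval₂_evalRingHom, eval₂_eq_sum_range]
  rfl

/-- A smooth function that satisfies an algebraic relation and vanishes on a nonempty open set
vanishes identically. -/
lemma eq_zero_of_algebraic {g : ℝ → ℝ} (hg : ContDiff ℝ ∞ g) {P : ℝ[X][X]} (hP : P ≠ 0)
    (hrel : ∀ x, evalEval x (g x) P = 0) {x₀ : ℝ} (h0 : ∀ᶠ x in 𝓝 x₀, g x = 0) (x : ℝ) :
    g x = 0 := by
  obtain ⟨Q, hPQ, hQ⟩ := exists_eq_pow_rootMultiplicity_mul_and_not_dvd P hP 0
  set m := rootMultiplicity 0 P with hm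
  have hq0 : Q.coeff 0 ≠ 0 := by
    intro h
    apply hQ
    rw [C_0, sub_zero]
    exact X_dvd_iff.2 h
  have hrel' : ∀ x, g x ^ m * evalEval x (g x) Q = 0 := by
    intro x
    have h1 := hrel x
    rw [hPQ, evalEval_mul, evalEval_pow, C_0, sub_zero, evalEval_X] at h1
    exact h1
  have hQd : ∀ x, evalEval x (g x) Q =
      g x * evalEval x (g x) Q.divX + (Q.coeff 0).eval x := by
    intro x
    conv_lhs => rw [← Q.divX_mul_X_add]
    rw [evalEval_add, evalEval_mul, evalEval_X, evalEval_C, mul_comm]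
  set Z : Set ℝ := {x | ∀ᶠ y in 𝓝 x, g y = 0} with hZ
  have hopen : IsOpen Z := isOpen_setOfPred_eventually_nhds
  have hclosed : IsClosed Z := by
    rw [← closure_subset_iff_isClosed]
    intro x₁ hx₁
    have hgx₁ : g x₁ = 0 := by
      have hcl : IsClosed {x | g x = 0} := isClosed_eq hg.continuous continuous_const
      refine hcl.closure_subset_iff.2 ?_ hx₁
      intro y hy
      have hy' : ∀ᶠ z in 𝓝 y, g z = 0 := hy
      exact hy'.self_of_nhds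
    obtain ⟨q₁, hq, hq₁⟩ := exists_eq_pow_rootMultiplicity_mul_and_not_dvd (Q.coeff 0) hq0 x₁
    set r := rootMultiplicity x₁ (Q.coeff 0) with hr
    have hq₁' : q₁.eval x₁ ≠ 0 := by
      intro h
      exact hq₁ (dvd_iff_isRoot.2 h)
    have hflat := flat_isLittleO hg hx₁ r
    have hR : Continuous fun x => evalEval x (g x) Q.divX := by
      simp only [evalEval_eq_sum_real]
      refine continuous_finsetSum _ fun j _ => ?_
      exact (Polynomial.continuous _).mul (hg.continuous.pow _)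
    set K : ℝ := |evalEval x₁ (g x₁) Q.divX| + 1 with hK
    have hKpos : 0 < K := by positivity
    have e1 : ∀ᶠ x in 𝓝 x₁, |evalEval x (g x) Q.divX| < K :=
      (hR.abs.tendsto x₁).eventually (gt_mem_nhds (by rw [hK]; linarith))
    have e2 : ∀ᶠ x in 𝓝 x₁, |q₁.eval x₁| / 2 < |q₁.eval x| :=
      (q₁.continuous.abs.tendsto x₁).eventually
        (lt_mem_nhds (by have := abs_pos.2 hq₁'; linarith))
    have e3 := hflat.def (c := |q₁.eval x₁| / (4 * K)) (by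
      have := abs_pos.2 hq₁'
      positivity)
    change ∀ᶠ y in 𝓝 x₁, g y = 0
    filter_upwards [e1, e2, e3] with x h1 h2 h3
    by_cases hx : x = x₁
    · rw [hx, hgx₁]
    by_contra hne
    have h4 : evalEval x (g x) Q = 0 := by
      rcases mul_eq_zero.1 (hrel' x) with h | h
      · exact absurd (eq_zero_of_pow_eq_zero h) hne
      · exact h
    rw [hQd, hq, eval_mul, eval_pow, eval_sub, eval_X, eval_C] at h4
    have hd : 0 < |x - x₁| ^ r := by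
      have : 0 < |x - x₁| := abs_pos.2 (sub_ne_zero.2 hx)
      positivity
    have h5 : |(x - x₁) ^ r * q₁.eval x| = |g x * evalEval x (g x) Q.divX| := by
      rw [show (x - x₁) ^ r * q₁.eval x = -(g x * evalEval x (g x) Q.divX) by linarith, abs_neg]
    rw [abs_mul, abs_mul, abs_pow] at h5
    rw [Real.norm_eq_abs, Real.norm_eq_abs, abs_pow] at h3
    have h6 : |g x| * |evalEval x (g x) Q.divX| ≤
        (|q₁.eval x₁| / (4 * K) * |x - x₁| ^ r) * K :=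
      mul_le_mul h3 h1.le (abs_nonneg _) (by positivity)
    have h7 : (|q₁.eval x₁| / (4 * K) * |x - x₁| ^ r) * K = |q₁.eval x₁| / 4 * |x - x₁| ^ r := by
      field_simp
    have h8 : |q₁.eval x₁| / 2 * |x - x₁| ^ r < |x - x₁| ^ r * |q₁.eval x| := by
      rw [mul_comm (|x - x₁| ^ r)]
      exact mul_lt_mul_of_pos_right h2 hd
    have h9 : 0 < |q₁.eval x₁| * |x - x₁| ^ r := mul_pos (abs_pos.2 hq₁') hd
    nlinarith
  have huniv : Z = Set.univ := IsClopen.eq_univ ⟨hclosed, hopen⟩ ⟨x₀, h0⟩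
  have hx : x ∈ Z := by rw [huniv]; trivial
  have hx' : ∀ᶠ y in 𝓝 x, g y = 0 := hx
  exact hx'.self_of_nhds

/-- The local rational expression of a smooth algebraic function holds on the whole conic, with
real polynomials. -/
theorem rational_of_local_smooth {κ : ℝ → ℝ} (hκ : ContDiff ℝ ∞ κ)
    (hper : ∀ θ, κ (θ + 2 * π) = κ θ) {G : ℝ[X][X]} (hG : G ≠ 0)
    (hrel : ∀ θ, cos (θ / 2) ≠ 0 → evalEval (tan (θ / 2)) (κ θ) G = 0)
    {x₀ : ℝ} {A B : ℂ[X]} (hB : B ≠ 0) {kc : ℂ → ℂ}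
    (hkc : ∀ᶠ x : ℝ in 𝓝 x₀, kc (x : ℂ) = (kr κ x : ℂ))
    (h : ∀ᶠ x in 𝓝 (x₀ : ℂ), kc x * B.eval x = A.eval x) :
    ∃ A' B' : ℝ[X], B' ≠ 0 ∧
      ∀ θ, cos (θ / 2) ≠ 0 → κ θ * B'.eval (tan (θ / 2)) = A'.eval (tan (θ / 2)) := by
  -- real polynomials near `x₀`
  obtain ⟨A₁, B₁, hB₁, h₁⟩ : ∃ A₁ B₁ : ℝ[X], B₁ ≠ 0 ∧
      ∀ᶠ x : ℝ in 𝓝 x₀, kr κ x * B₁.eval x = A₁.eval x := by
    obtain ⟨B₁, B₂, hBe⟩ := exists_re_im B
    obtain ⟨A₁, A₂, hAe⟩ := exists_re_im A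
    have h1 : ∀ᶠ x : ℝ in 𝓝 x₀, kc (x : ℂ) * B.eval (x : ℂ) = A.eval (x : ℂ) :=
      (Complex.continuous_ofReal.tendsto x₀).eventually h
    have h2 : ∀ᶠ x : ℝ in 𝓝 x₀, kr κ x * B₁.eval x = A₁.eval x ∧
        kr κ x * B₂.eval x = A₂.eval x := by
      filter_upwards [h1, hkc] with x e1 e2
      rw [e2, hBe, hAe, eval_re_im, eval_re_im] at e1
      have e3 := congrArg Complex.re e1
      have e4 := congrArg Complex.im e1
      simp at e3 e4
      exact ⟨e3, e4⟩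
    by_cases hB₁ : B₁ = 0
    · refine ⟨A₂, B₂, ?_, h2.mono fun x hx => hx.2⟩
      rintro rfl
      apply hB
      rw [hBe, hB₁]
      simp
    · exact ⟨A₁, B₁, hB₁, h2.mono fun x hx => hx.1⟩
  refine ⟨(1 + X ^ 2) * A₁ + 2 * X * B₁, B₁, hB₁, ?_⟩
  set A₂ : ℝ[X] := (1 + X ^ 2) * A₁ + 2 * X * B₁ with hA₂
  set g : ℝ → ℝ := fun x => κ (2 * arctan x) * B₁.eval x - A₂.eval x with hg
  have hgc : ContDiff ℝ ∞ g := by
    have h1 : ContDiff ℝ ∞ (fun x : ℝ => 2 * arctan x) := contDiff_const.mul contDiff_arctan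
    have hpoly : ∀ P : ℝ[X], ContDiff ℝ ∞ (fun x => P.eval x) := by
      intro P
      have := P.contDiff_aeval (𝕜 := ℝ) (n := ∞)
      simpa using this
    exact ((hκ.comp h1).mul (hpoly _)).sub (hpoly _)
  have hg0 : ∀ᶠ x in 𝓝 x₀, g x = 0 := by
    filter_upwards [h₁] with x hx
    simp only [hg, hA₂, eval_add, eval_mul, eval_one, eval_pow, eval_X, eval_ofNat]
    have h2 : kr κ x * (1 + x ^ 2) = κ (2 * arctan x) - 2 * x := by
      unfold kr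
      rw [div_mul_cancel₀ _ (one_add_sq_ne x)]
    rw [← hx]
    linear_combination (-(B₁.eval x)) * h2
  have hrelx : ∀ x : ℝ, evalEval x (κ (2 * arctan x)) G = 0 := by
    intro x
    have h1 : cos (2 * arctan x / 2) ≠ 0 := by
      rw [mul_div_cancel_left₀ _ (two_ne_zero)]
      exact (cos_arctan_pos x).ne'
    have h2 := hrel (2 * arctan x) h1
    rw [mul_div_cancel_left₀ _ (two_ne_zero), tan_arctan] at h2
    exact h2
  have hP : (G.scaleRoots B₁).comp (X + C A₂) ≠ 0 := by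
    rw [Ne, comp_X_add_C_eq_zero_iff]
    exact scaleRoots_ne_zero hG B₁
  have hgrel : ∀ x, evalEval x (g x) ((G.scaleRoots B₁).comp (X + C A₂)) = 0 := by
    intro x
    rw [← eval₂_evalRingHom, eval₂_comp, eval₂_add, eval₂_X, eval₂_C]
    have h1 : g x + evalRingHom x A₂ = evalRingHom x B₁ * κ (2 * arctan x) := by
      simp only [hg, coe_evalRingHom]
      ring
    rw [h1, scaleRoots_eval₂_mul, eval₂_evalRingHom, hrelx, mul_zero]
  have hgz : ∀ x, g x = 0 := eq_zero_of_algebraic hgc hP hgrel hg0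
  intro θ hθ
  obtain ⟨k, hk⟩ := tan_half hθ
  have h3 := hgz (tan (θ / 2))
  have h4 : κ (2 * arctan (tan (θ / 2))) = κ θ := by
    have hp : Function.Periodic κ (2 * π) := hper
    conv_rhs => rw [hk]
    exact (hp.int_mul k _).symm
  simp only [hg] at h3
  rw [h4] at h3
  linarith

/-- The local analytic data make `κ` analytic at a point near the base point. -/
theorem analytic_kappa {S : ℝ → ℝ → ℝ} {κ : ℝ → ℝ} {θ₀ : ℝ} {Sa : ℝ × ℝ → ℝ}
    (hfe : ∀ c ∈ Set.Ioo (0:ℝ) 1, ∀ θ, (S c (θ + 2 * arctan (S c θ)))⁻¹ -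
      κ (θ + 2 * arctan (S c θ)) = (S c θ)⁻¹)
    (hpos : ∀ c ∈ Set.Ioo (0:ℝ) 1, ∀ θ, 0 < S c θ)
    (hlim : ∀ θ, Tendsto (fun c => S c θ) (𝓝[>] 0) (𝓝 0))
    (hSa : AnalyticAt ℝ Sa (0, θ₀))
    (heq : ∀ᶠ q in 𝓝 ((0, θ₀) : ℝ × ℝ), 0 < q.1 → Sa q = S q.1 q.2)
    {p : ℝ → Prop} (hp : ∀ᶠ θ in 𝓝 θ₀, p θ) :
    ∃ θ, p θ ∧ AnalyticAt ℝ κ θ := by
  have hcont : ∀ θ : ℝ, Tendsto (fun c : ℝ => ((c, θ) : ℝ × ℝ)) (𝓝 0) (𝓝 (0, θ)) := by
    intro θ
    have : Continuous (fun c : ℝ => ((c, θ) : ℝ × ℝ)) := by fun_prop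
    exact this.tendsto 0
  have hcont' : Tendsto (fun θ : ℝ => ((0, θ) : ℝ × ℝ)) (𝓝 θ₀) (𝓝 (0, θ₀)) := by
    have : Continuous (fun θ : ℝ => ((0, θ) : ℝ × ℝ)) := by fun_prop
    exact this.tendsto θ₀
  -- `Sa (0, θ) = 0`
  have h0 : ∀ᶠ θ in 𝓝 θ₀, Sa (0, θ) = 0 := by
    filter_upwards [hcont'.eventually heq.eventually_nhds,
      hcont'.eventually hSa.eventually_analyticAt] with θ h1 h2
    have h4 : Tendsto (fun c : ℝ => Sa (c, θ)) (𝓝[>] 0) (𝓝 (Sa (0, θ))) :=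
      (h2.continuousAt.tendsto.comp (hcont θ)).mono_left nhdsWithin_le_nhds
    have h5 : Tendsto (fun c : ℝ => S c θ) (𝓝[>] 0) (𝓝 (Sa (0, θ))) := by
      refine h4.congr' ?_
      filter_upwards [nhdsWithin_le_nhds ((hcont θ).eventually h1), self_mem_nhdsWithin]
        with c hc hc0
      exact hc hc0
    exact tendsto_nhds_unique h5 (hlim θ)
  have h00 : Sa (0, θ₀) = 0 := h0.self_of_nhds
  -- the derivative in `θ`
  have hfd : ∀ q : ℝ × ℝ, DifferentiableAt ℝ Sa q →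
      HasDerivAt (fun θ => Sa (q.1, θ)) (fderiv ℝ Sa q (0, 1)) q.2 := by
    intro q hq
    have h2 : HasDerivAt (fun θ : ℝ => ((q.1, θ) : ℝ × ℝ)) (0, 1) q.2 :=
      (hasDerivAt_const q.2 q.1).prodMk (hasDerivAt_id q.2)
    exact hq.hasFDerivAt.comp_hasDerivAt q.2 h2
  have hfd0 : fderiv ℝ Sa (0, θ₀) (0, 1) = 0 := by
    have h1 := hfd (0, θ₀) hSa.differentiableAt
    have h2 : HasDerivAt (fun θ => Sa (0, θ)) 0 θ₀ :=
      (hasDerivAt_const θ₀ (0:ℝ)).congr_of_eventuallyEq h0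
    exact h1.unique h2
  have hF : ContinuousAt (fun q : ℝ × ℝ => fderiv ℝ Sa q (0, 1)) (0, θ₀) := by
    have h1 : ContinuousAt (fderiv ℝ Sa) (0, θ₀) := hSa.fderiv.continuousAt
    exact h1.clm_apply continuousAt_const
  have hF2 : ∀ᶠ q in 𝓝 ((0, θ₀) : ℝ × ℝ),
      1 + 2 * (1 / (1 + Sa q ^ 2) * fderiv ℝ Sa q (0, 1)) ≠ 0 := by
    have h1 : ContinuousAt (fun q : ℝ × ℝ =>
        1 + 2 * (1 / (1 + Sa q ^ 2) * fderiv ℝ Sa q (0, 1))) (0, θ₀) := by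
      refine continuousAt_const.add (continuousAt_const.mul ?_)
      refine ContinuousAt.mul ?_ hF
      refine continuousAt_const.div (continuousAt_const.add (hSa.continuousAt.pow 2)) ?_
      positivity
    refine h1.eventually_ne ?_
    rw [hfd0, h00]
    norm_num
  -- the next point
  set f : ℝ → ℝ × ℝ := fun c => (c, θ₀ + 2 * arctan (Sa (c, θ₀))) with hf
  have hft : Tendsto f (𝓝 0) (𝓝 (0, θ₀)) := by
    have h1 : Tendsto (fun c : ℝ => Sa (c, θ₀)) (𝓝 0) (𝓝 0) := by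
      have := hSa.continuousAt.tendsto.comp (hcont θ₀)
      rwa [h00] at this
    have h2 : Tendsto (fun c : ℝ => θ₀ + 2 * arctan (Sa (c, θ₀))) (𝓝 0) (𝓝 θ₀) := by
      have h3 := ((continuous_arctan.tendsto 0).comp h1).const_mul 2
      have h4 := h3.const_add θ₀
      rw [arctan_zero, mul_zero, add_zero] at h4
      exact h4
    exact tendsto_id.prodMk_nhds h2
  have hft2 : Tendsto (fun c => (f c).2) (𝓝 0) (𝓝 θ₀) := by
    have := (continuous_snd.tendsto ((0, θ₀) : ℝ × ℝ)).comp hft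
    exact this
  have hev : ∀ᶠ c in 𝓝[>] (0:ℝ), 0 < c ∧ c < 1 ∧ AnalyticAt ℝ Sa (c, θ₀) ∧
      AnalyticAt ℝ Sa (f c) ∧ (∀ᶠ q in 𝓝 ((c, θ₀) : ℝ × ℝ), 0 < q.1 → Sa q = S q.1 q.2) ∧
      (∀ᶠ q in 𝓝 (f c), 0 < q.1 → Sa q = S q.1 q.2) ∧
      1 + 2 * (1 / (1 + Sa (c, θ₀) ^ 2) * fderiv ℝ Sa (c, θ₀) (0, 1)) ≠ 0 ∧ p (f c).2 := by
    filter_upwards [self_mem_nhdsWithin, nhdsWithin_le_nhds (gt_mem_nhds one_pos),
      nhdsWithin_le_nhds ((hcont θ₀).eventually hSa.eventually_analyticAt),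
      nhdsWithin_le_nhds (hft.eventually hSa.eventually_analyticAt),
      nhdsWithin_le_nhds ((hcont θ₀).eventually heq.eventually_nhds),
      nhdsWithin_le_nhds (hft.eventually heq.eventually_nhds),
      nhdsWithin_le_nhds ((hcont θ₀).eventually hF2),
      nhdsWithin_le_nhds (hft2.eventually hp)] with c h1 h2 h3 h4 h5 h6 h7 h8
    exact ⟨h1, h2, h3, h4, h5, h6, h7, h8⟩
  obtain ⟨c, hc0, hc1, ha, hb, he, hfe', hne, hpc⟩ := hev.exists
  have hc : c ∈ Set.Ioo (0:ℝ) 1 := ⟨hc0, hc1⟩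
  refine ⟨(f c).2, hpc, ?_⟩
  set T : ℝ → ℝ := fun θ => θ + 2 * arctan (Sa (c, θ)) with hT
  have hline : ∀ θ : ℝ, AnalyticAt ℝ (fun θ : ℝ => ((c, θ) : ℝ × ℝ)) θ := fun θ =>
    analyticAt_const.prod analyticAt_id
  have hSc : AnalyticAt ℝ (fun θ => Sa (c, θ)) θ₀ :=
    AnalyticAt.comp (f := fun θ : ℝ => ((c, θ) : ℝ × ℝ)) ha (hline θ₀)
  have hTa : AnalyticAt ℝ T θ₀ := by
    refine analyticAt_id.add (analyticAt_const.mul ?_)
    exact (analyticAt_arctan _).comp hSc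
  have hSc' : AnalyticAt ℝ (fun θ => Sa (c, T θ)) θ₀ := by
    refine AnalyticAt.comp (f := fun θ : ℝ => ((c, T θ) : ℝ × ℝ)) ?_ (analyticAt_const.prod hTa)
    exact hb
  have hTd : deriv T θ₀ ≠ 0 := by
    have h1 : HasDerivAt (fun θ => Sa (c, θ)) (fderiv ℝ Sa (c, θ₀) (0, 1)) θ₀ :=
      hfd (c, θ₀) ha.differentiableAt
    have h2 : HasDerivAt T
        (1 + 2 * (1 / (1 + Sa (c, θ₀) ^ 2) * fderiv ℝ Sa (c, θ₀) (0, 1))) θ₀ :=
      (hasDerivAt_id θ₀).add (h1.arctan.const_mul 2)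
    rw [h2.deriv]
    exact hne
  have hSeq : ∀ᶠ θ in 𝓝 θ₀, Sa (c, θ) = S c θ := by
    have h1 : Tendsto (fun θ : ℝ => ((c, θ) : ℝ × ℝ)) (𝓝 θ₀) (𝓝 (c, θ₀)) := by
      have : Continuous (fun θ : ℝ => ((c, θ) : ℝ × ℝ)) := by fun_prop
      exact this.tendsto θ₀
    filter_upwards [h1.eventually he] with θ h2
    exact h2 hc0
  have hSeq' : ∀ᶠ θ in 𝓝 θ₀, Sa (c, T θ) = S c (T θ) := by
    have h1 : Tendsto (fun θ : ℝ => ((c, T θ) : ℝ × ℝ)) (𝓝 θ₀) (𝓝 (f c)) := by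
      have h2 : ContinuousAt (fun θ : ℝ => ((c, T θ) : ℝ × ℝ)) θ₀ :=
        continuousAt_const.prodMk hTa.continuousAt
      exact h2
    filter_upwards [h1.eventually hfe'] with θ h2
    exact h2 hc0
  have hcomp : AnalyticAt ℝ (κ ∘ T) θ₀ := by
    have h1 : AnalyticAt ℝ (fun θ => (Sa (c, T θ))⁻¹ - (Sa (c, θ))⁻¹) θ₀ := by
      refine (hSc'.inv ?_).sub (hSc.inv ?_)
      · rw [hSeq'.self_of_nhds]
        exact (hpos c hc _).ne'
      · rw [hSeq.self_of_nhds]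
        exact (hpos c hc _).ne'
    refine h1.congr ?_
    filter_upwards [hSeq, hSeq'] with θ e1 e2
    have e3 := hfe c hc θ
    have e4 : θ + 2 * arctan (S c θ) = T θ := by
      simp only [hT]
      rw [e1]
    rw [e4] at e3
    rw [e1, e2, Function.comp_apply]
    linarith
  exact (analyticAt_comp_iff_of_deriv_ne_zero hTa hTd).1 hcomp

/-- The base point, with the analyticity of `κ` there. -/
theorem exists_base_smooth {S : ℝ → ℝ → ℝ} {κ : ℝ → ℝ} {θ₀ : ℝ} {Sa : ℝ × ℝ → ℝ}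
    (hfe : ∀ c ∈ Set.Ioo (0:ℝ) 1, ∀ θ, (S c (θ + 2 * arctan (S c θ)))⁻¹ -
      κ (θ + 2 * arctan (S c θ)) = (S c θ)⁻¹)
    (hpos : ∀ c ∈ Set.Ioo (0:ℝ) 1, ∀ θ, 0 < S c θ)
    (hlim : ∀ θ, Tendsto (fun c => S c θ) (𝓝[>] 0) (𝓝 0))
    (hper : ∀ c ∈ Set.Ioo (0:ℝ) 1, ∀ θ, S c (θ + 2 * π) = S c θ)
    (hκper : ∀ θ, κ (θ + 2 * π) = κ θ)
    (hSa : AnalyticAt ℝ Sa (0, θ₀))
    (heq : ∀ᶠ q in 𝓝 ((0, θ₀) : ℝ × ℝ), 0 < q.1 → Sa q = S q.1 q.2)
    (hd : 0 < deriv (fun c => Sa (c, θ₀)) 0) :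
    ∃ (x₀ : ℝ) (Sb : ℝ × ℝ → ℝ), AnalyticAt ℝ κ (2 * arctan x₀) ∧
      AnalyticAt ℝ Sb (0, 2 * arctan x₀) ∧
      (∀ᶠ q in 𝓝 ((0, 2 * arctan x₀) : ℝ × ℝ), 0 < q.1 → Sb q = S q.1 q.2) ∧
      0 < deriv (fun c => Sb (c, 2 * arctan x₀)) 0 := by
  have hcont : ∀ θ₁ : ℝ, Tendsto (fun θ : ℝ => ((0, θ) : ℝ × ℝ)) (𝓝 θ₁) (𝓝 (0, θ₁)) := by
    intro θ₁
    have : Continuous (fun θ : ℝ => ((0, θ) : ℝ × ℝ)) := by fun_prop
    exact this.tendsto θ₁
  -- the derivative is positive near `θ₀`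
  have hder : ∀ᶠ θ in 𝓝 θ₀, 0 < deriv (fun c => Sa (c, θ)) 0 := by
    have hF : ContinuousAt (fun q : ℝ × ℝ => fderiv ℝ Sa q (1, 0)) (0, θ₀) := by
      have h1 : ContinuousAt (fderiv ℝ Sa) (0, θ₀) := hSa.fderiv.continuousAt
      exact h1.clm_apply continuousAt_const
    have heq' : ∀ θ, DifferentiableAt ℝ Sa (0, θ) →
        deriv (fun c => Sa (c, θ)) 0 = fderiv ℝ Sa (0, θ) (1, 0) := by
      intro θ hθ
      have h2 : HasDerivAt (fun c : ℝ => ((c, θ) : ℝ × ℝ)) (1, 0) 0 :=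
        (hasDerivAt_id (0:ℝ)).prodMk (hasDerivAt_const (0:ℝ) θ)
      exact (hθ.hasFDerivAt.comp_hasDerivAt (0:ℝ) h2).deriv
    have h3 : 0 < fderiv ℝ Sa (0, θ₀) (1, 0) := by
      rw [← heq' θ₀ hSa.differentiableAt]
      exact hd
    filter_upwards [(hcont θ₀).eventually (hF.eventually (lt_mem_nhds h3)),
      (hcont θ₀).eventually hSa.eventually_analyticAt] with θ hθ hθa
    rw [heq' θ hθa.differentiableAt]
    exact hθ
  -- a point near `θ₀` where `κ` is analytic as well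
  have hall : ∀ᶠ θ in 𝓝 θ₀, ∀ᶠ t in 𝓝 θ, AnalyticAt ℝ Sa (0, t) ∧
      (∀ᶠ q in 𝓝 ((0, t) : ℝ × ℝ), 0 < q.1 → Sa q = S q.1 q.2) ∧
      0 < deriv (fun c => Sa (c, t)) 0 := by
    refine Filter.Eventually.eventually_nhds ?_
    exact ((hcont θ₀).eventually hSa.eventually_analyticAt).and
      (((hcont θ₀).eventually heq.eventually_nhds).and hder)
  obtain ⟨θ₁, hθ₁, hκ₁⟩ := analytic_kappa hfe hpos hlim hSa heq hall
  have hcos : ∃ᶠ θ in 𝓝 θ₁, cos (θ / 2) ≠ 0 := by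
    intro h
    have h0 : ∀ᶠ θ in 𝓝 θ₁, cos (θ / 2) = 0 := h.mono fun θ hθ => not_not.1 hθ
    have h1 := h0.self_of_nhds
    have h2 : HasDerivAt (fun θ : ℝ => cos (θ / 2)) (-sin (θ₁ / 2) * (1 / 2)) θ₁ := by
      have h3 : HasDerivAt (fun θ : ℝ => θ / 2) (1 / 2) θ₁ := (hasDerivAt_id θ₁).div_const 2
      exact h3.cos
    have h4 : HasDerivAt (fun θ : ℝ => cos (θ / 2)) 0 θ₁ :=
      (hasDerivAt_const θ₁ (0:ℝ)).congr_of_eventuallyEq h0
    have h5 := h2.unique h4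
    have h6 : sin (θ₁ / 2) = 0 := by linarith
    have h7 := sin_sq_add_cos_sq (θ₁ / 2)
    rw [h6, h1] at h7
    norm_num at h7
  obtain ⟨θ, hc, ⟨h1, h2, h3⟩, hκ⟩ := (hcos.and_eventually
    (hθ₁.and hκ₁.eventually_analyticAt)).exists
  obtain ⟨k, hk⟩ := tan_half hc
  set x₀ := tan (θ / 2) with hx₀
  set τ : ℝ := k * (2 * π) with hτ
  have htr : Tendsto (fun q : ℝ × ℝ => ((q.1, q.2 + τ) : ℝ × ℝ)) (𝓝 (0, 2 * arctan x₀))
      (𝓝 (0, θ)) := by
    have : Continuous (fun q : ℝ × ℝ => ((q.1, q.2 + τ) : ℝ × ℝ)) := by fun_prop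
    have h := this.tendsto (0, 2 * arctan x₀)
    simp only at h
    rw [← hk] at h
    exact h
  refine ⟨x₀, fun q => Sa (q.1, q.2 + τ), ?_, ?_, ?_, ?_⟩
  · have h4 : AnalyticAt ℝ (fun t : ℝ => t + τ) (2 * arctan x₀) :=
      analyticAt_id.add analyticAt_const
    have h5 : AnalyticAt ℝ κ ((fun t : ℝ => t + τ) (2 * arctan x₀)) := by
      simp only
      rw [← hk]
      exact hκ
    have h6 : AnalyticAt ℝ (fun t => κ (t + τ)) (2 * arctan x₀) :=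
      AnalyticAt.comp (f := fun t : ℝ => t + τ) h5 h4
    refine h6.congr (Eventually.of_forall fun t => ?_)
    have hp : Function.Periodic κ (2 * π) := hκper
    exact hp.int_mul k t
  · have h4 : AnalyticAt ℝ (fun q : ℝ × ℝ => ((q.1, q.2 + τ) : ℝ × ℝ)) (0, 2 * arctan x₀) :=
      analyticAt_fst.prod (analyticAt_snd.add analyticAt_const)
    have h5 : AnalyticAt ℝ Sa ((fun q : ℝ × ℝ => ((q.1, q.2 + τ) : ℝ × ℝ)) (0, 2 * arctan x₀)) := by
      simp only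
      rw [← hk]
      exact h1
    exact AnalyticAt.comp (f := fun q : ℝ × ℝ => ((q.1, q.2 + τ) : ℝ × ℝ)) h5 h4
  · have hlt : ∀ᶠ q in 𝓝 ((0, 2 * arctan x₀) : ℝ × ℝ), q.1 < 1 := by
      have : Tendsto (fun q : ℝ × ℝ => q.1) (𝓝 (0, 2 * arctan x₀)) (𝓝 0) :=
        continuous_fst.tendsto' _ _ rfl
      exact this.eventually (gt_mem_nhds one_pos)
    filter_upwards [htr.eventually h2, hlt] with q hq hq1 hq0
    rw [hq hq0]
    have hp : Function.Periodic (S q.1) (2 * π) := hper q.1 ⟨hq0, hq1⟩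
    exact hp.int_mul k q.2
  · simp only
    rw [← hk]
    exact h3

end Pool.Agent.MP_ae5b4e_an_ND
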