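import Mathlib

/-!
# Complexification of a real analytic function of two real variables
-/

open Filter Topology

namespace Pool.Agent.MP_ae5b4e_an_Cplx

/-- the unit vectors -/
def ev (n : ℕ) (s : Finset (Fin n)) (i : Fin n) : ℝ × ℝ := if i ∈ s then (1, 0) else (0, 1)

/-- the coefficient functionals -/
noncomputable def lv (n : ℕ) (s : Finset (Fin n)) (i : Fin n) : ℂ × ℂ →L[ℂ] ℂ :=
  if i ∈ s then ContinuousLinearMap.fst ℂ ℂ ℂ else ContinuousLinearMap.snd ℂ ℂ ℂ

/-- the complexification of a formal multilinear series -/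
noncomputable def cplx (p : FormalMultilinearSeries ℝ (ℝ × ℝ) ℝ) :
    FormalMultilinearSeries ℂ (ℂ × ℂ) ℂ := fun n =>
  ∑ s : Finset (Fin n), ((p n (ev n s) : ℝ) : ℂ) •
    (ContinuousMultilinearMap.mkPiAlgebra ℂ (Fin n) ℂ).compContinuousLinearMap (lv n s)

theorem cplx_apply (p : FormalMultilinearSeries ℝ (ℝ × ℝ) ℝ) (n : ℕ) (u v : ℂ) :
    cplx p n (fun _ => (u, v)) = ∑ s : Finset (Fin n), ((p n (ev n s) : ℝ) : ℂ) *
      ∏ i : Fin n, (if i ∈ s then u else v) := by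
  unfold cplx
  rw [sum_apply]
  apply Finset.sum_congr rfl
  intro s _
  rw [smul_apply, smul_eq_mul,
    ContinuousMultilinearMap.compContinuousLinearMap_apply,
    ContinuousMultilinearMap.mkPiAlgebra_apply]
  congr 1
  apply Finset.prod_congr rfl
  intro i _
  unfold lv
  split_ifs <;> rfl

theorem cplx_real (p : FormalMultilinearSeries ℝ (ℝ × ℝ) ℝ) (n : ℕ) (u v : ℝ) :
    cplx p n (fun _ => ((u : ℂ), (v : ℂ))) = ((p n (fun _ => (u, v)) : ℝ) : ℂ) := by
  rw [cplx_apply]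
  have h1 : (fun _ : Fin n => ((u, v) : ℝ × ℝ)) =
      (fun _ : Fin n => u • ((1:ℝ), (0:ℝ))) + (fun _ : Fin n => v • ((0:ℝ), (1:ℝ))) := by
    funext i
    simp
  rw [h1, ContinuousMultilinearMap.map_add_univ, Complex.ofReal_sum]
  apply Finset.sum_congr rfl
  intro s _
  have h2 : s.piecewise (fun _ : Fin n => u • ((1:ℝ), (0:ℝ))) (fun _ : Fin n => v • ((0:ℝ), (1:ℝ)))
      = fun i => (if i ∈ s then u else v) • ev n s i := by
    funext i
    unfold ev
    by_cases hi : i ∈ s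
    · simp [Finset.piecewise, hi]
    · simp [Finset.piecewise, hi]
  rw [h2, ContinuousMultilinearMap.map_smul_univ, smul_eq_mul, Complex.ofReal_mul,
    Complex.ofReal_prod, mul_comm]
  congr 1
  apply Finset.prod_congr rfl
  intro i _
  split_ifs <;> rfl

theorem norm_cplx_le (p : FormalMultilinearSeries ℝ (ℝ × ℝ) ℝ) (n : ℕ) :
    ‖cplx p n‖ ≤ 2 ^ n * ‖p n‖ := by
  unfold cplx
  refine (norm_sum_le _ _).trans ?_
  have h : ∀ s ∈ (Finset.univ : Finset (Finset (Fin n))),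
      ‖((p n (ev n s) : ℝ) : ℂ) •
        (ContinuousMultilinearMap.mkPiAlgebra ℂ (Fin n) ℂ).compContinuousLinearMap (lv n s)‖
      ≤ ‖p n‖ := by
    intro s _
    rw [norm_smul]
    have h1 : ‖((p n (ev n s) : ℝ) : ℂ)‖ ≤ ‖p n‖ := by
      rw [Complex.norm_real]
      refine ((p n).le_opNorm _).trans ?_
      have : ∏ i, ‖ev n s i‖ = 1 := by
        apply Finset.prod_eq_one
        intro i _
        unfold ev
        split_ifs <;> simp [Prod.norm_def]
      rw [this, mul_one]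
    have h2 : ‖(ContinuousMultilinearMap.mkPiAlgebra ℂ (Fin n) ℂ).compContinuousLinearMap
        (lv n s)‖ ≤ 1 := by
      refine (ContinuousMultilinearMap.norm_compContinuousLinearMap_le _ _).trans ?_
      have h3 : ‖ContinuousMultilinearMap.mkPiAlgebra ℂ (Fin n) ℂ‖ ≤ 1 :=
        ContinuousMultilinearMap.norm_mkPiAlgebra.le
      have h4 : ∏ i, ‖lv n s i‖ ≤ 1 := by
        apply Finset.prod_le_one
        · intro i _; exact norm_nonneg _
        · intro i _
          unfold lv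
          split_ifs
          · exact ContinuousLinearMap.norm_fst_le ℂ ℂ ℂ
          · exact ContinuousLinearMap.norm_snd_le ℂ ℂ ℂ
      exact mul_le_one₀ h3 (Finset.prod_nonneg fun i _ => norm_nonneg _) h4
    calc _ ≤ ‖p n‖ * 1 := mul_le_mul h1 h2 (norm_nonneg _) (norm_nonneg _)
      _ = ‖p n‖ := mul_one _
  refine (Finset.sum_le_sum h).trans ?_
  rw [Finset.sum_const, Finset.card_univ, Fintype.card_finset, Fintype.card_fin, nsmul_eq_mul]
  push_cast
  exact le_rfl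

theorem cplx_radius {p : FormalMultilinearSeries ℝ (ℝ × ℝ) ℝ} (hp : 0 < p.radius) :
    0 < (cplx p).radius := by
  obtain ⟨r, hr0, hr⟩ := ENNReal.lt_iff_exists_nnreal_btwn.1 hp
  have hr0' : 0 < r := by exact_mod_cast hr0
  obtain ⟨C, -, hC⟩ := p.norm_mul_pow_le_of_lt_radius hr
  have h : ((r / 2 : NNReal) : ENNReal) ≤ (cplx p).radius := by
    apply (cplx p).le_radius_of_bound C
    intro n
    have h1 := norm_cplx_le p n
    have h2 := hC n
    have h3 : (0:ℝ) < r := hr0'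
    calc ‖cplx p n‖ * ((r / 2 : NNReal) : ℝ) ^ n ≤ (2 ^ n * ‖p n‖) * ((r / 2 : NNReal) : ℝ) ^ n :=
          mul_le_mul_of_nonneg_right h1 (by positivity)
      _ = ‖p n‖ * (r : ℝ) ^ n := by
          push_cast
          rw [div_pow]
          field_simp
      _ ≤ C := h2
  refine lt_of_lt_of_le ?_ h
  exact_mod_cast half_pos hr0'

/-- A real analytic function of two real variables extends to a complex analytic function. -/
theorem exists_extension {f : ℝ × ℝ → ℝ} {a b : ℝ} (hf : AnalyticAt ℝ f (a, b)) :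
    ∃ F : ℂ × ℂ → ℂ, AnalyticAt ℂ F ((a : ℂ), (b : ℂ)) ∧
      ∀ᶠ q in 𝓝 (a, b), F ((q.1 : ℂ), (q.2 : ℂ)) = ((f q : ℝ) : ℂ) := by
  obtain ⟨p, hp⟩ := hf
  obtain ⟨r, hr⟩ := hp
  have hrad := cplx_radius hr.radius_pos
  have h1 := (cplx p).hasFPowerSeriesOnBall hrad
  have h2 := h1.comp_sub (((a : ℂ), (b : ℂ)) : ℂ × ℂ)
  rw [zero_add] at h2
  refine ⟨fun z => (cplx p).sum (z - ((a : ℂ), (b : ℂ))), ⟨_, ⟨_, h2⟩⟩, ?_⟩
  have h3 : ∀ᶠ q in 𝓝 (a, b), q ∈ Metric.eball (a, b) r := Metric.eball_mem_nhds _ hr.r_pos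
  filter_upwards [h3] with q hq
  have h4 := hr.hasSum_sub hq
  have h5 : HasSum (fun n : ℕ => ((p n (fun _ => q - (a, b)) : ℝ) : ℂ)) ((f q : ℝ) : ℂ) :=
    Complex.hasSum_ofReal.2 h4
  show (cplx p).sum _ = _
  unfold FormalMultilinearSeries.sum
  rw [← h5.tsum_eq]
  apply tsum_congr
  intro n
  have h6 := cplx_real p n (q.1 - a) (q.2 - b)
  have h7 : (fun _ : Fin n => (((q.1 : ℂ), (q.2 : ℂ)) : ℂ × ℂ) - ((a : ℂ), (b : ℂ))) =
      fun _ => (((q.1 - a : ℝ) : ℂ), ((q.2 - b : ℝ) : ℂ)) := by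
    funext i
    simp
  rw [h7, h6]
  rfl

end Pool.Agent.MP_ae5b4e_an_Cplx
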