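import Pool.Agent.Lib.MP_ae5b4e_an_LAT.NDGeoX1
import Pool.Agent.Lib.MP_ae5b4e_an_LAT.Cplx
import Pool.Agent.Lib.MP_ae5b4e_an_LAT.NDDefs
import Pool.Agent.Lib.MP_ae5b4e_an.Geometry

/-!
# From an analytic foliation near a point of the conic to `Good`

In the half angle coordinate `x = tan (θ / 2)` the consecutive tangent lines through the vertices of
a polygon inscribed in a leaf satisfy `1 / (x⁺ - x) - 1 / (x - x⁻) = (κ θ - 2 x) / (1 + x ^ 2)`.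
-/

noncomputable section

open Real Set Filter Topology
open Pool.Agent.MP_ae5b4e_an Pool.Agent.MP_ae5b4e_an_ND

namespace Pool.Agent.MP_ae5b4e_an_GeoX

/-- the kick in the half angle coordinate -/
def kick (κ : ℝ → ℝ) (x : ℝ) : ℝ := (κ (2 * arctan x) - 2 * x) / (1 + x ^ 2)

/-- The next tangent line, in the half angle coordinate. -/
theorem next_half {S : ℝ → ℝ → ℝ} {c x y : ℝ} (hD : 0 < 1 + x ^ 2 + x * y)
    (hS : S c (2 * arctan (x + y)) = -y / (1 + x ^ 2 + x * y)) :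
    next S c (2 * arctan (x + y)) = 2 * arctan x := by
  unfold next
  rw [hS, ← mul_add]
  congr 1
  rw [Real.arctan_add]
  · congr 1
    have h1 : (1 : ℝ) - (x + y) * (-y / (1 + x ^ 2 + x * y)) =
        (1 + (x + y) ^ 2) / (1 + x ^ 2 + x * y) := by
      field_simp
      ring
    have h2 : (0:ℝ) < 1 + (x + y) ^ 2 := by positivity
    rw [h1]
    field_simp
    ring
  · rw [mul_div_assoc', div_lt_one hD]
    nlinarith [sq_nonneg (x + y)]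

/-- The map of consecutive pairs, on the real leaves. -/
theorem kick_step {S : ℝ → ℝ → ℝ} {κ : ℝ → ℝ} {c x y : ℝ} (hpos : ∀ θ, 0 < S c θ)
    (hproj : ∀ θ s s', s < 0 → 0 < s' → tangentPoint θ s ∈ leaf S c →
      tangentPoint θ s' ∈ leaf S c → s⁻¹ + s'⁻¹ = κ θ)
    (hD : 0 < 1 + x ^ 2 + x * y) (hy : y < 0)
    (hS : S c (2 * arctan (x + y)) = -y / (1 + x ^ 2 + x * y))
    (hxs : 0 < 1 - x * S c (2 * arctan x)) :
    1 - kick κ x * y ≠ 0 ∧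
      y / (1 - kick κ x * y) =
        -(S c (2 * arctan x) * (1 + x ^ 2)) / (1 - x * S c (2 * arctan x)) ∧
      -(y / (1 - kick κ x * y)) /
        (1 + (x - y / (1 - kick κ x * y)) ^ 2 +
          (x - y / (1 - kick κ x * y)) * (y / (1 - kick κ x * y))) = S c (2 * arctan x) := by
  have h1 := next_eq hpos hproj (2 * arctan (x + y))
  rw [next_half hD hS, hS] at h1
  set s := S c (2 * arctan x) with hs
  have hs0 : 0 < s := hpos _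
  set K := κ (2 * arctan x) with hK
  have hx2 : (0:ℝ) < 1 + x ^ 2 := by positivity
  have hk : kick κ x = (K - 2 * x) / (1 + x ^ 2) := rfl
  have hyne : y ≠ 0 := hy.ne
  have hKe : K = s⁻¹ + (1 + x ^ 2 + x * y) / y := by
    have : (-y / (1 + x ^ 2 + x * y))⁻¹ = -((1 + x ^ 2 + x * y) / y) := by
      rw [inv_div, div_neg]
    rw [this] at h1
    linarith
  have e1 : 1 - kick κ x * y = -(y * (1 - x * s)) / (s * (1 + x ^ 2)) := by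
    rw [hk, hKe]
    field_simp
    ring
  have e2 : 1 - kick κ x * y ≠ 0 := by
    rw [e1]
    apply div_ne_zero
    · exact neg_ne_zero.2 (mul_ne_zero hyne hxs.ne')
    · positivity
  have e3 : y / (1 - kick κ x * y) = -(s * (1 + x ^ 2)) / (1 - x * s) := by
    rw [e1]
    have := hxs.ne'
    field_simp
  refine ⟨e2, e3, ?_⟩
  rw [e3]
  have h4 := hxs.ne'
  have e4 : 1 + (x - -(s * (1 + x ^ 2)) / (1 - x * s)) ^ 2 +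
      (x - -(s * (1 + x ^ 2)) / (1 - x * s)) * (-(s * (1 + x ^ 2)) / (1 - x * s)) =
      (1 + x ^ 2) / (1 - x * s) := by
    field_simp
    ring
  rw [e4]
  have h5 : 1 - s * x ≠ 0 := by rwa [mul_comm s x]
  field_simp

/-- Points near the conic lie on leaves with a small parameter. -/
theorem exists_leaf {S : ℝ → ℝ → ℝ}
    (hcont : ContinuousOn (fun q : ℝ × ℝ => S q.1 q.2) (Ioo 0 1 ×ˢ univ))
    (hpos : ∀ c ∈ Ioo (0:ℝ) 1, ∀ θ, 0 < S c θ)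
    (hlim : ∀ θ, Tendsto (fun c => S c θ) (𝓝[>] 0) (𝓝 0)) {x₀ : ℝ}
    {Q : ℝ × (ℝ × ℝ) → Prop} (hQ : ∀ᶠ z in 𝓝[>] (0:ℝ) ×ˢ 𝓝 (x₀, (0:ℝ)), Q z) :
    ∀ᶠ p in 𝓝 (x₀, (0:ℝ)), p.2 < 0 → ∃ c ∈ Ioo (0:ℝ) 1, Q (c, p) ∧
      0 < 1 + p.1 ^ 2 + p.1 * p.2 ∧
      S c (2 * arctan (p.1 + p.2)) = -p.2 / (1 + p.1 ^ 2 + p.1 * p.2) := by
  rw [eventually_prod_iff] at hQ
  obtain ⟨A, hA, B, hB, hAB⟩ := hQ
  obtain ⟨ε, hε0, hε⟩ := (mem_nhdsGT_iff_exists_Ioo_subset).1 hA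
  set c₁ : ℝ := min ε 1 / 2 with hc₁
  have hmin : 0 < min ε 1 := lt_min hε0 one_pos
  have hc₁0 : 0 < c₁ := by positivity
  have hc₁ε : c₁ < ε := by
    have := min_le_left ε 1
    have : c₁ < min ε 1 := by rw [hc₁]; linarith
    linarith
  have hc₁1 : c₁ < 1 := by
    have := min_le_right ε 1
    have : c₁ < min ε 1 := by rw [hc₁]; linarith
    linarith
  have hSc : Continuous (S c₁) :=
    hcont.comp_continuous (f := fun θ => (c₁, θ)) (by fun_prop) fun θ => ⟨⟨hc₁0, hc₁1⟩, mem_univ _⟩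
  have hden : ∀ᶠ p : ℝ × ℝ in 𝓝 (x₀, (0:ℝ)), 0 < 1 + p.1 ^ 2 + p.1 * p.2 := by
    have h1 : Continuous (fun p : ℝ × ℝ => 1 + p.1 ^ 2 + p.1 * p.2) := by fun_prop
    refine (h1.tendsto (x₀, (0:ℝ))).eventually (lt_mem_nhds ?_)
    simp only [mul_zero, add_zero]
    positivity
  have hlt : ∀ᶠ p : ℝ × ℝ in 𝓝 (x₀, (0:ℝ)),
      -p.2 / (1 + p.1 ^ 2 + p.1 * p.2) < S c₁ (2 * arctan (p.1 + p.2)) := by
    have h1 : ContinuousAt (fun p : ℝ × ℝ => -p.2 / (1 + p.1 ^ 2 + p.1 * p.2)) (x₀, 0) := by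
      apply ContinuousAt.div (by fun_prop) (by fun_prop)
      simp only [mul_zero, add_zero]
      positivity
    have h2 : ContinuousAt (fun p : ℝ × ℝ => S c₁ (2 * arctan (p.1 + p.2))) (x₀, 0) := by
      have : Continuous (fun p : ℝ × ℝ => 2 * arctan (p.1 + p.2)) :=
        continuous_const.mul (Real.continuous_arctan.comp (by fun_prop))
      exact (hSc.comp this).continuousAt
    apply h1.eventually_lt h2
    simp only [neg_zero, zero_div]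
    exact hpos c₁ ⟨hc₁0, hc₁1⟩ _
  filter_upwards [hden, hlt, hB] with p h1 h2 h3 hp2
  set θ := 2 * arctan (p.1 + p.2) with hθ
  set s := -p.2 / (1 + p.1 ^ 2 + p.1 * p.2) with hs
  have hs0 : 0 < s := div_pos (by linarith) h1
  -- a small parameter
  have h4 : ∀ᶠ c in 𝓝[>] (0:ℝ), S c θ < s := (hlim θ).eventually_lt_const hs0
  have h5 : ∀ᶠ c in 𝓝[>] (0:ℝ), c < c₁ := by
    exact mem_nhdsWithin_of_mem_nhds (Iio_mem_nhds hc₁0)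
  obtain ⟨c₂, ⟨h6, h7⟩, h8⟩ := ((h4.and h5).and self_mem_nhdsWithin).exists
  have hc₂0 : 0 < c₂ := h8
  have hco : ContinuousOn (fun c => S c θ) (Icc c₂ c₁) := by
    apply hcont.comp (f := fun c => (c, θ)) (by fun_prop)
    intro c hc
    exact ⟨⟨hc₂0.trans_le hc.1, hc.2.trans_lt hc₁1⟩, mem_univ _⟩
  obtain ⟨c, hc, hcs⟩ := intermediate_value_Icc h7.le hco ⟨h6.le, h2.le⟩
  have hc0 : 0 < c := hc₂0.trans_le hc.1
  exact ⟨c, ⟨hc0, hc.2.trans_lt hc₁1⟩, hAB (hε ⟨hc0, hc.2.trans_lt hc₁ε⟩) h3, h1, hcs⟩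

/-- GEO: an analytic foliation near a point of the conic gives a good point. -/
theorem geo_main {S : ℝ → ℝ → ℝ} {κ : ℝ → ℝ}
    (hcont : ContinuousOn (fun q : ℝ × ℝ => S q.1 q.2) (Ioo 0 1 ×ˢ univ))
    (hpos : ∀ c ∈ Ioo (0:ℝ) 1, ∀ θ, 0 < S c θ)
    (hlim : ∀ θ, Tendsto (fun c => S c θ) (𝓝[>] 0) (𝓝 0))
    (hproj : ∀ c ∈ Ioo (0:ℝ) 1, ∀ θ s s', s < 0 → 0 < s' → tangentPoint θ s ∈ leaf S c →
      tangentPoint θ s' ∈ leaf S c → s⁻¹ + s'⁻¹ = κ θ)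
    {x₀ : ℝ} {G : ℝ × ℝ → ℝ} {φ : ℝ → ℝ} (hφ : Tendsto φ (𝓝[>] 0) (𝓝 0))
    (hG : AnalyticAt ℝ G (0, 2 * arctan x₀))
    (hGd : deriv (fun t => G (t, 2 * arctan x₀)) 0 ≠ 0)
    (hGS : ∀ᶠ q : ℝ × ℝ in 𝓝 (0, 2 * arctan x₀), 0 < q.1 → S q.1 q.2 = G (φ q.1, q.2)) :
    ∃ kc : ℂ → ℂ, Good kc x₀ ∧ ∀ᶠ x : ℝ in 𝓝 x₀, kc x = ((kick κ x : ℝ) : ℂ) := by
  -- the function in the half angle coordinate
  set g : ℝ × ℝ → ℝ := fun q => G (q.1, 2 * arctan q.2) with hg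
  have hat : AnalyticAt ℝ (fun q : ℝ × ℝ => (q.1, 2 * arctan q.2)) (0, x₀) := by
    apply AnalyticAt.prod analyticAt_fst
    apply AnalyticAt.mul analyticAt_const
    have h1 : AnalyticAt ℝ Real.arctan x₀ :=
      (Real.contDiff_arctan (n := ⊤)).contDiffAt.analyticAt
    exact AnalyticAt.fun_comp (g := Real.arctan) (f := fun q : ℝ × ℝ => q.2) (by exact h1)
      analyticAt_snd
  have hga : AnalyticAt ℝ g (0, x₀) :=
    AnalyticAt.fun_comp (g := G) (f := fun q : ℝ × ℝ => (q.1, 2 * arctan q.2)) hG hat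
  obtain ⟨Gc, hGc, hGcr⟩ := Pool.Agent.MP_ae5b4e_an_Cplx.exists_extension hga
  rw [Complex.ofReal_zero] at hGc
  -- the value at `0`
  have hGan := hG.eventually_analyticAt
  have hG0 : ∀ᶠ θ in 𝓝 (2 * arctan x₀), G (0, θ) = 0 := by
    have h1 : Tendsto (fun θ : ℝ => ((0:ℝ), θ)) (𝓝 (2 * arctan x₀)) (𝓝 (0, 2 * arctan x₀)) := by
      have : Continuous (fun θ : ℝ => ((0:ℝ), θ)) := by fun_prop
      exact this.tendsto _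
    filter_upwards [h1.eventually hGan, h1.eventually hGS.eventually_nhds] with θ h2 h3
    have h4 : Tendsto (fun c : ℝ => (φ c, θ)) (𝓝[>] 0) (𝓝 (0, θ)) := by
      exact hφ.prodMk_nhds tendsto_const_nhds
    have h5 : Tendsto (fun c : ℝ => G (φ c, θ)) (𝓝[>] 0) (𝓝 (G (0, θ))) :=
      h2.continuousAt.tendsto.comp h4
    have h6 : Tendsto (fun c : ℝ => (c, θ)) (𝓝[>] 0) (𝓝 ((0:ℝ), θ)) := by
      have : Continuous (fun c : ℝ => (c, θ)) := by fun_prop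
      exact (this.tendsto 0).mono_left nhdsWithin_le_nhds
    refine tendsto_nhds_unique (h5.congr' ?_) (hlim θ)
    filter_upwards [h6.eventually h3, self_mem_nhdsWithin] with c h7 h8
    exact (h7 h8).symm
  have hat2 : Tendsto (fun x : ℝ => 2 * arctan x) (𝓝 x₀) (𝓝 (2 * arctan x₀)) := by
    have : Continuous (fun x : ℝ => 2 * arctan x) := continuous_const.mul Real.continuous_arctan
    exact this.tendsto _
  have hGc0 : ∀ᶠ x in 𝓝 (x₀ : ℂ), Gc (0, x) = 0 := by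
    apply real_zero
    · exact hGc.comp₂ analyticAt_const analyticAt_id
    · have h1 : Tendsto (fun x : ℝ => ((0:ℝ), x)) (𝓝 x₀) (𝓝 (0, x₀)) := by
        have : Continuous (fun x : ℝ => ((0:ℝ), x)) := by fun_prop
        exact this.tendsto _
      filter_upwards [h1.eventually hGcr, hat2.eventually hG0] with x h2 h3
      rw [Complex.ofReal_zero] at h2
      rw [h2]
      show ((G (0, 2 * arctan x) : ℝ) : ℂ) = 0
      rw [h3, Complex.ofReal_zero]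
  -- the derivative
  have hGcd : fderiv ℂ Gc (0, (x₀ : ℂ)) (1, 0) ≠ 0 := by
    have h1 := (hasDerivAt_fst_slice hGc.differentiableAt)
    have h1' : HasDerivAt (fun t : ℂ => Gc (t, (x₀ : ℂ))) (fderiv ℂ Gc (0, (x₀ : ℂ)) (1, 0))
        ((0:ℝ) : ℂ) := by rw [Complex.ofReal_zero]; exact h1
    have h2 := h1'.comp_ofReal
    have h3 : HasDerivAt (fun t : ℝ => G (t, 2 * arctan x₀))
        (deriv (fun t : ℝ => G (t, 2 * arctan x₀)) 0) 0 := by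
      apply DifferentiableAt.hasDerivAt
      have h4 : DifferentiableAt ℝ G (0, 2 * arctan x₀) := hG.differentiableAt
      have h5 : HasFDerivAt G (fderiv ℝ G (0, 2 * arctan x₀)) (0, 2 * arctan x₀) :=
        h4.hasFDerivAt
      have h6 : HasDerivAt (fun t : ℝ => ((t, 2 * arctan x₀) : ℝ × ℝ)) (1, 0) 0 :=
        (hasDerivAt_id (0:ℝ)).prodMk (hasDerivAt_const _ _)
      exact (h5.comp_hasDerivAt (0:ℝ) h6).differentiableAt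
    have h4 := h3.ofReal_comp
    have h5 : (fun t : ℝ => Gc ((t : ℂ), (x₀ : ℂ))) =ᶠ[𝓝 0]
        fun t : ℝ => ((G (t, 2 * arctan x₀) : ℝ) : ℂ) := by
      have h6 : Tendsto (fun t : ℝ => (t, x₀)) (𝓝 0) (𝓝 ((0:ℝ), x₀)) := by
        have : Continuous (fun t : ℝ => (t, x₀)) := by fun_prop
        exact this.tendsto _
      filter_upwards [h6.eventually hGcr] with t ht
      exact ht
    have h6 := h2.unique (h4.congr_of_eventuallyEq h5)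
    rw [h6]
    exact_mod_cast hGd
  obtain ⟨I, Y, hIa, hYa, hI0, hY0, hIz, hId, hI, hY⟩ := geo_local hGc hGc0 hGcd
  -- limits
  have hphi : Tendsto (fun z : ℝ × (ℝ × ℝ) => φ z.1) (𝓝[>] (0:ℝ) ×ˢ 𝓝 (x₀, (0:ℝ))) (𝓝 0) :=
    hφ.comp tendsto_fst
  have hp : Tendsto (fun z : ℝ × (ℝ × ℝ) => z.2) (𝓝[>] (0:ℝ) ×ˢ 𝓝 (x₀, (0:ℝ)))
      (𝓝 (x₀, (0:ℝ))) := tendsto_snd
  have hc : Tendsto (fun z : ℝ × (ℝ × ℝ) => z.1) (𝓝[>] (0:ℝ) ×ˢ 𝓝 (x₀, (0:ℝ))) (𝓝 0) :=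
    tendsto_nhdsWithin_iff.1 tendsto_fst |>.1
  have hc0 : ∀ᶠ z : ℝ × (ℝ × ℝ) in 𝓝[>] (0:ℝ) ×ˢ 𝓝 (x₀, (0:ℝ)), 0 < z.1 :=
    (tendsto_nhdsWithin_iff.1 (tendsto_fst (f := 𝓝[>] (0:ℝ)) (g := 𝓝 (x₀, (0:ℝ))))).2
  have hX : Tendsto (fun z : ℝ × (ℝ × ℝ) => z.2.1) (𝓝[>] (0:ℝ) ×ˢ 𝓝 (x₀, (0:ℝ))) (𝓝 x₀) :=
    (continuous_fst.tendsto (x₀, (0:ℝ))).comp hp
  have hYt : Tendsto (fun z : ℝ × (ℝ × ℝ) => z.2.2) (𝓝[>] (0:ℝ) ×ˢ 𝓝 (x₀, (0:ℝ))) (𝓝 0) :=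
    (continuous_snd.tendsto (x₀, (0:ℝ))).comp hp
  have hXY : Tendsto (fun z : ℝ × (ℝ × ℝ) => z.2.1 + z.2.2) (𝓝[>] (0:ℝ) ×ˢ 𝓝 (x₀, (0:ℝ)))
      (𝓝 x₀) := by simpa using hX.add hYt
  have hSG : ∀ X : ℝ × (ℝ × ℝ) → ℝ, Tendsto X (𝓝[>] (0:ℝ) ×ˢ 𝓝 (x₀, (0:ℝ))) (𝓝 x₀) →
      ∀ᶠ z : ℝ × (ℝ × ℝ) in 𝓝[>] (0:ℝ) ×ˢ 𝓝 (x₀, (0:ℝ)),
        S z.1 (2 * arctan (X z)) = G (φ z.1, 2 * arctan (X z)) := by
    intro X hX
    have h1 : Tendsto (fun z : ℝ × (ℝ × ℝ) => (z.1, 2 * arctan (X z)))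
        (𝓝[>] (0:ℝ) ×ˢ 𝓝 (x₀, (0:ℝ))) (𝓝 (0, 2 * arctan x₀)) := by
      exact hc.prodMk_nhds (hat2.comp hX)
    filter_upwards [h1.eventually hGS, hc0] with z h2 h3
    exact h2 h3
  have hSGc : ∀ X : ℝ × (ℝ × ℝ) → ℝ, Tendsto X (𝓝[>] (0:ℝ) ×ˢ 𝓝 (x₀, (0:ℝ))) (𝓝 x₀) →
      ∀ᶠ z : ℝ × (ℝ × ℝ) in 𝓝[>] (0:ℝ) ×ˢ 𝓝 (x₀, (0:ℝ)),
        Gc ((φ z.1 : ℂ), (X z : ℂ)) = ((S z.1 (2 * arctan (X z)) : ℝ) : ℂ) := by
    intro X hX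
    have h1 : Tendsto (fun z : ℝ × (ℝ × ℝ) => (φ z.1, X z))
        (𝓝[>] (0:ℝ) ×ˢ 𝓝 (x₀, (0:ℝ))) (𝓝 (0, x₀)) := by
      exact hphi.prodMk_nhds hX
    filter_upwards [h1.eventually hGcr, hSG X hX] with z h2 h3
    rw [h2, h3]
  have hs : Tendsto (fun z : ℝ × (ℝ × ℝ) => S z.1 (2 * arctan z.2.1))
      (𝓝[>] (0:ℝ) ×ˢ 𝓝 (x₀, (0:ℝ))) (𝓝 0) := by
    have h1 : Tendsto (fun z : ℝ × (ℝ × ℝ) => (φ z.1, 2 * arctan z.2.1))
        (𝓝[>] (0:ℝ) ×ˢ 𝓝 (x₀, (0:ℝ))) (𝓝 (0, 2 * arctan x₀)) := by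
      exact hphi.prodMk_nhds (hat2.comp hX)
    have h2 := hG.continuousAt.tendsto.comp h1
    rw [hG0.self_of_nhds] at h2
    apply h2.congr'
    filter_upwards [hSG _ hX] with z h3
    exact h3.symm
  have hden : Tendsto (fun z : ℝ × (ℝ × ℝ) => 1 - z.2.1 * S z.1 (2 * arctan z.2.1))
      (𝓝[>] (0:ℝ) ×ˢ 𝓝 (x₀, (0:ℝ))) (𝓝 1) := by
    simpa using tendsto_const_nhds.sub (hX.mul hs)
  have hy' : Tendsto (fun z : ℝ × (ℝ × ℝ) =>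
      -(S z.1 (2 * arctan z.2.1) * (1 + z.2.1 ^ 2)) / (1 - z.2.1 * S z.1 (2 * arctan z.2.1)))
      (𝓝[>] (0:ℝ) ×ˢ 𝓝 (x₀, (0:ℝ))) (𝓝 0) := by
    have h1 : Tendsto (fun z : ℝ × (ℝ × ℝ) =>
        -(S z.1 (2 * arctan z.2.1) * (1 + z.2.1 ^ 2)) / (1 - z.2.1 * S z.1 (2 * arctan z.2.1)))
        (𝓝[>] (0:ℝ) ×ˢ 𝓝 (x₀, (0:ℝ))) (𝓝 (-(0 * (1 + x₀ ^ 2)) / 1)) :=
      ((hs.mul ((tendsto_const_nhds (x := (1:ℝ))).add (hX.pow 2))).neg).div hden one_ne_zero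
    simpa using h1
  have hcast : ∀ X : ℝ × (ℝ × ℝ) → ℝ, ∀ a : ℝ, Tendsto X (𝓝[>] (0:ℝ) ×ˢ 𝓝 (x₀, (0:ℝ))) (𝓝 a) →
      Tendsto (fun z => ((X z : ℝ) : ℂ)) (𝓝[>] (0:ℝ) ×ˢ 𝓝 (x₀, (0:ℝ))) (𝓝 (a : ℂ)) :=
    fun X a h => (Complex.continuous_ofReal.tendsto a).comp h
  have hcast0 : ∀ X : ℝ × (ℝ × ℝ) → ℝ, Tendsto X (𝓝[>] (0:ℝ) ×ˢ 𝓝 (x₀, (0:ℝ))) (𝓝 0) →
      Tendsto (fun z => ((X z : ℝ) : ℂ)) (𝓝[>] (0:ℝ) ×ˢ 𝓝 (x₀, (0:ℝ))) (𝓝 0) :=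
    fun X h => by simpa using hcast X 0 h
  have htrip : ∀ X Z T : ℝ × (ℝ × ℝ) → ℝ, Tendsto X (𝓝[>] (0:ℝ) ×ˢ 𝓝 (x₀, (0:ℝ))) (𝓝 x₀) →
      Tendsto Z (𝓝[>] (0:ℝ) ×ˢ 𝓝 (x₀, (0:ℝ))) (𝓝 0) →
      Tendsto T (𝓝[>] (0:ℝ) ×ˢ 𝓝 (x₀, (0:ℝ))) (𝓝 0) →
      Tendsto (fun z => ((((X z : ℝ) : ℂ), ((Z z : ℝ) : ℂ)), ((T z : ℝ) : ℂ)))
        (𝓝[>] (0:ℝ) ×ˢ 𝓝 (x₀, (0:ℝ))) (𝓝 (((x₀ : ℂ), (0:ℂ)), (0:ℂ))) := by
    intro X Z T h1 h2 h3
    exact ((hcast X x₀ h1).prodMk_nhds (hcast0 Z h2)).prodMk_nhds (hcast0 T h3)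
  have q3 := (htrip _ _ _ hX hYt hphi).eventually hI
  have q5 := (htrip _ _ _ (by simpa using hX.sub hy') hy' hphi).eventually hI
  have q6 := (htrip _ _ _ hX hYt hy').eventually hY
  have q1 := hSGc _ hXY
  have q2 := hSGc _ hX
  have q4 := hden.eventually (lt_mem_nhds (show (0:ℝ) < 1 by norm_num))
  have hreal : ∀ᶠ p : ℝ × ℝ in 𝓝 (x₀, (0:ℝ)), p.2 < 0 →
      1 - kick κ p.1 * p.2 ≠ 0 ∧
      Y ((p.1 : ℂ), (p.2 : ℂ)) = ((p.2 / (1 - kick κ p.1 * p.2) : ℝ) : ℂ) ∧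
      I (((p.1 : ℂ) - ((p.2 / (1 - kick κ p.1 * p.2) : ℝ) : ℂ)),
        ((p.2 / (1 - kick κ p.1 * p.2) : ℝ) : ℂ)) = I ((p.1 : ℂ), (p.2 : ℂ)) := by
    have hQ := ((((q1.and q2).and q3).and q4).and q5).and q6
    filter_upwards [exists_leaf hcont hpos hlim hQ] with p h1 hp2
    obtain ⟨c, hc01, ⟨⟨⟨⟨⟨h2, h3⟩, h4⟩, h5⟩, h6⟩, h7⟩, hD, hSc⟩ := h1 hp2
    obtain ⟨e1, e2, e3⟩ := kick_step (κ := κ) (hpos c hc01) (hproj c hc01) hD hp2 hSc h5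
    simp only [← e2] at h6 h7
    set y' : ℝ := p.2 / (1 - kick κ p.1 * p.2) with hy'def
    -- the value of `I` at `p`
    have e4 : I ((p.1 : ℂ), (p.2 : ℂ)) = (φ c : ℂ) := by
      apply h4.1
      have : Gc ((φ c : ℂ), (p.1 : ℂ) + (p.2 : ℂ)) =
          ((S c (2 * arctan (p.1 + p.2)) : ℝ) : ℂ) := by
        rw [← h2]; push_cast; rfl
      show Gc ((φ c : ℂ), (p.1 : ℂ) + (p.2 : ℂ)) +
        (p.2 : ℂ) / (1 + (p.1 : ℂ) ^ 2 + (p.1 : ℂ) * (p.2 : ℂ)) = 0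
      rw [this, hSc]
      push_cast
      ring
    have e5 : I ((p.1 : ℂ) - (y' : ℂ), (y' : ℂ)) = (φ c : ℂ) := by
      have e6 := h6.1
      simp only [Complex.ofReal_sub] at e6
      apply e6
      rw [sub_add_cancel, h3, ← e3]
      push_cast
      ring
    refine ⟨e1, ?_, ?_⟩
    · apply h7.1
      show I ((p.1 : ℂ) - (y' : ℂ), (y' : ℂ)) - I ((p.1 : ℂ), (p.2 : ℂ)) = 0
      rw [e4, e5, sub_self]
    · rw [e4, e5]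
  -- a fixed real second coordinate
  have hYan : ∀ᶠ p : ℝ × ℝ in 𝓝 (x₀, (0:ℝ)), AnalyticAt ℂ Y ((p.1 : ℂ), (p.2 : ℂ)) := by
    have h1 : Tendsto (fun p : ℝ × ℝ => (((p.1 : ℂ), (p.2 : ℂ)) : ℂ × ℂ)) (𝓝 (x₀, (0:ℝ)))
        (𝓝 ((x₀ : ℂ), (0:ℂ))) := by
      have : Continuous (fun p : ℝ × ℝ => (((p.1 : ℂ), (p.2 : ℂ)) : ℂ × ℂ)) := by fun_prop
      have h2 := this.tendsto (x₀, (0:ℝ))
      simpa using h2
    exact h1.eventually hYa.eventually_analyticAt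
  obtain ⟨y₁, hy₁, hy₁0⟩ : ∃ y₁ : ℝ, (AnalyticAt ℂ Y ((x₀ : ℂ), (y₁ : ℂ)) ∧
      ∀ᶠ p : ℝ × ℝ in 𝓝 (x₀, y₁), p.2 < 0 →
      1 - kick κ p.1 * p.2 ≠ 0 ∧
      Y ((p.1 : ℂ), (p.2 : ℂ)) = ((p.2 / (1 - kick κ p.1 * p.2) : ℝ) : ℂ) ∧
      I (((p.1 : ℂ) - ((p.2 / (1 - kick κ p.1 * p.2) : ℝ) : ℂ)),
        ((p.2 / (1 - kick κ p.1 * p.2) : ℝ) : ℂ)) = I ((p.1 : ℂ), (p.2 : ℂ))) ∧ y₁ < 0 := by
    have h1 : Tendsto (fun y : ℝ => (x₀, y)) (𝓝[<] 0) (𝓝 (x₀, (0:ℝ))) := by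
      have : Continuous (fun y : ℝ => (x₀, y)) := by fun_prop
      exact (this.tendsto 0).mono_left nhdsWithin_le_nhds
    exact (((h1.eventually hYan).and (h1.eventually hreal.eventually_nhds)).and
      self_mem_nhdsWithin).exists
  obtain ⟨hy₁a, hy₁r⟩ := hy₁
  have hpt := hy₁r.self_of_nhds hy₁0
  have hYne : Y ((x₀ : ℂ), (y₁ : ℂ)) ≠ 0 := by
    rw [hpt.2.1]
    exact_mod_cast div_ne_zero hy₁0.ne hpt.1
  set kc : ℂ → ℂ := fun x => 1 / (y₁ : ℂ) - 1 / Y (x, (y₁ : ℂ)) with hkc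
  have hkca : AnalyticAt ℂ kc x₀ := by
    have h1 : AnalyticAt ℂ (fun x : ℂ => Y (x, (y₁ : ℂ))) x₀ :=
      hy₁a.comp₂ analyticAt_id analyticAt_const
    exact analyticAt_const.sub (analyticAt_const.div h1 hYne)
  have hkcr : ∀ᶠ x : ℝ in 𝓝 x₀, kc x = ((kick κ x : ℝ) : ℂ) := by
    have h1 : Tendsto (fun x : ℝ => (x, y₁)) (𝓝 x₀) (𝓝 (x₀, y₁)) := by
      have : Continuous (fun x : ℝ => (x, y₁)) := by fun_prop
      exact this.tendsto _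
    filter_upwards [h1.eventually hy₁r] with x hx
    obtain ⟨e1, e2, -⟩ := hx hy₁0
    show 1 / (y₁ : ℂ) - 1 / Y ((x : ℂ), (y₁ : ℂ)) = _
    rw [e2]
    have h2 : (1 / y₁ - 1 / (y₁ / (1 - kick κ x * y₁)) : ℝ) = kick κ x := by
      have := hy₁0.ne
      rw [one_div_div, div_sub_div_same, sub_sub_cancel, mul_div_assoc, div_self this, mul_one]
    have h3 : 1 / (y₁ : ℂ) - 1 / ((y₁ / (1 - kick κ x * y₁) : ℝ) : ℂ) =
        ((1 / y₁ - 1 / (y₁ / (1 - kick κ x * y₁)) : ℝ) : ℂ) := by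
      rw [Complex.ofReal_sub, Complex.ofReal_div 1 y₁, Complex.ofReal_div 1 (y₁ / _),
        Complex.ofReal_one]
    rw [h3, h2]
  refine ⟨kc, ⟨hkca, I, hIa, hIz, hId, ?_⟩, hkcr⟩
  -- invariance
  have hden1 : AnalyticAt ℂ (fun p : ℂ × ℂ => 1 - kc p.1 * p.2) ((x₀ : ℂ), (0:ℂ)) := by
    apply analyticAt_const.sub
    apply AnalyticAt.mul _ analyticAt_snd
    exact AnalyticAt.fun_comp (g := kc) (f := fun p : ℂ × ℂ => p.1) hkca analyticAt_fst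
  have hyT : AnalyticAt ℂ (fun p : ℂ × ℂ => p.2 / (1 - kc p.1 * p.2)) ((x₀ : ℂ), (0:ℂ)) := by
    apply analyticAt_snd.div hden1
    simp
  have hTT : AnalyticAt ℂ (TT kc) ((x₀ : ℂ), (0:ℂ)) := (analyticAt_fst.sub hyT).prod hyT
  have hD : AnalyticAt ℂ (fun p : ℂ × ℂ => I (TT kc p) - I p) ((x₀ : ℂ), ((0:ℝ) : ℂ)) := by
    rw [Complex.ofReal_zero]
    refine AnalyticAt.sub (AnalyticAt.fun_comp (g := I) (f := TT kc) ?_ hTT) hIa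
    have : TT kc ((x₀ : ℂ), (0:ℂ)) = ((x₀ : ℂ), (0:ℂ)) := by
      rw [TT_apply]
      simp
    rw [this]
    exact hIa
  have hzero := real_zero2 hD (by
    have h1 : Tendsto (fun p : ℝ × ℝ => p.1) (𝓝 (x₀, (0:ℝ))) (𝓝 x₀) :=
      continuous_fst.tendsto _
    filter_upwards [hreal, h1.eventually hkcr] with p h2 h3 hp2
    obtain ⟨-, -, e3⟩ := h2 hp2
    show I (TT kc ((p.1 : ℂ), (p.2 : ℂ))) - I ((p.1 : ℂ), (p.2 : ℂ)) = 0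
    rw [TT_apply, h3]
    push_cast at e3
    rw [e3, sub_self])
  rw [Complex.ofReal_zero] at hzero
  filter_upwards [hzero] with p hp
  exact sub_eq_zero.1 hp

theorem frequently_cos_half (θ₀ : ℝ) : ∃ᶠ θ in 𝓝 θ₀, cos (θ / 2) ≠ 0 := by
  intro h
  have h1 : ∀ᶠ θ in 𝓝 θ₀, cos (θ / 2) = 0 := by
    filter_upwards [h] with θ hθ
    exact not_not.1 hθ
  have h2 : HasDerivAt (fun θ : ℝ => cos (θ / 2)) 0 θ₀ :=
    (hasDerivAt_const θ₀ (0:ℝ)).congr_of_eventuallyEq h1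
  have h3 : HasDerivAt (fun θ : ℝ => cos (θ / 2)) (-sin (θ₀ / 2) * (1 / 2)) θ₀ :=
    ((hasDerivAt_id θ₀).div_const 2).cos
  have h4 := h2.unique h3
  have h5 : cos (θ₀ / 2) = 0 := h1.self_of_nhds
  have h6 := sin_sq_add_cos_sq (θ₀ / 2)
  have h7 : sin (θ₀ / 2) = 0 := by linarith
  rw [h5, h7] at h6
  norm_num at h6

theorem exists_half {θ : ℝ} (hθ : cos (θ / 2) ≠ 0) :
    ∃ x : ℝ, ∃ k : ℤ, 2 * arctan x = θ - k * (2 * π) := by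
  obtain ⟨m, ⟨hm1, hm2⟩, -⟩ := existsUnique_sub_zsmul_mem_Ico pi_pos (θ / 2) (-(π / 2))
  rw [zsmul_eq_mul] at hm1 hm2
  have h1 : θ / 2 - m * π ≠ -(π / 2) := by
    intro h
    have h2 : cos (θ / 2 - m * π) = 0 := by rw [h, cos_neg, cos_pi_div_two]
    rw [cos_sub_int_mul_pi] at h2
    rcases mul_eq_zero.1 h2 with h3 | h3
    · exact absurd h3 (zpow_ne_zero _ (by norm_num))
    · exact hθ h3
  refine ⟨tan (θ / 2 - m * π), m, ?_⟩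
  rw [arctan_tan (lt_of_le_of_ne hm1 (Ne.symm h1)) (by linarith)]
  ring

/-- GEO, general form: an analytic foliation near one point of the conic gives a good point. -/
theorem geo {S : ℝ → ℝ → ℝ} {κ : ℝ → ℝ}
    (hcont : ContinuousOn (fun q : ℝ × ℝ => S q.1 q.2) (Ioo 0 1 ×ˢ univ))
    (hpos : ∀ c ∈ Ioo (0:ℝ) 1, ∀ θ, 0 < S c θ)
    (hper : ∀ c ∈ Ioo (0:ℝ) 1, ∀ θ, S c (θ + 2 * π) = S c θ)
    (hlim : ∀ θ, Tendsto (fun c => S c θ) (𝓝[>] 0) (𝓝 0))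
    (hproj : ∀ c ∈ Ioo (0:ℝ) 1, ∀ θ s s', s < 0 → 0 < s' → tangentPoint θ s ∈ leaf S c →
      tangentPoint θ s' ∈ leaf S c → s⁻¹ + s'⁻¹ = κ θ)
    {θ₀ : ℝ} {G : ℝ × ℝ → ℝ} {φ : ℝ → ℝ} (hφ : Tendsto φ (𝓝[>] 0) (𝓝 0))
    (hG : AnalyticAt ℝ G (0, θ₀)) (hGd : deriv (fun t => G (t, θ₀)) 0 ≠ 0)
    (hGS : ∀ᶠ q : ℝ × ℝ in 𝓝 (0, θ₀), 0 < q.1 → S q.1 q.2 = G (φ q.1, q.2)) :
    ∃ (x₀ : ℝ) (kc : ℂ → ℂ), Good kc x₀ ∧
      ∀ᶠ x : ℝ in 𝓝 x₀, kc x = ((kick κ x : ℝ) : ℂ) := by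
  have ht : Tendsto (fun θ : ℝ => ((0:ℝ), θ)) (𝓝 θ₀) (𝓝 (0, θ₀)) := by
    have : Continuous (fun θ : ℝ => ((0:ℝ), θ)) := by fun_prop
    exact this.tendsto _
  have hslice : ∀ θ, DifferentiableAt ℝ G (0, θ) →
      deriv (fun t => G (t, θ)) 0 = fderiv ℝ G (0, θ) (1, 0) := by
    intro θ h
    have h6 : HasDerivAt (fun t : ℝ => ((t, θ) : ℝ × ℝ)) (1, 0) 0 :=
      (hasDerivAt_id (0:ℝ)).prodMk (hasDerivAt_const _ _)
    exact (h.hasFDerivAt.comp_hasDerivAt (0:ℝ) h6).deriv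
  have e1 := ht.eventually hG.eventually_analyticAt
  have e2 := ht.eventually hGS.eventually_nhds
  have e3 : ∀ᶠ θ in 𝓝 θ₀, fderiv ℝ G (0, θ) (1, 0) ≠ 0 := by
    have h1 : ContinuousAt (fun q : ℝ × ℝ => fderiv ℝ G q (1, 0)) (0, θ₀) :=
      hG.fderiv.continuousAt.clm_apply continuousAt_const
    have h2 : fderiv ℝ G (0, θ₀) (1, 0) ≠ 0 := by
      rw [← hslice θ₀ hG.differentiableAt]; exact hGd
    exact ht.eventually (h1.eventually_ne h2)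
  obtain ⟨θ₁, hcos, ⟨h1, h2⟩, h3⟩ :=
    ((frequently_cos_half θ₀).and_eventually ((e1.and e2).and e3)).exists
  obtain ⟨x₁, k, hx₁⟩ := exists_half hcos
  have hθ₁ : 2 * arctan x₁ + k * (2 * π) = θ₁ := by linarith
  have hperk : ∀ c ∈ Ioo (0:ℝ) 1, ∀ θ, S c (θ + k * (2 * π)) = S c θ := by
    intro c hc θ
    have : Function.Periodic (S c) (2 * π) := hper c hc
    exact this.int_mul k θ
  refine ⟨x₁, geo_main (G := fun q => G (q.1, q.2 + k * (2 * π))) (φ := φ) (κ := κ)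
    hcont hpos hlim hproj hφ ?_ ?_ ?_⟩
  · have h4 : AnalyticAt ℝ (fun q : ℝ × ℝ => (q.1, q.2 + k * (2 * π))) (0, 2 * arctan x₁) :=
      analyticAt_fst.prod (analyticAt_snd.add analyticAt_const)
    refine AnalyticAt.fun_comp (g := G)
      (f := fun q : ℝ × ℝ => (q.1, q.2 + k * (2 * π))) ?_ h4
    simp only [hθ₁]
    exact h1
  · simp only [hθ₁]
    rw [hslice θ₁ h1.differentiableAt]
    exact h3
  · have h4 : Tendsto (fun q : ℝ × ℝ => (q.1, q.2 + k * (2 * π))) (𝓝 (0, 2 * arctan x₁))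
        (𝓝 (0, θ₁)) := by
      have : Continuous (fun q : ℝ × ℝ => (q.1, q.2 + k * (2 * π))) := by fun_prop
      have h5 := this.tendsto (0, 2 * arctan x₁)
      simp only [hθ₁] at h5
      exact h5
    have h5 : ∀ᶠ q : ℝ × ℝ in 𝓝 (0, 2 * arctan x₁), q.1 < 1 := by
      have : Continuous (fun q : ℝ × ℝ => q.1) := continuous_fst
      exact (this.tendsto (0, 2 * arctan x₁)).eventually (gt_mem_nhds (by norm_num))
    filter_upwards [h4.eventually h2, h5] with q h6 h7 h8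
    rw [← hperk q.1 ⟨h8, h7⟩]
    exact h6 h8

end Pool.Agent.MP_ae5b4e_an_GeoX
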