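import Pool.Agent.Lib.SCV.Osgood

/-!
# MP_ae5b4e_an: complexification of a real-analytic function of two variables
-/

noncomputable section

namespace Pool.Agent.MP_ae5b4e_an_ND

open Filter Topology

namespace Cplx

/-- the complexified term of order `n` -/
def gTerm (p : FormalMultilinearSeries ℝ (ℝ × ℝ) ℝ) (a b : ℝ) (n : ℕ) (q : ℂ × ℂ) : ℂ :=
  ∑ s : Finset (Fin n), (q.1 - (a : ℂ)) ^ s.card * (q.2 - (b : ℂ)) ^ (n - s.card) *
    ((p n (s.piecewise (fun _ => ((1 : ℝ), (0 : ℝ))) (fun _ => ((0 : ℝ), (1 : ℝ)))) : ℝ) : ℂ)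

theorem prod_ite_mem {n : ℕ} (s : Finset (Fin n)) (x y : ℝ) :
    ∏ i : Fin n, (if i ∈ s then x else y) = x ^ s.card * y ^ (n - s.card) := by
  rw [Finset.prod_ite, Finset.prod_const, Finset.prod_const, Finset.filter_mem_eq_inter,
    Finset.univ_inter]
  congr 2
  rw [Finset.filter_not, Finset.filter_mem_eq_inter, Finset.univ_inter,
    Finset.card_sdiff_of_subset (Finset.subset_univ _), Finset.card_univ, Fintype.card_fin]

theorem gTerm_real (p : FormalMultilinearSeries ℝ (ℝ × ℝ) ℝ) (a b : ℝ) (n : ℕ) (q : ℝ × ℝ) :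
    gTerm p a b n ((q.1 : ℂ), (q.2 : ℂ)) = ((p n (fun _ => q - (a, b)) : ℝ) : ℂ) := by
  have h1 : (fun _ : Fin n => q - (a, b)) =
      (fun _ : Fin n => (q.1 - a) • ((1 : ℝ), (0 : ℝ))) +
        (fun _ : Fin n => (q.2 - b) • ((0 : ℝ), (1 : ℝ))) := by
    funext i
    ext <;> simp
  rw [h1, ContinuousMultilinearMap.map_add_univ]
  have h2 : ∀ s : Finset (Fin n),
      p n (s.piecewise (fun _ : Fin n => (q.1 - a) • ((1 : ℝ), (0 : ℝ)))
        (fun _ : Fin n => (q.2 - b) • ((0 : ℝ), (1 : ℝ)))) =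
      (q.1 - a) ^ s.card * (q.2 - b) ^ (n - s.card) *
        p n (s.piecewise (fun _ => ((1 : ℝ), (0 : ℝ))) (fun _ => ((0 : ℝ), (1 : ℝ)))) := by
    intro s
    have h3 : s.piecewise (fun _ : Fin n => (q.1 - a) • ((1 : ℝ), (0 : ℝ)))
        (fun _ : Fin n => (q.2 - b) • ((0 : ℝ), (1 : ℝ))) =
        fun i => (if i ∈ s then q.1 - a else q.2 - b) •
          (s.piecewise (fun _ => ((1 : ℝ), (0 : ℝ))) (fun _ => ((0 : ℝ), (1 : ℝ)))) i := by
      funext i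
      by_cases hi : i ∈ s
      · rw [Finset.piecewise_eq_of_mem _ _ _ hi, Finset.piecewise_eq_of_mem _ _ _ hi, if_pos hi]
      · rw [Finset.piecewise_eq_of_notMem _ _ _ hi, Finset.piecewise_eq_of_notMem _ _ _ hi,
          if_neg hi]
    rw [h3, ContinuousMultilinearMap.map_smul_univ, prod_ite_mem, smul_eq_mul]
  rw [Finset.sum_congr rfl fun s _ => h2 s]
  unfold gTerm
  push_cast
  rfl

theorem gTerm_bound (p : FormalMultilinearSeries ℝ (ℝ × ℝ) ℝ) (a b : ℝ) (n : ℕ) (q : ℂ × ℂ) :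
    ‖gTerm p a b n q‖ ≤ ‖p n‖ * (‖q.1 - (a : ℂ)‖ + ‖q.2 - (b : ℂ)‖) ^ n := by
  have h1 : ∀ s : Finset (Fin n),
      ‖p n (s.piecewise (fun _ => ((1 : ℝ), (0 : ℝ))) (fun _ => ((0 : ℝ), (1 : ℝ))))‖ ≤ ‖p n‖ := by
    intro s
    refine (ContinuousMultilinearMap.le_opNorm _ _).trans ?_
    have h2 : ∏ i : Fin n, ‖(s.piecewise (fun _ => ((1 : ℝ), (0 : ℝ)))
        (fun _ => ((0 : ℝ), (1 : ℝ))) : Fin n → ℝ × ℝ) i‖ = 1 := by
      apply Finset.prod_eq_one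
      intro i _
      by_cases hi : i ∈ s
      · rw [Finset.piecewise_eq_of_mem _ _ _ hi]; simp [Prod.norm_def]
      · rw [Finset.piecewise_eq_of_notMem _ _ _ hi]; simp [Prod.norm_def]
    rw [h2, mul_one]
  have h3 := Fintype.sum_pow_mul_eq_add_pow (Fin n) ‖q.1 - (a : ℂ)‖ ‖q.2 - (b : ℂ)‖
  rw [Fintype.card_fin] at h3
  unfold gTerm
  refine (norm_sum_le _ _).trans ?_
  rw [← h3, Finset.mul_sum]
  apply Finset.sum_le_sum
  intro s _
  rw [norm_mul, norm_mul, norm_pow, norm_pow, Complex.norm_real, mul_comm ‖p n‖]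
  exact mul_le_mul_of_nonneg_left (h1 s) (by positivity)

theorem gTerm_analytic (p : FormalMultilinearSeries ℝ (ℝ × ℝ) ℝ) (a b : ℝ) (n : ℕ)
    (U : Set (ℂ × ℂ)) : AnalyticOnNhd ℂ (gTerm p a b n) U := by
  intro q _
  unfold gTerm
  apply Finset.analyticAt_fun_sum
  intro s _
  exact (((analyticAt_fst.sub analyticAt_const).pow _).mul
    ((analyticAt_snd.sub analyticAt_const).pow _)).mul analyticAt_const

end Cplx

open Cplx in
/-- Complexification of a real-analytic function of two real variables. -/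
theorem exists_complexification2 {f : ℝ × ℝ → ℝ} {a b : ℝ} (hf : AnalyticAt ℝ f (a, b)) :
    ∃ F : ℂ × ℂ → ℂ, AnalyticAt ℂ F ((a : ℂ), (b : ℂ)) ∧
      ∀ᶠ q : ℝ × ℝ in 𝓝 (a, b), F ((q.1 : ℂ), (q.2 : ℂ)) = (f q : ℂ) := by
  obtain ⟨p, R, hp⟩ := hf
  obtain ⟨r, hr0, hrR⟩ : ∃ r : NNReal, 0 < r ∧ (r : ENNReal) < p.radius := by
    have h1 : (0 : ENNReal) < p.radius := hp.r_pos.trans_le hp.r_le
    obtain ⟨r, h2, h3⟩ := ENNReal.lt_iff_exists_nnreal_btwn.1 h1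
    exact ⟨r, by exact_mod_cast h2, h3⟩
  obtain ⟨C, hC0, hC⟩ := p.norm_mul_pow_le_of_lt_radius hrR
  have hr : (0 : ℝ) < r := by exact_mod_cast hr0
  set U : Set (ℂ × ℂ) := Metric.ball ((a : ℂ), (b : ℂ)) (r / 4) with hU
  have hmem : ∀ q : ℂ × ℂ, q ∈ U → ‖q.1 - (a : ℂ)‖ < r / 4 ∧ ‖q.2 - (b : ℂ)‖ < r / 4 := by
    intro q hq
    rw [hU, ← ball_prod_same] at hq
    refine ⟨?_, ?_⟩
    · have := hq.1
      rwa [Metric.mem_ball, dist_eq_norm] at this
    · have := hq.2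
      rwa [Metric.mem_ball, dist_eq_norm] at this
  have hb : ∀ n, ∀ q ∈ U, ‖gTerm p a b n q‖ ≤ C * (1 / 2) ^ n := by
    intro n q hq
    obtain ⟨h1, h2⟩ := hmem q hq
    refine (gTerm_bound p a b n q).trans ?_
    have h3 : (‖q.1 - (a : ℂ)‖ + ‖q.2 - (b : ℂ)‖) ^ n ≤ (r / 2) ^ n :=
      pow_le_pow_left₀ (by positivity) (by linarith) n
    calc ‖p n‖ * (‖q.1 - (a : ℂ)‖ + ‖q.2 - (b : ℂ)‖) ^ n
        ≤ ‖p n‖ * (r / 2) ^ n := mul_le_mul_of_nonneg_left h3 (norm_nonneg _)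
      _ = (‖p n‖ * r ^ n) * (1 / 2) ^ n := by rw [div_pow, div_pow, one_pow]; ring
      _ ≤ C * (1 / 2) ^ n := mul_le_mul_of_nonneg_right (hC n) (by positivity)
  have hsum : Summable fun n : ℕ => C * (1 / 2 : ℝ) ^ n :=
    (summable_geometric_of_lt_one (by norm_num) (by norm_num)).mul_left C
  refine ⟨fun q => ∑' n, gTerm p a b n q, ?_, ?_⟩
  · have h1 : TendstoUniformlyOn (fun N q => ∑ n ∈ Finset.range N, gTerm p a b n q)
        (fun q => ∑' n, gTerm p a b n q) atTop U :=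
      tendstoUniformlyOn_tsum_nat hsum hb
    have h2 := SCV.analyticOnNhd_of_tendstoLocallyUniformlyOn U Metric.isOpen_ball
      (fun N q => ∑ n ∈ Finset.range N, gTerm p a b n q) (fun q => ∑' n, gTerm p a b n q)
      (by
        intro N q hq
        apply Finset.analyticAt_fun_sum
        intro n _
        exact gTerm_analytic p a b n U q hq) h1.tendstoLocallyUniformlyOn
    exact h2 _ (Metric.mem_ball_self (by positivity))
  · have h1 : ∀ᶠ q : ℝ × ℝ in 𝓝 (a, b), q ∈ Metric.eball (a, b) R :=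
      Metric.eball_mem_nhds _ hp.r_pos
    filter_upwards [h1] with q hq
    have h2 := hp.hasSum_sub hq
    have h3 := Complex.ofRealCLM.hasSum h2
    rw [show (∑' n, gTerm p a b n ((q.1 : ℂ), (q.2 : ℂ))) =
      ∑' n, ((p n (fun _ => q - (a, b)) : ℝ) : ℂ) from tsum_congr fun n => gTerm_real p a b n q]
    exact h3.tsum_eq

end Pool.Agent.MP_ae5b4e_an_ND
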