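import Pool.Agent.Lib.MP_ae5b4e_an_LAT.NDDefs

/-!
# The local problem ND: slope coefficients (problem `MP_ae5b4e_an`)

`TT κ (x, y) = (x - y', y')` with `y' = y / (1 - κ x * y)`, see `NDDefs`.

* `slope v κ n` : the coefficient of `y ^ n` in the slope `q = dy/dx` of the level curves of `S`,
  as a universal differential polynomial in `κ`; `v` is the factor of the derivation `v * d/dw`
  (`v = 1` in the coordinate `x`, `v = 1 / (N w ^ (N - 1))` if `x = e + w ^ N`).
-/

namespace Pool.Agent.MP_ae5b4e_an_ND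

open Filter Topology

/-- `cc v q m i` is the coefficient of `y ^ i` in `D^m y`, where `D = v ∂ + q ∂_y` and
`q = ∑ q n y ^ n`. -/
noncomputable def cc (v : ℂ → ℂ) (q : ℕ → ℂ → ℂ) : ℕ → ℕ → ℂ → ℂ
  | 0, i => fun _ => if i = 1 then 1 else 0
  | m + 1, i => fun x => v x * deriv (cc v q m i) x +
      ∑ a ∈ Finset.range i, ((a : ℂ) + 1) * (cc v q m (a + 1) x * q (i - a) x)

/-- The right hand side of the recursion for the slope coefficients. -/
noncomputable def slopeRec (v κ : ℂ → ℂ) (q : ℕ → ℂ → ℂ) (n : ℕ) : ℂ → ℂ := fun x =>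
  -κ x ^ n - ∑ j ∈ Finset.Ico 1 n, κ x ^ j * q (n - j) x +
    ∑ m ∈ Finset.Icc 2 n, ((-1) ^ m / (m.factorial : ℂ)) *
      ∑ j ∈ Finset.range (n + 1 - m),
        ((m + j - 1).choose j : ℂ) * (κ x ^ j * cc v q m (n + 1 - m - j) x)

/-- Successive approximations of the sequence of slope coefficients. -/
noncomputable def slopeApp (v κ : ℂ → ℂ) : ℕ → ℕ → ℂ → ℂ
  | 0 => fun _ _ => 0
  | n + 1 => Function.update (slopeApp v κ n) (n + 1) (slopeRec v κ (slopeApp v κ n) (n + 1))

/-- The slope coefficients: universal differential polynomials in `κ`. -/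
noncomputable def slope (v κ : ℂ → ℂ) (n : ℕ) : ℂ → ℂ := slopeApp v κ n n

/-- Filtrations (weights) compatible with the operations used in the recursion. -/
structure Filt (v : ℂ → ℂ) (W : ℕ → (ℂ → ℂ) → Prop) : Prop where
  zero : ∀ n, W n (fun _ => 0)
  one : W 0 (fun _ => 1)
  add : ∀ n f g, W n f → W n g → W n (fun x => f x + g x)
  smul : ∀ n (c : ℂ) f, W n f → W n (fun x => c * f x)
  mul : ∀ m n f g, W m f → W n g → W (m + n) (fun x => f x * g x)
  der : ∀ n f, W n f → W (n + 1) (fun x => v x * deriv f x)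

theorem cc_zero (v : ℂ → ℂ) (q : ℕ → ℂ → ℂ) (i : ℕ) :
    cc v q 0 i = fun _ => if i = 1 then 1 else 0 := rfl

theorem cc_succ (v : ℂ → ℂ) (q : ℕ → ℂ → ℂ) (m i : ℕ) :
    cc v q (m + 1) i = fun x => v x * deriv (cc v q m i) x +
      ∑ a ∈ Finset.range i, ((a : ℂ) + 1) * (cc v q m (a + 1) x * q (i - a) x) := rfl

theorem cc_congr (v : ℂ → ℂ) (q q' : ℕ → ℂ → ℂ) (m i : ℕ) (h : ∀ b ≤ i, 1 ≤ b → q b = q' b) :
    cc v q m i = cc v q' m i := by
  induction m generalizing i with
  | zero => rfl
  | succ m ih =>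
    rw [cc_succ, cc_succ, ih i h]
    funext x
    congr 1
    apply Finset.sum_congr rfl
    intro a ha
    rw [Finset.mem_range] at ha
    rw [ih (a + 1) (fun b hb h1 => h b (by omega) h1), h (i - a) (by omega) (by omega)]

theorem slopeRec_congr (v κ : ℂ → ℂ) (q q' : ℕ → ℂ → ℂ) (n : ℕ)
    (h : ∀ b < n, 1 ≤ b → q b = q' b) : slopeRec v κ q n = slopeRec v κ q' n := by
  funext x
  unfold slopeRec
  congr 1
  · congr 1
    apply Finset.sum_congr rfl
    intro j hj
    rw [Finset.mem_Ico] at hj
    rw [h (n - j) (by omega) (by omega)]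
  · apply Finset.sum_congr rfl
    intro m hm
    rw [Finset.mem_Icc] at hm
    congr 1
    apply Finset.sum_congr rfl
    intro j hj
    rw [Finset.mem_range] at hj
    rw [cc_congr v q q' m (n + 1 - m - j) (fun b hb h1 => h b (by omega) h1)]

theorem slopeApp_eq (v κ : ℂ → ℂ) (n k : ℕ) (h : k ≤ n) : slopeApp v κ n k = slope v κ k := by
  induction n with
  | zero =>
    have : k = 0 := by omega
    subst this; rfl
  | succ n ih =>
    rcases Nat.lt_or_ge n k with h1 | h1
    · have : k = n + 1 := by omega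
      subst this; rfl
    · rw [← ih h1]
      show Function.update _ _ _ k = _
      rw [Function.update_of_ne (by omega)]

theorem slope_zero (v κ : ℂ → ℂ) : slope v κ 0 = fun _ => 0 := rfl

theorem slope_rec (v κ : ℂ → ℂ) (n : ℕ) (hn : 1 ≤ n) :
    slope v κ n = slopeRec v κ (slope v κ) n := by
  obtain ⟨k, rfl⟩ : ∃ k, n = k + 1 := ⟨n - 1, by omega⟩
  have : slope v κ (k + 1) = slopeRec v κ (slopeApp v κ k) (k + 1) := by
    show Function.update _ _ _ (k + 1) = _
    rw [Function.update_self]
  rw [this]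
  apply slopeRec_congr
  intro b hb _
  exact slopeApp_eq v κ k b (by omega)

/-- Uniqueness: the recursion determines the coefficients. -/
theorem slope_unique (v κ : ℂ → ℂ) (q : ℕ → ℂ → ℂ)
    (h : ∀ n, 1 ≤ n → q n = slopeRec v κ q n) (n : ℕ) (hn : 1 ≤ n) : q n = slope v κ n := by
  induction n using Nat.strong_induction_on with
  | _ n ih =>
    rw [h n hn, slope_rec v κ n hn]
    exact slopeRec_congr v κ _ _ n (fun b hb h1 => ih b hb h1)

namespace Filt

variable {v κ : ℂ → ℂ} {W : ℕ → (ℂ → ℂ) → Prop}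

theorem sum (h : Filt v W) {ι : Type*} (s : Finset ι) (n : ℕ) (f : ι → ℂ → ℂ)
    (hf : ∀ i ∈ s, W n (f i)) : W n (fun x => ∑ i ∈ s, f i x) := by
  classical
  induction s using Finset.induction_on with
  | empty => simpa using h.zero n
  | insert a s ha ih =>
    have h1 := h.add n _ _ (hf a (Finset.mem_insert_self a s))
      (ih (fun i hi => hf i (Finset.mem_insert_of_mem hi)))
    simpa only [Finset.sum_insert ha] using h1

theorem pow (h : Filt v W) (hκ : W 1 κ) (n : ℕ) : W n (fun x => κ x ^ n) := by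
  induction n with
  | zero => simpa using h.one
  | succ n ih =>
    have := h.mul n 1 _ _ ih hκ
    simpa only [pow_succ] using this

theorem cast {m n : ℕ} (e : m = n) {f : ℂ → ℂ} (hf : W m f) : W n f := e ▸ hf

end Filt

/-- The coefficient `cc v q m (i + 1)` has weight `m + i`; only `q 1, …, q (i + 1)` are used. -/
theorem Filt.cc_mem' {v : ℂ → ℂ} {W : ℕ → (ℂ → ℂ) → Prop} (h : Filt v W) (q : ℕ → ℂ → ℂ)
    (m : ℕ) : ∀ i, (∀ b ≤ i, 1 ≤ b → W b (q b)) →
      (i = 0 → W m (cc v q m 0)) ∧ (∀ j, i = j + 1 → W (m + j) (cc v q m i)) := by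
  induction m with
  | zero =>
    intro i _
    refine ⟨fun _ => ?_, fun j hj => ?_⟩
    · have := h.zero 0
      simpa [cc_zero] using this
    · subst hj
      rcases Nat.eq_zero_or_pos j with rfl | hj
      · simpa [cc_zero] using h.one
      · have hne : ¬ (j = 0) := by omega
        simpa [cc_zero, hne] using h.zero j
  | succ m ih =>
    intro i hq
    refine ⟨fun hi => ?_, fun j hj => ?_⟩
    · subst hi
      have h1 := h.der m _ ((ih 0 hq).1 rfl)
      rw [cc_succ]
      simpa using h1
    · subst hj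
      rw [cc_succ]
      have h1 := h.der (m + j) _ ((ih (j + 1) hq).2 j rfl)
      refine h.add (m + 1 + j) _ _ (Filt.cast (by omega) h1) ?_
      apply h.sum
      intro a ha
      rw [Finset.mem_range] at ha
      apply h.smul
      have h2 := (ih (a + 1) (fun b hb h1 => hq b (by omega) h1)).2 a rfl
      have h3 := hq (j + 1 - a) (by omega) (by omega)
      exact Filt.cast (by omega) (h.mul _ _ _ _ h2 h3)

/-- **Weights.** If `κ` has weight `1` then `slope v κ n` has weight `n`. -/
theorem slope_mem {v κ : ℂ → ℂ} {W : ℕ → (ℂ → ℂ) → Prop} (h : Filt v W) (hκ : W 1 κ) (n : ℕ) :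
    W n (slope v κ n) := by
  induction n using Nat.strong_induction_on with
  | _ n ih =>
    rcases Nat.eq_zero_or_pos n with rfl | hn
    · exact h.zero 0
    rw [slope_rec v κ n hn]
    unfold slopeRec
    apply h.add
    · have e : (fun x => -κ x ^ n - ∑ j ∈ Finset.Ico 1 n, κ x ^ j * slope v κ (n - j) x) =
        fun x => (-1) * κ x ^ n + (-1) * ∑ j ∈ Finset.Ico 1 n, κ x ^ j * slope v κ (n - j) x := by
        funext x; ring
      rw [e]
      apply h.add
      · exact h.smul n _ _ (h.pow hκ n)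
      · apply h.smul
        apply h.sum
        intro j hj
        rw [Finset.mem_Ico] at hj
        exact Filt.cast (by omega) (h.mul j (n - j) _ _ (h.pow hκ j) (ih (n - j) (by omega)))
    · apply h.sum
      intro m hm
      rw [Finset.mem_Icc] at hm
      apply h.smul
      apply h.sum
      intro j hj
      rw [Finset.mem_range] at hj
      apply h.smul
      have h1 := (h.cc_mem' (slope v κ) m (n + 1 - m - j)
        (fun b hb h1 => ih b (by omega))).2 (n - m - j) (by omega)
      exact Filt.cast (by omega) (h.mul j _ _ _ (h.pow hκ j) h1)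

end Pool.Agent.MP_ae5b4e_an_ND
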