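import Pool.Agent.Lib.MP_ae5b4e_an_LAT.NDCf

/-!
# Functions of two variables near the diagonal (problem `MP_ae5b4e_an`)
-/

namespace Pool.Agent.MP_ae5b4e_an_ND

open Filter Topology

/-- Partial derivatives. -/
noncomputable def Dx (f : ℂ × ℂ → ℂ) (p : ℂ × ℂ) : ℂ := fderiv ℂ f p (1, 0)

/-- Partial derivatives. -/
noncomputable def Dy (f : ℂ × ℂ → ℂ) (p : ℂ × ℂ) : ℂ := fderiv ℂ f p (0, 1)

theorem Dx_analyticAt {f : ℂ × ℂ → ℂ} {p : ℂ × ℂ} (hf : AnalyticAt ℂ f p) :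
    AnalyticAt ℂ (Dx f) p :=
  ((ContinuousLinearMap.apply ℂ ℂ ((1, 0) : ℂ × ℂ)).analyticAt _).comp hf.fderiv

theorem Dy_analyticAt {f : ℂ × ℂ → ℂ} {p : ℂ × ℂ} (hf : AnalyticAt ℂ f p) :
    AnalyticAt ℂ (Dy f) p :=
  ((ContinuousLinearMap.apply ℂ ℂ ((0, 1) : ℂ × ℂ)).analyticAt _).comp hf.fderiv

theorem Dx_analyticOn {f : ℂ × ℂ → ℂ} {U : Set (ℂ × ℂ)} (hf : AnalyticOnNhd ℂ f U) :
    AnalyticOnNhd ℂ (Dx f) U := fun p hp => Dx_analyticAt (hf p hp)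

theorem Dy_analyticOn {f : ℂ × ℂ → ℂ} {U : Set (ℂ × ℂ)} (hf : AnalyticOnNhd ℂ f U) :
    AnalyticOnNhd ℂ (Dy f) U := fun p hp => Dy_analyticAt (hf p hp)

theorem Dxi_analyticOn {f : ℂ × ℂ → ℂ} {U : Set (ℂ × ℂ)} (hf : AnalyticOnNhd ℂ f U) (n : ℕ) :
    AnalyticOnNhd ℂ (Dx^[n] f) U := by
  induction n with
  | zero => exact hf
  | succ n ih => rw [Function.iterate_succ_apply']; exact Dx_analyticOn ih

theorem Dyi_analyticOn {f : ℂ × ℂ → ℂ} {U : Set (ℂ × ℂ)} (hf : AnalyticOnNhd ℂ f U) (n : ℕ) :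
    AnalyticOnNhd ℂ (Dy^[n] f) U := by
  induction n with
  | zero => exact hf
  | succ n ih => rw [Function.iterate_succ_apply']; exact Dy_analyticOn ih

theorem Dx_eq_deriv {f : ℂ × ℂ → ℂ} {x y : ℂ} (hf : DifferentiableAt ℂ f (x, y)) :
    Dx f (x, y) = deriv (fun t => f (t, y)) x := by
  have h2 : HasDerivAt (fun t : ℂ => ((t, y) : ℂ × ℂ)) (1, 0) x :=
    (hasDerivAt_id x).prodMk (hasDerivAt_const x y)
  exact (hf.hasFDerivAt.comp_hasDerivAt x h2).deriv.symm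

theorem Dy_eq_deriv {f : ℂ × ℂ → ℂ} {x y : ℂ} (hf : DifferentiableAt ℂ f (x, y)) :
    Dy f (x, y) = deriv (fun t => f (x, t)) y := by
  have h2 : HasDerivAt (fun t : ℂ => ((x, t) : ℂ × ℂ)) (0, 1) y :=
    (hasDerivAt_const y x).prodMk (hasDerivAt_id y)
  exact (hf.hasFDerivAt.comp_hasDerivAt y h2).deriv.symm

theorem Dx_congr {f g : ℂ × ℂ → ℂ} {U : Set (ℂ × ℂ)} (hU : IsOpen U) (h : Set.EqOn f g U) :
    Set.EqOn (Dx f) (Dx g) U := by
  intro p hp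
  unfold Dx
  rw [(h.eventuallyEq_of_mem (hU.mem_nhds hp)).fderiv_eq]

theorem Dy_congr {f g : ℂ × ℂ → ℂ} {U : Set (ℂ × ℂ)} (hU : IsOpen U) (h : Set.EqOn f g U) :
    Set.EqOn (Dy f) (Dy g) U := by
  intro p hp
  unfold Dy
  rw [(h.eventuallyEq_of_mem (hU.mem_nhds hp)).fderiv_eq]

theorem Dx_Dy {f : ℂ × ℂ → ℂ} {p : ℂ × ℂ} (hf : AnalyticAt ℂ f p) :
    Dx (Dy f) p = Dy (Dx f) p := by
  have hs : IsSymmSndFDerivAt ℂ f p := hf.contDiffAt.isSymmSndFDerivAt_of_omega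
  have hd : DifferentiableAt ℂ (fderiv ℂ f) p := hf.fderiv.differentiableAt
  have key : ∀ a b : ℂ × ℂ, fderiv ℂ (fun z => fderiv ℂ f z a) p b = fderiv ℂ (fderiv ℂ f) p b a := by
    intro a b
    have h1 : HasFDerivAt (fun z => fderiv ℂ f z a)
        ((ContinuousLinearMap.apply ℂ ℂ a).comp (fderiv ℂ (fderiv ℂ f) p)) p :=
      (ContinuousLinearMap.apply ℂ ℂ a).hasFDerivAt.comp p hd.hasFDerivAt
    rw [h1.fderiv]
    rfl
  have e1 : Dx (Dy f) p = fderiv ℂ (fun z => fderiv ℂ f z (0, 1)) p (1, 0) := rfl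
  have e2 : Dy (Dx f) p = fderiv ℂ (fun z => fderiv ℂ f z (1, 0)) p (0, 1) := rfl
  rw [e1, e2, key, key]
  exact hs _ _

theorem Dyi_Dx {f : ℂ × ℂ → ℂ} {U : Set (ℂ × ℂ)} (hU : IsOpen U) (hf : AnalyticOnNhd ℂ f U)
    (n : ℕ) : Set.EqOn (Dy^[n] (Dx f)) (Dx (Dy^[n] f)) U := by
  induction n with
  | zero => intro p _; rfl
  | succ n ih =>
    intro p hp
    rw [Function.iterate_succ_apply', Function.iterate_succ_apply', Dy_congr hU ih hp]
    exact (Dx_Dy (Dyi_analyticOn hf n p hp)).symm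

/-- The iterated `y`-derivative. -/
theorem Dyi_eq {f : ℂ × ℂ → ℂ} {U : Set (ℂ × ℂ)} (hU : IsOpen U) (hf : AnalyticOnNhd ℂ f U)
    (n : ℕ) (x y : ℂ) (hp : (x, y) ∈ U) :
    (Dy^[n] f) (x, y) = iteratedDeriv n (fun t => f (x, t)) y := by
  induction n generalizing y with
  | zero => simp
  | succ n ih =>
    rw [Function.iterate_succ_apply', Dy_eq_deriv (Dyi_analyticOn hf n _ hp).differentiableAt,
      iteratedDeriv_succ]
    apply Filter.EventuallyEq.deriv_eq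
    have hc : Tendsto (fun t : ℂ => ((x, t) : ℂ × ℂ)) (𝓝 y) (𝓝 (x, y)) := by
      have : Continuous (fun t : ℂ => ((x, t) : ℂ × ℂ)) := by fun_prop
      exact this.tendsto y
    filter_upwards [hc.eventually (hU.mem_nhds hp)] with t ht
    exact ih t ht

/-- The iterated `x`-derivative. -/
theorem Dxi_eq {f : ℂ × ℂ → ℂ} {U : Set (ℂ × ℂ)} (hU : IsOpen U) (hf : AnalyticOnNhd ℂ f U)
    (n : ℕ) (x y : ℂ) (hp : (x, y) ∈ U) :
    (Dx^[n] f) (x, y) = iteratedDeriv n (fun t => f (t, y)) x := by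
  induction n generalizing x with
  | zero => simp
  | succ n ih =>
    rw [Function.iterate_succ_apply', Dx_eq_deriv (Dxi_analyticOn hf n _ hp).differentiableAt,
      iteratedDeriv_succ]
    apply Filter.EventuallyEq.deriv_eq
    have hc : Tendsto (fun t : ℂ => ((t, y) : ℂ × ℂ)) (𝓝 x) (𝓝 (x, y)) := by
      have : Continuous (fun t : ℂ => ((t, y) : ℂ × ℂ)) := by fun_prop
      exact this.tendsto x
    filter_upwards [hc.eventually (hU.mem_nhds hp)] with t ht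
    exact ih t ht

/-- The coefficients of the expansion in `y`. -/
noncomputable def co (f : ℂ × ℂ → ℂ) (n : ℕ) (x : ℂ) : ℂ := cf (fun y => f (x, y)) n

theorem co_eq {f : ℂ × ℂ → ℂ} {U : Set (ℂ × ℂ)} (hU : IsOpen U) (hf : AnalyticOnNhd ℂ f U)
    (n : ℕ) (x : ℂ) (hp : (x, 0) ∈ U) : co f n x = (Dy^[n] f) (x, 0) / n.factorial := by
  unfold co cf
  rw [Dyi_eq hU hf n x 0 hp]

theorem slice_analytic {f : ℂ × ℂ → ℂ} {x y : ℂ} (hf : AnalyticAt ℂ f (x, y)) :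
    AnalyticAt ℂ (fun t => f (x, t)) y := by
  have h : AnalyticAt ℂ (fun t : ℂ => ((x, t) : ℂ × ℂ)) y := by fun_prop
  exact hf.comp_of_eq h rfl

theorem slice_analytic' {f : ℂ × ℂ → ℂ} {x y : ℂ} (hf : AnalyticAt ℂ f (x, y)) :
    AnalyticAt ℂ (fun t => f (t, y)) x := by
  have h : AnalyticAt ℂ (fun t : ℂ => ((t, y) : ℂ × ℂ)) x := by fun_prop
  exact hf.comp_of_eq h rfl

theorem co_Dy {f : ℂ × ℂ → ℂ} {U : Set (ℂ × ℂ)} (hU : IsOpen U) (hf : AnalyticOnNhd ℂ f U)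
    (n : ℕ) (x : ℂ) (hp : (x, 0) ∈ U) : co (Dy f) n x = ((n : ℂ) + 1) * co f (n + 1) x := by
  rw [co_eq hU hf _ x hp, co_eq hU (Dy_analyticOn hf) _ x hp, Function.iterate_succ_apply,
    Nat.factorial_succ]
  have : (n.factorial : ℂ) ≠ 0 := by exact_mod_cast n.factorial_ne_zero
  have h2 : ((n : ℂ) + 1) ≠ 0 := by exact_mod_cast Nat.succ_ne_zero n
  push_cast
  field_simp

theorem co_Dx {f : ℂ × ℂ → ℂ} {U : Set (ℂ × ℂ)} (hU : IsOpen U) (hf : AnalyticOnNhd ℂ f U)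
    (n : ℕ) (x : ℂ) (hp : (x, 0) ∈ U) : co (Dx f) n x = deriv (co f n) x := by
  rw [co_eq hU (Dx_analyticOn hf) _ x hp, Dyi_Dx hU hf n hp,
    Dx_eq_deriv (Dyi_analyticOn hf n _ hp).differentiableAt]
  have hc : Tendsto (fun t : ℂ => ((t, 0) : ℂ × ℂ)) (𝓝 x) (𝓝 (x, 0)) := by
    have : Continuous (fun t : ℂ => ((t, 0) : ℂ × ℂ)) := by fun_prop
    exact this.tendsto x
  have e : co f n =ᶠ[𝓝 x] fun t => (Dy^[n] f) (t, 0) / n.factorial := by
    filter_upwards [hc.eventually (hU.mem_nhds hp)] with t ht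
    exact co_eq hU hf n t ht
  rw [e.deriv_eq, deriv_div_const]

theorem co_mul {f g : ℂ × ℂ → ℂ} {x : ℂ} (hf : AnalyticAt ℂ f (x, 0)) (hg : AnalyticAt ℂ g (x, 0))
    (n : ℕ) : co (fun p => f p * g p) n x
      = ∑ i ∈ Finset.range (n + 1), co f i x * co g (n - i) x :=
  cf_mul (slice_analytic hf) (slice_analytic hg) n

theorem co_add {f g : ℂ × ℂ → ℂ} {x : ℂ} (hf : AnalyticAt ℂ f (x, 0)) (hg : AnalyticAt ℂ g (x, 0))
    (n : ℕ) : co (fun p => f p + g p) n x = co f n x + co g n x :=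
  cf_add (slice_analytic hf) (slice_analytic hg) n

theorem co_differentiableOn {f : ℂ × ℂ → ℂ} {U : Set (ℂ × ℂ)} (hU : IsOpen U)
    (hf : AnalyticOnNhd ℂ f U) (n : ℕ) : DifferentiableOn ℂ (co f n) {x | (x, 0) ∈ U} := by
  intro x hx
  have hx' : (x, 0) ∈ U := hx
  apply DifferentiableAt.differentiableWithinAt
  have hc : Tendsto (fun t : ℂ => ((t, 0) : ℂ × ℂ)) (𝓝 x) (𝓝 (x, 0)) := by
    have : Continuous (fun t : ℂ => ((t, 0) : ℂ × ℂ)) := by fun_prop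
    exact this.tendsto x
  have e : co f n =ᶠ[𝓝 x] fun t => (Dy^[n] f) (t, 0) / n.factorial := by
    filter_upwards [hc.eventually (hU.mem_nhds hx')] with t ht
    exact co_eq hU hf n t ht
  rw [e.differentiableAt_iff]
  exact ((slice_analytic' (Dyi_analyticOn hf n _ hx')).differentiableAt).div_const _

end Pool.Agent.MP_ae5b4e_an_ND
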