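import Mathlib

/-!
# Identity theorems at real points, and an implicit function theorem
-/

open Filter Topology

namespace Pool.Agent.MP_ae5b4e_an_GeoX

theorem tendsto_ofReal_left (a : ℝ) : Tendsto (fun x : ℝ => (x : ℂ)) (𝓝[<] a) (𝓝[≠] (a : ℂ)) := by
  apply tendsto_nhdsWithin_iff.2
  constructor
  · exact (Complex.continuous_ofReal.tendsto a).mono_left nhdsWithin_le_nhds
  · filter_upwards [self_mem_nhdsWithin] with x hx
    have : x ≠ a := ne_of_lt hx
    simpa using this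

/-- An analytic function which vanishes at the real points on the left of `a` vanishes near `a`. -/
theorem real_zero_left {f : ℂ → ℂ} {a : ℝ} (hf : AnalyticAt ℂ f a)
    (h : ∀ᶠ x : ℝ in 𝓝[<] a, f x = 0) : ∀ᶠ x in 𝓝 (a : ℂ), f x = 0 := by
  apply hf.frequently_zero_iff_eventually_zero.1
  exact (tendsto_ofReal_left a).frequently h.frequently

theorem real_zero {f : ℂ → ℂ} {a : ℝ} (hf : AnalyticAt ℂ f a)
    (h : ∀ᶠ x : ℝ in 𝓝 a, f x = 0) : ∀ᶠ x in 𝓝 (a : ℂ), f x = 0 :=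
  real_zero_left hf (h.filter_mono nhdsWithin_le_nhds)

/-- A function analytic on a polydisc which vanishes at the real points `(x, y)` with `y < b`
vanishes near `(a, b)`. -/
theorem real_zero2 {D : ℂ × ℂ → ℂ} {a b : ℝ} (hD : AnalyticAt ℂ D ((a : ℂ), (b : ℂ)))
    (h : ∀ᶠ p : ℝ × ℝ in 𝓝 (a, b), p.2 < b → D ((p.1 : ℂ), (p.2 : ℂ)) = 0) :
    ∀ᶠ p in 𝓝 (((a : ℂ), (b : ℂ)) : ℂ × ℂ), D p = 0 := by
  have h1 := hD.eventually_analyticAt
  rw [Metric.eventually_nhds_iff] at h1 h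
  obtain ⟨r₁, hr₁, h1⟩ := h1
  obtain ⟨r₂, hr₂, h2⟩ := h
  set r := min r₁ r₂ with hr
  have hr0 : 0 < r := lt_min hr₁ hr₂
  have hx1 : ∀ x y : ℂ, dist x a < r → dist y b < r → AnalyticAt ℂ D (x, y) := by
    intro x y hx hy
    apply h1
    rw [Prod.dist_eq]
    exact max_lt (hx.trans_le (min_le_left _ _)) (hy.trans_le (min_le_left _ _))
  have hbm : ∀ a : ℂ, IsPreconnected (Metric.ball a r) := fun a =>
    (convex_ball a r).isPreconnected
  -- real `x`
  have s1 : ∀ x : ℝ, dist x a < r → ∀ y : ℂ, dist y b < r → D ((x : ℂ), y) = 0 := by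
    intro x hx y hy
    have hx' : dist (x : ℂ) (a : ℂ) < r := by rwa [Complex.dist_of_im_eq (by simp), Complex.ofReal_re, Complex.ofReal_re]
    have ha : AnalyticOnNhd ℂ (fun y : ℂ => D ((x : ℂ), y)) (Metric.ball (b : ℂ) r) := by
      intro y hy
      have := hx1 x y hx' hy
      exact this.comp₂ analyticAt_const analyticAt_id
    have hz : ∀ᶠ y in 𝓝 (b : ℂ), D ((x : ℂ), y) = 0 := by
      apply real_zero_left (ha b (Metric.mem_ball_self hr0))
      have e1 : ∀ᶠ y : ℝ in 𝓝[<] b, dist y b < r :=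
        mem_nhdsWithin_of_mem_nhds (Metric.ball_mem_nhds b hr0)
      filter_upwards [e1, self_mem_nhdsWithin] with y e1 e2
      refine h2 (y := (x, y)) ?_ e2
      rw [Prod.dist_eq]
      exact max_lt (hx.trans_le (min_le_right _ _)) (e1.trans_le (min_le_right _ _))
    exact ha.eqOn_zero_of_preconnected_of_eventuallyEq_zero (hbm b) (Metric.mem_ball_self hr0)
      hz hy
  have s2 : ∀ x y : ℂ, dist x a < r → dist y b < r → D (x, y) = 0 := by
    intro x y hx hy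
    have ha : AnalyticOnNhd ℂ (fun x : ℂ => D (x, y)) (Metric.ball (a : ℂ) r) := by
      intro x hx
      have := hx1 x y hx hy
      exact this.comp₂ analyticAt_id analyticAt_const
    have hz : ∀ᶠ x in 𝓝 (a : ℂ), D (x, y) = 0 := by
      apply real_zero (ha a (Metric.mem_ball_self hr0))
      filter_upwards [Metric.ball_mem_nhds a hr0] with x hx
      exact s1 x hx y hy
    exact ha.eqOn_zero_of_preconnected_of_eventuallyEq_zero (hbm a) (Metric.mem_ball_self hr0)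
      hz hx
  filter_upwards [Metric.ball_mem_nhds _ hr0] with p hp
  rw [Metric.mem_ball, Prod.dist_eq, max_lt_iff] at hp
  exact s2 p.1 p.2 hp.1 hp.2

/-- the analytic implicit function theorem with two parameters -/
theorem implicit_analytic2 {F : (ℂ × ℂ) × ℂ → ℂ} {p₀ : ℂ × ℂ} {t₀ c : ℂ}
    (hF : AnalyticAt ℂ F (p₀, t₀)) (h0 : F (p₀, t₀) = 0) (hc : c ≠ 0)
    (ht : HasDerivAt (fun t => F (p₀, t)) c t₀) :
    ∃ b : ℂ × ℂ → ℂ, AnalyticAt ℂ b p₀ ∧ b p₀ = t₀ ∧
      ∀ᶠ q in 𝓝 (p₀, t₀), F q = 0 ↔ b q.1 = q.2 := by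
  have hcd : ContDiffAt ℂ ⊤ F (p₀, t₀) := hF.contDiffAt
  have hinr : (fderiv ℂ F (p₀, t₀)) ∘L .inr ℂ (ℂ × ℂ) ℂ =
      ContinuousLinearMap.toSpanSingleton ℂ c := by
    have h1 : HasFDerivAt F (fderiv ℂ F (p₀, t₀)) (p₀, t₀) := hF.differentiableAt.hasFDerivAt
    have h2 : HasFDerivAt (fun t : ℂ => ((p₀, t) : (ℂ × ℂ) × ℂ)) (.inr ℂ (ℂ × ℂ) ℂ) t₀ :=
      hasFDerivAt_prodMk_right p₀ t₀
    have h3 := h1.comp t₀ h2
    exact h3.unique ht.hasFDerivAt
  have hinv : ((fderiv ℂ F (p₀, t₀)) ∘L .inr ℂ (ℂ × ℂ) ℂ).IsInvertible := by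
    rw [hinr]
    refine ⟨ContinuousLinearEquiv.unitsEquivAut ℂ (Units.mk0 c hc), ?_⟩
    ext
    simp
  refine ⟨hcd.implicitFunction (by simp) hinv, ?_, ?_, ?_⟩
  · have := hcd.contDiffAt_implicitFunction (by simp) hinv
    exact this.analyticAt
  · exact hcd.implicitFunction_apply_self (by simp) hinv
  · have := hcd.eventually_apply_eq_iff_implicitFunction (by simp) hinv
    rw [h0] at this
    exact this

end Pool.Agent.MP_ae5b4e_an_GeoX
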