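import Pool.Agent.Lib.MP_ae5b4e_an_LAT.NDSlope

/-!
# The local problem ND: slope coefficients on an open set (problem `MP_ae5b4e_an`)
-/

namespace Pool.Agent.MP_ae5b4e_an_ND

open Filter Topology

theorem cc_congr_on {v v' : ℂ → ℂ} {q q' : ℕ → ℂ → ℂ} {U : Set ℂ} (hU : IsOpen U)
    (hv : Set.EqOn v v' U) (m i : ℕ) (h : ∀ b ≤ i, 1 ≤ b → Set.EqOn (q b) (q' b) U) :
    Set.EqOn (cc v q m i) (cc v' q' m i) U := by
  induction m generalizing i with
  | zero => intro x _; rfl
  | succ m ih =>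
    intro x hx
    rw [cc_succ, cc_succ]
    have h1 : deriv (cc v q m i) x = deriv (cc v' q' m i) x :=
      ((ih i h).eventuallyEq_of_mem (hU.mem_nhds hx)).deriv_eq
    simp only [h1, hv hx]
    congr 1
    apply Finset.sum_congr rfl
    intro a ha
    rw [Finset.mem_range] at ha
    rw [ih (a + 1) (fun b hb h1 => h b (by omega) h1) hx, h (i - a) (by omega) (by omega) hx]

theorem slopeRec_congr_on {v v' κ κ' : ℂ → ℂ} {q q' : ℕ → ℂ → ℂ} {U : Set ℂ} (hU : IsOpen U)
    (hv : Set.EqOn v v' U) (hκ : Set.EqOn κ κ' U) (n : ℕ)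
    (h : ∀ b < n, 1 ≤ b → Set.EqOn (q b) (q' b) U) :
    Set.EqOn (slopeRec v κ q n) (slopeRec v' κ' q' n) U := by
  intro x hx
  unfold slopeRec
  rw [hκ hx]
  congr 1
  · congr 1
    apply Finset.sum_congr rfl
    intro j hj
    rw [Finset.mem_Ico] at hj
    rw [h (n - j) (by omega) (by omega) hx]
  · apply Finset.sum_congr rfl
    intro m hm
    rw [Finset.mem_Icc] at hm
    congr 1
    apply Finset.sum_congr rfl
    intro j hj
    rw [Finset.mem_range] at hj
    rw [cc_congr_on hU hv m (n + 1 - m - j) (fun b hb h1 => h b (by omega) h1) hx]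

/-- Uniqueness on an open set: the recursion determines the coefficients. -/
theorem slope_unique_on {v κ : ℂ → ℂ} {q : ℕ → ℂ → ℂ} {U : Set ℂ} (hU : IsOpen U)
    (h : ∀ n, 1 ≤ n → Set.EqOn (q n) (slopeRec v κ q n) U) (n : ℕ) (hn : 1 ≤ n) :
    Set.EqOn (q n) (slope v κ n) U := by
  induction n using Nat.strong_induction_on with
  | _ n ih =>
    intro x hx
    rw [h n hn hx, slope_rec v κ n hn]
    exact slopeRec_congr_on hU (fun _ _ => rfl) (fun _ _ => rfl) n
      (fun b hb h1 => ih b hb h1) hx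

/-- The slope coefficients depend only on the germ of `κ`. -/
theorem slope_congr_on {v v' κ κ' : ℂ → ℂ} {U : Set ℂ} (hU : IsOpen U)
    (hv : Set.EqOn v v' U) (hκ : Set.EqOn κ κ' U) (n : ℕ) :
    Set.EqOn (slope v κ n) (slope v' κ' n) U := by
  induction n using Nat.strong_induction_on with
  | _ n ih =>
    intro x hx
    rcases Nat.eq_zero_or_pos n with rfl | hn
    · rfl
    rw [slope_rec v κ n hn, slope_rec v' κ' n hn]
    exact slopeRec_congr_on hU hv hκ n (fun b hb _ => ih b hb) hx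

theorem slope_congr_ev {κ κ' : ℂ → ℂ} (v : ℂ → ℂ) {x₀ : ℂ} (hκ : ∀ᶠ x in 𝓝 x₀, κ x = κ' x) :
    ∀ᶠ x in 𝓝 x₀, ∀ n, slope v κ n x = slope v κ' n x := by
  obtain ⟨U, hU, hUo, hx⟩ := eventually_nhds_iff.1 hκ
  filter_upwards [hUo.mem_nhds hx] with x hx' n
  exact slope_congr_on hUo (fun _ _ => rfl) (fun y hy => hU y hy) n hx'

end Pool.Agent.MP_ae5b4e_an_ND
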