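import Pool.Agent.Lib.MP_ae5b4e_an_LAT.NDTwo
import Pool.Agent.Lib.MP_ae5b4e_an_LAT.NDCongr

/-!
# Taylor expansion along the level curves (problem `MP_ae5b4e_an`)
-/

namespace Pool.Agent.MP_ae5b4e_an_ND

open Filter Topology

/-- Taylor remainder estimate. -/
theorem taylor_rem {f : ℂ → ℂ} {c : ℂ} {a a' M : ℝ} (ha : 0 < a) (haa : a < a') (hM : 0 ≤ M)
    (hf : DifferentiableOn ℂ f (Metric.ball c a')) (hb : ∀ z ∈ Metric.sphere c a, ‖f z‖ ≤ M)
    (n : ℕ) {t : ℂ} (ht : ‖t‖ ≤ a / 2) :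
    ‖f (c + t) - ∑ m ∈ Finset.range n, t ^ m / m.factorial * iteratedDeriv m f c‖
      ≤ 2 * M * (‖t‖ / a) ^ n := by
  have hz : c + t ∈ Metric.ball c a' := by
    rw [Metric.mem_ball, dist_eq_norm, add_sub_cancel_left]
    linarith
  have h1 := Complex.hasSum_taylorSeries_on_ball hf hz
  simp only [add_sub_cancel_left, smul_eq_mul] at h1
  have hcl : DiffContOnCl ℂ f (Metric.ball c a) := by
    apply DifferentiableOn.diffContOnCl
    rw [closure_ball c ha.ne']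
    exact hf.mono (Metric.closedBall_subset_ball haa)
  have hbd : ∀ m : ℕ, ‖((m.factorial : ℂ))⁻¹ * (t ^ m * iteratedDeriv m f c)‖
      ≤ M * (‖t‖ / a) ^ m := by
    intro m
    have h2 := Complex.norm_iteratedDeriv_le_of_forall_mem_sphere_norm_le m ha hcl hb
    rw [norm_mul, norm_mul, norm_inv, norm_pow, Complex.norm_natCast]
    have h3 : (0 : ℝ) < m.factorial := by exact_mod_cast m.factorial_pos
    calc ((m.factorial : ℝ))⁻¹ * (‖t‖ ^ m * ‖iteratedDeriv m f c‖)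
        ≤ ((m.factorial : ℝ))⁻¹ * (‖t‖ ^ m * (m.factorial * M / a ^ m)) := by
          gcongr
      _ = M * (‖t‖ / a) ^ m := by
          rw [div_pow]
          field_simp
  have h4 := (hasSum_nat_add_iff' n).2 h1
  have e : f (c + t) - ∑ m ∈ Finset.range n, t ^ m / m.factorial * iteratedDeriv m f c
      = f (c + t) - ∑ i ∈ Finset.range n, ((i.factorial : ℂ))⁻¹ * (t ^ i * iteratedDeriv i f c) := by
    congr 1
    apply Finset.sum_congr rfl
    intro i _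
    rw [div_eq_mul_inv]
    ring
  rw [e]
  have hr0 : 0 ≤ ‖t‖ / a := by positivity
  have hr1 : ‖t‖ / a ≤ 1 / 2 := by
    rw [div_le_iff₀ ha]
    linarith
  have hg : HasSum (fun m : ℕ => M * (‖t‖ / a) ^ (m + n)) (M * (‖t‖ / a) ^ n * (1 - ‖t‖ / a)⁻¹) := by
    have h5 := (hasSum_geometric_of_lt_one hr0 (by linarith)).mul_left (M * (‖t‖ / a) ^ n)
    have e5 : (fun m : ℕ => M * (‖t‖ / a) ^ (m + n))
        = fun i => M * (‖t‖ / a) ^ n * (‖t‖ / a) ^ i := by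
      funext m
      rw [pow_add]
      ring
    rw [e5]
    exact h5
  have h6 := tsum_of_norm_bounded hg (fun m => hbd (m + n))
  rw [h4.tsum_eq] at h6
  refine h6.trans ?_
  have h7 : (1 - ‖t‖ / a)⁻¹ ≤ 2 := by
    rw [inv_le_comm₀ (by linarith) (by norm_num)]
    linarith
  calc M * (‖t‖ / a) ^ n * (1 - ‖t‖ / a)⁻¹ ≤ M * (‖t‖ / a) ^ n * 2 := by gcongr
    _ = 2 * M * (‖t‖ / a) ^ n := by ring

theorem Dxi_analyticAt {f : ℂ × ℂ → ℂ} {p : ℂ × ℂ} (hf : AnalyticAt ℂ f p) (n : ℕ) :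
    AnalyticAt ℂ (Dx^[n] f) p := by
  induction n with
  | zero => exact hf
  | succ n ih => rw [Function.iterate_succ_apply']; exact Dx_analyticAt ih

theorem cc_zero_right (v : ℂ → ℂ) (q : ℕ → ℂ → ℂ) (m : ℕ) : cc v q m 0 = fun _ => 0 := by
  induction m with
  | zero => rw [cc_zero]; simp
  | succ m ih => rw [cc_succ, ih]; simp

theorem cc_one (v : ℂ → ℂ) (q : ℕ → ℂ → ℂ) (i : ℕ) (hi : 1 ≤ i) (x : ℂ) :
    cc v q 1 i x = q i x := by
  rw [cc_succ, cc_zero]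
  simp only [deriv_const, mul_zero, zero_add]
  rw [Finset.sum_eq_single 0]
  · simp [cc_zero]
  · intro a _ ha
    rw [cc_zero]
    simp [ha]
  · intro h
    exact absurd (Finset.mem_range.2 (by omega)) h

/-- Chain rule for `p ↦ T (p.1, S p)`. -/
theorem chain_T {T S : ℂ × ℂ → ℂ} {p : ℂ × ℂ} (hT : DifferentiableAt ℂ T (p.1, S p))
    (hS : DifferentiableAt ℂ S p) :
    Dx (fun p => T (p.1, S p)) p = Dx T (p.1, S p) + Dx S p * Dy T (p.1, S p) ∧
    Dy (fun p => T (p.1, S p)) p = Dy S p * Dy T (p.1, S p) := by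
  have h1 : HasFDerivAt (fun p : ℂ × ℂ => ((p.1, S p) : ℂ × ℂ))
      ((ContinuousLinearMap.fst ℂ ℂ ℂ).prod (fderiv ℂ S p)) p :=
    hasFDerivAt_fst.prodMk hS.hasFDerivAt
  have h2 := hT.hasFDerivAt.comp p h1
  have h3 : fderiv ℂ (fun p : ℂ × ℂ => T (p.1, S p)) p = (fderiv ℂ T (p.1, S p)).comp
      ((ContinuousLinearMap.fst ℂ ℂ ℂ).prod (fderiv ℂ S p)) := h2.fderiv
  have h4 : ∀ u w : ℂ, fderiv ℂ T (p.1, S p) (u, w) = u * Dx T (p.1, S p) + w * Dy T (p.1, S p) := by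
    intro u w
    have : ((u, w) : ℂ × ℂ) = u • (1, 0) + w • (0, 1) := by simp
    rw [this, map_add, map_smul, map_smul]
    rfl
  constructor
  · unfold Dx at *
    rw [h3]
    simp only [ContinuousLinearMap.comp_apply, ContinuousLinearMap.prod_apply,
      ContinuousLinearMap.coe_fst']
    rw [h4]
    ring
  · unfold Dy at *
    rw [h3]
    simp only [ContinuousLinearMap.comp_apply, ContinuousLinearMap.prod_apply,
      ContinuousLinearMap.coe_fst']
    rw [h4]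
    ring

/-- The data on a ball `U` of `(x₀, 0)`. -/
structure BrData (κ : ℂ → ℂ) (x₀ : ℂ) (S R : ℂ × ℂ → ℂ) (ρ : ℝ) : Prop where
  ρ_pos : 0 < ρ
  hκ : ∀ x, ‖x - x₀‖ < ρ → AnalyticAt ℂ κ x
  hS : ∀ p ∈ Metric.ball ((x₀, 0) : ℂ × ℂ) ρ, AnalyticAt ℂ S p
  hS0 : ∀ x, ‖x - x₀‖ < ρ → S (x, 0) = 0
  hSy : ∀ p ∈ Metric.ball ((x₀, 0) : ℂ × ℂ) ρ, Dy S p ≠ 0
  hden : ∀ p ∈ Metric.ball ((x₀, 0) : ℂ × ℂ) ρ, 1 - κ p.1 * p.2 ≠ 0
  hR : ∀ p ∈ Metric.ball ((x₀, 0) : ℂ × ℂ) ρ, AnalyticAt ℂ R (p.1, S p)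
  hRS : ∀ p ∈ Metric.ball ((x₀, 0) : ℂ × ℂ) ρ, R (p.1, S p) = p.2
  hRT : ∀ p ∈ Metric.ball ((x₀, 0) : ℂ × ℂ) ρ,
    R (p.1 - p.2 / (1 - κ p.1 * p.2), S p) = p.2 / (1 - κ p.1 * p.2)

/-- The slope of the level curves. -/
noncomputable def qS (S : ℂ × ℂ → ℂ) (p : ℂ × ℂ) : ℂ := -Dx S p / Dy S p

/-- `D^m y` -/
noncomputable def PS (S R : ℂ × ℂ → ℂ) (m : ℕ) (p : ℂ × ℂ) : ℂ := (Dx^[m] R) (p.1, S p)

namespace BrData

variable {κ : ℂ → ℂ} {x₀ : ℂ} {S R : ℂ × ℂ → ℂ} {ρ : ℝ}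

theorem mem (h : BrData κ x₀ S R ρ) {x : ℂ} (hx : ‖x - x₀‖ < ρ) :
    ((x, 0) : ℂ × ℂ) ∈ Metric.ball ((x₀, 0) : ℂ × ℂ) ρ := by
  rw [← ball_prod_same]
  exact ⟨by rw [Metric.mem_ball, dist_eq_norm]; exact hx, Metric.mem_ball_self h.ρ_pos⟩

theorem PS_analytic (h : BrData κ x₀ S R ρ) (m : ℕ) :
    AnalyticOnNhd ℂ (PS S R m) (Metric.ball ((x₀, 0) : ℂ × ℂ) ρ) := by
  intro p hp
  have h1 : AnalyticAt ℂ (fun p : ℂ × ℂ => ((p.1, S p) : ℂ × ℂ)) p :=
    analyticAt_fst.prod (h.hS p hp)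
  exact (Dxi_analyticAt (h.hR p hp) m).comp_of_eq h1 rfl

theorem qS_analytic (h : BrData κ x₀ S R ρ) :
    AnalyticOnNhd ℂ (qS S) (Metric.ball ((x₀, 0) : ℂ × ℂ) ρ) := by
  intro p hp
  exact (Dx_analyticAt (h.hS p hp)).neg.div (Dy_analyticAt (h.hS p hp)) (h.hSy p hp)

theorem PS_succ (h : BrData κ x₀ S R ρ) (m : ℕ) {p : ℂ × ℂ}
    (hp : p ∈ Metric.ball ((x₀, 0) : ℂ × ℂ) ρ) :
    PS S R (m + 1) p = Dx (PS S R m) p + Dy (PS S R m) p * qS S p := by
  have h1 := chain_T (T := Dx^[m] R) (S := S) (p := p)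
    (Dxi_analyticAt (h.hR p hp) m).differentiableAt (h.hS p hp).differentiableAt
  have e : PS S R m = fun p => (Dx^[m] R) (p.1, S p) := rfl
  rw [e, h1.1, h1.2]
  have h2 := h.hSy p hp
  unfold PS qS
  rw [Function.iterate_succ_apply']
  field_simp
  ring

theorem qS_zero (h : BrData κ x₀ S R ρ) {x : ℂ} (hx : ‖x - x₀‖ < ρ) : qS S (x, 0) = 0 := by
  unfold qS
  rw [Dx_eq_deriv (h.hS _ (h.mem hx)).differentiableAt]
  have e : (fun t => S (t, 0)) =ᶠ[𝓝 x] fun _ => 0 := by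
    have : IsOpen {t : ℂ | ‖t - x₀‖ < ρ} := isOpen_lt (by fun_prop) (by fun_prop)
    filter_upwards [this.mem_nhds hx] with t ht
    exact h.hS0 t ht
  rw [e.deriv_eq]
  simp

theorem cc_eq (h : BrData κ x₀ S R ρ) (m i : ℕ) {x : ℂ} (hx : ‖x - x₀‖ < ρ) :
    cc (fun _ => 1) (co (qS S)) m i x = co (PS S R m) i x := by
  have hball : IsOpen (Metric.ball ((x₀, 0) : ℂ × ℂ) ρ) := Metric.isOpen_ball
  have hc : Tendsto (fun y : ℂ => ((x, y) : ℂ × ℂ)) (𝓝 0) (𝓝 (x, 0)) := by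
    have : Continuous (fun y : ℂ => ((x, y) : ℂ × ℂ)) := by fun_prop
    exact this.tendsto 0
  have hev := hc.eventually (hball.mem_nhds (h.mem hx))
  induction m generalizing i x with
  | zero =>
    rw [cc_zero]
    unfold co
    have e : (fun y => PS S R 0 (x, y)) =ᶠ[𝓝 0] fun y => y := by
      filter_upwards [hev] with y hy
      exact h.hRS _ hy
    rw [cf_congr e, cf_id]
  | succ m ih =>
    rw [cc_succ]
    beta_reduce
    have hB : IsOpen {t : ℂ | ‖t - x₀‖ < ρ} := isOpen_lt (by fun_prop) (by fun_prop)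
    have e0 : ∀ (j : ℕ) (t : ℂ), ‖t - x₀‖ < ρ →
        cc (fun _ => 1) (co (qS S)) m j t = co (PS S R m) j t := by
      intro j t ht
      have hc' : Tendsto (fun y : ℂ => ((t, y) : ℂ × ℂ)) (𝓝 0) (𝓝 (t, 0)) := by
        have : Continuous (fun y : ℂ => ((t, y) : ℂ × ℂ)) := by fun_prop
        exact this.tendsto 0
      exact ih j ht hc' (hc'.eventually (hball.mem_nhds (h.mem ht)))
    have e1 : deriv (cc (fun _ => 1) (co (qS S)) m i) x = deriv (co (PS S R m) i) x := by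
      apply Filter.EventuallyEq.deriv_eq
      filter_upwards [hB.mem_nhds hx] with t ht
      exact e0 i t ht
    have e2 : co (PS S R (m + 1)) i x
        = co (fun p => Dx (PS S R m) p + Dy (PS S R m) p * qS S p) i x := by
      unfold co
      apply cf_congr
      filter_upwards [hev] with y hy
      exact h.PS_succ m hy
    have hPx := Dx_analyticOn (h.PS_analytic m) _ (h.mem hx)
    have hPy := Dy_analyticOn (h.PS_analytic m) _ (h.mem hx)
    have hq := h.qS_analytic _ (h.mem hx)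
    have hmul : AnalyticAt ℂ (fun p => Dy (PS S R m) p * qS S p) (x, 0) := hPy.mul hq
    rw [e2, co_add hPx hmul, co_mul hPy hq, Finset.sum_range_succ, Nat.sub_self]
    have e3 : co (qS S) 0 x = 0 := by
      unfold co
      rw [cf_zero]
      exact h.qS_zero hx
    rw [e3, mul_zero, add_zero, co_Dx hball (h.PS_analytic m) i x (h.mem hx), e1, one_mul]
    congr 1
    apply Finset.sum_congr rfl
    intro a _
    rw [co_Dy hball (h.PS_analytic m) a x (h.mem hx), e0 (a + 1) x hx]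
    ring

/-- The remainder of the expansion along the level curve is `O(y ^ (n + 2))`. -/
theorem rem_bound (h : BrData κ x₀ S R ρ) (n : ℕ) {x : ℂ} (hx : ‖x - x₀‖ < ρ) :
    ∃ C : ℝ, ∀ᶠ y in 𝓝 (0 : ℂ), ‖y / (1 - κ x * y) - ∑ m ∈ Finset.range (n + 1),
      (-(y / (1 - κ x * y))) ^ m / m.factorial * PS S R m (x, y)‖ ≤ C * ‖y‖ ^ (n + 2) := by
  have hball : IsOpen (Metric.ball ((x₀, 0) : ℂ × ℂ) ρ) := Metric.isOpen_ball
  have hc : Tendsto (fun y : ℂ => ((x, y) : ℂ × ℂ)) (𝓝 0) (𝓝 (x, 0)) := by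
    have : Continuous (fun y : ℂ => ((x, y) : ℂ × ℂ)) := by fun_prop
    exact this.tendsto 0
  have hev := hc.eventually (hball.mem_nhds (h.mem hx))
  -- `R` is analytic near `(x, 0)`
  have hRx : AnalyticAt ℂ R (x, 0) := by
    have := h.hR _ (h.mem hx)
    rwa [h.hS0 x hx] at this
  have hR0 : ∀ᶠ t in 𝓝 x, R (t, 0) = 0 := by
    have hB : IsOpen {t : ℂ | ‖t - x₀‖ < ρ} := isOpen_lt (by fun_prop) (by fun_prop)
    filter_upwards [hB.mem_nhds hx] with t ht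
    have := h.hRS _ (h.mem ht)
    rwa [h.hS0 t ht] at this
  have hcd : ContDiffAt ℂ 1 R (x, 0) := hRx.contDiffAt
  obtain ⟨K, t, ht, hK⟩ := hcd.exists_lipschitzOnWith
  obtain ⟨a₁, ha₁, hta⟩ := Metric.mem_nhds_iff.1 ht
  obtain ⟨a₂, ha₂, hRa⟩ := Metric.eventually_nhds_iff_ball.1 hRx.eventually_analyticAt
  obtain ⟨a₃, ha₃, hRz⟩ := Metric.eventually_nhds_iff_ball.1 hR0
  obtain ⟨a, ha, haa₁, haa₂, haa₃⟩ : ∃ a > 0, 2 * a ≤ a₁ ∧ 2 * a ≤ a₂ ∧ 2 * a ≤ a₃ := by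
    refine ⟨min (min a₁ a₂) a₃ / 2, by positivity, ?_, ?_, ?_⟩
    · have := min_le_left (min a₁ a₂) a₃
      have := min_le_left a₁ a₂
      linarith
    · have := min_le_left (min a₁ a₂) a₃
      have := min_le_right a₁ a₂
      linarith
    · have := min_le_right (min a₁ a₂) a₃
      linarith
  -- bound of `R`
  have hRb : ∀ ξ s : ℂ, ‖ξ - x‖ < 2 * a → ‖s‖ < 2 * a → ‖R (ξ, s)‖ ≤ K * ‖s‖ := by
    intro ξ s h1 h2
    have m1 : ((ξ, s) : ℂ × ℂ) ∈ t := hta (by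
      rw [← ball_prod_same]
      exact ⟨by rw [Metric.mem_ball, dist_eq_norm]; linarith,
        by rw [Metric.mem_ball, dist_eq_norm, sub_zero]; linarith⟩)
    have m2 : ((ξ, 0) : ℂ × ℂ) ∈ t := hta (by
      rw [← ball_prod_same]
      exact ⟨by rw [Metric.mem_ball, dist_eq_norm]; linarith,
        by rw [Metric.mem_ball, dist_self]; linarith⟩)
    have h3 := hK.dist_le_mul _ m1 _ m2
    rw [hRz ξ (by rw [Metric.mem_ball, dist_eq_norm]; linarith), dist_zero_right] at h3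
    have h4 : dist ((ξ, s) : ℂ × ℂ) (ξ, 0) = ‖s‖ := by
      rw [Prod.dist_eq]
      simp
    rwa [h4] at h3
  have hRan : AnalyticOnNhd ℂ R (Metric.ball ((x, 0) : ℂ × ℂ) (2 * a)) := fun p hp =>
    hRa p (Metric.ball_subset_ball haa₂ hp)
  -- size of `S (x, y)`
  have hSx : AnalyticAt ℂ (fun y => S (x, y)) 0 := slice_analytic (h.hS _ (h.mem hx))
  obtain ⟨K', hK'⟩ : ∃ K' : ℝ, ∀ᶠ y in 𝓝 (0 : ℂ), ‖S (x, y)‖ ≤ K' * ‖y‖ := by
    have h1 := hSx.differentiableAt.isBigO_sub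
    have h2 : S (x, 0) = 0 := h.hS0 x hx
    obtain ⟨c, hc⟩ := h1.bound
    refine ⟨c, ?_⟩
    filter_upwards [hc] with y hy
    simpa [h2] using hy
  have hSsmall : ∀ᶠ y in 𝓝 (0 : ℂ), ‖S (x, y)‖ < 2 * a := by
    have h1 : Tendsto (fun y => ‖S (x, y)‖) (𝓝 0) (𝓝 ‖S (x, 0)‖) :=
      hSx.continuousAt.norm.tendsto
    rw [h.hS0 x hx, norm_zero] at h1
    exact h1.eventually (gt_mem_nhds (by linarith))
  -- size of `y'`
  have hden : ∀ᶠ y in 𝓝 (0 : ℂ), (1 : ℝ) / 2 ≤ ‖1 - κ x * y‖ := by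
    have h1 : Continuous (fun y : ℂ => ‖1 - κ x * y‖) := by fun_prop
    have h2 := h1.tendsto 0
    simp only [mul_zero, sub_zero, norm_one] at h2
    exact (h2.eventually (lt_mem_nhds (show (1 : ℝ) / 2 < 1 by norm_num))).mono
      (fun y hy => hy.le)
  have hysmall : ∀ᶠ y in 𝓝 (0 : ℂ), ‖y‖ < a / 4 := by
    have h1 : Tendsto (fun y : ℂ => ‖y‖) (𝓝 0) (𝓝 0) := by
      have := (continuous_norm (E := ℂ)).tendsto 0
      simpa using this
    exact h1.eventually (gt_mem_nhds (by linarith))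
  refine ⟨2 * (K * K') * (2 / a) ^ (n + 1), ?_⟩
  filter_upwards [hev, hK', hSsmall, hden, hysmall] with y hy1 hy2 hy3 hy4 hy5
  have hy' : ‖y / (1 - κ x * y)‖ ≤ 2 * ‖y‖ := by
    rw [norm_div, div_le_iff₀ (by linarith)]
    nlinarith [norm_nonneg y]
  set y' := y / (1 - κ x * y) with hy'def
  have hR1 : R (x + -y', S (x, y)) = y' := by
    have := h.hRT _ hy1
    rw [← sub_eq_add_neg]
    exact this
  have hder : ∀ m, PS S R m (x, y) = iteratedDeriv m (fun t => R (t, S (x, y))) x := by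
    intro m
    unfold PS
    exact Dxi_eq Metric.isOpen_ball hRan m x (S (x, y)) (by
      rw [← ball_prod_same]
      exact ⟨Metric.mem_ball_self (by linarith), by rw [Metric.mem_ball, dist_eq_norm, sub_zero]; exact hy3⟩)
  have hfd : DifferentiableOn ℂ (fun t => R (t, S (x, y))) (Metric.ball x (2 * a)) := by
    intro t ht
    have : AnalyticAt ℂ R (t, S (x, y)) := hRan _ (by
      rw [← ball_prod_same]
      exact ⟨ht, by rw [Metric.mem_ball, dist_eq_norm, sub_zero]; exact hy3⟩)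
    exact (slice_analytic' this).differentiableAt.differentiableWithinAt
  have hM : 0 ≤ K * ‖S (x, y)‖ := by positivity
  have key := taylor_rem (f := fun t => R (t, S (x, y))) (c := x) ha (by linarith : a < 2 * a) hM hfd
    (by
      intro z hz
      rw [Metric.mem_sphere, dist_eq_norm] at hz
      exact hRb z _ (by linarith) hy3) (n + 1) (t := -y') (by
      rw [norm_neg]
      linarith)
  beta_reduce at key
  rw [hR1] at key
  simp only [← hder] at key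
  refine key.trans ?_
  rw [norm_neg]
  have hK'0 : 0 ≤ K' * ‖y‖ := (norm_nonneg _).trans hy2
  calc 2 * (K * ‖S (x, y)‖) * (‖y'‖ / a) ^ (n + 1)
      ≤ 2 * (K * (K' * ‖y‖)) * (2 * ‖y‖ / a) ^ (n + 1) := by gcongr
    _ = 2 * (K * K') * (2 / a) ^ (n + 1) * ‖y‖ ^ (n + 2) := by
        rw [div_pow, div_pow, mul_pow]
        ring

/-- **The recursion.** -/
theorem rec_eq (h : BrData κ x₀ S R ρ) (n : ℕ) (hn : 1 ≤ n) {x : ℂ} (hx : ‖x - x₀‖ < ρ) :
    co (qS S) n x = slopeRec (fun _ => 1) κ (co (qS S)) n x := by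
  have hdy : AnalyticAt ℂ (fun y : ℂ => y / (1 - κ x * y)) 0 := by
    have h1 : AnalyticAt ℂ (fun y : ℂ => 1 - κ x * y) 0 := by fun_prop
    exact analyticAt_id.div h1 (by simp)
  have hP : ∀ m, AnalyticAt ℂ (fun y => PS S R m (x, y)) 0 := fun m =>
    slice_analytic (h.PS_analytic m _ (h.mem hx))
  have hterm : ∀ m ∈ Finset.range (n + 1), AnalyticAt ℂ (fun y : ℂ =>
      (-(y / (1 - κ x * y))) ^ m / m.factorial * PS S R m (x, y)) 0 := by
    intro m _
    exact ((hdy.neg.pow m).div_const).mul (hP m)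
  have hsum : AnalyticAt ℂ (fun y : ℂ => ∑ m ∈ Finset.range (n + 1),
      (-(y / (1 - κ x * y))) ^ m / m.factorial * PS S R m (x, y)) 0 :=
    Finset.analyticAt_fun_sum _ hterm
  have h0 := cf_of_isBigO (hdy.sub hsum) (h.rem_bound n hx) (n := n + 1) (by omega)
  have h0' : cf (fun y => y / (1 - κ x * y) - ∑ m ∈ Finset.range (n + 1),
      (-(y / (1 - κ x * y))) ^ m / m.factorial * PS S R m (x, y)) (n + 1) = 0 := h0
  rw [cf_sub hdy hsum, cf_sum _ hterm] at h0'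
  -- the first coefficient
  have e1 : cf (fun y => y / (1 - κ x * y)) (n + 1) = κ x ^ n := by
    have : (fun y : ℂ => y / (1 - κ x * y)) = fun y => y ^ 1 * ((1 - κ x * y) ^ 1)⁻¹ := by
      funext y
      rw [pow_one, pow_one, div_eq_mul_inv]
    rw [this, cf_pow_mul (analyticAt_inv_pow _ _) 1 (n + 1) (by omega), Nat.add_sub_cancel,
      cf_inv_pow]
    simp
  -- the other terms
  have e2 : ∀ m ∈ Finset.range (n + 1), cf (fun y : ℂ =>
      (-(y / (1 - κ x * y))) ^ m / m.factorial * PS S R m (x, y)) (n + 1)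
      = (-1) ^ m / (m.factorial : ℂ) * ∑ j ∈ Finset.range (n + 1 - m + 1),
        ((m + j - 1).choose j : ℂ) * (κ x ^ j *
          cc (fun _ => 1) (co (qS S)) m (n + 1 - m - j) x) := by
    intro m hm
    rw [Finset.mem_range] at hm
    have : (fun y : ℂ => (-(y / (1 - κ x * y))) ^ m / m.factorial * PS S R m (x, y))
        = fun y => (-1) ^ m / (m.factorial : ℂ) * (y ^ m * (((1 - κ x * y) ^ m)⁻¹ *
          PS S R m (x, y))) := by
      funext y
      rw [neg_pow, div_pow]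
      ring
    have hmul : AnalyticAt ℂ (fun y => ((1 - κ x * y) ^ m)⁻¹ * PS S R m (x, y)) 0 :=
      (analyticAt_inv_pow _ _).mul (hP m)
    rw [this, cf_const_mul, cf_pow_mul hmul m (n + 1) (by omega),
      cf_mul (analyticAt_inv_pow _ _) (hP m)]
    congr 1
    apply Finset.sum_congr rfl
    intro j _
    rw [cf_inv_pow, h.cc_eq m _ hx]
    unfold co
    ring
  rw [e1, Finset.sum_congr rfl e2] at h0'
  -- split the sum over `m`
  rw [Finset.range_eq_Ico, Finset.sum_eq_sum_Ico_succ_bot (by omega : 0 < n + 1),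
    Finset.sum_eq_sum_Ico_succ_bot (by omega : 0 + 1 < n + 1)] at h0'
  have t0 : (-1) ^ 0 / ((Nat.factorial 0 : ℕ) : ℂ) * ∑ j ∈ Finset.range (n + 1 - 0 + 1),
        ((0 + j - 1).choose j : ℂ) * (κ x ^ j *
          cc (fun _ => 1) (co (qS S)) 0 (n + 1 - 0 - j) x) = 0 := by
    rw [Finset.sum_eq_zero, mul_zero]
    intro j _
    rcases Nat.eq_zero_or_pos j with rfl | hj
    · rw [cc_zero, if_neg (by omega)]
      ring
    · rw [Nat.choose_eq_zero_of_lt (by omega)]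
      simp
  have t1 : (-1) ^ (0 + 1) / ((Nat.factorial (0 + 1) : ℕ) : ℂ) *
      ∑ j ∈ Finset.range (n + 1 - (0 + 1) + 1),
        ((0 + 1 + j - 1).choose j : ℂ) * (κ x ^ j *
          cc (fun _ => 1) (co (qS S)) (0 + 1) (n + 1 - (0 + 1) - j) x)
      = - (co (qS S) n x + ∑ j ∈ Finset.Ico 1 n, κ x ^ j * co (qS S) (n - j) x) := by
    have hn1 : n + 1 - (0 + 1) + 1 = n + 1 := by omega
    rw [hn1, Finset.range_eq_Ico, Finset.sum_eq_sum_Ico_succ_bot (by omega : 0 < n + 1),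
      Finset.sum_Ico_succ_top (by omega : 0 + 1 ≤ n)]
    have a0 : cc (fun _ => 1) (co (qS S)) (0 + 1) (n + 1 - (0 + 1) - 0) x = co (qS S) n x := by
      have : n + 1 - (0 + 1) - 0 = n := by omega
      rw [this]
      exact cc_one _ _ n hn x
    have a1 : cc (fun _ => 1) (co (qS S)) (0 + 1) (n + 1 - (0 + 1) - n) x = 0 := by
      have : n + 1 - (0 + 1) - n = 0 := by omega
      rw [this, cc_zero_right]
    have a2 : ∑ j ∈ Finset.Ico (0 + 1) n, ((0 + 1 + j - 1).choose j : ℂ) * (κ x ^ j *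
          cc (fun _ => 1) (co (qS S)) (0 + 1) (n + 1 - (0 + 1) - j) x)
        = ∑ j ∈ Finset.Ico 1 n, κ x ^ j * co (qS S) (n - j) x := by
      apply Finset.sum_congr rfl
      intro j hj
      rw [Finset.mem_Ico] at hj
      have b1 : n + 1 - (0 + 1) - j = n - j := by omega
      have b2 : 0 + 1 + j - 1 = j := by omega
      rw [b1, b2, Nat.choose_self]
      have := cc_one (fun _ => 1) (co (qS S)) (n - j) (by omega) x
      rw [zero_add, this]
      push_cast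
      ring
    rw [a0, a1, a2]
    simp
  have t2 : ∑ m ∈ Finset.Ico (0 + 1 + 1) (n + 1), (-1) ^ m / (m.factorial : ℂ) *
      ∑ j ∈ Finset.range (n + 1 - m + 1), ((m + j - 1).choose j : ℂ) * (κ x ^ j *
          cc (fun _ => 1) (co (qS S)) m (n + 1 - m - j) x)
      = ∑ m ∈ Finset.Icc 2 n, (-1) ^ m / (m.factorial : ℂ) *
      ∑ j ∈ Finset.range (n + 1 - m), ((m + j - 1).choose j : ℂ) * (κ x ^ j *
          cc (fun _ => 1) (co (qS S)) m (n + 1 - m - j) x) := by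
    have hI : Finset.Ico (0 + 1 + 1) (n + 1) = Finset.Icc 2 n := by
      ext m
      simp only [Finset.mem_Ico, Finset.mem_Icc]
      omega
    rw [hI]
    apply Finset.sum_congr rfl
    intro m _
    rw [Finset.sum_range_succ, Nat.sub_self, cc_zero_right]
    simp
  rw [t0, t1, t2] at h0'
  unfold slopeRec
  linear_combination h0'

/-- On the ball the Taylor coefficients of the slope are `slope (fun _ => 1) κ n`. -/
theorem co_eq_slope (h : BrData κ x₀ S R ρ) (n : ℕ) {x : ℂ} (hx : ‖x - x₀‖ < ρ) :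
    co (qS S) n x = slope (fun _ => 1) κ n x := by
  rcases Nat.eq_zero_or_pos n with rfl | hn
  · rw [slope_zero]
    unfold co
    rw [cf_zero]
    exact h.qS_zero hx
  · have hB : IsOpen {t : ℂ | ‖t - x₀‖ < ρ} := isOpen_lt (by fun_prop) (by fun_prop)
    exact slope_unique_on hB (fun m hm y hy => h.rec_eq m hm hy) n hn hx

end BrData

end Pool.Agent.MP_ae5b4e_an_ND
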