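import Mathlib

/-!
# MP_ae5b4e_an: coefficients of convergent series from limits

Elementary facts on convergent power series of one complex variable, used to translate analytic
statements on a punctured disc into statements on Laurent coefficients.
-/

noncomputable section

namespace Pool.Agent.MP_ae5b4e_an_ND

open Filter Topology

/-- If the coefficients below `k` vanish then the quotient by `u ^ k` tends to the `k`-th
coefficient. -/
lemma tendsto_of_hasSum {b : ℕ → ℂ} {p : ℂ → ℂ} {δ : ℝ} (hδ : 0 < δ)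
    (h : ∀ u : ℂ, ‖u‖ < δ → HasSum (fun n => b n * u ^ n) (p u)) {k : ℕ}
    (hk : ∀ i < k, b i = 0) : Tendsto (fun u => p u / u ^ k) (𝓝[≠] 0) (𝓝 (b k)) := by
  -- absolute convergence at `δ / 2`
  have hs : Summable (fun n => ‖b n‖ * (δ / 2) ^ n) := by
    have hn : ‖((δ / 2 : ℝ) : ℂ)‖ = δ / 2 := by
      rw [Complex.norm_real, Real.norm_of_nonneg (half_pos hδ).le]
    have h1 : Summable (fun n => ‖b n * ((δ / 2 : ℝ) : ℂ) ^ n‖) :=
      (h ((δ / 2 : ℝ) : ℂ) (by rw [hn]; exact half_lt_self hδ)).summable.norm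
    have h2 : (fun n => ‖b n‖ * (δ / 2) ^ n) = fun n => ‖b n * ((δ / 2 : ℝ) : ℂ) ^ n‖ := by
      funext n
      rw [norm_mul, norm_pow, hn]
    rw [h2]
    exact h1
  have hs2 : Summable (fun n => ‖b (n + (k + 1))‖ * (δ / 2) ^ n) := by
    have h1 : Summable (fun n => ‖b (n + (k + 1))‖ * (δ / 2) ^ (n + (k + 1))) :=
      (summable_nat_add_iff (f := fun n => ‖b n‖ * (δ / 2) ^ n) (k + 1)).2 hs
    have h2 := h1.mul_right (((δ / 2) ^ (k + 1))⁻¹)
    refine h2.congr fun n => ?_
    rw [pow_add]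
    have : (δ / 2) ^ (k + 1) ≠ 0 := by positivity
    field_simp
  set M := ∑' n, ‖b (n + (k + 1))‖ * (δ / 2) ^ n with hM
  have key : ∀ u : ℂ, ‖u‖ < δ / 2 → u ≠ 0 → ‖p u / u ^ k - b k‖ ≤ ‖u‖ * M := by
    intro u hu hu0
    have h0 := h u (by linarith [norm_nonneg u])
    have h1 : HasSum (fun n => b (n + (k + 1)) * u ^ (n + (k + 1))) (p u - b k * u ^ k) := by
      have h2 := (hasSum_nat_add_iff' (k + 1)).2 h0
      have h3 : ∑ i ∈ Finset.range (k + 1), b i * u ^ i = b k * u ^ k := by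
        rw [Finset.sum_range_succ]
        rw [Finset.sum_eq_zero, zero_add]
        intro i hi
        rw [hk i (Finset.mem_range.1 hi), zero_mul]
      rwa [h3] at h2
    have h4 : HasSum (fun n => b (n + (k + 1)) * u ^ n) ((p u - b k * u ^ k) / u ^ (k + 1)) := by
      have h5 := h1.div_const (u ^ (k + 1))
      refine h5.congr_fun ?_ |> fun h => h
      intro n
      rw [pow_add]
      field_simp
    have h6 : p u / u ^ k - b k = u * ((p u - b k * u ^ k) / u ^ (k + 1)) := by
      rw [pow_succ]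
      field_simp
    rw [h6, norm_mul]
    refine mul_le_mul_of_nonneg_left ?_ (norm_nonneg u)
    rw [← h4.tsum_eq]
    refine (norm_tsum_le_tsum_norm ?_).trans ?_
    · refine Summable.of_nonneg_of_le (fun n => norm_nonneg _) (fun n => ?_) hs2
      rw [norm_mul, norm_pow]
      gcongr
    · refine Summable.tsum_le_tsum (fun n => ?_) ?_ hs2
      · rw [norm_mul, norm_pow]
        gcongr
      · refine Summable.of_nonneg_of_le (fun n => norm_nonneg _) (fun n => ?_) hs2
        rw [norm_mul, norm_pow]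
        gcongr
  rw [tendsto_iff_norm_sub_tendsto_zero]
  have hlim : Tendsto (fun u : ℂ => ‖u‖ * M) (𝓝[≠] 0) (𝓝 0) := by
    have : Tendsto (fun u : ℂ => ‖u‖ * M) (𝓝 0) (𝓝 (‖(0:ℂ)‖ * M)) := by
      exact (continuous_norm.mul continuous_const).tendsto _
    rw [norm_zero, zero_mul] at this
    exact this.mono_left nhdsWithin_le_nhds
  refine squeeze_zero' (Eventually.of_forall fun u => norm_nonneg _) ?_ hlim
  have h7 : ∀ᶠ u : ℂ in 𝓝[≠] 0, ‖u‖ < δ / 2 := by
    have : ∀ᶠ u : ℂ in 𝓝 0, ‖u‖ < δ / 2 := by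
      have := Metric.ball_mem_nhds (0:ℂ) (show 0 < δ / 2 by positivity)
      filter_upwards [this] with u hu
      simpa using hu
    exact this.filter_mono nhdsWithin_le_nhds
  filter_upwards [h7, self_mem_nhdsWithin] with u h1 h2
  exact key u h1 h2

/-- If `p u / u ^ K` tends to `c` then the coefficients below `K` vanish and the `K`-th one is
`c`. -/
lemma coeff_of_tendsto {b : ℕ → ℂ} {p : ℂ → ℂ} {δ : ℝ} (hδ : 0 < δ)
    (h : ∀ u : ℂ, ‖u‖ < δ → HasSum (fun n => b n * u ^ n) (p u)) {K : ℕ} {c : ℂ}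
    (hc : Tendsto (fun u => p u / u ^ K) (𝓝[≠] 0) (𝓝 c)) :
    (∀ i < K, b i = 0) ∧ b K = c := by
  have h1 : ∀ i ≤ K, ∀ j < i, b j = 0 := by
    intro i
    induction i with
    | zero => intro _ j hj; omega
    | succ i ih =>
      intro hi j hj
      have h2 := ih (by omega)
      rcases Nat.lt_succ_iff_lt_or_eq.1 hj with hj | rfl
      · exact h2 j hj
      · have h3 := tendsto_of_hasSum hδ h h2
        have h4 : Tendsto (fun u : ℂ => p u / u ^ K * u ^ (K - j)) (𝓝[≠] 0) (𝓝 (c * 0)) := by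
          refine hc.mul ?_
          have h5 : Tendsto (fun u : ℂ => u ^ (K - j)) (𝓝 0) (𝓝 ((0:ℂ) ^ (K - j))) :=
            (continuous_pow _).tendsto _
          rw [zero_pow (by omega)] at h5
          exact h5.mono_left nhdsWithin_le_nhds
        rw [mul_zero] at h4
        refine tendsto_nhds_unique h3 (h4.congr' ?_)
        filter_upwards [self_mem_nhdsWithin] with u hu
        have hu : u ≠ 0 := hu
        have h6 : u ^ K = u ^ j * u ^ (K - j) := by rw [← pow_add]; congr 1; omega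
        rw [h6]
        field_simp
  refine ⟨h1 K le_rfl, tendsto_nhds_unique (tendsto_of_hasSum hδ h (h1 K le_rfl)) hc⟩

/-- Uniqueness of the coefficients. -/
lemma coeff_unique {b b' : ℕ → ℂ} {p p' : ℂ → ℂ} {δ : ℝ} (hδ : 0 < δ)
    (h : ∀ u : ℂ, ‖u‖ < δ → HasSum (fun n => b n * u ^ n) (p u))
    (h' : ∀ u : ℂ, ‖u‖ < δ → HasSum (fun n => b' n * u ^ n) (p' u))
    (he : ∀ᶠ u in 𝓝[≠] 0, p u = p' u) : b = b' := by
  funext n
  have h1 : ∀ u : ℂ, ‖u‖ < δ → HasSum (fun n => (b n - b' n) * u ^ n) (p u - p' u) := by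
    intro u hu
    refine ((h u hu).sub (h' u hu)).congr_fun ?_ |> fun h => h
    intro n
    ring
  have h2 : Tendsto (fun u => (p u - p' u) / u ^ n) (𝓝[≠] 0) (𝓝 0) := by
    refine Tendsto.congr' ?_ tendsto_const_nhds
    filter_upwards [he] with u hu
    rw [hu, sub_self, zero_div]
  exact sub_eq_zero.1 (coeff_of_tendsto hδ h1 h2).2

end Pool.Agent.MP_ae5b4e_an_ND
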