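import Mathlib
import Pool.Agent.Lib.MP_ae5b4e_an_LAT.NDDefs
import Pool.Agent.Lib.MP_ae5b4e_an_LAT.NDGood
import Pool.Agent.Lib.MP_ae5b4e_an_LAT.NDPl
import Pool.Agent.Lib.MP_ae5b4e_an_LAT.NDSer
import Pool.Agent.Lib.Puiseux.Rot

/-!
# MP_ae5b4e_an: glue for the local theorem on first integrals near the diagonal

* `exists_factor`: an irreducible equation of an analytic germ which satisfies an algebraic one.
* `BGood`: the branch through a regular point of the curve is good; `bgood_all`: all branches of an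
  irreducible equation are good if one is.
* `placeOK_of_series`: the place given by a convergent Laurent series which satisfies the equation.
* `coeff_facts`: translation of the conclusion at a place into the coefficients of the series.
-/

noncomputable section

open Polynomial Filter Topology

namespace Pool.Agent.MP_ae5b4e_an_ND

/-! ### An irreducible equation -/

lemma analyticAt_evalEval_comp {κ : ℂ → ℂ} {x₀ : ℂ} (hκ : AnalyticAt ℂ κ x₀) (G : ℂ[X][X]) :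
    AnalyticAt ℂ (fun x => evalEval x (κ x) G) x₀ := by
  have h1 : AnalyticAt ℂ (fun x => ((x, κ x) : ℂ × ℂ)) x₀ := analyticAt_id.prod hκ
  exact AnalyticAt.comp (f := fun x => ((x, κ x) : ℂ × ℂ)) (analyticAt_evalEval G (x₀, κ x₀)) h1

lemma exists_factor {κ : ℂ → ℂ} {x₀ : ℂ} (hκ : AnalyticAt ℂ κ x₀) {G : ℂ[X][X]} (hG : G ≠ 0)
    (hrel : ∀ᶠ x in 𝓝 x₀, evalEval x (κ x) G = 0) :
    ∃ m : ℂ[X][X], Irreducible (m.map (algebraMap ℂ[X] (RatFunc ℂ))) ∧
      ∀ᶠ x in 𝓝 x₀, evalEval x (κ x) m = 0 := by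
  revert hG hrel
  refine WfDvdMonoid.induction_on_irreducible G ?_ ?_ ?_
  · intro h
    exact absurd rfl h
  · intro u hu _ hrel
    exfalso
    have h1 := hrel.self_of_nhds
    have h2 : IsUnit (evalEval x₀ (κ x₀) u) := hu.map (evalEvalRingHom x₀ (κ x₀))
    rw [h1] at h2
    exact not_isUnit_zero h2
  · intro a i ha hi ih _ hrel
    have h1 : ∀ᶠ x in 𝓝 x₀, evalEval x (κ x) i * evalEval x (κ x) a = 0 := by
      filter_upwards [hrel] with x hx
      rw [← evalEval_mul]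
      exact hx
    rcases (analyticAt_evalEval_comp hκ i).eventually_eq_zero_or_eventually_ne_zero with h2 | h2
    · refine ⟨i, ?_, h2⟩
      have hdeg : i.natDegree ≠ 0 := by
        intro h0
        obtain ⟨p, rfl⟩ := natDegree_eq_zero.1 h0
        have hp : p ≠ 0 := by
          rintro rfl
          rw [map_zero] at hi
          exact hi.ne_zero rfl
        have h3 : ∀ᶠ x in 𝓝[≠] x₀, p.eval x = 0 := by
          refine (h2.filter_mono nhdsWithin_le_nhds).mono fun x hx => ?_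
          rwa [evalEval_C] at hx
        have h4 : ∀ᶠ x in 𝓝[≠] x₀, x ∉ p.roots.toFinset := by
          have h5 : IsClosed ((p.roots.toFinset : Set ℂ) \ {x₀}) :=
            (Finset.finite_toSet _ |>.subset Set.sdiff_subset).isClosed
          have h6 : ∀ᶠ x in 𝓝 x₀, x ∉ ((p.roots.toFinset : Set ℂ) \ {x₀}) :=
            h5.isOpen_compl.mem_nhds (by simp)
          filter_upwards [h6.filter_mono nhdsWithin_le_nhds, self_mem_nhdsWithin] with x hx hx' hx''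
          exact hx ⟨hx'', hx'⟩
        obtain ⟨x, hx, hx'⟩ := (h3.and h4).exists
        apply hx'
        rw [Multiset.mem_toFinset, mem_roots hp]
        exact hx
      exact (IsPrimitive.irreducible_iff_irreducible_map_fraction_map
        (hi.isPrimitive hdeg)).1 hi
    · rcases (analyticAt_evalEval_comp hκ a).eventually_eq_zero_or_eventually_ne_zero with h3 | h3
      · exact ih ha h3
      · exfalso
        obtain ⟨x, h4, h5, h6⟩ := ((h1.filter_mono nhdsWithin_le_nhds).and (h2.and h3)).exists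
        exact mul_ne_zero h5 h6 h4

/-! ### All branches are good -/

lemma reg_eventually {m : ℂ[X][X]} (hirr : Irreducible (m.map (algebraMap ℂ[X] (RatFunc ℂ))))
    {x₀ : ℂ} (h : Reg m x₀) : ∀ᶠ x in 𝓝 x₀, Reg m x := by
  have h1 : IsOpen {x : ℂ | ¬ Reg m x}ᶜ := (reg_finite hirr).isClosed.isOpen_compl
  have h2 := h1.mem_nhds (x := x₀) (by simpa using h)
  filter_upwards [h2] with x hx
  simpa using hx

lemma reg_eventually_ne {m : ℂ[X][X]} (hirr : Irreducible (m.map (algebraMap ℂ[X] (RatFunc ℂ))))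
    (x₀ : ℂ) : ∀ᶠ x in 𝓝[≠] x₀, Reg m x := by
  have h1 : IsClosed ({x : ℂ | ¬ Reg m x} \ {x₀}) :=
    ((reg_finite hirr).subset Set.sdiff_subset).isClosed
  have h2 : ∀ᶠ x in 𝓝 x₀, x ∉ ({x : ℂ | ¬ Reg m x} \ {x₀}) := h1.isOpen_compl.mem_nhds (by simp)
  filter_upwards [h2.filter_mono nhdsWithin_le_nhds, self_mem_nhdsWithin] with x hx hx'
  by_contra h
  exact hx ⟨h, hx'⟩

/-- The branch through the point `(x, t)` of the curve is good. -/
def BGood (m : ℂ[X][X]) (x t : ℂ) : Prop :=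
  ∃ b : ℂ → ℂ, Good b x ∧ b x = t ∧ ∀ᶠ x' in 𝓝 x, evalEval x' (b x') m = 0

lemma BGood.good {m : ℂ[X][X]} {x : ℂ} (hreg : Reg m x) {b : ℂ → ℂ} (hb : ContinuousAt b x)
    (h : BGood m x (b x)) (hrel : ∀ᶠ x' in 𝓝 x, evalEval x' (b x') m = 0) : Good b x := by
  obtain ⟨c, hc, hcx, hcrel⟩ := h
  refine hc.congr ?_
  refine branch_unique hc.1.continuousAt hb hcx ?_ hcrel hrel
  exact hreg.2 _ hcrel.self_of_nhds

lemma bgood_loc {m : ℂ[X][X]} (hirr : Irreducible (m.map (algebraMap ℂ[X] (RatFunc ℂ))))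
    (hP : ∀ (κ : ℂ → ℂ) (c : ℂ) (R : ℝ), AnalyticOnNhd ℂ κ (Metric.ball c R) →
      ∀ x₁ ∈ Metric.ball c R, Good κ x₁ → ∀ x ∈ Metric.ball c R, Good κ x)
    {x₀ : ℂ} (hx₀ : Reg m x₀) {b : ℂ → ℂ} (hb : AnalyticAt ℂ b x₀)
    (hrel : ∀ᶠ x in 𝓝 x₀, evalEval x (b x) m = 0) :
    ∀ᶠ x in 𝓝 x₀, (BGood m x (b x) ↔ BGood m x₀ (b x₀)) := by
  obtain ⟨R, hR, hball⟩ := Metric.eventually_nhds_iff_ball.1
    (hb.eventually_analyticAt.and (hrel.eventually_nhds.and (reg_eventually hirr hx₀)))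
  have hiff : ∀ x ∈ Metric.ball x₀ R, (BGood m x (b x) ↔ Good b x) := by
    intro x hx
    obtain ⟨h1, h2, h3⟩ := hball x hx
    exact ⟨fun h => h.good h3 h1.continuousAt h2, fun h => ⟨b, h, rfl, h2⟩⟩
  have hmem : x₀ ∈ Metric.ball x₀ R := Metric.mem_ball_self hR
  have han : AnalyticOnNhd ℂ b (Metric.ball x₀ R) := fun x hx => (hball x hx).1
  filter_upwards [Metric.ball_mem_nhds x₀ hR] with x hx
  rw [hiff x hx, hiff x₀ hmem]
  exact ⟨fun h => hP b x₀ R han x hx h x₀ hmem, fun h => hP b x₀ R han x₀ hmem h x hx⟩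

lemma bgood_all {m : ℂ[X][X]} (hirr : Irreducible (m.map (algebraMap ℂ[X] (RatFunc ℂ))))
    (hP : ∀ (κ : ℂ → ℂ) (c : ℂ) (R : ℝ), AnalyticOnNhd ℂ κ (Metric.ball c R) →
      ∀ x₁ ∈ Metric.ball c R, Good κ x₁ → ∀ x ∈ Metric.ball c R, Good κ x)
    {x₁ : ℂ} (hx₁ : Reg m x₁) {κ : ℂ → ℂ} (hκ : Good κ x₁)
    (hrel : ∀ᶠ x in 𝓝 x₁, evalEval x (κ x) m = 0)
    {x t : ℂ} (hx : Reg m x) (ht : evalEval x t m = 0) : BGood m x t :=
  all_good hirr (BGood m) (fun _ h0 _ hb hr => bgood_loc hirr hP h0 hb hr) hx₁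
    hrel.self_of_nhds ⟨κ, hκ, rfl, hrel⟩ hx ht

/-! ### Places -/

lemma placeOK_of_series {m : ℂ[X][X]} (hall : ∀ x t, Reg m x → evalEval x t m = 0 → BGood m x t)
    {e : ℂ} {N : ℕ} (hN : 0 < N) {δ : ℝ} (hδ : 0 < δ) {κ : ℂ → ℂ}
    (hcont : ∀ w, w ≠ 0 → ‖w‖ < δ → ContinuousAt κ w)
    (hreg : ∀ w, w ≠ 0 → ‖w‖ < δ → Reg m (e + w ^ N) ∧ evalEval (e + w ^ N) (κ w) m = 0) :
    PlaceOK e N κ δ where
  N_pos := hN
  δ_pos := hδ
  good := by
    intro w₁ hw₁ hw₁δ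
    obtain ⟨h1, h2⟩ := hreg w₁ hw₁ hw₁δ
    obtain ⟨b, hb, hbx, hbrel⟩ := hall _ _ h1 h2
    refine ⟨b, hb, ?_⟩
    obtain ⟨c, -, -, hc⟩ := branch h2 (h1.2 _ h2)
    have hpow : Tendsto (fun w : ℂ => e + w ^ N) (𝓝 w₁) (𝓝 (e + w₁ ^ N)) := by
      have : Continuous (fun w : ℂ => e + w ^ N) := by fun_prop
      exact this.tendsto w₁
    have t1 : Tendsto (fun w => ((e + w ^ N, κ w) : ℂ × ℂ)) (𝓝 w₁) (𝓝 (e + w₁ ^ N, κ w₁)) := by
      rw [nhds_prod_eq]
      exact hpow.prodMk (hcont w₁ hw₁ hw₁δ)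
    have t2 : Tendsto (fun w => ((e + w ^ N, b (e + w ^ N)) : ℂ × ℂ)) (𝓝 w₁)
        (𝓝 (e + w₁ ^ N, κ w₁)) := by
      rw [nhds_prod_eq]
      refine hpow.prodMk ?_
      have h3 : Tendsto b (𝓝 (e + w₁ ^ N)) (𝓝 (κ w₁)) := by
        rw [← hbx]
        exact hb.1.continuousAt
      exact h3.comp hpow
    have hset : ∀ᶠ w in 𝓝 w₁, w ≠ 0 ∧ ‖w‖ < δ := by
      exact (isOpen_ne.eventually_mem hw₁).and
        ((isOpen_lt continuous_norm continuous_const).eventually_mem hw₁δ)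
    filter_upwards [t1.eventually hc, t2.eventually hc, hset, hpow.eventually hbrel]
      with w e1 e2 e3 e4
    rw [← e1.1 (hreg w e3.1 e3.2).2, ← e2.1 e4]

/-- Translation of the facts at a place into coefficients of the Laurent series
`r = ∑ a n w ^ (n - K)`. -/
lemma coeff_facts {r : LaurentSeries ℂ} {K : ℕ} {h : ℂ → ℂ} {δ : ℝ} (hδ : 0 < δ)
    (hsum : ∀ w : ℂ, ‖w‖ < δ → HasSum (fun n : ℕ => r.coeff ((n : ℤ) - K) * w ^ n) (h w))
    (hlow : ∀ j < -(K : ℤ), r.coeff j = 0) {N : ℕ} {c : ℂ}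
    (hc : Tendsto (fun w => w ^ N * (h w / w ^ K)) (𝓝[≠] 0) (𝓝 c)) :
    (∀ j < -(N : ℤ), r.coeff j = 0) ∧ r.coeff (-(N : ℤ)) = c := by
  have h1 : ∀ w : ℂ, ‖w‖ < δ →
      HasSum (fun k : ℕ => r.coeff ((k : ℤ) - N - K) * w ^ k) (w ^ N * h w) := by
    intro w hw
    rw [← hasSum_nat_add_iff' N]
    have h2 : ∑ i ∈ Finset.range N, r.coeff ((i : ℤ) - N - K) * w ^ i = 0 := by
      refine Finset.sum_eq_zero fun i hi => ?_
      rw [hlow _ (by have := Finset.mem_range.1 hi; omega), zero_mul]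
    rw [h2, sub_zero]
    refine ((hsum w hw).mul_left (w ^ N)).congr_fun ?_ |> fun h => h
    intro n
    have e : ((n + N : ℕ) : ℤ) - N - K = (n : ℤ) - K := by push_cast; ring
    rw [e, pow_add]
    ring
  have h2 : Tendsto (fun w => w ^ N * h w / w ^ K) (𝓝[≠] 0) (𝓝 c) :=
    hc.congr fun w => by ring
  obtain ⟨h3, h4⟩ := coeff_of_tendsto hδ h1 h2
  constructor
  · intro j hj
    by_cases hjK : j < -(K : ℤ)
    · exact hlow j hjK
    · have h5 := h3 (j + N + K).toNat (by omega)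
      have e : (((j + N + K).toNat : ℕ) : ℤ) - N - K = j := by
        rw [Int.toNat_of_nonneg (by omega)]
        ring
      rwa [e] at h5
  · have e : ((K : ℕ) : ℤ) - N - K = -(N : ℤ) := by ring
    rwa [e] at h4

/-- If `κ (ζ w) = κ w` near `0` then the Laurent series of `κ` is invariant. -/
lemma rot_eq_of_series {r : LaurentSeries ℂ} {K : ℕ} {h : ℂ → ℂ} {δ : ℝ} (hδ : 0 < δ)
    (hsum : ∀ w : ℂ, ‖w‖ < δ → HasSum (fun n : ℕ => r.coeff ((n : ℤ) - K) * w ^ n) (h w))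
    (hlow : ∀ j < -(K : ℤ), r.coeff j = 0) (ζ : ℂˣ) (hζ : ‖(ζ : ℂ)‖ = 1)
    (he : ∀ᶠ w in 𝓝[≠] (0:ℂ), h (ζ * w) / (ζ * w) ^ K = h w / w ^ K) :
    Pool.Agent.Lib.Puiseux.rot ζ r = r := by
  have h1 : ∀ w : ℂ, ‖w‖ < δ →
      HasSum (fun n : ℕ => r.coeff ((n : ℤ) - K) * (ζ : ℂ) ^ n * w ^ n) (h (ζ * w)) := by
    intro w hw
    refine (hsum (ζ * w) (by rw [norm_mul, hζ, one_mul]; exact hw)).congr_fun ?_ |> fun h => h
    intro n
    rw [mul_pow]
    ring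
  have h2 : ∀ w : ℂ, ‖w‖ < δ →
      HasSum (fun n : ℕ => (ζ : ℂ) ^ K * r.coeff ((n : ℤ) - K) * w ^ n) ((ζ : ℂ) ^ K * h w) := by
    intro w hw
    refine ((hsum w hw).mul_left ((ζ : ℂ) ^ K)).congr_fun ?_ |> fun h => h
    intro n
    ring
  have h3 := coeff_unique hδ h1 h2 (by
    filter_upwards [he, self_mem_nhdsWithin] with w hw hw0
    have hw0 : w ≠ 0 := hw0
    have hz : (ζ : ℂ) ≠ 0 := ζ.ne_zero
    rw [mul_pow] at hw
    field_simp at hw
    exact hw)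
  ext j
  rw [Pool.Agent.Lib.Puiseux.rot_coeff]
  by_cases hj : j < -(K : ℤ)
  · rw [hlow j hj, mul_zero]
  · have h4 := congrFun h3 (j + K).toNat
    have e : (((j + K).toNat : ℕ) : ℤ) - K = j := by
      rw [Int.toNat_of_nonneg (by omega)]
      ring
    simp only [e] at h4
    have hz : (ζ : ℂ) ≠ 0 := ζ.ne_zero
    have e2 : (ζ : ℂ) ^ (j + K).toNat = (ζ : ℂ) ^ j * (ζ : ℂ) ^ K := by
      rw [← zpow_natCast, Int.toNat_of_nonneg (by omega), zpow_add₀ hz, zpow_natCast]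
    rw [e2] at h4
    have hK : (ζ : ℂ) ^ K ≠ 0 := pow_ne_zero _ hz
    have h5 : (ζ : ℂ) ^ K * ((ζ : ℂ) ^ j * r.coeff j) = (ζ : ℂ) ^ K * r.coeff j := by
      rw [← h4]; ring
    have h6 := mul_left_cancel₀ hK h5
    simpa using h6

end Pool.Agent.MP_ae5b4e_an_ND
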