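import Pool.Agent.Lib.MP_ae5b4e_an_LAT.NDCd
import Mathlib

/-!
# The local contribution of a point to the discriminant of a minimal basis
-/

namespace Pool.Agent.LAT.RH

open Polynomial

open Pool.Agent.Lib.Puiseux (rot rot_coeff rot_single rot_rot rot_one)

/-- The root of unity. -/
noncomputable def zr (N : ℕ) : ℂ := Complex.exp (2 * Real.pi * Complex.I / N)

/-- The root of unity as a unit. -/
noncomputable def zu (N : ℕ) : ℂˣ := Units.mk0 (zr N) (Complex.exp_ne_zero _)

theorem zr_prim {N : ℕ} (hN : 0 < N) : IsPrimitiveRoot (zr N) N :=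
  Complex.isPrimitiveRoot_exp N hN.ne'

theorem zu_val (N : ℕ) : ((zu N : ℂˣ) : ℂ) = zr N := rfl

theorem zu_pow {N : ℕ} (hN : 0 < N) : zu N ^ N = 1 := by
  apply Units.ext
  rw [Units.val_pow_eq_pow_val, zu_val, (zr_prim hN).pow_eq_one, Units.val_one]

theorem rot_C (ζ : ℂˣ) (c : ℂ) : rot ζ (HahnSeries.C c) = HahnSeries.C c := by
  rw [HahnSeries.C_apply, rot_single, zpow_zero, Units.val_one, one_mul]

theorem rot_zfin {e : ℂ} {N : ℕ} (hN : 0 < N) : rot (zu N) (zfin e N) = zfin e N := by
  rw [zfin, map_add, rot_C, rot_single, zpow_natCast, zu_pow hN, Units.val_one, one_mul]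

theorem rot_ev {e : ℂ} {N : ℕ} (hN : 0 < N) (c : RatFunc ℂ) :
    rot (zu N) (ev (zfin e N) (inj_zfin hN) c) = ev (zfin e N) (inj_zfin hN) c := by
  have h : (rot (zu N)).comp (ev (zfin e N) (inj_zfin hN)) = ev (zfin e N) (inj_zfin hN) := by
    apply IsLocalization.ringHom_ext (nonZeroDivisors ℂ[X])
    apply Polynomial.ringHom_ext
    · intro a
      simp only [RingHom.comp_apply, ev_algebraMap, aeval_C, algebraMap_Lau, rot_C]
    · simp only [RingHom.comp_apply, ev_algebraMap, aeval_X, rot_zfin hN]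
  exact DFunLike.congr_fun h c

variable {m : ℂ[X][X]} [hirr : Fact (Irreducible (pF m))]

/-- The chosen roots are all roots. -/
theorem Pt.all_roots (p : Pt m) {t : Lau}
    (ht : (m.map (aeval p.z : ℂ[X] →ₐ[ℂ] Lau).toRingHom).eval t = 0) : ∃ i, p.r i = t := by
  classical
  set P := m.map (aeval p.z : ℂ[X] →ₐ[ℂ] Lau).toRingHom with hP
  have hinj : Function.Injective (aeval p.z : ℂ[X] →ₐ[ℂ] Lau).toRingHom := p.inj
  have hm0 : m ≠ 0 := by
    rintro rfl
    have := hirr.out.ne_zero
    simp [pF] at this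
  have hP0 : P ≠ 0 := (Polynomial.map_ne_zero_iff hinj).mpr hm0
  have hdeg : P.natDegree = m.natDegree := natDegree_map_eq_of_injective hinj m
  have h1 : Finset.univ.image p.r ⊆ P.roots.toFinset := by
    intro x hx
    rw [Finset.mem_image] at hx
    obtain ⟨i, _, rfl⟩ := hx
    rw [Multiset.mem_toFinset, mem_roots hP0]
    exact p.root i
  have h2 : (Finset.univ.image p.r).card = m.natDegree := by
    rw [Finset.card_image_of_injective _ p.rinj, Finset.card_univ, Fintype.card_fin]
  have h3 : P.roots.toFinset.card ≤ (Finset.univ.image p.r).card := by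
    rw [h2, ← hdeg]
    exact (Multiset.toFinset_card_le _).trans (card_roots' P)
  have h4 := Finset.eq_of_subset_of_card_le h1 h3
  have h5 : t ∈ P.roots.toFinset := by
    rw [Multiset.mem_toFinset, mem_roots hP0]
    exact ht
  rw [← h4, Finset.mem_image] at h5
  obtain ⟨i, _, hi⟩ := h5
  exact ⟨i, hi⟩

/-- The permutation of the expansions. -/
theorem exists_perm (p : Pt m) {e : ℂ} {N : ℕ} (hN : 0 < N) (hz : p.z = zfin e N) :
    ∃ π : Equiv.Perm (Fin m.natDegree), π ^ N = 1 ∧
      ∀ i x, rot (zu N) (p.hom i x) = p.hom (π i) x := by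
  have hrz : rot (zu N) p.z = p.z := by rw [hz, rot_zfin hN]
  have h1 : ∀ i, ∃ j, p.r j = rot (zu N) (p.r i) := by
    intro i
    apply p.all_roots
    have h2 := p.root i
    rw [eval_map] at h2 ⊢
    have h3 := congrArg (rot (zu N)) h2
    rw [map_zero, hom_eval₂] at h3
    rw [← h3]
    congr 1
    apply RingHom.ext
    intro q
    have h4 : (rot (zu N)).comp (aeval p.z : ℂ[X] →ₐ[ℂ] Lau).toRingHom =
        (aeval p.z : ℂ[X] →ₐ[ℂ] Lau).toRingHom := by
      apply Polynomial.ringHom_ext
      · intro a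
        change rot (zu N) (aeval p.z (C a)) = aeval p.z (C a)
        rw [aeval_C, algebraMap_Lau, rot_C]
      · change rot (zu N) (aeval p.z X) = aeval p.z X
        rw [aeval_X, hrz]
    rw [h4]
  choose f hf using h1
  have hfi : Function.Injective f := by
    intro i j hij
    apply p.rinj
    apply (rot (zu N)).injective
    rw [← hf, ← hf, hij]
  set π : Equiv.Perm (Fin m.natDegree) :=
    Equiv.ofBijective f (Finite.injective_iff_bijective.mp hfi) with hπ
  have hπr : ∀ i, rot (zu N) (p.r i) = p.r (π i) := fun i => (hf i).symm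
  have hpow : ∀ (s : ℕ) i, rot (zu N ^ s) (p.r i) = p.r ((π ^ s) i) := by
    intro s
    induction s with
    | zero => intro i; rw [pow_zero, rot_one, pow_zero]; rfl
    | succ s ih =>
      intro i
      rw [pow_succ', ← rot_rot, ih, hπr, pow_succ', Equiv.Perm.mul_apply]
  refine ⟨π, ?_, ?_⟩
  · ext1 i
    apply p.rinj
    rw [← hpow, zu_pow hN, rot_one]
    rfl
  · intro i x
    obtain ⟨g, rfl⟩ := AdjoinRoot.mk_surjective x
    rw [Pt.hom, Pt.hom, AdjoinRoot.lift_mk, AdjoinRoot.lift_mk, hom_eval₂, hπr]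
    congr 1
    apply RingHom.ext
    intro c
    rw [RingHom.comp_apply, p.ev_eq hz (inj_zfin hN), rot_ev hN]

theorem cancel_ps {a b : ℕ} {u v : PowerSeries ℂ} (hu : PowerSeries.constantCoeff u ≠ 0)
    (h : (PowerSeries.X : PowerSeries ℂ) ^ a * u = PowerSeries.X ^ b * v) : b ≤ a := by
  by_contra hlt
  push Not at hlt
  have h1 := congrArg (PowerSeries.coeff a) h
  rw [PowerSeries.coeff_X_pow_mul', PowerSeries.coeff_X_pow_mul', if_pos le_rfl,
    if_neg (by omega), Nat.sub_self, PowerSeries.coeff_zero_eq_constantCoeff] at h1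
  exact hu h1

theorem rootMult_of_ps {e : ℂ} {N : ℕ} (hN : 0 < N) {q : ℂ[X]} (hq : q ≠ 0) {s : ℕ}
    {u : PowerSeries ℂ} (hu : PowerSeries.constantCoeff u ≠ 0)
    (h : aeval (zps e N) q = PowerSeries.X ^ (N * s) * u) : q.rootMultiplicity e = s := by
  classical
  obtain ⟨q', hq', hq0⟩ := exists_eq_pow_rootMultiplicity_mul_and_not_dvd q hq e
  set μ := q.rootMultiplicity e
  have h1 : aeval (zps e N) (X - C e) = (PowerSeries.X : PowerSeries ℂ) ^ N := by
    rw [map_sub, aeval_X, aeval_C, zps]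
    change PowerSeries.C e + PowerSeries.X ^ N - PowerSeries.C e = _
    rw [add_sub_cancel_left]
  have h2 : PowerSeries.constantCoeff (aeval (zps e N) q') ≠ 0 := by
    rw [constantCoeff_zps hN]
    intro h3
    exact hq0 (dvd_iff_isRoot.mpr h3)
  rw [hq', map_mul, map_pow, h1, ← pow_mul] at h
  have h3 := cancel_ps hu h.symm
  have h4 := cancel_ps h2 h
  exact Nat.eq_of_mul_eq_mul_left hN (le_antisymm h3 h4)

/-- The matrix `G`. -/
noncomputable def Gm {n : ℕ} (N : ℕ) (v : Fin n → Fin n → PowerSeries ℂ) :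
    Matrix (Fin n) (Fin n) (PowerSeries ℂ) :=
  Matrix.of fun i j => PowerSeries.mk fun a =>
    if N ∣ a then ∑ t ∈ Finset.range N, PowerSeries.coeff (t + a) (v i j) else 0

theorem Kw_mul_Gm {n N : ℕ} {z : ℂ} {π : Equiv.Perm (Fin n)} (hz : IsPrimitiveRoot z N)
    (hN : 0 < N) {v : Fin n → Fin n → PowerSeries ℂ}
    (hv : ∀ i j a, PowerSeries.coeff a (v (π i) j) = z ^ a * PowerSeries.coeff a (v i j)) :
    Kw N z π * Gm N v = Matrix.of v := by
  ext1 i j
  ext t
  rw [Matrix.mul_apply, Matrix.of_apply, map_sum]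
  have h1 : ∀ l, PowerSeries.coeff t (Kw N z π i l * Gm N v l j) =
      Pm N z π (t % N) i l * ∑ r ∈ Finset.range N,
        PowerSeries.coeff (r + (t - t % N)) (v l j) := by
    intro l
    rw [Kw, Finset.sum_mul, map_sum, Finset.sum_eq_single (t % N)]
    · rw [mul_assoc, PowerSeries.coeff_X_pow_mul', if_pos (Nat.mod_le t N),
        PowerSeries.coeff_C_mul, Gm, Matrix.of_apply, PowerSeries.coeff_mk, if_pos]
      exact Nat.dvd_sub_mod t
    · intro r hr hne
      rw [Finset.mem_range] at hr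
      rw [mul_assoc, PowerSeries.coeff_X_pow_mul']
      split_ifs with hrt
      · rw [PowerSeries.coeff_C_mul, Gm, Matrix.of_apply, PowerSeries.coeff_mk, if_neg, mul_zero]
        intro hd
        apply hne
        have h2 := (Nat.modEq_iff_dvd' hrt).mpr hd
        have h3 : r % N = t % N := h2
        rw [← h3, Nat.mod_eq_of_lt hr]
      · rfl
    · intro hh
      exact absurd (Finset.mem_range.mpr (Nat.mod_lt _ hN)) hh
  rw [Finset.sum_congr rfl fun l _ => h1 l]
  simp only [Finset.mul_sum]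
  rw [Finset.sum_comm]
  have h2 : ∀ r ∈ Finset.range N, ∑ l, Pm N z π (t % N) i l *
      PowerSeries.coeff (r + (t - t % N)) (v l j) =
      if t % N = r then PowerSeries.coeff (r + (t - t % N)) (v i j) else 0 := by
    intro r hr
    rw [Finset.mem_range] at hr
    apply Pm_apply_vec hz (u := fun l => PowerSeries.coeff (r + (t - t % N)) (v l j)) hr
      (Nat.mod_lt _ hN)
    intro l
    rw [hv]
    congr 1
    obtain ⟨c, hc⟩ := Nat.dvd_sub_mod (n := N) t
    rw [hc, pow_add, pow_mul, hz.pow_eq_one, one_pow, mul_one]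
  rw [Finset.sum_congr rfl h2, Finset.sum_ite_eq, if_pos (Finset.mem_range.mpr (Nat.mod_lt _ hN))]
  have h3 := Nat.mod_le t N
  have h4 : t % N + (t - t % N) = t := by omega
  rw [h4]

/-- Division by `x - e` for combinations. -/
theorem comb_div (b : Fin m.natDegree → Lf m) (e : ℂ) (c : Fin m.natDegree → ℂ) :
    emb m (X - C e) * ∑ j, algebraMap (RatFunc ℂ) (Lf m)
      ((algebraMap ℂ[X] (RatFunc ℂ) (X - C e))⁻¹ *
      algebraMap ℂ[X] (RatFunc ℂ) (C (c j))) * b j = ∑ j, emb m (C (c j)) * b j := by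
  have hxe : algebraMap ℂ[X] (RatFunc ℂ) (X - C e) ≠ 0 := by
    rw [Ne, map_eq_zero_iff _ (IsFractionRing.injective ℂ[X] (RatFunc ℂ))]
    exact X_sub_C_ne_zero e
  rw [Finset.mul_sum]
  refine Finset.sum_congr rfl fun j _ => ?_
  rw [emb, RingHom.comp_apply, RingHom.comp_apply, map_mul, ← mul_assoc, ← mul_assoc,
    ← map_mul, mul_inv_cancel₀ hxe, map_one, one_mul]

variable {D : Data m} {b : Fin m.natDegree → Lf m} {k : Fin m.natDegree → ℕ}

/-- The local multiplicity of the discriminant. -/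
theorem MinTup.local (h : MinTup D b k) {q : ℂ[X]} (hq0 : q ≠ 0) (e : ℂ)
    (hq : HahnSeries.ofPowerSeries ℤ ℂ (aeval (zps e (D.N e)) q) = (Mat (D.fin e) b).det ^ 2)
    {π : Equiv.Perm (Fin m.natDegree)} (hπN : π ^ (D.N e) = 1)
    (hπ : ∀ i x, rot (zu (D.N e)) ((D.fin e).hom i x) = (D.fin e).hom (π i) x) :
    (q.rootMultiplicity e : ℂ) = m.natDegree - ∑ i,
      ((Finset.range (D.N e)).filter fun s => (π ^ s) i = i).card / (D.N e : ℂ) := by
  classical
  set N := D.N e with hNdef
  have hN : 0 < N := D.hN e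
  have hint : ∀ i j, ∃ g : PowerSeries ℂ, HahnSeries.ofPowerSeries ℤ ℂ g =
      (D.fin e).hom i (b j) := fun i j => (mem_Oset D).mp (h.int j) e i
  choose v hv using hint
  have hrotv : ∀ i j a, PowerSeries.coeff a (v (π i) j) = zr N ^ a * PowerSeries.coeff a (v i j) := by
    intro i j a
    have h1 := congrArg (fun f : Lau => f.coeff (a : ℤ)) (hπ i (b j))
    simp only [← hv, rot_coeff, zpow_natCast, Units.val_pow_eq_pow_val, zu_val,
      HahnSeries.ofPowerSeries_apply_coeff] at h1
    exact h1.symm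
  have hfac := Kw_mul_Gm (zr_prim hN) hN hrotv
  have hdetv : (Mat (D.fin e) b).det = HahnSeries.ofPowerSeries ℤ ℂ (Matrix.of v).det := by
    rw [RingHom.map_det]
    congr 1
    ext1 i j
    exact (hv i j).symm
  obtain ⟨s, hs, hs2⟩ := det_Kw_sq (zr_prim hN) hN hπN
  have hqs : aeval (zps e N) q = PowerSeries.X ^ (N * s) * (Gm N v).det ^ 2 := by
    apply HahnSeries.ofPowerSeries_injective (Γ := ℤ)
    rw [hq, hdetv, ← map_pow, ← hfac, Matrix.det_mul, mul_pow, hs]
  have hG : PowerSeries.constantCoeff (Gm N v).det ≠ 0 := by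
    intro h0
    rw [RingHom.map_det] at h0
    obtain ⟨c, hc, hc2⟩ := Matrix.exists_mulVec_eq_zero_iff.mpr h0
    -- the components
    set w : ℕ → Fin m.natDegree → ℂ := fun t l => ∑ j, c j * PowerSeries.coeff t (v l j) with hw
    have hwrot : ∀ t l, w t (π l) = zr N ^ t * w t l := by
      intro t l
      simp only [hw, hrotv, Finset.mul_sum]
      exact Finset.sum_congr rfl fun j _ => by ring
    have hwsum : ∀ l, ∑ t ∈ Finset.range N, w t l = 0 := by
      intro l
      have h3 := congrFun hc2 l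
      rw [Matrix.mulVec, dotProduct, Pi.zero_apply] at h3
      rw [← h3]
      simp only [hw]
      rw [Finset.sum_comm]
      refine Finset.sum_congr rfl fun j _ => ?_
      rw [RingHom.mapMatrix_apply, Matrix.map_apply, Gm, Matrix.of_apply,
        ← PowerSeries.coeff_zero_eq_constantCoeff, PowerSeries.coeff_mk, if_pos (dvd_zero _),
        Finset.sum_mul]
      exact Finset.sum_congr rfl fun t _ => by rw [add_zero, mul_comm]
    have hwzero : ∀ t < N, ∀ l, w t l = 0 := by
      intro t ht l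
      have h4 : ∑ r ∈ Finset.range N, ∑ l', Pm N (zr N) π t l l' * w r l' =
          ∑ r ∈ Finset.range N, if t = r then w r l else 0 := by
        refine Finset.sum_congr rfl fun r hr => ?_
        exact Pm_apply_vec (zr_prim hN) (Finset.mem_range.mp hr) ht (hwrot r) l
      rw [Finset.sum_ite_eq, if_pos (Finset.mem_range.mpr ht)] at h4
      rw [← h4, Finset.sum_comm]
      refine Finset.sum_eq_zero fun l' _ => ?_
      rw [← Finset.mul_sum, hwsum, mul_zero]
    -- the combination
    set F := ∑ j, algebraMap (RatFunc ℂ) (Lf m)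
      ((algebraMap ℂ[X] (RatFunc ℂ) (X - C e))⁻¹ *
      algebraMap ℂ[X] (RatFunc ℂ) (C (c j))) * b j with hF
    have hcomb := comb_div b e c
    rw [← hF] at hcomb
    have hg : ∑ j, emb m (C (c j)) * b j ∈ Oset D :=
      Subring.sum_mem _ fun j _ => Subring.mul_mem _ (emb_mem_Oset D _) (h.int j)
    apply h.nondiv e c hc
    rw [← hF, mem_Oset]
    intro e' i
    have h5 := congrArg ((D.fin e').hom i) hcomb
    rw [map_mul, fin_emb] at h5
    by_cases he : e' = e
    · subst he
      have h6 : aeval (zps e' (D.N e')) (X - C e') = (PowerSeries.X : PowerSeries ℂ) ^ N := by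
        rw [map_sub, aeval_X, aeval_C, zps]
        change PowerSeries.C e' + PowerSeries.X ^ (D.N e') - PowerSeries.C e' = _
        rw [add_sub_cancel_left]
      have h7 : (D.fin e').hom i (∑ j, emb m (C (c j)) * b j) =
          HahnSeries.ofPowerSeries ℤ ℂ (∑ j, PowerSeries.C (c j) * v i j) := by
        rw [map_sum, map_sum]
        refine Finset.sum_congr rfl fun j _ => ?_
        rw [map_mul, map_mul, fin_emb, aeval_C, hv]
        rfl
      have h8 : (PowerSeries.X : PowerSeries ℂ) ^ N ∣ ∑ j, PowerSeries.C (c j) * v i j := by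
        rw [PowerSeries.X_pow_dvd_iff]
        intro t ht
        rw [map_sum]
        simp only [PowerSeries.coeff_C_mul]
        exact hwzero t ht i
      obtain ⟨u, hu⟩ := h8
      rw [h6, h7, hu, map_mul] at h5
      refine ⟨u, ?_⟩
      refine (mul_left_cancel₀ ?_ h5).symm
      rw [Ne, map_eq_zero_iff _ HahnSeries.ofPowerSeries_injective]
      exact pow_ne_zero _ PowerSeries.X_ne_zero
    · obtain ⟨g', hg'⟩ := (mem_Oset D).mp hg e' i
      set g := aeval (zps e' (D.N e')) (X - C e) with hgdef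
      have h6 : PowerSeries.constantCoeff g ≠ 0 := by
        rw [hgdef, constantCoeff_zps (D.hN e')]
        simp [sub_ne_zero, he]
      have h7 := PowerSeries.mul_inv_cancel g h6
      refine ⟨g⁻¹ * g', ?_⟩
      rw [map_mul, hg', ← h5, ← mul_assoc, ← map_mul, mul_comm g⁻¹ g, h7, map_one, one_mul]
  have h9 : q.rootMultiplicity e = s := by
    refine rootMult_of_ps hN hq0 ?_ hqs
    rw [map_pow]
    exact pow_ne_zero _ hG
  rw [h9, hs2]

end Pool.Agent.LAT.RH
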