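import Pool.Agent.Lib.MP_ae5b4e_an_LAT.NDCe
import Mathlib

/-!
# The Riemann-Hurwitz inequality and the sum of the leading coefficients
-/

namespace Pool.Agent.LAT.RH

open Polynomial

open Pool.Agent.Lib.Puiseux (rot rot_coeff rot_single rot_rot rot_one)

/-! ### Permutations -/

section perm

variable {n N : ℕ} {π : Equiv.Perm (Fin n)}

/-- The fraction of powers fixing a point. -/
noncomputable def frac (N : ℕ) (π : Equiv.Perm (Fin n)) (i j : Fin n) : ℝ :=
  ((Finset.range N).filter fun s => (π ^ s) i = j).card / (N : ℝ)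

theorem frac_nonneg (i j : Fin n) : 0 ≤ frac N π i j := by
  unfold frac; positivity

theorem Pm_frac (z : ℂ) (i j : Fin n) : Pm N z π 0 i j = (frac N π i j : ℂ) := by
  rw [Pm, frac]
  simp only [zero_mul, pow_zero, inv_one, one_mul]
  rw [Finset.sum_boole]
  push_cast
  rw [div_eq_inv_mul]

theorem sum_frac (hN : 0 < N) (i : Fin n) : ∑ l, frac N π l i = 1 := by
  have hN' : (N : ℝ) ≠ 0 := Nat.cast_ne_zero.mpr (by omega)
  have h1 : ∀ s ∈ Finset.range N, ∑ l, (if (π ^ s) l = i then (1 : ℝ) else 0) = 1 := by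
    intro s _
    rw [Finset.sum_eq_single ((π ^ s).symm i)]
    · rw [Equiv.apply_symm_apply, if_pos rfl]
    · intro l _ hl
      rw [if_neg]
      intro h2
      exact hl (by rw [← h2, Equiv.symm_apply_apply])
    · intro h; exact absurd (Finset.mem_univ _) h
  have h2 : ∀ l, frac N π l i = (∑ s ∈ Finset.range N, if (π ^ s) l = i then (1 : ℝ) else 0) /
      (N : ℝ) := by
    intro l
    rw [frac, Finset.sum_boole]
  rw [Finset.sum_congr rfl fun l _ => h2 l, ← Finset.sum_div, Finset.sum_comm,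
    Finset.sum_congr rfl h1]
  simp [hN']

theorem sum_frac_sq (hN : 0 < N) (hπ : π ^ N = 1) (i : Fin n) :
    ∑ l, frac N π l i ^ 2 = frac N π i i := by
  have h := Pm_transpose_mul (zr_prim hN) hN hπ 0 0 i i
  rw [if_pos (show N ∣ 0 + 0 by simp)] at h
  simp only [Pm_frac] at h
  have h2 : ((∑ l, frac N π l i ^ 2 : ℝ) : ℂ) = (frac N π i i : ℂ) := by
    rw [← h]
    push_cast
    exact Finset.sum_congr rfl fun l _ => by ring
  exact Complex.ofReal_injective h2

theorem sum_var (hn : 0 < n) (hN : 0 < N) (hπ : π ^ N = 1) (i : Fin n) :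
    ∑ l, (frac N π l i - 1 / n) ^ 2 = frac N π i i - 1 / n := by
  have hn' : (n : ℝ) ≠ 0 := Nat.cast_ne_zero.mpr (by omega)
  have h1 : ∀ l, (frac N π l i - 1 / n) ^ 2 = frac N π l i ^ 2 - 2 / n * frac N π l i +
      (1 / n) ^ 2 := fun l => by ring
  rw [Finset.sum_congr rfl fun l _ => h1 l, Finset.sum_add_distrib, Finset.sum_sub_distrib,
    sum_frac_sq hN hπ, ← Finset.mul_sum, sum_frac hN, Finset.sum_const, Finset.card_univ,
    Fintype.card_fin, nsmul_eq_mul]
  field_simp
  ring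

theorem frac_ge (hn : 0 < n) (hN : 0 < N) (hπ : π ^ N = 1) (i : Fin n) :
    1 / (n : ℝ) ≤ frac N π i i := by
  have h := sum_var hn hN hπ i
  have h2 : 0 ≤ ∑ l, (frac N π l i - 1 / n) ^ 2 := Finset.sum_nonneg fun l _ => sq_nonneg _
  linarith

theorem frac_eq (hn : 0 < n) (hN : 0 < N) (hπ : π ^ N = 1) {i : Fin n}
    (h : frac N π i i = 1 / n) (l : Fin n) : ∃ s : ℕ, (π ^ s) l = i := by
  have h1 := sum_var hn hN hπ i
  rw [h, sub_self, Finset.sum_eq_zero_iff_of_nonneg fun l _ => sq_nonneg _] at h1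
  have h2 := h1 l (Finset.mem_univ _)
  have h3 : frac N π l i = 1 / n := by
    have := pow_eq_zero_iff (two_ne_zero) |>.mp h2
    linarith
  have h4 : 0 < frac N π l i := by
    rw [h3]
    have : (0 : ℝ) < n := by exact_mod_cast hn
    positivity
  by_contra hcon
  push Not at hcon
  have h5 : ((Finset.range N).filter fun s => (π ^ s) l = i) = ∅ := by
    rw [Finset.filter_eq_empty_iff]
    intro s _
    exact hcon s
  rw [frac, h5] at h4
  simp at h4

theorem frac_fixed (hN : 0 < N) {i : Fin n} (h : π i = i) : frac N π i i = 1 := by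
  have h1 : ∀ s : ℕ, (π ^ s) i = i := by
    intro s
    induction s with
    | zero => rfl
    | succ s ih => rw [pow_succ', Equiv.Perm.mul_apply, ih, h]
  have hN' : (N : ℝ) ≠ 0 := Nat.cast_ne_zero.mpr (by omega)
  rw [frac, Finset.filter_true_of_mem (fun s _ => h1 s), Finset.card_range, div_self hN']

theorem fixed_of_pow {i l : Fin n} {s : ℕ} (h : (π ^ s) l = i) (hl : π l = l) : l = i := by
  have h1 : ∀ s : ℕ, (π ^ s) l = l := by
    intro s
    induction s with
    | zero => rfl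
    | succ s ih => rw [pow_succ', Equiv.Perm.mul_apply, ih, hl]
  rw [← h, h1]

end perm

variable {m : ℂ[X][X]} [hirr : Fact (Irreducible (pF m))] (D : Data m)

/-- The Riemann-Hurwitz inequality. -/
theorem rh_ineq {π : ℂ → Equiv.Perm (Fin m.natDegree)} (hπN : ∀ e, π e ^ (D.N e) = 1)
    (hπ : ∀ e i x, rot (zu (D.N e)) ((D.fin e).hom i x) = (D.fin e).hom (π e i) x) :
    ∃ S₀ : Finset ℂ, ∀ S : Finset ℂ, S₀ ⊆ S →
      2 * ((m.natDegree : ℝ) - 1) ≤ ∑ e ∈ S, ∑ i, (1 - frac (D.N e) (π e) i i) := by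
  classical
  obtain ⟨b, k, h⟩ := exists_minTup D
  obtain ⟨q, hdeg, hq0, hq⟩ := h.exists_discr
  refine ⟨q.roots.toFinset, fun S hS => ?_⟩
  have h1 : ∑ e ∈ S, q.rootMultiplicity e = q.natDegree := by
    rw [← splits_iff_card_roots.mp (IsAlgClosed.splits q), ← Multiset.toFinset_sum_count_eq]
    have h2 : ∑ e ∈ q.roots.toFinset, q.roots.count e = ∑ e ∈ S, q.roots.count e := by
      apply Finset.sum_subset hS
      intro e _ he
      rw [Multiset.mem_toFinset] at he
      exact Multiset.count_eq_zero.mpr he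
    rw [h2]
    exact Finset.sum_congr rfl fun e _ => (count_roots q).symm
  have h3 : ∀ e, (q.rootMultiplicity e : ℝ) = ∑ i, (1 - frac (D.N e) (π e) i i) := by
    intro e
    have h4 := h.local hq0 e (hq e) (hπN e) (hπ e)
    apply Complex.ofReal_injective
    push_cast
    rw [h4, Finset.sum_sub_distrib]
    simp [frac]
  have h5 : (∑ e ∈ S, (q.rootMultiplicity e : ℝ)) = q.natDegree := by exact_mod_cast h1
  rw [← Finset.sum_congr rfl fun e _ => h3 e, h5, hdeg]
  have h6 := h.toTup.sum_ge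
  have h7 := natDegree_pos (m := m)
  have h8 : m.natDegree ≤ ∑ i, k i + 1 := by omega
  have h9 : (m.natDegree : ℝ) ≤ (∑ i, k i : ℕ) + 1 := by exact_mod_cast h8
  push_cast at h9 ⊢
  linarith

omit hirr in
theorem zinf_pow_single (c : ℕ) : zinf ^ c * HahnSeries.single (c : ℤ) (1 : ℂ) = 1 := by
  rw [zinf, HahnSeries.single_pow, HahnSeries.single_mul_single, one_pow,
    one_mul, nsmul_eq_mul, mul_neg, mul_one, neg_add_cancel]
  rfl

/-- The sum of the leading coefficients. -/
theorem sum_res (hpole : ∀ e i, ∀ j < -(D.N e : ℤ), ((D.fin e).r i).coeff j = 0)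
    (hinf0 : ∀ i, ∀ j ≤ 0, (D.inf.r i).coeff j = 0)
    (hinf1 : ∀ i, (D.inf.r i).coeff 1 = -2) :
    ∃ S₀ : Finset ℂ, ∀ S : Finset ℂ, S₀ ⊆ S →
      ∑ e ∈ S, ∑ i, ((D.fin e).r i).coeff (-(D.N e : ℤ)) = -2 * (m.natDegree : ℂ) := by
  classical
  set T := Algebra.trace (RatFunc ℂ) (Lf m) (AdjoinRoot.root (pF m)) with hT
  have hTfin : ∀ e, ev (zfin e (D.N e)) (inj_zfin (D.hN e)) T = ∑ i, (D.fin e).r i := by
    intro e
    rw [← (D.fin e).ev_eq (D.hfin e), hT, (D.fin e).trace]
    exact Finset.sum_congr rfl fun i _ => (D.fin e).hom_root i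
  have hTinf : ev zinf inj_zinf T = ∑ i, D.inf.r i := by
    rw [← D.inf.ev_eq D.hinf, hT, D.inf.trace]
    exact Finset.sum_congr rfl fun i _ => D.inf.hom_root i
  refine ⟨T.denom.roots.toFinset, fun S hS => ?_⟩
  set P : ℂ[X] := ∏ e ∈ S, (X - C e) with hP
  -- the multiple of the trace by the power of the local coordinate
  have hTw : ∀ e, ∃ g : PowerSeries ℂ, HahnSeries.ofPowerSeries ℤ ℂ g =
      (∑ i, (D.fin e).r i) * HahnSeries.ofPowerSeries ℤ ℂ (PowerSeries.X ^ (D.N e)) ∧
      PowerSeries.constantCoeff g = ∑ i, ((D.fin e).r i).coeff (-(D.N e : ℤ)) := by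
    intro e
    have h1 : ∀ t : ℤ, ((∑ i, (D.fin e).r i) *
        HahnSeries.ofPowerSeries ℤ ℂ (PowerSeries.X ^ (D.N e))).coeff t =
        ∑ i, ((D.fin e).r i).coeff (t - D.N e) := by
      intro t
      rw [HahnSeries.ofPowerSeries_X_pow]
      have h2 : t = (t - D.N e) + (D.N e : ℤ) := by ring
      conv_lhs => rw [h2]
      rw [HahnSeries.coeff_mul_single_add, mul_one, HahnSeries.coeff_sum]
    have h2 : (∑ i, (D.fin e).r i) *
        HahnSeries.ofPowerSeries ℤ ℂ (PowerSeries.X ^ (D.N e)) ∈ PS := by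
      rw [mem_PS]
      intro t ht
      rw [h1]
      exact Finset.sum_eq_zero fun i _ => hpole e i _ (by omega)
    obtain ⟨g, hg⟩ := h2
    refine ⟨g, hg, ?_⟩
    have h3 := h1 0
    rw [← hg] at h3
    have h4 := HahnSeries.ofPowerSeries_apply_coeff (Γ := ℤ) g 0
    rw [Nat.cast_zero, PowerSeries.coeff_zero_eq_constantCoeff] at h4
    rw [← h4, h3]
    simp
  have hxe : ∀ e, aeval (zps e (D.N e)) (X - C e) = (PowerSeries.X : PowerSeries ℂ) ^ (D.N e) := by
    intro e
    rw [map_sub, aeval_X, aeval_C, zps]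
    change PowerSeries.C e + PowerSeries.X ^ (D.N e) - PowerSeries.C e = _
    rw [add_sub_cancel_left]
  have hPe : ∀ e ∈ S, P = (X - C e) * ∏ e' ∈ S.erase e, (X - C e') := fun e he =>
    (Finset.mul_prod_erase S _ he).symm
  obtain ⟨R, hR⟩ := poly_of_int (T * algebraMap ℂ[X] (RatFunc ℂ) P) D.N D.hN (by
    intro e
    rw [map_mul, ev_algebraMap, hTfin, aeval_zfin]
    by_cases he : e ∈ S
    · obtain ⟨g, hg, _⟩ := hTw e
      rw [hPe e he, map_mul, hxe, map_mul, ← mul_assoc, ← hg]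
      exact ⟨_, map_mul _ _ _⟩
    · refine Subring.mul_mem _ ?_ ⟨_, rfl⟩
      have h1 : T * algebraMap ℂ[X] (RatFunc ℂ) T.denom = algebraMap ℂ[X] (RatFunc ℂ) T.num := by
        exact (eq_div_iff ((_root_.map_ne_zero_iff _
          (IsFractionRing.injective ℂ[X] (RatFunc ℂ))).mpr (RatFunc.denom_ne_zero T))).mp
          (RatFunc.num_div_denom T).symm
      have h2 := congrArg (ev (zfin e (D.N e)) (inj_zfin (D.hN e))) h1
      rw [map_mul, ev_algebraMap, ev_algebraMap, hTfin, aeval_zfin, aeval_zfin] at h2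
      have h3 : PowerSeries.constantCoeff (aeval (zps e (D.N e)) T.denom) ≠ 0 := by
        rw [constantCoeff_zps (D.hN e)]
        intro h4
        apply he
        apply hS
        rw [Multiset.mem_toFinset, mem_roots (RatFunc.denom_ne_zero T)]
        exact h4
      have h5 := PowerSeries.mul_inv_cancel _ h3
      refine ⟨aeval (zps e (D.N e)) T.num * (aeval (zps e (D.N e)) T.denom)⁻¹, ?_⟩
      rw [map_mul, ← h2, mul_assoc, ← map_mul, h5, map_one, mul_one])
  -- the values of `R`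
  have hRe : ∀ e ∈ S, R.eval e = (∑ i, ((D.fin e).r i).coeff (-(D.N e : ℤ))) *
      ∏ e' ∈ S.erase e, (e - e') := by
    intro e he
    obtain ⟨g, hg, hg0⟩ := hTw e
    have h1 := congrArg (ev (zfin e (D.N e)) (inj_zfin (D.hN e))) hR
    rw [map_mul, ev_algebraMap, ev_algebraMap, hTfin, aeval_zfin, aeval_zfin, hPe e he, map_mul,
      hxe, map_mul, ← mul_assoc, ← hg, ← map_mul] at h1
    have h2 := congrArg PowerSeries.constantCoeff (HahnSeries.ofPowerSeries_injective h1)
    rw [constantCoeff_zps (D.hN e), map_mul, hg0, constantCoeff_zps (D.hN e), eval_prod] at h2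
    rw [h2]
    congr 1
    exact Finset.prod_congr rfl fun e' _ => by simp
  -- the expansion at infinity
  have hXR : aeval zinf (X * R) = zinf * (∑ i, D.inf.r i) * aeval zinf P := by
    have h1 := congrArg (ev zinf inj_zinf) hR
    rw [map_mul, ev_algebraMap, ev_algebraMap, hTinf] at h1
    rw [map_mul, aeval_X, h1, mul_assoc]
  have hA : ∃ A : PowerSeries ℂ, HahnSeries.ofPowerSeries ℤ ℂ A = zinf * (∑ i, D.inf.r i) ∧
      PowerSeries.constantCoeff A = -2 * (m.natDegree : ℂ) := by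
    have h1 : ∀ t : ℤ, (zinf * ∑ i, D.inf.r i).coeff t = ∑ i, (D.inf.r i).coeff (t + 1) := by
      intro t
      have := coeff_zinf_pow_mul 1 (∑ i, D.inf.r i) t
      rw [pow_one] at this
      rw [this, HahnSeries.coeff_sum, Nat.cast_one]
    have h2 : zinf * (∑ i, D.inf.r i) ∈ PS := by
      rw [mem_PS]
      intro t ht
      rw [h1]
      exact Finset.sum_eq_zero fun i _ => hinf0 i _ (by omega)
    obtain ⟨A, hA⟩ := h2
    refine ⟨A, hA, ?_⟩
    have h3 := h1 0
    rw [← hA] at h3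
    have h4 := HahnSeries.ofPowerSeries_apply_coeff (Γ := ℤ) A 0
    rw [Nat.cast_zero, PowerSeries.coeff_zero_eq_constantCoeff] at h4
    rw [← h4, h3]
    rw [Finset.sum_congr rfl fun i _ => by rw [zero_add, hinf1 i]]
    simp [mul_comm]
  obtain ⟨A, hA, hA0⟩ := hA
  have hPmonic : P.Monic := monic_prod_of_monic _ _ fun e _ => monic_X_sub_C e
  have hPdeg : P.natDegree = S.card := by
    rw [hP, natDegree_prod_of_monic _ _ fun e _ => monic_X_sub_C e]
    simp
  have hB : ∃ B : PowerSeries ℂ, aeval zinf P = zinf ^ S.card * HahnSeries.ofPowerSeries ℤ ℂ B ∧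
      PowerSeries.constantCoeff B = 1 := by
    set f : Lau := HahnSeries.single (S.card : ℤ) (1 : ℂ) * aeval zinf P with hf
    have h1 : ∀ t : ℤ, f.coeff t = if t - S.card ≤ 0 then P.coeff (-(t - S.card)).toNat else 0 := by
      intro t
      have h2 : t = (t - S.card) + (S.card : ℤ) := by ring
      conv_lhs => rw [h2]
      rw [hf, HahnSeries.coeff_single_mul_add, one_mul, coeff_aeval_zinf]
    have h2 : f ∈ PS := by
      rw [mem_PS]
      intro t ht
      rw [h1, if_pos (by omega)]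
      apply coeff_eq_zero_of_natDegree_lt
      rw [hPdeg]
      omega
    obtain ⟨B, hB⟩ := h2
    refine ⟨B, ?_, ?_⟩
    · rw [hB, hf, ← mul_assoc, zinf_pow_single, one_mul]
    · have h4 := HahnSeries.ofPowerSeries_apply_coeff (Γ := ℤ) B 0
      rw [Nat.cast_zero, PowerSeries.coeff_zero_eq_constantCoeff] at h4
      rw [← h4, hB, h1, if_pos (by omega)]
      have h5 : (-((0 : ℤ) - S.card)).toNat = P.natDegree := by rw [hPdeg]; omega
      rw [h5]
      exact hPmonic.coeff_natDegree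
  obtain ⟨B, hB, hB0⟩ := hB
  have hco : ∀ t : ℕ, S.card ≤ t → (X * R).coeff t =
      if t = S.card then -2 * (m.natDegree : ℂ) else 0 := by
    intro t ht
    have h7 := coeff_aeval_zinf (X * R) (-(t : ℤ))
    rw [if_pos (by omega), neg_neg, Int.toNat_natCast, hXR, ← hA, hB, mul_left_comm, ← map_mul,
      coeff_zinf_pow_mul] at h7
    rw [← h7]
    split_ifs with h8
    · rw [h8]
      have h9 := HahnSeries.ofPowerSeries_apply_coeff (Γ := ℤ) (A * B) 0
      rw [Nat.cast_zero] at h9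
      rw [neg_add_cancel, h9, PowerSeries.coeff_zero_eq_constantCoeff, map_mul, hA0, hB0, mul_one]
    · exact ofPS_neg _ (by omega)
  have hn := natDegree_pos (m := m)
  have hScard : S.card ≠ 0 := by
    intro h0
    have h1 := hco 0 (by omega)
    rw [coeff_X_mul_zero, if_pos h0.symm] at h1
    have h2 : (m.natDegree : ℂ) ≠ 0 := Nat.cast_ne_zero.mpr (by omega)
    exact mul_ne_zero (by norm_num) h2 h1.symm
  have hRdeg : R.degree < S.card := by
    rw [degree_lt_iff_coeff_zero]
    intro t ht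
    have h1 := hco (t + 1) (by omega)
    rw [coeff_X_mul, if_neg (by omega)] at h1
    exact h1
  have hRc : R.coeff (S.card - 1) = -2 * (m.natDegree : ℂ) := by
    have h1 := hco S.card le_rfl
    rw [if_pos rfl] at h1
    rw [← h1]
    obtain ⟨c, hc⟩ : ∃ c, S.card = c + 1 := ⟨S.card - 1, by omega⟩
    rw [hc, coeff_X_mul, Nat.add_sub_cancel]
  have hL := Lagrange.coeff_eq_sum (s := S) (v := id) (Set.injOn_id _) hRdeg
  rw [hRc] at hL
  rw [hL]
  refine Finset.sum_congr rfl fun e he => ?_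
  have h1 : ∏ e' ∈ S.erase e, (e - e') ≠ 0 := by
    rw [Finset.prod_ne_zero_iff]
    intro e' he'
    rw [Finset.mem_erase] at he'
    exact sub_ne_zero.mpr (Ne.symm he'.1)
  simp only [id]
  rw [hRe e he, mul_div_assoc, div_self h1, mul_one]

end Pool.Agent.LAT.RH
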