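import Mathlib

/-!
# Formal billiard chains: definitions

Two kinds of formal chains used in the algebraic part of the local theorem for
conics (problem `MP_ae5b4e_an`).

* `TChain d kap M h P`: over a field `R` with a derivation `d`, in `R⟦P⟧`.
  The point number `i` is `z + h i`, `P i` is the difference of the points number
  `i` and `i - 1`, and `1 / P (i + 1) - 1 / P i = kap i (z + h i)` (Taylor expansion).
* `ThChain N c k M th v`: in `ℂ⟦y⟧⟦w⟧`; this is a `TChain` over `ℂ((w))`, `z = w ^ N`,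
  with `kap i = w ^ (-c) * k i`, after the substitution `P = w ^ c * y`,
  `z + h i = z * (th i) ^ N`, `P i = w ^ c * v i`.
-/

namespace Pool.Agent.LAT

open PowerSeries

/-- Taylor expansion `∑ m, (d^m f / m!) * h^m` (to be used for `h` without constant term). -/
noncomputable def tay {R : Type*} [Field R] (d : R → R) (h : PowerSeries R) (f : R) :
    PowerSeries R :=
  PowerSeries.mk fun n => ∑ m ∈ Finset.range (n + 1),
    ((m.factorial : R)⁻¹ * (d^[m] f)) * coeff n (h ^ m)

/-- Formal chain over a differential field. -/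
structure TChain {R : Type*} [Field R] (d : R → R) (kap : ℕ → R) (M : ℕ)
    (h P : ℕ → PowerSeries R) : Prop where
  h0 : h 0 = 0
  P0 : P 0 = X
  stepP : ∀ i ≤ M, P (i + 1) * (1 + tay d (h i) (kap i) * P i) = P i
  steph : ∀ i < M, h (i + 1) = h i + P (i + 1)

/-- The ring `ℂ⟦y⟧⟦w⟧`. -/
abbrev W := PowerSeries (PowerSeries ℂ)

/-- `k (w * t)` for `k ∈ ℂ⟦w⟧` and `t ∈ ℂ⟦y⟧⟦w⟧`. -/
noncomputable def kev (k : PowerSeries ℂ) (t : W) : W :=
  PowerSeries.mk fun n => ∑ m ∈ Finset.range (n + 1),
    C (coeff m k) * coeff (n - m) (t ^ m)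

/-- The chain after the substitution `P = w ^ c * y`. -/
structure ThChain (N c : ℕ) (k : ℕ → PowerSeries ℂ) (M : ℕ) (th v : ℕ → W) : Prop where
  th0 : th 0 = 1
  v0 : v 0 = C (X : PowerSeries ℂ)
  stepv : ∀ i ≤ M, v (i + 1) * (th i ^ c + v i * kev (k i) (th i)) = v i * th i ^ c
  stepth : ∀ i < M, th (i + 1) ^ N = th i ^ N + (X : W) ^ (c - N) * v (i + 1)
  unit : ∀ i ≤ M, ∀ n, constantCoeff (coeff n (th i)) = if n = 0 then 1 else 0

/-- Exchange of the variables: a series in `w` with coefficients in `ℂ⟦y⟧` becomes a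
series in `y` with coefficients in `ℂ((w))`. -/
noncomputable def swapFun (f : W) : PowerSeries (LaurentSeries ℂ) :=
  PowerSeries.mk fun n => HahnSeries.ofPowerSeries ℤ ℂ (PowerSeries.mk fun m => coeff n (coeff m f))

end Pool.Agent.LAT
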