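import Mathlib
import Pool.Agent.Lib.MP_ae5b4e_an_LAT.AlgDefs

/-!
# From formal chains over `ℂ((w))` to theta-chains

The chain `TChain` over `ℂ((w))`, with the derivation `d/dz`, `z = w ^ N`, and the functions
`kap i = w ^ (-c) * k i (w)`, becomes a `ThChain` in `ℂ⟦y⟧⟦w⟧` after the substitution
`P = w ^ c * y`, `z + h = z * th ^ N`.
-/

namespace Pool.Agent.LAT

open PowerSeries

namespace Conv

/-! ### Exchange of the variables -/

/-- exchange of the variables in `ℂ⟦y⟧⟦w⟧` -/
noncomputable def sw : W →+* W where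
  toFun f := PowerSeries.mk fun n => PowerSeries.mk fun m => coeff n (coeff m f)
  map_one' := by
    ext n m
    rw [coeff_mk, coeff_mk, coeff_one, coeff_one]
    by_cases h1 : m = 0 <;> by_cases h2 : n = 0 <;> simp [h1, h2, coeff_one]
  map_mul' f g := by
    ext n m
    simp only [coeff_mk, coeff_mul, map_sum]
    rw [Finset.sum_comm]
  map_zero' := by
    ext n m
    simp
  map_add' f g := by
    ext n m
    simp

theorem coeff_sw (f : W) (n m : ℕ) : coeff m (coeff n (sw f)) = coeff n (coeff m f) := by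
  show coeff m (coeff n (PowerSeries.mk fun n => PowerSeries.mk fun m => coeff n (coeff m f))) = _
  rw [coeff_mk, coeff_mk]

theorem sw_sw (f : W) : sw (sw f) = f := by
  ext n m
  rw [coeff_sw, coeff_sw]

theorem sw_inj {f g : W} (h : sw f = sw g) : f = g := by
  rw [← sw_sw f, h, sw_sw]

theorem sw_X : sw (X : W) = C (X : PowerSeries ℂ) := by
  ext n m
  rw [coeff_sw, coeff_X, coeff_C]
  by_cases h1 : m = 1 <;> by_cases h2 : n = 0 <;> simp [h1, h2, coeff_one, coeff_X]

theorem sw_CX : sw (C (X : PowerSeries ℂ)) = (X : W) := by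
  rw [← sw_X, sw_sw]

theorem sw_CC (a : ℂ) : sw (C (C a)) = C (C a) := by
  ext n m
  rw [coeff_sw, coeff_C, coeff_C]
  by_cases h1 : m = 0 <;> by_cases h2 : n = 0 <;> simp [h1, h2, coeff_C]

theorem constantCoeff_sw (f : W) :
    constantCoeff (sw f) = PowerSeries.mk fun m => constantCoeff (coeff m f) := by
  ext m
  rw [← coeff_zero_eq_constantCoeff_apply, coeff_sw, coeff_mk, coeff_zero_eq_constantCoeff_apply]

/-- the embedding of `ℂ⟦w⟧⟦y⟧` in `ℂ((w))⟦y⟧` -/
noncomputable def J : W →+* PowerSeries (LaurentSeries ℂ) :=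
  PowerSeries.map (HahnSeries.ofPowerSeries ℤ ℂ)

theorem J_inj : Function.Injective J := by
  intro f g h
  ext n : 1
  have h1 := congrArg (coeff n) h
  rw [J, PowerSeries.coeff_map, PowerSeries.coeff_map] at h1
  exact HahnSeries.ofPowerSeries_injective h1

theorem swapFun_eq (f : W) : swapFun f = J (sw f) := by
  ext n : 1
  rw [J, PowerSeries.coeff_map, swapFun, coeff_mk]
  refine congrArg _ ?_
  ext m
  rw [coeff_mk, coeff_sw]

/-- `swapFun` as a ring homomorphism -/
noncomputable def swapHom : W →+* PowerSeries (LaurentSeries ℂ) := J.comp sw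

theorem swapFun_eq' (f : W) : swapFun f = swapHom f := swapFun_eq f

theorem swapHom_inj : Function.Injective swapHom := by
  intro f g h
  exact sw_inj (J_inj h)

/-! ### Binomial coefficients -/

theorem fact_choose_succ (x : ℂ) (m : ℕ) :
    ((m + 1).factorial : ℂ) * Ring.choose x (m + 1) =
      ((m.factorial : ℂ) * Ring.choose x m) * (x - m) := by
  have h1 := Ring.descPochhammer_eq_factorial_smul_choose x (m + 1)
  have h2 := Ring.descPochhammer_eq_factorial_smul_choose x m
  rw [nsmul_eq_mul] at h1 h2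
  rw [← h1, ← h2, descPochhammer_succ_right, Polynomial.smeval_mul, Polynomial.smeval_sub,
    Polynomial.smeval_X, Polynomial.smeval_natCast]
  simp

/-- the iterates of the derivation `d / dz` -/
theorem d_iter {N : ℕ} (hN : 0 < N) {d : LaurentSeries ℂ → LaurentSeries ℂ}
    (hd : ∀ (f : LaurentSeries ℂ) (n : ℤ), (d f).coeff n = ((n + N : ℂ) / N) * f.coeff (n + N))
    (f : LaurentSeries ℂ) (m : ℕ) (p : ℤ) :
    (d^[m] f).coeff (p - m * N) = ((m.factorial : ℂ) * Ring.choose ((p : ℂ) / N) m) * f.coeff p := by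
  have hN' : (N : ℂ) ≠ 0 := by exact_mod_cast hN.ne'
  induction m with
  | zero =>
    simp
  | succ m ih =>
    rw [Function.iterate_succ_apply', hd, fact_choose_succ]
    have e1 : p - ((m + 1 : ℕ) : ℤ) * N + N = p - m * N := by
      push_cast
      ring
    rw [e1, ih]
    push_cast
    field_simp
    ring

/-- multiplication of the coefficients by binomial coefficients -/
noncomputable def E (N c m : ℕ) (k : PowerSeries ℂ) : PowerSeries ℂ :=
  PowerSeries.mk fun j => Ring.choose (((j : ℂ) - c) / N) m * coeff j k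

/-- the Taylor expansion after the substitution -/
noncomputable def tayV (N c : ℕ) (U : W) (k : PowerSeries ℂ) : W :=
  PowerSeries.mk fun n => ∑ m ∈ Finset.range (n + 1), E N c m k * coeff n (U ^ m)

theorem ofPS_neg (k : PowerSeries ℂ) {l : ℤ} (hl : l < 0) :
    (HahnSeries.ofPowerSeries ℤ ℂ k).coeff l = 0 := by
  rw [HahnSeries.ofPowerSeries_apply]
  refine HahnSeries.embDomain_of_notMem_range ?_
  rintro ⟨n, hn⟩
  have h1 : ((n : ℕ) : ℤ) = l := hn
  omega

theorem natCast_eq (n : ℕ) : (n : LaurentSeries ℂ) = HahnSeries.C (n : ℂ) :=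
  (map_natCast (HahnSeries.C : ℂ →+* LaurentSeries ℂ) n).symm

theorem E_eq {N c : ℕ} (hN : 0 < N) {d : LaurentSeries ℂ → LaurentSeries ℂ}
    (hd : ∀ (f : LaurentSeries ℂ) (n : ℤ), (d f).coeff n = ((n + N : ℂ) / N) * f.coeff (n + N))
    (k : PowerSeries ℂ) (m : ℕ) :
    HahnSeries.single (c : ℤ) (1 : ℂ) *
      (((m.factorial : LaurentSeries ℂ)⁻¹ *
        (d^[m] (HahnSeries.single (-(c : ℤ)) 1 * HahnSeries.ofPowerSeries ℤ ℂ k))) *
          HahnSeries.single (N : ℤ) (1 : ℂ) ^ m) = HahnSeries.ofPowerSeries ℤ ℂ (E N c m k) := by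
  have hm : (m.factorial : LaurentSeries ℂ) ≠ 0 := by
    have h1 : (m.factorial : ℂ) ≠ 0 := by exact_mod_cast m.factorial_ne_zero
    intro h
    apply h1
    rw [natCast_eq] at h
    exact HahnSeries.C_injective (by rw [h, map_zero])
  have key : HahnSeries.single (c : ℤ) (1 : ℂ) *
      ((d^[m] (HahnSeries.single (-(c : ℤ)) 1 * HahnSeries.ofPowerSeries ℤ ℂ k)) *
        HahnSeries.single (N : ℤ) (1 : ℂ) ^ m) =
      (m.factorial : LaurentSeries ℂ) * HahnSeries.ofPowerSeries ℤ ℂ (E N c m k) := by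
    rw [HahnSeries.single_pow, one_pow, nsmul_eq_mul]
    ext l
    have e1 : l = (l - c) + c := by ring
    have e2 : l - c = (l - c - m * N) + m * N := by ring
    rw [mul_comm]
    conv_lhs => rw [e1]
    rw [HahnSeries.coeff_mul_single_add, mul_one]
    conv_lhs => rw [e2]
    rw [HahnSeries.coeff_mul_single_add, mul_one, d_iter hN hd]
    have e3 : l - (c : ℤ) = l + (-(c : ℤ)) := by ring
    rw [mul_comm (HahnSeries.single (-(c : ℤ)) (1 : ℂ))]
    have e4 : (HahnSeries.ofPowerSeries ℤ ℂ k * HahnSeries.single (-(c : ℤ)) 1).coeff (l - c) =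
        (HahnSeries.ofPowerSeries ℤ ℂ k).coeff l := by
      rw [e3, HahnSeries.coeff_mul_single_add, mul_one]
    rw [e4]
    have e5 : ((m.factorial : LaurentSeries ℂ) * HahnSeries.ofPowerSeries ℤ ℂ (E N c m k)).coeff l =
        (m.factorial : ℂ) * (HahnSeries.ofPowerSeries ℤ ℂ (E N c m k)).coeff l := by
      rw [natCast_eq, HahnSeries.C_mul_eq_smul, HahnSeries.coeff_smul, smul_eq_mul]
    rw [e5]
    rcases lt_or_ge l 0 with hl | hl
    · rw [ofPS_neg k hl, ofPS_neg _ hl, mul_zero, mul_zero]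
    · obtain ⟨j, rfl⟩ := Int.eq_ofNat_of_zero_le hl
      rw [HahnSeries.ofPowerSeries_apply_coeff, HahnSeries.ofPowerSeries_apply_coeff, E, coeff_mk]
      push_cast
      ring
  have e6 : HahnSeries.single (c : ℤ) (1 : ℂ) *
      (((m.factorial : LaurentSeries ℂ)⁻¹ *
        (d^[m] (HahnSeries.single (-(c : ℤ)) 1 * HahnSeries.ofPowerSeries ℤ ℂ k))) *
          HahnSeries.single (N : ℤ) (1 : ℂ) ^ m) = (m.factorial : LaurentSeries ℂ)⁻¹ *
      (HahnSeries.single (c : ℤ) (1 : ℂ) *
      ((d^[m] (HahnSeries.single (-(c : ℤ)) 1 * HahnSeries.ofPowerSeries ℤ ℂ k)) *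
        HahnSeries.single (N : ℤ) (1 : ℂ) ^ m)) := by ring
  rw [e6, key, ← mul_assoc, inv_mul_cancel₀ hm, one_mul]

theorem tay_eq {N c : ℕ} (hN : 0 < N) {d : LaurentSeries ℂ → LaurentSeries ℂ}
    (hd : ∀ (f : LaurentSeries ℂ) (n : ℤ), (d f).coeff n = ((n + N : ℂ) / N) * f.coeff (n + N))
    (k : PowerSeries ℂ) (U : W) :
    C (HahnSeries.single (c : ℤ) (1 : ℂ)) * tay d (C (HahnSeries.single (N : ℤ) (1 : ℂ)) * J U)
      (HahnSeries.single (-(c : ℤ)) 1 * HahnSeries.ofPowerSeries ℤ ℂ k) = J (tayV N c U k) := by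
  ext n : 1
  rw [coeff_C_mul, tay, coeff_mk, J, PowerSeries.coeff_map, tayV, coeff_mk, map_sum, Finset.mul_sum]
  refine Finset.sum_congr rfl fun m _ => ?_
  rw [mul_pow, ← map_pow (C (R := LaurentSeries ℂ)), coeff_C_mul,
    ← map_pow (PowerSeries.map (HahnSeries.ofPowerSeries ℤ ℂ)), PowerSeries.coeff_map, map_mul,
    ← E_eq hN hd k m]
  ring

theorem rescale_tay {R : Type*} [Field R] (d : R → R) (a : R) (h : PowerSeries R) (f : R) :
    rescale a (tay d h f) = tay d (rescale a h) f := by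
  ext n
  rw [coeff_rescale, tay, tay, coeff_mk, coeff_mk, Finset.mul_sum]
  refine Finset.sum_congr rfl fun m _ => ?_
  rw [← map_pow, coeff_rescale]
  ring

/-! ### The binomial series in `U` -/

/-- `(1 + U) ^ r` -/
noncomputable def B (U : W) (r : ℂ) : W := subst U (binomialSeries ℂ r)

theorem hasSubst_of {U : W} (hU : constantCoeff U = 0) : HasSubst U :=
  HasSubst.of_constantCoeff_zero' hU

theorem coeff_B {U : W} (hU : constantCoeff U = 0) (r : ℂ) (n : ℕ) :
    coeff n (B U r) = ∑ m ∈ Finset.range (n + 1), Ring.choose r m • coeff n (U ^ m) := by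
  rw [B, coeff_subst' (hasSubst_of hU)]
  rw [finsum_eq_sum_of_support_subset (s := Finset.range (n + 1))]
  · refine Finset.sum_congr rfl fun m _ => ?_
    rw [binomialSeries_coeff, smul_eq_mul, mul_one]
  · intro m hm
    rw [Function.mem_support] at hm
    rw [Finset.coe_range, Set.mem_Iio]
    by_contra hcon
    apply hm
    have h1 : (X : W) ∣ U := X_dvd_iff.2 hU
    have h2 : (X : W) ^ m ∣ U ^ m := pow_dvd_pow_of_dvd h1 m
    rw [X_pow_dvd_iff.1 h2 n (by omega), smul_zero]

theorem B_add {U : W} (hU : constantCoeff U = 0) (r s : ℂ) : B U (r + s) = B U r * B U s := by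
  rw [B, B, B, binomialSeries_add, subst_mul (hasSubst_of hU)]

theorem B_zero {U : W} (hU : constantCoeff U = 0) : B U 0 = 1 := by
  ext n : 1
  rw [coeff_B hU, Finset.sum_range_succ', pow_zero, Ring.choose_zero_right, one_smul,
    Finset.sum_eq_zero, zero_add]
  intro m _
  rw [Ring.choose_zero_succ, zero_smul]

theorem B_one {U : W} (hU : constantCoeff U = 0) : B U 1 = 1 + U := by
  have h1 : PowerSeries.binomialSeries ℂ (1 : ℂ) = (1 + X : PowerSeries ℂ) := by
    have := PowerSeries.binomialSeries_nat (R := ℂ) (A := ℂ) 1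
    rw [Nat.cast_one, pow_one] at this
    exact this
  rw [B, h1, subst_add (hasSubst_of hU), subst_X (hasSubst_of hU)]
  congr 1
  have h2 := B_zero hU
  rw [B, binomialSeries_zero] at h2
  exact h2

theorem B_nat {U : W} (hU : constantCoeff U = 0) (r : ℂ) (n : ℕ) : B U (n * r) = B U r ^ n := by
  induction n with
  | zero => rw [Nat.cast_zero, zero_mul, B_zero hU, pow_zero]
  | succ n ih => rw [Nat.cast_succ, add_mul, one_mul, B_add hU, ih, pow_succ]

theorem constantCoeff_B {U : W} (hU : constantCoeff U = 0) (r : ℂ) : constantCoeff (B U r) = 1 := by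
  rw [← coeff_zero_eq_constantCoeff_apply, coeff_B hU, zero_add, Finset.sum_range_one, pow_zero,
    Ring.choose_zero_right, one_smul, coeff_zero_one]

/-- uniqueness of the `N`-th root -/
theorem root_unique {N : ℕ} (hN : 0 < N) {a b : W} (ha : constantCoeff (constantCoeff a) = 1)
    (hb : constantCoeff (constantCoeff b) = 1) (h : a ^ N = b ^ N) : a = b := by
  have h1 := (Commute.all a b).geom_sum₂_mul N
  rw [h, sub_self] at h1
  rcases mul_eq_zero.1 h1 with h2 | h2
  · exfalso
    have h3 := congrArg (fun x => constantCoeff (constantCoeff x)) h2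
    simp only [map_sum, map_mul, map_pow, ha, hb, one_pow, mul_one, map_zero] at h3
    rw [Finset.sum_const, Finset.card_range, nsmul_eq_mul, mul_one] at h3
    exact hN.ne' (by exact_mod_cast h3)
  · exact sub_eq_zero.1 h2

theorem B_theta {N c : ℕ} (hN : 0 < N) {U Θ : W} (hU : constantCoeff U = 0)
    (hΘ : constantCoeff Θ = 1) (h : Θ ^ N = 1 + U) (j : ℕ) :
    B U (((j : ℂ) - c) / N) * Θ ^ c = Θ ^ j := by
  have hN' : (N : ℂ) ≠ 0 := by exact_mod_cast hN.ne'
  have h1 : B U (1 / N) = Θ := by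
    refine root_unique hN ?_ ?_ ?_
    · rw [constantCoeff_B hU, map_one]
    · rw [hΘ, map_one]
    · rw [← B_nat hU, mul_one_div_cancel hN', B_one hU, h]
  have h2 : ∀ i : ℕ, Θ ^ i = B U ((i : ℂ) / N) := by
    intro i
    rw [← h1, ← B_nat hU, mul_one_div]
  rw [h2 c, h2 j, ← B_add hU]
  congr 1
  ring

/-! ### The key identity -/

/-- divisibility of all coefficients by `X ^ L` -/
def Dv (L : ℕ) (F : W) : Prop := ∀ n, (X : PowerSeries ℂ) ^ L ∣ coeff n F

theorem Dv.mul_right {L : ℕ} {F : W} (hF : Dv L F) (G : W) : Dv L (F * G) := by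
  intro n
  rw [coeff_mul]
  exact Finset.dvd_sum fun p _ => Dvd.dvd.mul_right (hF _) _

theorem Dv.sub {L : ℕ} {F G : W} (hF : Dv L F) (hG : Dv L G) : Dv L (F - G) := by
  intro n
  rw [map_sub]
  exact dvd_sub (hF n) (hG n)

theorem Dv_zero {F : W} (h : ∀ L, Dv L F) : F = 0 := by
  ext n m
  rw [map_zero, map_zero]
  exact X_pow_dvd_iff.1 (h (m + 1) n) m (Nat.lt_succ_self m)

theorem Dv_sw {L : ℕ} {F : W} (h : (X : W) ^ L ∣ F) : Dv L (sw F) := by
  intro n
  rw [X_pow_dvd_iff]
  intro m hm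
  rw [coeff_sw, X_pow_dvd_iff.1 h m hm, map_zero]

theorem E_add (N c m : ℕ) (k k' : PowerSeries ℂ) : E N c m (k + k') = E N c m k + E N c m k' := by
  ext j
  rw [E, E, E, map_add, coeff_mk, coeff_mk, coeff_mk, map_add, mul_add]

theorem E_monomial (N c m j : ℕ) (a : ℂ) :
    E N c m (monomial j a) = monomial j (Ring.choose (((j : ℂ) - c) / N) m * a) := by
  ext i
  rw [E, coeff_mk, coeff_monomial, coeff_monomial]
  split_ifs with h
  · rw [h]
  · rw [mul_zero]

theorem E_dvd (N c m : ℕ) {L : ℕ} {k : PowerSeries ℂ} (hk : (X : PowerSeries ℂ) ^ L ∣ k) :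
    (X : PowerSeries ℂ) ^ L ∣ E N c m k := by
  rw [X_pow_dvd_iff]
  intro j hj
  rw [E, coeff_mk, X_pow_dvd_iff.1 hk j hj, mul_zero]

/-- the Taylor expansion as an additive map -/
noncomputable def tayHom (N c : ℕ) (U : W) : PowerSeries ℂ →+ W where
  toFun := tayV N c U
  map_zero' := by
    ext n : 1
    rw [tayV, coeff_mk, map_zero]
    refine Finset.sum_eq_zero fun m _ => ?_
    have : E N c m 0 = 0 := by
      ext j
      rw [E, coeff_mk, map_zero, mul_zero]
    rw [this, zero_mul]
  map_add' k k' := by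
    ext n : 1
    rw [map_add, tayV, tayV, tayV, coeff_mk, coeff_mk, coeff_mk, ← Finset.sum_add_distrib]
    refine Finset.sum_congr rfl fun m _ => ?_
    rw [E_add, add_mul]

/-- `kev` as an additive map -/
noncomputable def kevHom (t : W) : PowerSeries ℂ →+ W where
  toFun k := kev k t
  map_zero' := by
    ext n : 1
    rw [kev, coeff_mk, map_zero]
    refine Finset.sum_eq_zero fun m _ => ?_
    rw [map_zero, map_zero, zero_mul]
  map_add' k k' := by
    ext n : 1
    rw [map_add, kev, kev, kev, coeff_mk, coeff_mk, coeff_mk, ← Finset.sum_add_distrib]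
    refine Finset.sum_congr rfl fun m _ => ?_
    rw [map_add, map_add, add_mul]

theorem tayV_monomial {N c : ℕ} {U : W} (hU : constantCoeff U = 0) (j : ℕ) (a : ℂ) :
    tayV N c U (monomial j a) = C (monomial j a) * B U (((j : ℂ) - c) / N) := by
  ext n : 1
  rw [tayV, coeff_mk, coeff_C_mul, coeff_B hU, Finset.mul_sum]
  refine Finset.sum_congr rfl fun m _ => ?_
  rw [E_monomial, mul_smul_comm, ← smul_mul_assoc, ← map_smul, smul_eq_mul]

theorem kev_monomial (j : ℕ) (a : ℂ) (t : W) :
    kev (monomial j a) t = C (C a) * (X ^ j * t ^ j) := by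
  ext n : 1
  rw [kev, coeff_mk, coeff_C_mul, coeff_X_pow_mul']
  simp only [coeff_monomial]
  split_ifs with h
  · rw [Finset.sum_eq_single j]
    · rw [if_pos rfl]
    · intro m _ hm
      rw [if_neg hm, map_zero, zero_mul]
    · intro hj
      rw [Finset.mem_range] at hj
      omega
  · rw [mul_zero]
    refine Finset.sum_eq_zero fun m hm => ?_
    rw [Finset.mem_range] at hm
    rw [if_neg (by omega), map_zero, zero_mul]

theorem kev_dvd {L : ℕ} {k : PowerSeries ℂ} (hk : (X : PowerSeries ℂ) ^ L ∣ k) (t : W) :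
    (X : W) ^ L ∣ kev k t := by
  rw [X_pow_dvd_iff]
  intro n hn
  rw [kev, coeff_mk]
  refine Finset.sum_eq_zero fun m hm => ?_
  rw [Finset.mem_range] at hm
  rw [X_pow_dvd_iff.1 hk m (by omega), map_zero, zero_mul]

theorem key {N c : ℕ} (hN : 0 < N) {th : W} (hth : constantCoeff (sw th) = 1)
    {U : W} (hU : constantCoeff U = 0) (h : sw th ^ N = 1 + U) (k : PowerSeries ℂ) :
    tayV N c U k * sw th ^ c = sw (kev k th) := by
  obtain ⟨D, hD⟩ : ∃ D : PowerSeries ℂ →+ W, ∀ k, D k = tayV N c U k * sw th ^ c - sw (kev k th) :=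
    ⟨(AddMonoidHom.mulRight (sw th ^ c)).comp (tayHom N c U) -
      (sw : W →+* W).toAddMonoidHom.comp (kevHom th), fun k => rfl⟩
  have hmon : ∀ (j : ℕ) (a : ℂ), D (monomial j a) = 0 := by
    intro j a
    rw [hD, tayV_monomial hU, mul_assoc, B_theta hN hU hth h, kev_monomial, map_mul, map_mul,
      map_pow, map_pow, sw_CC, sw_X, sub_eq_zero, ← mul_assoc]
    congr 1
    rw [← map_pow, ← map_mul]
    congr 1
    ext m
    rw [coeff_C_mul, coeff_X_pow, coeff_monomial]
    split_ifs
    · rw [mul_one]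
    · rw [mul_zero]
  have hpol : ∀ p : Polynomial ℂ, D (p : PowerSeries ℂ) = 0 := by
    intro p
    induction p using Polynomial.induction_on' with
    | add p q hp hq => rw [Polynomial.coe_add, map_add, hp, hq, add_zero]
    | monomial n a => rw [Polynomial.coe_monomial, hmon]
  have hdv : ∀ (L : ℕ) (k : PowerSeries ℂ), (X : PowerSeries ℂ) ^ L ∣ k → Dv L (D k) := by
    intro L k hk
    rw [hD]
    refine Dv.sub (Dv.mul_right ?_ _) (Dv_sw (kev_dvd hk th))
    intro n
    rw [tayV, coeff_mk]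
    exact Finset.dvd_sum fun m _ => Dvd.dvd.mul_right (E_dvd N c m hk) _
  have hzero : D k = 0 := by
    refine Dv_zero fun L => ?_
    have h1 : k = (trunc L k : PowerSeries ℂ) + (k - (trunc L k : PowerSeries ℂ)) := by ring
    rw [h1, map_add, hpol, zero_add]
    refine hdv L _ ?_
    rw [X_pow_dvd_iff]
    intro m hm
    rw [map_sub, Polynomial.coeff_coe, coeff_trunc, if_pos hm, sub_self]
  rw [hD] at hzero
  exact sub_eq_zero.1 hzero

/-! ### Construction of the theta-chain -/

/-- one step of the theta-chain -/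
noncomputable def nextV (c : ℕ) (k : PowerSeries ℂ) (p : W × W) : W :=
  p.2 * p.1 ^ c * Ring.inverse (p.1 ^ c + p.2 * kev k p.1)

/-- one step of the theta-chain -/
noncomputable def nextT (N c : ℕ) (k : PowerSeries ℂ) (p : W × W) : W :=
  sw (B (sw (p.1 ^ N + (X : W) ^ (c - N) * nextV c k p - 1)) (1 / N))

/-- the theta-chain -/
noncomputable def chain (N c : ℕ) (k : ℕ → PowerSeries ℂ) : ℕ → W × W
  | 0 => (1, C (X : PowerSeries ℂ))
  | i + 1 => (nextT N c (k i) (chain N c k i), nextV c (k i) (chain N c k i))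

theorem isUnit_W {G : W} (h : constantCoeff (sw G) = 1) : IsUnit G := by
  rw [PowerSeries.isUnit_iff_constantCoeff, PowerSeries.isUnit_iff_constantCoeff]
  have h1 := congrArg (coeff 0) h
  rw [constantCoeff_sw, coeff_mk, coeff_zero_one, coeff_zero_eq_constantCoeff_apply] at h1
  rw [h1]
  exact isUnit_one

theorem unit_step {c : ℕ} {k : PowerSeries ℂ} {p : W × W} (h1 : constantCoeff (sw p.1) = 1)
    (h2 : constantCoeff (sw p.2) = 0) : IsUnit (p.1 ^ c + p.2 * kev k p.1) := by
  refine isUnit_W ?_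
  rw [map_add, map_add, map_pow, map_pow, h1, one_pow, map_mul, map_mul, h2, zero_mul, add_zero]

theorem nextV_eq {c : ℕ} {k : PowerSeries ℂ} {p : W × W} (h1 : constantCoeff (sw p.1) = 1)
    (h2 : constantCoeff (sw p.2) = 0) :
    nextV c k p * (p.1 ^ c + p.2 * kev k p.1) = p.2 * p.1 ^ c := by
  rw [nextV, mul_assoc, Ring.inverse_mul_cancel _ (unit_step h1 h2), mul_one]

theorem nextV_const {c : ℕ} {k : PowerSeries ℂ} {p : W × W} (h2 : constantCoeff (sw p.2) = 0) :
    constantCoeff (sw (nextV c k p)) = 0 := by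
  rw [nextV, mul_assoc, map_mul, map_mul, h2, zero_mul]

theorem step_const {N c : ℕ} {k : PowerSeries ℂ} {p : W × W} (h1 : constantCoeff (sw p.1) = 1)
    (h2 : constantCoeff (sw p.2) = 0) :
    constantCoeff (sw (p.1 ^ N + (X : W) ^ (c - N) * nextV c k p - 1)) = 0 := by
  rw [map_sub, map_sub, map_add, map_add, map_pow, map_pow, h1, one_pow, map_mul, map_mul,
    nextV_const h2, mul_zero, add_zero, map_one, map_one, sub_self]

theorem nextT_const {N c : ℕ} {k : PowerSeries ℂ} {p : W × W} (h1 : constantCoeff (sw p.1) = 1)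
    (h2 : constantCoeff (sw p.2) = 0) : constantCoeff (sw (nextT N c k p)) = 1 := by
  rw [nextT, sw_sw, constantCoeff_B (step_const h1 h2)]

theorem nextT_eq {N c : ℕ} (hN : 0 < N) {k : PowerSeries ℂ} {p : W × W}
    (h1 : constantCoeff (sw p.1) = 1) (h2 : constantCoeff (sw p.2) = 0) :
    nextT N c k p ^ N = p.1 ^ N + (X : W) ^ (c - N) * nextV c k p := by
  have hN' : (N : ℂ) ≠ 0 := by exact_mod_cast hN.ne'
  have h3 := step_const (N := N) (c := c) (k := k) h1 h2
  rw [nextT, ← map_pow, ← B_nat h3, mul_one_div_cancel hN', B_one h3, map_add, sw_sw, map_one]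
  ring

theorem chain_const (N c : ℕ) (k : ℕ → PowerSeries ℂ) (i : ℕ) :
    constantCoeff (sw (chain N c k i).1) = 1 ∧ constantCoeff (sw (chain N c k i).2) = 0 := by
  induction i with
  | zero =>
    rw [chain]
    refine ⟨by rw [map_one, map_one], ?_⟩
    rw [sw_CX, constantCoeff_X]
  | succ i ih =>
    rw [chain]
    exact ⟨nextT_const ih.1 ih.2, nextV_const ih.2⟩

theorem const_iff {f : W} : constantCoeff (sw f) = 1 ↔
    ∀ n, constantCoeff (coeff n f) = if n = 0 then 1 else 0 := by
  rw [constantCoeff_sw]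
  constructor
  · intro h n
    have h1 := congrArg (coeff n) h
    rw [coeff_mk, coeff_one] at h1
    exact h1
  · intro h
    ext n
    rw [coeff_mk, coeff_one, h]

theorem thChain_chain {N c : ℕ} (hN : 0 < N) (k : ℕ → PowerSeries ℂ) (M : ℕ) :
    ThChain N c k M (fun i => (chain N c k i).1) (fun i => (chain N c k i).2) where
  th0 := by
    show (chain N c k 0).1 = 1
    rw [chain]
  v0 := by
    show (chain N c k 0).2 = _
    rw [chain]
  stepv i _ := by
    show (chain N c k (i + 1)).2 * _ = _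
    rw [chain]
    exact nextV_eq (chain_const N c k i).1 (chain_const N c k i).2
  stepth i _ := by
    show (chain N c k (i + 1)).1 ^ N = (chain N c k i).1 ^ N + (X : W) ^ (c - N) *
      (chain N c k (i + 1)).2
    rw [chain]
    exact nextT_eq hN (chain_const N c k i).1 (chain_const N c k i).2
  unit i _ := const_iff.1 (chain_const N c k i).1

/-! ### Comparison -/

theorem swapHom_X : swapHom (X : W) = C (HahnSeries.single (1 : ℤ) (1 : ℂ)) := by
  show J (sw X) = _
  rw [sw_X, J, PowerSeries.map_C, HahnSeries.ofPowerSeries_X]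

theorem swapHom_CX : swapHom (C (X : PowerSeries ℂ)) = X := by
  show J (sw (C X)) = _
  rw [sw_CX, J, PowerSeries.map_X]

theorem single_ne_zero (c : ℤ) : (HahnSeries.single c (1 : ℂ) : LaurentSeries ℂ) ≠ 0 := by
  rw [Ne, HahnSeries.single_eq_zero_iff]
  exact one_ne_zero

theorem thchain_const {N c M : ℕ} {k : ℕ → PowerSeries ℂ} {th v : ℕ → W}
    (hT : ThChain N c k M th v) {i : ℕ} (hi : i ≤ M) : constantCoeff (sw (th i)) = 1 :=
  const_iff.2 (hT.unit i hi)

theorem thchain_unit {N c M : ℕ} {k : ℕ → PowerSeries ℂ} {th v : ℕ → W}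
    (hT : ThChain N c k M th v) (i : ℕ) : i ≤ M → constantCoeff (sw (v i)) = 0 ∧
      IsUnit (th i ^ c + v i * kev (k i) (th i)) := by
  induction i with
  | zero =>
    intro hi
    have h1 : constantCoeff (sw (v 0)) = 0 := by
      rw [hT.v0, sw_CX, constantCoeff_X]
    exact ⟨h1, unit_step (p := (th 0, v 0)) (thchain_const hT hi) h1⟩
  | succ i ih =>
    intro hi
    obtain ⟨h1, h2⟩ := ih (by omega)
    have h3 := congrArg (fun x => constantCoeff (sw x)) (hT.stepv i (by omega))
    simp only [map_mul, map_add, map_pow, thchain_const hT (show i ≤ M by omega), h1, one_pow,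
      zero_mul, add_zero, mul_one] at h3
    exact ⟨h3, unit_step (p := (th (i + 1), v (i + 1))) (thchain_const hT hi) h3⟩

theorem compare {N c M : ℕ} (hN : 0 < N) (hc : N ≤ c) {d : LaurentSeries ℂ → LaurentSeries ℂ}
    (hd : ∀ (f : LaurentSeries ℂ) (n : ℤ), (d f).coeff n = ((n + N : ℂ) / N) * f.coeff (n + N))
    {k : ℕ → PowerSeries ℂ} {kap : ℕ → LaurentSeries ℂ}
    (hkap : ∀ i, kap i = HahnSeries.single (-(c : ℤ)) 1 * HahnSeries.ofPowerSeries ℤ ℂ (k i))
    {h P : ℕ → PowerSeries (LaurentSeries ℂ)} (hT : TChain d kap M h P) {th v : ℕ → W}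
    (hV : ThChain N c k M th v) (i : ℕ) :
    (i ≤ M → rescale (HahnSeries.single (c : ℤ) (1 : ℂ)) (h i) =
      C (HahnSeries.single (N : ℤ) (1 : ℂ)) * (swapHom (th i) ^ N - 1)) ∧
    (i ≤ M + 1 → rescale (HahnSeries.single (c : ℤ) (1 : ℂ)) (P i) =
      C (HahnSeries.single (c : ℤ) (1 : ℂ)) * swapHom (v i)) := by
  induction i with
  | zero =>
    refine ⟨fun _ => ?_, fun _ => ?_⟩
    · rw [hT.h0, hV.th0, map_zero, map_one swapHom, one_pow, sub_self, mul_zero]
    · rw [hT.P0, hV.v0, swapHom_CX]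
      ext n : 1
      rw [coeff_rescale, coeff_C_mul, coeff_X]
      split_ifs with hn
      · rw [hn, pow_one]
      · rw [mul_zero, mul_zero]
  | succ i ih =>
    have hP : i + 1 ≤ M + 1 → rescale (HahnSeries.single (c : ℤ) (1 : ℂ)) (P (i + 1)) =
        C (HahnSeries.single (c : ℤ) (1 : ℂ)) * swapHom (v (i + 1)) := by
      intro hi
      have hi' : i ≤ M := by omega
      have ihh := ih.1 hi'
      have ihP := ih.2 (by omega)
      have hth := thchain_const hV hi'
      -- the Taylor expansion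
      obtain ⟨U, hU⟩ : ∃ U : W, U = sw (th i) ^ N - 1 := ⟨_, rfl⟩
      have hU0 : constantCoeff U = 0 := by
        rw [hU, map_sub, map_pow, hth, one_pow, map_one, sub_self]
      have hU1 : sw (th i) ^ N = 1 + U := by
        rw [hU]
        ring
      have e1 : C (HahnSeries.single (N : ℤ) (1 : ℂ)) * (swapHom (th i) ^ N - 1) =
          C (HahnSeries.single (N : ℤ) (1 : ℂ)) * J U := by
        rw [hU, map_sub, map_pow, map_one J]
        rfl
      have e2 : C (HahnSeries.single (c : ℤ) (1 : ℂ)) *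
          rescale (HahnSeries.single (c : ℤ) (1 : ℂ)) (tay d (h i) (kap i)) = J (tayV N c U (k i)) := by
        rw [rescale_tay, ihh, e1, hkap, tay_eq hN hd]
      have e3 : C (HahnSeries.single (c : ℤ) (1 : ℂ)) *
          rescale (HahnSeries.single (c : ℤ) (1 : ℂ)) (tay d (h i) (kap i)) * swapHom (th i) ^ c =
            swapHom (kev (k i) (th i)) := by
        rw [e2]
        show J (tayV N c U (k i)) * (J (sw (th i))) ^ c = J (sw (kev (k i) (th i)))
        rw [← map_pow, ← map_mul, key hN hth hU0 hU1]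
      have e4 := congrArg (rescale (HahnSeries.single (c : ℤ) (1 : ℂ))) (hT.stepP i hi')
      rw [map_mul, map_add, map_one (rescale _), map_mul, ihP] at e4
      have e5 := congrArg swapHom (hV.stepv i hi')
      rw [map_mul, map_add, map_mul, map_mul, map_pow] at e5
      have hne : swapHom (th i) ^ c + swapHom (v i) * swapHom (kev (k i) (th i)) ≠ 0 := by
        rw [← map_pow, ← map_mul, ← map_add]
        intro h0
        exact (thchain_unit hV i hi').2.ne_zero (swapHom_inj (h0.trans (map_zero swapHom).symm))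
      refine mul_right_cancel₀ hne ?_
      rw [mul_assoc, e5, ← e3]
      linear_combination swapHom (th i) ^ c * e4
    refine ⟨fun hi => ?_, hP⟩
    have ihh := ih.1 (by omega)
    have e1 := congrArg swapHom (hV.stepth i (by omega))
    rw [map_pow, map_add, map_pow, map_mul, map_pow, swapHom_X] at e1
    rw [hT.steph i (by omega), map_add, ihh, hP (by omega), e1]
    have e2 : (C (HahnSeries.single (c : ℤ) (1 : ℂ)) : PowerSeries (LaurentSeries ℂ)) =
        C (HahnSeries.single (N : ℤ) (1 : ℂ)) * C (HahnSeries.single (1 : ℤ) (1 : ℂ)) ^ (c - N) := by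
      rw [← map_pow, ← map_mul, HahnSeries.single_pow, HahnSeries.single_mul_single, one_pow, one_mul]
      congr 2
      rw [nsmul_eq_mul, Nat.cast_sub hc, mul_one, add_sub_cancel]
    rw [e2]
    ring

end Conv

open Conv

/-- **Conversion of a formal chain to a theta-chain.** -/
theorem tchain_to_thchain {N c M : ℕ} (hN : 0 < N) (hc : N ≤ c)
    (d : LaurentSeries ℂ → LaurentSeries ℂ)
    (hd : ∀ (f : LaurentSeries ℂ) (n : ℤ), (d f).coeff n = ((n + N : ℂ) / N) * f.coeff (n + N))
    (k : ℕ → PowerSeries ℂ) (kap : ℕ → LaurentSeries ℂ)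
    (hkap : ∀ i, kap i = HahnSeries.single (-(c : ℤ)) 1 * HahnSeries.ofPowerSeries ℤ ℂ (k i))
    (h P : ℕ → PowerSeries (LaurentSeries ℂ)) (hT : TChain d kap M h P) :
    ∃ th v : ℕ → W, ThChain N c k M th v ∧
      (∀ i ≤ M, rescale (HahnSeries.single (c : ℤ) (1 : ℂ)) (h i) =
        C (HahnSeries.single (N : ℤ) (1 : ℂ)) * (swapFun (th i) ^ N - 1)) ∧
      ∀ i ≤ M + 1, rescale (HahnSeries.single (c : ℤ) (1 : ℂ)) (P i) =
        C (HahnSeries.single (c : ℤ) (1 : ℂ)) * swapFun (v i) := by
  refine ⟨_, _, thChain_chain hN k M, fun i hi => ?_, fun i hi => ?_⟩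
  · rw [swapFun_eq']
    exact (compare hN hc hd hkap hT (thChain_chain hN k M) i).1 hi
  · rw [swapFun_eq']
    exact (compare hN hc hd hkap hT (thChain_chain hN k M) i).2 hi

/-- `swapFun` is an injective ring homomorphism -/
theorem swapFun_injective : Function.Injective swapFun := by
  intro f g h
  rw [swapFun_eq', swapFun_eq'] at h
  exact swapHom_inj h

/-- The `N`-th root of an element that is `1` modulo `y` is unique. -/
theorem th_unique {N : ℕ} (hN : 0 < N) {a b : W}
    (ha : ∀ n, constantCoeff (coeff n a) = if n = 0 then 1 else 0)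
    (hb : ∀ n, constantCoeff (coeff n b) = if n = 0 then 1 else 0) (h : a ^ N = b ^ N) : a = b := by
  refine root_unique hN ?_ ?_ h
  · have := ha 0
    rwa [if_pos rfl, coeff_zero_eq_constantCoeff_apply] at this
  · have := hb 0
    rwa [if_pos rfl, coeff_zero_eq_constantCoeff_apply] at this

/-- Two formal chains with the same end give two theta-chains with the same end. -/
theorem tchain_ends {N c M : ℕ} (hN : 0 < N) (hc : N ≤ c)
    (d : LaurentSeries ℂ → LaurentSeries ℂ)
    (hd : ∀ (f : LaurentSeries ℂ) (n : ℤ), (d f).coeff n = ((n + N : ℂ) / N) * f.coeff (n + N))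
    (k k' : ℕ → PowerSeries ℂ) (kap kap' : ℕ → LaurentSeries ℂ)
    (hkap : ∀ i, kap i = HahnSeries.single (-(c : ℤ)) 1 * HahnSeries.ofPowerSeries ℤ ℂ (k i))
    (hkap' : ∀ i, kap' i = HahnSeries.single (-(c : ℤ)) 1 * HahnSeries.ofPowerSeries ℤ ℂ (k' i))
    (h P h' P' : ℕ → PowerSeries (LaurentSeries ℂ)) (hT : TChain d kap M h P)
    (hT' : TChain d kap' M h' P') (hh : h M = h' M) (hP : P (M + 1) = P' (M + 1)) :
    ∃ th v th' v' : ℕ → W, ThChain N c k M th v ∧ ThChain N c k' M th' v' ∧
      th M = th' M ∧ v (M + 1) = v' (M + 1) := by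
  obtain ⟨th, v, hV, h1, h2⟩ := tchain_to_thchain hN hc d hd k kap hkap h P hT
  obtain ⟨th', v', hV', h1', h2'⟩ := tchain_to_thchain hN hc d hd k' kap' hkap' h' P' hT'
  refine ⟨th, v, th', v', hV, hV', ?_, ?_⟩
  · refine th_unique hN (hV.unit M le_rfl) (hV'.unit M le_rfl) ?_
    have e1 := h1 M le_rfl
    rw [hh, h1' M le_rfl] at e1
    have e2 : (C (HahnSeries.single (N : ℤ) (1 : ℂ)) : PowerSeries (LaurentSeries ℂ)) ≠ 0 := by
      rw [Ne, map_eq_zero_iff _ C_injective]
      exact single_ne_zero _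
    have e3 := sub_left_injective (mul_left_cancel₀ e2 e1)
    rw [swapFun_eq', swapFun_eq'] at e3
    refine swapHom_inj ?_
    rw [map_pow, map_pow]
    exact e3.symm
  · have e1 := h2 (M + 1) le_rfl
    rw [hP, h2' (M + 1) le_rfl] at e1
    have e2 : (C (HahnSeries.single (c : ℤ) (1 : ℂ)) : PowerSeries (LaurentSeries ℂ)) ≠ 0 := by
      rw [Ne, map_eq_zero_iff _ C_injective]
      exact single_ne_zero _
    exact swapFun_injective (mul_left_cancel₀ e2 e1).symm

end Pool.Agent.LAT
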