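import Pool.Agent.Lib.MP_ae5b4e_an_LAT.AlgMain
import Pool.Agent.Lib.MP_ae5b4e_an_LAT.AlgConv
import Pool.Agent.Lib.Puiseux.Rot

/-!
# Two chains over `ℂ((w))` with equal ends
-/

namespace Pool.Agent.LAT

open PowerSeries

/-- Multiplication by a power of `w` which makes a Laurent series a power series. -/
theorem exists_ps {f : LaurentSeries ℂ} {c : ℕ} (hf : ∀ n : ℤ, n < -(c : ℤ) → f.coeff n = 0) :
    ∃ k : PowerSeries ℂ, f = HahnSeries.single (-(c : ℤ)) 1 * HahnSeries.ofPowerSeries ℤ ℂ k ∧
      ∀ n : ℕ, coeff n k = f.coeff ((n : ℤ) - c) := by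
  have h1 : ∀ j < 0, (HahnSeries.single (c : ℤ) (1 : ℂ) * f : LaurentSeries ℂ).coeff j = 0 := by
    intro j hj
    have : j = (j - c) + c := by ring
    rw [this, HahnSeries.coeff_single_mul_add, one_mul]
    exact hf _ (by omega)
  obtain ⟨k, hk⟩ := Pool.Agent.Lib.Puiseux.mem_range_of_coeff_neg h1
  refine ⟨k, ?_, ?_⟩
  · rw [hk, ← mul_assoc, HahnSeries.single_mul_single, neg_add_cancel, one_mul]
    simp
  · intro n
    have h2 : (HahnSeries.ofPowerSeries ℤ ℂ k).coeff (n : ℤ) = coeff n k :=
      HahnSeries.ofPowerSeries_apply_coeff k n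
    rw [← h2, hk]
    have : (n : ℤ) = (n - c) + c := by ring
    rw [this, HahnSeries.coeff_single_mul_add, one_mul]
    congr 1
    ring

/-- **The algebraic part, final form.**  Two chains over `ℂ((w))` (with `d` the derivative with
respect to `z = w ^ N`) with the same ends; the first has the constant function `kap`, the second
starts with the monodromy image of `kap`.  Then `kap` is invariant. -/
theorem alg_tchain {N M : ℕ} (hN : 0 < N) (d : LaurentSeries ℂ → LaurentSeries ℂ)
    (hd : ∀ (f : LaurentSeries ℂ) (n : ℤ), (d f).coeff n = ((n + N : ℂ) / N) * f.coeff (n + N))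
    {kap : LaurentSeries ℂ} {l : ℕ → LaurentSeries ℂ} {h P h' P' : ℕ → PowerSeries (LaurentSeries ℂ)}
    (hT : TChain d (fun _ => kap) M h P) (hT' : TChain d l M h' P')
    (hh : h M = h' M) (hP : P (M + 1) = P' (M + 1)) {ζ : ℂˣ} (hζ : ζ ^ N = 1)
    (h0 : l 0 = Pool.Agent.Lib.Puiseux.rot ζ kap) : l 0 = kap := by
  classical
  -- only the functions of index `≤ M` matter
  set l' : ℕ → LaurentSeries ℂ := fun i => if i ≤ M then l i else 0 with hl'
  have hT'' : TChain d l' M h' P' := by
    refine ⟨hT'.h0, hT'.P0, fun i hi => ?_, hT'.steph⟩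
    have : l' i = l i := by rw [hl']; simp [hi]
    rw [this]
    exact hT'.stepP i hi
  have hl'0 : l' 0 = l 0 := by simp [hl']
  -- pole orders
  let Pc : ℕ → Prop := fun c => (∀ n : ℤ, n < -(c : ℤ) → kap.coeff n = 0) ∧
    ∀ i ≤ M, ∀ n : ℤ, n < -(c : ℤ) → (l i).coeff n = 0
  have hex : ∀ f : LaurentSeries ℂ, ∃ c : ℕ, ∀ n : ℤ, n < -(c : ℤ) → f.coeff n = 0 := by
    intro f
    refine ⟨(-f.order).toNat, fun n hn => ?_⟩
    apply HahnSeries.coeff_eq_zero_of_lt_order
    have := Int.self_le_toNat (-f.order)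
    omega
  have hexP : ∃ c, Pc c := by
    choose g hg using hex
    refine ⟨g kap + ∑ i ∈ Finset.range (M + 1), g (l i), ?_, ?_⟩
    · intro n hn
      apply hg kap
      push_cast at hn
      have : (0 : ℤ) ≤ ∑ i ∈ Finset.range (M + 1), (g (l i) : ℤ) :=
        Finset.sum_nonneg fun i _ => Int.natCast_nonneg _
      omega
    · intro i hi n hn
      apply hg (l i)
      push_cast at hn
      have : (g (l i) : ℤ) ≤ ∑ i ∈ Finset.range (M + 1), (g (l i) : ℤ) :=
        Finset.single_le_sum (f := fun i => (g (l i) : ℤ)) (fun i _ => Int.natCast_nonneg _)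
          (Finset.mem_range.mpr (by omega))
      omega
  set c₀ := Nat.find hexP with hc₀
  have hPc₀ : Pc c₀ := Nat.find_spec hexP
  set c := max N c₀ with hc
  have hNc : N ≤ c := le_max_left _ _
  have hc₀c : c₀ ≤ c := le_max_right _ _
  have hPc : Pc c := ⟨fun n hn => hPc₀.1 n (by omega), fun i hi n hn => hPc₀.2 i hi n (by omega)⟩
  obtain ⟨k, hk, hk'⟩ := exists_ps hPc.1
  have hl : ∀ i, ∃ q : PowerSeries ℂ, l' i = HahnSeries.single (-(c : ℤ)) 1 *
      HahnSeries.ofPowerSeries ℤ ℂ q ∧ ∀ n : ℕ, coeff n q = (l' i).coeff ((n : ℤ) - c) := by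
    intro i
    apply exists_ps
    intro n hn
    by_cases hi : i ≤ M
    · rw [hl']
      simp only [if_pos hi]
      exact hPc.2 i hi n hn
    · rw [hl']
      simp only [if_neg hi, HahnSeries.coeff_zero]
  choose q hq hq' using hl
  obtain ⟨th, v, th', v', hV, hV', e1, e2⟩ := tchain_ends hN hNc d hd (fun _ => k) q
    (fun _ => kap) l' (fun _ => hk) hq h P h' P' hT hT'' hh hP
  have hζ' : ((ζ : ℂˣ) : ℂ) ^ N = 1 := by
    rw [← Units.val_pow_eq_pow_val, hζ, Units.val_one]
  have key := alg_core (N := N) (c := c) (z := (ζ : ℂ)) (by omega) hNc hζ' (k := k) (l := q)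
    (by
      intro n
      rw [hq', hk', hl'0, h0, Pool.Agent.Lib.Puiseux.rot_coeff]
      have : ((ζ ^ ((n : ℤ) - c) : ℂˣ) : ℂ) * (ζ : ℂ) ^ c = (ζ : ℂ) ^ n := by
        rw [← Units.val_pow_eq_pow_val, ← Units.val_pow_eq_pow_val, ← Units.val_mul,
          ← zpow_natCast, ← zpow_natCast, ← zpow_add]
        congr 2
        ring
      rw [← this]
      ring) hV hV' e1 e2 (by
      intro hlt
      have hcc : c = c₀ := by
        rcases le_total N c₀ with h1 | h1
        · rw [hc, max_eq_right h1]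
        · rw [hc, max_eq_left h1] at hlt
          omega
      have hpos : 0 < c₀ := by omega
      have hmin := Nat.find_min hexP (show c₀ - 1 < Nat.find hexP by omega)
      by_contra hcon
      push Not at hcon
      apply hmin
      refine ⟨fun n hn => ?_, fun i hi n hn => ?_⟩
      · by_cases h2 : n < -(c₀ : ℤ)
        · exact hPc₀.1 n h2
        · have : n = ((0 : ℕ) : ℤ) - c := by push_cast; omega
          rw [this, ← hk']
          exact hcon.1
      · by_cases h2 : n < -(c₀ : ℤ)
        · exact hPc₀.2 i hi n h2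
        · have : n = ((0 : ℕ) : ℤ) - c := by push_cast; omega
          have h3 := hcon.2 i hi
          rw [hq' i, hl'] at h3
          simp only [if_pos hi] at h3
          rw [this]
          exact h3)
  rw [← hl'0, hq 0, key, ← hk]

end Pool.Agent.LAT
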