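import Pool.Agent.Lib.MP_ae5b4e_an_LAT.NDCb

/-!
# Minimal bases
-/

namespace Pool.Agent.LAT.RH

open Polynomial

/-- Power sums determine the set of values. -/
theorem powsum {K : Type*} [Field K] [CharZero K] {n : ℕ} (α β : Fin n → K)
    (h : ∀ k : ℕ, ∑ i, α i ^ k = ∑ i, β i ^ k) (i₀ : Fin n) : ∃ j, α i₀ = β j := by
  classical
  by_contra hcon
  push Not at hcon
  have hpoly : ∀ q : K[X], ∑ i, q.eval (α i) = ∑ i, q.eval (β i) := by
    intro q
    induction q using Polynomial.induction_on' with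
    | add p q hp hq => simp only [eval_add, Finset.sum_add_distrib, hp, hq]
    | monomial k a => simp only [eval_monomial, ← Finset.mul_sum, h k]
  set T : Finset K := (Finset.univ.image α ∪ Finset.univ.image β).erase (α i₀) with hT
  set q : K[X] := ∏ y ∈ T, (X - C y) with hq
  have hzero : ∀ y ∈ T, q.eval y = 0 := by
    intro y hy
    rw [hq, eval_prod, Finset.prod_eq_zero_iff]
    exact ⟨y, hy, by simp⟩
  have hne : q.eval (α i₀) ≠ 0 := by
    rw [hq, eval_prod, Finset.prod_ne_zero_iff]
    intro y hy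
    rw [hT, Finset.mem_erase] at hy
    simp only [eval_sub, eval_X, eval_C, sub_ne_zero]
    exact hy.1.symm
  have h1 := hpoly q
  have h2 : ∑ i, q.eval (β i) = 0 := by
    refine Finset.sum_eq_zero fun i _ => hzero _ ?_
    rw [hT, Finset.mem_erase]
    exact ⟨fun h => hcon i h.symm, Finset.mem_union_right _
      (Finset.mem_image_of_mem _ (Finset.mem_univ _))⟩
  have h3 : ∑ i, q.eval (α i) = ((Finset.univ.filter fun i => α i = α i₀).card : K) *
      q.eval (α i₀) := by
    rw [← Finset.sum_filter_add_sum_filter_not Finset.univ (fun i => α i = α i₀)]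
    rw [Finset.sum_eq_zero (s := Finset.univ.filter fun i => ¬ α i = α i₀), add_zero,
      Finset.sum_congr rfl (fun i hi => by rw [(Finset.mem_filter.mp hi).2]), Finset.sum_const,
      nsmul_eq_mul]
    intro i hi
    apply hzero
    rw [hT, Finset.mem_erase]
    exact ⟨(Finset.mem_filter.mp hi).2, Finset.mem_union_left _
      (Finset.mem_image_of_mem _ (Finset.mem_univ _))⟩
  rw [h2, h3] at h1
  rcases mul_eq_zero.mp h1 with h4 | h4
  · rw [Nat.cast_eq_zero, Finset.card_eq_zero] at h4
    have : i₀ ∈ Finset.univ.filter fun i => α i = α i₀ := by simp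
    rw [h4] at this
    exact absurd this (Finset.notMem_empty _)
  · exact hne h4

/-- The ring of power series inside the Laurent series. -/
noncomputable abbrev PS : Subring Lau := (HahnSeries.ofPowerSeries ℤ ℂ).range

theorem ofPS_neg (k : PowerSeries ℂ) {l : ℤ} (hl : l < 0) :
    (HahnSeries.ofPowerSeries ℤ ℂ k).coeff l = 0 := by
  rw [HahnSeries.ofPowerSeries_apply]
  refine HahnSeries.embDomain_of_notMem_range ?_
  rintro ⟨n, hn⟩
  have h1 : ((n : ℕ) : ℤ) = l := hn
  omega

theorem mem_PS {f : Lau} : f ∈ PS ↔ ∀ j < 0, f.coeff j = 0 := by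
  constructor
  · rintro ⟨g, rfl⟩ j hj
    exact ofPS_neg g hj
  · intro h
    exact Pool.Agent.Lib.Puiseux.mem_range_of_coeff_neg h

theorem C_mem_PS (c : ℂ) : (HahnSeries.C c : Lau) ∈ PS :=
  ⟨PowerSeries.C c, HahnSeries.ofPowerSeries_C ..⟩

/-- Multiplication by a power of the coordinate at infinity. -/
theorem coeff_zinf_pow_mul (k : ℕ) (f : Lau) (j : ℤ) :
    (zinf ^ k * f).coeff j = f.coeff (j + k) := by
  have h : (zinf ^ k : Lau) = HahnSeries.single (-(k : ℤ)) 1 := by
    rw [zinf, HahnSeries.single_pow, one_pow, nsmul_eq_mul, mul_neg, mul_one]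
  have h2 : j = (j + k) + (-(k : ℤ)) := by ring
  rw [h]
  conv_lhs => rw [h2]
  rw [HahnSeries.coeff_single_mul_add, one_mul]

variable {m : ℂ[X][X]} [hirr : Fact (Irreducible (pF m))]

/-- The data: expansions at all finite points and at infinity. -/
structure Data (m : ℂ[X][X]) where
  N : ℂ → ℕ
  hN : ∀ e, 0 < N e
  fin : ℂ → Pt m
  hfin : ∀ e, (fin e).z = zfin e (N e)
  inf : Pt m
  hinf : inf.z = zinf

omit hirr in
theorem Pt.ev_eq (p : Pt m) {z' : Lau} (hz : p.z = z')
    (h' : Function.Injective (aeval z' : ℂ[X] →ₐ[ℂ] Lau)) (c : RatFunc ℂ) :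
    ev p.z p.inj c = ev z' h' c := by
  subst hz; rfl

variable (D : Data m)

/-- The integral elements. -/
noncomputable def Oset : Subring (Lf m) := ⨅ e : ℂ, ⨅ i, PS.comap ((D.fin e).hom i)

omit hirr in
theorem mem_Oset {b : Lf m} : b ∈ Oset D ↔ ∀ e i, (D.fin e).hom i b ∈ PS := by
  simp [Oset, Subring.mem_iInf, Subring.mem_comap]

/-- The embedding of the polynomials. -/
noncomputable def emb (m : ℂ[X][X]) : ℂ[X] →+* Lf m :=
  (algebraMap (RatFunc ℂ) (Lf m)).comp (algebraMap ℂ[X] (RatFunc ℂ))

omit hirr in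
theorem Pt.hom_emb (p : Pt m) (i : Fin m.natDegree) (q : ℂ[X]) :
    p.hom i (emb m q) = aeval p.z q := by
  rw [emb, RingHom.comp_apply, p.hom_algebraMap, ev_algebraMap]

omit hirr in
theorem fin_emb (e : ℂ) (i : Fin m.natDegree) (q : ℂ[X]) :
    (D.fin e).hom i (emb m q) = HahnSeries.ofPowerSeries ℤ ℂ (aeval (zps e (D.N e)) q) := by
  rw [Pt.hom_emb, D.hfin, aeval_zfin]

omit hirr in
theorem inf_emb (i : Fin m.natDegree) (q : ℂ[X]) :
    D.inf.hom i (emb m q) = aeval zinf q := by
  rw [Pt.hom_emb, D.hinf]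

omit hirr in
theorem emb_mem_Oset (q : ℂ[X]) : emb m q ∈ Oset D := by
  rw [mem_Oset]
  intro e i
  rw [fin_emb]
  exact ⟨_, rfl⟩

/-- The degree condition at infinity. -/
def DegLe (b : Lf m) (k : ℤ) : Prop := ∀ i, ∀ j < -k, (D.inf.hom i b).coeff j = 0

omit hirr in
theorem DegLe.mono {D : Data m} {b : Lf m} {k l : ℤ} (h : DegLe D b k) (hkl : k ≤ l) :
    DegLe D b l := fun i j hj => h i j (by omega)

/-- A function which is integral everywhere is constant. -/
theorem const_of_int {b : Lf m} (hb : b ∈ Oset D) (hd : DegLe D b 0) :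
    ∃ c : ℂ, b = emb m (C c) := by
  classical
  rw [mem_Oset] at hb
  have hn : 0 < m.natDegree := by
    rw [← natDegree_pF]
    exact hirr.out.natDegree_pos
  have hPS : ∀ i, D.inf.hom i b ∈ PS := fun i => mem_PS.mpr fun j hj => hd i j (by omega)
  choose g hg using hPS
  set α : Fin m.natDegree → Lau := fun i => D.inf.hom i b with hα
  set β : Fin m.natDegree → Lau := fun i => HahnSeries.C (PowerSeries.constantCoeff (g i)) with hβ
  have hsum : ∀ k : ℕ, ∑ i, α i ^ k = ∑ i, β i ^ k := by
    intro k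
    -- the trace of `b ^ k` is a polynomial
    obtain ⟨q, hq⟩ := poly_of_int (Algebra.trace (RatFunc ℂ) (Lf m) (b ^ k)) D.N D.hN (by
      intro e
      rw [← (D.fin e).ev_eq (D.hfin e), (D.fin e).trace]
      exact Subring.sum_mem _ fun i _ => by
        rw [map_pow]
        exact Subring.pow_mem _ (hb e i) k)
    have h1 : aeval zinf q = ∑ i, α i ^ k := by
      have h2 := D.inf.trace (b ^ k)
      rw [← hq, ev_algebraMap, D.hinf] at h2
      rw [h2]
      exact Finset.sum_congr rfl fun i _ => map_pow _ _ _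
    have h3 : ∑ i, α i ^ k = HahnSeries.ofPowerSeries ℤ ℂ (∑ i, g i ^ k) := by
      rw [map_sum]
      exact Finset.sum_congr rfl fun i _ => by rw [map_pow, hg i]
    -- `q` is constant
    have h4 : q = C (q.coeff 0) := by
      ext n
      rw [coeff_C]
      split_ifs with hn0
      · rw [hn0]
      · have h5 := coeff_aeval_zinf q (-(n : ℤ))
        rw [if_pos (by omega), neg_neg, Int.toNat_natCast] at h5
        rw [← h5, h1, h3]
        exact ofPS_neg _ (by omega)
    have h6 : HahnSeries.ofPowerSeries ℤ ℂ (∑ i, g i ^ k) =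
        HahnSeries.ofPowerSeries ℤ ℂ (PowerSeries.C (q.coeff 0)) := by
      rw [← h3, ← h1, HahnSeries.ofPowerSeries_C, h4, aeval_C, algebraMap_Lau, coeff_C_zero]
    have h7 := HahnSeries.ofPowerSeries_injective h6
    have h8 := congrArg PowerSeries.constantCoeff h7
    rw [map_sum, PowerSeries.constantCoeff_C] at h8
    rw [h3, h7, HahnSeries.ofPowerSeries_C, ← h8, map_sum]
    refine Finset.sum_congr rfl fun i _ => ?_
    rw [hβ]
    simp only
    rw [← map_pow, ← map_pow]
  have : CharZero Lau := charZero_of_injective_algebraMap (algebraMap ℂ Lau).injective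
  obtain ⟨j, hj⟩ := powsum α β hsum ⟨0, hn⟩
  refine ⟨PowerSeries.constantCoeff (g j), ?_⟩
  apply (D.inf.hom ⟨0, hn⟩).injective
  rw [inf_emb, aeval_C, algebraMap_Lau]
  exact hj

/-- A matrix of expansions. -/
noncomputable def Mat (p : Pt m) (b : Fin m.natDegree → Lf m) :
    Matrix (Fin m.natDegree) (Fin m.natDegree) Lau := Matrix.of fun i j => p.hom i (b j)

/-- Replacing one column. -/
theorem det_update (p : Pt m) (b : Fin m.natDegree → Lf m) (i₀ : Fin m.natDegree)
    (φ : Fin m.natDegree → RatFunc ℂ) :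
    (Mat p (Function.update b i₀ (∑ j, algebraMap (RatFunc ℂ) (Lf m) (φ j) * b j))).det =
      ev p.z p.inj (φ i₀) * (Mat p b).det := by
  have h1 : Mat p (Function.update b i₀ (∑ j, algebraMap (RatFunc ℂ) (Lf m) (φ j) * b j)) =
      (Mat p b).updateCol i₀ (fun k => ∑ i, (ev p.z p.inj (φ i)) • Mat p b k i) := by
    ext1 k j
    by_cases hj : j = i₀
    · subst hj
      rw [Matrix.updateCol_self]
      simp only [Mat, Matrix.of_apply, Function.update_self, map_sum, map_mul, p.hom_algebraMap,
        smul_eq_mul]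
    · rw [Matrix.updateCol_ne hj]
      simp only [Mat, Matrix.of_apply, Function.update_of_ne hj]
  rw [h1, Matrix.det_updateCol_sum, smul_eq_mul]

/-- A tuple with degrees. -/
structure Tup (b : Fin m.natDegree → Lf m) (k : Fin m.natDegree → ℕ) : Prop where
  int : ∀ i, b i ∈ Oset D
  deg : ∀ i, DegLe D (b i) (k i)
  det : (Mat D.inf b).det ≠ 0

/-- A tuple with minimal sum of degrees. -/
structure MinTup (b : Fin m.natDegree → Lf m) (k : Fin m.natDegree → ℕ) : Prop extends
    Tup D b k where
  min : ∀ b' k', Tup D b' k' → ∑ i, k i ≤ ∑ i, k' i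

variable {D} {b : Fin m.natDegree → Lf m} {k : Fin m.natDegree → ℕ}

/-- The basic reduction step is impossible for a minimal tuple. -/
theorem MinTup.red (h : MinTup D b k) (i₀ : Fin m.natDegree) (φ : Fin m.natDegree → RatFunc ℂ)
    (hφ : φ i₀ ≠ 0) (hO : ∑ j, algebraMap (RatFunc ℂ) (Lf m) (φ j) * b j ∈ Oset D)
    (hd : DegLe D (∑ j, algebraMap (RatFunc ℂ) (Lf m) (φ j) * b j) ((k i₀ : ℤ) - 1)) : False := by
  classical
  have hdet := det_update D.inf b i₀ φ
  have hne : ev D.inf.z D.inf.inj (φ i₀) * (Mat D.inf b).det ≠ 0 :=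
    mul_ne_zero ((map_ne_zero_iff _ (ev D.inf.z D.inf.inj).injective).mpr hφ) h.det
  set b' := ∑ j, algebraMap (RatFunc ℂ) (Lf m) (φ j) * b j with hb'
  rcases Nat.eq_zero_or_pos (k i₀) with hk | hk
  · -- then `b' = 0`
    rw [hk] at hd
    obtain ⟨c, hc⟩ := const_of_int D hO (hd.mono (by omega))
    have hn : 0 < m.natDegree := by
      rw [← natDegree_pF]
      exact hirr.out.natDegree_pos
    have h1 := hd ⟨0, hn⟩ 0 (by simp)
    rw [hc, inf_emb, aeval_C, algebraMap_Lau, HahnSeries.C_apply,
      HahnSeries.coeff_single_same] at h1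
    rw [h1, map_zero, map_zero] at hc
    rw [← hdet] at hne
    apply hne
    apply Matrix.det_eq_zero_of_column_eq_zero i₀
    intro i
    simp only [Mat, Matrix.of_apply, Function.update_self, hc, map_zero]
  · have hT : Tup D (Function.update b i₀ b') (Function.update k i₀ (k i₀ - 1)) := by
      refine ⟨fun i => ?_, fun i => ?_, ?_⟩
      · by_cases hi : i = i₀
        · subst hi; rw [Function.update_self]; exact hO
        · rw [Function.update_of_ne hi]; exact h.int i
      · by_cases hi : i = i₀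
        · subst hi
          rw [Function.update_self, Function.update_self]
          exact hd.mono (by omega)
        · rw [Function.update_of_ne hi, Function.update_of_ne hi]; exact h.deg i
      · rw [hdet]; exact hne
    have h2 := h.min _ _ hT
    have h3 : ∑ i, Function.update k i₀ (k i₀ - 1) i < ∑ i, k i := by
      apply Finset.sum_lt_sum
      · intro i _
        by_cases hi : i = i₀
        · subst hi; rw [Function.update_self]; omega
        · rw [Function.update_of_ne hi]
      · exact ⟨i₀, Finset.mem_univ _, by rw [Function.update_self]; omega⟩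
    omega

/-- The leading matrix of a minimal tuple is invertible. -/
theorem MinTup.lead (h : MinTup D b k) :
    (Matrix.of fun i j => (D.inf.hom i (b j)).coeff (-(k j : ℤ))).det ≠ 0 := by
  classical
  intro h0
  obtain ⟨c, hc, hc2⟩ := Matrix.exists_mulVec_eq_zero_iff.mpr h0
  have hex : (Finset.univ.filter fun j => c j ≠ 0).Nonempty := by
    by_contra hcon
    rw [Finset.not_nonempty_iff_eq_empty, Finset.filter_eq_empty_iff] at hcon
    apply hc
    ext j
    simpa using hcon (Finset.mem_univ j)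
  obtain ⟨i₀, hi₀, hmax⟩ := Finset.exists_max_image _ k hex
  rw [Finset.mem_filter] at hi₀
  let q : Fin m.natDegree → ℂ[X] := fun j => C (c j) * X ^ (k i₀ - k j)
  have hsum : ∀ i t, (D.inf.hom i (∑ j, algebraMap (RatFunc ℂ) (Lf m)
      (algebraMap ℂ[X] (RatFunc ℂ) (q j)) * b j)).coeff t =
      ∑ j, c j * (D.inf.hom i (b j)).coeff (t + (k i₀ - k j : ℕ)) := by
    intro i t
    rw [map_sum, HahnSeries.coeff_sum]
    refine Finset.sum_congr rfl fun j _ => ?_
    have h1 : algebraMap (RatFunc ℂ) (Lf m) (algebraMap ℂ[X] (RatFunc ℂ) (q j)) = emb m (q j) := rfl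
    rw [h1, map_mul, inf_emb, map_mul, aeval_C, map_pow, aeval_X, algebraMap_Lau, mul_assoc,
      HahnSeries.C_apply, HahnSeries.coeff_single_zero_mul, coeff_zinf_pow_mul]
  refine h.red i₀ (fun j => algebraMap ℂ[X] (RatFunc ℂ) (q j)) ?_ ?_ ?_
  · rw [Ne, map_eq_zero_iff _ (IsFractionRing.injective ℂ[X] (RatFunc ℂ))]
    simp only [q, Nat.sub_self, pow_zero, mul_one, C_eq_zero]
    exact hi₀.2
  · refine Subring.sum_mem _ fun j _ => Subring.mul_mem _ ?_ (h.int j)
    exact emb_mem_Oset D (q j)
  · intro i t ht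
    rw [hsum]
    rcases lt_or_eq_of_le (show t ≤ -(k i₀ : ℤ) by omega) with h2 | h2
    · refine Finset.sum_eq_zero fun j _ => ?_
      by_cases hcj : c j = 0
      · rw [hcj, zero_mul]
      · have := hmax j (Finset.mem_filter.mpr ⟨Finset.mem_univ _, hcj⟩)
        rw [h.deg j i _ (by push_cast [this]; omega), mul_zero]
    · have h3 := congrFun hc2 i
      rw [Matrix.mulVec, dotProduct, Pi.zero_apply] at h3
      rw [← h3]
      refine Finset.sum_congr rfl fun j _ => ?_
      by_cases hcj : c j = 0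
      · rw [hcj]; ring
      · have := hmax j (Finset.mem_filter.mpr ⟨Finset.mem_univ _, hcj⟩)
        rw [Matrix.of_apply, mul_comm]
        congr 2
        rw [h2]
        push_cast [this]
        ring

/-- No combination of a minimal tuple is divisible by `x - e`. -/
theorem MinTup.nondiv (h : MinTup D b k) (e : ℂ) (c : Fin m.natDegree → ℂ) (hc : c ≠ 0)
    (hO : ∑ j, algebraMap (RatFunc ℂ) (Lf m) ((algebraMap ℂ[X] (RatFunc ℂ) (X - C e))⁻¹ *
      algebraMap ℂ[X] (RatFunc ℂ) (C (c j))) * b j ∈ Oset D) : False := by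
  classical
  have hex : (Finset.univ.filter fun j => c j ≠ 0).Nonempty := by
    by_contra hcon
    rw [Finset.not_nonempty_iff_eq_empty, Finset.filter_eq_empty_iff] at hcon
    apply hc
    ext j
    simpa using hcon (Finset.mem_univ j)
  obtain ⟨i₀, hi₀, hmax⟩ := Finset.exists_max_image _ k hex
  rw [Finset.mem_filter] at hi₀
  have hxe : algebraMap ℂ[X] (RatFunc ℂ) (X - C e) ≠ 0 := by
    rw [Ne, map_eq_zero_iff _ (IsFractionRing.injective ℂ[X] (RatFunc ℂ))]
    exact X_sub_C_ne_zero e
  refine h.red i₀ (fun j => (algebraMap ℂ[X] (RatFunc ℂ) (X - C e))⁻¹ *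
      algebraMap ℂ[X] (RatFunc ℂ) (C (c j))) ?_ hO ?_
  · refine mul_ne_zero (inv_ne_zero hxe) ?_
    rw [Ne, map_eq_zero_iff _ (IsFractionRing.injective ℂ[X] (RatFunc ℂ)), C_eq_zero]
    exact hi₀.2
  · set f := ∑ j, algebraMap (RatFunc ℂ) (Lf m) ((algebraMap ℂ[X] (RatFunc ℂ) (X - C e))⁻¹ *
      algebraMap ℂ[X] (RatFunc ℂ) (C (c j))) * b j with hf
    set g := ∑ j, emb m (C (c j)) * b j with hg
    have hfg : emb m (X - C e) * f = g := by
      rw [hf, hg, Finset.mul_sum]
      refine Finset.sum_congr rfl fun j _ => ?_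
      rw [emb, RingHom.comp_apply, RingHom.comp_apply, map_mul, ← mul_assoc, ← mul_assoc,
        ← map_mul, mul_inv_cancel₀ hxe, map_one, one_mul]
    have hgd : ∀ i, ∀ t < -(k i₀ : ℤ), (D.inf.hom i g).coeff t = 0 := by
      intro i t ht
      rw [hg, map_sum, HahnSeries.coeff_sum]
      refine Finset.sum_eq_zero fun j _ => ?_
      rw [map_mul, inf_emb, aeval_C, algebraMap_Lau, HahnSeries.C_apply,
        HahnSeries.coeff_single_zero_mul]
      by_cases hcj : c j = 0
      · rw [hcj, zero_mul]
      · have := hmax j (Finset.mem_filter.mpr ⟨Finset.mem_univ _, hcj⟩)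
        rw [h.deg j i t (by omega), mul_zero]
    intro i t ht
    set F := D.inf.hom i f with hF
    have hFg : ∀ t, (D.inf.hom i g).coeff t = F.coeff (t + 1) - e * F.coeff t := by
      intro t
      rw [← hfg, map_mul, inf_emb, map_sub, aeval_X, aeval_C, algebraMap_Lau, sub_mul,
        HahnSeries.coeff_sub, HahnSeries.C_apply, HahnSeries.coeff_single_zero_mul, ← hF]
      congr 1
      have := coeff_zinf_pow_mul 1 F t
      rw [pow_one] at this
      rw [this]
      norm_cast
    by_contra hne
    have hF0 : F ≠ 0 := by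
      intro h1
      rw [h1, HahnSeries.coeff_zero] at hne
      exact hne rfl
    have hord : F.order ≤ t := HahnSeries.order_le_of_coeff_ne_zero hne
    have h1 := hFg (F.order - 1)
    rw [hgd i _ (by omega), sub_add_cancel,
      HahnSeries.coeff_eq_zero_of_lt_order (show F.order - 1 < F.order by omega), mul_zero,
      sub_zero] at h1
    exact hF0 (HahnSeries.coeff_order_eq_zero.mp h1.symm)

end Pool.Agent.LAT.RH
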