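import Pool.Agent.Lib.MP_ae5b4e_an_LAT.AlgInv

/-!
# Elementary facts on the chains in `ℂ⟦y⟧⟦w⟧`
-/

namespace Pool.Agent.LAT

open PowerSeries

/-- Uniqueness of `N`-th roots with constant term one. -/
theorem root_unique {K : Type*} [Field K] [CharZero K] {N : ℕ} (hN : N ≠ 0) {s t : PowerSeries K}
    (hs : constantCoeff s = 1) (ht : constantCoeff t = 1) (h : s ^ N = t ^ N) : s = t := by
  have h1 := (Commute.all s t).geom_sum₂_mul N
  rw [h, sub_self] at h1
  rcases mul_eq_zero.mp h1 with h2 | h2
  · exfalso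
    have h3 := congrArg constantCoeff h2
    rw [map_sum] at h3
    simp only [map_mul, map_pow, hs, ht, one_pow, mul_one, Finset.sum_const, Finset.card_range,
      nsmul_eq_mul, map_zero, Nat.cast_eq_zero] at h3
    exact hN h3
  · exact sub_eq_zero.mp h2

theorem charZero_ps : CharZero (PowerSeries ℂ) :=
  charZero_of_injective_algebraMap (R := ℂ) (algebraMap ℂ (PowerSeries ℂ)).injective

/-- Reduction modulo `y`. -/
noncomputable def red : W →+* PowerSeries ℂ := PowerSeries.map constantCoeff

theorem coeff_red (u : W) (n : ℕ) : coeff n (red u) = constantCoeff (coeff n u) := by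
  rw [red, PowerSeries.coeff_map]

theorem red_CX : red (C (X : PowerSeries ℂ)) = 0 := by
  rw [red, PowerSeries.map_C]
  simp

theorem cc_of_red {u : W} (h : red u = 1) : constantCoeff (coeff 0 u) = 1 := by
  rw [← coeff_red, h]; simp

theorem coeff_zero_ne_of_red {u : W} (h : red u = 1) : coeff 0 u ≠ 0 := by
  intro h0
  have := cc_of_red h
  rw [h0, map_zero] at this
  exact zero_ne_one this

theorem ne_zero_of_red {u : W} (h : red u = 1) : u ≠ 0 := by
  rintro rfl
  rw [map_zero] at h
  exact zero_ne_one h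

theorem isUnit_of_red {u : W} (h : red u = 1) : IsUnit u := by
  rw [PowerSeries.isUnit_iff_constantCoeff, PowerSeries.isUnit_iff_constantCoeff]
  have := cc_of_red h
  rw [PowerSeries.coeff_zero_eq_constantCoeff_apply] at this
  rw [this]
  exact isUnit_one

theorem CX_ne_zero : (C (X : PowerSeries ℂ) : W) ≠ 0 := by
  intro h
  have := congrArg (coeff 0) h
  simp at this

namespace ThChain

variable {N c M : ℕ} {k : ℕ → PowerSeries ℂ} {th v : ℕ → W}

theorem red_th (h : ThChain N c k M th v) {i : ℕ} (hi : i ≤ M) : red (th i) = 1 := by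
  ext n
  rw [coeff_red, h.unit i hi n, PowerSeries.coeff_one]

theorem red_v (h : ThChain N c k M th v) {i : ℕ} (hi : i ≤ M + 1) : red (v i) = 0 := by
  induction i with
  | zero => rw [h.v0, red_CX]
  | succ i ih =>
    have h1 := congrArg red (h.stepv i (by omega))
    simp only [map_mul, map_add, map_pow, h.red_th (show i ≤ M by omega), ih (by omega), one_pow,
      zero_mul, add_zero, mul_one] at h1
    exact h1

theorem red_den (h : ThChain N c k M th v) {i : ℕ} (hi : i ≤ M) :
    red (th i ^ c + v i * kev (k i) (th i)) = 1 := by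
  simp only [map_mul, map_add, map_pow, h.red_th hi, h.red_v (show i ≤ M + 1 by omega), one_pow,
      zero_mul, add_zero]

theorem th_ne (h : ThChain N c k M th v) {i : ℕ} (hi : i ≤ M) : th i ≠ 0 :=
  ne_zero_of_red (h.red_th hi)

theorem v_ne (h : ThChain N c k M th v) {i : ℕ} (hi : i ≤ M + 1) : v i ≠ 0 := by
  induction i with
  | zero => rw [h.v0]; exact CX_ne_zero
  | succ i ih =>
    have h1 := h.stepv i (by omega)
    intro h0
    rw [h0, zero_mul] at h1
    exact mul_ne_zero (ih (by omega)) (pow_ne_zero _ (h.th_ne (by omega))) h1.symm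

/-- Invariance of the chain. -/
theorem inv (h : ThChain N c k M th v) (hN : N ≠ 0) {z : ℂ} (hz : z ^ (c - N) = 1) {n : ℕ}
    (hk : ∀ i ≤ M, Inv z n (k i)) {i : ℕ} (hi : i ≤ M) :
    Inv z n (th i) ∧ Inv z n (v i) ∧ Inv z n (v (i + 1)) := by
  have := charZero_ps
  have key : ∀ i ≤ M, Inv z n (th i) → Inv z n (v i) → Inv z n (v (i + 1)) := by
    intro i hi h1 h2
    have h3 := h.stepv i hi
    have h4 : Inv z n (th i ^ c + v i * kev (k i) (th i)) :=
      (h1.pow c).add (h2.mul ((hk i hi).kev h1))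
    refine Inv.cancel (v := th i ^ c + v i * kev (k i) (th i)) ?_ h4 ?_
    · rw [h3]
      exact h2.mul (h1.pow c)
    · exact coeff_zero_ne_of_red (h.red_den hi)
  induction i with
  | zero =>
    have h1 : Inv z n (th 0) := by rw [h.th0]; exact Inv.one
    have h2 : Inv z n (v 0) := by rw [h.v0]; exact Inv.C _
    exact ⟨h1, h2, key 0 hi h1 h2⟩
  | succ i ih =>
    obtain ⟨h1, h2, h3⟩ := ih (by omega)
    have h4 : Inv z n (th (i + 1)) := by
      refine Inv.root hN ?_ (coeff_zero_ne_of_red (h.red_th hi))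
      rw [h.stepth i (by omega)]
      exact (h1.pow N).add ((Inv.X_pow hz).mul h3)
    exact ⟨h4, h3, key (i + 1) hi h4 h3⟩

/-! ### The case `c = N` -/

/-- The auxiliary factors for `c = N`. -/
noncomputable def g (k : ℕ → PowerSeries ℂ) (th : ℕ → W) (i : ℕ) : W :=
  1 + C X * ((i : W) + ∑ j ∈ Finset.range (i + 1), kev (k j) (th j))

theorem g_zero : g k th 0 = 1 + C X * kev (k 0) (th 0) := by
  simp [g]

theorem g_succ (i : ℕ) : g k th (i + 1) = g k th i + C X + C X * kev (k (i + 1)) (th (i + 1)) := by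
  rw [g, g, Finset.sum_range_succ _ (i + 1)]
  push_cast
  ring

theorem g_mul_v (h : ThChain N N k M th v) {i : ℕ} (hi : i ≤ M) :
    C X * th i ^ N = g k th i * v (i + 1) := by
  induction i with
  | zero =>
    have h1 := h.stepv 0 (by omega)
    rw [h.v0, h.th0, one_pow] at h1
    rw [g_zero, h.th0, one_pow, mul_one]
    rw [mul_one] at h1
    have h2 : (1 + C X * kev (k 0) 1) * v (0 + 1) = v (0 + 1) * (1 + C X * kev (k 0) 1) := by ring
    rw [h2, h1]
  | succ i ih =>
    have h0 := ih (by omega)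
    have h1 := h.stepth i (by omega)
    rw [Nat.sub_self, pow_zero, one_mul] at h1
    have h2 := h.stepv (i + 1) hi
    have h3 : C X * th (i + 1) ^ N = (g k th i + C X) * v (i + 1) := by
      rw [h1, mul_add, h0]; ring
    have hne : th (i + 1) ^ N ≠ 0 := pow_ne_zero _ (h.th_ne hi)
    apply mul_right_cancel₀ hne
    rw [g_succ]
    have h4 : (g k th i + C X) * (v (i + 1 + 1) * (th (i + 1) ^ N +
        v (i + 1) * kev (k (i + 1)) (th (i + 1)))) = (g k th i + C X) * (v (i + 1) *
          th (i + 1) ^ N) := by rw [h2]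
    have h5 : (g k th i + C X) * (v (i + 1) * th (i + 1) ^ N) =
        C X * th (i + 1) ^ N * th (i + 1) ^ N := by
      rw [h3]; ring
    rw [← h5, ← h4]
    have h6 : (g k th i + C X) * (v (i + 1 + 1) * (th (i + 1) ^ N +
        v (i + 1) * kev (k (i + 1)) (th (i + 1)))) = v (i + 1 + 1) * ((g k th i + C X) *
          th (i + 1) ^ N + ((g k th i + C X) * v (i + 1)) * kev (k (i + 1)) (th (i + 1))) := by
      ring
    rw [h6, ← h3]
    ring

theorem g_step (h : ThChain N N k M th v) {i : ℕ} (hi : i < M) :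
    th (i + 1) ^ N * g k th i = (g k th i + C X) * th i ^ N := by
  have h0 := h.g_mul_v (show i ≤ M by omega)
  have h1 := h.stepth i (by omega)
  rw [Nat.sub_self, pow_zero, one_mul] at h1
  rw [h1, add_mul, mul_comm (v (i + 1)), ← h0]
  ring

/-- The exponents. -/
noncomputable def expo (k : ℕ → PowerSeries ℂ) (i : ℕ) : ℂ :=
  i + ∑ j ∈ Finset.range (i + 1), coeff 0 (k j)

theorem coeff_zero_g (i : ℕ) : coeff 0 (g k th i) = 1 + C (expo k i) * X := by
  rw [g]
  simp only [PowerSeries.coeff_zero_eq_constantCoeff_apply, map_add, map_one, map_mul,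
    PowerSeries.constantCoeff_C, map_sum, map_natCast]
  have : ∀ j, constantCoeff (kev (k j) (th j)) = C (coeff 0 (k j)) := by
    intro j
    rw [← coeff_zero_kev (k j) (th j), PowerSeries.coeff_zero_eq_constantCoeff_apply]
  simp only [this, expo, map_add, map_sum, map_natCast]
  ring

theorem coeff_zero_th_step (h : ThChain N N k M th v) {i : ℕ} (hi : i < M) :
    coeff 0 (th (i + 1)) ^ N * (1 + C (expo k i) * X) =
      (1 + C (expo k i + 1) * X) * coeff 0 (th i) ^ N := by
  have h1 := congrArg (coeff 0) (h.g_step hi)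
  simp only [PowerSeries.coeff_zero_eq_constantCoeff_apply, map_mul, map_pow, map_add,
    PowerSeries.constantCoeff_C] at h1
  have h2 := coeff_zero_g (k := k) (th := th) i
  rw [PowerSeries.coeff_zero_eq_constantCoeff_apply] at h2
  rw [h2] at h1
  simp only [PowerSeries.coeff_zero_eq_constantCoeff_apply]
  rw [h1, map_add, map_one]
  ring

theorem prod_formula (h : ThChain N N k M th v) {i : ℕ} (hi : i ≤ M) :
    coeff 0 (th i) ^ N * ∏ j ∈ Finset.range i, (1 + C (expo k j) * X) =
      ∏ j ∈ Finset.range i, (1 + C (expo k j + 1) * X) := by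
  induction i with
  | zero =>
    rw [h.th0]; simp
  | succ i ih =>
    rw [Finset.prod_range_succ, Finset.prod_range_succ, ← ih (by omega)]
    have := h.coeff_zero_th_step (show i < M by omega)
    calc coeff 0 (th (i + 1)) ^ N * ((∏ x ∈ Finset.range i, (1 + C (expo k x) * X)) *
          (1 + C (expo k i) * X))
        = (coeff 0 (th (i + 1)) ^ N * (1 + C (expo k i) * X)) *
          ∏ x ∈ Finset.range i, (1 + C (expo k x) * X) := by ring
      _ = _ := by rw [this]; ring

/-- Equal ends, `c = N`: the exact identity. -/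
theorem sum_kev_eq {k' : ℕ → PowerSeries ℂ} {th' v' : ℕ → W}
    (h : ThChain N N k M th v) (h' : ThChain N N k' M th' v') (e1 : th M = th' M)
    (e2 : v (M + 1) = v' (M + 1)) :
    ∑ j ∈ Finset.range (M + 1), kev (k j) (th j) =
      ∑ j ∈ Finset.range (M + 1), kev (k' j) (th' j) := by
  have h1 := h.g_mul_v le_rfl
  have h2 := h'.g_mul_v le_rfl
  rw [e1, h2, e2] at h1
  have h3 := mul_right_cancel₀ (h'.v_ne le_rfl) h1
  rw [g, g, add_right_inj] at h3
  have h4 := mul_left_cancel₀ CX_ne_zero h3
  exact (add_left_cancel h4).symm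

/-! ### The case `N < c` -/

/-- `kev (k j) (th j) / th j ^ c`. -/
noncomputable def eps (c : ℕ) (k : ℕ → PowerSeries ℂ) (th : ℕ → W) (j : ℕ) : W :=
  kev (k j) (th j) * Ring.inverse (th j ^ c)

theorem eps_mul (h : ThChain N c k M th v) {j : ℕ} (hj : j ≤ M) :
    eps c k th j * th j ^ c = kev (k j) (th j) := by
  rw [eps, mul_assoc, Ring.inverse_mul_cancel _ ((isUnit_of_red (h.red_th hj)).pow c), mul_one]

/-- The auxiliary factors for `N < c`. -/
noncomputable def G (c : ℕ) (k : ℕ → PowerSeries ℂ) (th : ℕ → W) (i : ℕ) : W :=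
  1 + C X * ∑ j ∈ Finset.range (i + 1), eps c k th j

theorem G_mul_v (h : ThChain N c k M th v) {i : ℕ} (hi : i ≤ M) :
    G c k th i * v (i + 1) = C X := by
  induction i with
  | zero =>
    have h1 := h.stepv 0 (by omega)
    rw [h.v0, ← h.eps_mul (show 0 ≤ M by omega), h.th0, one_pow, mul_one, mul_one] at h1
    rw [G, Finset.sum_range_one]
    have h2 : (1 + C X * eps c k th 0) * v (0 + 1) = v (0 + 1) * (1 + C X * eps c k th 0) := by
      ring
    rw [h2, h1]
  | succ i ih =>
    have h0 := ih (by omega)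
    have h2 := h.stepv (i + 1) hi
    rw [← h.eps_mul hi] at h2
    have hne : th (i + 1) ^ c ≠ 0 := pow_ne_zero _ (h.th_ne hi)
    have h3 : v (i + 1 + 1) * (1 + v (i + 1) * eps c k th (i + 1)) = v (i + 1) := by
      apply mul_right_cancel₀ hne
      rw [← h2]; ring
    have h4 : G c k th (i + 1) = G c k th i + C X * eps c k th (i + 1) := by
      rw [G, G, Finset.sum_range_succ _ (i + 1)]; ring
    have h5 : G c k th i * (v (i + 1 + 1) * (1 + v (i + 1) * eps c k th (i + 1))) = C X := by
      rw [h3, h0]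
    rw [h4]
    calc (G c k th i + C X * eps c k th (i + 1)) * v (i + 1 + 1)
        = v (i + 1 + 1) * (G c k th i + C X * eps c k th (i + 1)) := by ring
      _ = v (i + 1 + 1) * (G c k th i + (G c k th i * v (i + 1)) * eps c k th (i + 1)) := by
          rw [h0]
      _ = G c k th i * (v (i + 1 + 1) * (1 + v (i + 1) * eps c k th (i + 1))) := by ring
      _ = C X := h5

/-- Equal ends, `N < c`: the first exact identity. -/
theorem sum_eps_eq {k' : ℕ → PowerSeries ℂ} {th' v' : ℕ → W}
    (h : ThChain N c k M th v) (h' : ThChain N c k' M th' v')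
    (e2 : v (M + 1) = v' (M + 1)) :
    ∑ j ∈ Finset.range (M + 1), eps c k th j = ∑ j ∈ Finset.range (M + 1), eps c k' th' j := by
  have h1 := h.G_mul_v le_rfl
  have h2 := h'.G_mul_v le_rfl
  rw [e2, ← h2] at h1
  have h3 := mul_right_cancel₀ (h'.v_ne le_rfl) h1
  rw [G, G, add_right_inj] at h3
  exact mul_left_cancel₀ CX_ne_zero h3

theorem th_pow_eq (h : ThChain N c k M th v) {i : ℕ} (hi : i ≤ M) :
    th i ^ N = 1 + X ^ (c - N) * ∑ j ∈ Finset.range i, v (j + 1) := by
  induction i with
  | zero => rw [h.th0]; simp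
  | succ i ih =>
    rw [h.stepth i (by omega), ih (by omega), Finset.sum_range_succ]
    ring

/-- Equal ends, `N < c`: the second exact identity. -/
theorem sum_v_eq {k' : ℕ → PowerSeries ℂ} {th' v' : ℕ → W}
    (h : ThChain N c k M th v) (h' : ThChain N c k' M th' v')
    (e1 : th M = th' M) :
    ∑ j ∈ Finset.range M, v (j + 1) = ∑ j ∈ Finset.range M, v' (j + 1) := by
  have h1 := h.th_pow_eq le_rfl
  have h2 := h'.th_pow_eq le_rfl
  rw [e1, h2, add_right_inj] at h1
  exact (mul_left_cancel₀ (pow_ne_zero _ PowerSeries.X_ne_zero) h1).symm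

theorem coeff_zero_th (h : ThChain N c k M th v) (hN : N ≠ 0) (hc : N < c) {i : ℕ} (hi : i ≤ M) :
    coeff 0 (th i) = 1 := by
  apply root_unique hN
  · exact cc_of_red (h.red_th hi)
  · simp
  · have h1 := congrArg (coeff 0) (h.th_pow_eq hi)
    simp only [PowerSeries.coeff_zero_eq_constantCoeff_apply, map_pow, map_add, map_mul,
      PowerSeries.constantCoeff_X, map_one] at h1
    rw [zero_pow (by omega), zero_mul, add_zero] at h1
    rw [PowerSeries.coeff_zero_eq_constantCoeff_apply, h1, one_pow]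

end ThChain

end Pool.Agent.LAT
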