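import Pool.Agent.Lib.MP_ae5b4e_an_LAT.AlgRad

/-!
# Two factorizations with equal ends: no ramification

Main theorem `alg_core`.
-/

namespace Pool.Agent.LAT

open PowerSeries

/-! ### Independence -/

/-- The radicals of different finite sets are linearly independent over `ℂ`. -/
theorem rad_indep {N n : ℕ} (hN : N ≠ 0) (hnN : ¬ N ∣ n) (F : Finset (Finset ℂ))
    (c : Finset ℂ → ℂ) (h : ∑ S ∈ F, C (c S) * rad N S ^ n = 0) : ∀ S ∈ F, c S = 0 := by
  classical
  let Q : Finset ℂ → Polynomial ℂ := fun A =>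
    Polynomial.C (N : ℂ) * ((∏ a ∈ A, lin a) * ∏ a ∈ A, lin (a + 1))
  let L : Finset ℂ → Polynomial ℂ := fun A =>
    Polynomial.C (n : ℂ) * (Polynomial.derivative (∏ a ∈ A, lin (a + 1)) * (∏ a ∈ A, lin a) -
      (∏ a ∈ A, lin (a + 1)) * Polynomial.derivative (∏ a ∈ A, lin a))
  have hQ : ∀ A, Q A ≠ 0 := fun A => mul_ne_zero
    (by simpa using hN) (mul_ne_zero (prod_lin_ne_zero A (fun a => a)) (prod_lin_ne_zero _ _))
  have key := indep_poly F (fun S => rad N S ^ n) (fun S _ => pow_ne_zero _ (rad_ne_zero N S))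
    (∏ S ∈ F, Q S) (Finset.prod_ne_zero_iff.mpr fun S _ => hQ S)
    (fun S => L S * ∏ T ∈ F.erase S, Q T) (by
      intro S hS
      rw [← Finset.mul_prod_erase F Q hS]
      have := rad_deriv hN n S
      simp only [Polynomial.coe_mul]
      simp only [Polynomial.coe_mul] at this
      simp only [Q, L, Polynomial.coe_mul]
      linear_combination ((∏ T ∈ F.erase S, Q T : Polynomial ℂ) : PowerSeries ℂ) * this) (by
      intro S _ T _ hST p q hp hq
      have hpow : ∀ A : Finset ℂ, (rad N A ^ n) ^ N *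
          ((∏ a ∈ A, lin a : Polynomial ℂ) : PowerSeries ℂ) ^ n =
          ((∏ a ∈ A, lin (a + 1) : Polynomial ℂ) : PowerSeries ℂ) ^ n := by
        intro A
        rw [coe_prod_lin A (fun a => a + 1), coe_prod_lin A (fun a => a), ← pow_mul, mul_comm n N,
          pow_mul, ← mul_pow, rad_pow hN A]
      exact rad_ratio hnN hST (hpow S) (hpow T) p q hp hq)
    (fun S => Polynomial.C (c S)) (by simpa only [Polynomial.coe_C] using h)
  intro S hS
  simpa using key S hS

/-- A nonconstant series is transcendental. -/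
theorem transc {U : PowerSeries ℂ} (hU : ∀ t : ℂ, U ≠ C t) {p : Polynomial ℂ} (hp : p ≠ 0) :
    Polynomial.aeval U p ≠ 0 := by
  intro h
  have hs := IsAlgClosed.splits p
  rw [hs.eq_prod_roots] at h
  rw [map_mul, Polynomial.aeval_C, mul_eq_zero] at h
  rcases h with h | h
  · have : p.leadingCoeff = 0 := by
      have h2 : (algebraMap ℂ (PowerSeries ℂ)) p.leadingCoeff = 0 := h
      rwa [map_eq_zero_iff _ (algebraMap ℂ (PowerSeries ℂ)).injective] at h2
    exact hp (Polynomial.leadingCoeff_eq_zero.mp this)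
  · rw [map_multiset_prod, Multiset.prod_eq_zero_iff, Multiset.mem_map] at h
    obtain ⟨q, hq, hq2⟩ := h
    rw [Multiset.mem_map] at hq
    obtain ⟨t, _, rfl⟩ := hq
    rw [map_sub, Polynomial.aeval_X, Polynomial.aeval_C, sub_eq_zero] at hq2
    exact hU t hq2

/-! ### Power sums and multiplicities -/

theorem pow_sum_zero (s : Finset ℂ) (μ : ℂ → ℂ) (h : ∀ n : ℕ, ∑ x ∈ s, μ x * x ^ n = 0) :
    ∀ x ∈ s, μ x = 0 := by
  classical
  have h1 : ∀ p : Polynomial ℂ, ∑ x ∈ s, μ x * p.eval x = 0 := by
    intro p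
    induction p using Polynomial.induction_on' with
    | add p q hp hq =>
      simp only [Polynomial.eval_add, mul_add, Finset.sum_add_distrib, hp, hq, add_zero]
    | monomial n a =>
      have := h n
      simp only [Polynomial.eval_monomial]
      calc ∑ x ∈ s, μ x * (a * x ^ n) = a * ∑ x ∈ s, μ x * x ^ n := by
            rw [Finset.mul_sum]; exact Finset.sum_congr rfl fun x _ => by ring
        _ = 0 := by rw [this, mul_zero]
  intro x hx
  have h2 := h1 (∏ y ∈ s.erase x, (Polynomial.X - Polynomial.C y))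
  rw [Finset.sum_eq_single x] at h2
  · rcases mul_eq_zero.mp h2 with h3 | h3
    · exact h3
    · exfalso
      rw [Polynomial.eval_prod, Finset.prod_eq_zero_iff] at h3
      obtain ⟨y, hy, hy2⟩ := h3
      rw [Finset.mem_erase] at hy
      simp only [Polynomial.eval_sub, Polynomial.eval_X, Polynomial.eval_C, sub_eq_zero] at hy2
      exact hy.1 hy2.symm
  · intro y hy hyx
    have : Polynomial.eval y (∏ y ∈ s.erase x, (Polynomial.X - Polynomial.C y)) = 0 := by
      rw [Polynomial.eval_prod, Finset.prod_eq_zero_iff]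
      exact ⟨y, Finset.mem_erase.mpr ⟨hyx, hy⟩, by simp⟩
    rw [this, mul_zero]
  · intro h3; exact absurd hx h3

theorem fiber_sum (M : ℕ) (D D' α β : ℕ → ℂ)
    (h : ∀ n : ℕ, ∑ j ∈ Finset.range M, α j * D j ^ n = ∑ j ∈ Finset.range M, β j * D' j ^ n)
    (x : ℂ) : ∑ j ∈ Finset.range M, (if D j = x then α j else 0) =
      ∑ j ∈ Finset.range M, (if D' j = x then β j else 0) := by
  classical
  let s : Finset ℂ := insert x ((Finset.range M).image D ∪ (Finset.range M).image D')
  have gen : ∀ (E : ℕ → ℂ) (γ : ℕ → ℂ), (∀ j ∈ Finset.range M, E j ∈ s) → ∀ n : ℕ,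
      ∑ y ∈ s, (∑ j ∈ Finset.range M, (if E j = y then γ j else 0)) * y ^ n =
        ∑ j ∈ Finset.range M, γ j * E j ^ n := by
    intro E γ hE n
    simp only [Finset.sum_mul]
    rw [Finset.sum_comm]
    refine Finset.sum_congr rfl fun j hj => ?_
    rw [Finset.sum_eq_single (E j)]
    · simp
    · intro y _ hy
      rw [if_neg (Ne.symm hy), zero_mul]
    · intro h2; exact absurd (hE j hj) h2
  have h1 := pow_sum_zero s (fun y => ∑ j ∈ Finset.range M, (if D j = y then α j else 0) -
      ∑ j ∈ Finset.range M, (if D' j = y then β j else 0)) (by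
        intro n
        simp only [sub_mul, Finset.sum_sub_distrib]
        rw [gen D α _ n, gen D' β _ n, h n, sub_self]
        · intro j hj
          exact Finset.mem_insert_of_mem (Finset.mem_union_right _ (Finset.mem_image_of_mem _ hj))
        · intro j hj
          exact Finset.mem_insert_of_mem (Finset.mem_union_left _ (Finset.mem_image_of_mem _ hj)))
    x (Finset.mem_insert_self _ _)
  exact sub_eq_zero.mp h1

/-- The multiset of exponents is determined by the product formula. -/
theorem count_eq (M : ℕ) (a b : ℕ → ℂ) (Y : PowerSeries ℂ)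
    (ha : Y * ∏ j ∈ Finset.range M, (1 + C (a j) * X) =
      ∏ j ∈ Finset.range M, (1 + C (a j + 1) * X))
    (hb : Y * ∏ j ∈ Finset.range M, (1 + C (b j) * X) =
      ∏ j ∈ Finset.range M, (1 + C (b j + 1) * X)) (x : ℂ) :
    ∑ j ∈ Finset.range M, (if a j = x then (1 : ℕ) else 0) =
      ∑ j ∈ Finset.range M, (if b j = x then (1 : ℕ) else 0) := by
  classical
  set φ : ℂ → ℤ := fun x => ((∑ j ∈ Finset.range M, (if a j = x then (1 : ℕ) else 0) : ℕ) : ℤ) -
    ((∑ j ∈ Finset.range M, (if b j = x then (1 : ℕ) else 0) : ℕ) : ℤ) with hφ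
  have h1 : (∏ j ∈ Finset.range M, lin (a j + 1)) * (∏ j ∈ Finset.range M, lin (b j)) =
      (∏ j ∈ Finset.range M, lin (b j + 1)) * (∏ j ∈ Finset.range M, lin (a j)) := by
    rw [← Polynomial.coe_inj]
    simp only [Polynomial.coe_mul]
    rw [coe_prod_lin _ (fun j => a j + 1), coe_prod_lin _ (fun j => b j + 1),
      coe_prod_lin _ (fun j => a j), coe_prod_lin _ (fun j => b j), ← ha, ← hb]
    ring
  have H : ∀ x : ℂ, x ≠ 0 → (0 : ℤ) ∣ 1 * (φ (x - 1) - φ x) := by
    intro x hx
    have h2 := congrArg (fun r : Polynomial ℂ => (r.roots.count (-x⁻¹) : ℤ)) h1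
    rw [Polynomial.roots_mul (mul_ne_zero (prod_lin_ne_zero _ _) (prod_lin_ne_zero _ _)),
      Polynomial.roots_mul (mul_ne_zero (prod_lin_ne_zero _ _) (prod_lin_ne_zero _ _))] at h2
    simp only [Multiset.count_add] at h2
    rw [count_prod_lin hx, count_prod_lin hx, count_prod_lin hx, count_prod_lin hx] at h2
    have e : ∀ c : ℕ → ℂ, ∑ j ∈ Finset.range M, (if c j + 1 = x then (1 : ℕ) else 0) =
        ∑ j ∈ Finset.range M, (if c j = x - 1 then (1 : ℕ) else 0) := by
      intro c
      refine Finset.sum_congr rfl fun j _ => ?_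
      by_cases hj : c j = x - 1
      · rw [if_pos hj, if_pos (by rw [hj]; ring)]
      · rw [if_neg hj, if_neg (fun h => hj (by rw [← h]; ring))]
    rw [e a, e b] at h2
    rw [zero_dvd_iff, one_mul, hφ]
    push_cast at h2 ⊢
    linear_combination h2
  have h3 := periodic_zero φ ((Finset.range M).image a ∪ (Finset.range M).image b) (by
    intro y hy
    rw [Finset.mem_union, not_or] at hy
    simp only [hφ]
    rw [Finset.sum_eq_zero, Finset.sum_eq_zero]
    · simp
    · intro j hj
      rw [if_neg]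
      rintro rfl
      exact hy.2 (Finset.mem_image_of_mem _ hj)
    · intro j hj
      rw [if_neg]
      rintro rfl
      exact hy.1 (Finset.mem_image_of_mem _ hj)) 0 1 H x
  rw [zero_dvd_iff, one_mul] at h3
  have h4 := sub_eq_zero.mp h3
  exact_mod_cast h4

end Pool.Agent.LAT
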