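import Pool.Agent.Lib.MP_ae5b4e_an_LAT.AlgChain

/-!
# Independence of the radicals `∏ ((1 + (a + 1) y) / (1 + a y)) ^ (n / N)`
-/

namespace Pool.Agent.LAT

open PowerSeries

/-- The derivation `X * d/dX` multiplies the coefficient of index `n` by `n`. -/
theorem coeff_X_mul_deriv (u : PowerSeries ℂ) (n : ℕ) :
    coeff n (X * derivative ℂ u) = n * coeff n u := by
  cases n with
  | zero => simp
  | succ n =>
    rw [coeff_succ_X_mul, PowerSeries.coeff_derivative]
    push_cast
    ring

theorem exists_first {u : PowerSeries ℂ} (hu : u ≠ 0) :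
    ∃ a, coeff a u ≠ 0 ∧ ∀ b < a, coeff b u = 0 := by
  classical
  have h : ∃ a, coeff a u ≠ 0 := by
    by_contra h
    push Not at h
    exact hu (PowerSeries.ext (by simpa using h))
  exact ⟨Nat.find h, Nat.find_spec h, fun b hb => by
    by_contra h2
    exact Nat.find_min h hb h2⟩

theorem coeff_mul_first {u w : PowerSeries ℂ} {a b : ℕ} (hu : ∀ i < a, coeff i u = 0)
    (hw : ∀ i < b, coeff i w = 0) : coeff (b + a) (w * u) = coeff b w * coeff a u := by
  rw [PowerSeries.coeff_mul, Finset.sum_eq_single (b, a)]
  · rintro ⟨i, j⟩ hij hne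
    rw [Finset.HasAntidiagonal.mem_antidiagonal] at hij
    simp only at hij
    simp only [ne_eq, Prod.mk.injEq, not_and] at hne
    by_cases hi : i < b
    · rw [hw i hi, zero_mul]
    · have : i ≠ b := fun h => hne h (by omega)
      rw [hu j (by omega), mul_zero]
  · intro h
    exact absurd (by rw [Finset.HasAntidiagonal.mem_antidiagonal]) h

theorem first_eq {u w : PowerSeries ℂ} {a b : ℕ} (hu : coeff a u ≠ 0)
    (hu0 : ∀ i < a, coeff i u = 0) (hw : coeff b w ≠ 0) (hw0 : ∀ i < b, coeff i w = 0)
    (h : w * derivative ℂ u = u * derivative ℂ w) : a = b := by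
  have h1 : w * (X * derivative ℂ u) = u * (X * derivative ℂ w) := by
    calc w * (X * derivative ℂ u) = X * (w * derivative ℂ u) := by ring
      _ = X * (u * derivative ℂ w) := by rw [h]
      _ = _ := by ring
  have h2 := congrArg (coeff (b + a)) h1
  rw [coeff_mul_first (a := a) (b := b) (fun i hi => by rw [coeff_X_mul_deriv, hu0 i hi, mul_zero])
    hw0, add_comm b a, coeff_mul_first (a := b) (b := a)
    (fun i hi => by rw [coeff_X_mul_deriv, hw0 i hi, mul_zero]) hu0,
    coeff_X_mul_deriv, coeff_X_mul_deriv] at h2
  have h3 : ((a : ℂ) - b) * (coeff a u * coeff b w) = 0 := by linear_combination h2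
  rcases mul_eq_zero.mp h3 with h4 | h4
  · exact_mod_cast sub_eq_zero.mp h4
  · exact absurd h4 (mul_ne_zero hu hw)

/-- Two nonzero series with vanishing Wronskian are proportional. -/
theorem wronskian_zero {u w : PowerSeries ℂ} (hu : u ≠ 0) (hw : w ≠ 0)
    (h : w * derivative ℂ u = u * derivative ℂ w) : ∃ c : ℂ, c ≠ 0 ∧ u = C c * w := by
  obtain ⟨a, ha, ha0⟩ := exists_first hu
  obtain ⟨b, hb, hb0⟩ := exists_first hw
  have hab := first_eq ha ha0 hb hb0 h
  subst hab
  refine ⟨coeff a u / coeff a w, div_ne_zero ha hb, ?_⟩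
  by_contra hne
  have ht : u - C (coeff a u / coeff a w) * w ≠ 0 := sub_ne_zero.mpr hne
  obtain ⟨b', hb', hb0'⟩ := exists_first ht
  have h5 : w * derivative ℂ (u - C (coeff a u / coeff a w) * w) =
      (u - C (coeff a u / coeff a w) * w) * derivative ℂ w := by
    have : derivative ℂ (C (coeff a u / coeff a w) * w) =
        C (coeff a u / coeff a w) * derivative ℂ w := by
      rw [Derivation.leibniz]; simp
    rw [map_sub, this, mul_sub, h]
    ring
  have h6 := first_eq hb' hb0' hb hb0 h5
  subst h6
  apply hb'
  rw [map_sub, PowerSeries.coeff_C_mul, div_mul_cancel₀ _ hb, sub_self]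

/-- Linear independence over the polynomials of series with rational logarithmic derivatives
and non-rational ratios. -/
theorem indep_poly {ι : Type*} [DecidableEq ι] (s : Finset ι) (f : ι → PowerSeries ℂ)
    (hf : ∀ i ∈ s, f i ≠ 0) (Q : Polynomial ℂ) (hQ : Q ≠ 0) (L : ι → Polynomial ℂ)
    (hL : ∀ i ∈ s, (Q : PowerSeries ℂ) * derivative ℂ (f i) = (L i : PowerSeries ℂ) * f i)
    (hne : ∀ i ∈ s, ∀ j ∈ s, i ≠ j → ∀ p q : Polynomial ℂ, p ≠ 0 → q ≠ 0 →
      (p : PowerSeries ℂ) * f i ≠ (q : PowerSeries ℂ) * f j) :
    ∀ c : ι → Polynomial ℂ, ∑ i ∈ s, (c i : PowerSeries ℂ) * f i = 0 → ∀ i ∈ s, c i = 0 := by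
  induction s using Finset.induction_on with
  | empty => intro c _ i hi; simp at hi
  | insert j s hj ih =>
    intro c hc
    have ih' := ih (fun i hi => hf i (Finset.mem_insert_of_mem hi))
      (fun i hi => hL i (Finset.mem_insert_of_mem hi))
      (fun i hi j hj => hne i (Finset.mem_insert_of_mem hi) j (Finset.mem_insert_of_mem hj))
    rw [Finset.sum_insert hj] at hc
    -- the differentiated relation
    have hD : ∀ i ∈ insert j s, (Q : PowerSeries ℂ) * derivative ℂ ((c i : PowerSeries ℂ) * f i) =
        ((Q * Polynomial.derivative (c i) + c i * L i : Polynomial ℂ) : PowerSeries ℂ) * f i := by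
      intro i hi
      rw [Derivation.leibniz, PowerSeries.derivative_coe]
      simp only [smul_eq_mul, Polynomial.coe_add, Polynomial.coe_mul]
      have := hL i hi
      linear_combination (c i : PowerSeries ℂ) * this
    have hd : (Q : PowerSeries ℂ) * derivative ℂ ((c j : PowerSeries ℂ) * f j +
        ∑ i ∈ s, (c i : PowerSeries ℂ) * f i) = 0 := by
      rw [hc]; simp
    rw [map_add, map_sum, mul_add, Finset.mul_sum, hD j (Finset.mem_insert_self _ _),
      Finset.sum_congr rfl (fun i hi => hD i (Finset.mem_insert_of_mem hi))] at hd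
    by_cases h0 : c j = 0
    · rw [h0] at hc
      simp only [Polynomial.coe_zero, zero_mul, zero_add] at hc
      intro i hi
      rcases Finset.mem_insert.mp hi with rfl | hi
      · exact h0
      · exact ih' c hc i hi
    · exfalso
      have h1 := ih' (fun i => c j * (Q * Polynomial.derivative (c i) + c i * L i) -
        c i * (Q * Polynomial.derivative (c j) + c j * L j)) (by
          have e1 : ∑ i ∈ s, (((c j * (Q * Polynomial.derivative (c i) + c i * L i) -
              c i * (Q * Polynomial.derivative (c j) + c j * L j) : Polynomial ℂ)) :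
                PowerSeries ℂ) * f i = (c j : PowerSeries ℂ) * (∑ i ∈ s,
                ((Q * Polynomial.derivative (c i) + c i * L i : Polynomial ℂ) : PowerSeries ℂ) *
                  f i) - ((Q * Polynomial.derivative (c j) + c j * L j : Polynomial ℂ) :
                    PowerSeries ℂ) * ∑ i ∈ s, (c i : PowerSeries ℂ) * f i := by
            rw [Finset.mul_sum, Finset.mul_sum, ← Finset.sum_sub_distrib]
            refine Finset.sum_congr rfl fun i _ => ?_
            simp only [Polynomial.coe_sub, Polynomial.coe_mul, Polynomial.coe_add]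
            ring
          rw [e1]
          have e2 : ∑ i ∈ s, ((Q * Polynomial.derivative (c i) + c i * L i : Polynomial ℂ) :
              PowerSeries ℂ) * f i = - (((Q * Polynomial.derivative (c j) + c j * L j :
                Polynomial ℂ) : PowerSeries ℂ) * f j) := by
            linear_combination hd
          have e3 : ∑ i ∈ s, (c i : PowerSeries ℂ) * f i = -((c j : PowerSeries ℂ) * f j) := by
            linear_combination hc
          rw [e2, e3]
          ring)
      have hall : ∀ i ∈ s, c i = 0 := by
        intro i hi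
        by_contra hci
        have hi' := Finset.mem_insert_of_mem (a := i) (b := j) hi
        have h2 := sub_eq_zero.mp (h1 i hi)
        have hu : (c i : PowerSeries ℂ) * f i ≠ 0 :=
          mul_ne_zero (by simpa using hci) (hf i hi')
        have hw : (c j : PowerSeries ℂ) * f j ≠ 0 :=
          mul_ne_zero (by simpa using h0) (hf j (Finset.mem_insert_self _ _))
        have h3 : ((c j : PowerSeries ℂ) * f j) * derivative ℂ ((c i : PowerSeries ℂ) * f i) =
            ((c i : PowerSeries ℂ) * f i) * derivative ℂ ((c j : PowerSeries ℂ) * f j) := by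
          have hQ' : (Q : PowerSeries ℂ) ≠ 0 := by simpa using hQ
          apply mul_left_cancel₀ hQ'
          have e1 := hD i hi'
          have e2 := hD j (Finset.mem_insert_self _ _)
          have e3 : ((c j * (Q * Polynomial.derivative (c i) + c i * L i) : Polynomial ℂ) :
              PowerSeries ℂ) = ((c i * (Q * Polynomial.derivative (c j) + c j * L j) :
                Polynomial ℂ) : PowerSeries ℂ) := by rw [h2]
          rw [Polynomial.coe_mul, Polynomial.coe_mul] at e3
          linear_combination ((c j : PowerSeries ℂ) * f j) * e1 -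
            ((c i : PowerSeries ℂ) * f i) * e2 + f i * f j * e3
        obtain ⟨γ, hγ, hγ2⟩ := wronskian_zero hu hw h3
        refine hne i hi' j (Finset.mem_insert_self _ _) (by rintro rfl; exact hj hi) (c i)
          (Polynomial.C γ * c j) hci (mul_ne_zero (by simpa using hγ) h0) ?_
        rw [hγ2]
        simp only [Polynomial.coe_mul, Polynomial.coe_C]
        ring
      have hs : ∑ i ∈ s, (c i : PowerSeries ℂ) * f i = 0 :=
        Finset.sum_eq_zero fun i hi => by rw [hall i hi]; simp
      rw [hs, add_zero] at hc
      rcases mul_eq_zero.mp hc with h4 | h4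
      · exact h0 (by simpa using h4)
      · exact hf j (Finset.mem_insert_self _ _) h4

end Pool.Agent.LAT
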