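import Pool.Agent.Lib.MP_ae5b4e_an_LAT.AlgDefs

/-!
# Series invariant up to a given order

`Inv z n u`: the coefficients of `u ∈ S⟦w⟧` of index `m < n` vanish unless `z ^ m = 1`.
At the first index `m` with `z ^ m ≠ 1` the coefficient behaves like a derivation.
-/

namespace Pool.Agent.LAT

open PowerSeries

variable {S : Type*} [CommRing S]

/-- Coefficients of index `m < n` with `z ^ m ≠ 1` vanish. -/
def Inv (z : ℂ) (n : ℕ) (u : PowerSeries S) : Prop :=
  ∀ m < n, z ^ m ≠ 1 → coeff m u = 0

namespace Inv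

variable {z : ℂ} {n : ℕ} {u v : PowerSeries S}

theorem mono {m : ℕ} (hu : Inv z n u) (h : m ≤ n) : Inv z m u :=
  fun a ha => hu a (lt_of_lt_of_le ha h)

theorem ne_zero_of {m : ℕ} (hm : z ^ m ≠ 1) : m ≠ 0 := by
  rintro rfl; exact hm (pow_zero z)

theorem other {a b m : ℕ} (hab : a + b = m) (hm : z ^ m ≠ 1) (ha : z ^ a = 1) : z ^ b ≠ 1 := by
  intro hb
  apply hm
  rw [← hab, pow_add, ha, hb, one_mul]

/-- The product rule at the first non-invariant index. -/
theorem coeff_mul {m : ℕ} (hu : Inv z m u) (hv : Inv z m v) (hm : z ^ m ≠ 1) :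
    coeff m (u * v) = coeff 0 u * coeff m v + coeff m u * coeff 0 v := by
  have hm0 : m ≠ 0 := ne_zero_of hm
  rw [PowerSeries.coeff_mul]
  have hsub : ({(0, m), (m, 0)} : Finset (ℕ × ℕ)) ⊆ Finset.HasAntidiagonal.antidiagonal m := by
    intro x hx
    simp only [Finset.mem_insert, Finset.mem_singleton] at hx
    rcases hx with rfl | rfl <;> simp
  rw [← Finset.sum_subset hsub]
  · rw [Finset.sum_pair]
    intro h
    simp only [Prod.mk.injEq] at h
    exact hm0 h.1.symm
  · rintro ⟨a, b⟩ hx hx2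
    rw [Finset.HasAntidiagonal.mem_antidiagonal] at hx
    simp only at hx
    simp only [Finset.mem_insert, Finset.mem_singleton, Prod.mk.injEq, not_or] at hx2
    have ha : a ≠ 0 := by
      rintro rfl
      exact hx2.1 ⟨rfl, by omega⟩
    have hb : b ≠ 0 := by
      rintro rfl
      exact hx2.2 ⟨by omega, rfl⟩
    have ha' : a < m := by omega
    have hb' : b < m := by omega
    by_cases h1 : z ^ a = 1
    · rw [hv b hb' (other hx hm h1), mul_zero]
    · rw [hu a ha' h1, zero_mul]

theorem zero : Inv z n (0 : PowerSeries S) := fun m _ _ => by simp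

theorem C (s : S) : Inv z n (PowerSeries.C s) := fun m _ h2 => by
  rw [PowerSeries.coeff_C, if_neg (ne_zero_of h2)]

theorem one : Inv z n (1 : PowerSeries S) := by
  have := C (z := z) (n := n) (1 : S)
  simpa using this

theorem add (hu : Inv z n u) (hv : Inv z n v) : Inv z n (u + v) := fun m h1 h2 => by
  rw [map_add, hu m h1 h2, hv m h1 h2, add_zero]

theorem sub (hu : Inv z n u) (hv : Inv z n v) : Inv z n (u - v) := fun m h1 h2 => by
  rw [map_sub, hu m h1 h2, hv m h1 h2, sub_zero]

theorem mul (hu : Inv z n u) (hv : Inv z n v) : Inv z n (u * v) := fun m h1 h2 => by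
  rw [coeff_mul (hu.mono h1.le) (hv.mono h1.le) h2, hu m h1 h2, hv m h1 h2]
  simp

theorem pow (hu : Inv z n u) (p : ℕ) : Inv z n (u ^ p) := by
  induction p with
  | zero => simpa using one
  | succ p ih => rw [pow_succ]; exact ih.mul hu

theorem X_pow {m : ℕ} (hm : z ^ m = 1) : Inv z n ((X : PowerSeries S) ^ m) := fun a _ h2 => by
  rw [PowerSeries.coeff_X_pow, if_neg]
  rintro rfl
  exact h2 hm

theorem sum {ι : Type*} (s : Finset ι) {f : ι → PowerSeries S} (h : ∀ i ∈ s, Inv z n (f i)) :
    Inv z n (∑ i ∈ s, f i) := fun m h1 h2 => by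
  rw [map_sum]
  exact Finset.sum_eq_zero fun i hi => h i hi m h1 h2

theorem coeff_pow {m : ℕ} (hu : Inv z m u) (hm : z ^ m ≠ 1) (p : ℕ) :
    coeff m (u ^ (p + 1)) = ((p : S) + 1) * coeff 0 u ^ p * coeff m u := by
  induction p with
  | zero => simp
  | succ p ih =>
    rw [pow_succ, coeff_mul (hu.pow _) hu hm, ih]
    have : coeff 0 (u ^ (p + 1)) = coeff 0 u ^ (p + 1) := by
      simp
    rw [this]
    push_cast
    ring

theorem cancel [IsDomain S] (huv : Inv z n (u * v)) (hv : Inv z n v) (h0 : coeff 0 v ≠ 0) :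
    Inv z n u := by
  intro m
  induction m using Nat.strong_induction_on with
  | _ m ih =>
    intro h1 h2
    have hu : Inv z m u := fun a ha h3 => ih a ha (ha.trans h1) h3
    have h3 := huv m h1 h2
    rw [coeff_mul hu (hv.mono h1.le) h2, hv m h1 h2, mul_zero, zero_add] at h3
    rcases mul_eq_zero.mp h3 with h4 | h4
    · exact h4
    · exact absurd h4 h0

theorem root [IsDomain S] [CharZero S] {N : ℕ} (hN : N ≠ 0) (huN : Inv z n (u ^ N))
    (h0 : coeff 0 u ≠ 0) : Inv z n u := by
  obtain ⟨p, rfl⟩ := Nat.exists_eq_succ_of_ne_zero hN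
  intro m
  induction m using Nat.strong_induction_on with
  | _ m ih =>
    intro h1 h2
    have hu : Inv z m u := fun a ha h3 => ih a ha (ha.trans h1) h3
    have h3 := huN m h1 h2
    rw [Nat.succ_eq_add_one, coeff_pow hu h2] at h3
    rcases mul_eq_zero.mp h3 with h4 | h4
    · rcases mul_eq_zero.mp h4 with h5 | h5
      · exfalso
        have : ((p + 1 : ℕ) : S) = 0 := by push_cast; exact h5
        rw [Nat.cast_eq_zero] at this
        omega
      · exact absurd h5 (pow_ne_zero p h0)
    · exact h4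

end Inv

/-- `Inv` for complex series and `kev`: the coefficient of `kev k t` at the first
non-invariant index. -/
theorem coeff_kev {z : ℂ} {m : ℕ} {k : PowerSeries ℂ} {t : W} (hk : Inv z m k) (ht : Inv z m t)
    (hm : z ^ m ≠ 1) : coeff m (kev k t) = C (coeff m k) * coeff 0 t ^ m := by
  have hm0 : m ≠ 0 := Inv.ne_zero_of hm
  rw [kev, coeff_mk, Finset.sum_range_succ]
  rw [Finset.sum_eq_zero, zero_add, Nat.sub_self]
  · simp
  · intro a ha
    rw [Finset.mem_range] at ha
    by_cases h1 : z ^ a = 1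
    · by_cases h0 : a = 0
      · subst h0
        have : coeff (m - 0) (t ^ 0) = 0 := by
          rw [pow_zero, PowerSeries.coeff_one, if_neg (by simpa using hm0)]
        rw [this, mul_zero]
      · rw [(ht.pow a) (m - a) (by omega) (Inv.other (by omega) hm h1), mul_zero]
    · rw [hk a ha h1, map_zero, zero_mul]

theorem Inv.kev {z : ℂ} {n : ℕ} {k : PowerSeries ℂ} {t : W} (hk : Inv z n k) (ht : Inv z n t) :
    Inv z n (Pool.Agent.LAT.kev k t) := fun m h1 h2 => by
  rw [coeff_kev (hk.mono h1.le) (ht.mono h1.le) h2, hk m h1 h2, map_zero, zero_mul]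

theorem coeff_zero_kev (k : PowerSeries ℂ) (t : W) :
    coeff 0 (kev k t) = C (coeff 0 k) := by
  rw [kev, coeff_mk]
  simp

end Pool.Agent.LAT
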