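import Pool.Agent.Lib.MP_ae5b4e_an_LAT.AlgCore

/-!
# Two factorizations with equal ends: no ramification (main theorem)
-/

namespace Pool.Agent.LAT

open PowerSeries

theorem one_add_C_mul_X_ne (b : ℂ) : (1 + C b * X : PowerSeries ℂ) ≠ 0 := by
  intro h
  have := congrArg constantCoeff h
  simp at this

theorem kev_one_coeff (k : PowerSeries ℂ) (n : ℕ) : coeff n (kev k (1 : W)) = C (coeff n k) := by
  rw [kev, coeff_mk, Finset.sum_eq_single n]
  · simp
  · intro m hm hmn
    rw [Finset.mem_range] at hm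
    rw [one_pow, PowerSeries.coeff_one, if_neg (by omega), mul_zero]
  · intro h
    exact absurd (Finset.mem_range.mpr (Nat.lt_succ_self n)) h

theorem C_inj {a b : ℂ} (h : (C a : PowerSeries ℂ) = C b) : a = b := by
  have := congrArg constantCoeff h
  simpa using this

/-! ### The case `c = N` -/

section caseN

variable {N M n₀ : ℕ} {z : ℂ} {k : PowerSeries ℂ} {l : ℕ → PowerSeries ℂ} {th v th' v' : ℕ → W}

theorem rel_N (h : ThChain N N (fun _ => k) M th v) (h' : ThChain N N l M th' v')
    (e1 : th M = th' M) (e2 : v (M + 1) = v' (M + 1)) (hN : N ≠ 0)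
    (hn : z ^ n₀ ≠ 1) (hk : Inv z n₀ k) (hl : ∀ i ≤ M, Inv z n₀ (l i)) :
    ∑ j ∈ Finset.range (M + 1), C (coeff n₀ k) * coeff 0 (th j) ^ n₀ =
      ∑ j ∈ Finset.range (M + 1), C (coeff n₀ (l j)) * coeff 0 (th' j) ^ n₀ := by
  have h1 := congrArg (coeff n₀) (h.sum_kev_eq h' e1 e2)
  rw [map_sum, map_sum] at h1
  have h2 : ∀ j ∈ Finset.range (M + 1), coeff n₀ (kev k (th j)) =
      C (coeff n₀ k) * coeff 0 (th j) ^ n₀ := by
    intro j hj
    rw [Finset.mem_range] at hj
    exact coeff_kev hk (h.inv hN (by simp) (fun _ _ => hk) (by omega : j ≤ M)).1 hn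
  have h3 : ∀ j ∈ Finset.range (M + 1), coeff n₀ (kev (l j) (th' j)) =
      C (coeff n₀ (l j)) * coeff 0 (th' j) ^ n₀ := by
    intro j hj
    rw [Finset.mem_range] at hj
    exact coeff_kev (hl j (by omega)) (h'.inv hN (by simp) hl (by omega : j ≤ M)).1 hn
  rw [Finset.sum_congr rfl h2, Finset.sum_congr rfl h3] at h1
  exact h1

/-- Case `c = N`, residue `-1`. -/
theorem caseN_neg (h : ThChain N N (fun _ => k) M th v) (h' : ThChain N N l M th' v')
    (e1 : th M = th' M) (e2 : v (M + 1) = v' (M + 1)) (hN : N ≠ 0)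
    (hn : z ^ n₀ ≠ 1) (hk : Inv z n₀ k) (hl : ∀ i ≤ M, Inv z n₀ (l i))
    (hr : coeff 0 k = -1) : ∀ j ≤ M, coeff n₀ (l j) = coeff n₀ k := by
  classical
  have hrel := rel_N h h' e1 e2 hN hn hk hl
  have hn0 : n₀ ≠ 0 := Inv.ne_zero_of hn
  have ha : ∀ j, ThChain.expo (fun _ => k) j = -1 := by
    intro j
    rw [ThChain.expo, Finset.sum_const, Finset.card_range, nsmul_eq_mul, hr]
    push_cast; ring
  have hX : coeff 0 (th M) ≠ 0 := coeff_zero_ne_of_red (h.red_th le_rfl)
  have hcnt := count_eq M (ThChain.expo (fun _ => k)) (ThChain.expo l) (coeff 0 (th M) ^ N)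
    (h.prod_formula le_rfl) (by rw [e1]; exact h'.prod_formula le_rfl)
  have hb : ∀ j < M, ThChain.expo l j = -1 := by
    intro j hj
    by_contra hne
    have h1 := hcnt (ThChain.expo l j)
    have h2 : ∑ i ∈ Finset.range M, (if ThChain.expo (fun _ => k) i = ThChain.expo l j
        then (1 : ℕ) else 0) = 0 := by
      refine Finset.sum_eq_zero fun i _ => ?_
      rw [if_neg]
      rw [ha i]
      exact fun h => hne h.symm
    rw [h2] at h1
    have h3 : 0 < ∑ i ∈ Finset.range M, (if ThChain.expo l i = ThChain.expo l j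
        then (1 : ℕ) else 0) := by
      apply Finset.sum_pos'
      · intro i _; positivity
      · exact ⟨j, Finset.mem_range.mpr hj, by simp⟩
    omega
  have hrp := rho_pow hN (-1)
  have h10 : (1 + C ((-1 : ℂ) + 1) * X : PowerSeries ℂ) = 1 := by simp
  rw [h10] at hrp
  have gen : ∀ (kk : ℕ → PowerSeries ℂ) (t vv : ℕ → W), ThChain N N kk M t vv →
      (∀ j < M, ThChain.expo kk j = -1) → ∀ j ≤ M, coeff 0 (t j) = rho N (-1) ^ j := by
    intro kk t vv hh hkk j hj
    apply root_unique hN (cc_of_red (hh.red_th hj))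
    · rw [map_pow, rho_cc, one_pow]
    · have h1 := hh.prod_formula hj
      have h2 : ∏ i ∈ Finset.range j, (1 + C (ThChain.expo kk i) * X : PowerSeries ℂ) =
          (1 + C (-1 : ℂ) * X) ^ j := by
        have e : ∀ i ∈ Finset.range j, (1 + C (ThChain.expo kk i) * X : PowerSeries ℂ) =
            1 + C (-1 : ℂ) * X := by
          intro i hi
          rw [Finset.mem_range] at hi
          rw [hkk i (by omega)]
        rw [Finset.prod_congr rfl e, Finset.prod_const, Finset.card_range]
      have h3 : ∏ i ∈ Finset.range j, (1 + C (ThChain.expo kk i + 1) * X : PowerSeries ℂ) =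
          1 := by
        refine Finset.prod_eq_one fun i hi => ?_
        rw [Finset.mem_range] at hi
        rw [hkk i (by omega), h10]
      rw [h2, h3] at h1
      have h4 : (rho N (-1) ^ j) ^ N * (1 + C (-1 : ℂ) * X) ^ j = 1 := by
        rw [← pow_mul, mul_comm j N, pow_mul, ← mul_pow, hrp, one_pow]
      exact mul_right_cancel₀ (pow_ne_zero j (one_add_C_mul_X_ne (-1))) (h1.trans h4.symm)
  have hU : ∀ t : ℂ, rho N (-1) ≠ C t := by
    intro t ht
    rw [ht, ← map_pow] at hrp
    have h5 := congrArg (coeff 0) hrp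
    have h6 := congrArg (coeff 1) hrp
    rw [PowerSeries.coeff_C_mul] at h5 h6
    have c0 : coeff 0 (1 + C (-1 : ℂ) * X : PowerSeries ℂ) = 1 := by simp
    have c1 : coeff 1 (1 + C (-1 : ℂ) * X : PowerSeries ℂ) = -1 := by
      rw [map_add, PowerSeries.coeff_C_mul, PowerSeries.coeff_one_X, PowerSeries.coeff_one]
      simp
    rw [c0] at h5
    rw [c1] at h6
    simp only [PowerSeries.coeff_one] at h5 h6
    simp at h5 h6
    rw [h6.1, zero_pow hN] at h5
    exact zero_ne_one h5
  -- the polynomial relation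
  set p : Polynomial ℂ := ∑ j ∈ Finset.range (M + 1),
    Polynomial.monomial (j * n₀) (coeff n₀ k - coeff n₀ (l j)) with hp
  have hp0 : Polynomial.aeval (rho N (-1)) p = 0 := by
    rw [hp, map_sum]
    have h7 : ∀ j ∈ Finset.range (M + 1), Polynomial.aeval (rho N (-1))
        (Polynomial.monomial (j * n₀) (coeff n₀ k - coeff n₀ (l j))) =
        C (coeff n₀ k) * coeff 0 (th j) ^ n₀ - C (coeff n₀ (l j)) * coeff 0 (th' j) ^ n₀ := by
      intro j hj
      rw [Finset.mem_range] at hj
      rw [gen _ _ _ h (fun j _ => ha j) j (by omega), gen _ _ _ h' hb j (by omega),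
        Polynomial.aeval_monomial, ← pow_mul]
      have : (algebraMap ℂ (PowerSeries ℂ)) (coeff n₀ k - coeff n₀ (l j)) =
        C (coeff n₀ k - coeff n₀ (l j)) := rfl
      rw [this, map_sub]
      ring
    rw [Finset.sum_congr rfl h7, Finset.sum_sub_distrib, hrel, sub_self]
  have hp1 : p = 0 := by
    by_contra hne
    exact transc hU hne hp0
  intro j hj
  have h8 := congrArg (Polynomial.coeff · (j * n₀)) hp1
  simp only [hp, Polynomial.finsetSum_coeff, Polynomial.coeff_monomial, Polynomial.coeff_zero]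
    at h8
  rw [Finset.sum_eq_single j] at h8
  · rw [if_pos rfl] at h8
    exact (sub_eq_zero.mp h8).symm
  · intro i _ hi
    rw [if_neg]
    intro h9
    exact hi (Nat.eq_of_mul_eq_mul_right (Nat.pos_of_ne_zero hn0) h9)
  · intro h9
    exact absurd (Finset.mem_range.mpr (by omega)) h9

/-- Case `c = N`, residue different from `-1`. -/
theorem caseN_gen (h : ThChain N N (fun _ => k) M th v) (h' : ThChain N N l M th' v')
    (e1 : th M = th' M) (e2 : v (M + 1) = v' (M + 1)) (hN : N ≠ 0) (hNn : ¬ N ∣ n₀)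
    (hn : z ^ n₀ ≠ 1) (hk : Inv z n₀ k) (hl : ∀ i ≤ M, Inv z n₀ (l i))
    (hr : coeff 0 k ≠ -1) : coeff n₀ (l 0) = coeff n₀ k ∧
      (coeff n₀ k = 0 → ∀ j ≤ M, coeff n₀ (l j) = 0) := by
  classical
  have hrel := rel_N h h' e1 e2 hN hn hk hl
  set a : ℕ → ℂ := ThChain.expo (fun _ => k) with ha
  set b : ℕ → ℂ := ThChain.expo l with hb
  have haj : ∀ j, a j = j + (j + 1) * coeff 0 k := by
    intro j
    rw [ha, ThChain.expo, Finset.sum_const, Finset.card_range, nsmul_eq_mul]
    push_cast; ring
  have hainj : Function.Injective a := by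
    intro i j hij
    rw [haj, haj] at hij
    have h1 : ((i : ℂ) - j) * (1 + coeff 0 k) = 0 := by linear_combination hij
    rcases mul_eq_zero.mp h1 with h2 | h2
    · exact_mod_cast sub_eq_zero.mp h2
    · exact absurd (by linear_combination h2) hr
  have hcnt := count_eq M a b (coeff 0 (th M) ^ N)
    (h.prod_formula le_rfl) (by rw [e1]; exact h'.prod_formula le_rfl)
  have hbinj : ∀ i < M, ∀ j < M, b i = b j → i = j := by
    intro i hi j hj hij
    by_contra hne
    have h1 := hcnt (b i)
    have h2 : ∑ m ∈ Finset.range M, (if a m = b i then (1 : ℕ) else 0) ≤ 1 := by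
      by_cases hex : ∃ m ∈ Finset.range M, a m = b i
      · obtain ⟨m, hm, hm2⟩ := hex
        rw [Finset.sum_eq_single m]
        · rw [if_pos hm2]
        · intro m' _ hm'
          rw [if_neg]
          intro h3
          exact hm' (hainj (h3.trans hm2.symm))
        · intro h3; exact absurd hm h3
      · push Not at hex
        rw [Finset.sum_eq_zero (fun m hm => if_neg (hex m hm))]
        exact Nat.zero_le _
    have h3 : 2 ≤ ∑ m ∈ Finset.range M, (if b m = b i then (1 : ℕ) else 0) := by
      have hsub : ({i, j} : Finset ℕ) ⊆ Finset.range M := by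
        intro x hx
        simp only [Finset.mem_insert, Finset.mem_singleton] at hx
        rcases hx with rfl | rfl <;> simpa using (by assumption)
      calc 2 = ∑ m ∈ ({i, j} : Finset ℕ), (if b m = b i then (1 : ℕ) else 0) := by
            rw [Finset.sum_pair hne, if_pos rfl, if_pos hij.symm]
        _ ≤ _ := Finset.sum_le_sum_of_subset hsub
    omega
  let A : ℕ → Finset ℂ := fun j => (Finset.range j).image a
  let B : ℕ → Finset ℂ := fun j => (Finset.range j).image b
  have hcardA : ∀ j, (A j).card = j := fun j => by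
    rw [Finset.card_image_of_injective _ hainj, Finset.card_range]
  have hcardB : ∀ j ≤ M, (B j).card = j := fun j hj => by
    rw [Finset.card_image_of_injOn, Finset.card_range]
    intro x hx y hy hxy
    rw [Finset.mem_coe, Finset.mem_range] at hx hy
    exact hbinj x (by omega) y (by omega) hxy
  have hthA : ∀ j ≤ M, coeff 0 (th j) = rad N (A j) := by
    intro j hj
    apply root_unique hN (cc_of_red (h.red_th hj)) (rad_cc N _)
    have h1 := h.prod_formula hj
    have h2 := rad_pow hN (A j)
    rw [Finset.prod_image (fun x _ y _ hxy => hainj hxy),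
      Finset.prod_image (fun x _ y _ hxy => hainj hxy)] at h2
    have h3 : ∏ i ∈ Finset.range j, (1 + C (a i) * X : PowerSeries ℂ) ≠ 0 :=
      Finset.prod_ne_zero_iff.mpr fun i _ => one_add_C_mul_X_ne _
    exact mul_right_cancel₀ h3 (h1.trans h2.symm)
  have hthB : ∀ j ≤ M, coeff 0 (th' j) = rad N (B j) := by
    intro j hj
    apply root_unique hN (cc_of_red (h'.red_th hj)) (rad_cc N _)
    have h1 := h'.prod_formula hj
    have h2 := rad_pow hN (B j)
    have hinj : Set.InjOn b (Finset.range j : Set ℕ) := by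
      intro x hx y hy hxy
      rw [Finset.mem_coe, Finset.mem_range] at hx hy
      exact hbinj x (by omega) y (by omega) hxy
    rw [Finset.prod_image hinj, Finset.prod_image hinj] at h2
    have h3 : ∏ i ∈ Finset.range j, (1 + C (b i) * X : PowerSeries ℂ) ≠ 0 :=
      Finset.prod_ne_zero_iff.mpr fun i _ => one_add_C_mul_X_ne _
    exact mul_right_cancel₀ h3 (h1.trans h2.symm)
  -- the coefficients
  let F : Finset (Finset ℂ) := (Finset.range (M + 1)).image A ∪ (Finset.range (M + 1)).image B
  let c : Finset ℂ → ℂ := fun S => ∑ j ∈ Finset.range (M + 1),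
    ((if A j = S then coeff n₀ k else 0) - (if B j = S then coeff n₀ (l j) else 0))
  have hc0 : ∑ S ∈ F, C (c S) * rad N S ^ n₀ = 0 := by
    simp only [c, map_sum, map_sub, Finset.sum_mul, sub_mul]
    rw [Finset.sum_comm]
    have h4 : ∀ j ∈ Finset.range (M + 1), ∑ S ∈ F,
        (C (if A j = S then coeff n₀ k else 0) * rad N S ^ n₀ -
          C (if B j = S then coeff n₀ (l j) else 0) * rad N S ^ n₀) =
        C (coeff n₀ k) * coeff 0 (th j) ^ n₀ - C (coeff n₀ (l j)) * coeff 0 (th' j) ^ n₀ := by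
      intro j hj
      have hj' : j ≤ M := by rw [Finset.mem_range] at hj; omega
      rw [Finset.sum_sub_distrib]
      congr 1
      · rw [Finset.sum_eq_single (A j)]
        · rw [if_pos rfl, hthA j hj']
        · intro S _ hS
          rw [if_neg (Ne.symm hS), map_zero, zero_mul]
        · intro h5
          exact absurd (Finset.mem_union_left _ (Finset.mem_image_of_mem A hj)) h5
      · rw [Finset.sum_eq_single (B j)]
        · rw [if_pos rfl, hthB j hj']
        · intro S _ hS
          rw [if_neg (Ne.symm hS), map_zero, zero_mul]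
        · intro h5
          exact absurd (Finset.mem_union_right _ (Finset.mem_image_of_mem B hj)) h5
    rw [Finset.sum_congr rfl h4, Finset.sum_sub_distrib, hrel, sub_self]
  have hind := rad_indep hN hNn F c hc0
  have hempty : coeff n₀ (l 0) = coeff n₀ k := by
    have h5 := hind ∅ (Finset.mem_union_left _ (Finset.mem_image.mpr
      ⟨0, Finset.mem_range.mpr (by omega), by simp [A]⟩))
    simp only [c] at h5
    rw [Finset.sum_eq_single 0] at h5
    · have hA0 : A 0 = ∅ := by simp [A]
      have hB0 : B 0 = ∅ := by simp [B]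
      rw [if_pos hA0, if_pos hB0] at h5
      exact (sub_eq_zero.mp h5).symm
    · intro j hj hj0
      rw [Finset.mem_range] at hj
      rw [if_neg, if_neg, sub_zero]
      · intro h6
        have := hcardB j (by omega)
        rw [h6, Finset.card_empty] at this
        exact hj0 this.symm
      · intro h6
        have := hcardA j
        rw [h6, Finset.card_empty] at this
        exact hj0 this.symm
    · intro h6
      exact absurd (Finset.mem_range.mpr (by omega)) h6
  refine ⟨hempty, fun hk0 j hj => ?_⟩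
  have h5 := hind (B j) (Finset.mem_union_right _ (Finset.mem_image_of_mem B
    (Finset.mem_range.mpr (by omega))))
  simp only [c, hk0, ite_self, zero_sub] at h5
  rw [Finset.sum_eq_single j] at h5
  · rw [if_pos rfl] at h5
    exact neg_eq_zero.mp h5
  · intro i hi hij
    rw [Finset.mem_range] at hi
    rw [if_neg, neg_zero]
    intro h6
    have e1 := hcardB i (by omega)
    rw [h6, hcardB j hj] at e1
    exact hij e1.symm
  · intro h6
    exact absurd (Finset.mem_range.mpr (by omega)) h6

end caseN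

/-! ### The case `N < c` -/

theorem Inv.X_pow_mul {S : Type*} [CommRing S] {z : ℂ} {n d : ℕ} {v : PowerSeries S}
    (hz : z ^ d = 1) (hd : 0 < d) (hv : Inv z n v) : Inv z (n + 1) (X ^ d * v) := by
  intro m hm1 hm2
  rw [PowerSeries.coeff_X_pow_mul']
  split_ifs with h
  · apply hv (m - d) (by omega)
    intro h2
    apply hm2
    have : m = (m - d) + d := by omega
    rw [this, pow_add, h2, hz, one_mul]
  · rfl

/-- The geometric series. -/
noncomputable def geo (D : ℂ) : PowerSeries ℂ := PowerSeries.mk fun n => (-D) ^ n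

theorem mul_geo (D : ℂ) : (1 + C D * X) * geo D = 1 := by
  ext n
  rw [add_mul, one_mul, map_add, mul_assoc, PowerSeries.coeff_C_mul]
  cases n with
  | zero => simp [geo]
  | succ n =>
    rw [PowerSeries.coeff_succ_X_mul, geo, coeff_mk, coeff_mk, PowerSeries.coeff_one,
      if_neg (Nat.succ_ne_zero n)]
    ring

theorem coeff_geo_sq (D : ℂ) (n : ℕ) : coeff n (geo D ^ 2) = (n + 1) * (-D) ^ n := by
  rw [pow_two, PowerSeries.coeff_mul]
  have : ∀ p ∈ Finset.HasAntidiagonal.antidiagonal n, coeff p.1 (geo D) * coeff p.2 (geo D) =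
      (-D) ^ n := by
    intro p hp
    rw [Finset.HasAntidiagonal.mem_antidiagonal] at hp
    rw [geo, coeff_mk, coeff_mk, ← pow_add, hp]
  rw [Finset.sum_congr rfl this, Finset.sum_const, Finset.Nat.card_antidiagonal, nsmul_eq_mul]
  push_cast
  ring

/-- Partial sums of the coefficients of index `n`. -/
noncomputable def psum (n : ℕ) (k : ℕ → PowerSeries ℂ) (i : ℕ) : ℂ :=
  ∑ j ∈ Finset.range (i + 1), coeff n (k j)

theorem psum_zero_all {n M : ℕ} {k : ℕ → PowerSeries ℂ} (h : ∀ i ≤ M, psum n k i = 0) :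
    ∀ i ≤ M, coeff n (k i) = 0 := by
  intro i hi
  cases i with
  | zero => simpa [psum] using h 0 hi
  | succ i =>
    have h1 := h (i + 1) hi
    have h2 := h i (by omega)
    rw [psum, Finset.sum_range_succ] at h1
    rw [psum] at h2
    rw [h2, zero_add] at h1
    exact h1

section caseC

variable {N c M n₀ : ℕ} {z : ℂ} {kk : ℕ → PowerSeries ℂ} {th v : ℕ → W}

theorem coeff_zero_eps (h : ThChain N c kk M th v) (hN : N ≠ 0) (hc : N < c) {j : ℕ} (hj : j ≤ M) :
    coeff 0 (ThChain.eps c kk th j) = C (coeff 0 (kk j)) := by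
  have h1 := congrArg (coeff 0) (h.eps_mul hj)
  rw [coeff_zero_kev] at h1
  have h2 : coeff 0 (ThChain.eps c kk th j * th j ^ c) =
      coeff 0 (ThChain.eps c kk th j) * coeff 0 (th j) ^ c := by
    simp
  rw [h2, h.coeff_zero_th hN hc hj, one_pow, mul_one] at h1
  exact h1

theorem inv_eps (h : ThChain N c kk M th v) (hN : N ≠ 0) (hz : z ^ (c - N) = 1)
    (hk : ∀ i ≤ M, Inv z n₀ (kk i)) {j : ℕ} (hj : j ≤ M) :
    Inv z n₀ (ThChain.eps c kk th j) := by
  have hth := (h.inv hN hz hk hj).1
  refine Inv.cancel (v := th j ^ c) ?_ (hth.pow c) ?_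
  · rw [h.eps_mul hj]
    exact (hk j hj).kev hth
  · apply coeff_zero_ne_of_red
    rw [map_pow, h.red_th hj, one_pow]

theorem inv_th_succ (h : ThChain N c kk M th v) (hN : N ≠ 0) (hc : N < c) (hz : z ^ (c - N) = 1)
    (hk : ∀ i ≤ M, Inv z n₀ (kk i)) {j : ℕ} (hj : j ≤ M) : Inv z (n₀ + 1) (th j) := by
  have := charZero_ps
  refine Inv.root hN ?_ (coeff_zero_ne_of_red (h.red_th hj))
  rw [h.th_pow_eq hj]
  refine Inv.one.add (Inv.X_pow_mul hz (by omega) (Inv.sum _ fun i hi => ?_))
  rw [Finset.mem_range] at hi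
  exact (h.inv hN hz hk (show i ≤ M by omega)).2.2

theorem coeff_eps (h : ThChain N c kk M th v) (hN : N ≠ 0) (hc : N < c) (hz : z ^ (c - N) = 1)
    (hk : ∀ i ≤ M, Inv z n₀ (kk i)) (hn : z ^ n₀ ≠ 1) {j : ℕ} (hj : j ≤ M) :
    coeff n₀ (ThChain.eps c kk th j) = C (coeff n₀ (kk j)) := by
  have hth := inv_th_succ h hN hc hz hk hj
  have h1 := congrArg (coeff n₀) (h.eps_mul hj)
  rw [coeff_kev (hk j hj) (hth.mono (Nat.le_succ _)) hn, h.coeff_zero_th hN hc hj, one_pow,
    mul_one, Inv.coeff_mul (inv_eps h hN hz hk hj) ((hth.mono (Nat.le_succ _)).pow c) hn,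
    (hth.pow c) n₀ (Nat.lt_succ_self _) hn, mul_zero, zero_add] at h1
  have h2 : coeff 0 (th j ^ c) = coeff 0 (th j) ^ c := by simp
  rw [h2, h.coeff_zero_th hN hc hj, one_pow, mul_one] at h1
  exact h1

theorem coeff_zero_G (h : ThChain N c kk M th v) (hN : N ≠ 0) (hc : N < c) {i : ℕ} (hi : i ≤ M) :
    coeff 0 (ThChain.G c kk th i) = 1 + C (psum 0 kk i) * X := by
  rw [ThChain.G, map_add, PowerSeries.coeff_C_mul, map_sum, Finset.sum_congr rfl
    (fun j hj => coeff_zero_eps h hN hc (by rw [Finset.mem_range] at hj; omega)), ← map_sum, psum]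
  simp [mul_comm]

theorem coeff_G (h : ThChain N c kk M th v) (hN : N ≠ 0) (hc : N < c) (hz : z ^ (c - N) = 1)
    (hk : ∀ i ≤ M, Inv z n₀ (kk i)) (hn : z ^ n₀ ≠ 1) {i : ℕ} (hi : i ≤ M) :
    coeff n₀ (ThChain.G c kk th i) = C (psum n₀ kk i) * X := by
  rw [ThChain.G, map_add, PowerSeries.coeff_C_mul, map_sum, Finset.sum_congr rfl
    (fun j hj => coeff_eps h hN hc hz hk hn (by rw [Finset.mem_range] at hj; omega)), ← map_sum,
    psum, PowerSeries.coeff_one, if_neg (Inv.ne_zero_of hn), zero_add, mul_comm]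

theorem inv_G (h : ThChain N c kk M th v) (hN : N ≠ 0) (hz : z ^ (c - N) = 1)
    (hk : ∀ i ≤ M, Inv z n₀ (kk i)) {i : ℕ} (hi : i ≤ M) :
    Inv z n₀ (ThChain.G c kk th i) := by
  rw [ThChain.G]
  refine Inv.one.add ((Inv.C _).mul (Inv.sum _ fun j hj => ?_))
  rw [Finset.mem_range] at hj
  exact inv_eps h hN hz hk (by omega)

theorem coeff_zero_v (h : ThChain N c kk M th v) (hN : N ≠ 0) (hc : N < c) {i : ℕ} (hi : i ≤ M) :
    coeff 0 (v (i + 1)) = X * geo (psum 0 kk i) := by
  have h1 := congrArg (coeff 0) (h.G_mul_v hi)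
  have h2 : coeff 0 (ThChain.G c kk th i * v (i + 1)) =
      coeff 0 (ThChain.G c kk th i) * coeff 0 (v (i + 1)) := by simp
  rw [h2, coeff_zero_G h hN hc hi, PowerSeries.coeff_zero_C] at h1
  have h3 := mul_geo (psum 0 kk i)
  calc coeff 0 (v (i + 1)) = ((1 + C (psum 0 kk i) * X) * geo (psum 0 kk i)) *
        coeff 0 (v (i + 1)) := by rw [h3, one_mul]
    _ = ((1 + C (psum 0 kk i) * X) * coeff 0 (v (i + 1))) * geo (psum 0 kk i) := by ring
    _ = _ := by rw [h1]

theorem coeff_v (h : ThChain N c kk M th v) (hN : N ≠ 0) (hc : N < c) (hz : z ^ (c - N) = 1)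
    (hk : ∀ i ≤ M, Inv z n₀ (kk i)) (hn : z ^ n₀ ≠ 1) {i : ℕ} (hi : i ≤ M) :
    coeff n₀ (v (i + 1)) = - (X ^ 2 * (C (psum n₀ kk i) * geo (psum 0 kk i) ^ 2)) := by
  have h1 := congrArg (coeff n₀) (h.G_mul_v hi)
  rw [Inv.coeff_mul (inv_G h hN hz hk hi) (h.inv hN hz hk hi).2.2 hn, coeff_zero_G h hN hc hi,
    coeff_G h hN hc hz hk hn hi, coeff_zero_v h hN hc hi, PowerSeries.coeff_C,
    if_neg (Inv.ne_zero_of hn)] at h1
  have h3 := mul_geo (psum 0 kk i)
  calc coeff n₀ (v (i + 1)) = ((1 + C (psum 0 kk i) * X) * geo (psum 0 kk i)) *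
        coeff n₀ (v (i + 1)) := by rw [h3, one_mul]
    _ = _ := by linear_combination (geo (psum 0 kk i)) * h1

end caseC

section caseC2

variable {N c M n₀ : ℕ} {z : ℂ} {k : PowerSeries ℂ} {l : ℕ → PowerSeries ℂ} {th v th' v' : ℕ → W}

theorem psum_const (n : ℕ) (k : PowerSeries ℂ) (i : ℕ) :
    psum n (fun _ => k) i = (i + 1) * coeff n k := by
  rw [psum, Finset.sum_const, Finset.card_range, nsmul_eq_mul]
  push_cast; ring

theorem moments_zero (h : ThChain N c (fun _ => k) M th v) (h' : ThChain N c l M th' v')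
    (e1 : th M = th' M) (hN : N ≠ 0) (hc : N < c) (n : ℕ) :
    ∑ j ∈ Finset.range M, (1 : ℂ) * (-psum 0 (fun _ => k) j) ^ n =
      ∑ j ∈ Finset.range M, (1 : ℂ) * (-psum 0 l j) ^ n := by
  have h1 := congrArg (coeff 0) (h.sum_v_eq h' e1)
  rw [map_sum, map_sum, Finset.sum_congr rfl (fun j hj => coeff_zero_v h hN hc
    (by rw [Finset.mem_range] at hj; omega)), Finset.sum_congr rfl (fun j hj => coeff_zero_v h'
    hN hc (by rw [Finset.mem_range] at hj; omega)), ← Finset.mul_sum, ← Finset.mul_sum] at h1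
  have h2 := congrArg (coeff (n + 1)) h1
  rw [PowerSeries.coeff_succ_X_mul, PowerSeries.coeff_succ_X_mul, map_sum, map_sum] at h2
  simpa only [geo, coeff_mk, one_mul] using h2

theorem moments_n (h : ThChain N c (fun _ => k) M th v) (h' : ThChain N c l M th' v')
    (e1 : th M = th' M) (hN : N ≠ 0) (hc : N < c) (hz : z ^ (c - N) = 1)
    (hk : Inv z n₀ k) (hl : ∀ i ≤ M, Inv z n₀ (l i)) (hn : z ^ n₀ ≠ 1) (n : ℕ) :
    ∑ j ∈ Finset.range M, psum n₀ (fun _ => k) j * (-psum 0 (fun _ => k) j) ^ n =
      ∑ j ∈ Finset.range M, psum n₀ l j * (-psum 0 l j) ^ n := by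
  have h1 := congrArg (coeff n₀) (h.sum_v_eq h' e1)
  rw [map_sum, map_sum, Finset.sum_congr rfl (fun j hj => coeff_v h hN hc hz (fun _ _ => hk) hn
    (by rw [Finset.mem_range] at hj; omega)), Finset.sum_congr rfl (fun j hj => coeff_v h'
    hN hc hz hl hn (by rw [Finset.mem_range] at hj; omega)), Finset.sum_neg_distrib,
    Finset.sum_neg_distrib, neg_inj, ← Finset.mul_sum, ← Finset.mul_sum] at h1
  have h2 := congrArg (coeff (n + 2)) h1
  rw [PowerSeries.coeff_X_pow_mul, PowerSeries.coeff_X_pow_mul, map_sum, map_sum] at h2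
  simp only [PowerSeries.coeff_C_mul, coeff_geo_sq] at h2
  have h3 : ((n : ℂ) + 1) ≠ 0 := by exact_mod_cast Nat.succ_ne_zero n
  apply mul_left_cancel₀ h3
  rw [Finset.mul_sum, Finset.mul_sum]
  calc _ = ∑ j ∈ Finset.range M, psum n₀ (fun _ => k) j *
        (((n : ℂ) + 1) * (-psum 0 (fun _ => k) j) ^ n) :=
        Finset.sum_congr rfl fun j _ => by ring
    _ = _ := h2
    _ = _ := Finset.sum_congr rfl fun j _ => by ring

/-- Ends: the sums of all coefficients are equal. -/
theorem psum_M_zero (h : ThChain N c (fun _ => k) M th v) (h' : ThChain N c l M th' v')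
    (e2 : v (M + 1) = v' (M + 1)) (hN : N ≠ 0) (hc : N < c) :
    psum 0 (fun _ => k) M = psum 0 l M := by
  have h1 := congrArg (coeff 0) (h.sum_eps_eq h' e2)
  rw [map_sum, map_sum, Finset.sum_congr rfl (fun j hj => coeff_zero_eps h hN hc
    (by rw [Finset.mem_range] at hj; omega)), Finset.sum_congr rfl (fun j hj => coeff_zero_eps h'
    hN hc (by rw [Finset.mem_range] at hj; omega))] at h1
  apply C_inj
  rw [psum, psum, map_sum, map_sum]
  exact h1

theorem psum_M_n (h : ThChain N c (fun _ => k) M th v) (h' : ThChain N c l M th' v')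
    (e2 : v (M + 1) = v' (M + 1)) (hN : N ≠ 0) (hc : N < c) (hz : z ^ (c - N) = 1)
    (hk : Inv z n₀ k) (hl : ∀ i ≤ M, Inv z n₀ (l i)) (hn : z ^ n₀ ≠ 1) :
    psum n₀ (fun _ => k) M = psum n₀ l M := by
  have h1 := congrArg (coeff n₀) (h.sum_eps_eq h' e2)
  rw [map_sum, map_sum, Finset.sum_congr rfl (fun j hj => coeff_eps h hN hc hz (fun _ _ => hk) hn
    (by rw [Finset.mem_range] at hj; omega)), Finset.sum_congr rfl (fun j hj => coeff_eps h'
    hN hc hz hl hn (by rw [Finset.mem_range] at hj; omega))] at h1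
  apply C_inj
  rw [psum, psum, map_sum, map_sum]
  exact h1

theorem D_props (h : ThChain N c (fun _ => k) M th v) (h' : ThChain N c l M th' v')
    (e1 : th M = th' M) (hN : N ≠ 0) (hc : N < c) (hK : coeff 0 k ≠ 0) :
    (∀ i j : ℕ, psum 0 (fun _ => k) i = psum 0 (fun _ => k) j → i = j) ∧
    (∀ i < M, ∀ j < M, psum 0 l i = psum 0 l j → i = j) ∧
    (∀ i < M, ∃ j < M, psum 0 l i = psum 0 (fun _ => k) j) := by
  classical
  have hinj : ∀ i j : ℕ, psum 0 (fun _ => k) i = psum 0 (fun _ => k) j → i = j := by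
    intro i j hij
    rw [psum_const, psum_const] at hij
    have := mul_right_cancel₀ hK hij
    have h2 : (i : ℂ) = j := by linear_combination this
    exact_mod_cast h2
  have hcnt := fiber_sum M _ _ _ _ (moments_zero h h' e1 hN hc)
  refine ⟨hinj, ?_, ?_⟩
  · intro i hi j hj hij
    by_contra hne
    have h1 := hcnt (-psum 0 l i)
    have h2 : (∑ m ∈ Finset.range M, (if -psum 0 (fun _ => k) m = -psum 0 l i
        then (1 : ℂ) else 0)) = ((∑ m ∈ Finset.range M, (if -psum 0 (fun _ => k) m = -psum 0 l i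
        then (1 : ℕ) else 0) : ℕ) : ℂ) := by push_cast; rfl
    have h3 : (∑ m ∈ Finset.range M, (if -psum 0 l m = -psum 0 l i
        then (1 : ℂ) else 0)) = ((∑ m ∈ Finset.range M, (if -psum 0 l m = -psum 0 l i
        then (1 : ℕ) else 0) : ℕ) : ℂ) := by push_cast; rfl
    rw [h2, h3] at h1
    have h4 : (∑ m ∈ Finset.range M, (if -psum 0 (fun _ => k) m = -psum 0 l i
        then (1 : ℕ) else 0)) = (∑ m ∈ Finset.range M, (if -psum 0 l m = -psum 0 l i
        then (1 : ℕ) else 0)) := by exact_mod_cast h1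
    have h5 : ∑ m ∈ Finset.range M, (if -psum 0 (fun _ => k) m = -psum 0 l i
        then (1 : ℕ) else 0) ≤ 1 := by
      by_cases hex : ∃ m ∈ Finset.range M, -psum 0 (fun _ => k) m = -psum 0 l i
      · obtain ⟨m, hm, hm2⟩ := hex
        rw [Finset.sum_eq_single m]
        · rw [if_pos hm2]
        · intro m' _ hm'
          rw [if_neg]
          intro h3
          exact hm' (hinj _ _ (neg_injective (h3.trans hm2.symm)))
        · intro h3; exact absurd hm h3
      · push Not at hex
        rw [Finset.sum_eq_zero (fun m hm => if_neg (hex m hm))]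
        exact Nat.zero_le _
    have h6 : 2 ≤ ∑ m ∈ Finset.range M, (if -psum 0 l m = -psum 0 l i
        then (1 : ℕ) else 0) := by
      have hsub : ({i, j} : Finset ℕ) ⊆ Finset.range M := by
        intro x hx
        simp only [Finset.mem_insert, Finset.mem_singleton] at hx
        rcases hx with rfl | rfl <;> simpa using (by assumption)
      calc 2 = ∑ m ∈ ({i, j} : Finset ℕ), (if -psum 0 l m = -psum 0 l i
        then (1 : ℕ) else 0) := by
            rw [Finset.sum_pair hne, if_pos rfl, if_pos (by rw [hij])]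
        _ ≤ _ := Finset.sum_le_sum_of_subset hsub
    omega
  · intro i hi
    by_contra hcon
    push Not at hcon
    have h1 := hcnt (-psum 0 l i)
    rw [Finset.sum_eq_zero (fun m hm => if_neg (fun h2 => hcon m (Finset.mem_range.mp hm)
      (neg_injective h2).symm))] at h1
    have h3 : (∑ m ∈ Finset.range M, (if -psum 0 l m = -psum 0 l i
        then (1 : ℂ) else 0)) = ((∑ m ∈ Finset.range M, (if -psum 0 l m = -psum 0 l i
        then (1 : ℕ) else 0) : ℕ) : ℂ) := by push_cast; rfl
    rw [h3] at h1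
    have h4 : (∑ m ∈ Finset.range M, (if -psum 0 l m = -psum 0 l i
        then (1 : ℕ) else 0)) = 0 := by exact_mod_cast h1.symm
    have h5 : 0 < ∑ m ∈ Finset.range M, (if -psum 0 l m = -psum 0 l i
        then (1 : ℕ) else 0) := by
      apply Finset.sum_pos'
      · intro i _; positivity
      · exact ⟨i, Finset.mem_range.mpr hi, by simp⟩
    omega

/-- Case `N < c`. -/
theorem caseC_gen (h : ThChain N c (fun _ => k) M th v) (h' : ThChain N c l M th' v')
    (e1 : th M = th' M) (e2 : v (M + 1) = v' (M + 1)) (hN : N ≠ 0) (hc : N < c)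
    (hz : z ^ (c - N) = 1) (hn : z ^ n₀ ≠ 1) (hk : Inv z n₀ k) (hl : ∀ i ≤ M, Inv z n₀ (l i))
    (hK : coeff 0 k ≠ 0) (hM : 0 < M) (h0 : psum 0 l 0 = psum 0 (fun _ => k) 0) :
    coeff n₀ (l 0) = coeff n₀ k ∧ (coeff n₀ k = 0 → ∀ j ≤ M, coeff n₀ (l j) = 0) := by
  classical
  obtain ⟨hinj, hinj', hsurj⟩ := D_props h h' e1 hN hc hK
  have hfib := fiber_sum M _ _ _ _ (moments_n h h' e1 hN hc hz hk hl hn)
  have right : ∀ i < M, ∑ m ∈ Finset.range M, (if -psum 0 l m = -psum 0 l i
        then psum n₀ l m else 0) = psum n₀ l i := by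
    intro i hi
    rw [Finset.sum_eq_single i]
    · rw [if_pos rfl]
    · intro m hm hmi
      rw [if_neg]
      intro h2
      exact hmi (hinj' m (Finset.mem_range.mp hm) i hi (neg_injective h2))
    · intro h2; exact absurd (Finset.mem_range.mpr hi) h2
  refine ⟨?_, ?_⟩
  · have h1 := hfib (-psum 0 l 0)
    rw [right 0 hM, h0, Finset.sum_eq_single 0] at h1
    · rw [if_pos rfl, psum_const] at h1
      rw [psum, Finset.sum_range_one] at h1
      rw [← h1]; push_cast; ring
    · intro m _ hm0
      rw [if_neg]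
      intro h2
      exact hm0 (hinj _ _ (neg_injective h2))
    · intro h2; exact absurd (Finset.mem_range.mpr hM) h2
  · intro hk0
    have h3 : ∀ j, psum n₀ (fun _ => k) j = 0 := by
      intro j; rw [psum_const, hk0, mul_zero]
    apply psum_zero_all
    intro i hi
    rcases Nat.lt_or_ge i M with h4 | h4
    · have h1 := hfib (-psum 0 l i)
      rw [right i h4, Finset.sum_eq_zero (fun m _ => by rw [h3 m, ite_self])] at h1
      exact h1.symm
    · have : i = M := by omega
      subst this
      rw [← psum_M_n h h' e2 hN hc hz hk hl hn, h3]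

end caseC2

/-- **Main theorem of the algebraic part.**  If two chains, one with the constant function
`k(w)/w^c` and one with functions `l_i(w)/w^c`, have the same ends, and `l_0` is the image of `k`
under the monodromy `w ↦ z w`, then `l_0 = k`. -/
theorem alg_core {N c M : ℕ} (hN : N ≠ 0) (hc : N ≤ c) {z : ℂ} (hz : z ^ N = 1)
    {k : PowerSeries ℂ} {l : ℕ → PowerSeries ℂ}
    (hl0 : ∀ n, coeff n (l 0) * z ^ c = z ^ n * coeff n k) {th v th' v' : ℕ → W}
    (h : ThChain N c (fun _ => k) M th v) (h' : ThChain N c l M th' v')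
    (e1 : th M = th' M) (e2 : v (M + 1) = v' (M + 1))
    (hex : N < c → coeff 0 k ≠ 0 ∨ ∃ i ≤ M, coeff 0 (l i) ≠ 0) : l 0 = k := by
  classical
  by_contra hne
  -- it is enough to treat the situation with the information at the first bad index
  have main : z ^ c = 1 → (∀ n₀, z ^ n₀ ≠ 1 → Inv z n₀ k → (∀ i ≤ M, Inv z n₀ (l i)) →
      coeff n₀ (l 0) = coeff n₀ k ∧ (coeff n₀ k = 0 → ∀ j ≤ M, coeff n₀ (l j) = 0)) → False := by
    intro hzc H
    have hbad : ∃ n, z ^ n ≠ 1 ∧ (coeff n k ≠ 0 ∨ ∃ i ≤ M, coeff n (l i) ≠ 0) := by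
      by_contra hcon
      push Not at hcon
      apply hne
      ext n
      have h1 := hl0 n
      rw [hzc, mul_one] at h1
      by_cases h2 : z ^ n = 1
      · rw [h1, h2, one_mul]
      · rw [(hcon n h2).1, (hcon n h2).2 0 (Nat.zero_le _)]
    have hn := (Nat.find_spec hbad).1
    have hmin : ∀ m < Nat.find hbad, z ^ m ≠ 1 →
        coeff m k = 0 ∧ ∀ i ≤ M, coeff m (l i) = 0 := by
      intro m hm h2
      have := Nat.find_min hbad hm
      push Not at this
      exact this h2
    obtain ⟨h3, h4⟩ := H _ hn (fun m hm h2 => (hmin m hm h2).1)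
      (fun i hi m hm h2 => (hmin m hm h2).2 i hi)
    have h1 := hl0 (Nat.find hbad)
    rw [hzc, mul_one, h3] at h1
    have h5 : coeff (Nat.find hbad) k = 0 := by
      have h6 : (1 - z ^ Nat.find hbad) * coeff (Nat.find hbad) k = 0 := by
        linear_combination h1
      rcases mul_eq_zero.mp h6 with h7 | h7
      · exact absurd (by linear_combination -h7) hn
      · exact h7
    rcases (Nat.find_spec hbad).2 with h6 | ⟨i, hi, h6⟩
    · exact h6 h5
    · exact h6 (h4 h5 i hi)
  rcases Nat.eq_or_lt_of_le hc with rfl | hlt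
  · -- `c = N`
    refine main hz fun n₀ hn hk hl => ?_
    by_cases hr : coeff 0 k = -1
    · have := caseN_neg h h' e1 e2 hN hn hk hl hr
      exact ⟨this 0 (Nat.zero_le _), fun h0 j hj => by rw [this j hj, h0]⟩
    · refine caseN_gen h h' e1 e2 hN ?_ hn hk hl hr
      rintro ⟨m, rfl⟩
      exact hn (by rw [pow_mul, hz, one_pow])
  · rcases Nat.eq_zero_or_pos M with rfl | hM
    · -- `M = 0`
      apply hne
      have h1 := h.eps_mul (le_refl 0)
      have h2 := h'.eps_mul (le_refl 0)
      have h3 := h.sum_eps_eq h' e2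
      rw [Finset.sum_range_one, Finset.sum_range_one] at h3
      rw [h.th0] at h1
      rw [h'.th0, ← h3] at h2
      rw [h1] at h2
      ext n
      have h4 := congrArg (coeff n) h2
      rw [kev_one_coeff, kev_one_coeff] at h4
      exact (C_inj h4).symm
    · have hK : coeff 0 k ≠ 0 := by
        intro hK
        have hD : ∀ j, psum 0 (fun _ => k) j = 0 := by
          intro j; rw [psum_const, hK, mul_zero]
        have hcnt := fiber_sum M _ _ _ _ (moments_zero h h' e1 hN hlt)
        have hD' : ∀ i ≤ M, psum 0 l i = 0 := by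
          intro i hi
          rcases Nat.lt_or_ge i M with h4 | h4
          · by_contra hne2
            have h1 := hcnt (-psum 0 l i)
            rw [Finset.sum_eq_zero (fun m _ => if_neg (fun h2 => hne2 (by
              rw [← neg_injective h2, hD m])))] at h1
            have h3 : (∑ m ∈ Finset.range M, (if -psum 0 l m = -psum 0 l i
                then (1 : ℂ) else 0)) = ((∑ m ∈ Finset.range M, (if -psum 0 l m = -psum 0 l i
                then (1 : ℕ) else 0) : ℕ) : ℂ) := by push_cast; rfl
            rw [h3] at h1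
            have h4' : (∑ m ∈ Finset.range M, (if -psum 0 l m = -psum 0 l i
                then (1 : ℕ) else 0)) = 0 := by exact_mod_cast h1.symm
            have h5 : 0 < ∑ m ∈ Finset.range M, (if -psum 0 l m = -psum 0 l i
                then (1 : ℕ) else 0) := by
              apply Finset.sum_pos'
              · intro i _; positivity
              · exact ⟨i, Finset.mem_range.mpr h4, by simp⟩
            omega
          · have : i = M := by omega
            subst this
            rw [← psum_M_zero h h' e2 hN hlt, hD]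
        rcases hex hlt with h1 | ⟨i, hi, h1⟩
        · exact h1 hK
        · exact h1 (psum_zero_all hD' i hi)
      obtain ⟨hinj, hinj', hsurj⟩ := D_props h h' e1 hN hlt hK
      obtain ⟨j, hj, hj2⟩ := hsurj 0 hM
      have h1 := hl0 0
      rw [pow_zero, one_mul] at h1
      have h2 : coeff 0 (l 0) = (j + 1) * coeff 0 k := by
        rw [psum_const] at hj2
        rw [← hj2, psum, Finset.sum_range_one]
      rw [h2] at h1
      have h3 : ((j : ℂ) + 1) * z ^ c = 1 := by
        apply mul_right_cancel₀ hK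
        linear_combination h1
      have hnorm : ‖z‖ = 1 := by
        have h4 : ‖z‖ ^ N = 1 := by rw [← norm_pow, hz, norm_one]
        exact (pow_eq_one_iff_of_nonneg (norm_nonneg _) hN).mp h4
      have h4 : ‖((j : ℂ) + 1)‖ = 1 := by
        have h5 := congrArg norm h3
        rw [norm_mul, norm_pow, hnorm, one_pow, mul_one, norm_one] at h5
        exact h5
      have hj0 : j = 0 := by
        have h5 : ((j : ℂ) + 1) = ((j + 1 : ℕ) : ℂ) := by push_cast; ring
        rw [h5, Complex.norm_natCast] at h4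
        have : j + 1 = 1 := by exact_mod_cast h4
        omega
      subst hj0
      have hzc : z ^ c = 1 := by
        rw [← h3]; push_cast; ring
      have hzcN : z ^ (c - N) = 1 := by
        have h5 : z ^ c = z ^ (c - N) * z ^ N := by
          rw [← pow_add]; congr 1; omega
        rw [hz, mul_one] at h5
        rw [← h5, hzc]
      refine main hzc fun n₀ hn hk hl => ?_
      exact caseC_gen h h' e1 e2 hN hlt hzcN hn hk hl hK hM hj2

end Pool.Agent.LAT
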