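import Pool.Agent.Lib.MP_ae5b4e_an_LAT.AlgIndep

/-!
# The radicals `∏ ((1 + (a + 1) y) / (1 + a y)) ^ (n / N)`
-/

namespace Pool.Agent.LAT

open PowerSeries

/-- `1 + b T`. -/
noncomputable def lin (b : ℂ) : Polynomial ℂ := 1 + Polynomial.C b * Polynomial.X

theorem lin_ne_zero (b : ℂ) : lin b ≠ 0 := by
  intro h
  have := congrArg (Polynomial.eval 0) h
  simp [lin] at this

theorem count_lin {x : ℂ} (hx : x ≠ 0) (b : ℂ) :
    (lin b).roots.count (-x⁻¹) = if b = x then 1 else 0 := by
  classical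
  by_cases hb : b = 0
  · subst hb
    have : lin 0 = Polynomial.C 1 := by simp [lin]
    rw [this, Polynomial.roots_C, if_neg (Ne.symm hx)]
    simp
  · have h1 : lin b = Polynomial.C b * (Polynomial.X - Polynomial.C (-b⁻¹)) := by
      rw [lin, mul_sub, ← Polynomial.C_mul]
      have : b * -b⁻¹ = -1 := by field_simp
      rw [this, map_neg, map_one]
      ring
    rw [h1, Polynomial.roots_C_mul _ hb, Polynomial.roots_X_sub_C, Multiset.count_singleton]
    congr 1
    rw [eq_iff_iff]
    constructor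
    · intro h
      have := neg_injective h
      exact (inv_injective this).symm
    · rintro rfl; rfl

theorem count_prod_lin {ι : Type*} {x : ℂ} (hx : x ≠ 0) (A : Finset ι) (g : ι → ℂ) :
    (∏ a ∈ A, lin (g a)).roots.count (-x⁻¹) = ∑ a ∈ A, if g a = x then 1 else 0 := by
  classical
  induction A using Finset.induction_on with
  | empty => simp
  | insert a s ha ih =>
    rw [Finset.prod_insert ha, Finset.sum_insert ha, Polynomial.roots_mul, Multiset.count_add, ih,
      count_lin hx]
    exact mul_ne_zero (lin_ne_zero _) (Finset.prod_ne_zero_iff.mpr fun _ _ => lin_ne_zero _)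

theorem prod_lin_ne_zero {ι : Type*} (A : Finset ι) (g : ι → ℂ) : ∏ a ∈ A, lin (g a) ≠ 0 :=
  Finset.prod_ne_zero_iff.mpr fun _ _ => lin_ne_zero _

/-- indicator -/
noncomputable def ind (A : Finset ℂ) (x : ℂ) : ℤ := by
  classical exact if x ∈ A then 1 else 0

theorem count_u {x : ℂ} (hx : x ≠ 0) (A : Finset ℂ) :
    ((∏ a ∈ A, lin (a + 1)).roots.count (-x⁻¹) : ℤ) = ind A (x - 1) := by
  classical
  rw [count_prod_lin hx, ind]
  push_cast
  by_cases h : x - 1 ∈ A
  · rw [if_pos h, Finset.sum_eq_single (x - 1)]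
    · simp
    · intro b _ hb
      rw [if_neg]
      intro h2
      exact hb (by rw [← h2]; ring)
    · intro h2; exact absurd h h2
  · rw [if_neg h]
    refine Finset.sum_eq_zero fun b hb => ?_
    rw [if_neg]
    rintro rfl
    apply h
    simpa using hb

theorem count_v {x : ℂ} (hx : x ≠ 0) (A : Finset ℂ) :
    ((∏ a ∈ A, lin a).roots.count (-x⁻¹) : ℤ) = ind A x := by
  classical
  rw [count_prod_lin hx A (fun a => a), ind]
  push_cast
  by_cases h : x ∈ A
  · rw [if_pos h, Finset.sum_eq_single x]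
    · simp
    · intro b _ hb
      rw [if_neg hb]
    · intro h2; exact absurd h h2
  · rw [if_neg h]
    refine Finset.sum_eq_zero fun b hb => ?_
    rw [if_neg]
    rintro rfl
    exact h hb

/-- A finitely supported function which is periodic modulo `N` away from `0` vanishes mod `N`. -/
theorem periodic_zero (φ : ℂ → ℤ) (T : Finset ℂ) (hT : ∀ x, x ∉ T → φ x = 0) (N m : ℤ)
    (H : ∀ x : ℂ, x ≠ 0 → N ∣ m * (φ (x - 1) - φ x))
    (x : ℂ) : N ∣ m * φ x := by
  classical
  have hfin : ∀ e : ℂ, e ≠ 0 → ∃ K : ℕ, φ (x + K * e) = 0 := by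
    intro e he
    by_contra hcon
    push Not at hcon
    have hinj : Function.Injective fun K : ℕ => x + K * e := by
      intro a b hab
      simp only at hab
      have h1 : (a : ℂ) * e = b * e := by linear_combination hab
      exact_mod_cast mul_right_cancel₀ he h1
    have hsub : Set.range (fun K : ℕ => x + K * e) ⊆ (T : Set ℂ) := by
      rintro _ ⟨K, rfl⟩
      by_contra h
      exact hcon K (hT _ h)
    exact (Set.infinite_range_of_injective hinj) ((Finset.finite_toSet _).subset hsub)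
  by_cases hx : ∃ q : ℕ, x = -((q : ℂ) + 1)
  · -- go down
    obtain ⟨q, hq⟩ := hx
    obtain ⟨K, hK⟩ := hfin (-1) (by norm_num)
    have step : ∀ i : ℕ, N ∣ m * φ x - m * φ (x - i) := by
      intro i
      induction i with
      | zero => simp
      | succ i ih =>
        have h1 := H (x - i) (by
          rw [hq]
          intro h
          have : ((q + 1 + i : ℕ) : ℂ) = 0 := by
            push_cast
            linear_combination -h
          rw [Nat.cast_eq_zero] at this
          omega)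
        have h2 : x - ((i + 1 : ℕ) : ℂ) = x - i - 1 := by push_cast; ring
        rw [h2]
        obtain ⟨c1, hc1⟩ := ih
        obtain ⟨c2, hc2⟩ := h1
        exact ⟨c1 - c2, by linear_combination hc1 - hc2⟩
    have h3 := step K
    have h4 : x - (K : ℂ) = x + K * (-1) := by ring
    rw [h4, hK] at h3
    simpa using h3
  · -- go up
    push Not at hx
    obtain ⟨K, hK⟩ := hfin 1 one_ne_zero
    have step : ∀ i : ℕ, N ∣ m * φ x - m * φ (x + i) := by
      intro i
      induction i with
      | zero => simp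
      | succ i ih =>
        have h1 := H (x + ((i + 1 : ℕ) : ℂ)) (by
          intro h
          apply hx i
          push_cast at h
          linear_combination h)
        have h2 : x + ((i + 1 : ℕ) : ℂ) - 1 = x + i := by push_cast; ring
        rw [h2] at h1
        obtain ⟨c1, hc1⟩ := ih
        obtain ⟨c2, hc2⟩ := h1
        exact ⟨c1 + c2, by linear_combination hc1 + hc2⟩
    have h3 := step K
    have h4 : x + (K : ℂ) = x + K * 1 := by ring
    rw [h4, hK] at h3
    simpa using h3

/-- Radicals of different finite sets have a non-rational ratio. -/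
theorem rad_ratio {N n : ℕ} (hnN : ¬ N ∣ n) {A B : Finset ℂ} (hAB : A ≠ B)
    {f g : PowerSeries ℂ}
    (hf : f ^ N * ((∏ a ∈ A, lin a : Polynomial ℂ) : PowerSeries ℂ) ^ n =
      ((∏ a ∈ A, lin (a + 1) : Polynomial ℂ) : PowerSeries ℂ) ^ n)
    (hg : g ^ N * ((∏ a ∈ B, lin a : Polynomial ℂ) : PowerSeries ℂ) ^ n =
      ((∏ a ∈ B, lin (a + 1) : Polynomial ℂ) : PowerSeries ℂ) ^ n)
    (p q : Polynomial ℂ) (hp : p ≠ 0) (hq : q ≠ 0) :
    (p : PowerSeries ℂ) * f ≠ (q : PowerSeries ℂ) * g := by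
  classical
  intro h
  set UA := ∏ a ∈ A, lin (a + 1) with hUA
  set VA := ∏ a ∈ A, lin a with hVA
  set UB := ∏ a ∈ B, lin (a + 1) with hUB
  set VB := ∏ a ∈ B, lin a with hVB
  have hUA0 : UA ≠ 0 := prod_lin_ne_zero _ _
  have hUB0 : UB ≠ 0 := prod_lin_ne_zero _ _
  have hVA0 : VA ≠ 0 := prod_lin_ne_zero A (fun a => a)
  have hVB0 : VB ≠ 0 := prod_lin_ne_zero B (fun a => a)
  have h1 : p ^ N * (UA ^ n * VB ^ n) = q ^ N * (UB ^ n * VA ^ n) := by
    rw [← Polynomial.coe_inj]
    simp only [Polynomial.coe_mul, Polynomial.coe_pow]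
    rw [← hf, ← hg]
    have : (p : PowerSeries ℂ) ^ N * f ^ N = (q : PowerSeries ℂ) ^ N * g ^ N := by
      rw [← mul_pow, ← mul_pow, h]
    linear_combination ((VA : PowerSeries ℂ) ^ n * (VB : PowerSeries ℂ) ^ n) * this
  have H : ∀ x : ℂ, x ≠ 0 →
      (N : ℤ) ∣ (n : ℤ) * ((ind A (x - 1) - ind B (x - 1)) - (ind A x - ind B x)) := by
    intro x hx
    have h2 := congrArg (fun r : Polynomial ℂ => (r.roots.count (-x⁻¹) : ℤ)) h1
    rw [Polynomial.roots_mul (mul_ne_zero (pow_ne_zero _ hp)
        (mul_ne_zero (pow_ne_zero _ hUA0) (pow_ne_zero _ hVB0))),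
      Polynomial.roots_mul (mul_ne_zero (pow_ne_zero _ hUA0) (pow_ne_zero _ hVB0)),
      Polynomial.roots_mul (mul_ne_zero (pow_ne_zero _ hq)
        (mul_ne_zero (pow_ne_zero _ hUB0) (pow_ne_zero _ hVA0))),
      Polynomial.roots_mul (mul_ne_zero (pow_ne_zero _ hUB0) (pow_ne_zero _ hVA0))] at h2
    simp only [Polynomial.roots_pow, Multiset.count_add, Multiset.count_nsmul] at h2
    push_cast at h2
    rw [hUA, hUB, hVA, hVB, count_u hx, count_u hx, count_v hx, count_v hx] at h2
    refine ⟨(q.roots.count (-x⁻¹) : ℤ) - (p.roots.count (-x⁻¹) : ℤ), ?_⟩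
    linear_combination h2
  have H2 := periodic_zero (fun x => ind A x - ind B x) (A ∪ B) (by
    intro x hx
    rw [Finset.mem_union, not_or] at hx
    simp only [ind]
    rw [if_neg hx.1, if_neg hx.2, sub_zero]) N n H
  apply hAB
  ext x
  have h3 := H2 x
  by_cases hxA : x ∈ A <;> by_cases hxB : x ∈ B
  · simp [hxA, hxB]
  · exfalso
    rw [ind, ind, if_pos hxA, if_neg hxB] at h3
    simp only [sub_zero, mul_one] at h3
    exact hnN (by exact_mod_cast h3)
  · exfalso
    rw [ind, ind, if_neg hxA, if_pos hxB] at h3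
    simp only [zero_sub, mul_neg, mul_one, dvd_neg] at h3
    exact hnN (by exact_mod_cast h3)
  · simp [hxA, hxB]

theorem coe_lin (b : ℂ) : ((lin b : Polynomial ℂ) : PowerSeries ℂ) = 1 + C b * X := by
  simp [lin]

theorem coe_prod_lin {ι : Type*} (A : Finset ι) (g : ι → ℂ) :
    ((∏ a ∈ A, lin (g a) : Polynomial ℂ) : PowerSeries ℂ) = ∏ a ∈ A, (1 + C (g a) * X) := by
  have : ((∏ a ∈ A, lin (g a) : Polynomial ℂ) : PowerSeries ℂ) =
      Polynomial.coeToPowerSeries.ringHom (∏ a ∈ A, lin (g a)) := rfl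
  rw [this, map_prod]
  refine Finset.prod_congr rfl fun a _ => ?_
  exact coe_lin (g a)

/-- One radical. -/
noncomputable def rho (N : ℕ) (a : ℂ) : PowerSeries ℂ :=
  rescale (a + 1) (PowerSeries.binomialSeries ℂ ((N : ℂ)⁻¹)) * rescale a (PowerSeries.binomialSeries ℂ (-(N : ℂ)⁻¹))

theorem binom_pow (N : ℕ) (r : ℂ) (m : ℕ) :
    (PowerSeries.binomialSeries ℂ r) ^ m = PowerSeries.binomialSeries ℂ (m * r) := by
  induction m with
  | zero => simp
  | succ m ih =>
    rw [pow_succ, ih, ← binomialSeries_add]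
    push_cast
    ring_nf

theorem binom_one : PowerSeries.binomialSeries ℂ (1 : ℂ) = 1 + X := by
  have := binomialSeries_nat (R := ℂ) (A := ℂ) 1
  simpa using this

theorem rho_pow {N : ℕ} (hN : N ≠ 0) (a : ℂ) :
    rho N a ^ N * (1 + C a * X) = 1 + C (a + 1) * X := by
  have hN' : (N : ℂ) ≠ 0 := Nat.cast_ne_zero.mpr hN
  have hr : ∀ b : ℂ, rescale b (1 + X : PowerSeries ℂ) = 1 + C b * X := by
    intro b
    rw [map_add, map_one, rescale_X]
  rw [rho, mul_pow, ← map_pow, ← map_pow, binom_pow N, binom_pow N, mul_inv_cancel₀ hN',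
    mul_neg, mul_inv_cancel₀ hN', binom_one, hr, mul_assoc, ← hr a, ← map_mul]
  have : PowerSeries.binomialSeries ℂ (-1 : ℂ) * (1 + X) = 1 := by
    rw [← binom_one, ← binomialSeries_add]
    simp
  rw [this, map_one, mul_one]

theorem rho_cc (N : ℕ) (a : ℂ) : constantCoeff (rho N a) = 1 := by
  rw [rho, map_mul]
  have h : ∀ (b : ℂ) (u : PowerSeries ℂ), constantCoeff (rescale b u) = constantCoeff u := by
    intro b u
    rw [← PowerSeries.coeff_zero_eq_constantCoeff_apply, PowerSeries.coeff_rescale, pow_zero,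
      one_mul, PowerSeries.coeff_zero_eq_constantCoeff_apply]
  rw [h, h]
  simp

/-- The radical of a finite set. -/
noncomputable def rad (N : ℕ) (A : Finset ℂ) : PowerSeries ℂ := ∏ a ∈ A, rho N a

theorem rad_cc (N : ℕ) (A : Finset ℂ) : constantCoeff (rad N A) = 1 := by
  rw [rad, map_prod]
  exact Finset.prod_eq_one fun a _ => rho_cc N a

theorem rad_pow {N : ℕ} (hN : N ≠ 0) (A : Finset ℂ) :
    rad N A ^ N * ∏ a ∈ A, (1 + C a * X) = ∏ a ∈ A, (1 + C (a + 1) * X) := by
  rw [rad, ← Finset.prod_pow, ← Finset.prod_mul_distrib]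
  exact Finset.prod_congr rfl fun a _ => rho_pow hN a

theorem rad_ne_zero (N : ℕ) (A : Finset ℂ) : rad N A ≠ 0 := by
  intro h
  have := rad_cc N A
  rw [h, map_zero] at this
  exact zero_ne_one this

/-- The logarithmic derivative of a radical is rational. -/
theorem rad_deriv {N : ℕ} (hN : N ≠ 0) (n : ℕ) (A : Finset ℂ) :
    (((Polynomial.C (N : ℂ)) * ((∏ a ∈ A, lin a) * ∏ a ∈ A, lin (a + 1)) : Polynomial ℂ) :
      PowerSeries ℂ) * derivative ℂ (rad N A ^ n) =
    ((Polynomial.C (n : ℂ) * (Polynomial.derivative (∏ a ∈ A, lin (a + 1)) * (∏ a ∈ A, lin a) -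
      (∏ a ∈ A, lin (a + 1)) * Polynomial.derivative (∏ a ∈ A, lin a)) : Polynomial ℂ) :
        PowerSeries ℂ) * rad N A ^ n := by
  set U := ∏ a ∈ A, lin (a + 1) with hU
  set V := ∏ a ∈ A, lin a with hV
  set f := rad N A with hf
  have h1 : f ^ N * (V : PowerSeries ℂ) = (U : PowerSeries ℂ) := by
    rw [hU, hV, coe_prod_lin A (fun a => a + 1), coe_prod_lin A (fun a => a)]
    exact rad_pow hN A
  have hV0 : (V : PowerSeries ℂ) ≠ 0 := by
    simpa using prod_lin_ne_zero A (fun a => a)
  have h2 := congrArg (derivative ℂ) h1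
  rw [Derivation.leibniz, PowerSeries.derivative_coe, PowerSeries.derivative_coe] at h2
  simp only [smul_eq_mul] at h2
  obtain ⟨m, rfl⟩ := Nat.exists_eq_succ_of_ne_zero hN
  rw [PowerSeries.derivative_pow] at h2
  have hf0 : f ≠ 0 := rad_ne_zero _ _
  -- first for `n = 1`
  have h3 : ((m.succ : ℂ) • ((V : PowerSeries ℂ) * (U : PowerSeries ℂ))) * derivative ℂ f =
      ((Polynomial.derivative U * V - U * Polynomial.derivative V : Polynomial ℂ) :
        PowerSeries ℂ) * f := by
    simp only [Polynomial.coe_mul, Polynomial.coe_sub]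
    have e0 : (C ((m.succ : ℕ) : ℂ) : PowerSeries ℂ) = ((m.succ : ℕ) : PowerSeries ℂ) := by
      simp
    rw [← h2, ← h1, PowerSeries.smul_eq_C_mul, e0]
    simp only [Nat.succ_eq_add_one, Nat.add_sub_cancel]
    push_cast
    ring
  cases n with
  | zero => simp
  | succ n =>
    rw [PowerSeries.derivative_pow]
    simp only [Polynomial.coe_mul, Polynomial.coe_C, Nat.add_sub_cancel]
    simp only [Polynomial.coe_mul, Polynomial.coe_sub, PowerSeries.smul_eq_C_mul] at h3
    simp only [Polynomial.coe_mul, Polynomial.coe_sub]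
    have e1 : (C (((n + 1 : ℕ) : ℂ)) : PowerSeries ℂ) = ((n + 1 : ℕ) : PowerSeries ℂ) := by
      simp
    rw [e1]
    linear_combination (((n + 1 : ℕ) : PowerSeries ℂ) * f ^ n) * h3

end Pool.Agent.LAT
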