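import Pool.Agent.Lib.MP_ae5b4e_an_LAT.NDPl

/-!
# The local problem ND: uniform bounds at a place, abstract form (problem `MP_ae5b4e_an`)

Local bounds `‖slope n‖ ≤ C ^ n` near every point of the punctured disc and the maximum principle
give bounds for the coefficients `b n` on a smaller disc.
-/

namespace Pool.Agent.MP_ae5b4e_an_ND

open Filter Topology

/-- Local bounds on the punctured disc and the maximum principle. -/
theorem place_series_of {e : ℂ} {N P : ℕ} {κ h : ℂ → ℂ} {δ : ℝ} (hp : PlaceOK e N κ δ)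
    (hNP : N ≤ P) (hh : DifferentiableOn ℂ h (Metric.ball 0 δ))
    (hκ : ∀ w, w ≠ 0 → ‖w‖ < δ → κ w = h w / w ^ P)
    {b : ℕ → ℂ → ℂ} (hb0 : ∀ w, b 0 w = 0) (hb1 : ∀ w, ‖w‖ < δ → b 1 w = - h w)
    (hbd : ∀ n, DifferentiableOn ℂ (b n) (Metric.ball 0 δ))
    (hbe : ∀ n w, w ≠ 0 → ‖w‖ < δ → slope (vN N) κ n w = b n w / w ^ (P * n))
    (hloc : ∀ w₁ : ℂ, w₁ ≠ 0 → ‖w₁‖ < δ → ∃ ρ > 0, ∃ C : ℝ, ∀ n w, ‖w - w₁‖ < ρ →
      ‖slope (vN N) κ n w‖ ≤ C ^ n) :
    ∃ δ' > 0, δ' < δ ∧ ∃ C, PlaceSeries N κ δ' P h b C := by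
  have hδ := hp.δ_pos
  set δ' : ℝ := δ / 2 with hδ'
  have hδ'pos : 0 < δ' := by positivity
  have hδ'lt : δ' < δ := by rw [hδ']; linarith
  -- a uniform bound on the circle
  have hcpt : IsCompact (Metric.sphere (0 : ℂ) δ') := isCompact_sphere _ _
  have hunif : ∃ C : ℝ, 0 < C ∧ ∀ w ∈ Metric.sphere (0 : ℂ) δ', ∀ n,
      ‖slope (vN N) κ n w‖ ≤ C ^ n := by
    refine hcpt.induction_on (p := fun s => ∃ C : ℝ, 0 < C ∧ ∀ w ∈ s, ∀ n,
      ‖slope (vN N) κ n w‖ ≤ C ^ n) ?_ ?_ ?_ ?_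
    · exact ⟨1, one_pos, fun w hw => absurd hw (Set.notMem_empty w)⟩
    · rintro s t hst ⟨C, hC, h⟩
      exact ⟨C, hC, fun w hw => h w (hst hw)⟩
    · rintro s t ⟨C, hC, h⟩ ⟨D, hD, h'⟩
      refine ⟨max C D, lt_max_of_lt_left hC, ?_⟩
      rintro w (hw | hw) n
      · exact (h w hw n).trans (pow_le_pow_left₀ hC.le (le_max_left _ _) n)
      · exact (h' w hw n).trans (pow_le_pow_left₀ hD.le (le_max_right _ _) n)
    · intro w₁ hw₁
      have h1 : ‖w₁‖ = δ' := by simpa using hw₁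
      have h2 : w₁ ≠ 0 := by
        intro h0
        rw [h0, norm_zero] at h1
        linarith
      obtain ⟨ρ, hρ, C, hC⟩ := hloc w₁ h2 (h1 ▸ hδ'lt)
      refine ⟨Metric.ball w₁ ρ, mem_nhdsWithin_of_mem_nhds (Metric.ball_mem_nhds w₁ hρ),
        |C| + 1, by positivity, ?_⟩
      intro w hw n
      have hw' : ‖w - w₁‖ < ρ := by
        rw [← dist_eq_norm]; exact hw
      refine (hC n w hw').trans ((le_abs_self _).trans ?_)
      rw [abs_pow]
      exact pow_le_pow_left₀ (abs_nonneg C) (by linarith) n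
  obtain ⟨C, hC, hCb⟩ := hunif
  refine ⟨δ', hδ'pos, hδ'lt, C * δ' ^ P, ?_⟩
  refine ⟨hp.N_pos, hδ'pos, by positivity, hNP, ?_, ?_, ?_, ?_, hb0, ?_, ?_⟩
  · exact hh.mono (Metric.ball_subset_ball hδ'lt.le)
  · intro w hw hwn
    exact hκ w hw (hwn.trans hδ'lt)
  · intro n
    exact (hbd n).mono (Metric.ball_subset_ball hδ'lt.le)
  · intro n w hw hwn
    exact hbe n w hw (hwn.trans hδ'lt)
  · intro w hwn
    exact hb1 w (hwn.trans hδ'lt)
  · intro n w hwn
    have hcl : closure (Metric.ball (0 : ℂ) δ') ⊆ Metric.ball 0 δ := by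
      refine Metric.closure_ball_subset_closedBall.trans ?_
      exact Metric.closedBall_subset_ball hδ'lt
    have hdc : DiffContOnCl ℂ (b n) (Metric.ball 0 δ') :=
      DifferentiableOn.diffContOnCl ((hbd n).mono hcl)
    refine Complex.norm_le_of_forall_mem_frontier_norm_le Metric.isBounded_ball hdc ?_
      (subset_closure (by simpa using hwn))
    intro z hz
    have hz' : z ∈ Metric.sphere (0 : ℂ) δ' := Metric.frontier_ball_subset_sphere hz
    have h1 : ‖z‖ = δ' := by simpa using hz'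
    have h2 : z ≠ 0 := by
      intro h0
      rw [h0, norm_zero] at h1
      linarith
    have h3 := hbe n z h2 (h1 ▸ hδ'lt)
    have h4 := hCb z hz' n
    have hzp : z ^ (P * n) ≠ 0 := pow_ne_zero _ h2
    have h5 : b n z = slope (vN N) κ n z * z ^ (P * n) := by
      rw [h3]; field_simp
    rw [h5, norm_mul, norm_pow, h1, mul_pow, ← pow_mul]
    exact mul_le_mul_of_nonneg_right h4 (by positivity)

end Pool.Agent.MP_ae5b4e_an_ND
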