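import Mathlib

/-!
# Linear algebra of a finite order permutation

For a permutation `π` of `Fin n` with `π ^ N = 1` and a primitive `N`-th root of unity `z`,
`Pm m` is the projection on the eigenspace of `z ^ m`, and `K(w) = ∑ w ^ m P_m`.
-/

namespace Pool.Agent.LAT.RH

open Finset

/-- The projection on the eigenspace of `z ^ m`. -/
noncomputable def Pm {n : ℕ} (N : ℕ) (z : ℂ) (π : Equiv.Perm (Fin n)) (m : ℕ) :
    Matrix (Fin n) (Fin n) ℂ :=
  fun i j => (N : ℂ)⁻¹ * ∑ s ∈ range N, (z ^ (m * s))⁻¹ * (if (π ^ s) i = j then 1 else 0)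

variable {n N : ℕ} {z : ℂ} {π : Equiv.Perm (Fin n)}

theorem sum_root (hz : IsPrimitiveRoot z N) {a b : ℕ} (ha : a < N) (hb : b < N) :
    ∑ s ∈ range N, (z ^ (a * s))⁻¹ * z ^ (b * s) = if a = b then (N : ℂ) else 0 := by
  have hz0 : z ≠ 0 := hz.ne_zero (by omega)
  by_cases hab : a = b
  · subst hab
    rw [if_pos rfl]
    rw [sum_congr rfl (fun s _ => inv_mul_cancel₀ (pow_ne_zero _ hz0))]
    simp
  · rw [if_neg hab]
    have h1 : ∀ s ∈ range N, (z ^ (a * s))⁻¹ * z ^ (b * s) = ((z ^ a)⁻¹ * z ^ b) ^ s := by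
      intro s _
      rw [mul_pow, inv_pow, ← pow_mul, ← pow_mul]
    rw [sum_congr rfl h1]
    have h2 : (z ^ a)⁻¹ * z ^ b ≠ 1 := by
      intro h
      apply hab
      have h3 : z ^ a = z ^ b := by
        have := congrArg (z ^ a * ·) h
        simp only [mul_one] at this
        rw [← mul_assoc, mul_inv_cancel₀ (pow_ne_zero _ hz0), one_mul] at this
        exact this.symm
      exact hz.pow_inj ha hb h3
    have h3 : ((z ^ a)⁻¹ * z ^ b) ^ N = 1 := by
      rw [mul_pow, inv_pow, ← pow_mul, ← pow_mul, mul_comm a, mul_comm b, pow_mul, pow_mul,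
        hz.pow_eq_one, one_pow, one_pow, inv_one, one_mul]
    have h4 := geom_sum_mul ((z ^ a)⁻¹ * z ^ b) N
    rw [h3, sub_self] at h4
    rcases mul_eq_zero.mp h4 with h5 | h5
    · exact h5
    · exact absurd (sub_eq_zero.mp h5) h2

theorem Pm_apply_vec (hz : IsPrimitiveRoot z N) {u : Fin n → ℂ} {a m : ℕ} (ha : a < N)
    (hm : m < N) (hu : ∀ i, u (π i) = z ^ a * u i) (i : Fin n) :
    ∑ j, Pm N z π m i j * u j = if m = a then u i else 0 := by
  have hN : (N : ℂ) ≠ 0 := Nat.cast_ne_zero.mpr (by omega)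
  have hu2 : ∀ s, u ((π ^ s) i) = z ^ (a * s) * u i := by
    intro s
    induction s with
    | zero => simp
    | succ s ih =>
      rw [pow_succ', Equiv.Perm.mul_apply, hu, ih]
      ring
  have h1 : ∑ j, Pm N z π m i j * u j =
      (N : ℂ)⁻¹ * ((∑ s ∈ range N, (z ^ (m * s))⁻¹ * z ^ (a * s)) * u i) := by
    simp only [Pm]
    calc ∑ j, (N : ℂ)⁻¹ * (∑ s ∈ range N, (z ^ (m * s))⁻¹ * (if (π ^ s) i = j then 1 else 0)) * u j
        = (N : ℂ)⁻¹ * ∑ s ∈ range N, (z ^ (m * s))⁻¹ *
            ∑ j, (if (π ^ s) i = j then 1 else 0) * u j := by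
          simp only [mul_sum, sum_mul]
          rw [sum_comm]
          refine sum_congr rfl fun s _ => sum_congr rfl fun j _ => by ring
      _ = (N : ℂ)⁻¹ * ∑ s ∈ range N, (z ^ (m * s))⁻¹ * u ((π ^ s) i) := by
          congr 1
          refine sum_congr rfl fun s _ => ?_
          congr 1
          simp
      _ = _ := by
          congr 1
          rw [sum_mul]
          refine sum_congr rfl fun s _ => ?_
          rw [hu2 s]; ring
  rw [h1, sum_root hz hm ha]
  split_ifs with h
  · rw [← mul_assoc, inv_mul_cancel₀ hN, one_mul]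
  · ring

/-- The columns of `P_m` are eigenvectors. -/
theorem Pm_eigen (hz : IsPrimitiveRoot z N) (hN : 0 < N) (hπ : π ^ N = 1) (m : ℕ) (i j : Fin n) :
    Pm N z π m (π i) j = z ^ m * Pm N z π m i j := by
  have hz0 : z ≠ 0 := hz.ne_zero (by omega)
  set f : ℕ → ℂ := fun s => (z ^ (m * s))⁻¹ * (if (π ^ s) i = j then 1 else 0) with hf
  have hfN : f N = f 0 := by
    simp only [hf]
    rw [hπ, mul_comm m N, pow_mul, hz.pow_eq_one]
    simp
  have h1 : ∑ s ∈ range N, f (s + 1) = ∑ s ∈ range N, f s := by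
    have h2 := sum_range_succ f N
    have h3 := sum_range_succ' f N
    rw [h2] at h3
    rw [hfN] at h3
    exact (add_right_cancel h3).symm
  have h2 : Pm N z π m (π i) j = (N : ℂ)⁻¹ * (z ^ m * ∑ s ∈ range N, f (s + 1)) := by
    rw [Pm]
    congr 1
    rw [mul_sum]
    refine sum_congr rfl fun s _ => ?_
    simp only [hf]
    have : (π ^ s) (π i) = (π ^ (s + 1)) i := by
      rw [pow_succ, Equiv.Perm.mul_apply]
    have h0 : z ^ (m * (s + 1)) = z ^ (m * s) * z ^ m := by
      rw [mul_add, mul_one, pow_add]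
    rw [this, h0, mul_inv]
    have h3 : z ^ m * ((z ^ (m * s))⁻¹ * (z ^ m)⁻¹ * (if (π ^ (s + 1)) i = j then (1 : ℂ) else 0))
        = (z ^ m * (z ^ m)⁻¹) * ((z ^ (m * s))⁻¹ *
          (if (π ^ (s + 1)) i = j then (1 : ℂ) else 0)) := by ring
    rw [h3, mul_inv_cancel₀ (pow_ne_zero _ hz0), one_mul]
  rw [h2, h1, Pm]
  ring

/-- `∑ P_m = 1`. -/
theorem sum_Pm (hz : IsPrimitiveRoot z N) (hN : 0 < N) (i j : Fin n) :
    ∑ m ∈ range N, Pm N z π m i j = if i = j then 1 else 0 := by
  have hN' : (N : ℂ) ≠ 0 := Nat.cast_ne_zero.mpr (by omega)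
  have h1 : ∑ m ∈ range N, Pm N z π m i j = (N : ℂ)⁻¹ * ∑ s ∈ range N,
      (if (π ^ s) i = j then 1 else 0) * ∑ m ∈ range N, (z ^ (s * m))⁻¹ * z ^ (0 * m) := by
    simp only [Pm, mul_sum]
    rw [sum_comm]
    refine sum_congr rfl fun s _ => sum_congr rfl fun m _ => ?_
    rw [mul_comm m s]
    ring
  rw [h1, sum_congr rfl (fun s hs => by rw [sum_root hz (mem_range.mp hs) hN]),
    sum_eq_single 0]
  · rw [pow_zero, if_pos rfl, mul_comm _ (N : ℂ), ← mul_assoc, inv_mul_cancel₀ hN', one_mul]
    simp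
  · intro s _ hs
    rw [if_neg hs, mul_zero]
  · intro h; exact absurd (mem_range.mpr hN) h

/-- The transposed product. -/
theorem Pm_transpose_mul (hz : IsPrimitiveRoot z N) (hN : 0 < N) (hπ : π ^ N = 1) (m m' : ℕ)
    (i j : Fin n) :
    ∑ l, Pm N z π m l i * Pm N z π m' l j = if N ∣ m + m' then Pm N z π m' i j else 0 := by
  have hz0 : z ≠ 0 := hz.ne_zero (by omega)
  have hN' : (N : ℂ) ≠ 0 := Nat.cast_ne_zero.mpr (by omega)
  set u : Fin n → ℂ := fun l => Pm N z π m' l j with hu
  have hu1 : ∀ i, u (π i) = z ^ m' * u i := fun i => Pm_eigen hz hN hπ m' i j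
  have hu2 : ∀ s i, u ((π ^ s) i) = z ^ (m' * s) * u i := by
    intro s i
    induction s with
    | zero => simp
    | succ s ih =>
      rw [pow_succ', Equiv.Perm.mul_apply, hu1, ih]
      ring
  have h1 : ∀ s, ∑ l, (if (π ^ s) l = i then (1 : ℂ) else 0) * u l = (z ^ (m' * s))⁻¹ * u i := by
    intro s
    rw [sum_eq_single ((π ^ s).symm i)]
    · rw [Equiv.apply_symm_apply, if_pos rfl, one_mul]
      have h2 := hu2 s ((π ^ s).symm i)
      rw [Equiv.apply_symm_apply] at h2
      rw [h2, ← mul_assoc, inv_mul_cancel₀ (pow_ne_zero _ hz0), one_mul]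
    · intro l _ hl
      rw [if_neg, zero_mul]
      intro h2
      exact hl (by rw [← h2, Equiv.symm_apply_apply])
    · intro h; exact absurd (mem_univ _) h
  calc ∑ l, Pm N z π m l i * u l
      = (N : ℂ)⁻¹ * ∑ s ∈ range N, (z ^ (m * s))⁻¹ *
          ∑ l, (if (π ^ s) l = i then (1 : ℂ) else 0) * u l := by
        simp only [Pm, mul_sum, sum_mul]
        rw [sum_comm]
        refine sum_congr rfl fun s _ => sum_congr rfl fun l _ => by ring
    _ = (N : ℂ)⁻¹ * ((∑ s ∈ range N, (z ^ ((m + m') * s))⁻¹) * u i) := by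
        congr 1
        rw [sum_mul]
        refine sum_congr rfl fun s _ => ?_
        rw [h1 s, add_mul, pow_add, mul_inv]
        ring
    _ = _ := by
        by_cases hd : N ∣ m + m'
        · rw [if_pos hd]
          obtain ⟨q, hq⟩ := hd
          rw [sum_congr rfl (fun s _ => by
            rw [hq, mul_assoc, pow_mul, hz.pow_eq_one, one_pow, inv_one])]
          simp only [sum_const, card_range, nsmul_eq_mul, mul_one]
          rw [← mul_assoc, inv_mul_cancel₀ hN', one_mul]
        · rw [if_neg hd]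
          have h3 : z ^ (m + m') ≠ 1 := fun h => hd ((hz.pow_eq_one_iff_dvd _).mp h)
          have h4 : ∑ s ∈ range N, (z ^ ((m + m') * s))⁻¹ = 0 := by
            have h5 : ∀ s ∈ range N, (z ^ ((m + m') * s))⁻¹ = ((z ^ (m + m'))⁻¹) ^ s := by
              intro s _
              rw [inv_pow, ← pow_mul]
            rw [sum_congr rfl h5]
            have h6 := geom_sum_mul ((z ^ (m + m'))⁻¹) N
            have h7 : ((z ^ (m + m'))⁻¹) ^ N = 1 := by
              rw [inv_pow, ← pow_mul, mul_comm, pow_mul, hz.pow_eq_one, one_pow, inv_one]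
            rw [h7, sub_self] at h6
            rcases mul_eq_zero.mp h6 with h8 | h8
            · exact h8
            · exfalso
              apply h3
              have := sub_eq_zero.mp h8
              rwa [inv_eq_one] at this
          rw [h4]; ring

/-- The matrix `K(w)`. -/
noncomputable def Kw {n : ℕ} (N : ℕ) (z : ℂ) (π : Equiv.Perm (Fin n)) :
    Matrix (Fin n) (Fin n) (PowerSeries ℂ) :=
  fun i j => ∑ m ∈ range N, PowerSeries.X ^ m * PowerSeries.C (Pm N z π m i j)

/-- `P + t (1 - P)`. -/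
noncomputable def idem {A : Type*} [CommRing A] [Algebra ℂ A] (P : Matrix (Fin n) (Fin n) ℂ)
    (t : A) : Matrix (Fin n) (Fin n) A :=
  fun i j => algebraMap ℂ A (P i j) + t * algebraMap ℂ A ((1 - P) i j)

theorem Kw_transpose_mul (hz : IsPrimitiveRoot z N) (hN : 0 < N) (hπ : π ^ N = 1) :
    (Kw N z π).transpose * Kw N z π = idem (Pm N z π 0) ((PowerSeries.X : PowerSeries ℂ) ^ N) := by
  ext1 i j
  rw [Matrix.mul_apply]
  simp only [Matrix.transpose_apply, Kw, idem]
  have h1 : ∑ l, (∑ m ∈ range N, PowerSeries.X ^ m * PowerSeries.C (Pm N z π m l i)) *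
      (∑ m' ∈ range N, PowerSeries.X ^ m' * PowerSeries.C (Pm N z π m' l j)) =
      ∑ m ∈ range N, ∑ m' ∈ range N, (PowerSeries.X : PowerSeries ℂ) ^ (m + m') *
        PowerSeries.C (if N ∣ m + m' then Pm N z π m' i j else 0) := by
    calc _ = ∑ l, ∑ m ∈ range N, ∑ m' ∈ range N, (PowerSeries.X : PowerSeries ℂ) ^ (m + m') *
          PowerSeries.C (Pm N z π m l i * Pm N z π m' l j) := by
          refine sum_congr rfl fun l _ => ?_
          rw [sum_mul_sum]
          refine sum_congr rfl fun m _ => sum_congr rfl fun m' _ => ?_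
          rw [pow_add, map_mul]; ring
      _ = ∑ m ∈ range N, ∑ m' ∈ range N, ∑ l, (PowerSeries.X : PowerSeries ℂ) ^ (m + m') *
          PowerSeries.C (Pm N z π m l i * Pm N z π m' l j) := by
          rw [sum_comm]
          refine sum_congr rfl fun m _ => ?_
          rw [sum_comm]
      _ = _ := by
          refine sum_congr rfl fun m _ => sum_congr rfl fun m' _ => ?_
          rw [← mul_sum, ← map_sum, Pm_transpose_mul hz hN hπ]
  rw [h1]
  obtain ⟨N', rfl⟩ : ∃ N', N = N' + 1 := ⟨N - 1, by omega⟩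
  -- the row `m = 0`
  rw [sum_range_succ']
  have h0 : ∑ m' ∈ range (N' + 1), (PowerSeries.X : PowerSeries ℂ) ^ (0 + m') *
      PowerSeries.C (if N' + 1 ∣ 0 + m' then Pm (N' + 1) z π m' i j else 0) =
      PowerSeries.C (Pm (N' + 1) z π 0 i j) := by
    rw [sum_eq_single 0]
    · simp
    · intro m' hm' hm'0
      rw [if_neg, map_zero, mul_zero]
      intro hd
      rw [zero_add] at hd
      have := Nat.le_of_dvd (Nat.pos_of_ne_zero hm'0) hd
      rw [mem_range] at hm'
      omega
    · intro h; exact absurd (mem_range.mpr (Nat.succ_pos _)) h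
  have hrow : ∀ m ∈ range N', ∑ m' ∈ range (N' + 1), (PowerSeries.X : PowerSeries ℂ) ^
      (m + 1 + m') * PowerSeries.C (if N' + 1 ∣ m + 1 + m' then Pm (N' + 1) z π m' i j else 0) =
      PowerSeries.X ^ (N' + 1) * PowerSeries.C (Pm (N' + 1) z π (N' - m) i j) := by
    intro m hm
    rw [mem_range] at hm
    rw [sum_eq_single (N' - m)]
    · have : m + 1 + (N' - m) = N' + 1 := by omega
      rw [this, if_pos dvd_rfl]
    · intro m' hm' hne
      rw [if_neg, map_zero, mul_zero]
      rintro ⟨q, hq⟩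
      rw [mem_range] at hm'
      have hq1 : q = 1 := by
        rcases q with _ | _ | q
        · omega
        · rfl
        · exfalso
          have : (N' + 1) * (q + 1 + 1) ≥ (N' + 1) * 2 := Nat.mul_le_mul_left _ (by omega)
          omega
      subst hq1
      omega
    · intro h; exact absurd (mem_range.mpr (by omega)) h
  rw [sum_congr rfl hrow, h0, ← mul_sum, ← map_sum]
  have h2 : ∑ m ∈ range N', Pm (N' + 1) z π (N' - m) i j =
      (1 - Pm (N' + 1) z π 0) i j := by
    have h3 := sum_Pm (π := π) hz hN i j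
    rw [sum_range_succ'] at h3
    rw [Matrix.sub_apply, Matrix.one_apply, ← h3, add_sub_cancel_right]
    rw [← sum_range_reflect (fun m => Pm (N' + 1) z π (m + 1) i j)]
    refine sum_congr rfl fun m hm => ?_
    rw [mem_range] at hm
    congr 1
    omega
  rw [h2, add_comm]
  rfl

/-- A multiplicative polynomial is a power of `X`. -/
theorem mult_poly {d : Polynomial ℂ} (hd : d ≠ 0)
    (hm : ∀ a b, d.eval (a * b) = d.eval a * d.eval b) : ∃ s : ℕ, d = Polynomial.X ^ s := by
  classical
  obtain ⟨q, hq, hq0⟩ := Polynomial.exists_eq_pow_rootMultiplicity_mul_and_not_dvd d hd 0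
  rw [map_zero, sub_zero] at hq hq0
  set s := Polynomial.rootMultiplicity 0 d
  have h1 : d.eval 1 = 1 := by
    have h2 : ∀ b, d.eval b = d.eval 1 * d.eval b := fun b => by
      have := hm 1 b
      rwa [one_mul] at this
    by_contra hne
    apply hd
    apply Polynomial.funext
    intro b
    have h3 : (1 - d.eval 1) * d.eval b = 0 := by linear_combination h2 b
    rcases mul_eq_zero.mp h3 with h4 | h4
    · exact absurd (by linear_combination -h4) hne
    · rw [h4, Polynomial.eval_zero]
  have hne : ∀ a, a ≠ 0 → d.eval a ≠ 0 := by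
    intro a ha h2
    have h3 := hm a a⁻¹
    rw [mul_inv_cancel₀ ha, h1, h2, zero_mul] at h3
    exact one_ne_zero h3
  have hqdeg : q.natDegree = 0 := by
    by_contra hne2
    obtain ⟨c, hc⟩ := IsAlgClosed.exists_root q (by
      rw [Polynomial.degree_eq_natDegree (by rintro rfl; simp at hne2)]
      exact_mod_cast hne2)
    by_cases hc0 : c = 0
    · subst hc0
      exact hq0 (by
        have := Polynomial.dvd_iff_isRoot.mpr hc
        rwa [map_zero, sub_zero] at this)
    · apply hne c hc0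
      rw [hq, Polynomial.eval_mul, hc.eq_zero, mul_zero]
  refine ⟨s, ?_⟩
  rw [Polynomial.eq_C_of_natDegree_eq_zero hqdeg] at hq
  rw [hq] at h1
  simp only [Polynomial.eval_mul, Polynomial.eval_pow, Polynomial.eval_X, one_pow, one_mul,
    Polynomial.eval_C] at h1
  rw [hq, h1, map_one, mul_one]

theorem idem_mul {A : Type*} [CommRing A] [Algebra ℂ A] {P : Matrix (Fin n) (Fin n) ℂ}
    (hP : P * P = P) (a b : A) : idem P a * idem P b = idem P (a * b) := by
  have e : ∀ t : A, idem P t = P.map (algebraMap ℂ A) + t • (1 - P).map (algebraMap ℂ A) := by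
    intro t; rfl
  have h1 : P.map (algebraMap ℂ A) * P.map (algebraMap ℂ A) = P.map (algebraMap ℂ A) := by
    rw [← Matrix.map_mul, hP]
  have h2 : P.map (algebraMap ℂ A) * (1 - P).map (algebraMap ℂ A) = 0 := by
    rw [← Matrix.map_mul, mul_sub, mul_one, hP, sub_self]
    ext i j; simp
  have h3 : (1 - P).map (algebraMap ℂ A) * P.map (algebraMap ℂ A) = 0 := by
    rw [← Matrix.map_mul, sub_mul, one_mul, hP, sub_self]
    ext i j; simp
  have h4 : (1 - P).map (algebraMap ℂ A) * (1 - P).map (algebraMap ℂ A) =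
      (1 - P).map (algebraMap ℂ A) := by
    rw [← Matrix.map_mul]
    congr 1
    rw [mul_sub, mul_one, sub_mul, one_mul, hP, sub_self, sub_zero]
  rw [e, e, e, add_mul, mul_add, mul_add, h1, Matrix.mul_smul, h2, Matrix.smul_mul, h3,
    Matrix.smul_mul, Matrix.mul_smul, h4, smul_smul]
  simp

/-- The determinant of `P + X (1 - P)` for an idempotent matrix `P`. -/
theorem det_idem {P : Matrix (Fin n) (Fin n) ℂ} (hP : P * P = P) :
    ∃ s : ℕ, (idem P (Polynomial.X : Polynomial ℂ)).det = Polynomial.X ^ s ∧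
      (s : ℂ) = n - P.trace := by
  set d := (idem P (Polynomial.X : Polynomial ℂ)).det with hd
  have heval : ∀ a : ℂ, d.eval a = (idem P a).det := by
    intro a
    rw [hd, ← Polynomial.coe_evalRingHom, RingHom.map_det]
    congr 1
    ext i j
    simp [idem]
  have h1 : d.eval 1 = 1 := by
    rw [heval]
    have : idem P (1 : ℂ) = 1 := by
      ext i j
      simp [idem]
    rw [this, Matrix.det_one]
  have hd0 : d ≠ 0 := by
    intro h
    rw [h] at h1
    simp at h1
  obtain ⟨s, hs⟩ := mult_poly hd0 (by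
    intro a b
    rw [heval, heval, heval, ← Matrix.det_mul, idem_mul hP])
  refine ⟨s, hs, ?_⟩
  -- the derivative at `1`
  have h2 : d.comp (1 + Polynomial.X) =
      (1 + (Polynomial.X : Polynomial ℂ) • (1 - P).map Polynomial.C).det := by
    rw [hd]
    have : (idem P (Polynomial.X : Polynomial ℂ)).det.comp (1 + Polynomial.X) =
        Polynomial.compRingHom (1 + Polynomial.X) (idem P (Polynomial.X : Polynomial ℂ)).det := rfl
    rw [this, RingHom.map_det]
    congr 1
    ext1 i j
    simp only [RingHom.mapMatrix_apply, Matrix.map_apply, idem, Polynomial.coe_compRingHom_apply,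
      Polynomial.add_comp, Polynomial.mul_comp, Polynomial.X_comp, Polynomial.algebraMap_eq,
      Polynomial.C_comp, Matrix.add_apply, Matrix.smul_apply, smul_eq_mul, Matrix.one_apply,
      Matrix.sub_apply]
    split_ifs with h
    · simp only [map_sub, map_one]; ring
    · simp only [map_sub, map_zero]; ring
  have h3 := Matrix.derivative_det_one_add_X_smul (1 - P)
  rw [← h2, Polynomial.derivative_comp] at h3
  simp only [Polynomial.derivative_add, Polynomial.derivative_one, Polynomial.derivative_X,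
    zero_add, one_mul, Polynomial.eval_comp, Polynomial.eval_add, Polynomial.eval_one,
    Polynomial.eval_X, add_zero] at h3
  rw [hs, Polynomial.derivative_X_pow] at h3
  simp only [Polynomial.eval_mul, Polynomial.eval_C, Polynomial.eval_pow, Polynomial.eval_X,
    one_pow, mul_one] at h3
  rw [h3, Matrix.trace_sub, Matrix.trace_one, Fintype.card_fin]

theorem Pm_zero_idem (hz : IsPrimitiveRoot z N) (hN : 0 < N) (hπ : π ^ N = 1) :
    Pm N z π 0 * Pm N z π 0 = Pm N z π 0 := by
  ext i j
  rw [Matrix.mul_apply, Pm_apply_vec hz (a := 0) hN hN (fun i => Pm_eigen hz hN hπ 0 i j) i,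
    if_pos rfl]

theorem trace_Pm_zero :
    (Pm N z π 0).trace = ∑ i, ((range N).filter fun s => (π ^ s) i = i).card / (N : ℂ) := by
  rw [Matrix.trace]
  refine sum_congr rfl fun i _ => ?_
  rw [Matrix.diag_apply, Pm]
  simp only [zero_mul, pow_zero, inv_one, one_mul]
  rw [sum_boole, div_eq_inv_mul]

/-- The determinant of `K(w)`. -/
theorem det_Kw_sq (hz : IsPrimitiveRoot z N) (hN : 0 < N) (hπ : π ^ N = 1) :
    ∃ s : ℕ, (Kw N z π).det ^ 2 = (PowerSeries.X : PowerSeries ℂ) ^ (N * s) ∧
      (s : ℂ) = n - ∑ i, ((range N).filter fun s => (π ^ s) i = i).card / (N : ℂ) := by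
  obtain ⟨s, hs, hs2⟩ := det_idem (Pm_zero_idem hz hN hπ)
  refine ⟨s, ?_, by rw [hs2, trace_Pm_zero]⟩
  have h1 : (Kw N z π).det ^ 2 = ((Kw N z π).transpose * Kw N z π).det := by
    rw [Matrix.det_mul, Matrix.det_transpose, pow_two]
  rw [h1, Kw_transpose_mul hz hN hπ]
  have h2 : (idem (Pm N z π 0) ((PowerSeries.X : PowerSeries ℂ) ^ N)).det =
      Polynomial.aeval ((PowerSeries.X : PowerSeries ℂ) ^ N)
        (idem (Pm N z π 0) (Polynomial.X : Polynomial ℂ)).det := by
    rw [← AlgHom.coe_toRingHom, RingHom.map_det]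
    congr 1
    ext1 i j
    simp [idem]
  rw [h2, hs, map_pow, Polynomial.aeval_X, pow_mul]

end Pool.Agent.LAT.RH
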