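import Pool.Agent.Lib.MP_ae5b4e_an_LAT.NDCa
import Pool.Agent.Lib.Puiseux.Main
import Pool.Agent.Lib.Puiseux.Rot

/-!
# Fields of algebraic functions and their expansions
-/

namespace Pool.Agent.LAT.RH

open Polynomial

/-- Laurent series over `ℂ`. -/
abbrev Lau := LaurentSeries ℂ

/-! ### Embeddings of a finite extension -/

section emb

variable {F L E : Type*} [Field F] [Field L] [Field E] [CharZero F] [Algebra F L]
  [FiniteDimensional F L]

theorem exists_emb_equiv (φ : F →+* E) {n : ℕ} (hn : Module.finrank F L = n)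
    (h : Fin n → (L →+* E)) (hinj : Function.Injective h)
    (hcomp : ∀ i c, h i (algebraMap F L c) = φ c) :
    ∃ (_inst : Algebra F (AlgebraicClosure E)),
      (∀ c, (algebraMap F (AlgebraicClosure E) c) = algebraMap E (AlgebraicClosure E) (φ c)) ∧
      ∃ e : Fin n ≃ (L →ₐ[F] AlgebraicClosure E),
        ∀ i x, e i x = algebraMap E (AlgebraicClosure E) (h i x) := by
  let inst : Algebra F (AlgebraicClosure E) :=
    ((algebraMap E (AlgebraicClosure E)).comp φ).toAlgebra
  refine ⟨inst, fun c => rfl, ?_⟩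
  let h' : Fin n → (L →ₐ[F] AlgebraicClosure E) := fun i =>
    { (algebraMap E (AlgebraicClosure E)).comp (h i) with
      commutes' := fun c => by
        change algebraMap E (AlgebraicClosure E) (h i (algebraMap F L c)) = _
        rw [hcomp]
        rfl }
  have hh' : ∀ i x, h' i x = algebraMap E (AlgebraicClosure E) (h i x) := fun i x => rfl
  have hinj' : Function.Injective h' := by
    intro i j hij
    apply hinj
    ext x
    have := DFunLike.congr_fun hij x
    rw [hh', hh'] at this
    exact (algebraMap E (AlgebraicClosure E)).injective this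
  have hcard : Fintype.card (Fin n) = Fintype.card (L →ₐ[F] AlgebraicClosure E) := by
    rw [AlgHom.card, hn, Fintype.card_fin]
  have hbij : Function.Bijective h' := (Fintype.bijective_iff_injective_and_card h').mpr
    ⟨hinj', hcard⟩
  exact ⟨Equiv.ofBijective h' hbij, fun i x => rfl⟩

theorem trace_formula (φ : F →+* E) {n : ℕ} (hn : Module.finrank F L = n)
    (h : Fin n → (L →+* E)) (hinj : Function.Injective h)
    (hcomp : ∀ i c, h i (algebraMap F L c) = φ c) (x : L) :
    φ (Algebra.trace F L x) = ∑ i, h i x := by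
  obtain ⟨inst, h1, e, he⟩ := exists_emb_equiv φ hn h hinj hcomp
  apply (algebraMap E (AlgebraicClosure E)).injective
  rw [← h1, trace_eq_sum_embeddings (AlgebraicClosure E), map_sum, ← e.sum_comp]
  exact Finset.sum_congr rfl fun i _ => he i x

theorem discr_formula (φ : F →+* E) {n : ℕ} (hn : Module.finrank F L = n)
    (h : Fin n → (L →+* E)) (hinj : Function.Injective h)
    (hcomp : ∀ i c, h i (algebraMap F L c) = φ c) (b : Fin n → L) :
    φ (Algebra.discr F b) = (Matrix.of fun i j => h i (b j)).det ^ 2 := by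
  obtain ⟨inst, h1, e, he⟩ := exists_emb_equiv φ hn h hinj hcomp
  apply (algebraMap E (AlgebraicClosure E)).injective
  rw [← h1, Algebra.discr_eq_det_embeddingsMatrixReindex_pow_two F (AlgebraicClosure E) b e,
    map_pow, RingHom.map_det, ← Matrix.det_transpose]
  congr 2
  ext i j
  exact he i (b j)

end emb

/-! ### Points -/

/-- The embedding of the rational functions given by a transcendental element. -/
noncomputable def ev (z : Lau) (hz : Function.Injective (aeval z : ℂ[X] →ₐ[ℂ] Lau)) :
    RatFunc ℂ →+* Lau :=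
  IsFractionRing.lift (A := ℂ[X]) (g := (aeval z : ℂ[X] →ₐ[ℂ] Lau).toRingHom) hz

theorem ev_algebraMap (z : Lau) (hz : Function.Injective (aeval z : ℂ[X] →ₐ[ℂ] Lau)) (q : ℂ[X]) :
    ev z hz (algebraMap ℂ[X] (RatFunc ℂ) q) = aeval z q :=
  IsFractionRing.lift_algebraMap _ _

theorem ev_comp (z : Lau) (hz : Function.Injective (aeval z : ℂ[X] →ₐ[ℂ] Lau)) :
    (ev z hz).comp (algebraMap ℂ[X] (RatFunc ℂ)) = (aeval z : ℂ[X] →ₐ[ℂ] Lau).toRingHom :=
  RingHom.ext fun q => ev_algebraMap z hz q

theorem algebraMap_Lau (t : ℂ) : algebraMap ℂ Lau t = HahnSeries.C t := by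
  rw [HahnSeries.algebraMap_apply', ← HahnSeries.ofPowerSeries_C]; rfl

variable (m : ℂ[X][X])

/-- The irreducible polynomial over the rational functions. -/
noncomputable abbrev pF : (RatFunc ℂ)[X] := m.map (algebraMap ℂ[X] (RatFunc ℂ))

/-- The field of algebraic functions. -/
noncomputable abbrev Lf := AdjoinRoot (pF m)

/-- A point at which the polynomial splits over the Laurent series. -/
structure Pt where
  z : Lau
  inj : Function.Injective (aeval z : ℂ[X] →ₐ[ℂ] Lau)
  r : Fin m.natDegree → Lau
  rinj : Function.Injective r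
  root : ∀ i, (m.map (aeval z : ℂ[X] →ₐ[ℂ] Lau).toRingHom).eval (r i) = 0

variable {m}

/-- The embeddings at a point. -/
noncomputable def Pt.hom (p : Pt m) (i : Fin m.natDegree) : Lf m →+* Lau :=
  AdjoinRoot.lift (ev p.z p.inj) (p.r i) (by
    have h := p.root i
    rw [eval_map] at h
    rw [pF, eval₂_map, ev_comp]
    exact h)

theorem Pt.hom_algebraMap (p : Pt m) (i : Fin m.natDegree) (c : RatFunc ℂ) :
    p.hom i (algebraMap (RatFunc ℂ) (Lf m) c) = ev p.z p.inj c := by
  rw [Pt.hom, AdjoinRoot.algebraMap_eq, AdjoinRoot.lift_of]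

theorem Pt.hom_root (p : Pt m) (i : Fin m.natDegree) :
    p.hom i (AdjoinRoot.root (pF m)) = p.r i := by
  rw [Pt.hom, AdjoinRoot.lift_root]

theorem Pt.hom_inj (p : Pt m) : Function.Injective p.hom := by
  intro i j hij
  apply p.rinj
  rw [← p.hom_root, ← p.hom_root, hij]

theorem natDegree_pF : (pF m).natDegree = m.natDegree :=
  natDegree_map_eq_of_injective (IsFractionRing.injective ℂ[X] (RatFunc ℂ)) m

variable [hirr : Fact (Irreducible (pF m))]

theorem finrank_Lf : Module.finrank (RatFunc ℂ) (Lf m) = m.natDegree := by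
  rw [← natDegree_pF, (AdjoinRoot.powerBasis hirr.out.ne_zero).finrank,
    AdjoinRoot.powerBasis_dim]

theorem finDim : FiniteDimensional (RatFunc ℂ) (Lf m) :=
  (AdjoinRoot.powerBasis hirr.out.ne_zero).finite

theorem Pt.trace (p : Pt m) (x : Lf m) :
    ev p.z p.inj (Algebra.trace (RatFunc ℂ) (Lf m) x) = ∑ i, p.hom i x := by
  have := finDim (m := m)
  exact trace_formula _ finrank_Lf p.hom p.hom_inj (fun i c => p.hom_algebraMap i c) x

theorem Pt.discr (p : Pt m) (b : Fin m.natDegree → Lf m) :
    ev p.z p.inj (Algebra.discr (RatFunc ℂ) b) = (Matrix.of fun i j => p.hom i (b j)).det ^ 2 := by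
  have := finDim (m := m)
  exact discr_formula _ finrank_Lf p.hom p.hom_inj (fun i c => p.hom_algebraMap i c) b

/-! ### Finite points -/

/-- The coordinate `e + w ^ N` as a power series. -/
noncomputable def zps (e : ℂ) (N : ℕ) : PowerSeries ℂ := PowerSeries.C e + PowerSeries.X ^ N

/-- The coordinate `e + w ^ N`. -/
noncomputable def zfin (e : ℂ) (N : ℕ) : Lau := HahnSeries.C e + HahnSeries.single (N : ℤ) 1

/-- The coordinate at infinity. -/
noncomputable def zinf : Lau := HahnSeries.single (-1 : ℤ) 1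

theorem zfin_eq (e : ℂ) (N : ℕ) : zfin e N = HahnSeries.ofPowerSeries ℤ ℂ (zps e N) := by
  rw [zfin, zps, map_add, map_pow, HahnSeries.ofPowerSeries_C, HahnSeries.ofPowerSeries_X,
    HahnSeries.single_pow]
  simp

theorem aeval_ofPS (u : PowerSeries ℂ) (q : ℂ[X]) :
    aeval (HahnSeries.ofPowerSeries ℤ ℂ u : Lau) q =
      HahnSeries.ofPowerSeries ℤ ℂ (aeval u q) := by
  induction q using Polynomial.induction_on' with
  | add p q hp hq => simp [hp, hq]
  | monomial n a =>
    rw [aeval_monomial, aeval_monomial, map_mul, map_pow]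
    congr 1

theorem aeval_zfin (e : ℂ) (N : ℕ) (q : ℂ[X]) :
    aeval (zfin e N) q = HahnSeries.ofPowerSeries ℤ ℂ (aeval (zps e N) q) := by
  rw [zfin_eq, aeval_ofPS]

theorem constantCoeff_aeval {u : PowerSeries ℂ} {e : ℂ} (hu : PowerSeries.constantCoeff u = e)
    (q : ℂ[X]) : PowerSeries.constantCoeff (aeval u q) = q.eval e := by
  induction q using Polynomial.induction_on' with
  | add p q hp hq => rw [map_add, map_add, hp, hq, eval_add]
  | monomial n a =>
    rw [aeval_monomial, map_mul, map_pow, hu, eval_monomial]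
    congr 1

theorem constantCoeff_zps {e : ℂ} {N : ℕ} (hN : 0 < N) (q : ℂ[X]) :
    PowerSeries.constantCoeff (aeval (zps e N) q) = q.eval e := by
  apply constantCoeff_aeval
  rw [zps, map_add, map_pow, PowerSeries.constantCoeff_X, PowerSeries.constantCoeff_C,
    zero_pow (by omega), add_zero]

/-- An element of the Laurent series which is not constant is transcendental. -/
theorem inj_of_not_const {z : Lau} (hz : ∀ c : ℂ, z ≠ HahnSeries.C c) :
    Function.Injective (aeval z : ℂ[X] →ₐ[ℂ] Lau) := by
  rw [injective_iff_map_eq_zero]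
  intro p hp
  by_contra hp0
  have hs := IsAlgClosed.splits p
  rw [hs.eq_prod_roots, map_mul, aeval_C, mul_eq_zero] at hp
  rcases hp with h | h
  · have h2 : p.leadingCoeff = 0 := by
      rwa [map_eq_zero_iff _ (algebraMap ℂ Lau).injective] at h
    exact hp0 (leadingCoeff_eq_zero.mp h2)
  · rw [map_multiset_prod, Multiset.prod_eq_zero_iff, Multiset.mem_map] at h
    obtain ⟨q, hq, hq2⟩ := h
    rw [Multiset.mem_map] at hq
    obtain ⟨t, _, rfl⟩ := hq
    rw [map_sub, aeval_X, aeval_C, sub_eq_zero] at hq2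
    rw [algebraMap_Lau] at hq2
    exact hz t hq2

theorem inj_zfin {e : ℂ} {N : ℕ} (hN : 0 < N) :
    Function.Injective (aeval (zfin e N) : ℂ[X] →ₐ[ℂ] Lau) := by
  apply inj_of_not_const
  intro c hc
  have := congrArg (fun f : Lau => f.coeff (N : ℤ)) hc
  have hN0 : (N : ℤ) ≠ 0 := by omega
  simp only [zfin, HahnSeries.coeff_add, HahnSeries.C_apply,
    HahnSeries.coeff_single_of_ne hN0, HahnSeries.coeff_single_same, zero_add] at this
  exact one_ne_zero this

theorem inj_zinf : Function.Injective (aeval zinf : ℂ[X] →ₐ[ℂ] Lau) := by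
  apply inj_of_not_const
  intro c hc
  have := congrArg (fun f : Lau => f.coeff (-1 : ℤ)) hc
  simp only [zinf, HahnSeries.C_apply, HahnSeries.coeff_single_same,
    HahnSeries.coeff_single_of_ne (show (-1 : ℤ) ≠ 0 by omega)] at this
  exact one_ne_zero this

/-- Splitting gives a point. -/
theorem exists_pt {z : Lau} (hz : Function.Injective (aeval z : ℂ[X] →ₐ[ℂ] Lau))
    (hs : (m.map (aeval z : ℂ[X] →ₐ[ℂ] Lau).toRingHom).Splits) :
    ∃ p : Pt m, p.z = z ∧ ∀ t, (m.map (aeval z : ℂ[X] →ₐ[ℂ] Lau).toRingHom).eval t = 0 →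
      ∃ i, p.r i = t := by
  classical
  set P := m.map (aeval z : ℂ[X] →ₐ[ℂ] Lau).toRingHom with hP
  have hinj : Function.Injective (aeval z : ℂ[X] →ₐ[ℂ] Lau).toRingHom := hz
  have hm0 : m ≠ 0 := by
    rintro rfl
    have := hirr.out.ne_zero
    simp [pF] at this
  have hP0 : P ≠ 0 := (Polynomial.map_ne_zero_iff hinj).mpr hm0
  have hdeg : P.natDegree = m.natDegree := natDegree_map_eq_of_injective hinj m
  have hPF : P = (pF m).map (ev z hz) := by
    rw [hP, pF, map_map, ev_comp]
  have hsep : P.Separable := by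
    rw [hPF]
    exact (hirr.out.separable).map
  have hnodup : P.roots.Nodup := nodup_roots hsep
  have hcard : P.roots.card = m.natDegree := by
    rw [← hdeg, splits_iff_card_roots.mp hs]
  have hcard2 : P.roots.toFinset.card = m.natDegree := by
    rw [Multiset.toFinset_card_of_nodup hnodup, hcard]
  let e := P.roots.toFinset.equivFinOfCardEq hcard2
  refine ⟨⟨z, hz, fun i => (e.symm i : Lau), fun i j hij => e.symm.injective (Subtype.ext hij),
    fun i => ?_⟩, rfl, fun t ht => ?_⟩
  · have := (e.symm i).2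
    rw [Multiset.mem_toFinset, mem_roots hP0] at this
    exact this
  · have ht' : t ∈ P.roots.toFinset := by
      rw [Multiset.mem_toFinset, mem_roots hP0]
      exact ht
    exact ⟨e ⟨t, ht'⟩, by simp⟩

/-- A rational function without poles at finite distance is a polynomial. -/
theorem poly_of_int (c : RatFunc ℂ) (N : ℂ → ℕ) (hN : ∀ e, 0 < N e)
    (h : ∀ e, ev (zfin e (N e)) (inj_zfin (hN e)) c ∈ (HahnSeries.ofPowerSeries ℤ ℂ).range) :
    ∃ q : ℂ[X], algebraMap ℂ[X] (RatFunc ℂ) q = c := by
  have hden : c.denom.natDegree = 0 := by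
    by_contra hne
    obtain ⟨e, he⟩ := IsAlgClosed.exists_root c.denom (by
      rw [degree_eq_natDegree (RatFunc.denom_ne_zero c)]
      exact_mod_cast hne)
    obtain ⟨g, hg⟩ := h e
    have h1 : c * algebraMap ℂ[X] (RatFunc ℂ) c.denom = algebraMap ℂ[X] (RatFunc ℂ) c.num := by
      exact (eq_div_iff ((_root_.map_ne_zero_iff _
        (IsFractionRing.injective ℂ[X] (RatFunc ℂ))).mpr (RatFunc.denom_ne_zero c))).mp
        (RatFunc.num_div_denom c).symm
    have h2 := congrArg (ev (zfin e (N e)) (inj_zfin (hN e))) h1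
    rw [map_mul, ev_algebraMap, ev_algebraMap, aeval_zfin, aeval_zfin, ← hg, ← map_mul] at h2
    have h3 := HahnSeries.ofPowerSeries_injective h2
    have h4 := congrArg PowerSeries.constantCoeff h3
    rw [map_mul, constantCoeff_zps (hN e), constantCoeff_zps (hN e), he.eq_zero, mul_zero] at h4
    obtain ⟨a, b, hab⟩ := RatFunc.isCoprime_num_denom c
    have h5 := congrArg (Polynomial.eval e) hab
    rw [eval_add, eval_mul, eval_mul, ← h4, he.eq_zero, mul_zero, mul_zero, add_zero,
      eval_one] at h5
    exact zero_ne_one h5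
  have hden1 : c.denom = 1 := (RatFunc.monic_denom c).natDegree_eq_zero.mp hden
  refine ⟨c.num, ?_⟩
  conv_rhs => rw [← RatFunc.num_div_denom c]
  rw [hden1, map_one, div_one]

theorem coeff_zinf_pow (k : ℕ) (j : ℤ) : (zinf ^ k).coeff j = if j = -(k : ℤ) then 1 else 0 := by
  rw [zinf, HahnSeries.single_pow, one_pow, nsmul_eq_mul, mul_neg, mul_one]
  split_ifs with h
  · rw [h, HahnSeries.coeff_single_same]
  · rw [HahnSeries.coeff_single_of_ne h]

theorem coeff_aeval_zinf (q : ℂ[X]) (j : ℤ) :
    (aeval zinf q : Lau).coeff j = if j ≤ 0 then q.coeff (-j).toNat else 0 := by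
  induction q using Polynomial.induction_on' with
  | add p q hp hq =>
    rw [map_add, HahnSeries.coeff_add, hp, hq, coeff_add]
    split_ifs <;> simp
  | monomial n a =>
    rw [aeval_monomial, algebraMap_Lau, HahnSeries.C_apply, HahnSeries.coeff_single_zero_mul,
      coeff_zinf_pow, coeff_monomial]
    by_cases h1 : j ≤ 0
    · rw [if_pos h1]
      by_cases h2 : j = -(n : ℤ)
      · rw [if_pos h2, if_pos (by omega), mul_one]
      · rw [if_neg h2, if_neg (by omega), mul_zero]
    · rw [if_neg h1, if_neg (by omega), mul_zero]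

end Pool.Agent.LAT.RH
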