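import Pool.Agent.Lib.MP_ae5b4e_an_LAT.NDCc
import Mathlib

/-!
# Existence of a minimal basis, and the degree of its discriminant
-/

namespace Pool.Agent.LAT.RH

open Polynomial

variable {m : ℂ[X][X]} [hirr : Fact (Irreducible (pF m))] (D : Data m)

theorem natDegree_pos : 0 < m.natDegree := by
  rw [← natDegree_pF]
  exact hirr.out.natDegree_pos

theorem lc_ne_zero : m.leadingCoeff ≠ 0 := by
  rw [Ne, leadingCoeff_eq_zero]
  rintro rfl
  have := hirr.out.ne_zero
  simp [pF] at this

/-- The multiple of the root by the leading coefficient is integral. -/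
theorem lc_root_mem : emb m m.leadingCoeff * AdjoinRoot.root (pF m) ∈ Oset D := by
  rw [mem_Oset]
  intro e i
  rw [map_mul, fin_emb, Pt.hom_root]
  set f : ℂ[X] →+* PowerSeries ℂ := (aeval (zps e (D.N e)) : ℂ[X] →ₐ[ℂ] PowerSeries ℂ).toRingHom
    with hf
  have hfi : Function.Injective f := by
    intro a b hab
    apply inj_zfin (e := e) (D.hN e)
    rw [aeval_zfin, aeval_zfin]
    exact congrArg _ hab
  have h1 : (m.map f).eval₂ (HahnSeries.ofPowerSeries ℤ ℂ) ((D.fin e).r i) = 0 := by
    have h2 := (D.fin e).root i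
    rw [eval_map] at h2
    rw [eval₂_map]
    have h3 : (HahnSeries.ofPowerSeries ℤ ℂ).comp f =
        (aeval (D.fin e).z : ℂ[X] →ₐ[ℂ] Lau).toRingHom := by
      apply RingHom.ext
      intro q
      rw [D.hfin]
      exact (aeval_zfin e (D.N e) q).symm
    rw [h3]
    exact h2
  have h2 := (HahnSeries.ofPowerSeries ℤ ℂ).isIntegralElem_leadingCoeff_mul (m.map f) _ h1
  rw [leadingCoeff_map_of_injective hfi] at h2
  have h3 : IsIntegral (PowerSeries ℂ) (HahnSeries.ofPowerSeries ℤ ℂ (f m.leadingCoeff) *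
      (D.fin e).r i : Lau) := h2
  obtain ⟨y, hy⟩ := IsIntegrallyClosed.isIntegral_iff.mp h3
  exact ⟨y, hy⟩

omit hirr in
theorem exists_degLe (b : Lf m) : ∃ k : ℕ, DegLe D b k := by
  refine ⟨Finset.univ.sup fun i => (-(D.inf.hom i b).order).toNat, fun i j hj => ?_⟩
  apply HahnSeries.coeff_eq_zero_of_lt_order
  have h1 : (-(D.inf.hom i b).order).toNat ≤
      Finset.univ.sup fun i => (-(D.inf.hom i b).order).toNat :=
    Finset.le_sup (f := fun i => (-(D.inf.hom i b).order).toNat) (Finset.mem_univ i)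
  omega

theorem exists_tup : ∃ b k, Tup D b k := by
  set t := emb m m.leadingCoeff * AdjoinRoot.root (pF m) with ht
  choose k hk using fun b => exists_degLe D b
  refine ⟨fun i => t ^ (i : ℕ), fun i => k (t ^ (i : ℕ)), fun i => ?_, fun i => hk _, ?_⟩
  · exact Subring.pow_mem _ (lc_root_mem D) _
  · have h1 : Mat D.inf (fun i : Fin m.natDegree => t ^ (i : ℕ)) =
        Matrix.vandermonde fun i => D.inf.hom i t := by
      ext1 i j
      rw [Mat, Matrix.of_apply, Matrix.vandermonde_apply, map_pow]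
    rw [h1, Matrix.det_vandermonde_ne_zero_iff]
    intro i j hij
    simp only [ht, map_mul, Pt.hom_root, Pt.hom_emb] at hij
    apply D.inf.rinj
    refine mul_left_cancel₀ ?_ hij
    rw [Ne, map_eq_zero_iff _ D.inf.inj]
    exact lc_ne_zero

theorem exists_minTup : ∃ b k, MinTup D b k := by
  classical
  have hex : ∃ s : ℕ, ∃ b k, Tup D b k ∧ ∑ i, k i = s := by
    obtain ⟨b, k, h⟩ := exists_tup D
    exact ⟨_, b, k, h, rfl⟩
  obtain ⟨b, k, h, hs⟩ := Nat.find_spec hex
  refine ⟨b, k, ⟨h, fun b' k' h' => ?_⟩⟩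
  rw [hs]
  exact Nat.find_min' hex ⟨b', k', h', rfl⟩

variable {D} {b : Fin m.natDegree → Lf m} {k : Fin m.natDegree → ℕ}

theorem Tup.indep (h : Tup D b k) (φ : Fin m.natDegree → RatFunc ℂ)
    (hφ : ∑ j, algebraMap (RatFunc ℂ) (Lf m) (φ j) * b j = 0) (i : Fin m.natDegree) :
    φ i = 0 := by
  by_contra hne
  have h1 := det_update D.inf b i φ
  rw [hφ] at h1
  have h2 : (Mat D.inf (Function.update b i 0)).det = 0 := by
    apply Matrix.det_eq_zero_of_column_eq_zero i
    intro j
    simp [Mat]
  rw [h2] at h1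
  rcases mul_eq_zero.mp h1.symm with h3 | h3
  · exact hne ((map_eq_zero_iff _ (ev D.inf.z D.inf.inj).injective).mp h3)
  · exact h.det h3

/-- The degrees are positive with at most one exception. -/
theorem Tup.sum_ge (h : Tup D b k) : m.natDegree - 1 ≤ ∑ i, k i := by
  classical
  have h1 : (Finset.univ.filter fun i => k i = 0).card ≤ 1 := by
    rw [Finset.card_le_one]
    intro i hi j hj
    rw [Finset.mem_filter] at hi hj
    by_contra hij
    obtain ⟨c1, hc1⟩ := const_of_int D (h.int i) ((h.deg i).mono (by rw [hi.2]; rfl))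
    obtain ⟨c2, hc2⟩ := const_of_int D (h.int j) ((h.deg j).mono (by rw [hj.2]; rfl))
    set g : ℂ →+* RatFunc ℂ := (algebraMap ℂ[X] (RatFunc ℂ)).comp C with hg
    have hgi : Function.Injective g := g.injective
    have hb : ∀ c, emb m (C c) = algebraMap (RatFunc ℂ) (Lf m) (g c) := fun c => rfl
    have hsum : ∀ u v : RatFunc ℂ, ∑ l, algebraMap (RatFunc ℂ) (Lf m)
        ((Pi.single i u + Pi.single j v : Fin m.natDegree → RatFunc ℂ) l) * b l =
        algebraMap (RatFunc ℂ) (Lf m) u * b i + algebraMap (RatFunc ℂ) (Lf m) v * b j := by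
      intro u v
      simp only [Pi.add_apply, map_add, add_mul, Finset.sum_add_distrib]
      congr 1
      · rw [Finset.sum_eq_single i]
        · rw [Pi.single_eq_same]
        · intro l _ hl
          rw [Pi.single_eq_of_ne hl, map_zero, zero_mul]
        · intro hh; exact absurd (Finset.mem_univ _) hh
      · rw [Finset.sum_eq_single j]
        · rw [Pi.single_eq_same]
        · intro l _ hl
          rw [Pi.single_eq_of_ne hl, map_zero, zero_mul]
        · intro hh; exact absurd (Finset.mem_univ _) hh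
    have hc10 : c1 = 0 := by
      have h2 := h.indep (Pi.single i (g c2) + Pi.single j (-g c1)) (by
        rw [hsum, hc1, hc2, hb, hb, map_neg]; ring) j
      rw [Pi.add_apply, Pi.single_eq_same, Pi.single_eq_of_ne (Ne.symm hij), zero_add,
        neg_eq_zero, map_eq_zero_iff _ hgi] at h2
      exact h2
    have h3 := h.indep (Pi.single i 1 + Pi.single j 0) (by
        rw [hsum, hc1, hc10, map_zero, map_zero, map_zero]; ring) i
    rw [Pi.add_apply, Pi.single_eq_same, Pi.single_eq_of_ne hij, add_zero] at h3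
    exact one_ne_zero h3
  have h2 : (Finset.univ.filter fun i => k i = 0).card +
      (Finset.univ.filter fun i => ¬ k i = 0).card = m.natDegree := by
    rw [Finset.card_filter_add_card_filter_not, Finset.card_univ, Fintype.card_fin]
  have h3 : (Finset.univ.filter fun i => ¬ k i = 0).card ≤ ∑ i, k i := by
    rw [Finset.card_filter]
    apply Finset.sum_le_sum
    intro i _
    split_ifs <;> omega
  omega

/-- The discriminant is a polynomial. -/
theorem MinTup.exists_discr (h : MinTup D b k) : ∃ q : ℂ[X], q.natDegree = 2 * ∑ i, k i ∧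
    q ≠ 0 ∧ (∀ e, HahnSeries.ofPowerSeries ℤ ℂ (aeval (zps e (D.N e)) q) =
      (Mat (D.fin e) b).det ^ 2) := by
  classical
  obtain ⟨q, hq⟩ := poly_of_int (Algebra.discr (RatFunc ℂ) b) D.N D.hN (by
    intro e
    rw [← (D.fin e).ev_eq (D.hfin e), (D.fin e).discr]
    apply Subring.pow_mem
    rw [Matrix.det_apply]
    refine Subring.sum_mem _ fun σ _ => ?_
    rw [Units.smul_def, zsmul_eq_mul]
    refine Subring.mul_mem _ (intCast_mem _ _) (Subring.prod_mem _ fun i _ => ?_)
    exact (mem_Oset D).mp (h.int i) e _)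
  -- the matrix at infinity
  have hex : ∀ i j, ∃ g : PowerSeries ℂ, D.inf.hom i (b j) =
      zinf ^ (k j) * HahnSeries.ofPowerSeries ℤ ℂ g := by
    intro i j
    have h1 : HahnSeries.single (k j : ℤ) (1 : ℂ) * D.inf.hom i (b j) ∈ PS := by
      rw [mem_PS]
      intro t ht
      have h2 : t = (t - k j) + (k j : ℤ) := by ring
      rw [h2, HahnSeries.coeff_single_mul_add, one_mul]
      exact h.deg j i _ (by omega)
    obtain ⟨g, hg⟩ := h1
    refine ⟨g, ?_⟩
    rw [hg, ← mul_assoc, zinf, HahnSeries.single_pow, HahnSeries.single_mul_single, one_pow,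
      one_mul, nsmul_eq_mul, mul_neg, mul_one, neg_add_cancel]
    change _ = HahnSeries.C 1 * _
    rw [map_one, one_mul]
  choose g hg using hex
  have hg0 : ∀ i j, PowerSeries.constantCoeff (g i j) = (D.inf.hom i (b j)).coeff (-(k j : ℤ)) := by
    intro i j
    rw [hg, coeff_zinf_pow_mul, neg_add_cancel]
    have h3 := HahnSeries.ofPowerSeries_apply_coeff (Γ := ℤ) (g i j) 0
    rw [Nat.cast_zero] at h3
    rw [h3, PowerSeries.coeff_zero_eq_constantCoeff]
  have hdet : (Mat D.inf b).det = zinf ^ (∑ j, k j) *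
      HahnSeries.ofPowerSeries ℤ ℂ (Matrix.of g).det := by
    have h4 : Mat D.inf b = Matrix.of fun i j => zinf ^ (k j) *
        ((HahnSeries.ofPowerSeries ℤ ℂ).mapMatrix (Matrix.of g)) i j := by
      ext1 i j
      rw [Mat, Matrix.of_apply, Matrix.of_apply, hg]
      rfl
    rw [h4, Matrix.det_mul_row, RingHom.map_det, Finset.prod_pow_eq_pow_sum]
  have hlead : PowerSeries.constantCoeff (Matrix.of g).det ≠ 0 := by
    rw [RingHom.map_det]
    have h5 := h.lead
    convert h5 using 2
    ext i j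
    exact hg0 i j
  have hinf : aeval zinf q = zinf ^ (2 * ∑ j, k j) *
      HahnSeries.ofPowerSeries ℤ ℂ ((Matrix.of g).det ^ 2) := by
    have h6 := D.inf.discr b
    rw [← hq, ev_algebraMap, D.hinf] at h6
    rw [h6]
    change (Mat D.inf b).det ^ 2 = _
    rw [hdet, mul_pow, ← pow_mul, map_pow, mul_comm (∑ j, k j) 2]
  have hco : ∀ t : ℕ, 2 * ∑ j, k j ≤ t → q.coeff t =
      if t = 2 * ∑ j, k j then PowerSeries.constantCoeff (Matrix.of g).det ^ 2 else 0 := by
    intro t ht
    have h7 := coeff_aeval_zinf q (-(t : ℤ))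
    rw [if_pos (by omega), neg_neg, Int.toNat_natCast, hinf, coeff_zinf_pow_mul] at h7
    rw [← h7]
    split_ifs with h8
    · rw [h8]
      have h9 := HahnSeries.ofPowerSeries_apply_coeff (Γ := ℤ) ((Matrix.of g).det ^ 2) 0
      rw [Nat.cast_zero] at h9
      rw [neg_add_cancel, h9, PowerSeries.coeff_zero_eq_constantCoeff, map_pow]
    · exact ofPS_neg _ (by omega)
  have hne : q.coeff (2 * ∑ j, k j) ≠ 0 := by
    rw [hco _ le_rfl, if_pos rfl]
    exact pow_ne_zero _ hlead
  refine ⟨q, ?_, ?_, ?_⟩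
  · apply le_antisymm
    · rw [natDegree_le_iff_coeff_eq_zero]
      intro t ht
      rw [hco t ht.le, if_neg (by omega)]
    · exact le_natDegree_of_ne_zero hne
  · rintro rfl
    exact hne (coeff_zero _)
  · intro e
    have h10 := (D.fin e).discr b
    rw [← hq, ev_algebraMap, D.hfin, aeval_zfin] at h10
    rw [h10]
    rfl

end Pool.Agent.LAT.RH
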