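import Mathlib

/-!
# Taylor coefficients at `0` (problem `MP_ae5b4e_an`)
-/

namespace Pool.Agent.MP_ae5b4e_an_ND

open Filter Topology

/-- The Taylor coefficients at `0`. -/
noncomputable def cf (g : ℂ → ℂ) (n : ℕ) : ℂ := iteratedDeriv n g 0 / n.factorial

theorem cf_congr {g h : ℂ → ℂ} (e : g =ᶠ[𝓝 0] h) (n : ℕ) : cf g n = cf h n := by
  unfold cf
  rw [e.iteratedDeriv_eq]

theorem cf_add {g h : ℂ → ℂ} (hg : AnalyticAt ℂ g 0) (hh : AnalyticAt ℂ h 0) (n : ℕ) :
    cf (fun y => g y + h y) n = cf g n + cf h n := by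
  unfold cf
  have : iteratedDeriv n (fun y => g y + h y) 0 = iteratedDeriv n g 0 + iteratedDeriv n h 0 :=
    iteratedDeriv_add hg.contDiffAt hh.contDiffAt
  rw [this, add_div]

theorem cf_sub {g h : ℂ → ℂ} (hg : AnalyticAt ℂ g 0) (hh : AnalyticAt ℂ h 0) (n : ℕ) :
    cf (fun y => g y - h y) n = cf g n - cf h n := by
  unfold cf
  have : iteratedDeriv n (fun y => g y - h y) 0 = iteratedDeriv n g 0 - iteratedDeriv n h 0 :=
    iteratedDeriv_sub hg.contDiffAt hh.contDiffAt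
  rw [this, sub_div]

theorem cf_const_mul (c : ℂ) (g : ℂ → ℂ) (n : ℕ) :
    cf (fun y => c * g y) n = c * cf g n := by
  unfold cf
  rw [iteratedDeriv_const_mul_field, mul_div_assoc]

theorem cf_sum {ι : Type*} (s : Finset ι) {g : ι → ℂ → ℂ} (hg : ∀ i ∈ s, AnalyticAt ℂ (g i) 0)
    (n : ℕ) : cf (fun y => ∑ i ∈ s, g i y) n = ∑ i ∈ s, cf (g i) n := by
  unfold cf
  rw [iteratedDeriv_fun_sum (fun i hi => (hg i hi).contDiffAt), Finset.sum_div]

theorem cf_mul {g h : ℂ → ℂ} (hg : AnalyticAt ℂ g 0) (hh : AnalyticAt ℂ h 0) (n : ℕ) :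
    cf (fun y => g y * h y) n = ∑ i ∈ Finset.range (n + 1), cf g i * cf h (n - i) := by
  unfold cf
  rw [iteratedDeriv_fun_mul hg.contDiffAt hh.contDiffAt, Finset.sum_div]
  apply Finset.sum_congr rfl
  intro i hi
  rw [Finset.mem_range] at hi
  have h1 : ((n.choose i : ℕ) : ℂ) * (i.factorial * (n - i).factorial) = n.factorial := by
    have := Nat.choose_mul_factorial_mul_factorial (n := n) (k := i) (by omega)
    rw [← this]
    push_cast
    ring
  have h2 : (i.factorial : ℂ) ≠ 0 := by exact_mod_cast i.factorial_ne_zero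
  have h3 : ((n - i).factorial : ℂ) ≠ 0 := by exact_mod_cast (n - i).factorial_ne_zero
  have h4 : (n.factorial : ℂ) ≠ 0 := by exact_mod_cast n.factorial_ne_zero
  rw [div_mul_div_comm, div_eq_div_iff h4 (mul_ne_zero h2 h3), ← h1]
  ring

theorem cf_id (n : ℕ) : cf (fun y => y) n = if n = 1 then 1 else 0 := by
  unfold cf
  rw [iteratedDeriv_fun_id_zero]
  split_ifs with h
  · subst h; simp
  · simp

theorem cf_id_mul {g : ℂ → ℂ} (hg : AnalyticAt ℂ g 0) (n : ℕ) :
    cf (fun y => y * g y) (n + 1) = cf g n := by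
  rw [cf_mul (g := fun y => y) (h := g) analyticAt_id hg, Finset.sum_eq_single 1]
  · rw [cf_id]; simp
  · intro i _ hi
    rw [cf_id]; simp [hi]
  · intro h
    exact absurd (Finset.mem_range.2 (by omega)) h

theorem cf_zero (g : ℂ → ℂ) : cf g 0 = g 0 := by
  unfold cf; simp

theorem cf_pow_mul {g : ℂ → ℂ} (hg : AnalyticAt ℂ g 0) (m n : ℕ) (hmn : m ≤ n) :
    cf (fun y => y ^ m * g y) n = cf g (n - m) := by
  induction m generalizing n with
  | zero => simp
  | succ m ih =>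
    obtain ⟨k, rfl⟩ : ∃ k, n = k + 1 := ⟨n - 1, by omega⟩
    have e : (fun y : ℂ => y ^ (m + 1) * g y) = fun y => y * (y ^ m * g y) := by
      funext y; ring
    rw [e, cf_id_mul (by fun_prop), ih k (by omega)]
    congr 1
    omega

theorem iteratedDeriv_inv_pow (k : ℂ) (m : ℕ) (j : ℕ) : ∀ y : ℂ, 1 - k * y ≠ 0 →
    iteratedDeriv j (fun y => ((1 - k * y) ^ m)⁻¹) y
      = (m.ascFactorial j : ℂ) * k ^ j * ((1 - k * y) ^ (m + j))⁻¹ := by
  induction j with
  | zero => intro y _; simp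
  | succ j ih =>
    intro y hy
    rw [iteratedDeriv_succ]
    have hop : IsOpen {z : ℂ | 1 - k * z ≠ 0} := isOpen_ne_fun (by fun_prop) (by fun_prop)
    have e : (fun z => iteratedDeriv j (fun y => ((1 - k * y) ^ m)⁻¹) z) =ᶠ[𝓝 y]
        fun z => (m.ascFactorial j : ℂ) * k ^ j * ((1 - k * z) ^ (m + j))⁻¹ := by
      filter_upwards [hop.mem_nhds hy] with z hz
      exact ih z hz
    rw [Filter.EventuallyEq.deriv_eq e]
    have h1 : HasDerivAt (fun z : ℂ => 1 - k * z) (-k) y := by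
      have := ((hasDerivAt_id y).const_mul k).const_sub 1
      simpa using this
    have h2 : HasDerivAt (fun z : ℂ => ((1 - k * z) ^ (m + j))⁻¹)
        (((m + j : ℕ) : ℂ) * k * ((1 - k * y) ^ (m + j + 1))⁻¹) y := by
      have h3 := (h1.pow (m + j)).inv (pow_ne_zero _ hy)
      refine h3.congr_deriv ?_
      rcases Nat.eq_zero_or_pos (m + j) with h0 | h0
      · rw [h0]; simp
      · obtain ⟨l, hl⟩ : ∃ l, m + j = l + 1 := ⟨m + j - 1, by omega⟩
        rw [hl]
        simp only [Pi.pow_apply, Nat.add_sub_cancel]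
        field_simp
        ring
    rw [(h2.const_mul _).deriv, Nat.ascFactorial_succ]
    push_cast
    have : m + (j + 1) = m + j + 1 := by omega
    rw [this]
    ring

theorem cf_inv_pow (k : ℂ) (m j : ℕ) :
    cf (fun y => ((1 - k * y) ^ m)⁻¹) j = ((m + j - 1).choose j : ℂ) * k ^ j := by
  unfold cf
  rw [iteratedDeriv_inv_pow k m j 0 (by simp), Nat.ascFactorial_eq_factorial_mul_choose']
  have : (j.factorial : ℂ) ≠ 0 := by exact_mod_cast j.factorial_ne_zero
  push_cast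
  field_simp
  simp

theorem analyticAt_inv_pow (k : ℂ) (m : ℕ) : AnalyticAt ℂ (fun y => ((1 - k * y) ^ m)⁻¹) 0 := by
  have h : AnalyticAt ℂ (fun y => (1 - k * y) ^ m) 0 := by fun_prop
  exact h.inv (by simp)

/-- A function which is `O(y ^ k)` has vanishing coefficients below `k`. -/
theorem cf_of_isBigO {g : ℂ → ℂ} (hg : AnalyticAt ℂ g 0) {k : ℕ}
    (h : ∃ C : ℝ, ∀ᶠ y in 𝓝 (0 : ℂ), ‖g y‖ ≤ C * ‖y‖ ^ k) {n : ℕ} (hn : n < k) : cf g n = 0 := by
  have key : (k : ℕ∞) ≤ analyticOrderAt g 0 := by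
    by_contra hlt
    rw [not_le] at hlt
    obtain ⟨m, hm⟩ : ∃ m : ℕ, analyticOrderAt g 0 = m := by
      have hne : analyticOrderAt g 0 ≠ ⊤ := fun h0 => by
        rw [h0] at hlt
        exact absurd hlt (by simp)
      exact ⟨_, (ENat.natCast_toNat hne).symm⟩
    have hmk : m < k := by
      rw [hm] at hlt
      exact_mod_cast hlt
    obtain ⟨u, hu, hu0, hgu⟩ := (hg.analyticOrderAt_eq_natCast).1 hm
    obtain ⟨C, hC⟩ := h
    have h1 : ∀ᶠ y in 𝓝[≠] (0 : ℂ), ‖u y‖ ≤ C * ‖y‖ ^ (k - m) := by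
      have h2 := (hC.and hgu).filter_mono (nhdsWithin_le_nhds (s := {(0 : ℂ)}ᶜ))
      filter_upwards [h2, self_mem_nhdsWithin] with y hy hy0
      have hy0' : y ≠ 0 := hy0
      have h3 := hy.1
      rw [hy.2] at h3
      simp only [sub_zero, smul_eq_mul, norm_mul, norm_pow] at h3
      have h4 : ‖y‖ ^ k = ‖y‖ ^ m * ‖y‖ ^ (k - m) := by
        rw [← pow_add]; congr 1; omega
      rw [h4] at h3
      have h5 : 0 < ‖y‖ ^ m := pow_pos (norm_pos_iff.2 hy0') m
      have h6 : ‖y‖ ^ m * ‖u y‖ ≤ ‖y‖ ^ m * (C * ‖y‖ ^ (k - m)) := by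
        calc _ ≤ _ := h3
          _ = _ := by ring
      exact le_of_mul_le_mul_left h6 h5
    have h2 : Tendsto (fun y : ℂ => C * ‖y‖ ^ (k - m)) (𝓝[≠] 0) (𝓝 0) := by
      have : Continuous (fun y : ℂ => C * ‖y‖ ^ (k - m)) := by fun_prop
      have h3 := this.tendsto 0
      have h4 : C * ‖(0 : ℂ)‖ ^ (k - m) = 0 := by
        rw [norm_zero, zero_pow (by omega), mul_zero]
      rw [h4] at h3
      exact h3.mono_left nhdsWithin_le_nhds
    have h3 : Tendsto u (𝓝[≠] 0) (𝓝 0) := squeeze_zero_norm' h1 h2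
    have h4 : Tendsto u (𝓝[≠] 0) (𝓝 (u 0)) := hu.continuousAt.tendsto.mono_left nhdsWithin_le_nhds
    exact hu0 (tendsto_nhds_unique h4 h3)
  have := (natCast_le_analyticOrderAt_iff_iteratedDeriv_eq_zero hg).1 key n hn
  unfold cf
  rw [this, zero_div]

end Pool.Agent.MP_ae5b4e_an_ND
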