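import Pool.Agent.Lib.MP_ae5b4e_an_LAT.NDGlue

/-!
# MP_ae5b4e_an: from the facts at a place to the Laurent series of the roots

`fin_of_place` translates the local result at a place into the hypothesis of the counting theorem.
-/

noncomputable section

open Polynomial Filter Topology

namespace Pool.Agent.MP_ae5b4e_an_ND

open Pool.Agent.Lib.Puiseux in
/-- The local result at a place, for a root in Laurent series. -/
lemma fin_of_place {m : ℂ[X][X]} (hall : ∀ x t, Reg m x → evalEval x t m = 0 → BGood m x t)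
    (hplace : ∀ {e : ℂ} {N : ℕ} {κ : ℂ → ℂ} {δ : ℝ}, PlaceOK e N κ δ →
      ∀ {K : ℕ} {h : ℂ → ℂ}, DifferentiableOn ℂ h (Metric.ball 0 δ) →
      (∀ w, w ≠ 0 → ‖w‖ < δ → κ w = h w / w ^ K) →
      ∃ c : ℂ, Tendsto (fun w => w ^ N * κ w) (𝓝[≠] 0) (𝓝 c) ∧
        (c = -1 ∨ ((∃ m : ℤ, (1 + c) * m = 1) ∧
          ∀ om : ℂ, om ^ N = 1 → ∀ᶠ w in 𝓝[≠] 0, κ (om * w) = κ w)))
    {e : ℂ} {N : ℕ} (hN : 0 < N) {r : LaurentSeries ℂ} {δ : ℝ} (hδ : 0 < δ) {K : ℕ} {h : ℂ → ℂ}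
    (hh : DifferentiableOn ℂ h (Metric.ball 0 δ))
    (hsum : ∀ w : ℂ, ‖w‖ < δ → HasSum (fun n : ℕ => r.coeff ((n : ℤ) - K) * w ^ n) (h w))
    (hlow : ∀ j < -(K : ℤ), r.coeff j = 0)
    (hreg : ∀ w, w ≠ 0 → ‖w‖ < δ → Reg m (e + w ^ N) ∧ evalEval (e + w ^ N) (h w / w ^ K) m = 0) :
    (∀ k < -(N : ℤ), r.coeff k = 0) ∧
      (0 < (1 + r.coeff (-(N : ℤ))).re → r ∈ Set.range (subst ⟨N, hN⟩ : LaurentSeries ℂ →+* _) ∧
        ∃ q : ℕ, 0 < q ∧ 1 + r.coeff (-(N : ℤ)) = 1 / (q : ℂ)) := by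
  have hcont : ∀ w, w ≠ 0 → ‖w‖ < δ → ContinuousAt (fun w => h w / w ^ K) w := by
    intro w hw hwδ
    have h1 : ContinuousAt h w :=
      (hh.differentiableAt (Metric.isOpen_ball.mem_nhds (mem_ball_zero_iff.2 hwδ))).continuousAt
    exact h1.div (continuousAt_id.pow K) (pow_ne_zero _ hw)
  have hOK := placeOK_of_series hall hN hδ hcont hreg
  obtain ⟨c, hc, hor⟩ := hplace hOK hh (fun w _ _ => rfl)
  obtain ⟨h1, h2⟩ := coeff_facts hδ hsum hlow hc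
  refine ⟨h1, ?_⟩
  rw [h2]
  intro hre
  rcases hor with h3 | ⟨⟨q, hq⟩, hrot⟩
  · rw [h3] at hre
    simp at hre
  · constructor
    · have : NeZero N := ⟨hN.ne'⟩
      obtain ⟨ζ₀, hζ₀⟩ : ∃ ζ : ℂ, IsPrimitiveRoot ζ N :=
        ⟨_, Complex.isPrimitiveRoot_exp N hN.ne'⟩
      have hz0 : ζ₀ ≠ 0 := hζ₀.ne_zero hN.ne'
      set ζ : ℂˣ := Units.mk0 ζ₀ hz0 with hζ
      have hζv : (ζ : ℂ) = ζ₀ := rfl
      have hord : orderOf ζ = N := by
        rw [← orderOf_units, hζv]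
        exact hζ₀.eq_orderOf.symm
      have hn : ‖(ζ : ℂ)‖ = 1 := by
        rw [hζv]
        exact hζ₀.norm'_eq_one hN.ne'
      have h4 := rot_eq_of_series hδ hsum hlow ζ hn (hrot ζ (by rw [hζv]; exact hζ₀.pow_eq_one))
      obtain ⟨y, hy⟩ := exists_subst_eq ζ ⟨N, hN⟩ hord h4
      exact ⟨y, hy⟩
    · have hq0 : (q : ℂ) ≠ 0 := by
        rintro h0
        rw [h0, mul_zero] at hq
        exact zero_ne_one hq
      have hc1 : 1 + c = 1 / (q : ℂ) := by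
        rw [eq_div_iff hq0]
        exact hq
      have hqpos : 0 < q := by
        rw [hc1] at hre
        have : (1 / (q : ℂ)).re = 1 / (q : ℝ) := by
          rw [show (1 / (q : ℂ)) = ((1 / (q : ℝ) : ℝ) : ℂ) by push_cast; rfl, Complex.ofReal_re]
        rw [this] at hre
        have h5 : (0:ℝ) < q := by
          rwa [one_div, inv_pos] at hre
        exact_mod_cast h5
      refine ⟨q.toNat, by omega, ?_⟩
      rw [hc1]
      congr 1
      have : ((q.toNat : ℤ) : ℂ) = (q : ℂ) := by rw [Int.toNat_of_nonneg hqpos.le]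
      rw [← this]
      push_cast
      rfl

end Pool.Agent.MP_ae5b4e_an_ND
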