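import Mathlib

/-!
# Identity theorem in two variables from a real half neighbourhood

A function of two complex variables analytic near the point (a, 0), a real, which vanishes at the
real points (x, y) near (a, 0) with y negative, vanishes near (a, 0).
-/

open Filter Topology Metric

namespace Pool.Agent.MP_ae5b4e_an_ND

/-- One variable step: a function analytic on the ball of radius t around the real centre c and
zero at the real points of a real neighbourhood of the real point b of the ball is zero on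
the ball. -/
theorem eqOn_zero_of_real_one {G : ℂ → ℂ} {c b t : ℝ} (hG : AnalyticOnNhd ℂ G (ball (c : ℂ) t))
    (hb : (b : ℂ) ∈ ball (c : ℂ) t) (h : ∀ᶠ x : ℝ in 𝓝 b, G (x : ℂ) = 0) :
    ∀ z ∈ ball (c : ℂ) t, G z = 0 := by
  have hfr : ∃ᶠ z : ℂ in 𝓝[≠] (b : ℂ), G z = 0 := by
    have h1 : ∃ᶠ x : ℝ in 𝓝[≠] b, G (x : ℂ) = 0 :=
      (h.filter_mono nhdsWithin_le_nhds).frequently
    have htend : Tendsto (fun x : ℝ => (x : ℂ)) (𝓝[≠] b) (𝓝[≠] (b : ℂ)) := by
      apply tendsto_nhdsWithin_of_tendsto_nhds_of_eventually_within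
      · exact (Complex.continuous_ofReal.tendsto b).mono_left nhdsWithin_le_nhds
      · filter_upwards [self_mem_nhdsWithin] with x hx
        simpa using hx
    exact htend.frequently h1
  intro z hz
  exact hG.eqOn_zero_of_preconnected_of_frequently_eq_zero
    ((convex_ball (c : ℂ) t).isPreconnected) hb hfr hz

/-- **Identity theorem from a real half neighbourhood.** -/
theorem eventually_zero_of_real {F : ℂ × ℂ → ℂ} {a : ℝ} (hF : AnalyticAt ℂ F ((a : ℂ), (0 : ℂ)))
    (h : ∀ᶠ q : ℝ × ℝ in 𝓝 (a, 0), q.2 < 0 → F ((q.1 : ℂ), (q.2 : ℂ)) = 0) :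
    ∀ᶠ p in 𝓝 ((a : ℂ), (0 : ℂ)), F p = 0 := by
  obtain ⟨r, hr, hFr⟩ := Metric.eventually_nhds_iff_ball.1 hF.eventually_analyticAt
  obtain ⟨s, hs, hs'⟩ := Metric.eventually_nhds_iff_ball.1 h
  set t := min r s with ht
  have ht0 : 0 < t := lt_min hr hs
  have hmem : ∀ z ∈ ball (a : ℂ) t, ∀ w ∈ ball (0 : ℂ) t, AnalyticAt ℂ F (z, w) := by
    intro z hz w hw
    apply hFr
    rw [← ball_prod_same]
    exact ⟨ball_subset_ball (min_le_left _ _) hz, ball_subset_ball (min_le_left _ _) hw⟩
  have hreal : ∀ x y : ℝ, |x - a| < t → |y| < t → y < 0 → F ((x : ℂ), (y : ℂ)) = 0 := by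
    intro x y hx hy hy0
    refine hs' (x, y) ?_ hy0
    rw [← ball_prod_same]
    have hts : t ≤ s := min_le_right r s
    refine ⟨ball_subset_ball hts ?_, ball_subset_ball hts ?_⟩
    · rw [mem_ball, Real.dist_eq]; exact hx
    · rw [mem_ball, Real.dist_eq, sub_zero]; exact hy
  -- fixed real negative y
  have step1 : ∀ y : ℝ, |y| < t → y < 0 → ∀ z ∈ ball (a : ℂ) t, F (z, (y : ℂ)) = 0 := by
    intro y hy hy0
    have hyb : (y : ℂ) ∈ ball (0 : ℂ) t := by
      rw [mem_ball, dist_zero_right, Complex.norm_real, Real.norm_eq_abs]; exact hy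
    refine eqOn_zero_of_real_one (G := fun z => F (z, (y : ℂ))) (c := a) (b := a) (t := t)
      ?_ (mem_ball_self ht0) ?_
    · intro z hz
      exact (hmem z hz _ hyb).comp₂ analyticAt_id analyticAt_const
    · have : ∀ᶠ x : ℝ in 𝓝 a, |x - a| < t := by
        have := ball_mem_nhds a ht0
        filter_upwards [this] with x hx
        rwa [mem_ball, Real.dist_eq] at hx
      filter_upwards [this] with x hx
      exact hreal x y hx hy hy0
  -- fixed z
  have step2 : ∀ z ∈ ball (a : ℂ) t, ∀ w ∈ ball (0 : ℂ) t, F (z, w) = 0 := by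
    intro z hz
    have hb : ((-(t / 2) : ℝ) : ℂ) ∈ ball ((0 : ℝ) : ℂ) t := by
      rw [Complex.ofReal_zero, mem_ball, dist_zero_right, Complex.norm_real, Real.norm_eq_abs,
        abs_neg, abs_of_pos (by positivity)]
      linarith
    have := eqOn_zero_of_real_one (G := fun w => F (z, w)) (c := 0) (b := -(t / 2)) (t := t)
      ?_ hb ?_
    · intro w hw
      exact this w (by simpa using hw)
    · intro w hw
      exact (hmem z hz w (by simpa using hw)).comp₂ analyticAt_const analyticAt_id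
    · have h1 : ∀ᶠ y : ℝ in 𝓝 (-(t / 2)), y < 0 := eventually_lt_nhds (by linarith)
      have h2 : ∀ᶠ y : ℝ in 𝓝 (-(t / 2)), -t < y := eventually_gt_nhds (by linarith)
      filter_upwards [h1, h2] with y hy1 hy2
      exact step1 y (by rw [abs_of_neg hy1]; linarith) hy1 z hz
  rw [Metric.eventually_nhds_iff_ball]
  refine ⟨t, ht0, ?_⟩
  rintro ⟨z, w⟩ hp
  rw [← ball_prod_same] at hp
  exact step2 z hp.1 w hp.2

end Pool.Agent.MP_ae5b4e_an_ND
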