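import Pool.Agent.Lib.MP_ae5b4e_an_LAT.NDGeoB
import Pool.Agent.Lib.MP_ae5b4e_an_LAT.NDDefs
import Pool.Agent.Lib.MP_ae5b4e_an_LAT.NDCplx
import Pool.Agent.Lib.MP_ae5b4e_an_LAT.NDIdent

/-!
# MP_ae5b4e_an: a foliation which is real-analytic near a point of the conic gives `Good`
-/

noncomputable section

open Filter Topology Real Set

namespace Pool.Agent.MP_ae5b4e_an_ND

/-- One variable complexification, from the two variable one. -/
lemma exists_complexification1 {f : ℝ → ℝ} {a : ℝ} (hf : AnalyticAt ℝ f a) :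
    ∃ F : ℂ → ℂ, AnalyticAt ℂ F (a : ℂ) ∧ ∀ᶠ x : ℝ in 𝓝 a, F (x : ℂ) = (f x : ℂ) := by
  have h1 : AnalyticAt ℝ (fun q : ℝ × ℝ => f q.1) (a, 0) :=
    AnalyticAt.comp (x := ((a, 0) : ℝ × ℝ)) (g := f) (f := fun q : ℝ × ℝ => q.1) hf analyticAt_fst
  obtain ⟨F, hF, hFf⟩ := exists_complexification2 h1
  refine ⟨fun z => F (z, 0), ?_, ?_⟩
  · have h2 : AnalyticAt ℂ (fun z : ℂ => ((z, 0) : ℂ × ℂ)) (a : ℂ) :=
      analyticAt_id.prod analyticAt_const
    have hF' : AnalyticAt ℂ F ((fun z : ℂ => ((z, 0) : ℂ × ℂ)) (a : ℂ)) := by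
      simpa using hF
    exact AnalyticAt.comp hF' h2
  · have h2 : Tendsto (fun x : ℝ => ((x, 0) : ℝ × ℝ)) (𝓝 a) (𝓝 (a, 0)) := by
      have : Continuous (fun x : ℝ => ((x, 0) : ℝ × ℝ)) := by fun_prop
      exact this.tendsto a
    filter_upwards [h2.eventually hFf] with x hx
    simpa using hx

/-- An analytic function of one variable which vanishes at the real points vanishes. -/
lemma eventually_zero_of_real1 {F : ℂ → ℂ} {a : ℝ} (hF : AnalyticAt ℂ F (a : ℂ))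
    (h : ∀ᶠ x : ℝ in 𝓝 a, F (x : ℂ) = 0) : ∀ᶠ z in 𝓝 (a : ℂ), F z = 0 := by
  rcases hF.eventually_eq_zero_or_eventually_ne_zero with h1 | h1
  · exact h1
  · exfalso
    have h2 : Tendsto (fun x : ℝ => (x : ℂ)) (𝓝[≠] a) (𝓝[≠] (a : ℂ)) := by
      refine tendsto_nhdsWithin_of_tendsto_nhds_of_eventually_within _
        ((Complex.continuous_ofReal.tendsto a).mono_left nhdsWithin_le_nhds) ?_
      filter_upwards [self_mem_nhdsWithin] with x hx
      exact fun h => hx (Complex.ofReal_injective h)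
    obtain ⟨x, hx, hx'⟩ := ((h2.eventually h1).and (h.filter_mono nhdsWithin_le_nhds)).exists
    exact hx hx'

theorem geo {S : ℝ → ℝ → ℝ} {κ : ℝ → ℝ} {x₀ : ℝ} {Sa : ℝ × ℝ → ℝ}
    (hfe : ∀ c ∈ Ioo (0:ℝ) 1, ∀ θ, (S c (θ + 2 * arctan (S c θ)))⁻¹ -
      κ (θ + 2 * arctan (S c θ)) = (S c θ)⁻¹)
    (hlim : ∀ θ, Tendsto (fun c => S c θ) (𝓝[>] 0) (𝓝 0))
    (hκ : AnalyticAt ℝ κ (2 * arctan x₀))
    (hSa : AnalyticAt ℝ Sa (0, 2 * arctan x₀))
    (heq : ∀ᶠ q in 𝓝 ((0, 2 * arctan x₀) : ℝ × ℝ), 0 < q.1 → Sa q = S q.1 q.2)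
    (hd : 0 < deriv (fun c => Sa (c, 2 * arctan x₀)) 0) :
    ∃ kc : ℂ → ℂ, Good kc (x₀ : ℂ) ∧ ∀ᶠ x : ℝ in 𝓝 x₀, kc (x : ℂ) = (kr κ x : ℂ) := by
  set θ₀ := 2 * arctan x₀ with hθ₀
  -- `Sa (0, θ) = 0`
  have h0 : ∀ᶠ θ in 𝓝 θ₀, Sa (0, θ) = 0 := by
    have hcont : Tendsto (fun θ : ℝ => ((0, θ) : ℝ × ℝ)) (𝓝 θ₀) (𝓝 (0, θ₀)) := by
      have : Continuous (fun θ : ℝ => ((0, θ) : ℝ × ℝ)) := by fun_prop
      exact this.tendsto θ₀
    filter_upwards [hcont.eventually heq.eventually_nhds,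
      hcont.eventually hSa.eventually_analyticAt] with θ h1 h2
    have h3 : Tendsto (fun c : ℝ => ((c, θ) : ℝ × ℝ)) (𝓝 0) (𝓝 (0, θ)) := by
      have : Continuous (fun c : ℝ => ((c, θ) : ℝ × ℝ)) := by fun_prop
      exact this.tendsto 0
    have h4 : Tendsto (fun c : ℝ => Sa (c, θ)) (𝓝[>] 0) (𝓝 (Sa (0, θ))) :=
      (h2.continuousAt.tendsto.comp h3).mono_left nhdsWithin_le_nhds
    have h5 : Tendsto (fun c : ℝ => Sa (c, θ)) (𝓝[>] 0) (𝓝 0) := by
      refine (hlim θ).congr' ?_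
      filter_upwards [(h3.eventually h1).filter_mono nhdsWithin_le_nhds, self_mem_nhdsWithin]
        with c hc hc'
      exact (hc hc').symm
    exact tendsto_nhds_unique h4 h5
  obtain ⟨C, hCa, hC0, hiff, hCz, hC1, hCd⟩ := exists_param hSa h0 hd
  have hinv := Sr_inv hfe hκ heq hCa hC0 hiff hCz hCd
  have hSr := analyticAt_Sr hCa
  have hSrd := hasDerivAt_Sr hCa hC1
  have hkr := analyticAt_kr hκ
  obtain ⟨kc, hkc, hkcr⟩ := exists_complexification1 hkr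
  obtain ⟨Sc, hSc, hScr⟩ := exists_complexification2 hSr
  simp only [Complex.ofReal_zero] at hSc
  have hlift : ∀ x : ℝ, Tendsto (fun y : ℝ => ((x, y) : ℝ × ℝ)) (𝓝 0) (𝓝 (x, 0)) := by
    intro x
    have : Continuous (fun y : ℝ => ((x, y) : ℝ × ℝ)) := by fun_prop
    exact this.tendsto 0
  have hline : Tendsto (fun x : ℝ => ((x, 0) : ℝ × ℝ)) (𝓝 x₀) (𝓝 (x₀, 0)) := by
    have : Continuous (fun x : ℝ => ((x, 0) : ℝ × ℝ)) := by fun_prop
    exact this.tendsto x₀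
  have hTTa : AnalyticAt ℂ (TT kc) ((x₀ : ℂ), 0) := by
    have h1 : AnalyticAt ℂ (fun p : ℂ × ℂ => kc p.1) ((x₀ : ℂ), 0) :=
      AnalyticAt.comp (x := (((x₀ : ℂ), 0) : ℂ × ℂ)) (g := kc) (f := fun q : ℂ × ℂ => q.1) hkc
        analyticAt_fst
    have h2 : AnalyticAt ℂ (fun p : ℂ × ℂ => p.2 / (1 - kc p.1 * p.2)) ((x₀ : ℂ), 0) := by
      refine analyticAt_snd.div (analyticAt_const.sub (h1.mul analyticAt_snd)) ?_
      simp
    exact (analyticAt_fst.sub h2).prod h2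
  have hTT0 : TT kc ((x₀ : ℂ), 0) = ((x₀ : ℂ), 0) := by simp [TT]
  refine ⟨kc, ⟨hkc, Sc, hSc, ?_, ?_, ?_⟩, hkcr⟩
  · -- `Sc (x, 0) = 0`
    refine eventually_zero_of_real1 (F := fun x => Sc (x, 0)) ?_ ?_
    · have h2 : AnalyticAt ℂ (fun z : ℂ => ((z, 0) : ℂ × ℂ)) (x₀ : ℂ) :=
        analyticAt_id.prod analyticAt_const
      exact AnalyticAt.comp (g := Sc) (f := fun z : ℂ => ((z, 0) : ℂ × ℂ)) hSc h2
    · have h3 : ∀ᶠ x in 𝓝 x₀, C (0, 2 * arctan x) = 0 := by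
        have h4 : Tendsto (fun x : ℝ => 2 * arctan x) (𝓝 x₀) (𝓝 θ₀) := by
          have : Continuous (fun x : ℝ => 2 * arctan x) := by fun_prop
          exact this.tendsto x₀
        exact h4.eventually hCz
      filter_upwards [hline.eventually hScr, h3] with x hx hx'
      simp only [Complex.ofReal_zero] at hx
      rw [hx, Sr]
      simp only [neg_zero, mul_zero, add_zero, zero_div]
      rw [hx', Complex.ofReal_zero]
  · -- the derivative
    have h1 : HasDerivAt (fun y => Sc ((x₀ : ℂ), y)) (deriv (fun y => Sc ((x₀ : ℂ), y)) 0) 0 := by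
      have h2 : AnalyticAt ℂ (fun z : ℂ => (((x₀ : ℂ), z) : ℂ × ℂ)) 0 :=
        analyticAt_const.prod analyticAt_id
      exact (AnalyticAt.comp (g := Sc) (f := fun z : ℂ => (((x₀ : ℂ), z) : ℂ × ℂ))
        hSc h2).differentiableAt.hasDerivAt
    have h2 : HasDerivAt (fun y : ℝ => Sc ((x₀ : ℂ), (y : ℂ)))
        (deriv (fun y => Sc ((x₀ : ℂ), y)) 0) 0 := by
      have h1' : HasDerivAt (fun y => Sc ((x₀ : ℂ), y)) (deriv (fun y => Sc ((x₀ : ℂ), y)) 0)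
        ((0:ℝ) : ℂ) := by
        rw [Complex.ofReal_zero]
        exact h1
      exact h1'.comp_ofReal
    have h3 : HasDerivAt (fun y : ℝ => ((Sr C (x₀, y) : ℝ) : ℂ))
        ((-(fderiv ℝ C (0, θ₀) (1, 0)) / (1 + x₀ ^ 2) : ℝ) : ℂ) 0 := hSrd.ofReal_comp
    have h4 : (fun y : ℝ => Sc ((x₀ : ℂ), (y : ℂ))) =ᶠ[𝓝 0] fun y : ℝ => ((Sr C (x₀, y) : ℝ) : ℂ) := by
      filter_upwards [(hlift x₀).eventually hScr] with y hy
      exact hy
    have h5 := h2.unique (h3.congr_of_eventuallyEq h4)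
    rw [h5]
    have h6 : (-(fderiv ℝ C (0, θ₀) (1, 0)) / (1 + x₀ ^ 2)) ≠ 0 :=
      div_ne_zero (neg_ne_zero.2 hCd.ne') (one_add_sq_ne x₀)
    exact_mod_cast h6
  · -- invariance
    have h1 : ∀ᶠ p in 𝓝 ((x₀ : ℂ), (0 : ℂ)), Sc (TT kc p) - Sc p = 0 := by
      refine eventually_zero_of_real (F := fun p => Sc (TT kc p) - Sc p) ?_ ?_
      · have h2 : AnalyticAt ℂ Sc (TT kc ((x₀ : ℂ), 0)) := by rw [hTT0]; exact hSc
        exact (h2.comp hTTa).sub hSc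
      · have hk1 : ∀ᶠ q : ℝ × ℝ in 𝓝 (x₀, 0), kc (q.1 : ℂ) = (kr κ q.1 : ℂ) := by
          have : Tendsto (fun q : ℝ × ℝ => q.1) (𝓝 (x₀, 0)) (𝓝 x₀) :=
            continuous_fst.tendsto' _ _ rfl
          exact this.eventually hkcr
        have tT : Tendsto (TTr (kr κ)) (𝓝 (x₀, 0)) (𝓝 (x₀, 0)) := by
          have hk := hkr.continuousAt
          have h1 : ContinuousAt (fun q : ℝ × ℝ => kr κ q.1) (x₀, 0) :=
            ContinuousAt.comp (x := ((x₀, 0) : ℝ × ℝ)) (g := kr κ) (f := fun q : ℝ × ℝ => q.1) hk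
              continuousAt_fst
          have h2 : ContinuousAt (fun q : ℝ × ℝ => q.2 / (1 - kr κ q.1 * q.2)) (x₀, 0) := by
            refine continuousAt_snd.div (continuousAt_const.sub (h1.mul continuousAt_snd)) ?_
            simp
          have h3 : ContinuousAt (TTr (kr κ)) (x₀, 0) := (continuousAt_fst.sub h2).prodMk h2
          have h4 : TTr (kr κ) (x₀, 0) = (x₀, 0) := by simp [TTr]
          rw [ContinuousAt, h4] at h3
          exact h3
        filter_upwards [hk1, hinv, hScr, tT.eventually hScr] with q e1 e2 e3 e4 hq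
        have h2 : TT kc ((q.1 : ℂ), (q.2 : ℂ)) =
            (((TTr (kr κ) q).1 : ℂ), ((TTr (kr κ) q).2 : ℂ)) := by
          simp only [TT, TTr, e1]
          push_cast
          rfl
        rw [h2, e4, e3, e2 hq, sub_self]
    filter_upwards [h1] with p hp
    exact sub_eq_zero.1 hp

end Pool.Agent.MP_ae5b4e_an_ND
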