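import Mathlib

/-!
# MP_ae5b4e_an: the leaf parameter as a real-analytic function

`exists_param`: the leaf parameter `C (s, θ)`, with `Sa (C (s, θ), θ) = s`.
-/

noncomputable section

open Filter Topology Real

namespace Pool.Agent.MP_ae5b4e_an_ND

/-- The leaf parameter as a function of `s` and `θ`. -/
theorem exists_param {Sa : ℝ × ℝ → ℝ} {θ₀ : ℝ} (hSa : AnalyticAt ℝ Sa (0, θ₀))
    (h0 : ∀ᶠ θ in 𝓝 θ₀, Sa (0, θ) = 0) (hdpos : 0 < deriv (fun c => Sa (c, θ₀)) 0) :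
    ∃ C : ℝ × ℝ → ℝ, AnalyticAt ℝ C (0, θ₀) ∧ C (0, θ₀) = 0 ∧
      (∀ᶠ p : (ℝ × ℝ) × ℝ in 𝓝 ((0, θ₀), 0), Sa (p.2, p.1.2) = p.1.1 ↔ C p.1 = p.2) ∧
      (∀ᶠ θ in 𝓝 θ₀, C (0, θ) = 0) ∧
      fderiv ℝ C (0, θ₀) (0, 1) = 0 ∧ 0 < fderiv ℝ C (0, θ₀) (1, 0) := by
  set d := deriv (fun c => Sa (c, θ₀)) 0 with hd'
  have hd : d ≠ 0 := hdpos.ne'
  set F : (ℝ × ℝ) × ℝ → ℝ := fun p => Sa (p.2, p.1.2) - p.1.1 with hF
  have hFa : AnalyticAt ℝ F ((0, θ₀), 0) := by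
    have h1 : AnalyticAt ℝ (fun p : (ℝ × ℝ) × ℝ => ((p.2, p.1.2) : ℝ × ℝ)) ((0, θ₀), 0) :=
      analyticAt_snd.prod (analyticAt_snd.comp analyticAt_fst)
    exact (AnalyticAt.comp (f := fun p : (ℝ × ℝ) × ℝ => ((p.2, p.1.2) : ℝ × ℝ)) hSa h1).sub
      (analyticAt_fst.comp analyticAt_fst)
  have hF0 : F ((0, θ₀), 0) = 0 := by
    simp only [hF]
    rw [h0.self_of_nhds, sub_zero]
  have hcd : ContDiffAt ℝ ⊤ F ((0, θ₀), 0) := hFa.contDiffAt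
  have hSd : HasDerivAt (fun c => Sa (c, θ₀)) d 0 := by
    have h1 : DifferentiableAt ℝ (fun c => Sa (c, θ₀)) 0 := by
      have h2 : AnalyticAt ℝ (fun c : ℝ => ((c, θ₀) : ℝ × ℝ)) 0 :=
        analyticAt_id.prod analyticAt_const
      exact (AnalyticAt.comp (f := fun c : ℝ => ((c, θ₀) : ℝ × ℝ)) hSa h2).differentiableAt
    exact h1.hasDerivAt
  have ht : HasDerivAt (fun t => F ((0, θ₀), t)) d 0 := by
    have h1 := hSd.sub_const 0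
    exact h1
  have hinr : (fderiv ℝ F ((0, θ₀), 0)) ∘L .inr ℝ (ℝ × ℝ) ℝ =
      ContinuousLinearMap.toSpanSingleton ℝ d := by
    have h1 : HasFDerivAt F (fderiv ℝ F ((0, θ₀), 0)) ((0, θ₀), 0) :=
      hFa.differentiableAt.hasFDerivAt
    have h2 : HasFDerivAt (fun t : ℝ => (((0, θ₀), t) : (ℝ × ℝ) × ℝ)) (.inr ℝ (ℝ × ℝ) ℝ) 0 :=
      hasFDerivAt_prodMk_right (0, θ₀) 0
    have h3 := h1.comp (0:ℝ) h2
    exact h3.unique ht.hasFDerivAt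
  have hinv : ((fderiv ℝ F ((0, θ₀), 0)) ∘L .inr ℝ (ℝ × ℝ) ℝ).IsInvertible := by
    rw [hinr]
    refine ⟨ContinuousLinearEquiv.unitsEquivAut ℝ (Units.mk0 d hd), ?_⟩
    ext
    simp
  have hiff : ∀ᶠ p : (ℝ × ℝ) × ℝ in 𝓝 ((0, θ₀), 0), Sa (p.2, p.1.2) = p.1.1 ↔
      hcd.implicitFunction (by simp) hinv p.1 = p.2 := by
    have := hcd.eventually_apply_eq_iff_implicitFunction (by simp) hinv
    rw [hF0] at this
    filter_upwards [this] with p hp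
    rw [← hp]
    simp only [hF]
    exact sub_eq_zero.symm
  set C : ℝ × ℝ → ℝ := hcd.implicitFunction (by simp) hinv with hC
  have hCa : AnalyticAt ℝ C (0, θ₀) := by
    have := hcd.contDiffAt_implicitFunction (by simp) hinv
    exact this.analyticAt
  have hC0 : C (0, θ₀) = 0 := hcd.implicitFunction_apply_self (by simp) hinv
  have hCz : ∀ᶠ θ in 𝓝 θ₀, C (0, θ) = 0 := by
    have h1 : Tendsto (fun θ : ℝ => (((0, θ), 0) : (ℝ × ℝ) × ℝ)) (𝓝 θ₀) (𝓝 ((0, θ₀), 0)) := by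
      have : Continuous (fun θ : ℝ => (((0, θ), 0) : (ℝ × ℝ) × ℝ)) := by fun_prop
      exact this.tendsto θ₀
    filter_upwards [h1.eventually hiff, h0] with θ h2 h3
    exact h2.1 h3
  have hCf : HasFDerivAt C (fderiv ℝ C (0, θ₀)) (0, θ₀) := hCa.differentiableAt.hasFDerivAt
  refine ⟨C, hCa, hC0, hiff, hCz, ?_, ?_⟩
  · have h2 : HasDerivAt (fun θ : ℝ => ((0, θ) : ℝ × ℝ)) (0, 1) θ₀ :=
      (hasDerivAt_const θ₀ (0:ℝ)).prodMk (hasDerivAt_id θ₀)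
    have h3 := hCf.comp_hasDerivAt θ₀ h2
    have h4 : HasDerivAt (fun _ : ℝ => (0:ℝ)) 0 θ₀ := hasDerivAt_const θ₀ 0
    exact h3.unique (h4.congr_of_eventuallyEq hCz)
  · have h1 : ∀ᶠ c in 𝓝 (0:ℝ), C (Sa (c, θ₀), θ₀) = c := by
      have h2 : Tendsto (fun c : ℝ => (((Sa (c, θ₀), θ₀), c) : (ℝ × ℝ) × ℝ)) (𝓝 0)
          (𝓝 ((0, θ₀), 0)) := by
        have h3 : Tendsto (fun c : ℝ => Sa (c, θ₀)) (𝓝 0) (𝓝 0) := by
          have := hSd.continuousAt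
          rw [ContinuousAt, h0.self_of_nhds] at this
          exact this
        rw [nhds_prod_eq, nhds_prod_eq]
        exact (h3.prodMk tendsto_const_nhds).prodMk tendsto_id
      filter_upwards [h2.eventually hiff] with c hc
      exact hc.1 rfl
    have h2 : HasDerivAt (fun c : ℝ => ((Sa (c, θ₀), θ₀) : ℝ × ℝ)) (d, 0) 0 :=
      hSd.prodMk (hasDerivAt_const (0:ℝ) θ₀)
    have hCf' : HasFDerivAt C (fderiv ℝ C (0, θ₀)) (Sa (0, θ₀), θ₀) := by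
      rw [h0.self_of_nhds]
      exact hCf
    have h3 := HasFDerivAt.comp_hasDerivAt (0:ℝ) hCf' h2
    have h4 : HasDerivAt (fun c : ℝ => c) 1 0 := hasDerivAt_id 0
    have h5 : fderiv ℝ C (0, θ₀) (d, 0) = 1 := h3.unique (h4.congr_of_eventuallyEq h1)
    have h6 : ((d, 0) : ℝ × ℝ) = d • ((1, 0) : ℝ × ℝ) := by simp
    rw [h6, map_smul, smul_eq_mul] at h5
    have h7 : 0 < d * fderiv ℝ C (0, θ₀) (1, 0) := by rw [h5]; exact one_pos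
    exact (mul_pos_iff_of_pos_left hdpos).1 h7

end Pool.Agent.MP_ae5b4e_an_ND
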