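import Pool.Agent.Lib.MP_ae5b4e_an_LAT.NDGeoA

/-!
# MP_ae5b4e_an: the first integral of the map of consecutive pairs, real part
-/

noncomputable section

open Filter Topology Real Set

namespace Pool.Agent.MP_ae5b4e_an_ND

/-- A function with `g (0, θ) = 0` and positive derivative is positive for `s > 0`. -/
lemma pos_of_fderiv {g : ℝ × ℝ → ℝ} {θ₀ : ℝ} (hg : AnalyticAt ℝ g (0, θ₀))
    (h0 : ∀ᶠ θ in 𝓝 θ₀, g (0, θ) = 0) (hd : 0 < fderiv ℝ g (0, θ₀) (1, 0)) :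
    ∀ᶠ q in 𝓝 ((0, θ₀) : ℝ × ℝ), 0 < q.1 → 0 < g q := by
  have h1 : ContinuousAt (fun q : ℝ × ℝ => fderiv ℝ g q (1, 0)) (0, θ₀) :=
    hg.fderiv.continuousAt.clm_apply continuousAt_const
  have h2 : ∀ᶠ q in 𝓝 ((0, θ₀) : ℝ × ℝ), 0 < fderiv ℝ g q (1, 0) := h1.eventually (lt_mem_nhds hd)
  have h3 : ∀ᶠ q in 𝓝 ((0, θ₀) : ℝ × ℝ), g (0, q.2) = 0 := by
    have : Tendsto (fun q : ℝ × ℝ => q.2) (𝓝 ((0, θ₀) : ℝ × ℝ)) (𝓝 θ₀) :=
      continuous_snd.tendsto' _ _ rfl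
    exact this.eventually h0
  obtain ⟨R, hR, hball⟩ := Metric.eventually_nhds_iff_ball.1
    (h2.and (h3.and hg.eventually_analyticAt))
  filter_upwards [Metric.ball_mem_nhds _ hR] with q hq hq0
  obtain ⟨s, θ⟩ := q
  simp only at hq0
  have hmem : ∀ t ∈ Icc (0:ℝ) s, ((t, θ) : ℝ × ℝ) ∈ Metric.ball ((0, θ₀) : ℝ × ℝ) R := by
    intro t ht
    rw [Metric.mem_ball, Prod.dist_eq, max_lt_iff] at hq ⊢
    refine ⟨?_, hq.2⟩
    have := hq.1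
    simp only [Real.dist_eq, sub_zero] at this ⊢
    rw [abs_of_nonneg ht.1]
    rw [abs_of_pos hq0] at this
    linarith [ht.2]
  have hder : ∀ t ∈ Icc (0:ℝ) s, HasDerivAt (fun t => g (t, θ)) (fderiv ℝ g (t, θ) (1, 0)) t := by
    intro t ht
    have h4 : HasDerivAt (fun t : ℝ => ((t, θ) : ℝ × ℝ)) (1, 0) t :=
      (hasDerivAt_id t).prodMk (hasDerivAt_const t θ)
    exact ((hball _ (hmem t ht)).2.2.differentiableAt.hasFDerivAt).comp_hasDerivAt t h4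
  have hmono : StrictMonoOn (fun t => g (t, θ)) (Icc (0:ℝ) s) := by
    refine strictMonoOn_of_deriv_pos (convex_Icc 0 s)
      (fun t ht => (hder t ht).continuousAt.continuousWithinAt) fun t ht => ?_
    rw [interior_Icc] at ht
    have ht' := Ioo_subset_Icc_self ht
    rw [(hder t ht').deriv]
    exact (hball _ (hmem t ht')).1
  have h5 := hmono (left_mem_Icc.2 hq0.le) (right_mem_Icc.2 hq0.le) hq0
  have h6 := (hball _ (hmem s (right_mem_Icc.2 hq0.le))).2.1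
  simp only at h5 h6
  rw [h6] at h5
  exact h5

/-- The curvature function of the recursion `1/(x⁺ - x) - 1/(x - x⁻) = kr κ x`. -/
def kr (κ : ℝ → ℝ) (x : ℝ) : ℝ := (κ (2 * arctan x) - 2 * x) / (1 + x ^ 2)

/-- The map of consecutive pairs. -/
def TTr (k : ℝ → ℝ) (q : ℝ × ℝ) : ℝ × ℝ :=
  (q.1 - q.2 / (1 - k q.1 * q.2), q.2 / (1 - k q.1 * q.2))

/-- The first integral. -/
def Sr (C : ℝ × ℝ → ℝ) (q : ℝ × ℝ) : ℝ :=
  C (-q.2 / (1 + q.1 ^ 2 + q.1 * q.2), 2 * arctan (q.1 + q.2))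

lemma analyticAt_arctan (x : ℝ) : AnalyticAt ℝ arctan x :=
  (contDiff_arctan (n := ⊤)).contDiffAt.analyticAt

lemma one_add_sq_ne (x : ℝ) : (1 + x ^ 2 : ℝ) ≠ 0 := by positivity

lemma analyticAt_kr {κ : ℝ → ℝ} {x₀ : ℝ} (hκ : AnalyticAt ℝ κ (2 * arctan x₀)) :
    AnalyticAt ℝ (kr κ) x₀ := by
  unfold kr
  have h1 : AnalyticAt ℝ (fun x : ℝ => 2 * arctan x) x₀ := analyticAt_const.mul (analyticAt_arctan x₀)
  have h2 : AnalyticAt ℝ (fun x : ℝ => κ (2 * arctan x)) x₀ :=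
    AnalyticAt.comp (f := fun x : ℝ => 2 * arctan x) hκ h1
  refine (h2.sub (analyticAt_const.mul analyticAt_id)).div
    (analyticAt_const.add (analyticAt_id.pow 2)) ?_
  exact one_add_sq_ne x₀

lemma analyticAt_Srin {x₀ : ℝ} : AnalyticAt ℝ (fun q : ℝ × ℝ =>
    ((-q.2 / (1 + q.1 ^ 2 + q.1 * q.2), 2 * arctan (q.1 + q.2)) : ℝ × ℝ)) (x₀, 0) := by
  refine AnalyticAt.prod ?_ ?_
  · refine (analyticAt_snd.neg).div
      ((analyticAt_const.add (analyticAt_fst.pow 2)).add (analyticAt_fst.mul analyticAt_snd)) ?_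
    simp only [mul_zero, add_zero]
    exact one_add_sq_ne x₀
  · refine analyticAt_const.mul ?_
    exact AnalyticAt.comp (f := fun q : ℝ × ℝ => q.1 + q.2) (analyticAt_arctan _)
      (analyticAt_fst.add analyticAt_snd)

lemma Srin_base (x₀ : ℝ) : ((-(0:ℝ) / (1 + x₀ ^ 2 + x₀ * 0), 2 * arctan (x₀ + 0)) : ℝ × ℝ) =
    (0, 2 * arctan x₀) := by
  simp

lemma analyticAt_Sr {C : ℝ × ℝ → ℝ} {x₀ : ℝ} (hC : AnalyticAt ℝ C (0, 2 * arctan x₀)) :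
    AnalyticAt ℝ (Sr C) (x₀, 0) := by
  have h1 : AnalyticAt ℝ C ((fun q : ℝ × ℝ =>
    ((-q.2 / (1 + q.1 ^ 2 + q.1 * q.2), 2 * arctan (q.1 + q.2)) : ℝ × ℝ)) (x₀, 0)) := by
    simp only
    rw [Srin_base]
    exact hC
  exact AnalyticAt.comp h1 analyticAt_Srin

/-- The `y`-derivative of the first integral is not zero. -/
lemma hasDerivAt_Sr {C : ℝ × ℝ → ℝ} {x₀ : ℝ} (hC : AnalyticAt ℝ C (0, 2 * arctan x₀))
    (h1 : fderiv ℝ C (0, 2 * arctan x₀) (0, 1) = 0) :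
    HasDerivAt (fun y => Sr C (x₀, y)) (-(fderiv ℝ C (0, 2 * arctan x₀) (1, 0)) / (1 + x₀ ^ 2)) 0 := by
  have h2 : HasDerivAt (fun y : ℝ => -y / (1 + x₀ ^ 2 + x₀ * y)) (-1 / (1 + x₀ ^ 2)) 0 := by
    have h3 : HasDerivAt (fun y : ℝ => -y) (-1) 0 := (hasDerivAt_id (0:ℝ)).neg
    have h4 : HasDerivAt (fun y : ℝ => 1 + x₀ ^ 2 + x₀ * y) (x₀ * 1) 0 :=
      ((hasDerivAt_id (0:ℝ)).const_mul x₀).const_add _
    have h5 := h3.div h4 (by simp only [mul_zero, add_zero]; exact one_add_sq_ne x₀)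
    refine h5.congr_deriv ?_
    have := one_add_sq_ne x₀
    rw [mul_zero, add_zero, neg_zero, zero_mul, sub_zero, div_eq_div_iff (pow_ne_zero 2 this) this]
    ring
  have h6 : HasDerivAt (fun y : ℝ => 2 * arctan (x₀ + y)) (2 / (1 + x₀ ^ 2)) 0 := by
    have h7 : HasDerivAt arctan (1 / (1 + x₀ ^ 2)) (x₀ + 0) := by
      rw [add_zero]
      exact hasDerivAt_arctan x₀
    have h8 := (HasDerivAt.comp_const_add x₀ 0 h7).const_mul 2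
    refine h8.congr_deriv ?_
    ring
  have h9 := h2.prodMk h6
  have hCf : HasFDerivAt C (fderiv ℝ C (0, 2 * arctan x₀))
      (-0 / (1 + x₀ ^ 2 + x₀ * 0), 2 * arctan (x₀ + 0)) := by
    rw [Srin_base]
    exact hC.differentiableAt.hasFDerivAt
  have h10 := HasFDerivAt.comp_hasDerivAt (0:ℝ) hCf h9
  refine h10.congr_deriv ?_
  have e : ((-1 / (1 + x₀ ^ 2), 2 / (1 + x₀ ^ 2)) : ℝ × ℝ) =
      (-1 / (1 + x₀ ^ 2)) • ((1, 0) : ℝ × ℝ) + (2 / (1 + x₀ ^ 2)) • ((0, 1) : ℝ × ℝ) := by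
    simp
  rw [e, map_add, map_smul, map_smul, h1, smul_zero, add_zero, smul_eq_mul]
  ring

/-- The first integral is invariant. -/
lemma Sr_inv {S : ℝ → ℝ → ℝ} {κ : ℝ → ℝ} {x₀ : ℝ} {Sa C : ℝ × ℝ → ℝ}
    (hfe : ∀ c ∈ Ioo (0:ℝ) 1, ∀ θ, (S c (θ + 2 * arctan (S c θ)))⁻¹ -
      κ (θ + 2 * arctan (S c θ)) = (S c θ)⁻¹)
    (hκ : AnalyticAt ℝ κ (2 * arctan x₀))
    (heq : ∀ᶠ q in 𝓝 ((0, 2 * arctan x₀) : ℝ × ℝ), 0 < q.1 → Sa q = S q.1 q.2)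
    (hC : AnalyticAt ℝ C (0, 2 * arctan x₀)) (hC0 : C (0, 2 * arctan x₀) = 0)
    (hiff : ∀ᶠ p : (ℝ × ℝ) × ℝ in 𝓝 ((0, 2 * arctan x₀), 0), Sa (p.2, p.1.2) = p.1.1 ↔ C p.1 = p.2)
    (hCz : ∀ᶠ θ in 𝓝 (2 * arctan x₀), C (0, θ) = 0)
    (hCd : 0 < fderiv ℝ C (0, 2 * arctan x₀) (1, 0)) :
    ∀ᶠ q in 𝓝 ((x₀, 0) : ℝ × ℝ), q.2 < 0 → Sr C (TTr (kr κ) q) = Sr C q := by
  -- the pair `(s, θ⁻)`
  have t1 : Tendsto (fun q : ℝ × ℝ =>
      ((-q.2 / (1 + q.1 ^ 2 + q.1 * q.2), 2 * arctan (q.1 + q.2)) : ℝ × ℝ)) (𝓝 (x₀, 0))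
      (𝓝 (0, 2 * arctan x₀)) := by
    have := (analyticAt_Srin (x₀ := x₀)).continuousAt
    rw [ContinuousAt, Srin_base] at this
    exact this
  have t2 : Tendsto (Sr C) (𝓝 (x₀, 0)) (𝓝 0) := by
    have h1 : Tendsto C (𝓝 (0, 2 * arctan x₀)) (𝓝 0) := by
      have := hC.continuousAt
      rw [ContinuousAt, hC0] at this
      exact this
    exact h1.comp t1
  have hk := (analyticAt_kr hκ).continuousAt
  have tT : Tendsto (TTr (kr κ)) (𝓝 (x₀, 0)) (𝓝 (x₀, 0)) := by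
    have h1 : ContinuousAt (fun q : ℝ × ℝ => kr κ q.1) (x₀, 0) :=
      ContinuousAt.comp (x := ((x₀, 0) : ℝ × ℝ)) (g := kr κ) (f := fun q : ℝ × ℝ => q.1) hk
        continuousAt_fst
    have h2 : ContinuousAt (fun q : ℝ × ℝ => q.2 / (1 - kr κ q.1 * q.2)) (x₀, 0) := by
      refine continuousAt_snd.div (continuousAt_const.sub (h1.mul continuousAt_snd)) ?_
      simp
    have h3 : ContinuousAt (TTr (kr κ)) (x₀, 0) := (continuousAt_fst.sub h2).prodMk h2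
    have h4 : TTr (kr κ) (x₀, 0) = (x₀, 0) := by simp [TTr]
    rw [ContinuousAt, h4] at h3
    exact h3
  have e1 : ∀ᶠ q in 𝓝 ((x₀, 0) : ℝ × ℝ), 0 < 1 + q.1 ^ 2 + q.1 * q.2 := by
    have h1 : Continuous (fun q : ℝ × ℝ => 1 + q.1 ^ 2 + q.1 * q.2) := by fun_prop
    refine (h1.tendsto (x₀, 0)).eventually (lt_mem_nhds ?_)
    simp only [mul_zero, add_zero]
    positivity
  have e2 : ∀ᶠ q in 𝓝 ((x₀, 0) : ℝ × ℝ), 0 < 1 - kr κ q.1 * q.2 := by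
    have h1 : ContinuousAt (fun q : ℝ × ℝ => kr κ q.1) (x₀, 0) :=
      ContinuousAt.comp (x := ((x₀, 0) : ℝ × ℝ)) (g := kr κ) (f := fun q : ℝ × ℝ => q.1) hk
        continuousAt_fst
    have h2 : ContinuousAt (fun q : ℝ × ℝ => 1 - kr κ q.1 * q.2) (x₀, 0) :=
      continuousAt_const.sub (h1.mul continuousAt_snd)
    refine h2.eventually (lt_mem_nhds ?_)
    simp
  have e3 : ∀ᶠ q in 𝓝 ((x₀, 0) : ℝ × ℝ), 0 < -q.2 / (1 + q.1 ^ 2 + q.1 * q.2) → 0 < Sr C q :=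
    t1.eventually (pos_of_fderiv hC hCz hCd)
  have e4 : ∀ᶠ q in 𝓝 ((x₀, 0) : ℝ × ℝ), Sr C q < 1 := t2.eventually (gt_mem_nhds one_pos)
  have e5 : ∀ᶠ q in 𝓝 ((x₀, 0) : ℝ × ℝ),
      Sa (Sr C q, 2 * arctan (q.1 + q.2)) = -q.2 / (1 + q.1 ^ 2 + q.1 * q.2) := by
    have h1 : Tendsto (fun q : ℝ × ℝ =>
      (((-q.2 / (1 + q.1 ^ 2 + q.1 * q.2), 2 * arctan (q.1 + q.2)), Sr C q) : (ℝ × ℝ) × ℝ))
      (𝓝 (x₀, 0)) (𝓝 ((0, 2 * arctan x₀), 0)) := by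
      rw [nhds_prod_eq (x := ((0, 2 * arctan x₀) : ℝ × ℝ))]
      exact t1.prodMk t2
    filter_upwards [h1.eventually hiff] with q hq
    exact hq.2 rfl
  have t3 : Tendsto (fun q : ℝ × ℝ => 2 * arctan (q.1 + q.2)) (𝓝 (x₀, 0)) (𝓝 (2 * arctan x₀)) :=
    (continuous_snd.tendsto' ((0:ℝ), 2 * arctan x₀) _ rfl).comp t1
  have t4 : Tendsto (fun q : ℝ × ℝ => 2 * arctan q.1) (𝓝 (x₀, 0)) (𝓝 (2 * arctan x₀)) := by
    have h1 : Continuous (fun q : ℝ × ℝ => 2 * arctan q.1) := by fun_prop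
    exact h1.tendsto (x₀, 0)
  have e6 : ∀ᶠ q in 𝓝 ((x₀, 0) : ℝ × ℝ), 0 < Sr C q →
      Sa (Sr C q, 2 * arctan (q.1 + q.2)) = S (Sr C q) (2 * arctan (q.1 + q.2)) := by
    have h1 : Tendsto (fun q : ℝ × ℝ => ((Sr C q, 2 * arctan (q.1 + q.2)) : ℝ × ℝ))
      (𝓝 (x₀, 0)) (𝓝 (0, 2 * arctan x₀)) := by
      rw [nhds_prod_eq (x := (0:ℝ))]
      exact t2.prodMk t3
    exact h1.eventually heq
  have e7 : ∀ᶠ q in 𝓝 ((x₀, 0) : ℝ × ℝ), 0 < Sr C q →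
      Sa (Sr C q, 2 * arctan q.1) = S (Sr C q) (2 * arctan q.1) := by
    have h1 : Tendsto (fun q : ℝ × ℝ => ((Sr C q, 2 * arctan q.1) : ℝ × ℝ))
      (𝓝 (x₀, 0)) (𝓝 (0, 2 * arctan x₀)) := by
      rw [nhds_prod_eq (x := (0:ℝ))]
      exact t2.prodMk t4
    exact h1.eventually heq
  have e8 : ∀ᶠ q in 𝓝 ((x₀, 0) : ℝ × ℝ),
      (Sa (Sr C q, 2 * arctan ((TTr (kr κ) q).1 + (TTr (kr κ) q).2)) =
        -(TTr (kr κ) q).2 / (1 + (TTr (kr κ) q).1 ^ 2 + (TTr (kr κ) q).1 * (TTr (kr κ) q).2) ↔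
      Sr C (TTr (kr κ) q) = Sr C q) := by
    have h1 : Tendsto (fun q : ℝ × ℝ =>
      (((-(TTr (kr κ) q).2 / (1 + (TTr (kr κ) q).1 ^ 2 + (TTr (kr κ) q).1 * (TTr (kr κ) q).2),
        2 * arctan ((TTr (kr κ) q).1 + (TTr (kr κ) q).2)), Sr C q) : (ℝ × ℝ) × ℝ))
      (𝓝 (x₀, 0)) (𝓝 ((0, 2 * arctan x₀), 0)) := by
      rw [nhds_prod_eq (x := ((0, 2 * arctan x₀) : ℝ × ℝ))]
      exact (t1.comp tT).prodMk t2
    exact h1.eventually hiff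
  filter_upwards [e1, e2, e3, e4, e5, e6, e7, e8] with q e1 e2 e3 e4 e5 e6 e7 e8 hq
  obtain ⟨x, y⟩ := q
  simp only at e1 e2 e3 e4 e5 e6 e7 e8 hq
  set c := Sr C (x, y) with hc
  set s := -y / (1 + x ^ 2 + x * y) with hs
  have hspos : 0 < s := div_pos (by linarith) e1
  have hcpos := e3 hspos
  have hcI : c ∈ Ioo (0:ℝ) 1 := ⟨hcpos, e4⟩
  have hS : S c (2 * arctan (x + y)) = s := by rw [← e6 hcpos, e5]
  have hθ : 2 * arctan (x + y) + 2 * arctan s = 2 * arctan x := by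
    have h1 : x * -(x + y) < 1 := by nlinarith
    have h2 := arctan_add h1
    rw [arctan_neg] at h2
    have h3 : (x + -(x + y)) / (1 - x * -(x + y)) = s := by
      rw [hs]
      congr 1 <;> ring
    rw [h3] at h2
    linarith
  have hfe' := hfe c hcI (2 * arctan (x + y))
  rw [hS, hθ] at hfe'
  rw [← e8]
  have hy' : (TTr (kr κ) (x, y)).1 + (TTr (kr κ) (x, y)).2 = x := by
    simp [TTr]
  rw [hy', e7 hcpos]
  have hS2 : (S c (2 * arctan x))⁻¹ = s⁻¹ + κ (2 * arctan x) := by linarith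
  rw [← inv_inj, hS2, hs]
  have hyne : y ≠ 0 := hq.ne
  have h1 : kr κ x * (1 + x ^ 2) = κ (2 * arctan x) - 2 * x := by
    unfold kr
    rw [div_mul_cancel₀ _ (one_add_sq_ne x)]
  simp only [TTr]
  set k := kr κ x with hk'
  have hk1 : (1 - k * y) ≠ 0 := e2.ne'
  rw [inv_div, inv_div]
  have h2 : κ (2 * arctan x) = k * (1 + x ^ 2) + 2 * x := by linarith
  rw [h2]
  obtain ⟨D, hD⟩ : ∃ D, D = 1 - k * y := ⟨_, rfl⟩
  rw [← hD] at hk1 ⊢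
  have h3 : k = (1 - D) / y := by
    rw [hD]
    field_simp
    ring
  have h4 : 1 + (x - y / D) ^ 2 + (x - y / D) * (y / D) = 1 + x ^ 2 - x * (y / D) := by ring
  rw [h4, h3]
  field_simp
  ring

end Pool.Agent.MP_ae5b4e_an_ND
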