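import Pool.Agent.Lib.MP_ae5b4e_an_LAT.NDGeoX0

/-!
# The first integral of an analytic foliation near a point of the conic: local analysis
-/

open Filter Topology

namespace Pool.Agent.MP_ae5b4e_an_GeoX

theorem geo_den {x₀ : ℝ} : (1 + (x₀ : ℂ) ^ 2) ≠ 0 := by
  have h : (1 + x₀ ^ 2 : ℝ) ≠ 0 := by positivity
  exact_mod_cast h

theorem hasDerivAt_fst_slice {f : ℂ × ℂ → ℂ} {a b : ℂ} (hf : DifferentiableAt ℂ f (a, b)) :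
    HasDerivAt (fun t => f (t, b)) (fderiv ℂ f (a, b) (1, 0)) a := by
  have h2 : HasDerivAt (fun t : ℂ => ((t, b) : ℂ × ℂ)) (1, 0) a :=
    (hasDerivAt_id a).prodMk (hasDerivAt_const a b)
  exact (hf.hasFDerivAt.comp_hasDerivAt a h2)

theorem hasDerivAt_snd_slice {f : ℂ × ℂ → ℂ} {a b : ℂ} (hf : DifferentiableAt ℂ f (a, b)) :
    HasDerivAt (fun t => f (a, t)) (fderiv ℂ f (a, b) (0, 1)) b := by
  have h2 : HasDerivAt (fun t : ℂ => ((a, t) : ℂ × ℂ)) (0, 1) b :=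
    (hasDerivAt_const b a).prodMk (hasDerivAt_id b)
  exact (hf.hasFDerivAt.comp_hasDerivAt b h2)

theorem an11 (P : (ℂ × ℂ) × ℂ) : AnalyticAt ℂ (fun q : (ℂ × ℂ) × ℂ => q.1.1) P :=
  ((ContinuousLinearMap.fst ℂ ℂ ℂ).comp (ContinuousLinearMap.fst ℂ (ℂ × ℂ) ℂ)).analyticAt P

theorem an12 (P : (ℂ × ℂ) × ℂ) : AnalyticAt ℂ (fun q : (ℂ × ℂ) × ℂ => q.1.2) P :=
  ((ContinuousLinearMap.snd ℂ ℂ ℂ).comp (ContinuousLinearMap.fst ℂ (ℂ × ℂ) ℂ)).analyticAt P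

theorem an1 (P : (ℂ × ℂ) × ℂ) : AnalyticAt ℂ (fun q : (ℂ × ℂ) × ℂ => q.1) P :=
  (ContinuousLinearMap.fst ℂ (ℂ × ℂ) ℂ).analyticAt P

theorem an2 (P : (ℂ × ℂ) × ℂ) : AnalyticAt ℂ (fun q : (ℂ × ℂ) × ℂ => q.2) P :=
  (ContinuousLinearMap.snd ℂ (ℂ × ℂ) ℂ).analyticAt P

/-- The first integral `I` in the coordinates `(x, x⁻ - x)` and the map `Y` of the second
coordinate. -/
theorem geo_local {Gc : ℂ × ℂ → ℂ} {x₀ : ℝ} (hGc : AnalyticAt ℂ Gc (0, (x₀ : ℂ)))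
    (h0 : ∀ᶠ x in 𝓝 (x₀ : ℂ), Gc (0, x) = 0) (hd : fderiv ℂ Gc (0, (x₀ : ℂ)) (1, 0) ≠ 0) :
    ∃ I Y : ℂ × ℂ → ℂ, AnalyticAt ℂ I ((x₀ : ℂ), 0) ∧ AnalyticAt ℂ Y ((x₀ : ℂ), 0) ∧
      I ((x₀ : ℂ), 0) = 0 ∧ Y ((x₀ : ℂ), 0) = 0 ∧ (∀ᶠ x in 𝓝 (x₀ : ℂ), I (x, 0) = 0) ∧
      deriv (fun y => I ((x₀ : ℂ), y)) 0 ≠ 0 ∧
      (∀ᶠ q : (ℂ × ℂ) × ℂ in 𝓝 (((x₀ : ℂ), (0:ℂ)), (0:ℂ)),
        Gc (q.2, q.1.1 + q.1.2) + q.1.2 / (1 + q.1.1 ^ 2 + q.1.1 * q.1.2) = 0 ↔ I q.1 = q.2) ∧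
      (∀ᶠ q : (ℂ × ℂ) × ℂ in 𝓝 (((x₀ : ℂ), (0:ℂ)), (0:ℂ)),
        I (q.1.1 - q.2, q.2) - I q.1 = 0 ↔ Y q.1 = q.2) := by
  have hden := geo_den (x₀ := x₀)
  have h00 : Gc (0, (x₀ : ℂ)) = 0 := h0.self_of_nhds
  have hGd : DifferentiableAt ℂ Gc (0, (x₀ : ℂ)) := hGc.differentiableAt
  -- the `x`-derivative of `Gc` vanishes
  have hGx : fderiv ℂ Gc (0, (x₀ : ℂ)) (0, 1) = 0 := by
    have h1 := hasDerivAt_snd_slice hGd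
    have h2 : HasDerivAt (fun x : ℂ => Gc (0, x)) 0 (x₀ : ℂ) := by
      apply (hasDerivAt_const (x₀ : ℂ) (0:ℂ)).congr_of_eventuallyEq
      filter_upwards [h0] with x hx
      exact hx
    exact h1.unique h2
  -- the first implicit function
  set F : (ℂ × ℂ) × ℂ → ℂ := fun q =>
    Gc (q.2, q.1.1 + q.1.2) + q.1.2 / (1 + q.1.1 ^ 2 + q.1.1 * q.1.2) with hF
  have hFa : AnalyticAt ℂ F (((x₀ : ℂ), (0:ℂ)), (0:ℂ)) := by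
    have e1 : AnalyticAt ℂ (fun q : (ℂ × ℂ) × ℂ => (q.2, q.1.1 + q.1.2))
        (((x₀ : ℂ), (0:ℂ)), (0:ℂ)) := (an2 _).prod ((an11 _).add (an12 _))
    have e2 : AnalyticAt ℂ (fun q : (ℂ × ℂ) × ℂ => Gc (q.2, q.1.1 + q.1.2))
        (((x₀ : ℂ), (0:ℂ)), (0:ℂ)) :=
      AnalyticAt.fun_comp (g := Gc) (f := fun q : (ℂ × ℂ) × ℂ => (q.2, q.1.1 + q.1.2))
        (by simpa using hGc) e1
    have e3 : AnalyticAt ℂ (fun q : (ℂ × ℂ) × ℂ => q.1.2 / (1 + q.1.1 ^ 2 + q.1.1 * q.1.2))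
        (((x₀ : ℂ), (0:ℂ)), (0:ℂ)) := by
      apply AnalyticAt.div (an12 _)
        ((analyticAt_const.add ((an11 _).pow 2)).add ((an11 _).mul (an12 _)))
      simpa using hden
    exact e2.add e3
  have hF0 : F (((x₀ : ℂ), (0:ℂ)), (0:ℂ)) = 0 := by
    simp only [hF, add_zero, zero_div]
    exact h00
  have hFt : HasDerivAt (fun t => F (((x₀ : ℂ), (0:ℂ)), t)) (fderiv ℂ Gc (0, (x₀ : ℂ)) (1, 0))
      0 := by
    have h1 := hasDerivAt_fst_slice hGd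
    simp only [hF, add_zero, zero_div]
    exact h1
  obtain ⟨I, hIa, hI0, hI⟩ := implicit_analytic2 hFa hF0 hd hFt
  have hId : DifferentiableAt ℂ I ((x₀ : ℂ), 0) := hIa.differentiableAt
  -- `I` vanishes on the diagonal
  have hIz : ∀ᶠ x in 𝓝 (x₀ : ℂ), I (x, 0) = 0 := by
    have h1 : Tendsto (fun x : ℂ => (((x, (0:ℂ)), (0:ℂ)) : (ℂ × ℂ) × ℂ)) (𝓝 (x₀ : ℂ))
        (𝓝 (((x₀ : ℂ), (0:ℂ)), (0:ℂ))) := by
      have : Continuous (fun x : ℂ => (((x, (0:ℂ)), (0:ℂ)) : (ℂ × ℂ) × ℂ)) := by fun_prop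
      exact this.tendsto _
    filter_upwards [h1.eventually hI, h0] with x h2 h3
    apply h2.1
    simp only [hF, add_zero, zero_div]
    exact h3
  have hIx : fderiv ℂ I ((x₀ : ℂ), 0) (1, 0) = 0 := by
    have h1 := hasDerivAt_fst_slice hId
    have h2 : HasDerivAt (fun x : ℂ => I (x, 0)) 0 (x₀ : ℂ) := by
      apply (hasDerivAt_const (x₀ : ℂ) (0:ℂ)).congr_of_eventuallyEq
      filter_upwards [hIz] with x hx
      exact hx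
    exact h1.unique h2
  have hIy := hasDerivAt_snd_slice hId
  -- the `y`-derivative of `I`
  have hIy0 : fderiv ℂ I ((x₀ : ℂ), 0) (0, 1) ≠ 0 := by
    intro hz
    have h1 : Tendsto (fun y : ℂ => ((((x₀ : ℂ), y), I ((x₀ : ℂ), y)) : (ℂ × ℂ) × ℂ)) (𝓝 0)
        (𝓝 (((x₀ : ℂ), (0:ℂ)), (0:ℂ))) := by
      have h2 : ContinuousAt (fun y : ℂ => I ((x₀ : ℂ), y)) 0 := hIy.continuousAt
      have h3 : ContinuousAt (fun y : ℂ => ((((x₀ : ℂ), y), I ((x₀ : ℂ), y)) : (ℂ × ℂ) × ℂ)) 0 :=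
        (continuousAt_const.prodMk continuousAt_id).prodMk h2
      have h4 := h3.tendsto
      simp only [hI0] at h4
      exact h4
    have h2 : ∀ᶠ y in 𝓝 (0:ℂ), Gc (I ((x₀ : ℂ), y), (x₀ : ℂ) + y) +
        y / (1 + (x₀ : ℂ) ^ 2 + (x₀ : ℂ) * y) = 0 := by
      filter_upwards [h1.eventually hI] with y hy
      exact hy.2 rfl
    have h3 : HasDerivAt (fun y : ℂ => Gc (I ((x₀ : ℂ), y), (x₀ : ℂ) + y)) 0 0 := by
      have e1 : HasDerivAt (fun y : ℂ => ((I ((x₀ : ℂ), y), (x₀ : ℂ) + y) : ℂ × ℂ)) (0, 1) 0 := by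
        rw [hz] at hIy
        exact hIy.prodMk ((hasDerivAt_id (0:ℂ)).const_add _)
      have e2 : HasFDerivAt Gc (fderiv ℂ Gc (0, (x₀ : ℂ)))
          ((fun y : ℂ => ((I ((x₀ : ℂ), y), (x₀ : ℂ) + y) : ℂ × ℂ)) 0) := by
        simp only [hI0, add_zero]
        exact hGd.hasFDerivAt
      have e3 := e2.comp_hasDerivAt (0:ℂ) e1
      rw [hGx] at e3
      exact e3
    have h4 : HasDerivAt (fun y : ℂ => y / (1 + (x₀ : ℂ) ^ 2 + (x₀ : ℂ) * y))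
        (1 / (1 + (x₀ : ℂ) ^ 2)) 0 := by
      have e1 : HasDerivAt (fun y : ℂ => 1 + (x₀ : ℂ) ^ 2 + (x₀ : ℂ) * y) (x₀ : ℂ) 0 := by
        simpa using ((hasDerivAt_id (0:ℂ)).const_mul (x₀ : ℂ)).const_add (1 + (x₀ : ℂ) ^ 2)
      have e2 := (hasDerivAt_id (0:ℂ)).div e1 (by simpa using hden)
      refine e2.congr_deriv ?_
      simp only [id, mul_zero, add_zero, zero_mul, sub_zero, one_mul]
      rw [sq (1 + (x₀ : ℂ) ^ 2), div_mul_eq_div_div, div_self hden]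
    have h5 := (h3.add h4).unique ((hasDerivAt_const (0:ℂ) (0:ℂ)).congr_of_eventuallyEq
      (by filter_upwards [h2] with y hy; exact hy))
    rw [zero_add] at h5
    exact one_div_ne_zero hden h5
  -- the second implicit function
  set H : (ℂ × ℂ) × ℂ → ℂ := fun q => I (q.1.1 - q.2, q.2) - I q.1 with hH
  have hHa : AnalyticAt ℂ H (((x₀ : ℂ), (0:ℂ)), (0:ℂ)) := by
    have e1 : AnalyticAt ℂ (fun q : (ℂ × ℂ) × ℂ => (q.1.1 - q.2, q.2))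
        (((x₀ : ℂ), (0:ℂ)), (0:ℂ)) := ((an11 _).sub (an2 _)).prod (an2 _)
    have e2 : AnalyticAt ℂ (fun q : (ℂ × ℂ) × ℂ => I (q.1.1 - q.2, q.2))
        (((x₀ : ℂ), (0:ℂ)), (0:ℂ)) :=
      AnalyticAt.fun_comp (g := I) (f := fun q : (ℂ × ℂ) × ℂ => (q.1.1 - q.2, q.2))
        (by simpa using hIa) e1
    have e3 : AnalyticAt ℂ (fun q : (ℂ × ℂ) × ℂ => I q.1) (((x₀ : ℂ), (0:ℂ)), (0:ℂ)) :=
      AnalyticAt.fun_comp (g := I) (f := fun q : (ℂ × ℂ) × ℂ => q.1) hIa (an1 _)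
    exact e2.sub e3
  have hH0 : H (((x₀ : ℂ), (0:ℂ)), (0:ℂ)) = 0 := by
    simp [hH]
  have hHt : HasDerivAt (fun t => H (((x₀ : ℂ), (0:ℂ)), t)) (fderiv ℂ I ((x₀ : ℂ), 0) (0, 1))
      0 := by
    have e1 : HasDerivAt (fun t : ℂ => (((x₀ : ℂ) - t, t) : ℂ × ℂ)) (-1, 1) 0 :=
      ((hasDerivAt_id (0:ℂ)).const_sub _).prodMk (hasDerivAt_id (0:ℂ))
    have e2 : HasFDerivAt I (fderiv ℂ I ((x₀ : ℂ), 0))
        ((fun t : ℂ => (((x₀ : ℂ) - t, t) : ℂ × ℂ)) 0) := by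
      simp only [sub_zero]
      exact hId.hasFDerivAt
    have e3 : HasDerivAt (fun t : ℂ => I ((x₀ : ℂ) - t, t) - I ((x₀ : ℂ), 0))
        (fderiv ℂ I ((x₀ : ℂ), 0) (-1, 1)) 0 :=
      (e2.comp_hasDerivAt (f := fun t : ℂ => (((x₀ : ℂ) - t, t) : ℂ × ℂ)) (0:ℂ) e1).sub_const _
    refine e3.congr_deriv ?_
    have e4 : ((-1, 1) : ℂ × ℂ) = (-1 : ℂ) • ((1, 0) : ℂ × ℂ) + (0, 1) := by
      ext <;> simp
    rw [e4, map_add, map_smul, hIx, smul_zero, zero_add]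
  obtain ⟨Y, hYa, hY0, hY⟩ := implicit_analytic2 hHa hH0 hIy0 hHt
  refine ⟨I, Y, hIa, hYa, hI0, hY0, hIz, ?_, hI, hY⟩
  rw [hIy.deriv]
  exact hIy0

end Pool.Agent.MP_ae5b4e_an_GeoX
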