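import Pool.Agent.Lib.MP_ae5b4e_an_LAT.NDGeo
import Pool.Agent.Lib.MP_ae5b4e_an_LAT.NDGlue

/-!
# MP_ae5b4e_an: from the local theorem back to the conic
-/

noncomputable section

open Filter Topology Real Polynomial

namespace Pool.Agent.MP_ae5b4e_an_ND

/-- Real and imaginary parts of a polynomial. -/
lemma exists_re_im (B : ℂ[X]) : ∃ B₁ B₂ : ℝ[X],
    B = B₁.map Complex.ofRealHom + C Complex.I * B₂.map Complex.ofRealHom := by
  induction B using Polynomial.induction_on' with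
  | add p q hp hq =>
    obtain ⟨p₁, p₂, hp⟩ := hp
    obtain ⟨q₁, q₂, hq⟩ := hq
    refine ⟨p₁ + q₁, p₂ + q₂, ?_⟩
    rw [hp, hq, Polynomial.map_add, Polynomial.map_add]
    ring
  | monomial n a =>
    refine ⟨monomial n a.re, monomial n a.im, ?_⟩
    rw [map_monomial, map_monomial, C_mul_monomial, ← map_add]
    congr 1
    simp only [Complex.ofRealHom_eq_coe]
    rw [mul_comm]
    exact (Complex.re_add_im a).symm

lemma eval_re_im (B₁ B₂ : ℝ[X]) (x : ℝ) :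
    (B₁.map Complex.ofRealHom + C Complex.I * B₂.map Complex.ofRealHom).eval (x : ℂ) =
      ((B₁.eval x : ℝ) : ℂ) + Complex.I * ((B₂.eval x : ℝ) : ℂ) := by
  have h : ∀ P : ℝ[X], (P.map Complex.ofRealHom).eval (x : ℂ) = ((P.eval x : ℝ) : ℂ) := by
    intro P
    rw [eval_map]
    exact eval₂_at_apply Complex.ofRealHom x
  rw [eval_add, eval_mul, eval_C, h, h]

lemma tan_half {θ : ℝ} (h : cos (θ / 2) ≠ 0) :
    ∃ k : ℤ, θ = 2 * arctan (tan (θ / 2)) + k * (2 * π) := by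
  set k : ℤ := ⌊(θ / 2 + π / 2) / π⌋ with hk
  have h1 : (k : ℝ) ≤ (θ / 2 + π / 2) / π := Int.floor_le _
  have h2 : (θ / 2 + π / 2) / π < k + 1 := Int.lt_floor_add_one _
  rw [le_div_iff₀ pi_pos] at h1
  rw [div_lt_iff₀ pi_pos] at h2
  set t := θ / 2 - k * π with ht
  have htan : tan t = tan (θ / 2) := by
    rw [ht]
    exact tan_periodic.sub_int_mul_eq k
  have hne : t ≠ -(π / 2) := by
    intro h3
    apply h
    have h4 : θ / 2 = -(π / 2) + k * π := by rw [← h3]; ring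
    rw [h4, cos_add_int_mul_pi, cos_neg, cos_pi_div_two, mul_zero]
  have h3 : -(π / 2) < t := lt_of_le_of_ne (by rw [ht]; linarith) (Ne.symm hne)
  have h4 : t < π / 2 := by rw [ht]; linarith
  refine ⟨k, ?_⟩
  rw [← htan, arctan_tan h3 h4, ht]
  ring

/-- The local rational expression holds on the whole conic, with real polynomials. -/
theorem rational_of_local {κ : ℝ → ℝ} (hκ : ∀ θ, AnalyticAt ℝ κ θ)
    (hper : ∀ θ, κ (θ + 2 * π) = κ θ) {x₀ : ℝ} {A B : ℂ[X]} (hB : B ≠ 0) {kc : ℂ → ℂ}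
    (hkc : ∀ᶠ x : ℝ in 𝓝 x₀, kc (x : ℂ) = (kr κ x : ℂ))
    (h : ∀ᶠ x in 𝓝 (x₀ : ℂ), kc x * B.eval x = A.eval x) :
    ∃ A' B' : ℝ[X], B' ≠ 0 ∧
      ∀ θ, cos (θ / 2) ≠ 0 → κ θ * B'.eval (tan (θ / 2)) = A'.eval (tan (θ / 2)) := by
  -- real polynomials near `x₀`
  obtain ⟨A₁, B₁, hB₁, h₁⟩ : ∃ A₁ B₁ : ℝ[X], B₁ ≠ 0 ∧
      ∀ᶠ x : ℝ in 𝓝 x₀, kr κ x * B₁.eval x = A₁.eval x := by
    obtain ⟨B₁, B₂, hBe⟩ := exists_re_im B
    obtain ⟨A₁, A₂, hAe⟩ := exists_re_im A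
    have h1 : ∀ᶠ x : ℝ in 𝓝 x₀, kc (x : ℂ) * B.eval (x : ℂ) = A.eval (x : ℂ) :=
      (Complex.continuous_ofReal.tendsto x₀).eventually h
    have h2 : ∀ᶠ x : ℝ in 𝓝 x₀, kr κ x * B₁.eval x = A₁.eval x ∧
        kr κ x * B₂.eval x = A₂.eval x := by
      filter_upwards [h1, hkc] with x e1 e2
      rw [e2, hBe, hAe, eval_re_im, eval_re_im] at e1
      have e3 := congrArg Complex.re e1
      have e4 := congrArg Complex.im e1
      simp at e3 e4
      exact ⟨e3, e4⟩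
    by_cases hB₁ : B₁ = 0
    · refine ⟨A₂, B₂, ?_, h2.mono fun x hx => hx.2⟩
      rintro rfl
      apply hB
      rw [hBe, hB₁]
      simp
    · exact ⟨A₁, B₁, hB₁, h2.mono fun x hx => hx.1⟩
  refine ⟨(1 + X ^ 2) * A₁ + 2 * X * B₁, B₁, hB₁, ?_⟩
  -- the identity for `x` near `x₀`, hence for all `x`
  set g : ℝ → ℝ := fun x => κ (2 * arctan x) * B₁.eval x -
    ((1 + X ^ 2) * A₁ + 2 * X * B₁).eval x with hg
  have hpoly : ∀ (P : ℝ[X]) (x : ℝ), AnalyticAt ℝ (fun x => P.eval x) x := by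
    intro P x
    have := (analyticAt_id (𝕜 := ℝ) (z := x)).aeval_polynomial P
    simpa using this
  have hga : AnalyticOnNhd ℝ g Set.univ := by
    intro x _
    have h1 : AnalyticAt ℝ (fun x : ℝ => 2 * arctan x) x :=
      analyticAt_const.mul (analyticAt_arctan x)
    have h2 : AnalyticAt ℝ (fun x : ℝ => κ (2 * arctan x)) x :=
      AnalyticAt.comp (f := fun x : ℝ => 2 * arctan x) (hκ _) h1
    exact (h2.mul (hpoly _ _)).sub (hpoly _ _)
  have hg0 : ∀ᶠ x in 𝓝 x₀, g x = 0 := by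
    filter_upwards [h₁] with x hx
    simp only [hg, eval_add, eval_mul, eval_one, eval_pow, eval_X, eval_ofNat]
    have h2 : kr κ x * (1 + x ^ 2) = κ (2 * arctan x) - 2 * x := by
      unfold kr
      rw [div_mul_cancel₀ _ (one_add_sq_ne x)]
    rw [← hx]
    linear_combination (-(B₁.eval x)) * h2
  have hgz : ∀ x, g x = 0 := by
    intro x
    have := hga.eqOn_zero_of_preconnected_of_eventuallyEq_zero isPreconnected_univ
      (Set.mem_univ x₀) hg0
    exact this (Set.mem_univ x)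
  intro θ hθ
  obtain ⟨k, hk⟩ := tan_half hθ
  have h3 := hgz (tan (θ / 2))
  have h4 : κ (2 * arctan (tan (θ / 2))) = κ θ := by
    have hp : Function.Periodic κ (2 * π) := hper
    conv_rhs => rw [hk]
    exact (hp.int_mul k _).symm
  simp only [hg] at h3
  rw [h4] at h3
  linarith

/-- The algebraic relation in the affine coordinate. -/
theorem alg_local {κ : ℝ → ℝ} {G : ℝ[X][X]} (hG : G ≠ 0) {x₀ : ℝ}
    (halg : ∀ᶠ x in 𝓝 x₀, evalEval x (κ (2 * arctan x)) G = 0) {kc : ℂ → ℂ}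
    (hkca : AnalyticAt ℂ kc (x₀ : ℂ))
    (hkc : ∀ᶠ x : ℝ in 𝓝 x₀, kc (x : ℂ) = (kr κ x : ℂ)) :
    ∃ G' : ℂ[X][X], G' ≠ 0 ∧ ∀ᶠ x in 𝓝 (x₀ : ℂ), evalEval x (kc x) G' = 0 := by
  set q : ℂ[X][X] := C (1 + X ^ 2) * X + C (2 * X) with hq
  have h1 : (1 + X ^ 2 : ℂ[X]) ≠ 0 := by
    intro h
    have := congrArg (eval 0) h
    simp at this
  have hqd : q.natDegree = 1 := natDegree_linear h1
  set Gc : ℂ[X][X] := G.map (mapRingHom Complex.ofRealHom) with hGc
  have hGc0 : Gc ≠ 0 := by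
    rw [hGc, Ne, Polynomial.map_eq_zero_iff]
    · exact hG
    · exact map_injective _ Complex.ofRealHom.injective
  refine ⟨Gc.comp q, ?_, ?_⟩
  · rw [Ne, comp_eq_zero_iff]
    rintro (h | ⟨-, h⟩)
    · exact hGc0 h
    · rw [h, natDegree_C] at hqd
      exact zero_ne_one hqd
  · refine eventually_zero_of_real1 (analyticAt_evalEval_comp hkca _) ?_
    filter_upwards [halg, hkc] with x e1 e2
    have h3 : ∀ (x y : ℂ) (P : ℂ[X][X]), evalEval x y (P.comp q) =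
        evalEval x ((1 + x ^ 2) * y + 2 * x) P := by
      intro x y P
      have h4 : eval (C y) q = (1 + X ^ 2) * C y + 2 * X := by
        rw [hq]
        simp
      rw [evalEval, eval_comp, h4, ← coe_evalRingHom, ← eval₂_at_apply, ← eval₂_evalRingHom]
      congr 1
      simp
    rw [h3, e2]
    have h5 : (1 + (x : ℂ) ^ 2) * (kr κ x : ℂ) + 2 * (x : ℂ) = ((κ (2 * arctan x) : ℝ) : ℂ) := by
      have h6 : kr κ x * (1 + x ^ 2) = κ (2 * arctan x) - 2 * x := by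
        unfold kr
        rw [div_mul_cancel₀ _ (one_add_sq_ne x)]
      have h7 : κ (2 * arctan x) = (1 + x ^ 2) * kr κ x + 2 * x := by linarith
      rw [h7]
      push_cast
      ring
    rw [h5]
    have h8 := map_mapRingHom_evalEval Complex.ofRealHom G x (κ (2 * arctan x))
    rw [e1, map_zero] at h8
    exact h8

end Pool.Agent.MP_ae5b4e_an_ND
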