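import Pool.Agent.Lib.MP_ae5b4e_an_LAT.NDFin

/-!
# MP_ae5b4e_an: the local theorem, assembled from its parts

`nd_main_of`: if `κ` is algebraic and the map `TT κ` has an analytic first integral near one point
of the diagonal, then `κ` is a rational function.  The parts enter as hypotheses.
-/

noncomputable section

open Polynomial Filter Topology

namespace Pool.Agent.MP_ae5b4e_an_ND

open Pool.Agent.Lib.Puiseux

/-- `κ` in the coordinate `1 / (x - a)`. -/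
def mobk' (a : ℂ) (κ : ℂ → ℂ) (y : ℂ) : ℂ := -(κ (a + 1 / y)) / y ^ 2 - 2 / y

lemma rat_of_natDegree_one {κ : ℂ → ℂ} {x₀ : ℂ} {m : ℂ[X][X]} (hd : m.natDegree = 1)
    (hm : ∀ᶠ x in 𝓝 x₀, evalEval x (κ x) m = 0) :
    ∃ A B : ℂ[X], B ≠ 0 ∧ ∀ᶠ x in 𝓝 x₀, κ x * B.eval x = A.eval x := by
  refine ⟨-m.coeff 0, m.coeff 1, ?_, ?_⟩
  · intro h
    have h1 : m.leadingCoeff = 0 := by rw [leadingCoeff, hd, h]
    rw [leadingCoeff_eq_zero] at h1
    rw [h1, natDegree_zero] at hd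
    exact zero_ne_one hd
  · filter_upwards [hm] with x hx
    have h1 : eval (C (κ x)) m = m.coeff 0 + m.coeff 1 * C (κ x) := by
      rw [eval_eq_sum_range, hd, Finset.sum_range_succ, Finset.sum_range_one, pow_zero, mul_one,
        pow_one]
    rw [evalEval, h1, eval_add, eval_mul, eval_C] at hx
    rw [eval_neg]
    linear_combination hx

theorem nd_main_of
    -- `P`: goodness propagates along discs
    (hP : ∀ (κ : ℂ → ℂ) (c : ℂ) (R : ℝ), AnalyticOnNhd ℂ κ (Metric.ball c R) →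
      ∀ x₁ ∈ Metric.ball c R, Good κ x₁ → ∀ x ∈ Metric.ball c R, Good κ x)
    -- the local result at a place
    (hplace : ∀ {e : ℂ} {N : ℕ} {κ : ℂ → ℂ} {δ : ℝ}, PlaceOK e N κ δ →
      ∀ {K : ℕ} {h : ℂ → ℂ}, DifferentiableOn ℂ h (Metric.ball 0 δ) →
      (∀ w, w ≠ 0 → ‖w‖ < δ → κ w = h w / w ^ K) →
      ∃ c : ℂ, Tendsto (fun w => w ^ N * κ w) (𝓝[≠] 0) (𝓝 c) ∧
        (c = -1 ∨ ((∃ m : ℤ, (1 + c) * m = 1) ∧
          ∀ om : ℂ, om ^ N = 1 → ∀ᶠ w in 𝓝[≠] 0, κ (om * w) = κ w)))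
    -- every root in Laurent series comes from a place
    (hex : ∀ {m : ℂ[X][X]}, Irreducible (m.map (algebraMap ℂ[X] (RatFunc ℂ))) →
      ∀ (e : ℂ) {N : ℕ}, 0 < N → ∀ {r : LaurentSeries ℂ},
      (m.map ((aeval (HahnSeries.C e + HahnSeries.single (N : ℤ) (1:ℂ)) :
        ℂ[X] →ₐ[ℂ] LaurentSeries ℂ) : ℂ[X] →+* LaurentSeries ℂ)).eval r = 0 →
      ∃ δ > 0, ∃ (K : ℕ) (h : ℂ → ℂ), DifferentiableOn ℂ h (Metric.ball 0 δ) ∧
        (∀ w : ℂ, ‖w‖ < δ → HasSum (fun n : ℕ => r.coeff ((n : ℤ) - K) * w ^ n) (h w)) ∧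
        (∀ j < -(K : ℤ), r.coeff j = 0) ∧
        ∀ w, w ≠ 0 → ‖w‖ < δ → Reg m (e + w ^ N) ∧ evalEval (e + w ^ N) (h w / w ^ K) m = 0)
    -- a generic point is moved to infinity
    (hgm : ∀ {κ : ℂ → ℂ} {x₀ a : ℂ}, Good κ x₀ → x₀ ≠ a → Good (mobk' a κ) (1 / (x₀ - a)))
    (hmp : ∀ (m : ℂ[X][X]), Irreducible (m.map (algebraMap ℂ[X] (RatFunc ℂ))) → ∀ (a : ℂ),
      Reg m a → ∃ mt : ℂ[X][X], Irreducible (mt.map (algebraMap ℂ[X] (RatFunc ℂ))) ∧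
        mt.natDegree = m.natDegree ∧
        (∃ M : ℕ, ∀ y t : ℂ, y ≠ 0 →
          evalEval y t mt = y ^ M * evalEval (a + 1 / y) (-(y ^ 2 * t) - 2 * y) m) ∧
        (mt.map ((aeval (HahnSeries.single (-1 : ℤ) (1:ℂ)) :
          ℂ[X] →ₐ[ℂ] LaurentSeries ℂ) : ℂ[X] →+* LaurentSeries ℂ)).Splits ∧
        ∀ r : LaurentSeries ℂ, (mt.map ((aeval (HahnSeries.single (-1 : ℤ) (1:ℂ)) :
          ℂ[X] →ₐ[ℂ] LaurentSeries ℂ) : ℂ[X] →+* LaurentSeries ℂ)).eval r = 0 →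
          (∀ k ≤ 0, r.coeff k = 0) ∧ r.coeff 1 = -2)
    -- the counting theorem
    (hcount : ∀ (m : ℂ[X][X]), Irreducible (m.map (algebraMap ℂ[X] (RatFunc ℂ))) →
      (m.map ((aeval (HahnSeries.single (-1 : ℤ) (1:ℂ)) :
          ℂ[X] →ₐ[ℂ] LaurentSeries ℂ) : ℂ[X] →+* LaurentSeries ℂ)).Splits →
      (∀ r : LaurentSeries ℂ, (m.map ((aeval (HahnSeries.single (-1 : ℤ) (1:ℂ)) :
          ℂ[X] →ₐ[ℂ] LaurentSeries ℂ) : ℂ[X] →+* LaurentSeries ℂ)).eval r = 0 →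
          (∀ k ≤ 0, r.coeff k = 0) ∧ r.coeff 1 = -2) →
      (∀ (e : ℂ) (N : ℕ) (hN : 0 < N) (r : LaurentSeries ℂ),
        (m.map ((aeval (HahnSeries.C e + HahnSeries.single (N : ℤ) (1:ℂ)) :
          ℂ[X] →ₐ[ℂ] LaurentSeries ℂ) : ℂ[X] →+* LaurentSeries ℂ)).eval r = 0 →
        (∀ k < -(N : ℤ), r.coeff k = 0) ∧
        (0 < (1 + r.coeff (-(N : ℤ))).re → r ∈ Set.range (subst ⟨N, hN⟩ : LaurentSeries ℂ →+* _) ∧
          ∃ q : ℕ, 0 < q ∧ 1 + r.coeff (-(N : ℤ)) = 1 / (q : ℂ))) →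
      m.natDegree = 1)
    {κ : ℂ → ℂ} {x₀ : ℂ} (hgood : Good κ x₀) {G : ℂ[X][X]} (hG : G ≠ 0)
    (hrel : ∀ᶠ x in 𝓝 x₀, evalEval x (κ x) G = 0) :
    ∃ A B : ℂ[X], B ≠ 0 ∧ ∀ᶠ x in 𝓝 x₀, κ x * B.eval x = A.eval x := by
  obtain ⟨m, hirr, hm⟩ := exists_factor hgood.1 hG hrel
  -- a regular point near `x₀`
  obtain ⟨x₁, hx₁, hgood₁, hm₁⟩ := ((reg_eventually_ne hirr x₀).and
    ((hgood.eventually.filter_mono nhdsWithin_le_nhds).and
      (hm.eventually_nhds.filter_mono nhdsWithin_le_nhds))).exists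
  -- a regular point which goes to infinity
  obtain ⟨a, ha, hne⟩ := ((reg_eventually_ne hirr x₁).and self_mem_nhdsWithin).exists
  have hne' : x₁ ≠ a := fun h => hne h.symm
  have hsub : x₁ - a ≠ 0 := sub_ne_zero.2 hne'
  obtain ⟨mt, hirrt, hdeg, ⟨M, hM⟩, hspl, hinf⟩ := hmp m hirr a ha
  set y₁ : ℂ := 1 / (x₁ - a) with hy₁
  have hy₁0 : y₁ ≠ 0 := one_div_ne_zero hsub
  have hay₁ : a + 1 / y₁ = x₁ := by
    rw [hy₁, one_div_one_div]
    ring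
  have hgt : Good (mobk' a κ) y₁ := hgm hgood₁ hne'
  have hmt : ∀ᶠ y in 𝓝 y₁, evalEval y (mobk' a κ y) mt = 0 := by
    have hcont : Tendsto (fun y : ℂ => a + 1 / y) (𝓝 y₁) (𝓝 x₁) := by
      have : ContinuousAt (fun y : ℂ => a + 1 / y) y₁ :=
        continuousAt_const.add (continuousAt_const.div continuousAt_id hy₁0)
      rw [ContinuousAt, hay₁] at this
      exact this
    filter_upwards [hcont.eventually hm₁, isOpen_ne.eventually_mem hy₁0] with y hy hy0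
    have hy0 : y ≠ 0 := hy0
    rw [hM _ _ hy0]
    have h1 : -(y ^ 2 * mobk' a κ y) - 2 * y = κ (a + 1 / y) := by
      rw [mobk']
      field_simp
      ring
    rw [h1, hy, mul_zero]
  obtain ⟨y₂, hy₂, hgt₂, hmt₂⟩ := ((reg_eventually_ne hirrt y₁).and
    ((hgt.eventually.filter_mono nhdsWithin_le_nhds).and
      (hmt.eventually_nhds.filter_mono nhdsWithin_le_nhds))).exists
  have hall : ∀ x t, Reg mt x → evalEval x t mt = 0 → BGood mt x t :=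
    fun x t hx ht => bgood_all hirrt hP hy₂ hgt₂ hmt₂ hx ht
  have hone : mt.natDegree = 1 := by
    refine hcount mt hirrt hspl hinf ?_
    intro e N hN r hr
    obtain ⟨δ, hδ, K, h, hh, hsum, hlow, hreg⟩ := hex hirrt e hN hr
    exact fin_of_place hall hplace hN hδ hh hsum hlow hreg
  exact rat_of_natDegree_one (hdeg ▸ hone) hm

end Pool.Agent.MP_ae5b4e_an_ND
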