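import Pool.Agent.Lib.MP_ae5b4e_an_LAT.NDLast

/-!
# MP_ae5b4e_an: the base point of the local data
-/

noncomputable section

open Filter Topology Real

namespace Pool.Agent.MP_ae5b4e_an_ND

/-- The analytic data near `(0, θ₀)` give analytic data near `(0, 2 arctan x₀)` for some `x₀`. -/
lemma exists_base {S : ℝ → ℝ → ℝ} {θ₀ : ℝ} {Sa : ℝ × ℝ → ℝ}
    (hper : ∀ c ∈ Set.Ioo (0:ℝ) 1, ∀ θ, S c (θ + 2 * π) = S c θ)
    (hSa : AnalyticAt ℝ Sa (0, θ₀))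
    (heq : ∀ᶠ q in 𝓝 ((0, θ₀) : ℝ × ℝ), 0 < q.1 → Sa q = S q.1 q.2)
    (hd : 0 < deriv (fun c => Sa (c, θ₀)) 0) :
    ∃ (x₀ : ℝ) (Sb : ℝ × ℝ → ℝ), AnalyticAt ℝ Sb (0, 2 * arctan x₀) ∧
      (∀ᶠ q in 𝓝 ((0, 2 * arctan x₀) : ℝ × ℝ), 0 < q.1 → Sb q = S q.1 q.2) ∧
      0 < deriv (fun c => Sb (c, 2 * arctan x₀)) 0 := by
  have hcont : Tendsto (fun θ : ℝ => ((0, θ) : ℝ × ℝ)) (𝓝 θ₀) (𝓝 (0, θ₀)) := by
    have : Continuous (fun θ : ℝ => ((0, θ) : ℝ × ℝ)) := by fun_prop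
    exact this.tendsto θ₀
  -- the derivative is positive near `θ₀`
  have hder : ∀ᶠ θ in 𝓝 θ₀, 0 < deriv (fun c => Sa (c, θ)) 0 := by
    have hF : ContinuousAt (fun q : ℝ × ℝ => fderiv ℝ Sa q (1, 0)) (0, θ₀) := by
      have h1 : ContinuousAt (fderiv ℝ Sa) (0, θ₀) := hSa.fderiv.continuousAt
      exact h1.clm_apply continuousAt_const
    have heq' : ∀ θ, DifferentiableAt ℝ Sa (0, θ) →
        deriv (fun c => Sa (c, θ)) 0 = fderiv ℝ Sa (0, θ) (1, 0) := by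
      intro θ hθ
      have h2 : HasDerivAt (fun c : ℝ => ((c, θ) : ℝ × ℝ)) (1, 0) 0 :=
        (hasDerivAt_id (0:ℝ)).prodMk (hasDerivAt_const (0:ℝ) θ)
      exact (hθ.hasFDerivAt.comp_hasDerivAt (0:ℝ) h2).deriv
    have h3 : 0 < fderiv ℝ Sa (0, θ₀) (1, 0) := by
      rw [← heq' θ₀ hSa.differentiableAt]
      exact hd
    filter_upwards [hcont.eventually (hF.eventually (lt_mem_nhds h3)),
      hcont.eventually hSa.eventually_analyticAt] with θ hθ hθa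
    rw [heq' θ hθa.differentiableAt]
    exact hθ
  have hcos : ∃ᶠ θ in 𝓝 θ₀, cos (θ / 2) ≠ 0 := by
    intro h
    have h0 : ∀ᶠ θ in 𝓝 θ₀, cos (θ / 2) = 0 := h.mono fun θ hθ => not_not.1 hθ
    have h1 := h0.self_of_nhds
    have h2 : HasDerivAt (fun θ : ℝ => cos (θ / 2)) (-sin (θ₀ / 2) * (1 / 2)) θ₀ := by
      have h3 : HasDerivAt (fun θ : ℝ => θ / 2) (1 / 2) θ₀ := (hasDerivAt_id θ₀).div_const 2
      exact h3.cos
    have h4 : HasDerivAt (fun θ : ℝ => cos (θ / 2)) 0 θ₀ :=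
      (hasDerivAt_const θ₀ (0:ℝ)).congr_of_eventuallyEq h0
    have h5 := h2.unique h4
    have h6 : sin (θ₀ / 2) = 0 := by linarith
    have h7 := sin_sq_add_cos_sq (θ₀ / 2)
    rw [h6, h1] at h7
    norm_num at h7
  obtain ⟨θ, hc, h1, h2, h3⟩ := (hcos.and_eventually
    ((hcont.eventually hSa.eventually_analyticAt).and
      ((hcont.eventually heq.eventually_nhds).and hder))).exists
  obtain ⟨k, hk⟩ := tan_half hc
  set x₀ := tan (θ / 2) with hx₀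
  set τ : ℝ := k * (2 * π) with hτ
  have htr : Tendsto (fun q : ℝ × ℝ => ((q.1, q.2 + τ) : ℝ × ℝ)) (𝓝 (0, 2 * arctan x₀))
      (𝓝 (0, θ)) := by
    have : Continuous (fun q : ℝ × ℝ => ((q.1, q.2 + τ) : ℝ × ℝ)) := by fun_prop
    have h := this.tendsto (0, 2 * arctan x₀)
    simp only at h
    rw [← hk] at h
    exact h
  refine ⟨x₀, fun q => Sa (q.1, q.2 + τ), ?_, ?_, ?_⟩
  · have h4 : AnalyticAt ℝ (fun q : ℝ × ℝ => ((q.1, q.2 + τ) : ℝ × ℝ)) (0, 2 * arctan x₀) :=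
      analyticAt_fst.prod (analyticAt_snd.add analyticAt_const)
    have h5 : AnalyticAt ℝ Sa ((fun q : ℝ × ℝ => ((q.1, q.2 + τ) : ℝ × ℝ)) (0, 2 * arctan x₀)) := by
      simp only
      rw [← hk]
      exact h1
    exact AnalyticAt.comp (f := fun q : ℝ × ℝ => ((q.1, q.2 + τ) : ℝ × ℝ)) h5 h4
  · have hlt : ∀ᶠ q in 𝓝 ((0, 2 * arctan x₀) : ℝ × ℝ), q.1 < 1 := by
      have : Tendsto (fun q : ℝ × ℝ => q.1) (𝓝 (0, 2 * arctan x₀)) (𝓝 0) :=
        continuous_fst.tendsto' _ _ rfl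
      exact this.eventually (gt_mem_nhds one_pos)
    filter_upwards [htr.eventually h2, hlt] with q hq hq1 hq0
    rw [hq hq0]
    have hp : Function.Periodic (S q.1) (2 * π) := hper q.1 ⟨hq0, hq1⟩
    exact hp.int_mul k q.2
  · simp only
    rw [← hk]
    exact h3

end Pool.Agent.MP_ae5b4e_an_ND
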